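import Pool.Agent.BAR.Pairs
import Pool.Agent.PHW.AvgV0
import Pool.Agent.PHW.CuLog

/-!
BAR: cuts of the half plane walks.
-/

set_option autoImplicit false

namespace HexObs

open Complex Finset ENNReal

namespace BAR

/-- all the vertices after the start are above the level 0 -/
def Pos (u : List Bool) : Prop := ∀ i, 1 ≤ i → i ≤ u.length → 0 < lev u i

lemma pos_SSt {d : ℕ} {u : List Bool} (h : u ∈ SSt d) : Pos u := fun i h1 h2 => (mem_St.1 (h.mem i h1 h2)).1

lemma pos_Brd {d : ℕ} {u : List Bool} (h : u ∈ Brd d) : Pos u := fun i h1 h2 => ((mem_Brd.1 h).1 i h1 h2).1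

lemma Brd_SSt {d : ℕ} {u : List Bool} (h : u ∈ Brd d) : u ∈ SSt d := by
  rw [mem_Brd] at h
  refine ⟨fun i h1 h2 => ?_, h.2.1⟩
  rw [mem_St]
  have := h.1 i h1 h2
  omega

lemma SSt_mono {d e : ℕ} (h : d ≤ e) {u : List Bool} (hu : u ∈ SSt d) : u ∈ SSt e := by
  refine ⟨fun i h1 h2 => ?_, hu.inj⟩
  have := mem_St.1 (hu.mem i h1 h2)
  rw [mem_St]
  omega

lemma nil_SSt (d : ℕ) : ([] : List Bool) ∈ SSt d := SSt_mono (Nat.zero_le d) (Brd_SSt nil_mem_Brd)

lemma SSt_cat {r d : ℕ} {c s : List Bool} (hc : c ∈ Brd r) (hs : s ∈ SSt d) : c ++ s ∈ SSt (r + d) := by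
  have hc' := hc
  rw [mem_Brd] at hc'
  obtain ⟨c1, c2, c3, c4⟩ := hc'
  have key : ∀ i, i ≤ (c ++ s).length → ¬ i ≤ c.length → ∃ j, 1 ≤ j ∧ j ≤ s.length ∧ i = c.length + j := by
    intro i h1 h2
    rw [List.length_append] at h1
    exact ⟨i - c.length, by omega, by omega, by omega⟩
  refine ⟨fun i h1 h2 => ?_, fun i k hik hk heq => ?_⟩
  · rw [mem_St]
    by_cases h : i ≤ c.length
    · rw [lev_append (by omega)]
      have := c1 i h1 h
      push_cast
      omega
    · obtain ⟨j, j1, j2, rfl⟩ := key i h2 h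
      rw [lev_cat c3, c4]
      have := mem_St.1 (hs.mem j j1 j2)
      push_cast
      omega
  · by_cases h : k ≤ c.length
    · rw [vx_append (by omega), vx_append (by omega)] at heq
      exact c2 i k hik h heq
    · obtain ⟨j, j1, j2, rfl⟩ := key k hk h
      by_cases h' : i ≤ c.length
      · have h5 := congrArg (fun p => ip p up) heq
        have h6 : lev (c ++ s) i = lev (c ++ s) (c.length + j) := h5
        rw [lev_cat c3, c4, lev_append (by omega)] at h6
        have h7 := (mem_St.1 (hs.mem j j1 j2)).1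
        rcases Nat.eq_zero_or_pos i with hi | hi
        · rw [hi, lev_zero] at h6
          omega
        · have := (c1 i hi h').2
          omega
      · obtain ⟨j', j1', j2', rfl⟩ := key i (by omega) h'
        rw [vx_cat c3, vx_cat c3] at heq
        exact hs.inj j' j (by omega) j2 (add_left_cancel heq)

lemma SSt_tail {r d : ℕ} {c s : List Bool} (hc : c ∈ Brd r) (h : c ++ s ∈ SSt d) (hs : Pos s) : s ∈ SSt d := by
  rw [mem_Brd] at hc
  obtain ⟨c1, c2, c3, c4⟩ := hc
  refine ⟨fun i h1 h2 => ?_, fun i k hik hk heq => ?_⟩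
  · have h3 := mem_St.1 (h.mem (c.length + i) (by omega) (by rw [List.length_append]; omega))
    rw [lev_cat c3, c4] at h3
    rw [mem_St]
    have := hs i h1 h2
    omega
  · apply h.inj (c.length + i) (c.length + k) (by omega) (by rw [List.length_append]; omega)
    rw [vx_cat c3, vx_cat c3, heq]

/-- a bridge at the beginning of a walk of the strip is not higher than the strip -/
lemma Brd_height_le {r d : ℕ} {c s : List Bool} (hc : c ∈ Brd r) (h : c ++ s ∈ SSt d) : r ≤ d := by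
  rcases Nat.eq_zero_or_pos c.length with h0 | h0
  · have h1 : c = [] := List.length_eq_zero_iff.1 h0
    rw [h1] at hc
    have := Brd_height hc nil_mem_Brd
    omega
  · have h1 := (mem_St.1 (h.mem c.length h0 (by rw [List.length_append]; omega))).2
    rw [lev_append (by omega), (mem_Brd.1 hc).2.2.2] at h1
    omega

lemma beyond {c : ℕ} {s u : List Bool} (hs : s ∈ Brd c) (hu : Pos u) {i : ℕ}
    (h1 : s.length < i) (h2 : i ≤ (s ++ u).length) : 3 * (c : ℤ) < lev (s ++ u) i := by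
  rw [mem_Brd] at hs
  obtain ⟨s1, s2, s3, s4⟩ := hs
  rw [List.length_append] at h2
  obtain ⟨k, rfl⟩ : ∃ k, i = s.length + k := ⟨i - s.length, by omega⟩
  have := hu k (by omega) (by omega)
  rw [lev_cat s3, s4]
  omega

lemma at_cut {c : ℕ} {s u : List Bool} (hs : s ∈ Brd c) :
    lev (s ++ u) s.length = 3 * (c : ℤ) := by
  rw [lev_append (by omega)]
  exact (mem_Brd.1 hs).2.2.2

lemma nested {c c' : ℕ} {s s' u u' : List Bool} (hs : s ∈ Brd c) (hs' : s' ∈ Brd c')
    (hu : Pos u) (hu' : Pos u') (hc : c ≤ c') (h : s ++ u = s' ++ u') :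
    ∃ v ∈ Brd (c' - c), s' = s ++ v ∧ u = v ++ u' := by
  have hl : s.length ≤ s'.length := by
    by_contra hlt
    push Not at hlt
    have h1 := beyond hs' hu' hlt (by rw [← h, List.length_append]; omega)
    rw [← h, at_cut hs] at h1
    omega
  obtain ⟨v, hv⟩ : ∃ v, s' = s ++ v := by
    have h1 : s <+: s' := by
      apply List.prefix_of_prefix_length_le (l₃ := s ++ u) (List.prefix_append s u) _ hl
      rw [h]
      exact List.prefix_append s' u'
    obtain ⟨v, hv⟩ := h1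
    exact ⟨v, hv.symm⟩
  have hu2 : u = v ++ u' := by
    rw [hv, List.append_assoc] at h
    exact List.append_cancel_left h
  refine ⟨v, ?_, hv, hu2⟩
  refine (Brd_cancel hs (hv ▸ hs') ?_).2
  intro j hj1 hj2
  have h1 := beyond hs hu (i := s.length + j) (by omega)
    (by rw [List.length_append, hu2, List.length_append]; omega)
  rw [hu2, ← List.append_assoc, lev_append (by rw [List.length_append]; omega)] at h1
  exact h1

/-- the height r is a cut of the half plane word w -/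
def HCut (w : List Bool) (r : ℕ) : Prop := ∃ c s, c ∈ Brd r ∧ Pos s ∧ w = c ++ s

/-- walks of the strip without a cut at the heights 1, …, k -/
def NC (k d : ℕ) : Set (List Bool) := {w | w ∈ SSt d ∧ ∀ j, 1 ≤ j → j ≤ k → ¬ HCut w j}

/-- walks of the strip without any cut -/
def NA (d : ℕ) : Set (List Bool) := {w | w ∈ SSt d ∧ ∀ j, 1 ≤ j → ¬ HCut w j}

/-- the last cut of a walk at a height at most v -/
lemma last_cut {d : ℕ} {w : List Bool} (hw : w ∈ SSt d) (v : ℕ) :
    ∃ r, r ≤ v ∧ ∃ c ∈ Brd r, ∃ s ∈ NC (v - r) d, w = c ++ s := by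
  classical
  have h0 : HCut w 0 := ⟨[], w, nil_mem_Brd, pos_SSt hw, rfl⟩
  obtain ⟨r, hr, ⟨c, s, hc, hs, hcs⟩, hmax⟩ : ∃ r, r ≤ v ∧ HCut w r ∧ ∀ r', r' ≤ v → HCut w r' → r' ≤ r :=
    ⟨Nat.findGreatest (HCut w) v, Nat.findGreatest_le v, Nat.findGreatest_spec (m := 0) (Nat.zero_le v) h0,
      fun j' h1 h2 => Nat.le_findGreatest h1 h2⟩
  refine ⟨r, hr, c, hc, s, ⟨SSt_tail hc (hcs ▸ hw) hs, ?_⟩, hcs⟩
  rintro j hj1 hj2 ⟨c', s', hc', hs', hcs'⟩
  have := hmax (r + j) (by omega) ⟨c ++ c', s', Brd_append hc hc', hs', by rw [hcs, hcs', List.append_assoc]⟩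
  omega

/-- the first piece of a walk with a cut -/
lemma first_cut {d : ℕ} {w : List Bool} (hw : w ∈ SSt d) (hex : ∃ j, 1 ≤ j ∧ HCut w j) :
    ∃ j, 1 ≤ j ∧ (∀ i, 1 ≤ i → i < j → ¬ HCut w i) ∧ ∃ p ∈ Irr j, ∃ s ∈ SSt d, w = p ++ s := by
  classical
  obtain ⟨hj1, p, s, hp, hs, hps⟩ := Nat.find_spec hex
  have hmin : ∀ i, 1 ≤ i → i < Nat.find hex → ¬ HCut w i := fun i hi hlt h => Nat.find_min hex hlt ⟨hi, h⟩
  set j := Nat.find hex
  refine ⟨j, hj1, hmin, p, ⟨hp, ?_, ?_⟩, s, SSt_tail hp (hps ▸ hw) hs, hps⟩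
  · rintro rfl
    have := Brd_height hp nil_mem_Brd
    omega
  · intro x y s' u' hs' hu' he
    by_contra hne
    push Not at hne
    obtain ⟨n1, n2⟩ := hne
    have hx : x ≠ 0 := by
      rintro rfl
      rw [Brd_zero] at hs'
      exact n1 hs'
    have hy : y ≠ 0 := by
      rintro rfl
      rw [Brd_zero] at hu'
      exact n2 hu'
    have hxy : x + y = j := Brd_height (Brd_append hs' hu') (he ▸ hp)
    refine hmin x (by omega) (by omega) ⟨s', u' ++ s, hs', ?_, by rw [hps, he, List.append_assoc]⟩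
    intro i hi1 hi2
    by_cases h : i ≤ u'.length
    · rw [lev_append (by omega)]
      exact pos_Brd hu' i hi1 h
    · have := beyond hu' hs (i := i) (by omega) hi2
      omega

lemma gf_bi_le {ι : Type*} (I : Finset ι) (A : ι → Set (List Bool)) :
    gf (⋃ i ∈ I, A i) ≤ ∑ i ∈ I, gf (A i) := by
  classical
  induction I using Finset.induction_on with
  | empty =>
    simp only [Finset.notMem_empty, Set.iUnion_of_empty, Set.iUnion_empty, Finset.sum_empty]
    unfold gf
    rw [nonpos_iff_eq_zero, ENNReal.tsum_eq_zero]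
    rintro ⟨t, ht⟩
    exact absurd ht (Set.notMem_empty t)
  | insert a s ha ih =>
    rw [Finset.set_biUnion_insert, Finset.sum_insert ha]
    exact (gf_union_le _ _).trans (add_le_add le_rfl ih)

/-- disjoint union -/
lemma gf_bi_eq {ι : Type*} (I : Finset ι) (A : ι → Set (List Bool))
    (h : ∀ i j w, w ∈ A i → w ∈ A j → i = j) : ∑ i ∈ I, gf (A i) ≤ gf (⋃ i ∈ I, A i) := by
  classical
  induction I using Finset.induction_on with
  | empty => simp
  | insert a s ha ih =>
    rw [Finset.set_biUnion_insert, Finset.sum_insert ha, gf_union]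
    · exact add_le_add le_rfl ih
    · rw [Set.disjoint_left]
      intro w hw hw'
      rw [Set.mem_iUnion₂] at hw'
      obtain ⟨i, hi, hwi⟩ := hw'
      have := h _ _ _ hw hwi
      exact ha (this ▸ hi)

lemma sum_kap_le (k d : ℕ) : ∑ j ∈ Finset.Ioc k d, kap' j ≤ ENNReal.ofReal (KK' (k + 1)) := by
  have hfin : ∀ j, kap' j ≠ ∞ := fun j => by
    have h1 : kap' j ≤ BT j := by
      rw [← gf_Brd]
      exact gf_mono fun t ht => ht.1
    exact ne_top_of_le_ne_top (CuLogAux.bt_ne_top j) h1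
  have e : ∀ j, kap' j = ENNReal.ofReal (kk j) := fun j => (ENNReal.ofReal_toReal (hfin j)).symm
  rw [Finset.sum_congr rfl fun j _ => e j, ← ENNReal.ofReal_sum_of_nonneg (f := kk) fun j _ => ENNReal.toReal_nonneg]
  apply ENNReal.ofReal_le_ofReal
  rcases Nat.lt_or_ge d k with h | h
  · rw [Finset.Ioc_eq_empty (by omega), Finset.sum_empty]
    exact KK_nonneg _
  · have h1 := KK_nonneg (d + 1)
    unfold KK' at h1 ⊢
    have h2 : ∑ r ∈ Finset.range (d + 1), kk r = ∑ r ∈ Finset.range (k + 1), kk r + ∑ j ∈ Finset.Ioc k d, kk j := by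
      rw [Finset.range_eq_Ico, Finset.range_eq_Ico]
      have e3 : Finset.Ioc k d = Finset.Ico (k + 1) (d + 1) := by
        ext x
        simp only [Finset.mem_Ioc, Finset.mem_Ico]
        omega
      rw [e3]
      exact (Finset.sum_Ico_consecutive _ (Nat.zero_le _) (by omega)).symm
    linarith

/-- walks of the strip without a cut at the heights up to k -/
lemma gf_NC_le (k d : ℕ) : gf (NC k d) ≤ ENNReal.ofReal (KK' (k + 1)) * HH d + gf (NA d) := by
  have h1 : NC k d ⊆ (⋃ j ∈ Finset.Ioc k d, {w | ∃ p ∈ Irr j, ∃ s ∈ SSt d, w = p ++ s}) ∪ NA d := by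
    rintro w ⟨hw, hc⟩
    by_cases hex : ∃ j, 1 ≤ j ∧ HCut w j
    · left
      obtain ⟨j, hj1, hmin, p, hp, s, hs, hps⟩ := first_cut hw hex
      rw [Set.mem_iUnion₂]
      refine ⟨j, ?_, p, hp, s, hs, hps⟩
      rw [Finset.mem_Ioc]
      constructor
      · by_contra hle
        push Not at hle
        exact hc j hj1 hle ⟨p, s, hp.1, pos_SSt hs, hps⟩
      · exact Brd_height_le hp.1 (hps ▸ hw)
    · right
      refine ⟨hw, fun j hj h => hex ⟨j, hj, h⟩⟩
  refine (gf_mono h1).trans ((gf_union_le _ _).trans (add_le_add ?_ le_rfl))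
  refine (gf_bi_le _ _).trans ?_
  calc ∑ j ∈ Finset.Ioc k d, gf {w | ∃ p ∈ Irr j, ∃ s ∈ SSt d, w = p ++ s}
      ≤ ∑ j ∈ Finset.Ioc k d, kap' j * HH d := by
        refine Finset.sum_le_sum fun j _ => gf_le_mul fun t ht => ?_
        obtain ⟨p, hp, s, hs, h⟩ := ht
        exact ⟨p, hp, s, hs, h⟩
    _ = (∑ j ∈ Finset.Ioc k d, kap' j) * HH d := by rw [Finset.sum_mul]
    _ ≤ _ := mul_le_mul' (sum_kap_le k d) le_rfl

lemma sum_BT (d : ℕ) : ∑ r ∈ Finset.range (d + 1), BT r = ENNReal.ofReal (UU d) := by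
  unfold UU
  rw [ENNReal.ofReal_sum_of_nonneg (f := uu) fun j _ => ENNReal.toReal_nonneg]
  exact Finset.sum_congr rfl fun r _ => CuLogAux.bt_eq r

/-- a bridge in front of a walk without cuts -/
lemma UU_NA_le (d : ℕ) : ENNReal.ofReal (UU d) * gf (NA d) ≤ HH (2 * d) := by
  rw [← sum_BT, Finset.sum_mul]
  have h1 : ∀ r, BT r * gf (NA d) ≤ gf {w | ∃ c ∈ Brd r, ∃ s ∈ NA d, w = c ++ s} := by
    intro r
    rw [← gf_Brd]
    refine mul_le_gf (fun a ha b hb => ⟨a, ha, b, hb, rfl⟩) ?_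
    intro a ha b hb a' ha' b' hb' h
    obtain ⟨v, hv, h2, h3⟩ := nested ha ha' (pos_SSt hb.1) (pos_SSt hb'.1) le_rfl h
    rw [Nat.sub_self, Brd_zero] at hv
    have h4 : v = [] := hv
    rw [h2, h4, List.append_nil]
  refine (Finset.sum_le_sum fun r _ => h1 r).trans ((gf_bi_eq _ _ ?_).trans (gf_mono ?_))
  · have key : ∀ i j w, i ≤ j → w ∈ {w | ∃ c ∈ Brd i, ∃ s ∈ NA d, w = c ++ s} →
        w ∈ {w | ∃ c ∈ Brd j, ∃ s ∈ NA d, w = c ++ s} → i = j := by
      rintro i j w hij ⟨c, hc, s, hs, rfl⟩ ⟨c', hc', s', hs', h⟩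
      obtain ⟨v, hv, h2, h3⟩ := nested hc hc' (pos_SSt hs.1) (pos_SSt hs'.1) hij h
      by_contra hne
      exact hs.2 (j - i) (by omega) ⟨v, s', hv, pos_SSt hs'.1, h3⟩
    intro i j w hi hj
    rcases Nat.le_total i j with hij | hij
    · exact key i j w hij hi hj
    · exact (key j i w hij hj hi).symm
  · intro w hw
    rw [Set.mem_iUnion₂] at hw
    obtain ⟨r, hr, c, hc, s, hs, rfl⟩ := hw
    rw [Finset.mem_range] at hr
    exact SSt_mono (by omega) (SSt_cat hc hs.1)

lemma UU_le_HH (d : ℕ) : ENNReal.ofReal (UU d) ≤ HH d := by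
  rw [← sum_BT]
  have h1 : ∀ r, BT r = gf (Brd r) := fun r => (gf_Brd r).symm
  rw [Finset.sum_congr rfl fun r _ => h1 r]
  refine (gf_bi_eq _ _ fun i j w hi hj => Brd_height hi hj).trans (gf_mono ?_)
  intro w hw
  rw [Set.mem_iUnion₂] at hw
  obtain ⟨r, hr, hw⟩ := hw
  rw [Finset.mem_range] at hr
  exact SSt_mono (by omega) (Brd_SSt hw)

lemma HH_mono {a b : ℕ} (h : a ≤ b) : HH a ≤ HH b := gf_mono fun _ hw => SSt_mono h hw

/-- walks of the strip of height d without a cut at the heights up to k -/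
theorem NC_le {k d : ℕ} (h : k ≤ d) : gf (NC k d) ≤ ENNReal.ofReal (2 / UU k) * HH (2 * d) := by
  have hU : ∀ n, 0 < UU n := Num2Aux.UU_pos
  have h1 := gf_NC_le k d
  have h2 : ENNReal.ofReal (KK' (k + 1)) ≤ ENNReal.ofReal (1 / UU k) := by
    apply ENNReal.ofReal_le_ofReal
    rw [le_div_iff₀ (hU k)]
    have := UU_mul_KK k
    linarith
  have h3 : gf (NA d) ≤ ENNReal.ofReal (1 / UU k) * HH (2 * d) := by
    have h4 := UU_NA_le d
    have h5 : ENNReal.ofReal (1 / UU d) * (ENNReal.ofReal (UU d) * gf (NA d)) = gf (NA d) := by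
      rw [← mul_assoc, ← ENNReal.ofReal_mul (by have := hU d; positivity), one_div, inv_mul_cancel₀ (hU d).ne',
        ENNReal.ofReal_one, one_mul]
    rw [← h5]
    refine mul_le_mul' (ENNReal.ofReal_le_ofReal ?_) h4
    exact one_div_le_one_div_of_le (hU k) (Num2Aux.UU_mono h)
  calc gf (NC k d) ≤ ENNReal.ofReal (1 / UU k) * HH (2 * d) + ENNReal.ofReal (1 / UU k) * HH (2 * d) :=
        h1.trans (add_le_add (mul_le_mul' h2 (HH_mono (by omega))) h3)
    _ = ENNReal.ofReal (2 / UU k) * HH (2 * d) := by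
        rw [← add_mul, ← ENNReal.ofReal_add (by have := hU k; positivity) (by have := hU k; positivity)]
        congr 2
        ring

end BAR

end HexObs
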