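import Pool.Agent.BAR.Defs
import Pool.Agent.PHW.LowA

/-!
BAR, module B1: every walk with an extent of at most m rows is, up to a bounded factor, a half plane walk or a
disjoint pair of half plane walks from adjacent feet (cut at the leftmost vertex of the lowest visited row).
-/

set_option autoImplicit false

namespace HexObs

open Complex Finset ENNReal

namespace BAR

lemma lev_xy (t : List Bool) (i : ℕ) : lev t i = (vx oo up t i).1 + 2 * (vx oo up t i).2 := by
  unfold lev ip up
  ring

lemma ipup_xy (p : Pt) : ip p up = p.1 + 2 * p.2 := by
  unfold ip up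
  ring

/-- membership in the strip from the positions of the vertices -/
lemma mem_SSt_of {m : ℕ} {ρ : ℤ} {s : List Bool} {b : Pt} {π : ℕ → Pt} (hb : ip b up = 3 * ρ)
    (hπ : ∀ i, 1 ≤ i → i ≤ s.length → vx oo up s i = π i - b)
    (hl : ∀ i, 1 ≤ i → i ≤ s.length → 3 * ρ < ip (π i) up ∧ ip (π i) up ≤ 3 * (ρ + m))
    (hinj : ∀ i k, 1 ≤ i → i < k → k ≤ s.length → π i ≠ π k) : s ∈ SSt m := by
  have hlev : ∀ i, 1 ≤ i → i ≤ s.length → lev s i = ip (π i) up - 3 * ρ := by
    intro i h1 h2
    unfold lev
    rw [hπ i h1 h2, ip_sub_left, hb]
  refine ⟨?_, ?_⟩
  · intro i h1 h2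
    rw [mem_St, hlev i h1 h2]
    have := hl i h1 h2
    constructor
    · omega
    · omega
  · intro i k hik hk heq
    rcases Nat.eq_zero_or_pos i with h0 | h0
    · have h1 := hlev k (by omega) hk
      have h2 := (hl k (by omega) hk).1
      have h3 : lev s i = lev s k := congrArg (fun p => ip p up) heq
      rw [h0, lev_zero, h1] at h3
      omega
    · rw [hπ i h0 (by omega), hπ k (by omega) hk] at heq
      exact hinj i k h0 hik hk (sub_left_inj.1 heq)

lemma pos_rev {t : List Bool} {j : ℕ} (h1 : 1 ≤ j) (hj : j ≤ t.length) (p : Pt) {d : Pt}
    (hd : dx up t (j - 1) = -d) (i : ℕ) (hi : i ≤ j) :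
    vx p d (rev (t.take (j - 1))) i = vx oo up t (j - i) - vx oo up t j + p := by
  have h := lowA_rev (n := t.length) rfl h1 hj hd i hi
  have h2 := lowA_trans (p - vx oo up t j) (vx oo up t j) d (rev (t.take (j - 1))) i
  rw [sub_add_cancel, h] at h2
  rw [h2]
  abel

lemma pos_drop (t : List Bool) (j : ℕ) (p : Pt) (i : ℕ) :
    vx p (dx up t j) (t.drop j) i = vx oo up t (j + i) - vx oo up t j + p := by
  have h := lowA_drop oo up t j i
  have h2 := lowA_trans (p - vx oo up t j) (vx oo up t j) (dx up t j) (t.drop j) i
  rw [sub_add_cancel, ← h] at h2
  rw [h2]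
  abel

lemma vx_foot (k : ℤ) (w : List Bool) (i : ℕ) : vx (foot oo up k) up w i = k • hz up + vx oo up w i := by
  have h := lowA_trans (k • hz up) oo up w i
  have h2 : foot oo up k = k • hz up + oo := by
    unfold foot
    abel
  rw [h2, h]

lemma vx_one (b : Bool) (w : List Bool) : vx oo up (b :: w) 1 = (0, 1) := by
  rfl

lemma vx_cons1 (b : Bool) (w : List Bool) (i : ℕ) :
    vx oo up (b :: w) (i + 1) = vx (0, 1) (turn b up) w i := by
  rw [(lowA_cons oo up b w i).1]
  rfl

lemma vx_cons2 (b c : Bool) (w : List Bool) (i : ℕ) :
    vx oo up (b :: c :: w) (i + 2) = vx ((0, 1) + turn b up) (turn c (turn b up)) w i := by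
  rw [show i + 2 = (i + 1) + 1 from rfl, vx_cons1, (lowA_cons _ _ c w i).1]

lemma take_split1 {t : List Bool} {n : ℕ} (hn : t.length = n) (h1 : 1 ≤ n) :
    t = t.take (n - 1) ++ [tf t (n - 1)] := by
  have h5 : n - 1 < t.length := by omega
  have h7 := List.drop_eq_getElem_cons h5
  have h6 : t[n - 1] = tf t (n - 1) := by
    unfold tf
    rw [List.getD_eq_getElem _ _ h5]
  have h8 : t.drop n = [] := List.drop_eq_nil_of_le (by omega)
  rw [h6, show n - 1 + 1 = n by omega, h8] at h7
  conv_lhs => rw [← List.take_append_drop (n - 1) t, h7]

lemma take_split2 {t : List Bool} {j : ℕ} (h : j + 1 < t.length) :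
    t = t.take j ++ (tf t j :: tf t (j + 1) :: t.drop (j + 2)) := by
  have h5 : j < t.length := by omega
  have h7 := List.drop_eq_getElem_cons h5
  have h8 := List.drop_eq_getElem_cons h
  have h6 : t[j] = tf t j := by
    unfold tf
    rw [List.getD_eq_getElem _ _ h5]
  have h9 : t[j + 1] = tf t (j + 1) := by
    unfold tf
    rw [List.getD_eq_getElem _ _ h]
  rw [h6] at h7
  rw [h9] at h8
  conv_lhs => rw [← List.take_append_drop j t, h7, h8]

/-- the coordinates of the steps at even vertices -/
lemma stepE {t : List Bool} {i : ℕ} (hi : Even i) :
    dx up t i = (0, 1) ∨ dx up t i = (-1, 0) ∨ dx up t i = (1, -1) := by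
  rcases step_even upd t hi with h | h | h
  · exact Or.inl h.1
  · exact Or.inr (Or.inl (h.1.trans (by decide)))
  · exact Or.inr (Or.inr (h.1.trans (by decide)))

/-- the coordinates of the steps at odd vertices -/
lemma stepO {t : List Bool} {i : ℕ} (hi : ¬ Even i) :
    dx up t i = (0, -1) ∨ dx up t i = (-1, 1) ∨ dx up t i = (1, 0) := by
  rcases step_odd upd t hi with h | h | h
  · exact Or.inl (h.1.trans (by decide))
  · exact Or.inr (Or.inl (h.1.trans (by decide)))
  · exact Or.inr (Or.inr (h.1.trans (by decide)))

lemma vx_next (t : List Bool) (i : ℕ) (d : Pt) (h : dx up t i = d) :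
    vx oo up t (i + 1) = vx oo up t i + d := by
  rw [vx_succ, h]

/-- the five cases -/
theorem front_split {m : ℕ} {t : List Bool} (hs : Saw Set.univ oo up t) (he : Ext m t) :
    t ∈ SSt m ∨
    (∃ R ∈ SSt m, ∃ c, t = rev (R.drop 1) ++ [c] ∧ R.length = t.length) ∨
    (∃ R ∈ SSt m, ∃ c, t = rev (R.drop 2) ++ [c] ∧ R.length = t.length + 1) ∨
    (∃ P ∈ SSt m, ∃ Q ∈ SSt m, Dj P Q ∧ ∃ c, t = rev (P.drop 2) ++ (true :: c :: Q.drop 1) ∧
      P.length + Q.length = t.length + 1) ∨
    (∃ P ∈ SSt m, ∃ Q ∈ SSt m, Dj P Q ∧ t = rev (Q.drop 1) ++ (false :: false :: P.drop 2) ∧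
      P.length + Q.length = t.length + 1) := by
  obtain ⟨n, hn⟩ : ∃ n, t.length = n := ⟨_, rfl⟩
  rcases Nat.eq_zero_or_pos n with h0 | hpos
  · refine Or.inl ⟨?_, ?_⟩
    · intro i h1 h2
      omega
    · intro i k h1 h2
      omega
  -- choice of the vertex
  obtain ⟨V, hV⟩ : ∃ V : ℕ → Pt, V = vx oo up t := ⟨_, rfl⟩
  have hlevV : ∀ i, lev t i = (V i).1 + 2 * (V i).2 := fun i => by rw [hV]; exact lev_xy t i
  have hinj : ∀ i k, i < k → k ≤ n → V i ≠ V k := by
    intro i k h1 h2
    rw [hV]
    exact hs.inj i k h1 (by omega)
  have hinj' : ∀ i k, i ≤ n → k ≤ n → i ≠ k → V i ≠ V k := by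
    intro i k h1 h2 h3
    rcases lt_or_gt_of_ne h3 with h | h
    · exact hinj i k h h2
    · exact (hinj k i h h1).symm
  have hmod : ∀ i, (3 : ℤ) ∣ lev t i - (if Even i then 0 else 2) := lev_mod t
  obtain ⟨j, hj, hmin⟩ := Finset.exists_min_image (Finset.Icc 1 n)
    (fun i => toLex ((lev t i + 1) / 3, (V i).1)) ⟨1, by rw [Finset.mem_Icc]; omega⟩
  rw [Finset.mem_Icc] at hj
  obtain ⟨hj1, hjn⟩ := hj
  have hmin' : ∀ i, 1 ≤ i → i ≤ n → (lev t j + 1) / 3 < (lev t i + 1) / 3 ∨
      ((lev t j + 1) / 3 = (lev t i + 1) / 3 ∧ (V j).1 ≤ (V i).1) := by
    intro i h1 h2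
    have := hmin i (Finset.mem_Icc.2 ⟨h1, h2⟩)
    rw [Prod.Lex.toLex_le_toLex] at this
    exact this
  obtain ⟨ρ, hρ⟩ : ∃ ρ : ℤ, ρ = (lev t j + 1) / 3 - 1 := ⟨_, rfl⟩
  have hlow : ∀ i, 1 ≤ i → i ≤ n → 3 * ρ + 2 ≤ lev t i := by
    intro i h1 h2
    have := hmin' i h1 h2
    omega
  have hleft : ∀ i, 1 ≤ i → i ≤ n → lev t i ≤ 3 * ρ + 3 → (V j).1 ≤ (V i).1 := by
    intro i h1 h2 h3
    rcases hmin' i h1 h2 with h | h
    · omega
    · exact h.2
  have hhigh : ∀ i, 1 ≤ i → i ≤ n → lev t i ≤ 3 * (ρ + m) := by
    obtain ⟨c, hc⟩ := he
    have hcj := (hc j hj1 (by omega)).1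
    have hmj := hmod j
    intro i h1 h2
    have hci := (hc i h1 (by omega)).2
    split_ifs at hmj <;> omega
  have hm1 : 1 ≤ m := by
    have h1 := hhigh j hj1 hjn
    have h2 := hlow j hj1 hjn
    by_contra hcon
    have h3 : m = 0 := by omega
    rw [h3] at h1
    push_cast at h1
    omega
  have hlevip : ∀ i, ip (V i) up = lev t i := fun i => by rw [hV]; rfl
  by_cases hρ0 : ρ = 0
  · -- a walk of the upper half plane
    left
    refine mem_SSt_of (ρ := 0) (b := 0) (π := V) (by decide) ?_ ?_ ?_
    · intro i _ _
      rw [hV, sub_zero]
    · intro i h1 h2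
      rw [hlevip]
      have h3 := hlow i h1 (by omega)
      have h4 := hhigh i h1 (by omega)
      rw [hρ0] at h3 h4
      constructor
      · omega
      · exact h4
    · intro i k _ h2 h3
      exact hinj i k h2 (by omega)
  right
  have hlev1 : lev t 1 = 2 := by
    have := lev_succ t 0
    rw [lev_zero] at this
    rw [this]
    show 0 + ip up up = 2
    decide
  have hj2 : 2 ≤ j := by
    by_contra hcon
    have h1 : j = 1 := by omega
    rw [h1, hlev1] at hρ
    omega
  have hρneg : ρ < 0 := by
    have := hlow 1 le_rfl (by omega)
    omega
  -- previous step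
  have hprev : V j = V (j - 1) + dx up t (j - 1) := by
    rw [hV]
    have := vx_succ oo up t (j - 1)
    rwa [show j - 1 + 1 = j by omega] at this
  have hmj := hmod j
  by_cases hev : Even j
  · -- even vertex
    rw [if_pos hev] at hmj
    have hlj : lev t j = 3 * ρ + 3 := by omega
    have hodd1 : ¬ Even (j - 1) := by
      obtain ⟨a, ha⟩ := hev
      rintro ⟨b, hb⟩
      omega
    have hlj' := hlevV j
    -- a1 is not visited
    have ha1 : ∀ i, 1 ≤ i → i ≤ n → V i ≠ V j - (1, 0) := by
      intro i h1 h2 heq
      have h3 := hlevV i
      rw [heq] at h3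
      simp only [Prod.fst_sub, Prod.snd_sub] at h3
      have h4 := hleft i h1 h2 (by omega)
      rw [heq] at h4
      simp only [Prod.fst_sub] at h4
      omega
    have hlead : ∀ (w : List Bool) (c : Bool) (d : Pt), turn c (1, 0) = d → ∀ i,
        vx oo up (false :: c :: w) (i + 2) = vx (1, 1) d w i := by
      intro w c d hd i
      rw [vx_cons2]
      have e1 : ((0 : ℤ), (1 : ℤ)) + turn false up = (1, 1) := by decide
      have e2 : turn c (turn false up) = d := by
        rw [← hd]
        rfl
      rw [e1, e2]
    have hb0 : ip (V j - (1, 1)) up = 3 * ρ := by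
      rw [ipup_xy]
      simp only [Prod.fst_sub, Prod.snd_sub]
      omega
    have ha1l : ip (V j - (1, 0)) up = 3 * ρ + 2 := by
      rw [ipup_xy]
      simp only [Prod.fst_sub, Prod.snd_sub]
      omega
    rcases stepO (t := t) hodd1 with hd | hd | hd
    · -- from above
      have hVp : V (j - 1) = V j + (0, 1) := by
        rw [hprev, hd]
        ext <;> simp
      have hprevpos : ∀ (p : Pt) (i : ℕ), i ≤ j →
          vx p (0, 1) (rev (t.take (j - 1))) i = V (j - i) - V j + p := by
        intro p i hi
        rw [hV]
        exact pos_rev hj1 (by omega) p (by rw [hd]; decide) i hi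
      -- the word P
      have hPpos : ∀ i, i ≤ j → vx oo up (false :: true :: rev (t.take (j - 1))) (i + 2) =
          V (j - i) - (V j - (1, 1)) := by
        intro i hi
        rw [hlead _ true (0, 1) (by decide) i, hprevpos (1, 1) i hi]
        abel
      have hPlen : (false :: true :: rev (t.take (j - 1))).length = j + 1 := by
        rw [List.length_cons, List.length_cons, rev_length, List.length_take]
        omega
      obtain ⟨π, hπ⟩ : ∃ π : ℕ → Pt, π = fun i => if i = 1 then V j - (1, 0) else V (j - (i - 2)) := ⟨_, rfl⟩
      have hPπ : ∀ i, 1 ≤ i → i ≤ j + 1 → vx oo up (false :: true :: rev (t.take (j - 1))) i =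
          π i - (V j - (1, 1)) := by
        intro i h1 h2
        rw [hπ]
        rcases Nat.lt_or_ge i 2 with h | h
        · have h3 : i = 1 := by omega
          subst h3
          rw [vx_one]
          simp only [if_true]
          rw [_root_.sub_sub_sub_cancel_left]
          rfl
        · obtain ⟨i', rfl⟩ : ∃ i', i = i' + 2 := ⟨i - 2, by omega⟩
          rw [hPpos i' (by omega)]
          simp only [show ¬ (i' + 2 = 1) by omega, if_false, Nat.add_sub_cancel]
      have hP : false :: true :: rev (t.take (j - 1)) ∈ SSt m := by
        refine mem_SSt_of hb0 (π := π) ?_ ?_ ?_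
        · intro i h1 h2
          rw [hPlen] at h2
          exact hPπ i h1 h2
        · intro i h1 h2
          rw [hPlen] at h2
          rw [hπ]
          by_cases h3 : i = 1
          · simp only [h3, if_true]
            rw [ha1l]
            constructor
            · omega
            · have : (1 : ℤ) ≤ m := by exact_mod_cast hm1
              omega
          · simp only [h3, if_false]
            rw [hlevip]
            have h4 := hlow (j - (i - 2)) (by omega) (by omega)
            have h5 := hhigh (j - (i - 2)) (by omega) (by omega)
            constructor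
            · omega
            · exact h5
        · intro i k h1 h2 h3
          rw [hPlen] at h3
          rw [hπ]
          by_cases h4 : i = 1
          · simp only [h4, if_true, show ¬ (k = 1) by omega, if_false]
            exact (ha1 _ (by omega) (by omega)).symm
          · simp only [h4, if_false, show ¬ (k = 1) by omega]
            exact hinj' _ _ (by omega) (by omega) (by omega)
      rcases Nat.lt_or_ge j n with hjn' | hjn'
      · -- interior vertex: B1
        rcases stepE (t := t) hev with hd2 | hd2 | hd2
        · exfalso
          have h3 : V (j + 1) = V j + (0, 1) := by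
            rw [hV]
            exact vx_next t j _ hd2
          exact hinj (j - 1) (j + 1) (by omega) (by omega) (hVp.trans h3.symm)
        · exfalso
          have h3 : V (j + 1) = V j + (-1, 0) := by
            rw [hV]
            exact vx_next t j _ hd2
          refine ha1 (j + 1) (by omega) (by omega) ?_
          rw [h3]
          ext <;> simp; omega
        · have hVn : V (j + 1) = V j + (1, -1) := by
            rw [hV]
            exact vx_next t j _ hd2
          have hodd2 : ¬ Even (j + 1) := by
            obtain ⟨a, ha⟩ := hev
            rintro ⟨b, hb⟩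
            omega
          right; right; left
          refine ⟨_, hP, false :: t.drop (j + 1), ?_⟩
          have hdir : j + 1 < n → dx up t (j + 1) = (1, 0) := by
            intro h
            rcases stepO (t := t) hodd2 with h3 | h3 | h3
            · exfalso
              have h4 : V (j + 2) = V (j + 1) + (0, -1) := by
                rw [hV]
                exact vx_next t (j + 1) _ h3
              have h5 := hlow (j + 2) (by omega) (by omega)
              rw [hlevV, h4, hVn] at h5
              simp only [Prod.fst_add, Prod.snd_add] at h5
              omega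
            · exfalso
              have h4 : V (j + 2) = V (j + 1) + (-1, 1) := by
                rw [hV]
                exact vx_next t (j + 1) _ h3
              refine hinj j (j + 2) (by omega) (by omega) ?_
              rw [h4, hVn]
              ext <;> simp <;> omega
            · exact h3
          have hQlen : (false :: t.drop (j + 1)).length = n - j := by
            rw [List.length_cons, List.length_drop]
            omega
          have hQpos : ∀ i, 1 ≤ i → i ≤ n - j → vx oo up (false :: t.drop (j + 1)) i =
              V (j + i) - (V (j + 1) - (0, 1)) := by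
            intro i h1 h2
            obtain ⟨i', rfl⟩ : ∃ i', i = i' + 1 := ⟨i - 1, by omega⟩
            rw [vx_cons1]
            rcases Nat.eq_zero_or_pos i' with h3 | h3
            · subst h3
              rw [show j + (0 + 1) = j + 1 by omega]
              show (0, 1) = _
              abel
            · have h4 := pos_drop t (j + 1) (0, 1) i'
              rw [hdir (by omega)] at h4
              have h5 : turn false up = (1, 0) := by decide
              rw [h5, h4, ← hV, show j + 1 + i' = j + (i' + 1) by omega]
              abel
          have hbQ : ip (V (j + 1) - (0, 1)) up = 3 * ρ := by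
            rw [ipup_xy, hVn]
            simp only [Prod.fst_sub, Prod.snd_sub, Prod.fst_add, Prod.snd_add]
            omega
          have hQ : false :: t.drop (j + 1) ∈ SSt m := by
            refine mem_SSt_of hbQ (π := fun i => V (j + i)) ?_ ?_ ?_
            · intro i h1 h2
              rw [hQlen] at h2
              exact hQpos i h1 h2
            · intro i h1 h2
              rw [hQlen] at h2
              rw [hlevip]
              have h4 := hlow (j + i) (by omega) (by omega)
              have h5 := hhigh (j + i) (by omega) (by omega)
              constructor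
              · omega
              · exact h5
            · intro i k h1 h2 h3
              rw [hQlen] at h3
              exact hinj _ _ (by omega) (by omega)
          refine ⟨hQ, ?_, tf t j, ?_, ?_⟩
          · unfold Dj
            rw [Set.disjoint_left]
            rintro p ⟨i, hi1, hi2, hi3⟩ ⟨k, hk1, hk2, hk3⟩
            rw [hPlen] at hi2
            rw [hQlen] at hk2
            rw [vx_foot, hPπ i hi1 hi2] at hi3
            rw [vx_foot, hQpos k hk1 hk2] at hk3
            have h3 : π i = V (j + k) := by
              have h4 := hi3.trans hk3.symm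
              rw [hVn] at h4
              have e1 : (0 : ℤ) • hz up = 0 := by rw [zero_smul]
              have e2 : (1 : ℤ) • hz up = (2, -1) := by rw [one_smul]; decide
              rw [e1, e2] at h4
              have h5 := congrArg Prod.fst h4
              have h6 := congrArg Prod.snd h4
              simp only [Prod.fst_sub, Prod.snd_sub, Prod.fst_add, Prod.snd_add, Prod.fst_zero, Prod.snd_zero]
                at h5 h6
              ext
              · omega
              · omega
            rw [hπ] at h3
            by_cases h4 : i = 1
            · simp only [h4, if_true] at h3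
              exact ha1 _ (by omega) (by omega) h3.symm
            · simp only [h4, if_false] at h3
              exact hinj _ _ (by omega) (by omega) h3
          · have hb : tf t (j - 1) = true := by
              have h3 := dx_succ up t (j - 1)
              rw [show j - 1 + 1 = j by omega, hd, hd2] at h3
              revert h3
              cases tf t (j - 1) <;> decide
            have h4 := take_split2 (t := t) (j := j - 1) (by omega)
            rw [show j - 1 + 1 = j by omega, show j - 1 + 2 = j + 1 by omega, hb] at h4
            simp only [List.drop_succ_cons, List.drop_zero]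
            rw [rev_rev]
            exact h4
          · rw [hPlen, hQlen]
            omega
      · -- the end: R
        have hjn2 : j = n := by omega
        right; left
        refine ⟨_, hP, tf t (n - 1), ?_, ?_⟩
        · simp only [List.drop_succ_cons, List.drop_zero]
          rw [rev_rev, hjn2]
          exact take_split1 hn hpos
        · rw [hPlen]
          omega
    · -- from the right
      have hVp : V (j - 1) = V j + (1, -1) := by
        rw [hprev, hd]
        ext <;> simp
      rcases Nat.lt_or_ge j n with hjn' | hjn'
      · rcases stepE (t := t) hev with hd2 | hd2 | hd2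
        · -- B2
          have hVn : V (j + 1) = V j + (0, 1) := by
            rw [hV]
            exact vx_next t j _ hd2
          have hj4 : 3 ≤ j := by
            by_contra hcon
            have h3 : j = 2 := by omega
            have h4 := hlevV 1
            rw [hlev1, show (1 : ℕ) = j - 1 by omega, hVp] at h4
            simp only [Prod.fst_add, Prod.snd_add] at h4
            omega
          have hprev2 : V (j - 1) = V (j - 2) + dx up t (j - 2) := by
            rw [hV]
            have := vx_succ oo up t (j - 2)
            rwa [show j - 2 + 1 = j - 1 by omega] at this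
          have hev2 : Even (j - 2) := by
            obtain ⟨a, ha⟩ := hev
            exact ⟨a - 1, by omega⟩
          have hdir : dx up t (j - 2) = (-1, 0) := by
            rcases stepE (t := t) hev2 with h3 | h3 | h3
            · exfalso
              have h5 := hlow (j - 2) (by omega) (by omega)
              rw [h3] at hprev2
              have h6 : V (j - 2) = V (j - 1) - (0, 1) := by rw [hprev2, add_sub_cancel_right]
              rw [hlevV, h6, hVp] at h5
              simp only [Prod.fst_add, Prod.snd_add, Prod.fst_sub, Prod.snd_sub] at h5
              omega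
            · exact h3
            · exfalso
              rw [h3] at hprev2
              refine hinj (j - 2) j (by omega) (by omega) ?_
              have h6 : V (j - 2) = V (j - 1) - (1, -1) := by rw [hprev2, add_sub_cancel_right]
              rw [h6, hVp, add_sub_cancel_right]
          -- P
          have hPpos : ∀ i, vx oo up (false :: true :: t.drop j) (i + 2) = V (j + i) - (V j - (1, 1)) := by
            intro i
            rw [hlead _ true (0, 1) (by decide) i]
            have h4 := pos_drop t j (1, 1) i
            rw [hd2] at h4
            rw [h4, ← hV]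
            abel
          have hPlen : (false :: true :: t.drop j).length = n - j + 2 := by
            rw [List.length_cons, List.length_cons, List.length_drop]
            omega
          obtain ⟨π, hπ⟩ : ∃ π : ℕ → Pt, π = fun i => if i = 1 then V j - (1, 0) else V (j + (i - 2)) := ⟨_, rfl⟩
          have hPπ : ∀ i, 1 ≤ i → i ≤ n - j + 2 → vx oo up (false :: true :: t.drop j) i =
              π i - (V j - (1, 1)) := by
            intro i h1 h2
            rw [hπ]
            rcases Nat.lt_or_ge i 2 with h | h
            · have h3 : i = 1 := by omega
              subst h3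
              rw [vx_one]
              simp only [if_true]
              rw [_root_.sub_sub_sub_cancel_left]
              rfl
            · obtain ⟨i', rfl⟩ : ∃ i', i = i' + 2 := ⟨i - 2, by omega⟩
              rw [hPpos i']
              simp only [show ¬ (i' + 2 = 1) by omega, if_false, Nat.add_sub_cancel]
          have hP : false :: true :: t.drop j ∈ SSt m := by
            refine mem_SSt_of hb0 (π := π) ?_ ?_ ?_
            · intro i h1 h2
              rw [hPlen] at h2
              exact hPπ i h1 h2
            · intro i h1 h2
              rw [hPlen] at h2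
              rw [hπ]
              by_cases h3 : i = 1
              · simp only [h3, if_true]
                rw [ha1l]
                constructor
                · omega
                · have : (1 : ℤ) ≤ m := by exact_mod_cast hm1
                  omega
              · simp only [h3, if_false]
                rw [hlevip]
                have h4 := hlow (j + (i - 2)) (by omega) (by omega)
                have h5 := hhigh (j + (i - 2)) (by omega) (by omega)
                constructor
                · omega
                · exact h5
            · intro i k h1 h2 h3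
              rw [hPlen] at h3
              rw [hπ]
              by_cases h4 : i = 1
              · simp only [h4, if_true, show ¬ (k = 1) by omega, if_false]
                exact (ha1 _ (by omega) (by omega)).symm
              · simp only [h4, if_false, show ¬ (k = 1) by omega]
                exact hinj' _ _ (by omega) (by omega) (by omega)
          -- Q
          have hQlen : (false :: rev (t.take (j - 2))).length = j - 1 := by
            rw [List.length_cons, rev_length, List.length_take]
            omega
          have hQpos : ∀ i, 1 ≤ i → i ≤ j - 1 → vx oo up (false :: rev (t.take (j - 2))) i =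
              V (j - i) - (V (j - 1) - (0, 1)) := by
            intro i h1 h2
            obtain ⟨i', rfl⟩ : ∃ i', i = i' + 1 := ⟨i - 1, by omega⟩
            rw [vx_cons1]
            have h4 := pos_rev (t := t) (j := j - 1) (by omega) (by omega) (0, 1) (d := (1, 0))
              (by rw [show j - 1 - 1 = j - 2 by omega, hdir]; decide) i' (by omega)
            have h5 : turn false up = (1, 0) := by decide
            rw [show j - 1 - 1 = j - 2 by omega] at h4
            rw [h5, h4, ← hV, show j - 1 - i' = j - (i' + 1) by omega]
            abel
          have hbQ : ip (V (j - 1) - (0, 1)) up = 3 * ρ := by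
            rw [ipup_xy, hVp]
            simp only [Prod.fst_sub, Prod.snd_sub, Prod.fst_add, Prod.snd_add]
            omega
          have hQ : false :: rev (t.take (j - 2)) ∈ SSt m := by
            refine mem_SSt_of hbQ (π := fun i => V (j - i)) ?_ ?_ ?_
            · intro i h1 h2
              rw [hQlen] at h2
              exact hQpos i h1 h2
            · intro i h1 h2
              rw [hQlen] at h2
              rw [hlevip]
              have h4 := hlow (j - i) (by omega) (by omega)
              have h5 := hhigh (j - i) (by omega) (by omega)
              constructor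
              · omega
              · exact h5
            · intro i k h1 h2 h3
              rw [hQlen] at h3
              exact hinj' _ _ (by omega) (by omega) (by omega)
          right; right; right
          refine ⟨_, hP, _, hQ, ?_, ?_, ?_⟩
          · unfold Dj
            rw [Set.disjoint_left]
            rintro p ⟨i, hi1, hi2, hi3⟩ ⟨k, hk1, hk2, hk3⟩
            rw [hPlen] at hi2
            rw [hQlen] at hk2
            rw [vx_foot, hPπ i hi1 hi2] at hi3
            rw [vx_foot, hQpos k hk1 hk2] at hk3
            have h3 : π i = V (j - k) := by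
              have h4 := hi3.trans hk3.symm
              rw [hVp] at h4
              have e1 : (0 : ℤ) • hz up = 0 := by rw [zero_smul]
              have e2 : (1 : ℤ) • hz up = (2, -1) := by rw [one_smul]; decide
              rw [e1, e2] at h4
              have h5 := congrArg Prod.fst h4
              have h6 := congrArg Prod.snd h4
              simp only [Prod.fst_sub, Prod.snd_sub, Prod.fst_add, Prod.snd_add, Prod.fst_zero, Prod.snd_zero]
                at h5 h6
              ext
              · omega
              · omega
            rw [hπ] at h3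
            by_cases h4 : i = 1
            · simp only [h4, if_true] at h3
              exact ha1 _ (by omega) (by omega) h3.symm
            · simp only [h4, if_false] at h3
              exact hinj' _ _ (by omega) (by omega) (by omega) h3
          · have hb : tf t (j - 2) = false := by
              have h3 := dx_succ up t (j - 2)
              rw [show j - 2 + 1 = j - 1 by omega, hd, hdir] at h3
              revert h3
              cases tf t (j - 2) <;> decide
            have hb2 : tf t (j - 1) = false := by
              have h3 := dx_succ up t (j - 1)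
              rw [show j - 1 + 1 = j by omega, hd, hd2] at h3
              revert h3
              cases tf t (j - 1) <;> decide
            have h4 := take_split2 (t := t) (j := j - 2) (by omega)
            rw [show j - 2 + 1 = j - 1 by omega, show j - 2 + 2 = j by omega, hb, hb2] at h4
            simp only [List.drop_succ_cons, List.drop_zero]
            rw [rev_rev]
            exact h4
          · rw [hPlen, hQlen]
            omega
        · exfalso
          have h3 : V (j + 1) = V j + (-1, 0) := by
            rw [hV]
            exact vx_next t j _ hd2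
          refine ha1 (j + 1) (by omega) (by omega) ?_
          rw [h3]
          ext <;> simp <;> omega
        · exfalso
          have h3 : V (j + 1) = V j + (1, -1) := by
            rw [hV]
            exact vx_next t j _ hd2
          exact hinj (j - 1) (j + 1) (by omega) (by omega) (hVp.trans h3.symm)
      · -- the end, coming from the right
        have hjn2 : j = n := by omega
        have hPpos : ∀ i, i ≤ j → vx oo up (false :: false :: rev (t.take (j - 1))) (i + 2) =
            V (j - i) - (V j - (1, 1)) := by
          intro i hi
          rw [hlead _ false (1, -1) (by decide) i, pos_rev hj1 (by omega) (1, 1) (d := (1, -1))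
            (by rw [hd]; decide) i hi, ← hV]
          abel
        have hPlen : (false :: false :: rev (t.take (j - 1))).length = j + 1 := by
          rw [List.length_cons, List.length_cons, rev_length, List.length_take]
          omega
        obtain ⟨π, hπ⟩ : ∃ π : ℕ → Pt, π = fun i => if i = 1 then V j - (1, 0) else V (j - (i - 2)) := ⟨_, rfl⟩
        have hP : false :: false :: rev (t.take (j - 1)) ∈ SSt m := by
          refine mem_SSt_of hb0 (π := π) ?_ ?_ ?_
          · intro i h1 h2
            rw [hPlen] at h2
            rw [hπ]
            rcases Nat.lt_or_ge i 2 with h | h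
            · have h3 : i = 1 := by omega
              subst h3
              rw [vx_one]
              simp only [if_true]
              rw [_root_.sub_sub_sub_cancel_left]
              rfl
            · obtain ⟨i', rfl⟩ : ∃ i', i = i' + 2 := ⟨i - 2, by omega⟩
              rw [hPpos i' (by omega)]
              simp only [show ¬ (i' + 2 = 1) by omega, if_false, Nat.add_sub_cancel]
          · intro i h1 h2
            rw [hPlen] at h2
            rw [hπ]
            by_cases h3 : i = 1
            · simp only [h3, if_true]
              rw [ha1l]
              constructor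
              · omega
              · have : (1 : ℤ) ≤ m := by exact_mod_cast hm1
                omega
            · simp only [h3, if_false]
              rw [hlevip]
              have h4 := hlow (j - (i - 2)) (by omega) (by omega)
              have h5 := hhigh (j - (i - 2)) (by omega) (by omega)
              constructor
              · omega
              · exact h5
          · intro i k h1 h2 h3
            rw [hPlen] at h3
            rw [hπ]
            by_cases h4 : i = 1
            · simp only [h4, if_true, show ¬ (k = 1) by omega, if_false]
              exact (ha1 _ (by omega) (by omega)).symm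
            · simp only [h4, if_false, show ¬ (k = 1) by omega]
              exact hinj' _ _ (by omega) (by omega) (by omega)
        right; left
        refine ⟨_, hP, tf t (n - 1), ?_, ?_⟩
        · simp only [List.drop_succ_cons, List.drop_zero]
          rw [rev_rev, hjn2]
          exact take_split1 hn hpos
        · rw [hPlen]
          omega
    · -- from the left: impossible
      exfalso
      refine ha1 (j - 1) (by omega) (by omega) ?_
      rw [hprev, hd, add_sub_cancel_right]
  · -- odd vertex
    rw [if_neg hev] at hmj
    have hlj : lev t j = 3 * ρ + 2 := by omega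
    have hlj' := hlevV j
    have hev1 : Even (j - 1) := by
      rcases Nat.even_or_odd j with h | ⟨a, ha⟩
      · exact absurd h hev
      · exact ⟨a, by omega⟩
    have ha1 : ∀ i, 1 ≤ i → i ≤ n → V i ≠ V j + (-1, 1) := by
      intro i h1 h2 heq
      have h3 := hlevV i
      rw [heq] at h3
      simp only [Prod.fst_add, Prod.snd_add] at h3
      have h4 := hleft i h1 h2 (by omega)
      rw [heq] at h4
      simp only [Prod.fst_add] at h4
      omega
    rcases stepE (t := t) hev1 with hd | hd | hd
    · exfalso
      have h5 := hlow (j - 1) (by omega) (by omega)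
      rw [hd] at hprev
      have h6 : V (j - 1) = V j - (0, 1) := by rw [hprev, add_sub_cancel_right]
      rw [hlevV, h6] at h5
      simp only [Prod.fst_sub, Prod.snd_sub] at h5
      omega
    · have hVp : V (j - 1) = V j + (1, 0) := by
        rw [hprev, hd]
        ext <;> simp
      rcases Nat.lt_or_ge j n with hjn' | hjn'
      · exfalso
        rcases stepO (t := t) hev with hd2 | hd2 | hd2
        · have h3 : V (j + 1) = V j + (0, -1) := by
            rw [hV]
            exact vx_next t j _ hd2
          have h5 := hlow (j + 1) (by omega) (by omega)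
          rw [hlevV, h3] at h5
          simp only [Prod.fst_add, Prod.snd_add] at h5
          omega
        · refine ha1 (j + 1) (by omega) (by omega) ?_
          rw [hV]
          exact vx_next t j _ hd2
        · have h3 : V (j + 1) = V j + (1, 0) := by
            rw [hV]
            exact vx_next t j _ hd2
          exact hinj (j - 1) (j + 1) (by omega) (by omega) (hVp.trans h3.symm)
      · -- the end
        have hjn2 : j = n := by omega
        left
        have hRlen : (false :: rev (t.take (j - 1))).length = j := by
          rw [List.length_cons, rev_length, List.length_take]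
          omega
        have hRpos : ∀ i, 1 ≤ i → i ≤ j → vx oo up (false :: rev (t.take (j - 1))) i =
            V (j + 1 - i) - (V j - (0, 1)) := by
          intro i h1 h2
          obtain ⟨i', rfl⟩ : ∃ i', i = i' + 1 := ⟨i - 1, by omega⟩
          rw [vx_cons1]
          have h4 := pos_rev (t := t) (j := j) (by omega) (by omega) (0, 1) (d := (1, 0))
            (by rw [hd]; decide) i' (by omega)
          have h5 : turn false up = (1, 0) := by decide
          rw [h5, h4, ← hV, show j + 1 - (i' + 1) = j - i' by omega]
          abel
        have hR : false :: rev (t.take (j - 1)) ∈ SSt m := by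
          refine mem_SSt_of (ρ := ρ) (b := V j - (0, 1)) (π := fun i => V (j + 1 - i)) ?_ ?_ ?_ ?_
          · rw [ipup_xy]
            simp only [Prod.fst_sub, Prod.snd_sub]
            omega
          · intro i h1 h2
            rw [hRlen] at h2
            exact hRpos i h1 h2
          · intro i h1 h2
            rw [hRlen] at h2
            rw [hlevip]
            have h4 := hlow (j + 1 - i) (by omega) (by omega)
            have h5 := hhigh (j + 1 - i) (by omega) (by omega)
            constructor
            · omega
            · exact h5
          · intro i k h1 h2 h3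
            rw [hRlen] at h3
            exact hinj' _ _ (by omega) (by omega) (by omega)
        refine ⟨_, hR, tf t (n - 1), ?_, ?_⟩
        · simp only [List.drop_succ_cons, List.drop_zero]
          rw [rev_rev, hjn2]
          exact take_split1 hn hpos
        · rw [hRlen]
          omega
    · exfalso
      refine ha1 (j - 1) (by omega) (by omega) ?_
      rw [hprev, hd]
      ext <;> simp


/-- covering lemma -/
lemma gf_cover {X : Type*} (A : Set (List Bool)) (H : X → ℝ≥0∞) (f : X → List Bool)
    (hcov : ∀ t ∈ A, ∃ x, f x = t ∧ wE t ≤ H x) : gf A ≤ ∑' x, H x := by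
  classical
  choose φ hφ1 hφ2 using hcov
  have hinj : Function.Injective (fun t : A => φ t.1 t.2) := by
    intro a b hab
    have h1 := hφ1 a.1 a.2
    have h2 := hφ1 b.1 b.2
    have hab' : φ a.1 a.2 = φ b.1 b.2 := hab
    rw [hab'] at h1
    exact Subtype.ext (h1.symm.trans h2)
  refine le_trans ?_ (ENNReal.tsum_comp_le_tsum_of_injective hinj H)
  exact ENNReal.tsum_le_tsum fun t => hφ2 t.1 t.2

lemma half_le_xc : 1 ≤ 2 * xc := by
  unfold xc
  have h1 : 0 < Real.cos (Real.pi / 8) := Real.cos_pos_of_mem_Ioo ⟨by linarith [Real.pi_pos], by linarith [Real.pi_pos]⟩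
  have h2 := Real.cos_le_one (Real.pi / 8)
  rw [mul_one_div, le_div_iff₀ (by positivity)]
  linarith

lemma xc_nonneg : 0 ≤ xc := by linarith [half_le_xc]

lemma wE_len_eq {t R : List Bool} (h : R.length = t.length) : wE t ≤ 2 * wE R := by
  unfold wE
  rw [h]
  exact le_mul_of_one_le_left bot_le (by norm_num)

lemma wE_len_succ {t : List Bool} {k : ℕ} (h : k = t.length + 1) : wE t ≤ 2 * ENNReal.ofReal (xc ^ k) := by
  unfold wE
  rw [show (2 : ℝ≥0∞) = ENNReal.ofReal 2 by norm_num, ← ENNReal.ofReal_mul (by norm_num), h, pow_succ]
  refine ENNReal.ofReal_le_ofReal ?_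
  have h1 := half_le_xc
  have h2 : 0 ≤ xc ^ t.length := pow_nonneg xc_nonneg _
  nlinarith

lemma cover_one {m : ℕ} (A : Set (List Bool)) (k : ℕ)
    (hA : ∀ t ∈ A, ∃ R ∈ SSt m, ∃ c, t = rev (R.drop k) ++ [c] ∧ wE t ≤ 2 * wE R) : gf A ≤ 4 * HH m := by
  have h := gf_cover (X := (SSt m) × Bool) A (fun x => 2 * wE x.1.1)
    (fun x => rev (x.1.1.drop k) ++ [x.2]) (by
      intro t ht
      obtain ⟨R, hR, c, h1, h2⟩ := hA t ht
      exact ⟨(⟨R, hR⟩, c), h1.symm, h2⟩)
  refine h.trans (le_of_eq ?_)
  rw [ENNReal.tsum_prod']
  simp only [tsum_fintype, Finset.sum_const, Finset.card_univ, Fintype.card_bool, nsmul_eq_mul]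
  unfold HH gf
  rw [← ENNReal.tsum_mul_left]
  refine tsum_congr fun a => ?_
  push_cast
  rw [← mul_assoc]
  norm_num

lemma cover_two {m : ℕ} (A : Set (List Bool)) (F : List Bool × List Bool → Bool → List Bool)
    (hA : ∀ t ∈ A, ∃ P ∈ SSt m, ∃ Q ∈ SSt m, Dj P Q ∧ ∃ c, t = F (P, Q) c ∧ P.length + Q.length = t.length + 1) :
    gf A ≤ 4 * PP m := by
  have h := gf_cover (X := {p : List Bool × List Bool | p.1 ∈ SSt m ∧ p.2 ∈ SSt m ∧ Dj p.1 p.2} × Bool) A
    (fun x => 2 * (wE x.1.1.1 * wE x.1.1.2)) (fun x => F x.1.1 x.2) (by
      intro t ht
      obtain ⟨P, hP, Q, hQ, hD, c, h1, h2⟩ := hA t ht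
      refine ⟨(⟨(P, Q), hP, hQ, hD⟩, c), h1.symm, ?_⟩
      show wE t ≤ 2 * (wE P * wE Q)
      have h3 : wE P * wE Q = ENNReal.ofReal (xc ^ (P.length + Q.length)) := by
        unfold wE
        rw [← ENNReal.ofReal_mul (pow_nonneg xc_nonneg _), pow_add]
      rw [h3]
      exact wE_len_succ h2)
  refine h.trans (le_of_eq ?_)
  rw [ENNReal.tsum_prod']
  simp only [tsum_fintype, Finset.sum_const, Finset.card_univ, Fintype.card_bool, nsmul_eq_mul]
  unfold PP g2
  rw [← ENNReal.tsum_mul_left]
  refine tsum_congr fun a => ?_
  push_cast
  rw [← mul_assoc]
  norm_num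

/-- all walks with an extent of at most m rows -/
theorem Chi_le (m : ℕ) : Chi m ≤ 9 * (HH m + PP m) := by
  have hsub : {t | Saw Set.univ oo up t ∧ Ext m t} ⊆
      SSt m ∪ ({t | ∃ R ∈ SSt m, ∃ c, t = rev (R.drop 1) ++ [c] ∧ wE t ≤ 2 * wE R} ∪
      ({t | ∃ R ∈ SSt m, ∃ c, t = rev (R.drop 2) ++ [c] ∧ wE t ≤ 2 * wE R} ∪
      ({t | ∃ P ∈ SSt m, ∃ Q ∈ SSt m, Dj P Q ∧ ∃ c, t = rev (P.drop 2) ++ (true :: c :: Q.drop 1) ∧
        P.length + Q.length = t.length + 1} ∪
      {t | ∃ P ∈ SSt m, ∃ Q ∈ SSt m, Dj P Q ∧ ∃ _c : Bool, t = rev (Q.drop 1) ++ (false :: false :: P.drop 2) ∧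
        P.length + Q.length = t.length + 1}))) := by
    rintro t ⟨hs, he⟩
    rcases front_split hs he with h | ⟨R, hR, c, h1, h2⟩ | ⟨R, hR, c, h1, h2⟩ | h | ⟨P, hP, Q, hQ, hD, h1, h2⟩
    · exact Or.inl h
    · exact Or.inr (Or.inl ⟨R, hR, c, h1, wE_len_eq h2⟩)
    · exact Or.inr (Or.inr (Or.inl ⟨R, hR, c, h1, wE_len_succ h2⟩))
    · exact Or.inr (Or.inr (Or.inr (Or.inl h)))
    · exact Or.inr (Or.inr (Or.inr (Or.inr ⟨P, hP, Q, hQ, hD, true, h1, h2⟩)))
  refine (gf_mono hsub).trans ?_
  have h1 := cover_one (m := m) {t | ∃ R ∈ SSt m, ∃ c, t = rev (R.drop 1) ++ [c] ∧ wE t ≤ 2 * wE R} 1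
    (fun t ht => ht)
  have h2 := cover_one (m := m) {t | ∃ R ∈ SSt m, ∃ c, t = rev (R.drop 2) ++ [c] ∧ wE t ≤ 2 * wE R} 2
    (fun t ht => ht)
  have h3 := cover_two (m := m) {t | ∃ P ∈ SSt m, ∃ Q ∈ SSt m, Dj P Q ∧ ∃ c,
    t = rev (P.drop 2) ++ (true :: c :: Q.drop 1) ∧ P.length + Q.length = t.length + 1}
    (fun p c => rev (p.1.drop 2) ++ (true :: c :: p.2.drop 1)) (fun t ht => ht)
  have h4 := cover_two (m := m) {t | ∃ P ∈ SSt m, ∃ Q ∈ SSt m, Dj P Q ∧ ∃ _c : Bool,
    t = rev (Q.drop 1) ++ (false :: false :: P.drop 2) ∧ P.length + Q.length = t.length + 1}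
    (fun p _ => rev (p.2.drop 1) ++ (false :: false :: p.1.drop 2)) (fun t ht => ht)
  refine (gf_union_le _ _).trans ?_
  refine (add_le_add le_rfl ((gf_union_le _ _).trans (add_le_add h1 ((gf_union_le _ _).trans (add_le_add h2
    ((gf_union_le _ _).trans (add_le_add h3 h4))))))).trans ?_
  show HH m + (4 * HH m + (4 * HH m + (4 * PP m + 4 * PP m))) ≤ 9 * (HH m + PP m)
  calc HH m + (4 * HH m + (4 * HH m + (4 * PP m + 4 * PP m))) = 9 * HH m + 8 * PP m := by ring
    _ ≤ 9 * HH m + 9 * PP m := add_le_add le_rfl (mul_le_mul_left (by norm_num) _)
    _ = 9 * (HH m + PP m) := by ring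

end BAR

end HexObs
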