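import Pool.Agent.PHW.DefsB
import Pool.Agent.PHW.DefsQ

/-!
BAR: definitions for the scaling relation between all walks and half plane walks.
-/

set_option autoImplicit false

namespace HexObs

open Complex Finset ENNReal

namespace BAR

/-- critical weight of the half plane words of height at most m rows -/
noncomputable def HH (m : ℕ) : ℝ≥0∞ := gf (SSt m)

/-- the vertices number 1, …, t.length of the word t lie in a window of m rows -/
def Ext (m : ℕ) (t : List Bool) : Prop :=
  ∃ c : ℤ, ∀ i, 1 ≤ i → i ≤ t.length → 3 * c < lev t i ∧ lev t i ≤ 3 * (c + m)

/-- critical weight of all words (walks from the half edge oo up) with an extent of at most m rows -/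
noncomputable def Chi (m : ℕ) : ℝ≥0∞ := gf {t | Saw Set.univ oo up t ∧ Ext m t}

/-- critical weight of the disjoint pairs of half plane words of height at most m from adjacent feet -/
noncomputable def PP (m : ℕ) : ℝ≥0∞ := g2 (SSt m) (SSt m) Dj

end BAR

end HexObs
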