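import Mathlib

/-!
BAR: the purely numerical part of the scaling relation (nu34/82, section 2 (b)): sums over the three pieces
s + k + t = d of a bridge of height d which is cut at its renewal structure at half height, d in a dyadic block.
-/

set_option autoImplicit false

namespace HexObs

namespace BAR

namespace Dyadic

open Finset

/-- the sum over the block [D, 2 D) of the decompositions d = s + k + t with s ≤ d / 2 < s + k. -/
noncomputable def SS (f lam a : ℕ → ℝ) (D : ℕ) : ℝ :=
  ∑ d ∈ Ico D (2 * D), ∑ s ∈ range (d / 2 + 1), ∑ k ∈ Icc (d / 2 + 1 - s) (d - s), f s * lam k * a (d - s - k)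

lemma ind (F : ℕ → ℕ → ℝ) {d M : ℕ} (hd : d < M) :
    ∑ s ∈ range (d / 2 + 1), ∑ k ∈ Icc (d / 2 + 1 - s) (d - s), F s k =
      ∑ s ∈ range M, ∑ k ∈ range M, if (s ≤ d / 2 ∧ d / 2 < s + k ∧ s + k ≤ d) then F s k else 0 := by
  have h1 : ∑ s ∈ range M, ∑ k ∈ range M, (if (s ≤ d / 2 ∧ d / 2 < s + k ∧ s + k ≤ d) then F s k else 0) =
      ∑ s ∈ range (d / 2 + 1), ∑ k ∈ range M, if (s ≤ d / 2 ∧ d / 2 < s + k ∧ s + k ≤ d) then F s k else 0 := by
    symm
    apply sum_subset
    · intro x hx
      rw [mem_range] at hx ⊢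
      omega
    · intro x _ hx
      rw [mem_range] at hx
      apply sum_eq_zero
      intro k _
      rw [if_neg]
      omega
  rw [h1]
  apply sum_congr rfl
  intro s hs
  rw [mem_range] at hs
  rw [← sum_filter]
  apply sum_congr _ (fun _ _ => rfl)
  ext k
  rw [mem_Icc, mem_filter, mem_range]
  omega

theorem core {f lam a : ℕ → ℝ} (hf : ∀ n, 0 ≤ f n) (fa : ∀ m n, m ≤ n → f n ≤ f m) (hl : ∀ n, 0 ≤ lam n)
    (ha : ∀ n, 0 ≤ a n) (aa : ∀ m n, m ≤ n → a n ≤ a m) (D : ℕ) :
    SS f lam a D ≤ (∑ s ∈ range (2 * D), f s) * (∑ t ∈ range (2 * D), a t) *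
        (∑ k ∈ Ico ((D + 3) / 4) (2 * D), lam k) +
      D * (f ((D + 3) / 4) * a ((D + 3) / 4)) * ∑ k ∈ range ((D + 3) / 4), (k : ℝ) * lam k := by
  set q := (D + 3) / 4 with hq
  have e1 : SS f lam a D = ∑ d ∈ Ico D (2 * D), ∑ s ∈ range (2 * D), ∑ k ∈ range (2 * D),
      if (s ≤ d / 2 ∧ d / 2 < s + k ∧ s + k ≤ d) then f s * lam k * a (d - s - k) else 0 := by
    unfold SS
    apply sum_congr rfl
    intro d hd
    rw [mem_Ico] at hd
    exact ind (fun s k => f s * lam k * a (d - s - k)) hd.2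
  rcases Nat.eq_zero_or_pos D with hD | hD
  · rw [e1, hD]
    simp
  have hq2 : q ≤ 2 * D := by omega
  have e2 : ∀ d s : ℕ, ∑ k ∈ range (2 * D),
      (if (s ≤ d / 2 ∧ d / 2 < s + k ∧ s + k ≤ d) then f s * lam k * a (d - s - k) else 0) =
      ∑ k ∈ range q, (if (s ≤ d / 2 ∧ d / 2 < s + k ∧ s + k ≤ d) then f s * lam k * a (d - s - k) else 0) +
      ∑ k ∈ Ico q (2 * D), (if (s ≤ d / 2 ∧ d / 2 < s + k ∧ s + k ≤ d) then f s * lam k * a (d - s - k) else 0) := by
    intro d s
    rw [range_eq_Ico, range_eq_Ico, sum_Ico_consecutive _ (Nat.zero_le q) hq2]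
  have e3 : SS f lam a D =
      ∑ d ∈ Ico D (2 * D), ∑ s ∈ range (2 * D), ∑ k ∈ range q,
        (if (s ≤ d / 2 ∧ d / 2 < s + k ∧ s + k ≤ d) then f s * lam k * a (d - s - k) else 0) +
      ∑ d ∈ Ico D (2 * D), ∑ s ∈ range (2 * D), ∑ k ∈ Ico q (2 * D),
        (if (s ≤ d / 2 ∧ d / 2 < s + k ∧ s + k ≤ d) then f s * lam k * a (d - s - k) else 0) := by
    rw [e1, ← sum_add_distrib]
    apply sum_congr rfl
    intro d _
    rw [← sum_add_distrib]
    apply sum_congr rfl
    intro s _
    exact e2 d s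
  rw [e3, add_comm]
  apply add_le_add
  · -- long irreducible piece
    calc ∑ d ∈ Ico D (2 * D), ∑ s ∈ range (2 * D), ∑ k ∈ Ico q (2 * D),
          (if (s ≤ d / 2 ∧ d / 2 < s + k ∧ s + k ≤ d) then f s * lam k * a (d - s - k) else 0)
        = ∑ s ∈ range (2 * D), ∑ k ∈ Ico q (2 * D), ∑ d ∈ Ico D (2 * D),
          (if (s ≤ d / 2 ∧ d / 2 < s + k ∧ s + k ≤ d) then f s * lam k * a (d - s - k) else 0) := by
          rw [sum_comm]
          apply sum_congr rfl
          intro s _
          rw [sum_comm]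
      _ ≤ ∑ s ∈ range (2 * D), ∑ k ∈ Ico q (2 * D), f s * lam k * ∑ t ∈ range (2 * D), a t := by
          apply sum_le_sum
          intro s _
          apply sum_le_sum
          intro k _
          have hfl : 0 ≤ f s * lam k := mul_nonneg (hf s) (hl k)
          calc ∑ d ∈ Ico D (2 * D),
                (if (s ≤ d / 2 ∧ d / 2 < s + k ∧ s + k ≤ d) then f s * lam k * a (d - s - k) else 0)
              ≤ ∑ d ∈ Ico D (2 * D), (if s + k ≤ d then f s * lam k * a (d - (s + k)) else 0) := by
                apply sum_le_sum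
                intro d _
                have hs : d - s - k = d - (s + k) := by omega
                rw [hs]
                by_cases h1 : s ≤ d / 2 ∧ d / 2 < s + k ∧ s + k ≤ d
                · rw [if_pos h1, if_pos h1.2.2]
                · rw [if_neg h1]
                  split_ifs
                  · exact mul_nonneg hfl (ha _)
                  · exact le_rfl
            _ ≤ ∑ d ∈ range (2 * D), (if s + k ≤ d then f s * lam k * a (d - (s + k)) else 0) := by
                apply sum_le_sum_of_subset_of_nonneg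
                · intro x hx
                  rw [mem_Ico] at hx
                  rw [mem_range]
                  exact hx.2
                · intro d _ _
                  split_ifs
                  · exact mul_nonneg hfl (ha _)
                  · exact le_rfl
            _ = ∑ d ∈ Ico (s + k) (2 * D), f s * lam k * a (d - (s + k)) := by
                rw [← sum_filter]
                apply sum_congr _ (fun _ _ => rfl)
                ext d
                rw [mem_filter, mem_range, mem_Ico]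
                omega
            _ = ∑ t ∈ range (2 * D - (s + k)), f s * lam k * a t := by
                rw [sum_Ico_eq_sum_range]
                apply sum_congr rfl
                intro t _
                rw [Nat.add_sub_cancel_left]
            _ ≤ ∑ t ∈ range (2 * D), f s * lam k * a t := by
                apply sum_le_sum_of_subset_of_nonneg
                · intro x hx
                  rw [mem_range] at hx ⊢
                  omega
                · intro d _ _
                  exact mul_nonneg hfl (ha _)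
            _ = f s * lam k * ∑ t ∈ range (2 * D), a t := by
                rw [← mul_sum]
      _ = (∑ s ∈ range (2 * D), f s) * (∑ t ∈ range (2 * D), a t) * (∑ k ∈ Ico q (2 * D), lam k) := by
          rw [mul_right_comm, sum_mul_sum, sum_mul]
          apply sum_congr rfl
          intro s _
          rw [sum_mul]
  · -- short irreducible piece
    calc ∑ d ∈ Ico D (2 * D), ∑ s ∈ range (2 * D), ∑ k ∈ range q,
          (if (s ≤ d / 2 ∧ d / 2 < s + k ∧ s + k ≤ d) then f s * lam k * a (d - s - k) else 0)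
        = ∑ d ∈ Ico D (2 * D), ∑ k ∈ range q, ∑ s ∈ range (2 * D),
          (if (s ≤ d / 2 ∧ d / 2 < s + k ∧ s + k ≤ d) then f s * lam k * a (d - s - k) else 0) := by
          apply sum_congr rfl
          intro d _
          rw [sum_comm]
      _ ≤ ∑ d ∈ Ico D (2 * D), ∑ k ∈ range q, (k : ℝ) * (f q * lam k * a q) := by
          apply sum_le_sum
          intro d hd
          rw [mem_Ico] at hd
          apply sum_le_sum
          intro k hk
          rw [mem_range] at hk
          have h0 : 0 ≤ f q * lam k * a q := mul_nonneg (mul_nonneg (hf q) (hl k)) (ha q)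
          calc ∑ s ∈ range (2 * D),
                (if (s ≤ d / 2 ∧ d / 2 < s + k ∧ s + k ≤ d) then f s * lam k * a (d - s - k) else 0)
              = ∑ s ∈ (range (2 * D)).filter (fun s => s ≤ d / 2 ∧ d / 2 < s + k ∧ s + k ≤ d),
                  f s * lam k * a (d - s - k) := by rw [← sum_filter]
            _ ≤ ∑ s ∈ (range (2 * D)).filter (fun s => s ≤ d / 2 ∧ d / 2 < s + k ∧ s + k ≤ d),
                  f q * lam k * a q := by
                apply sum_le_sum
                intro s hs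
                rw [mem_filter] at hs
                obtain ⟨_, h1, h2, h3⟩ := hs
                have hs1 : q ≤ s := by omega
                have ht1 : q ≤ d - s - k := by omega
                exact mul_le_mul (mul_le_mul_of_nonneg_right (fa _ _ hs1) (hl k)) (aa _ _ ht1) (ha _)
                  (mul_nonneg (hf q) (hl k))
            _ = ((range (2 * D)).filter (fun s => s ≤ d / 2 ∧ d / 2 < s + k ∧ s + k ≤ d)).card *
                  (f q * lam k * a q) := by
                rw [sum_const, nsmul_eq_mul]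
            _ ≤ (k : ℝ) * (f q * lam k * a q) := by
                apply mul_le_mul_of_nonneg_right _ h0
                have hsub : (range (2 * D)).filter (fun s => s ≤ d / 2 ∧ d / 2 < s + k ∧ s + k ≤ d) ⊆
                    Ico (d / 2 + 1 - k) (d / 2 + 1) := by
                  intro s hs
                  rw [mem_filter] at hs
                  rw [mem_Ico]
                  omega
                have hc := card_le_card hsub
                rw [Nat.card_Ico] at hc
                have : (d / 2 + 1) - (d / 2 + 1 - k) ≤ k := by omega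
                exact_mod_cast hc.trans this
      _ = D * (f q * a q) * ∑ k ∈ range q, (k : ℝ) * lam k := by
          rw [sum_const, Nat.card_Ico, nsmul_eq_mul]
          have : ((2 * D - D : ℕ) : ℝ) = D := by
            congr 1
            omega
          rw [this, mul_assoc, mul_sum (range q) _ (f q * a q)]
          congr 1
          apply sum_congr rfl
          intro k _
          ring

/-- the first moment from the tails. -/
lemma moment {lam : ℕ → ℝ} (q : ℕ) :
    ∑ k ∈ range q, (k : ℝ) * lam k = ∑ j ∈ Ico 1 q, ∑ k ∈ Ico j q, lam k := by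
  have h1 : ∀ k : ℕ, (k : ℝ) * lam k = ∑ _j ∈ Ico 1 (k + 1), lam k := by
    intro k
    rw [sum_const, Nat.card_Ico, nsmul_eq_mul, Nat.add_sub_cancel]
  rw [sum_congr rfl (fun k _ => h1 k)]
  rw [sum_sigma', sum_sigma']
  apply sum_nbij' (fun x => ⟨x.2, x.1⟩) (fun x => ⟨x.2, x.1⟩)
  · rintro ⟨k, j⟩ h
    simp only [mem_sigma, mem_range, mem_Ico] at h ⊢
    omega
  · rintro ⟨k, j⟩ h
    simp only [mem_sigma, mem_range, mem_Ico] at h ⊢
    omega
  · rintro ⟨k, j⟩ _
    rfl
  · rintro ⟨k, j⟩ _
    rfl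
  · rintro ⟨k, j⟩ _
    rfl

lemma harm (n : ℕ) : ∑ t ∈ range n, (1 : ℝ) / (t + 1) ≤ 1 + Real.log n := by
  have h := harmonic_le_one_add_log n
  have e : ((harmonic n : ℚ) : ℝ) = ∑ t ∈ range n, (1 : ℝ) / (t + 1) := by
    unfold harmonic
    push_cast
    apply sum_congr rfl
    intro t _
    rw [one_div]
  rw [← e]
  exact h

section

variable {u U lam : ℕ → ℝ} {C : ℝ}

lemma U_pos (u0 : u 0 = 1) (un : ∀ n, 0 ≤ u n) (hU : ∀ n, U n = ∑ i ∈ range (n + 1), u i) (n : ℕ) : 1 ≤ U n := by
  rw [hU n]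
  calc (1 : ℝ) = ∑ i ∈ range 1, u i := by rw [sum_range_one, u0]
    _ ≤ ∑ i ∈ range (n + 1), u i := by
        apply sum_le_sum_of_subset_of_nonneg
        · intro x hx
          rw [mem_range] at hx ⊢
          omega
        · intro i _ _
          exact un i

lemma U_mono (un : ∀ n, 0 ≤ u n) (hU : ∀ n, U n = ∑ i ∈ range (n + 1), u i) {m n : ℕ} (h : m ≤ n) : U m ≤ U n := by
  rw [hU n, hU m]
  apply sum_le_sum_of_subset_of_nonneg
  · intro x hx
    rw [mem_range] at hx ⊢
    omega
  · intro i _ _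
    exact un i

/-- (n + 1) u_n ≤ U_n. -/
lemma mul_le (ua : ∀ m n, m ≤ n → u n ≤ u m) (hU : ∀ n, U n = ∑ i ∈ range (n + 1), u i) (n : ℕ) :
    ((n : ℝ) + 1) * u n ≤ U n := by
  rw [hU n]
  calc ((n : ℝ) + 1) * u n = ∑ i ∈ range (n + 1), u n := by
        rw [sum_const, card_range, nsmul_eq_mul]
        push_cast
        ring
    _ ≤ ∑ i ∈ range (n + 1), u i := by
        apply sum_le_sum
        intro i hi
        rw [mem_range] at hi
        exact ua _ _ (by omega)

/-- concavity: (m + 1) U_n ≤ (n + 1) U_m for m ≤ n. -/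
lemma conc (ua : ∀ m n, m ≤ n → u n ≤ u m) (hU : ∀ n, U n = ∑ i ∈ range (n + 1), u i) {m n : ℕ} (h : m ≤ n) :
    ((m : ℝ) + 1) * U n ≤ ((n : ℝ) + 1) * U m := by
  obtain ⟨j, rfl⟩ := Nat.exists_eq_add_of_le h
  clear h
  induction j with
  | zero => exact le_rfl
  | succ j ih =>
    have e : U (m + (j + 1)) = U (m + j) + u (m + (j + 1)) := by
      rw [hU, hU, sum_range_succ]
      rfl
    have h1 := mul_le ua hU m
    have h2 := ua m (m + (j + 1)) (by omega)
    have h3 : ((m : ℝ) + 1) * u (m + (j + 1)) ≤ ((m : ℝ) + 1) * u m :=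
      mul_le_mul_of_nonneg_left h2 (by positivity)
    rw [e]
    push_cast at ih ⊢
    nlinarith

/-- the sum of u_s / U_s over a block of length 2 D. -/
lemma sum_a (u0 : u 0 = 1) (un : ∀ n, 0 ≤ u n) (ua : ∀ m n, m ≤ n → u n ≤ u m)
    (hU : ∀ n, U n = ∑ i ∈ range (n + 1), u i) (n : ℕ) :
    ∑ t ∈ range n, u t / U t ≤ 1 + Real.log n := by
  refine le_trans (sum_le_sum ?_) (harm n)
  intro t _
  have hp : 0 < U t := lt_of_lt_of_le one_pos (U_pos u0 un hU t)
  rw [div_le_div_iff₀ hp (by positivity)]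
  have := mul_le ua hU t
  linarith

lemma a_le (u0 : u 0 = 1) (un : ∀ n, 0 ≤ u n) (ua : ∀ m n, m ≤ n → u n ≤ u m)
    (hU : ∀ n, U n = ∑ i ∈ range (n + 1), u i) (n : ℕ) : u n / U n ≤ 1 / (n + 1) := by
  have hp : 0 < U n := lt_of_lt_of_le one_pos (U_pos u0 un hU n)
  rw [div_le_div_iff₀ hp (by positivity)]
  have := mul_le ua hU n
  linarith

/-- the first moment of the irreducible bridges of height below q. -/
lemma mom_le (u0 : u 0 = 1) (un : ∀ n, 0 ≤ u n) (ua : ∀ m n, m ≤ n → u n ≤ u m)
    (hU : ∀ n, U n = ∑ i ∈ range (n + 1), u i) (hC : 0 ≤ C)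
    (hv : ∀ n m, 1 ≤ n → ∑ r ∈ Ico n m, lam r ≤ C / U n) {q : ℕ} :
    ∑ k ∈ range q, (k : ℝ) * lam k ≤ C * ((q + 1) * (1 + Real.log (q + 1)) / U q) := by
  have hUq : 0 < U q := lt_of_lt_of_le one_pos (U_pos u0 un hU q)
  rw [moment]
  calc ∑ j ∈ Ico 1 q, ∑ k ∈ Ico j q, lam k ≤ ∑ j ∈ Ico 1 q, C * (((q : ℝ) + 1) / U q) * (1 / ((j : ℝ) + 1)) := by
        apply sum_le_sum
        intro j hj
        rw [mem_Ico] at hj
        refine le_trans (hv j q hj.1) ?_
        have hUj : 0 < U j := lt_of_lt_of_le one_pos (U_pos u0 un hU j)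
        have h1 := conc ua hU (show j ≤ q by omega)
        rw [mul_assoc, div_eq_mul_inv]
        apply mul_le_mul_of_nonneg_left _ hC
        rw [div_mul_div_comm, mul_one, inv_eq_one_div, div_le_div_iff₀ hUj (by positivity)]
        linarith
    _ = C * (((q : ℝ) + 1) / U q) * ∑ j ∈ Ico 1 q, (1 / ((j : ℝ) + 1)) := by
        rw [← mul_sum]
    _ ≤ C * (((q : ℝ) + 1) / U q) * (1 + Real.log (q + 1)) := by
        apply mul_le_mul_of_nonneg_left _ (by positivity)
        calc ∑ j ∈ Ico 1 q, (1 / ((j : ℝ) + 1)) ≤ ∑ j ∈ range (q + 1), (1 / ((j : ℝ) + 1)) := by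
              apply sum_le_sum_of_subset_of_nonneg
              · intro x hx
                rw [mem_Ico] at hx
                rw [mem_range]
                omega
              · intro i _ _
                positivity
          _ ≤ 1 + Real.log ((q + 1 : ℕ) : ℝ) := harm (q + 1)
          _ = 1 + Real.log (q + 1) := by push_cast; rfl
    _ = C * ((q + 1) * (1 + Real.log (q + 1)) / U q) := by ring

/-- the values at a quarter of the block. -/
lemma quarter (u0 : u 0 = 1) (un : ∀ n, 0 ≤ u n) (ua : ∀ m n, m ≤ n → u n ≤ u m)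
    (hU : ∀ n, U n = ∑ i ∈ range (n + 1), u i) {D : ℕ} (hD : 1 ≤ D) : 1 / U ((D + 3) / 4) ≤ 4 / U D := by
  set q := (D + 3) / 4 with hq
  have hq1 : D ≤ 4 * q := by omega
  have hqD : q ≤ D := by omega
  have h1 := conc ua hU hqD
  have hUq : 0 < U q := lt_of_lt_of_le one_pos (U_pos u0 un hU q)
  have hUD : 0 < U D := lt_of_lt_of_le one_pos (U_pos u0 un hU D)
  have hq2 : (D : ℝ) ≤ 4 * q := by exact_mod_cast hq1
  rw [div_le_div_iff₀ hUq hUD]
  have h2 : ((D : ℝ) + 1) * U q ≤ (4 * ((q : ℝ) + 1)) * U q := mul_le_mul_of_nonneg_right (by linarith) hUq.le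
  have h3 : ((q : ℝ) + 1) * U D ≤ ((q : ℝ) + 1) * (4 * U q) := by linarith
  have h4 := le_of_mul_le_mul_left h3 (by positivity)
  linarith

/-- block sum with the factor 1 / U_s. -/
theorem S1 (u0 : u 0 = 1) (un : ∀ n, 0 ≤ u n) (ua : ∀ m n, m ≤ n → u n ≤ u m)
    (hU : ∀ n, U n = ∑ i ∈ range (n + 1), u i) (hC : 0 ≤ C) (hl : ∀ n, 0 ≤ lam n)
    (hv : ∀ n m, 1 ≤ n → ∑ r ∈ Ico n m, lam r ≤ C / U n) {D : ℕ} (hD : 1 ≤ D) :
    SS (fun s => u s / U s) lam (fun s => u s / U s) D ≤ 20 * C * (1 + Real.log (2 * D)) ^ 2 / U D := by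
  have Up : ∀ n, 0 < U n := fun n => lt_of_lt_of_le one_pos (U_pos u0 un hU n)
  have an : ∀ n, 0 ≤ u n / U n := fun n => div_nonneg (un n) (Up n).le
  have aa : ∀ m n, m ≤ n → u n / U n ≤ u m / U m := by
    intro m n h
    exact div_le_div₀ (un m) (ua m n h) (Up m) (U_mono un hU h)
  refine le_trans (core an aa hl an aa D) ?_
  set q := (D + 3) / 4 with hq
  have hq1 : D ≤ 4 * q := by omega
  have hqD : q ≤ D := by omega
  have hq0 : 1 ≤ q := by omega
  have hDr : (1 : ℝ) ≤ D := by exact_mod_cast hD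
  obtain ⟨Λ, hΛ⟩ : ∃ Λ : ℝ, Λ = 1 + Real.log (2 * D) := ⟨_, rfl⟩
  have hΛ1 : 1 ≤ Λ := by
    have := Real.log_nonneg (show (1 : ℝ) ≤ 2 * D by linarith)
    linarith
  have hs : ∑ t ∈ range (2 * D), u t / U t ≤ Λ := by
    have := sum_a u0 un ua hU (2 * D)
    push_cast at this
    rw [hΛ]
    exact this
  have hs0 : 0 ≤ ∑ t ∈ range (2 * D), u t / U t := sum_nonneg (fun t _ => an t)
  have hv1 : ∑ k ∈ Ico q (2 * D), lam k ≤ C * (4 / U D) := by
    refine le_trans (hv q _ hq0) ?_
    have := mul_le_mul_of_nonneg_left (quarter u0 un ua hU hD) hC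
    rw [← hq] at this
    calc C / U q = C * (1 / U q) := by ring
      _ ≤ _ := this
  have hv0 : 0 ≤ ∑ k ∈ Ico q (2 * D), lam k := sum_nonneg (fun t _ => hl t)
  have hm := mom_le u0 un ua hU hC hv (q := q)
  have hlog : 1 + Real.log ((q : ℝ) + 1) ≤ Λ := by
    rw [hΛ]
    have : Real.log ((q : ℝ) + 1) ≤ Real.log (2 * D) := by
      apply Real.log_le_log (by positivity)
      have : (q : ℝ) ≤ D := by exact_mod_cast hqD
      linarith
    linarith
  have hq2 : (D : ℝ) ≤ 4 * q := by exact_mod_cast hq1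
  have haq := a_le u0 un ua hU q
  have hA : (∑ s ∈ range (2 * D), u s / U s) * (∑ t ∈ range (2 * D), u t / U t) * ∑ k ∈ Ico q (2 * D), lam k ≤
      Λ * Λ * (C * (4 / U D)) :=
    mul_le_mul (mul_le_mul hs hs hs0 (by linarith)) hv1 hv0 (by positivity)
  have hB : D * (u q / U q * (u q / U q)) * ∑ k ∈ range q, (k : ℝ) * lam k ≤ 16 * C * Λ / U D := by
    have hUq := Up q
    have hUD := Up D
    calc D * (u q / U q * (u q / U q)) * ∑ k ∈ range q, (k : ℝ) * lam k
        ≤ D * (1 / ((q : ℝ) + 1) * (1 / ((q : ℝ) + 1))) * (C * ((q + 1) * (1 + Real.log (q + 1)) / U q)) := by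
          apply mul_le_mul _ hm (sum_nonneg (fun k _ => mul_nonneg (Nat.cast_nonneg k) (hl k))) (by positivity)
          apply mul_le_mul_of_nonneg_left _ (by positivity)
          exact mul_le_mul haq haq (an q) (by positivity)
      _ = (D / ((q : ℝ) + 1)) * C * (1 + Real.log (q + 1)) * (1 / U q) := by
          field_simp
      _ ≤ 4 * C * Λ * (4 / U D) := by
          have hd : (D : ℝ) / ((q : ℝ) + 1) ≤ 4 := by
            rw [div_le_iff₀ (by positivity)]
            linarith
          have hl0 : 0 ≤ Real.log ((q : ℝ) + 1) := Real.log_nonneg (by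
            have : (0 : ℝ) ≤ q := Nat.cast_nonneg q
            linarith)
          apply mul_le_mul _ (quarter u0 un ua hU hD) (by positivity) (by positivity)
          apply mul_le_mul _ hlog (by linarith) (by positivity)
          exact mul_le_mul_of_nonneg_right hd hC
      _ = 16 * C * Λ / U D := by ring
  have hUD := Up D
  calc _ ≤ Λ * Λ * (C * (4 / U D)) + 16 * C * Λ / U D := add_le_add hA hB
    _ ≤ 20 * C * Λ ^ 2 / U D := by
        rw [show Λ * Λ * (C * (4 / U D)) = 4 * C * Λ ^ 2 / U D by ring, ← add_div]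
        apply div_le_div_of_nonneg_right _ hUD.le
        have : C * Λ ≤ C * Λ ^ 2 := by
          apply mul_le_mul_of_nonneg_left _ hC
          nlinarith
        linarith
    _ = _ := by rw [hΛ]

/-- block sum without the factor 1 / U_s. -/
theorem S2 (u0 : u 0 = 1) (un : ∀ n, 0 ≤ u n) (ua : ∀ m n, m ≤ n → u n ≤ u m)
    (hU : ∀ n, U n = ∑ i ∈ range (n + 1), u i) (hC : 0 ≤ C) (hl : ∀ n, 0 ≤ lam n)
    (hv : ∀ n m, 1 ≤ n → ∑ r ∈ Ico n m, lam r ≤ C / U n) {D : ℕ} (hD : 1 ≤ D) :
    SS u lam (fun s => u s / U s) D ≤ 12 * C * (1 + Real.log (2 * D)) := by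
  have Up : ∀ n, 0 < U n := fun n => lt_of_lt_of_le one_pos (U_pos u0 un hU n)
  have an : ∀ n, 0 ≤ u n / U n := fun n => div_nonneg (un n) (Up n).le
  have aa : ∀ m n, m ≤ n → u n / U n ≤ u m / U m := by
    intro m n h
    exact div_le_div₀ (un m) (ua m n h) (Up m) (U_mono un hU h)
  refine le_trans (core un ua hl an aa D) ?_
  set q := (D + 3) / 4 with hq
  have hq1 : D ≤ 4 * q := by omega
  have hqD : q ≤ D := by omega
  have hq0 : 1 ≤ q := by omega
  have hDr : (1 : ℝ) ≤ D := by exact_mod_cast hD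
  obtain ⟨Λ, hΛ⟩ : ∃ Λ : ℝ, Λ = 1 + Real.log (2 * D) := ⟨_, rfl⟩
  have hΛ1 : 1 ≤ Λ := by
    have := Real.log_nonneg (show (1 : ℝ) ≤ 2 * D by linarith)
    linarith
  have hs : ∑ t ∈ range (2 * D), u t / U t ≤ Λ := by
    have := sum_a u0 un ua hU (2 * D)
    push_cast at this
    rw [hΛ]
    exact this
  have hs0 : 0 ≤ ∑ t ∈ range (2 * D), u t / U t := sum_nonneg (fun t _ => an t)
  have hUD := Up D
  have hUq := Up q
  have hv1 : ∑ k ∈ Ico q (2 * D), lam k ≤ C * (4 / U D) := by
    refine le_trans (hv q _ hq0) ?_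
    have := mul_le_mul_of_nonneg_left (quarter u0 un ua hU hD) hC
    rw [← hq] at this
    calc C / U q = C * (1 / U q) := by ring
      _ ≤ _ := this
  have hv0 : 0 ≤ ∑ k ∈ Ico q (2 * D), lam k := sum_nonneg (fun t _ => hl t)
  have hu : ∑ s ∈ range (2 * D), u s ≤ 2 * U D := by
    have e : ∑ s ∈ range (2 * D), u s = U (2 * D - 1) := by
      rw [hU, show 2 * D - 1 + 1 = 2 * D by omega]
    rw [e]
    have h1 := conc ua hU (show D ≤ 2 * D - 1 by omega)
    have h2 : (((2 * D - 1 : ℕ) : ℝ) + 1) = 2 * D := by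
      rw [Nat.cast_sub (by omega)]
      push_cast
      ring
    rw [h2] at h1
    have h3 : ((D : ℝ) + 1) * U (2 * D - 1) ≤ ((D : ℝ) + 1) * (2 * U D) := by nlinarith
    exact le_of_mul_le_mul_left h3 (by positivity)
  have hm := mom_le u0 un ua hU hC hv (q := q)
  have hlog : 1 + Real.log ((q : ℝ) + 1) ≤ Λ := by
    rw [hΛ]
    have : Real.log ((q : ℝ) + 1) ≤ Real.log (2 * D) := by
      apply Real.log_le_log (by positivity)
      have : (q : ℝ) ≤ D := by exact_mod_cast hqD
      linarith
    linarith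
  have hq2 : (D : ℝ) ≤ 4 * q := by exact_mod_cast hq1
  have haq := a_le u0 un ua hU q
  have huq : u q ≤ U q / ((q : ℝ) + 1) := by
    rw [le_div_iff₀ (by positivity)]
    have := mul_le ua hU q
    linarith
  have hA : (∑ s ∈ range (2 * D), u s) * (∑ t ∈ range (2 * D), u t / U t) * ∑ k ∈ Ico q (2 * D), lam k ≤
      2 * U D * Λ * (C * (4 / U D)) :=
    mul_le_mul (mul_le_mul hu hs hs0 (by positivity)) hv1 hv0 (by positivity)
  have hB : D * (u q * (u q / U q)) * ∑ k ∈ range q, (k : ℝ) * lam k ≤ 4 * C * Λ := by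
    calc D * (u q * (u q / U q)) * ∑ k ∈ range q, (k : ℝ) * lam k
        ≤ D * (U q / ((q : ℝ) + 1) * (1 / ((q : ℝ) + 1))) * (C * ((q + 1) * (1 + Real.log (q + 1)) / U q)) := by
          apply mul_le_mul _ hm (sum_nonneg (fun k _ => mul_nonneg (Nat.cast_nonneg k) (hl k))) (by positivity)
          apply mul_le_mul_of_nonneg_left _ (by positivity)
          exact mul_le_mul huq haq (an q) (by positivity)
      _ = (D / ((q : ℝ) + 1)) * C * (1 + Real.log (q + 1)) := by
          field_simp
      _ ≤ 4 * C * Λ := by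
          have hd : (D : ℝ) / ((q : ℝ) + 1) ≤ 4 := by
            rw [div_le_iff₀ (by positivity)]
            linarith
          have hl0 : 0 ≤ Real.log ((q : ℝ) + 1) := Real.log_nonneg (by
            have : (0 : ℝ) ≤ q := Nat.cast_nonneg q
            linarith)
          apply mul_le_mul _ hlog (by linarith) (by positivity)
          exact mul_le_mul_of_nonneg_right hd hC
  calc _ ≤ 2 * U D * Λ * (C * (4 / U D)) + 4 * C * Λ := add_le_add hA hB
    _ = 12 * C * Λ := by
        field_simp
        ring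
    _ = _ := by rw [hΛ]

end

end Dyadic

end BAR

end HexObs
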