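import Pool.Agent.BAR.WBd
import Pool.Agent.BAR.Dyadic
import Pool.Agent.BAR.Front

/-!
BAR: upper bound for all walks of given extent by half plane walks.
-/

set_option autoImplicit false

namespace HexObs

open Complex Finset ENNReal

namespace BAR

lemma JS_le {T : ℕ} {f g : ℕ → ℕ → ℕ → ℝ≥0∞} (h : ∀ i r u, i ≤ T → r ≤ T → u ≤ T → f i r u ≤ g i r u) :
    JS T f ≤ JS T g := by
  unfold JS
  split_ifs with h0
  · exact h _ _ _ (Nat.zero_le _) (Nat.zero_le _) (Nat.zero_le _)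
  · refine Finset.sum_le_sum fun i hi => Finset.sum_le_sum fun r hr => ?_
    rw [Finset.mem_range] at hi
    rw [Finset.mem_Ico] at hr
    exact h _ _ _ (by omega) (by omega) (by omega)

lemma JS_add (T : ℕ) (f g : ℕ → ℕ → ℕ → ℝ≥0∞) :
    JS T (fun i r u => f i r u + g i r u) = JS T f + JS T g := by
  unfold JS
  split_ifs
  · rfl
  · rw [← Finset.sum_add_distrib]
    exact Finset.sum_congr rfl fun i _ => Finset.sum_add_distrib

/-- sum over the pieces with the weight f of the first piece -/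
noncomputable def EJ (f : ℕ → ℝ) (T : ℕ) : ℝ≥0∞ :=
  JS T fun i r u => ENNReal.ofReal (f i) * (kh r * WB (Gh T) u)

lemma gg_pair : ∃ C : ℝ, 1 ≤ C ∧ ∀ n i i' : ℕ, i ≤ n → i' ≤ n → gg i i' ≤ ENNReal.ofReal (C * lg n ^ C) *
    (ENNReal.ofReal (uu i / UU i) * ENNReal.ofReal (uu i') + ENNReal.ofReal (uu i) * ENNReal.ofReal (uu i' / UU i')) := by
  obtain ⟨C, hC, h⟩ := gg_bound
  refine ⟨C, hC, ?_⟩
  have key : ∀ n b a : ℕ, b ≤ a → a ≤ n → gg b a ≤ ENNReal.ofReal (C * lg n ^ C) *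
      (ENNReal.ofReal (uu b / UU b) * ENNReal.ofReal (uu a)) := by
    intro n b a hba han
    refine (h b a hba).trans ?_
    have h1 := uu_div_nonneg b
    have h2 := Num2Aux.nonneg a
    have hl := lg_one n
    have hl0 : 0 ≤ lg n := by linarith
    rw [← ENNReal.ofReal_mul h1, ← ENNReal.ofReal_mul (by positivity)]
    apply ENNReal.ofReal_le_ofReal
    have h3 : lg a ^ C ≤ lg n ^ C := Real.rpow_le_rpow (le_trans zero_le_one (lg_one a)) (lg_mono han) (by linarith)
    calc C * lg a ^ C * (uu a * (uu b / UU b)) ≤ C * lg n ^ C * (uu a * (uu b / UU b)) := by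
          refine mul_le_mul_of_nonneg_right ?_ (mul_nonneg h2 h1)
          exact mul_le_mul_of_nonneg_left h3 (by linarith)
      _ = _ := by ring
  intro n i i' hi hi'
  rcases Nat.le_total i i' with hii | hii
  · refine (key n i i' hii hi').trans (mul_le_mul' le_rfl ?_)
    exact le_self_add
  · rw [gg_symm]
    refine (key n i' i hii hi).trans (mul_le_mul' le_rfl ?_)
    rw [mul_comm (ENNReal.ofReal (uu i' / UU i'))]
    exact le_add_self

/-- the double sum is a product -/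
lemma PP_prod : ∃ C : ℝ, 1 ≤ C ∧ ∀ m : ℕ, PP m ≤ ENNReal.ofReal (C * lg m ^ C) *
    ((∑ T ∈ Finset.range (m + 1), EJ (fun i => uu i / UU i) T) * ∑ T ∈ Finset.range (m + 1), EJ uu T) := by
  obtain ⟨C, hC, h⟩ := gg_pair
  refine ⟨72 * C, by linarith, ?_⟩
  intro m
  have hl := lg_one m
  have hl0 : 0 ≤ lg m := by linarith
  set c : ℝ≥0∞ := ENNReal.ofReal (C * lg m ^ C) with hc
  have h1 : ∀ T ∈ Finset.range (m + 1), ∀ T' ∈ Finset.range (m + 1),
      (JS T fun i r u => JS T' fun i' r' u' => gg i i' * (kh r * WB (Gh T) u) * (kh r' * WB (Gh T') u')) ≤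
      c * (EJ (fun i => uu i / UU i) T * EJ uu T' + EJ uu T * EJ (fun i => uu i / UU i) T') := by
    intro T hT T' hT'
    rw [Finset.mem_range] at hT hT'
    have e : c * (EJ (fun i => uu i / UU i) T * EJ uu T' + EJ uu T * EJ (fun i => uu i / UU i) T') =
        JS T fun i r u => JS T' fun i' r' u' => c * (ENNReal.ofReal (uu i / UU i) * ENNReal.ofReal (uu i') +
          ENNReal.ofReal (uu i) * ENNReal.ofReal (uu i' / UU i')) * (kh r * WB (Gh T) u) * (kh r' * WB (Gh T') u') := by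
      have e1 : ∀ i r u, (JS T' fun i' r' u' => c * (ENNReal.ofReal (uu i / UU i) * ENNReal.ofReal (uu i') +
          ENNReal.ofReal (uu i) * ENNReal.ofReal (uu i' / UU i')) * (kh r * WB (Gh T) u) * (kh r' * WB (Gh T') u')) =
          (c * EJ uu T') * (ENNReal.ofReal (uu i / UU i) * (kh r * WB (Gh T) u)) +
          (c * EJ (fun i => uu i / UU i) T') * (ENNReal.ofReal (uu i) * (kh r * WB (Gh T) u)) := by
        intro i r u
        have e2 : (fun i' r' u' => c * (ENNReal.ofReal (uu i / UU i) * ENNReal.ofReal (uu i') +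
          ENNReal.ofReal (uu i) * ENNReal.ofReal (uu i' / UU i')) * (kh r * WB (Gh T) u) * (kh r' * WB (Gh T') u')) =
          fun i' r' u' => (c * (ENNReal.ofReal (uu i / UU i) * (kh r * WB (Gh T) u))) *
              (ENNReal.ofReal (uu i') * (kh r' * WB (Gh T') u')) +
            (c * (ENNReal.ofReal (uu i) * (kh r * WB (Gh T) u))) *
              (ENNReal.ofReal (uu i' / UU i') * (kh r' * WB (Gh T') u')) := by
          funext i' r' u'
          ring
        rw [e2, JS_add, ← JS_mul_left, ← JS_mul_left]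
        unfold EJ
        ring
      have e3 : (fun i r u => JS T' fun i' r' u' => c * (ENNReal.ofReal (uu i / UU i) * ENNReal.ofReal (uu i') +
          ENNReal.ofReal (uu i) * ENNReal.ofReal (uu i' / UU i')) * (kh r * WB (Gh T) u) * (kh r' * WB (Gh T') u')) =
          fun i r u => (c * EJ uu T') * (ENNReal.ofReal (uu i / UU i) * (kh r * WB (Gh T) u)) +
          (c * EJ (fun i => uu i / UU i) T') * (ENNReal.ofReal (uu i) * (kh r * WB (Gh T) u)) := by
        funext i r u
        exact e1 i r u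
      rw [e3, JS_add, ← JS_mul_left, ← JS_mul_left]
      show c * (EJ (fun i => uu i / UU i) T * EJ uu T' + EJ uu T * EJ (fun i => uu i / UU i) T') =
        c * EJ uu T' * EJ (fun i => uu i / UU i) T + c * EJ (fun i => uu i / UU i) T' * EJ uu T
      ring
    rw [e]
    refine JS_le fun i r u hi _ _ => JS_le fun i' r' u' hi' _ _ => ?_
    exact mul_le_mul' (mul_le_mul' (h m i i' (by omega) (by omega)) le_rfl) le_rfl
  have h2 := PP_le m
  set E : ℝ≥0∞ := ∑ T ∈ Finset.range (m + 1), EJ (fun i => uu i / UU i) T with hE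
  set G : ℝ≥0∞ := ∑ T ∈ Finset.range (m + 1), EJ uu T with hG
  calc PP m ≤ _ := h2
    _ ≤ 36 * ∑ T' ∈ Finset.range (m + 1), ∑ T ∈ Finset.range (m + 1),
        c * (EJ (fun i => uu i / UU i) T * EJ uu T' + EJ uu T * EJ (fun i => uu i / UU i) T') :=
        mul_le_mul' le_rfl (Finset.sum_le_sum fun T' hT' => Finset.sum_le_sum fun T hT => h1 T hT T' hT')
    _ = 36 * (c * (2 * (E * G))) := by
        congr 1
        have e : ∀ T' : ℕ, ∑ T ∈ Finset.range (m + 1),
            c * (EJ (fun i => uu i / UU i) T * EJ uu T' + EJ uu T * EJ (fun i => uu i / UU i) T') =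
            c * (E * EJ uu T' + G * EJ (fun i => uu i / UU i) T') := by
          intro T'
          rw [← Finset.mul_sum, Finset.sum_add_distrib, ← Finset.sum_mul, ← Finset.sum_mul]
        simp only [e]
        rw [← Finset.mul_sum, Finset.sum_add_distrib, ← Finset.mul_sum, ← Finset.mul_sum]
        show c * (E * G + G * E) = c * (2 * (E * G))
        ring
    _ = (72 * c) * (E * G) := by
        rw [← mul_assoc, ← mul_assoc]
        ring
    _ ≤ _ := by
        refine mul_le_mul' ?_ le_rfl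
        have e72 : (72 : ℝ≥0∞) = ENNReal.ofReal 72 := by norm_num
        rw [hc, e72, ← ENNReal.ofReal_mul (by norm_num)]
        apply ENNReal.ofReal_le_ofReal
        have h3 : lg m ^ C ≤ lg m ^ (72 * C) := Real.rpow_le_rpow_of_exponent_le hl (by linarith)
        calc 72 * (C * lg m ^ C) = 72 * C * lg m ^ C := by ring
          _ ≤ 72 * C * lg m ^ (72 * C) := mul_le_mul_of_nonneg_left h3 (by linarith)

/-- dyadic decomposition of a sum -/
lemma dyad (f : ℕ → ℝ≥0∞) (n : ℕ) : ∑ T ∈ Finset.range (2 ^ n), f T =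
    f 0 + ∑ k ∈ Finset.range n, ∑ T ∈ Finset.Ico (2 ^ k) (2 * 2 ^ k), f T := by
  induction n with
  | zero => simp
  | succ n ih =>
    rw [Finset.sum_range_succ, ← add_assoc, ← ih, Finset.range_eq_Ico, Finset.range_eq_Ico,
      show 2 ^ (n + 1) = 2 * 2 ^ n by ring]
    exact (Finset.sum_Ico_consecutive _ (Nat.zero_le _) (by omega)).symm

lemma kk_nonneg' (r : ℕ) : 0 ≤ kk r := ENNReal.toReal_nonneg

lemma kap_eq (r : ℕ) : kap' r = ENNReal.ofReal (kk r) := by
  have h1 : kap' r ≤ BT r := by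
    rw [← gf_Brd]
    exact gf_mono fun t ht => ht.1
  exact (ENNReal.ofReal_toReal (ne_top_of_le_ne_top (CuLogAux.bt_ne_top r) h1)).symm

lemma tail_kk (n m : ℕ) (hn : 1 ≤ n) : ∑ r ∈ Finset.Ico n m, kk r ≤ 2 / UU n := by
  have hU : ∀ n, 0 < UU n := Num2Aux.UU_pos
  have h1 : ∑ r ∈ Finset.Ico n m, kk r ≤ KK' n := by
    rcases Nat.lt_or_ge m n with h | h
    · rw [Finset.Ico_eq_empty (by omega), Finset.sum_empty]
      exact KK_nonneg _
    · have h2 := KK_nonneg m
      unfold KK' at h2 ⊢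
      have h3 : ∑ r ∈ Finset.range m, kk r = ∑ r ∈ Finset.range n, kk r + ∑ j ∈ Finset.Ico n m, kk j := by
        rw [Finset.range_eq_Ico, Finset.range_eq_Ico]
        exact (Finset.sum_Ico_consecutive _ (Nat.zero_le _) h).symm
      linarith
  obtain ⟨k, rfl⟩ : ∃ k, n = k + 1 := ⟨n - 1, by omega⟩
  have h2 := UU_mul_KK k
  have h3 : UU (k + 1) ≤ 2 * UU k := by
    rw [Num2Aux.UU_succ]
    have h4 : uu (k + 1) ≤ uu k := Num2Aux.succ_le k
    have h5 : uu k ≤ UU k := by
      unfold UU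
      exact Finset.single_le_sum (f := uu) (fun i _ => Num2Aux.nonneg i) (Finset.mem_range.2 (Nat.lt_succ_self k))
    linarith
  refine h1.trans ?_
  rw [le_div_iff₀ (hU _)]
  have h6 := KK_nonneg (k + 1)
  nlinarith

/-- one dyadic block -/
lemma block {W : ℝ} (hW : 0 ≤ W) {f : ℕ → ℝ} (hf : ∀ n, 0 ≤ f n) {D : ℕ} (hD : 1 ≤ D)
    (h : ∀ T u, T < 2 * D → u ≤ T → WB (Gh T) u ≤ ENNReal.ofReal (W * (uu u / UU u)) * HH (2 * T)) :
    ∑ T ∈ Finset.Ico D (2 * D), EJ f T ≤ ENNReal.ofReal W * HH (4 * D) *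
      ENNReal.ofReal (Dyadic.SS f kk (fun s => uu s / UU s) D) := by
  have hn : ∀ d s k, 0 ≤ f s * kk k * (uu (d - s - k) / UU (d - s - k)) := fun d s k =>
    mul_nonneg (mul_nonneg (hf s) (kk_nonneg' k)) (uu_div_nonneg _)
  unfold Dyadic.SS
  rw [ENNReal.ofReal_sum_of_nonneg fun d _ => Finset.sum_nonneg fun s _ => Finset.sum_nonneg fun k _ => hn d s k,
    Finset.mul_sum]
  refine Finset.sum_le_sum fun T hT => ?_
  rw [Finset.mem_Ico] at hT
  unfold EJ JS
  rw [if_neg (by omega), ENNReal.ofReal_sum_of_nonneg fun s _ => Finset.sum_nonneg fun k _ => hn T s k, Finset.mul_sum]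
  refine Finset.sum_le_sum fun i hi => ?_
  rw [Finset.mem_range] at hi
  rw [ENNReal.ofReal_sum_of_nonneg fun k _ => hn T i k, Finset.mul_sum]
  have e : Finset.Ico (T / 2 + 1 - i) (T + 1 - i) = Finset.Icc (T / 2 + 1 - i) (T - i) := by
    ext x
    simp only [Finset.mem_Ico, Finset.mem_Icc]
    omega
  rw [e]
  refine Finset.sum_le_sum fun r hr => ?_
  rw [Finset.mem_Icc] at hr
  have hr0 : r ≠ 0 := by omega
  have ek : kh r = ENNReal.ofReal (kk r) := by
    unfold kh
    rw [if_neg hr0, kap_eq]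
  show ENNReal.ofReal (f i) * (kh r * WB (Gh T) (T - i - r)) ≤ _
  rw [ek]
  have h1 := h T (T - i - r) (by omega) (by omega)
  calc ENNReal.ofReal (f i) * (ENNReal.ofReal (kk r) * WB (Gh T) (T - i - r))
      ≤ ENNReal.ofReal (f i) * (ENNReal.ofReal (kk r) * (ENNReal.ofReal (W * (uu (T - i - r) / UU (T - i - r))) *
        HH (4 * D))) := by
        refine mul_le_mul' le_rfl (mul_le_mul' le_rfl (h1.trans (mul_le_mul' le_rfl (HH_mono (by omega)))))
    _ = _ := by
        rw [ENNReal.ofReal_mul hW, ENNReal.ofReal_mul (mul_nonneg (hf i) (kk_nonneg' r)), ENNReal.ofReal_mul (hf i)]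
        ring

/-- the dyadic sum of the half plane weights -/
noncomputable def SH (m : ℕ) : ℝ≥0∞ :=
  ∑ k ∈ Finset.range (Nat.log 2 m + 1), HH (4 * 2 ^ k) * ENNReal.ofReal (1 / UU (2 ^ k))

lemma HH4_le (m : ℕ) : HH 4 ≤ 2 * SH m := by
  have h1 : HH 4 * ENNReal.ofReal (1 / UU 1) ≤ SH m := by
    unfold SH
    have := Finset.single_le_sum (f := fun k => HH (4 * 2 ^ k) * ENNReal.ofReal (1 / UU (2 ^ k)))
      (fun _ _ => zero_le) (Finset.mem_range.2 (Nat.succ_pos (Nat.log 2 m)))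
    simpa using this
  have hU := Num2Aux.UU_pos 1
  have h2 : UU 1 ≤ 2 := by
    have := CuLogAux.UU_le_succ 1
    norm_num at this
    linarith
  have h3 : (1 : ℝ≥0∞) ≤ 2 * ENNReal.ofReal (1 / UU 1) := by
    have e2 : (2 : ℝ≥0∞) = ENNReal.ofReal 2 := by norm_num
    rw [e2, ← ENNReal.ofReal_mul (by norm_num), ← ENNReal.ofReal_one]
    apply ENNReal.ofReal_le_ofReal
    rw [← mul_div_assoc, mul_one, le_div_iff₀ hU]
    linarith
  calc HH 4 = HH 4 * 1 := (mul_one _).symm
    _ ≤ HH 4 * (2 * ENNReal.ofReal (1 / UU 1)) := mul_le_mul' le_rfl h3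
    _ = 2 * (HH 4 * ENNReal.ofReal (1 / UU 1)) := by ring
    _ ≤ _ := mul_le_mul' le_rfl h1

lemma EJ_zero {W : ℝ} {f : ℕ → ℝ} (hf : f 0 ≤ 1) (h : WB (Gh 0) 0 ≤ ENNReal.ofReal W * HH 4) :
    EJ f 0 ≤ ENNReal.ofReal W * HH 4 := by
  have e : EJ f 0 = ENNReal.ofReal (f 0) * (kh 0 * WB (Gh 0) 0) := by
    unfold EJ JS
    rw [if_pos rfl]
  have e1 : kh 0 = 1 := if_pos rfl
  rw [e, e1, one_mul]
  calc ENNReal.ofReal (f 0) * WB (Gh 0) 0 ≤ 1 * (ENNReal.ofReal W * HH 4) :=
        mul_le_mul' (by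
          rw [← ENNReal.ofReal_one]
          exact ENNReal.ofReal_le_ofReal hf) h
    _ = _ := one_mul _

lemma log_le {m k : ℕ} (hm : 1 ≤ m) (hk : k < Nat.log 2 m + 1) : 1 + Real.log (2 * (2 ^ k : ℕ)) ≤ lg (2 * m) := by
  have h1 : Real.log (2 * (2 ^ k : ℕ)) = ((k + 1 : ℕ) : ℝ) * Real.log 2 := by
    rw [← Real.log_pow]
    congr 1
    push_cast
    ring
  have h2 : Real.log 2 ≤ 1 := by
    have := Real.log_two_lt_d9
    linarith
  have h3 : ((k + 1 : ℕ) : ℝ) * Real.log 2 ≤ ((k + 1 : ℕ) : ℝ) := by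
    have : (0 : ℝ) ≤ ((k + 1 : ℕ) : ℝ) := Nat.cast_nonneg _
    nlinarith
  rw [h1]
  unfold lg
  have e : Nat.log 2 (2 * m) = Nat.log 2 m + 1 := by
    rw [mul_comm]
    exact Nat.log_mul_base (by norm_num) (by omega)
  rw [e]
  have h4 : ((k + 1 : ℕ) : ℝ) ≤ ((Nat.log 2 m + 1 : ℕ) : ℝ) := by exact_mod_cast (by omega : k + 1 ≤ Nat.log 2 m + 1)
  linarith

/-- both factors -/
lemma sums : ∃ C : ℝ, 1 ≤ C ∧ ∀ m : ℕ, 1 ≤ m →
    (∑ T ∈ Finset.range (m + 1), EJ (fun i => uu i / UU i) T) ≤ ENNReal.ofReal (C * lg (2 * m) ^ C) * SH m ∧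
    (∑ T ∈ Finset.range (m + 1), EJ uu T) ≤ ENNReal.ofReal (C * lg (2 * m) ^ C) * HH (4 * m) := by
  obtain ⟨C, hC, h⟩ := WB_le
  have hU : ∀ n, 0 < UU n := Num2Aux.UU_pos
  refine ⟨42 * C + 2, by linarith, ?_⟩
  intro m hm
  set L : ℝ := lg (2 * m) with hL
  have hL1 : 1 ≤ L := lg_one _
  have hL0 : 0 < L := by linarith
  set W : ℝ := C * L ^ C with hW
  have hW0 : 0 ≤ W := by positivity
  have hWb : ∀ T u, T ≤ 2 * m → u ≤ T → WB (Gh T) u ≤ ENNReal.ofReal (W * (uu u / UU u)) * HH (2 * T) := by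
    intro T u hT hu
    refine (h T u hu).trans (mul_le_mul' (ENNReal.ofReal_le_ofReal ?_) le_rfl)
    refine mul_le_mul_of_nonneg_right ?_ (uu_div_nonneg u)
    refine mul_le_mul_of_nonneg_left ?_ (by linarith)
    exact Real.rpow_le_rpow (le_trans zero_le_one (lg_one u)) (lg_mono (by omega)) (by linarith)
  set K : ℕ := Nat.log 2 m with hK
  have hKm : m + 1 ≤ 2 ^ (K + 1) := Nat.lt_pow_succ_log_self (by norm_num) m
  have hKm' : ∀ k, k < K + 1 → 2 ^ k ≤ m := fun k hk =>
    (Nat.pow_le_pow_right (by norm_num) (by omega)).trans (Nat.pow_log_le_self 2 (by omega))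
  have hsum : ∀ f : ℕ → ℝ, (∀ n, 0 ≤ f n) → f 0 ≤ 1 → ∑ T ∈ Finset.range (m + 1), EJ f T ≤
      ENNReal.ofReal W * HH 4 + ∑ k ∈ Finset.range (K + 1), ENNReal.ofReal W * HH (4 * 2 ^ k) *
        ENNReal.ofReal (Dyadic.SS f kk (fun s => uu s / UU s) (2 ^ k)) := by
    intro f hf hf0
    calc ∑ T ∈ Finset.range (m + 1), EJ f T ≤ ∑ T ∈ Finset.range (2 ^ (K + 1)), EJ f T :=
          Finset.sum_le_sum_of_subset (Finset.range_subset_range.2 hKm)
      _ = EJ f 0 + ∑ k ∈ Finset.range (K + 1), ∑ T ∈ Finset.Ico (2 ^ k) (2 * 2 ^ k), EJ f T := dyad _ _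
      _ ≤ _ := by
          refine add_le_add (EJ_zero hf0 ?_) (Finset.sum_le_sum fun k hk => ?_)
          · refine (hWb 0 0 (by omega) le_rfl).trans (mul_le_mul' (ENNReal.ofReal_le_ofReal ?_) (HH_mono (by omega)))
            have := uu_div_le_one 0
            nlinarith
          · rw [Finset.mem_range] at hk
            have := hKm' k hk
            exact block hW0 hf (Nat.one_le_two_pow) fun T u hT hu => hWb T u (by omega) hu
  have hua : ∀ m n : ℕ, m ≤ n → uu n ≤ uu m := fun m n h => Num2Aux.anti h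
  have hUU : ∀ n, UU n = ∑ i ∈ Finset.range (n + 1), uu i := fun n => rfl
  have hlog : ∀ k, k < K + 1 → 1 + Real.log (2 * (2 ^ k : ℕ)) ≤ L := fun k hk => log_le hm hk
  have hlog0 : ∀ k : ℕ, 0 ≤ 1 + Real.log (2 * (2 ^ k : ℕ)) := by
    intro k
    have h1 : (1 : ℝ) ≤ 2 * (2 ^ k : ℕ) := by
      have : (1 : ℝ) ≤ (2 ^ k : ℕ) := by exact_mod_cast Nat.one_le_two_pow
      linarith
    have := Real.log_nonneg h1
    linarith
  have hpow : ∀ {x y : ℝ}, x ≤ y → L ^ x ≤ L ^ y := fun h => Real.rpow_le_rpow_of_exponent_le hL1 h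
  constructor
  · have hS : ∀ k, k < K + 1 → Dyadic.SS (fun i => uu i / UU i) kk (fun s => uu s / UU s) (2 ^ k) ≤
        40 * L ^ 2 * (1 / UU (2 ^ k)) := by
      intro k hk
      refine (Dyadic.S1 (C := 2) Num2Aux.zero Num2Aux.nonneg hua hUU (by norm_num) kk_nonneg' tail_kk
        Nat.one_le_two_pow).trans ?_
      have h1 := hlog k hk
      have h2 := hlog0 k
      have h3 : (1 + Real.log (2 * (2 ^ k : ℕ))) ^ 2 ≤ L ^ 2 := pow_le_pow_left₀ h2 h1 2
      rw [mul_one_div]
      apply div_le_div_of_nonneg_right _ (hU _).le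
      linarith
    refine (hsum _ uu_div_nonneg (uu_div_le_one 0)).trans ?_
    calc ENNReal.ofReal W * HH 4 + ∑ k ∈ Finset.range (K + 1), ENNReal.ofReal W * HH (4 * 2 ^ k) *
          ENNReal.ofReal (Dyadic.SS (fun i => uu i / UU i) kk (fun s => uu s / UU s) (2 ^ k))
        ≤ ENNReal.ofReal W * (2 * SH m) + ∑ k ∈ Finset.range (K + 1), ENNReal.ofReal W * HH (4 * 2 ^ k) *
          (ENNReal.ofReal (40 * L ^ 2) * ENNReal.ofReal (1 / UU (2 ^ k))) := by
          refine add_le_add (mul_le_mul' le_rfl (HH4_le m)) (Finset.sum_le_sum fun k hk => mul_le_mul' le_rfl ?_)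
          rw [← ENNReal.ofReal_mul (by positivity)]
          exact ENNReal.ofReal_le_ofReal (hS k (Finset.mem_range.1 hk))
      _ = ENNReal.ofReal (W * (2 + 40 * L ^ 2)) * SH m := by
          have e1 : ∑ k ∈ Finset.range (K + 1), ENNReal.ofReal W * HH (4 * 2 ^ k) *
              (ENNReal.ofReal (40 * L ^ 2) * ENNReal.ofReal (1 / UU (2 ^ k))) =
              ENNReal.ofReal W * ENNReal.ofReal (40 * L ^ 2) * SH m := by
            unfold SH
            rw [Finset.mul_sum]
            refine Finset.sum_congr rfl fun k _ => ?_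
            ring
          have e2 : (2 : ℝ≥0∞) = ENNReal.ofReal 2 := by norm_num
          rw [e1, e2, mul_add, ENNReal.ofReal_add (by positivity) (by positivity), ENNReal.ofReal_mul hW0,
            ENNReal.ofReal_mul hW0]
          ring
      _ ≤ _ := by
          refine mul_le_mul' (ENNReal.ofReal_le_ofReal ?_) le_rfl
          have h1 : 1 ≤ L ^ 2 := one_le_pow₀ hL1
          have h2 : W * (2 + 40 * L ^ 2) ≤ W * (42 * L ^ 2) := mul_le_mul_of_nonneg_left (by linarith) hW0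
          have h3 : L ^ C * L ^ 2 = L ^ (C + 2) := by
            rw [Real.rpow_add hL0]
            norm_num
          calc W * (2 + 40 * L ^ 2) ≤ W * (42 * L ^ 2) := h2
            _ = 42 * C * (L ^ C * L ^ 2) := by rw [hW]; ring
            _ = 42 * C * L ^ (C + 2) := by rw [h3]
            _ ≤ (42 * C + 2) * L ^ (42 * C + 2) :=
                mul_le_mul (by linarith) (hpow (by linarith)) (Real.rpow_nonneg hL0.le _) (by linarith)
  · have hS : ∀ k, k < K + 1 → Dyadic.SS uu kk (fun s => uu s / UU s) (2 ^ k) ≤ 24 * L := by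
      intro k hk
      refine (Dyadic.S2 (C := 2) Num2Aux.zero Num2Aux.nonneg hua hUU (by norm_num) kk_nonneg' tail_kk
        Nat.one_le_two_pow).trans ?_
      have h1 := hlog k hk
      linarith
    have hKL : ((K + 1 : ℕ) : ℝ) ≤ L := by
      rw [hL]
      unfold lg
      have e : Nat.log 2 (2 * m) = Nat.log 2 m + 1 := by
        rw [mul_comm]
        exact Nat.log_mul_base (by norm_num) (by omega)
      rw [e, ← hK]
      push_cast
      linarith
    refine (hsum _ Num2Aux.nonneg Num2Aux.zero.le).trans ?_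
    calc ENNReal.ofReal W * HH 4 + ∑ k ∈ Finset.range (K + 1), ENNReal.ofReal W * HH (4 * 2 ^ k) *
          ENNReal.ofReal (Dyadic.SS uu kk (fun s => uu s / UU s) (2 ^ k))
        ≤ ENNReal.ofReal W * HH (4 * m) + ∑ _k ∈ Finset.range (K + 1), ENNReal.ofReal W * HH (4 * m) *
          ENNReal.ofReal (24 * L) := by
          refine add_le_add (mul_le_mul' le_rfl (HH_mono (by omega))) (Finset.sum_le_sum fun k hk => ?_)
          have hk' := Finset.mem_range.1 hk
          have := hKm' k hk'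
          exact mul_le_mul' (mul_le_mul' le_rfl (HH_mono (by omega))) (ENNReal.ofReal_le_ofReal (hS k hk'))
      _ = ENNReal.ofReal (W * (1 + ((K + 1 : ℕ) : ℝ) * (24 * L))) * HH (4 * m) := by
          rw [Finset.sum_const, Finset.card_range, nsmul_eq_mul, mul_add, ENNReal.ofReal_add (by positivity) (by positivity),
            mul_one, ENNReal.ofReal_mul hW0, ENNReal.ofReal_mul (Nat.cast_nonneg _), ENNReal.ofReal_natCast]
          ring
      _ ≤ _ := by
          refine mul_le_mul' (ENNReal.ofReal_le_ofReal ?_) le_rfl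
          have h1 : 1 ≤ L ^ 2 := one_le_pow₀ hL1
          have h4 : ((K + 1 : ℕ) : ℝ) * (24 * L) ≤ 24 * L ^ 2 := by nlinarith
          have h2 : W * (1 + ((K + 1 : ℕ) : ℝ) * (24 * L)) ≤ W * (42 * L ^ 2) :=
            mul_le_mul_of_nonneg_left (by linarith) hW0
          have h3 : L ^ C * L ^ 2 = L ^ (C + 2) := by
            rw [Real.rpow_add hL0]
            norm_num
          calc W * (1 + ((K + 1 : ℕ) : ℝ) * (24 * L)) ≤ W * (42 * L ^ 2) := h2
            _ = 42 * C * (L ^ C * L ^ 2) := by rw [hW]; ring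
            _ = 42 * C * L ^ (C + 2) := by rw [h3]
            _ ≤ (42 * C + 2) * L ^ (42 * C + 2) :=
                mul_le_mul (by linarith) (hpow (by linarith)) (Real.rpow_nonneg hL0.le _) (by linarith)

/-- disjoint pairs of half plane walks -/
theorem PP_upper : ∃ C : ℝ, 1 ≤ C ∧ ∀ m : ℕ, 1 ≤ m →
    PP m ≤ ENNReal.ofReal (C * lg (2 * m) ^ C) * (HH (4 * m) * SH m) := by
  obtain ⟨C1, hC1, h1⟩ := PP_prod
  obtain ⟨C2, hC2, h2⟩ := sums
  refine ⟨max (C1 * C2 * C2) (C1 + C2 + C2), le_max_of_le_right (by linarith), ?_⟩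
  intro m hm
  set L : ℝ := lg (2 * m) with hL
  have hL1 : 1 ≤ L := lg_one _
  have hL0 : 0 < L := by linarith
  obtain ⟨h3, h4⟩ := h2 m hm
  have h5 : ENNReal.ofReal (C1 * lg m ^ C1) ≤ ENNReal.ofReal (C1 * L ^ C1) := by
    apply ENNReal.ofReal_le_ofReal
    refine mul_le_mul_of_nonneg_left ?_ (by linarith)
    exact Real.rpow_le_rpow (le_trans zero_le_one (lg_one m)) (lg_mono (by omega)) (by linarith)
  calc PP m ≤ _ := h1 m
    _ ≤ ENNReal.ofReal (C1 * L ^ C1) * ((ENNReal.ofReal (C2 * L ^ C2) * SH m) * (ENNReal.ofReal (C2 * L ^ C2) * HH (4 * m))) :=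
        mul_le_mul' h5 (mul_le_mul' h3 h4)
    _ = ENNReal.ofReal (C1 * L ^ C1 * (C2 * L ^ C2) * (C2 * L ^ C2)) * (HH (4 * m) * SH m) := by
        rw [ENNReal.ofReal_mul (p := C1 * L ^ C1 * (C2 * L ^ C2)) (by positivity),
          ENNReal.ofReal_mul (p := C1 * L ^ C1) (by positivity)]
        ring
    _ ≤ _ := by
        refine mul_le_mul' (ENNReal.ofReal_le_ofReal ?_) le_rfl
        have e : C1 * L ^ C1 * (C2 * L ^ C2) * (C2 * L ^ C2) = (C1 * C2 * C2) * L ^ (C1 + C2 + C2) := by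
          rw [Real.rpow_add hL0, Real.rpow_add hL0]
          ring
        rw [e]
        have hm1 : C1 * C2 * C2 ≤ max (C1 * C2 * C2) (C1 + C2 + C2) := le_max_left _ _
        refine mul_le_mul hm1 (Real.rpow_le_rpow_of_exponent_le hL1 (le_max_right _ _)) (Real.rpow_nonneg hL0.le _) ?_
        exact le_trans (by positivity) hm1

/-- UPPER BOUND: all walks of extent at most m by half plane walks -/
theorem Chi_upper : ∃ C : ℝ, 1 ≤ C ∧ ∀ m : ℕ, 1 ≤ m →
    Chi m ≤ ENNReal.ofReal (C * lg (2 * m) ^ C) * (HH (4 * m) * SH m) := by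
  obtain ⟨C, hC, h⟩ := PP_upper
  refine ⟨9 * (C + 2), by linarith, ?_⟩
  intro m hm
  set L : ℝ := lg (2 * m) with hL
  have hL1 : 1 ≤ L := lg_one _
  have hL0 : 0 < L := by linarith
  have h1 : HH m ≤ ENNReal.ofReal 2 * (HH (4 * m) * SH m) := by
    have h2 := HH4_le m
    have h3 : (1 : ℝ≥0∞) ≤ HH 4 := by
      have h4 : gf {([] : List Bool)} ≤ HH 4 := gf_mono (by
        rintro w rfl
        exact nil_SSt 4)
      refine le_trans (le_of_eq ?_) h4
      unfold gf
      rw [tsum_singleton]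
      unfold wE
      simp
    have e2 : ENNReal.ofReal 2 = 2 := by norm_num
    rw [e2]
    calc HH m ≤ HH (4 * m) * 1 := by
          rw [mul_one]
          exact HH_mono (by omega)
      _ ≤ HH (4 * m) * (2 * SH m) := mul_le_mul' le_rfl (h3.trans h2)
      _ = _ := by ring
  have e9 : (9 : ℝ≥0∞) = ENNReal.ofReal 9 := by norm_num
  calc Chi m ≤ 9 * (HH m + PP m) := Chi_le m
    _ ≤ 9 * (ENNReal.ofReal 2 * (HH (4 * m) * SH m) + ENNReal.ofReal (C * L ^ C) * (HH (4 * m) * SH m)) :=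
        mul_le_mul' le_rfl (add_le_add h1 (h m hm))
    _ = ENNReal.ofReal (9 * (2 + C * L ^ C)) * (HH (4 * m) * SH m) := by
        rw [e9, ENNReal.ofReal_mul (p := 9) (by norm_num), ENNReal.ofReal_add (by norm_num) (by positivity)]
        ring
    _ ≤ _ := by
        refine mul_le_mul' (ENNReal.ofReal_le_ofReal ?_) le_rfl
        have h5 : L ^ C ≤ L ^ (9 * (C + 2)) := Real.rpow_le_rpow_of_exponent_le hL1 (by linarith)
        have h6 : 1 ≤ L ^ (9 * (C + 2)) := Real.one_le_rpow hL1 (by linarith)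
        nlinarith

end BAR

end HexObs
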