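import Pool.Agent.BAR.Lat

/-!
BAR, section 3: the lateral tail with a logarithm. The words of m rows that leave a box of radius 2 ^ L ≥ K L m weigh at
most 2 ^ (- Q L).
-/

set_option autoImplicit false

namespace HexObs

namespace BAR

open Complex Finset ENNReal SDN PLW

/-- one scale, with a logarithm -/
theorem scale_log {Q : ℝ} (hQ : 0 < Q) : ∃ K : ℕ, 12 ≤ K ∧ ∀ L m : ℕ, K * (L + 1) * (m + 1) ≤ 2 ^ L →
    gf {t | t ∈ YS (3 * m) ∧ t ∈ WL (L + 1) ∧ t ∉ WL L} ≤ ENNReal.ofReal ((2 : ℝ) ^ (-((Q + 1) * (L + 1)))) := by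
  obtain ⟨C, q, hC, hq, hq1, hdec⟩ := gf_FY_decay
  obtain ⟨C', hC', hpoly⟩ := SAL_poly
  obtain ⟨A, hA⟩ : ∃ A : ℝ, A = max 1 (C * ((402 : ℝ) ^ C' * C') ^ 2) := ⟨_, rfl⟩
  have hA1 : 1 ≤ A := by rw [hA]; exact le_max_left _ _
  have hA2 : C * ((402 : ℝ) ^ C' * C') ^ 2 ≤ A := by rw [hA]; exact le_max_right _ _
  obtain ⟨K2, hK2⟩ : ∃ K2 : ℕ, q ^ K2 < (2 : ℝ) ^ (-(Q + 1 + 4 * C')) / A :=
    exists_pow_lt_of_lt_one (by positivity) hq1
  refine ⟨12 * (K2 + 1), by omega, fun L m hm => ?_⟩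
  have hL2 : 4 ≤ L := by
    by_contra hcon
    have h1 : 2 ^ L ≤ 2 ^ 3 := Nat.pow_le_pow_right (by norm_num) (by omega)
    have h2 : 12 * 1 * 1 * 1 ≤ 12 * (K2 + 1) * (L + 1) * (m + 1) := by
      gcongr <;> omega
    omega
  obtain ⟨X, hX⟩ : ∃ X : ℕ, X = 2 ^ (L - 2) := ⟨_, rfl⟩
  have e1 : 2 ^ L = 4 * X := by
    rw [hX, show L = (L - 2) + 2 by omega, pow_add, Nat.add_sub_cancel]
    ring
  have e2 : 2 ^ (L - 1) = 2 * X := by
    rw [hX, show L - 1 = (L - 2) + 1 by omega, pow_succ]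
    ring
  have hX3 : 3 * ((K2 + 1) * (L + 1) * (m + 1)) ≤ X := by
    rw [e1] at hm
    have : 12 * (K2 + 1) * (L + 1) * (m + 1) = 4 * (3 * ((K2 + 1) * (L + 1) * (m + 1))) := by ring
    omega
  have hX4 : m + 1 ≤ (K2 + 1) * (L + 1) * (m + 1) := by
    calc m + 1 = 1 * 1 * (m + 1) := by ring
      _ ≤ (K2 + 1) * (L + 1) * (m + 1) := by gcongr <;> omega
  have hm6 : m + 6 ≤ 2 ^ (L - 1) := by
    rw [e2]
    omega
  have hsub : {t | t ∈ YS (3 * m) ∧ t ∈ WL (L + 1) ∧ t ∉ WL L} ⊆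
      FY (3 * m) (100 * 4 ^ (L + 1)) (6 * ((2 ^ (L - 2) : ℕ) : ℤ) + 18) := by
    rintro t ⟨h1, h2, h3⟩
    exact ⟨h1, WL_length h2, far_of h1 (by omega) hm6 h3⟩
  have hr1 : 1 ≤ 2 ^ (L - 2) := Nat.one_le_two_pow
  refine (gf_mono hsub).trans ((hdec (3 * m) (2 ^ (L - 2)) (100 * 4 ^ (L + 1)) hr1).trans ?_)
  have hG := hpoly (100 * 4 ^ (L + 1) + 2) (by omega)
  obtain ⟨Z, hZ⟩ : ∃ Z : ℝ, Z = (2 : ℝ) ^ L := ⟨_, rfl⟩
  have hZ1 : 1 ≤ Z := by rw [hZ]; exact one_le_pow₀ (by norm_num)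
  have h4Z : (4 : ℝ) ^ L = Z * Z := by
    rw [hZ, ← mul_pow]
    norm_num
  have hG2 : gf (SAL (100 * 4 ^ (L + 1) + 2)) ≤ ENNReal.ofReal ((402 : ℝ) ^ C' * C' * Z ^ (2 * C')) := by
    refine hG.trans (ENNReal.ofReal_le_ofReal ?_)
    have h1 : ((100 * 4 ^ (L + 1) + 2 : ℕ) : ℝ) ≤ 402 * (Z * Z) := by
      push_cast
      rw [pow_succ, h4Z]
      nlinarith
    have h2 : ((100 * 4 ^ (L + 1) + 2 : ℕ) : ℝ) ^ C' ≤ (402 * (Z * Z)) ^ C' :=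
      Real.rpow_le_rpow (by positivity) h1 hC'.le
    have h3 : (402 * (Z * Z)) ^ C' = (402 : ℝ) ^ C' * Z ^ (2 * C') := by
      rw [Real.mul_rpow (by norm_num) (by positivity), Real.mul_rpow (by linarith) (by linarith),
        ← Real.rpow_add (by linarith)]
      congr 2
      ring
    rw [h3] at h2
    calc _ ≤ (402 : ℝ) ^ C' * Z ^ (2 * C') * C' := mul_le_mul_of_nonneg_right h2 hC'.le
      _ = _ := by ring
  have hq3 : q ^ (2 ^ (L - 2) / (3 * m + 1)) ≤ (q ^ K2) ^ (L + 1) := by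
    rw [← pow_mul]
    apply pow_le_pow_of_le_one hq.le hq1.le
    rw [Nat.le_div_iff_mul_le (by omega), ← hX]
    refine le_trans ?_ hX3
    calc K2 * (L + 1) * (3 * m + 1) ≤ (K2 + 1) * (L + 1) * (3 * (m + 1)) := by gcongr <;> omega
      _ = 3 * ((K2 + 1) * (L + 1) * (m + 1)) := by ring
  have hq4 : (q ^ K2) ^ (L + 1) ≤ ((2 : ℝ) ^ (-(Q + 1 + 4 * C')) / A) ^ (L + 1) :=
    pow_le_pow_left₀ (by positivity) hK2.le _
  have e5 : ((2 : ℝ) ^ (-(Q + 1 + 4 * C')) / A) ^ (L + 1) * A * Z ^ (4 * C') ≤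
      (2 : ℝ) ^ (-((Q + 1) * (L + 1))) := by
    have hAp : A ≤ A ^ (L + 1) := by
      calc A = A ^ 1 := (pow_one A).symm
        _ ≤ A ^ (L + 1) := pow_le_pow_right₀ hA1 (by omega)
    have hZp : Z ^ (4 * C') = (2 : ℝ) ^ (4 * C' * L) := by
      rw [hZ, ← Real.rpow_natCast, ← Real.rpow_mul (by norm_num)]
      congr 1
      ring
    have h2p : ((2 : ℝ) ^ (-(Q + 1 + 4 * C'))) ^ (L + 1) = (2 : ℝ) ^ (-((Q + 1 + 4 * C') * (L + 1))) := by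
      rw [← Real.rpow_natCast, ← Real.rpow_mul (by norm_num)]
      congr 1
      push_cast
      ring
    rw [div_pow, h2p, hZp]
    have hA0 : 0 < A ^ (L + 1) := by positivity
    calc (2 : ℝ) ^ (-((Q + 1 + 4 * C') * (L + 1))) / A ^ (L + 1) * A * (2 : ℝ) ^ (4 * C' * L) ≤
        (2 : ℝ) ^ (-((Q + 1 + 4 * C') * (L + 1))) / A ^ (L + 1) * A ^ (L + 1) * (2 : ℝ) ^ (4 * C' * L) := by
          gcongr
      _ = (2 : ℝ) ^ (-((Q + 1 + 4 * C') * (L + 1))) * (2 : ℝ) ^ (4 * C' * L) := by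
          rw [div_mul_cancel₀ _ hA0.ne']
      _ = (2 : ℝ) ^ (-((Q + 1) * (L + 1)) + -(4 * C')) := by
          rw [← Real.rpow_add (by norm_num)]
          congr 1
          ring
      _ ≤ (2 : ℝ) ^ (-((Q + 1) * (L + 1))) := by
          apply Real.rpow_le_rpow_of_exponent_le (by norm_num)
          linarith
  calc ENNReal.ofReal (C * q ^ (2 ^ (L - 2) / (3 * m + 1))) * gf (SAL (100 * 4 ^ (L + 1) + 2)) ^ 2 ≤
      ENNReal.ofReal (C * ((2 : ℝ) ^ (-(Q + 1 + 4 * C')) / A) ^ (L + 1)) *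
        ENNReal.ofReal ((402 : ℝ) ^ C' * C' * Z ^ (2 * C')) ^ 2 := by
        have h9 := hq3.trans hq4
        gcongr
    _ = ENNReal.ofReal (((2 : ℝ) ^ (-(Q + 1 + 4 * C')) / A) ^ (L + 1) * (C * ((402 : ℝ) ^ C' * C') ^ 2) *
        Z ^ (4 * C')) := by
        rw [← ENNReal.ofReal_pow (by positivity), ← ENNReal.ofReal_mul (by positivity)]
        congr 1
        have : (Z ^ (2 * C')) ^ 2 = Z ^ (4 * C') := by
          rw [sq, ← Real.rpow_add (by linarith)]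
          congr 1
          ring
        rw [mul_pow, this]
        ring
    _ ≤ ENNReal.ofReal (((2 : ℝ) ^ (-(Q + 1 + 4 * C')) / A) ^ (L + 1) * A * Z ^ (4 * C')) := by
        apply ENNReal.ofReal_le_ofReal
        gcongr
    _ ≤ _ := ENNReal.ofReal_le_ofReal e5

/-- words of m rows that leave the box of radius 2 ^ L, K (L + 1) (m + 1) ≤ 2 ^ L -/
theorem lat_log {Q : ℝ} (hQ : 0 < Q) : ∃ K : ℕ, ∀ L m : ℕ, K * (L + 1) * (m + 1) ≤ 2 ^ L →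
    gf {t | t ∈ SA ∧ Ext m t ∧ t ∉ WL L} ≤ ENNReal.ofReal ((2 : ℝ) ^ (-(Q * L))) := by
  obtain ⟨K, _, hK⟩ := scale_log hQ
  refine ⟨K, fun L m hm => ?_⟩
  have hmono : ∀ k : ℕ, K * (L + k + 1) * (m + 1) ≤ 2 ^ (L + k) := by
    intro k
    induction k with
    | zero => simpa using hm
    | succ k ih =>
      calc K * (L + (k + 1) + 1) * (m + 1) ≤ K * (2 * (L + k + 1)) * (m + 1) := by
            gcongr
            omega
        _ = 2 * (K * (L + k + 1) * (m + 1)) := by ring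
        _ ≤ 2 * 2 ^ (L + k) := by gcongr
        _ = 2 ^ (L + (k + 1)) := by ring
  have hsub : {t | t ∈ SA ∧ Ext m t ∧ t ∉ WL L} ⊆
      ⋃ k : ℕ, {t | t ∈ YS (3 * m) ∧ t ∈ WL (L + k + 1) ∧ t ∉ WL (L + k)} := by
    rintro t ⟨h1, h2, h3⟩
    classical
    have hex := WL_ex h1
    obtain ⟨N, hN, hmin⟩ : ∃ N, t ∈ WL N ∧ ∀ k, k < N → t ∉ WL k :=
      ⟨Nat.find hex, Nat.find_spec hex, fun k hk => Nat.find_min hex hk⟩
    have hLN : L < N := by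
      by_contra hcon
      exact h3 (WL_mono (not_lt.1 hcon) hN)
    rw [Set.mem_iUnion]
    refine ⟨N - L - 1, Ext_YS h1 h2, ?_, hmin _ (by omega)⟩
    rw [show L + (N - L - 1) + 1 = N by omega]
    exact hN
  have h1 : ∀ k : ℕ, gf {t | t ∈ YS (3 * m) ∧ t ∈ WL (L + k + 1) ∧ t ∉ WL (L + k)} ≤
      ENNReal.ofReal ((2 : ℝ) ^ (-(Q * L))) * (2⁻¹ : ℝ≥0∞) ^ (k + 1) := by
    intro k
    refine (hK (L + k) m (hmono k)).trans ?_
    have e1 : (2⁻¹ : ℝ≥0∞) ^ (k + 1) = ENNReal.ofReal ((1 / 2) ^ (k + 1)) := by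
      rw [ENNReal.ofReal_pow (by norm_num)]
      congr 1
      rw [one_div, ENNReal.ofReal_inv_of_pos (by norm_num)]
      norm_num
    rw [e1, ← ENNReal.ofReal_mul (by positivity)]
    apply ENNReal.ofReal_le_ofReal
    have e2 : ((1 : ℝ) / 2) ^ (k + 1) = (2 : ℝ) ^ (-((k : ℝ) + 1)) := by
      rw [Real.rpow_neg (by norm_num), ← Nat.cast_add_one, Real.rpow_natCast, one_div, inv_pow]
    rw [e2, ← Real.rpow_add (by norm_num)]
    apply Real.rpow_le_rpow_of_exponent_le (by norm_num)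
    push_cast
    have h2 : (0 : ℝ) ≤ k := Nat.cast_nonneg _
    have h3 : (0 : ℝ) ≤ L := Nat.cast_nonneg _
    nlinarith
  calc gf {t | t ∈ SA ∧ Ext m t ∧ t ∉ WL L} ≤
      gf (⋃ k : ℕ, {t | t ∈ YS (3 * m) ∧ t ∈ WL (L + k + 1) ∧ t ∉ WL (L + k)}) := gf_mono hsub
    _ ≤ ∑' k : ℕ, gf {t | t ∈ YS (3 * m) ∧ t ∈ WL (L + k + 1) ∧ t ∉ WL (L + k)} :=
        ENNReal.tsum_iUnion_le_tsum wE _
    _ ≤ ∑' k : ℕ, ENNReal.ofReal ((2 : ℝ) ^ (-(Q * L))) * (2⁻¹ : ℝ≥0∞) ^ (k + 1) := ENNReal.tsum_le_tsum h1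
    _ = ENNReal.ofReal ((2 : ℝ) ^ (-(Q * L))) * 1 := by
        rw [ENNReal.tsum_mul_left, ENNReal.tsum_geometric_add_one, ENNReal.one_sub_inv_two, inv_inv,
          ENNReal.inv_mul_cancel (by norm_num) (by norm_num)]
    _ = _ := mul_one _

end BAR

end HexObs
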