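import Pool.Agent.BAR1.Main
import Pool.Agent.BAR.HCut

/-!
BAR, pointwise lower bound, part 1: half plane words without a cut, joined with half plane words of any shape.
The lowest cut edge is the joint, so the joined words are counted at most once for every direction.
-/

set_option autoImplicit false

namespace HexObs

open Complex Finset ENNReal

namespace BAR

/-- half plane words with k letters and without a cut -/
def HiN (k : ℕ) : Set (List Bool) := {t | t ∈ HpN k ∧ cuts t = ∅}

/-- number of the half plane words with k letters and without a cut -/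
noncomputable def cI (k : ℕ) : ℕ := (HiN k).ncard

lemma up_dirs : up ∈ dirs := by decide

/-! ### 1. The frame of the joint -/

/-- the direction of the joint -/
def jd (s : List Bool) : Pt := dx up (rev s) s.length

lemma jd_dirs (s : List Bool) : jd s ∈ dirs := dx_mem up_dirs _ _

lemma jd_cat (s v : List Bool) : dx up (rev s ++ v) s.length = jd s := by
  rw [dx_append (by rw [rev_length])]
  rfl

lemma frame_rev (s : List Bool) : ∃ R : Pt, nrm R = 1 ∧ mulE R (jd s) = -up ∧
    (∀ i, i ≤ s.length + 1 → mulE R (vx oo up (rev s) i) = vx oo up s (s.length + 1 - i) - tip oo up s) ∧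
    (∀ i, i ≤ s.length → mulE R (dx up (rev s) i) = -dx up s (s.length - i)) := by
  have hD : -dx up s s.length ∈ dirs := by
    rw [mem_dirs, nrm_neg, ← mem_dirs]
    exact dx_mem up_dirs _ _
  have hR := rotTo_apply (-dx up s s.length) up_dirs
  obtain ⟨R, hRd⟩ : ∃ R, R = rotTo up (-dx up s s.length) := ⟨_, rfl⟩
  rw [← hRd] at hR
  have h2 : ∀ i, i ≤ s.length → mulE R (dx up (rev s) i) = -dx up s (s.length - i) := by
    intro i hi
    rw [← dx_mulE, hR]
    exact dx_rev up s i hi
  refine ⟨R, hRd ▸ nrm_rotTo up_dirs hD, ?_, fun i hi => ?_, h2⟩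
  · unfold jd
    rw [h2 _ le_rfl, Nat.sub_self]
    rfl
  · have h3 := vx_mulE R oo (tip oo up s) up (rev s) i
    rw [hR, vx_rev oo up s i hi] at h3
    have h4 : vx oo up (rev s) i - oo = vx oo up (rev s) i := sub_zero _
    rw [h4] at h3
    rw [h3]
    abel

/-- levels of the first part in the frame of the joint -/
lemma jlev_rev (s : List Bool) {i : ℕ} (hi : i ≤ s.length + 1) :
    ip (vx oo up (rev s) i) (jd s) = lev s (s.length + 1) - lev s (s.length + 1 - i) := by
  obtain ⟨R, hR, h1, h2, _⟩ := frame_rev s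
  have h3 := ip_mulE R (vx oo up (rev s) i) (jd s)
  rw [hR, one_mul, h1, h2 i hi, ip_neg_right, ip_sub_left] at h3
  rw [← h3]
  unfold lev tip
  ring

lemma jlev_fst (s v : List Bool) {i : ℕ} (hi : i ≤ s.length + 1) :
    ip (vx oo up (rev s ++ v) i) (jd s) = lev s (s.length + 1) - lev s (s.length + 1 - i) := by
  rw [vx_append (by rw [rev_length]; omega), jlev_rev s hi]

lemma jinj_fst (s v : List Bool) {i k : ℕ} (hi : i ≤ s.length + 1) (hk : k ≤ s.length + 1)
    (h : vx oo up (rev s ++ v) i = vx oo up (rev s ++ v) k) :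
    vx oo up s (s.length + 1 - i) = vx oo up s (s.length + 1 - k) := by
  rw [vx_append (by rw [rev_length]; omega), vx_append (by rw [rev_length]; omega)] at h
  obtain ⟨R, hR, h1, h2, _⟩ := frame_rev s
  have h3 := h2 i hi
  rw [h, h2 k hk] at h3
  exact (sub_left_injective h3).symm

lemma jdir (s v : List Bool) {j : ℕ} (hj : j ≤ s.length) :
    dx up (rev s ++ v) (s.length - j) = jd s ↔ dx up s j = up := by
  rw [dx_append (by rw [rev_length]; omega)]
  obtain ⟨R, hR, h1, _, h2⟩ := frame_rev s
  have h3 := h2 (s.length - j) (by omega)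
  rw [show s.length - (s.length - j) = j by omega] at h3
  constructor
  · intro h
    rw [h, h1] at h3
    exact (neg_injective h3).symm
  · intro h
    rw [h, ← h1] at h3
    exact mulE_inj hR h3

/-- the second part in the frame of the joint -/
lemma jvx_snd (s v : List Bool) : ∃ R : Pt, nrm R = 1 ∧ mulE R up = jd s ∧ ∀ j,
    vx oo up (rev s ++ v) (s.length + j) = vx oo up (rev s ++ v) s.length + mulE R (vx oo up v j) := by
  have hR := rotTo_apply (jd s) up_dirs
  obtain ⟨R, hRd⟩ : ∃ R, R = rotTo up (jd s) := ⟨_, rfl⟩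
  rw [← hRd] at hR
  refine ⟨R, hRd ▸ nrm_rotTo up_dirs (jd_dirs s), hR, fun j => ?_⟩
  have h1 : (rev s ++ v).drop s.length = v := by
    rw [← rev_length s]
    exact List.drop_left
  have h2 := vx_mulE R oo (vx oo up (rev s ++ v) s.length) up v j
  have h3 : vx oo up v j - oo = vx oo up v j := sub_zero _
  rw [hR, h3] at h2
  rw [lowA_drop oo up (rev s ++ v) s.length j, h1, jd_cat, h2]

lemma jlev_snd (s v : List Bool) (j : ℕ) : ip (vx oo up (rev s ++ v) (s.length + j)) (jd s) =
    ip (vx oo up (rev s ++ v) s.length) (jd s) + lev v j := by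
  obtain ⟨R, hR, h1, h2⟩ := jvx_snd s v
  rw [h2, ip_add_left, ← h1, ip_mulE R (vx oo up v j), hR, one_mul]
  rfl

lemma jinj_snd (s v : List Bool) {i j : ℕ}
    (h : vx oo up (rev s ++ v) (s.length + i) = vx oo up (rev s ++ v) (s.length + j)) :
    vx oo up v i = vx oo up v j := by
  obtain ⟨R, hR, h1, h2⟩ := jvx_snd s v
  rw [h2, h2] at h
  exact mulE_inj hR (add_left_cancel h)

/-! ### 2. The joined word -/

lemma HpN_iff {k : ℕ} {t : List Bool} : t ∈ HpN k ↔ t.length = k ∧ Pos t ∧
    ∀ i l, i < l → l ≤ t.length → vx oo up t i ≠ vx oo up t l := by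
  constructor
  · rintro ⟨h1, h2⟩
    exact ⟨h1, fun i h3 h4 => h2.mem i h3 h4, h2.inj⟩
  · rintro ⟨h1, h2, h3⟩
    exact ⟨h1, fun i h4 h5 => h2 i h4 h5, h3⟩

lemma lev_pos_two {t : List Bool} {i : ℕ} (h : 0 < lev t i) : 2 ≤ lev t i := by
  have h1 := lev_mod t i
  split_ifs at h1 <;> omega

/-- the joined word is self-avoiding -/
theorem glue_mem {k l : ℕ} {s v : List Bool} {x : Bool} (hs : s ++ [x] ∈ HpN (k + 1)) (hv : v ∈ HpN l) :
    rev s ++ v ∈ SawN (k + l) := by
  obtain ⟨s1, s2, s3⟩ := HpN_iff.1 hs
  obtain ⟨v1, v2, v3⟩ := HpN_iff.1 hv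
  rw [List.length_append, List.length_singleton] at s1
  have hsl : s.length = k := by omega
  rw [List.length_append, List.length_singleton] at s3
  have hL : ∀ i, 1 ≤ i → i ≤ k + 1 → 0 < lev s i := by
    intro i h1 h2
    have h3 := s2 i h1 (by rw [List.length_append, List.length_singleton]; omega)
    unfold lev at h3 ⊢
    rwa [vx_append (by omega)] at h3
  have hlen : (rev s ++ v).length = k + l := by
    rw [List.length_append, rev_length, hsl, v1]
  refine ⟨hlen, fun i _ _ => Set.mem_univ _, fun i m him hm heq => ?_⟩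
  rw [hlen] at hm
  have hlow : ∀ i, i ≤ k → ip (vx oo up (rev s ++ v) i) (jd s) < lev s (k + 1) := by
    intro i hi
    have h1 := jlev_fst s v (i := i) (by omega)
    rw [hsl] at h1
    have h2 := hL (k + 1 - i) (by omega) (by omega)
    omega
  have hhigh : ∀ j, 1 ≤ j → j ≤ l → lev s (k + 1) ≤ ip (vx oo up (rev s ++ v) (k + j)) (jd s) := by
    intro j h1 h2
    have h3 := jlev_snd s v j
    rw [hsl] at h3
    have h4 := jlev_fst s v (i := k) (by omega)
    rw [hsl, show k + 1 - k = 1 by omega, lev_one] at h4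
    have h5 := lev_pos_two (v2 j h1 (by omega))
    omega
  by_cases h1 : m ≤ k
  · have h2 := jinj_fst s v (i := i) (k := m) (by omega) (by omega) heq
    apply s3 (s.length + 1 - m) (s.length + 1 - i) (by omega) (by omega)
    rw [vx_append (by omega), vx_append (by omega)]
    exact h2.symm
  · by_cases h2 : k ≤ i
    · obtain ⟨j, rfl⟩ : ∃ j, i = k + j := ⟨i - k, by omega⟩
      obtain ⟨r, rfl⟩ : ∃ r, m = k + r := ⟨m - k, by omega⟩
      rw [← hsl] at heq
      exact v3 j r (by omega) (by omega) (jinj_snd s v heq)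
    · have h3 := hlow i (by omega)
      have h4 := hhigh (m - k) (by omega) (by omega)
      rw [show k + (m - k) = m by omega, ← heq] at h4
      omega

/-- two different joints with the same direction: the longer first part has a cut -/
theorem glue_cut {k k' l l' : ℕ} {s s' v v' : List Bool} {x x' : Bool} (hs : s ++ [x] ∈ HpN (k + 1)) (hv : v ∈ HpN l)
    (hs' : s' ++ [x'] ∈ HpN (k' + 1)) (hv' : v' ∈ HpN l') (ht : rev s ++ v = rev s' ++ v') (hd : jd s = jd s')
    (hk : k < k') : (cuts (s' ++ [x'])).Nonempty := by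
  obtain ⟨s1, s2, s3⟩ := HpN_iff.1 hs
  obtain ⟨v1, v2, v3⟩ := HpN_iff.1 hv
  obtain ⟨s1', s2', s3'⟩ := HpN_iff.1 hs'
  obtain ⟨v1', _, _⟩ := HpN_iff.1 hv'
  rw [List.length_append, List.length_singleton] at s1 s1'
  have hsl : s.length = k := by omega
  have hsl' : s'.length = k' := by omega
  have hkl : k + l = k' + l' := by
    have := congrArg List.length ht
    rw [List.length_append, List.length_append, rev_length, rev_length, hsl, hsl', v1, v1'] at this
    exact this
  have hL : ∀ i, 1 ≤ i → i ≤ k + 1 → 0 < lev s i := by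
    intro i h1 h2
    have h3 := s2 i h1 (by rw [List.length_append, List.length_singleton]; omega)
    unfold lev at h3 ⊢
    rwa [vx_append (by omega)] at h3
  have hlx : ∀ i, i ≤ k' + 1 → lev (s' ++ [x']) i = lev s' i := by
    intro i h1
    unfold lev
    rw [vx_append (by omega)]
  have hL' : ∀ i, 1 ≤ i → i ≤ k' + 1 → 0 < lev s' i := by
    intro i h1 h2
    have h3 := s2' i h1 (by rw [List.length_append, List.length_singleton]; omega)
    rwa [hlx i h2] at h3
  -- levels of the common word
  have e1 : ∀ i, i ≤ k' + 1 → lev s' (k' + 1 - i) = lev s' (k' + 1) - ip (vx oo up (rev s ++ v) i) (jd s) := by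
    intro i hi
    have h1 := jlev_fst s' v' (i := i) (by omega)
    rw [hsl', ← ht, ← hd] at h1
    omega
  have e2 : ∀ i, i ≤ k + 1 → ip (vx oo up (rev s ++ v) i) (jd s) = lev s (k + 1) - lev s (k + 1 - i) := by
    intro i hi
    have h1 := jlev_fst s v (i := i) (by omega)
    rw [hsl] at h1
    exact h1
  have e3 : ∀ j, ip (vx oo up (rev s ++ v) (k + j)) (jd s) = lev s (k + 1) - 2 + lev v j := by
    intro j
    have h3 := jlev_snd s v j
    rw [hsl] at h3
    rw [h3, e2 k (by omega), show k + 1 - k = 1 by omega, lev_one]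
  have e4 : ip (vx oo up (rev s ++ v) (k + 1)) (jd s) = lev s (k + 1) := by
    rw [e2 _ le_rfl, Nat.sub_self, lev_zero]
    ring
  have e5 : lev s' (k' - k) = lev s' (k' + 1) - lev s (k + 1) := by
    have h1 := e1 (k + 1) (by omega)
    rw [e4, show k' + 1 - (k + 1) = k' - k by omega] at h1
    exact h1
  refine ⟨k' - k, mem_cuts.2 ⟨by omega, by rw [List.length_append, List.length_singleton]; omega, ?_, ?_, ?_⟩⟩
  · rw [dx_append (by omega), ← jdir s' v' (by omega), ← ht, hsl', show k' - (k' - k) = k by omega, ← hd, ← hsl]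
    exact jd_cat s v
  · intro i hi
    rw [hlx i (by omega), hlx _ (by omega)]
    rcases Nat.eq_zero_or_pos i with h0 | h0
    · rw [h0, lev_zero]
      exact (hL' _ (by omega) (by omega)).le
    · have h1 := e1 (k' + 1 - i) (by omega)
      rw [show k' + 1 - (k' + 1 - i) = i by omega] at h1
      rw [h1, e5]
      have h2 := e3 (k' + 1 - i - k)
      rw [show k + (k' + 1 - i - k) = k' + 1 - i by omega] at h2
      have h3 := lev_pos_two (v2 (k' + 1 - i - k) (by omega) (by omega))
      omega
  · intro i hi hil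
    rw [List.length_append, List.length_singleton, hsl'] at hil
    rw [hlx i (by omega), hlx _ (by omega)]
    have h1 := e1 (k' + 1 - i) (by omega)
    rw [show k' + 1 - (k' + 1 - i) = i by omega] at h1
    rw [h1, e5, e2 (k' + 1 - i) (by omega)]
    have h2 := hL (k + 1 - (k' + 1 - i)) (by omega) (by omega)
    omega

end BAR

end HexObs
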