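import Pool.Agent.BAR.PubC

/-!
BAR: the scaling relation in brick wall coordinates.
-/

set_option autoImplicit false

namespace HexObs

open Finset ENNReal

namespace BARPub

open SawNu

lemma TA_nil : TA [] := ⟨trivial, SA.nil⟩

lemma one_le_gl {S : Set (List (ℤ × ℤ))} (h : ([] : List (ℤ × ℤ)) ∈ S) : 1 ≤ gl S := by
  unfold gl
  have h1 : (fun l : S => ENNReal.ofReal (xc ^ l.1.length)) ⟨[], h⟩ = 1 := by simp
  rw [← h1]
  exact ENNReal.le_tsum _

lemma gl_mono {S S' : Set (List (ℤ × ℤ))} (h : S ⊆ S') : gl S ≤ gl S' :=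
  ENNReal.tsum_mono_subtype (fun l : List (ℤ × ℤ) => ENNReal.ofReal (xc ^ l.length)) h

lemma one_le_HL (m : ℕ) : 1 ≤ gl (HL m) :=
  one_le_gl ⟨TA_nil, fun i h1 h2 => by simp only [List.length_nil] at h2; omega⟩

lemma one_le_XL (m : ℕ) : 1 ≤ gl (XL m) :=
  one_le_gl ⟨TA_nil, -1, fun i _ => by rw [ps_nil]; constructor <;> simp⟩

lemma one_le_HH (m : ℕ) : 1 ≤ BAR.HH m := by
  have h1 : gf {([] : List Bool)} ≤ BAR.HH m := gf_mono (by
    rintro t rfl
    exact BAR.nil_SSt m)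
  have h2 : gf {([] : List Bool)} = 1 := by
    unfold gf
    rw [tsum_singleton (f := wE)]
    unfold wE
    simp
  rwa [h2] at h1

lemma XL_mono {m n : ℕ} (h : m ≤ n) : XL m ⊆ XL n := by
  rintro l ⟨h1, c, hc⟩
  refine ⟨h1, c, fun i hi => ?_⟩
  have := hc i hi
  omega

lemma HL_mono {m n : ℕ} (h : m ≤ n) : HL m ⊆ HL n := by
  rintro l ⟨h1, h2⟩
  refine ⟨h1, fun i hi hil => ?_⟩
  have := h2 i hi hil
  omega

lemma HL_le (m : ℕ) : gl (HL m) ≤ 2 * BAR.HH m := by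
  refine (gl_le_HH m).trans ?_
  rw [two_mul]
  exact add_le_add (one_le_HH m) le_rfl

lemma HH_le (m : ℕ) : BAR.HH m ≤ 3 * gl (HL m) := by
  refine (HH_le_gl m).trans ?_
  have e : (3 : ℝ≥0∞) * gl (HL m) = gl (HL m) + 2 * gl (HL m) := by ring
  rw [e]
  exact add_le_add (one_le_HL m) le_rfl

lemma Chi_le (m : ℕ) : BAR.Chi m ≤ 3 * gl (XL m) := by
  refine (Chi_le_gl m).trans ?_
  have e : (3 : ℝ≥0∞) * gl (XL m) = gl (XL m) + 2 * gl (XL m) := by ring
  rw [e]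
  exact add_le_add (one_le_XL m) le_rfl

lemma xc_lt : xc < 1 := by
  have := BAR.xc_le
  linarith

/-- the constant of the horizontal beginnings -/
lemma geo_const : ∃ K : ℝ, 0 < K ∧ 2 * (1 - ENNReal.ofReal xc)⁻¹ ≤ ENNReal.ofReal K := by
  have h0 := xc_pos
  have h1 := xc_lt
  refine ⟨2 / (1 - xc), by have : 0 < 1 - xc := by linarith
                           positivity, ?_⟩
  have h2 : (1 : ℝ≥0∞) - ENNReal.ofReal xc = ENNReal.ofReal (1 - xc) := by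
    rw [ENNReal.ofReal_sub _ h0.le, ENNReal.ofReal_one]
  rw [h2, ← ENNReal.ofReal_inv_of_pos (by linarith)]
  have e2 : (2 : ℝ≥0∞) = ENNReal.ofReal 2 := by norm_num
  rw [e2, ← ENNReal.ofReal_mul (by norm_num), div_eq_mul_inv]

lemma XL_le : ∃ K : ℝ, 0 < K ∧ ∀ m : ℕ, gl (XL m) ≤ ENNReal.ofReal K * BAR.Chi (m + 1) := by
  obtain ⟨K, hK, h⟩ := geo_const
  refine ⟨K * 2, by positivity, fun m => ?_⟩
  calc gl (XL m) ≤ 2 * (1 - ENNReal.ofReal xc)⁻¹ * gl (XV m) := gl_XL_le m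
    _ ≤ ENNReal.ofReal K * (1 + BAR.Chi (m + 1)) := mul_le_mul' h (gl_XV_le m)
    _ ≤ ENNReal.ofReal K * (2 * BAR.Chi (m + 1)) := by
        refine mul_le_mul' le_rfl ?_
        rw [two_mul]
        exact add_le_add (BAR.one_le_Chi _) le_rfl
    _ = ENNReal.ofReal (K * 2) * BAR.Chi (m + 1) := by
        have e2 : (2 : ℝ≥0∞) = ENNReal.ofReal 2 := by norm_num
        rw [ENNReal.ofReal_mul hK.le, ← e2]
        ring

lemma lg_le {m : ℕ} (hm : 1 ≤ m) : BAR.lg (2 * (m + 1)) ≤ 3 * (1 + Real.log m) := by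
  have hm0 : (1 : ℝ) ≤ m := by exact_mod_cast hm
  have hl0 : 0 ≤ Real.log m := Real.log_nonneg hm0
  unfold BAR.lg
  have h1 : Nat.log 2 (2 * (m + 1)) ≤ Nat.log 2 (2 * (2 * m)) := Nat.log_mono_right (by omega)
  have h2 : Nat.log 2 (2 * (2 * m)) = Nat.log 2 m + 2 := by
    rw [Nat.mul_comm 2 (2 * m), Nat.log_mul_base (by norm_num) (by omega), Nat.mul_comm 2 m,
      Nat.log_mul_base (by norm_num) (by omega)]
  have h3 : ((Nat.log 2 m : ℕ) : ℝ) ≤ 2 * Real.log m := by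
    have h4 : (2 : ℝ) ^ (Nat.log 2 m) ≤ m := by
      exact_mod_cast Nat.pow_log_le_self 2 (by omega)
    have h5 : Real.log ((2 : ℝ) ^ (Nat.log 2 m)) ≤ Real.log m := Real.log_le_log (by positivity) h4
    rw [Real.log_pow] at h5
    have h6 : (0.5 : ℝ) ≤ Real.log 2 := by
      have := Real.log_two_gt_d9
      linarith
    have h7 : (0 : ℝ) ≤ (Nat.log 2 m : ℕ) := Nat.cast_nonneg _
    nlinarith
  have h4 : ((Nat.log 2 (2 * (m + 1)) : ℕ) : ℝ) ≤ (Nat.log 2 m : ℕ) + 2 := by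
    have : Nat.log 2 (2 * (m + 1)) ≤ Nat.log 2 m + 2 := by omega
    exact_mod_cast this
  linarith

/-- lower half -/
theorem lower_E : ∃ C : ℝ, 0 < C ∧ ∀ m : ℕ, 1 ≤ m →
    gl (HL m) ^ 2 ≤ ENNReal.ofReal (C * (m : ℝ) ^ (3 / 4 : ℝ)) * gl (XL (3 * m)) := by
  obtain ⟨C, hC, h⟩ := BAR.HH_sq_le
  refine ⟨24 * C, by positivity, fun m hm => ?_⟩
  have hm0 : (1 : ℝ) ≤ m := by exact_mod_cast hm
  calc gl (HL m) ^ 2 ≤ (2 * BAR.HH m) ^ 2 := pow_le_pow_left' (HL_le m) 2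
    _ = 4 * BAR.HH m ^ 2 := by ring
    _ ≤ 4 * (ENNReal.ofReal (C * ((m : ℝ) + 1) ^ (3 / 4 : ℝ)) * BAR.Chi (2 * m + 1)) := mul_le_mul' le_rfl (h m)
    _ ≤ 4 * (ENNReal.ofReal (C * (2 * (m : ℝ) ^ (3 / 4 : ℝ))) * (3 * gl (XL (3 * m)))) := by
        refine mul_le_mul' le_rfl (mul_le_mul' (ENNReal.ofReal_le_ofReal ?_) ?_)
        · refine mul_le_mul_of_nonneg_left ?_ hC.le
          calc ((m : ℝ) + 1) ^ (3 / 4 : ℝ) ≤ (2 * (m : ℝ)) ^ (3 / 4 : ℝ) :=
                Real.rpow_le_rpow (by positivity) (by linarith) (by norm_num)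
            _ = 2 ^ (3 / 4 : ℝ) * (m : ℝ) ^ (3 / 4 : ℝ) := Real.mul_rpow (by norm_num) (by positivity)
            _ ≤ 2 * (m : ℝ) ^ (3 / 4 : ℝ) := by
                refine mul_le_mul_of_nonneg_right ?_ (by positivity)
                calc (2 : ℝ) ^ (3 / 4 : ℝ) ≤ 2 ^ (1 : ℝ) :=
                      Real.rpow_le_rpow_of_exponent_le (by norm_num) (by norm_num)
                  _ = 2 := Real.rpow_one 2
        · exact (Chi_le _).trans (mul_le_mul' le_rfl (gl_mono (XL_mono (by omega))))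
    _ = ENNReal.ofReal (24 * C * (m : ℝ) ^ (3 / 4 : ℝ)) * gl (XL (3 * m)) := by
        have e4 : (4 : ℝ≥0∞) = ENNReal.ofReal 4 := by norm_num
        have e3 : (3 : ℝ≥0∞) = ENNReal.ofReal 3 := by norm_num
        rw [e4, e3, ← mul_assoc, ← mul_assoc, ← ENNReal.ofReal_mul (by norm_num), ← ENNReal.ofReal_mul (by positivity)]
        congr 2
        ring

/-- upper half -/
theorem upper_E : ∃ C : ℝ, 0 < C ∧ ∀ m : ℕ, 1 ≤ m →
    gl (XL m) ≤ ENNReal.ofReal (C * (1 + Real.log m) ^ C * (m : ℝ) ^ (-(3 / 4) : ℝ)) * gl (HL (10 * m)) ^ 2 := by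
  obtain ⟨K, hK, h1⟩ := XL_le
  obtain ⟨C, hC, h2⟩ := BAR.Chi_le_HH_sq
  obtain ⟨D, hD⟩ : ∃ D : ℝ, D = max (9 * K * C * 3 ^ C) C := ⟨_, rfl⟩
  have hDa : 9 * K * C * 3 ^ C ≤ D := by rw [hD]; exact le_max_left _ _
  have hDb : C ≤ D := by rw [hD]; exact le_max_right _ _
  refine ⟨D, by linarith, fun m hm => ?_⟩
  have hm0 : (1 : ℝ) ≤ m := by exact_mod_cast hm
  have hl0 : 0 ≤ Real.log m := Real.log_nonneg hm0
  have hL : (1 : ℝ) ≤ 1 + Real.log m := by linarith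
  have h3 := h2 (m + 1) (by omega)
  calc gl (XL m) ≤ ENNReal.ofReal K * BAR.Chi (m + 1) := h1 m
    _ ≤ ENNReal.ofReal K * (ENNReal.ofReal (C * BAR.lg (2 * (m + 1)) ^ C * ((m + 1 : ℕ) : ℝ) ^ (-(3 / 4) : ℝ)) *
          BAR.HH (5 * (m + 1)) ^ 2) := mul_le_mul' le_rfl h3
    _ ≤ ENNReal.ofReal K * (ENNReal.ofReal (C * (3 ^ C * (1 + Real.log m) ^ C) * (m : ℝ) ^ (-(3 / 4) : ℝ)) *
          (3 * gl (HL (10 * m))) ^ 2) := by
        refine mul_le_mul' le_rfl (mul_le_mul' (ENNReal.ofReal_le_ofReal ?_) (pow_le_pow_left' ?_ 2))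
        · refine mul_le_mul (mul_le_mul_of_nonneg_left ?_ (by linarith)) ?_ (by positivity) (by positivity)
          · have h4 := lg_le hm
            have h5 := BAR.lg_one (2 * (m + 1))
            calc BAR.lg (2 * (m + 1)) ^ C ≤ (3 * (1 + Real.log m)) ^ C :=
                  Real.rpow_le_rpow (by linarith) h4 (by linarith)
              _ = 3 ^ C * (1 + Real.log m) ^ C := Real.mul_rpow (by norm_num) (by linarith)
          · apply Real.rpow_le_rpow_of_nonpos (by linarith) _ (by norm_num)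
            push_cast
            linarith
        · exact (HH_le _).trans (mul_le_mul' le_rfl (gl_mono (HL_mono (by omega))))
    _ = ENNReal.ofReal (9 * K * C * 3 ^ C * (1 + Real.log m) ^ C * (m : ℝ) ^ (-(3 / 4) : ℝ)) *
          gl (HL (10 * m)) ^ 2 := by
        have e3 : (3 : ℝ≥0∞) = ENNReal.ofReal 3 := by norm_num
        have e9 : (3 * gl (HL (10 * m))) ^ 2 = ENNReal.ofReal 9 * gl (HL (10 * m)) ^ 2 := by
          have : ENNReal.ofReal 9 = 9 := by norm_num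
          rw [this]
          ring
        rw [e9, ← mul_assoc, ← mul_assoc, ← ENNReal.ofReal_mul (by positivity), ← ENNReal.ofReal_mul (by positivity)]
        congr 2
        ring
    _ ≤ ENNReal.ofReal (D * (1 + Real.log m) ^ D * (m : ℝ) ^ (-(3 / 4) : ℝ)) * gl (HL (10 * m)) ^ 2 := by
        refine mul_le_mul' (ENNReal.ofReal_le_ofReal ?_) le_rfl
        refine mul_le_mul_of_nonneg_right ?_ (by positivity)
        exact mul_le_mul hDa (Real.rpow_le_rpow_of_exponent_le hL hDb) (by positivity) (by linarith)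

lemma HL_fin (m : ℕ) : gl (HL m) ≠ ∞ :=
  ne_top_of_le_ne_top (ENNReal.mul_ne_top (by norm_num) (PLW.gf_SSt_fin m)) (HL_le m)

lemma XL_fin {m : ℕ} (hm : 1 ≤ m) : gl (XL m) ≠ ∞ := by
  obtain ⟨C, _, h⟩ := upper_E
  exact ne_top_of_le_ne_top (ENNReal.mul_ne_top ENNReal.ofReal_ne_top (ENNReal.pow_ne_top (HL_fin _))) (h m hm)

/-- from sums in the extended nonnegative reals to real sums -/
lemma real_of {f : ℕ → ℝ} (h0 : ∀ n, 0 ≤ f n) {g : ℝ≥0∞} (h : ∑' n, ENNReal.ofReal (f n) = g) (hg : g ≠ ∞) :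
    Summable f ∧ ∑' n, f n = g.toReal := by
  have h1 : ∑' n, ENNReal.ofReal (f n) ≠ ∞ := by rw [h]; exact hg
  have e : (fun n => (ENNReal.ofReal (f n)).toReal) = f := by
    funext n
    exact ENNReal.toReal_ofReal (h0 n)
  constructor
  · have h2 := ENNReal.summable_toReal h1
    rwa [e] at h2
  · have h2 := ENNReal.tsum_toReal_eq (f := fun n => ENNReal.ofReal (f n)) (fun n => ENNReal.ofReal_ne_top)
    rw [h, e] at h2
    exact h2.symm

/-- **THE SCALING RELATION in brick wall coordinates** -/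
theorem scaling : ∃ C : ℝ, 0 < C ∧ ∀ h x : ℕ → ℕ → ℕ,
    (∀ n m : ℕ, h n m = Set.ncard {f : Fin (n + 1) → ℤ × ℤ | f 0 = 0 ∧ Function.Injective f ∧
      (∀ i : Fin n, AdjB (f i.castSucc) (f i.succ)) ∧ ∀ i : Fin n, 1 ≤ (f i.succ).2 ∧ (f i.succ).2 ≤ (m : ℤ)}) →
    (∀ n m : ℕ, x n m = Set.ncard {f : Fin (n + 1) → ℤ × ℤ | f 0 = 0 ∧ Function.Injective f ∧
      (∀ i : Fin n, AdjB (f i.castSucc) (f i.succ)) ∧ ∃ c : ℤ, ∀ i : Fin (n + 1), c ≤ (f i).2 ∧
        (f i).2 ≤ c + (m : ℤ)}) →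
    ∀ m : ℕ, 1 ≤ m →
      Summable (fun n => (h n m : ℝ) / muB ^ n) ∧ Summable (fun n => (x n m : ℝ) / muB ^ n) ∧
      (∑' n, (h n m : ℝ) / muB ^ n) ^ 2 ≤ C * (m : ℝ) ^ (3 / 4 : ℝ) * ∑' n, (x n (3 * m) : ℝ) / muB ^ n ∧
      ∑' n, (x n m : ℝ) / muB ^ n ≤
        C * (1 + Real.log m) ^ C * (m : ℝ) ^ (-(3 / 4) : ℝ) * (∑' n, (h n (10 * m) : ℝ) / muB ^ n) ^ 2 := by
  obtain ⟨C1, hC1, h1⟩ := lower_E
  obtain ⟨C2, hC2, h2⟩ := upper_E
  obtain ⟨C, hC⟩ : ∃ C : ℝ, C = max C1 C2 := ⟨_, rfl⟩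
  have hCa : C1 ≤ C := by rw [hC]; exact le_max_left _ _
  have hCb : C2 ≤ C := by rw [hC]; exact le_max_right _ _
  refine ⟨C, by linarith, fun h x hh hx m hm => ?_⟩
  have hmu : 0 < muB := by
    have := xc_pos
    rw [muB_eq]
    positivity
  have hH : ∀ m : ℕ, Summable (fun n => (h n m : ℝ) / muB ^ n) ∧
      ∑' n, (h n m : ℝ) / muB ^ n = (gl (HL m)).toReal := by
    intro m
    refine real_of (fun n => by positivity) ?_ (HL_fin m)
    rw [← tsum_H m]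
    refine tsum_congr fun n => ?_
    rw [hh n m]
    rfl
  have hX : ∀ m : ℕ, 1 ≤ m → Summable (fun n => (x n m : ℝ) / muB ^ n) ∧
      ∑' n, (x n m : ℝ) / muB ^ n = (gl (XL m)).toReal := by
    intro m hm
    refine real_of (fun n => by positivity) ?_ (XL_fin hm)
    rw [← tsum_X m]
    refine tsum_congr fun n => ?_
    rw [hx n m]
    rfl
  have hm0 : (1 : ℝ) ≤ m := by exact_mod_cast hm
  have hl0 : 0 ≤ Real.log m := Real.log_nonneg hm0
  have hL : (1 : ℝ) ≤ 1 + Real.log m := by linarith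
  refine ⟨(hH m).1, (hX m hm).1, ?_, ?_⟩
  · rw [(hH m).2, (hX (3 * m) (by omega)).2]
    have h3 := ENNReal.toReal_mono (ENNReal.mul_ne_top ENNReal.ofReal_ne_top (XL_fin (by omega))) (h1 m hm)
    rw [ENNReal.toReal_pow, ENNReal.toReal_mul, ENNReal.toReal_ofReal (by positivity)] at h3
    refine h3.trans ?_
    refine mul_le_mul_of_nonneg_right ?_ ENNReal.toReal_nonneg
    exact mul_le_mul_of_nonneg_right hCa (by positivity)
  · rw [(hH (10 * m)).2, (hX m hm).2]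
    have h3 := ENNReal.toReal_mono (ENNReal.mul_ne_top ENNReal.ofReal_ne_top
      (ENNReal.pow_ne_top (HL_fin (10 * m)))) (h2 m hm)
    rw [ENNReal.toReal_mul, ENNReal.toReal_pow, ENNReal.toReal_ofReal (by positivity)] at h3
    refine h3.trans ?_
    refine mul_le_mul_of_nonneg_right ?_ (by positivity)
    refine mul_le_mul_of_nonneg_right ?_ (by positivity)
    exact mul_le_mul hCb (Real.rpow_le_rpow_of_exponent_le hL hCb) (by positivity) (by linarith)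

end BARPub

end HexObs
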