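import Pool.Agent.BAR.Upper
import Pool.Agent.EXL.FinalPre
import Pool.Agent.EXL.GlFin
import Pool.Agent.Ex.P2Main

/-!
BAR: power form of the upper bound for all walks of given extent.
-/

set_option autoImplicit false

namespace HexObs

open Complex Finset ENNReal

namespace BAR

/-- the weights of the bridges and their sums have the exponents -1/4 and 3/4 -/
theorem UU_two : ∃ c C : ℝ, 0 < c ∧ 0 < C ∧ ∀ n : ℕ, 1 ≤ n →
    c * (n : ℝ) ^ (3 / 4 : ℝ) ≤ UU n ∧ UU n ≤ C * (n : ℝ) ^ (3 / 4 : ℝ) := by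
  obtain ⟨C, hC, h⟩ := Ex.P2.main (fun n => HexObs.bT_nonneg n) (fun _ _ h => Pool.Agent.EXL.bT_anti h)
    (fun _ => rfl) Pool.Agent.EXL.Glue.relE_bT
  have hCW := Num2Aux.CW_pos
  refine ⟨1 / C, (6 + CW) * C, by positivity, by positivity, fun n hn => ?_⟩
  have hn0 : (0 : ℝ) < n := by exact_mod_cast hn
  obtain ⟨h1, h2⟩ := h n hn
  have e : (n : ℝ) ^ (3 / 4 : ℝ) = n * (n : ℝ) ^ (-(1 / 4) : ℝ) := by
    nth_rewrite 2 [← Real.rpow_one (n : ℝ)]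
    rw [← Real.rpow_add hn0]
    norm_num
  have e1 : HexObs.bT n = uu n := rfl
  rw [e1] at h1 h2
  rw [e]
  constructor
  · calc 1 / C * (n * (n : ℝ) ^ (-(1 / 4) : ℝ)) = n * ((n : ℝ) ^ (-(1 / 4) : ℝ) / C) := by ring
      _ ≤ n * uu n := mul_le_mul_of_nonneg_left h1 hn0.le
      _ ≤ UU n := Num2Aux.mul_le_UU n
  · calc UU n ≤ (6 + CW) * (n * uu n) := UU_le_mul hn
      _ ≤ (6 + CW) * (n * (C * (n : ℝ) ^ (-(1 / 4) : ℝ))) :=
          mul_le_mul_of_nonneg_left (mul_le_mul_of_nonneg_left h2 hn0.le) (by linarith)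
      _ = _ := by ring

/-- the dyadic sum for a power -/
theorem SH_pow {a A : ℝ} (ha : 3 / 4 ≤ a) (hA : 0 ≤ A)
    (h : ∀ n : ℕ, 1 ≤ n → HH n ≤ ENNReal.ofReal (A * (n : ℝ) ^ a)) :
    ∃ C : ℝ, 0 ≤ C ∧ ∀ m : ℕ, 1 ≤ m → SH m ≤ ENNReal.ofReal (C * (lg m * (m : ℝ) ^ (a - 3 / 4))) := by
  obtain ⟨c, _, hc, _, hU⟩ := UU_two
  refine ⟨A * 4 ^ a / c, by positivity, fun m hm => ?_⟩
  have hm0 : (0 : ℝ) < m := by exact_mod_cast hm
  have hterm : ∀ k ∈ Finset.range (Nat.log 2 m + 1), HH (4 * 2 ^ k) * ENNReal.ofReal (1 / UU (2 ^ k)) ≤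
      ENNReal.ofReal (A * 4 ^ a / c * (m : ℝ) ^ (a - 3 / 4)) := by
    intro k hk
    rw [Finset.mem_range] at hk
    have hkm : 2 ^ k ≤ m := (Nat.pow_le_pow_right (by norm_num) (by omega)).trans (Nat.pow_log_le_self 2 (by omega))
    have h1 := h (4 * 2 ^ k) (by have := Nat.one_le_two_pow (n := k); omega)
    have h2 := (hU (2 ^ k) Nat.one_le_two_pow).1
    have hp0 : (0 : ℝ) < ((2 ^ k : ℕ) : ℝ) := by exact_mod_cast Nat.one_le_two_pow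
    have hp1 : 0 < ((2 ^ k : ℕ) : ℝ) ^ (3 / 4 : ℝ) := Real.rpow_pos_of_pos hp0 _
    refine (mul_le_mul' h1 le_rfl).trans ?_
    rw [← ENNReal.ofReal_mul (by positivity)]
    apply ENNReal.ofReal_le_ofReal
    have h3 : 1 / UU (2 ^ k) ≤ 1 / (c * ((2 ^ k : ℕ) : ℝ) ^ (3 / 4 : ℝ)) :=
      one_div_le_one_div_of_le (by positivity) h2
    have e1 : ((4 * 2 ^ k : ℕ) : ℝ) ^ a = 4 ^ a * ((2 ^ k : ℕ) : ℝ) ^ a := by
      rw [Nat.cast_mul, Real.mul_rpow (by norm_num) hp0.le]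
      norm_num
    have e2 : ((2 ^ k : ℕ) : ℝ) ^ a = ((2 ^ k : ℕ) : ℝ) ^ (a - 3 / 4) * ((2 ^ k : ℕ) : ℝ) ^ (3 / 4 : ℝ) := by
      rw [← Real.rpow_add hp0]
      congr 1
      ring
    have h4 : ((2 ^ k : ℕ) : ℝ) ^ (a - 3 / 4) ≤ (m : ℝ) ^ (a - 3 / 4) :=
      Real.rpow_le_rpow hp0.le (by exact_mod_cast hkm) (by linarith)
    calc A * ((4 * 2 ^ k : ℕ) : ℝ) ^ a * (1 / UU (2 ^ k))
        ≤ A * ((4 * 2 ^ k : ℕ) : ℝ) ^ a * (1 / (c * ((2 ^ k : ℕ) : ℝ) ^ (3 / 4 : ℝ))) :=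
          mul_le_mul_of_nonneg_left h3 (by positivity)
      _ = A * 4 ^ a / c * ((2 ^ k : ℕ) : ℝ) ^ (a - 3 / 4) := by
          rw [e1, e2]
          field_simp
      _ ≤ _ := mul_le_mul_of_nonneg_left h4 (by positivity)
  unfold SH
  refine (Finset.sum_le_sum hterm).trans ?_
  rw [Finset.sum_const, Finset.card_range, nsmul_eq_mul, ← ENNReal.ofReal_natCast,
    ← ENNReal.ofReal_mul (Nat.cast_nonneg _)]
  apply ENNReal.ofReal_le_ofReal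
  unfold lg
  push_cast
  apply le_of_eq
  ring

/-- if the half plane walks of height n weigh at most A n ^ a, then all walks of extent m weigh at most
m ^ (2 a - 3 / 4) up to a power of the logarithm -/
theorem Chi_pow {a A : ℝ} (ha : 3 / 4 ≤ a) (hA : 0 ≤ A)
    (h : ∀ n : ℕ, 1 ≤ n → HH n ≤ ENNReal.ofReal (A * (n : ℝ) ^ a)) :
    ∃ C : ℝ, 0 ≤ C ∧ ∀ m : ℕ, 1 ≤ m → Chi m ≤ ENNReal.ofReal (C * lg (2 * m) ^ C * (m : ℝ) ^ (2 * a - 3 / 4)) := by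
  obtain ⟨C1, hC1, h1⟩ := Chi_upper
  obtain ⟨C2, hC2, h2⟩ := SH_pow ha hA h
  obtain ⟨C, hCdef⟩ : ∃ C : ℝ, C = max (C1 * (A * 4 ^ a) * C2) (C1 + 1) := ⟨_, rfl⟩
  have hCa : C1 * (A * 4 ^ a) * C2 ≤ C := by rw [hCdef]; exact le_max_left _ _
  have hCb : C1 + 1 ≤ C := by rw [hCdef]; exact le_max_right _ _
  refine ⟨C, by linarith, fun m hm => ?_⟩
  have hm0 : (0 : ℝ) < m := by exact_mod_cast hm
  obtain ⟨L, hL⟩ : ∃ L : ℝ, L = lg (2 * m) := ⟨_, rfl⟩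
  have hL1 : 1 ≤ L := by rw [hL]; exact lg_one _
  have hL0 : 0 < L := by linarith
  have hlm : lg m ≤ L := by rw [hL]; exact lg_mono (by omega)
  have h0 := h1 m hm
  rw [← hL] at h0 ⊢
  have h3 := h (4 * m) (by omega)
  have h4 : SH m ≤ ENNReal.ofReal (C2 * (L * (m : ℝ) ^ (a - 3 / 4))) := by
    refine (h2 m hm).trans (ENNReal.ofReal_le_ofReal ?_)
    refine mul_le_mul_of_nonneg_left ?_ hC2
    exact mul_le_mul_of_nonneg_right hlm (by positivity)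
  refine h0.trans ((mul_le_mul' le_rfl (mul_le_mul' h3 h4)).trans ?_)
  rw [← ENNReal.ofReal_mul (by positivity), ← ENNReal.ofReal_mul (by positivity)]
  apply ENNReal.ofReal_le_ofReal
  have e1 : ((4 * m : ℕ) : ℝ) ^ a = 4 ^ a * (m : ℝ) ^ a := by
    rw [Nat.cast_mul, Real.mul_rpow (by norm_num) hm0.le]
    norm_num
  have e2 : (m : ℝ) ^ a * (m : ℝ) ^ (a - 3 / 4) = (m : ℝ) ^ (2 * a - 3 / 4) := by
    rw [← Real.rpow_add hm0]
    congr 1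
    ring
  have e3 : L ^ C1 * L = L ^ (C1 + 1) := by
    rw [Real.rpow_add hL0, Real.rpow_one]
  calc C1 * L ^ C1 * (A * ((4 * m : ℕ) : ℝ) ^ a * (C2 * (L * (m : ℝ) ^ (a - 3 / 4))))
      = (C1 * (A * 4 ^ a) * C2) * (L ^ C1 * L) * ((m : ℝ) ^ a * (m : ℝ) ^ (a - 3 / 4)) := by
        rw [e1]
        ring
    _ = (C1 * (A * 4 ^ a) * C2) * L ^ (C1 + 1) * (m : ℝ) ^ (2 * a - 3 / 4) := by rw [e2, e3]
    _ ≤ C * L ^ C * (m : ℝ) ^ (2 * a - 3 / 4) := by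
        refine mul_le_mul_of_nonneg_right ?_ (by positivity)
        exact mul_le_mul hCa (Real.rpow_le_rpow_of_exponent_le hL1 hCb) (by positivity) (by linarith)

end BAR

end HexObs
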