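import Pool.Agent.BAR.Yd

/-!
BAR: weight of a bridge with the walks that hang at its end.
-/

set_option autoImplicit false

namespace HexObs

open Complex Finset ENNReal

namespace BAR

lemma SSt_not {T : ℕ} {t : List Bool} (h : t ∈ SSt T) : t.map not ∈ SSt T := by
  have h1 : ∀ i, i ≤ t.length + 1 → lev (t.map not) i = lev t i := fun i hi => lev_not t hi
  refine ⟨fun i hi1 hi2 => ?_, fun i k hik hk heq => ?_⟩
  · rw [List.length_map] at hi2
    rw [mem_St, h1 i (by omega)]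
    exact mem_St.1 (h.mem i hi1 hi2)
  · rw [List.length_map] at hk
    have hup : mulE (-1, 1) (conjE up) = up := by decide
    have e1 := vx_refl (-1, 1) oo oo up t (i := i) (by omega)
    have e2 := vx_refl (-1, 1) oo oo up t (i := k) (by omega)
    rw [hup, refl_form] at e1 e2
    rw [e1, e2] at heq
    apply h.inj i k hik hk
    have a1 := congrArg Prod.fst heq
    have a2 := congrArg Prod.snd heq
    simp only [Prod.fst_add, Prod.snd_add, Prod.fst_sub, Prod.snd_sub] at a1 a2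
    apply Prod.ext
    · linarith
    · linarith

lemma wE_not (t : List Bool) : wE (t.map not) = wE t := by
  unfold wE
  rw [List.length_map]

lemma map_not_inj : Function.Injective (List.map not) := List.map_injective_iff.2 (fun a b h => by
  cases a <;> cases b <;> simp_all)

lemma g2_mirror {A B A' B' : Set (List Bool)} (hA : ∀ s ∈ A, s.map not ∈ A') (hB : ∀ t ∈ B, t.map not ∈ B') :
    g2 A B Dj ≤ g2 B' A' Dj := by
  unfold g2
  let φ : {p : List Bool × List Bool | p.1 ∈ A ∧ p.2 ∈ B ∧ Dj p.1 p.2} →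
      {p : List Bool × List Bool | p.1 ∈ B' ∧ p.2 ∈ A' ∧ Dj p.1 p.2} :=
    fun p => ⟨(p.1.2.map not, p.1.1.map not), hB _ p.2.2.1, hA _ p.2.1, Dj_not p.2.2.2⟩
  have hφ : Function.Injective φ := by
    intro p q hpq
    have h1 : (p.1.2.map not, p.1.1.map not) = (q.1.2.map not, q.1.1.map not) := congrArg Subtype.val hpq
    rw [Prod.mk.injEq] at h1
    exact Subtype.ext (Prod.ext (map_not_inj h1.2) (map_not_inj h1.1))
  refine le_trans (le_of_eq ?_) (ENNReal.tsum_comp_le_tsum_of_injective hφ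
    (fun p : {p : List Bool × List Bool | p.1 ∈ B' ∧ p.2 ∈ A' ∧ Dj p.1 p.2} => wE p.1.1 * wE p.1.2))
  refine tsum_congr fun p => ?_
  show wE p.1.1 * wE p.1.2 = wE (p.1.2.map not) * wE (p.1.1.map not)
  rw [wE_not, wE_not, mul_comm]

lemma g2_Brd_SSt (d u : ℕ) : g2 (Brd u) (SSt d) Dj ≤ g2 (SSt d) (Brd u) Dj :=
  g2_mirror (fun _ h => Brd_not h) fun _ h => SSt_not h

lemma SSt_step {T : ℕ} {b : Bool} {w : List Bool} (h : w ∈ SSt T) : (!b) :: b :: w ∈ SSt (T + 1) := by
  have h1 := SSt_cat (step_mem_Brd b) h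
  rw [Nat.add_comm T 1]
  exact h1

lemma step_gf (T : ℕ) (b : Bool) (Q : List Bool → Prop) :
    gf {w | w ∈ SSt T ∧ Q ((!b) :: b :: w)} ≤ 4 * gf {w | w ∈ SSt (T + 1) ∧ Q w} := by
  have h1 : ∀ w ∈ {w | w ∈ SSt T ∧ Q ((!b) :: b :: w)}, (!b) :: b :: w ∈ {w | w ∈ SSt (T + 1) ∧ Q w} :=
    fun w hw => ⟨SSt_step hw.1, hw.2⟩
  refine gf_le_of_inj (fun w => (!b) :: b :: w) h1 ?_ 4 fun w _ => ChainIaux.wE_step b w
  intro a _ c _ h
  simpa using h

lemma sum_rev (u : ℕ) (f : List Bool → ℝ≥0∞) :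
    ∑' t : {t : List Bool // t ∈ Brd u}, wE t.1 * f (rev t.1) = ∑' t : {t : List Bool // t ∈ Brd u}, wE t.1 * f t.1 := by
  rw [← (ChainSaux.revE u).tsum_eq (fun s : {s : List Bool // s ∈ Brd u} => wE s.1 * f s.1)]
  refine tsum_congr fun g => ?_
  show _ = wE (rev g.1) * _
  rw [wE_rev]
  rfl

/-- the walks that hang at the end of a bridge -/
lemma WB_GH (T u : ℕ) : ∑' t : {t : List Bool // t ∈ Brd u}, wE t.1 * GH T t.1 ≤ 8 * g2 (SSt (T + 1)) (Brd u) Dj := by
  have h1 : ∀ t : List Bool, GH T t ≤ 4 * gf {w | w ∈ SSt (T + 1) ∧ Dj w (rev t)} +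
      4 * gf {w | w ∈ SSt (T + 1) ∧ Dj (rev t) w} := by
    intro t
    unfold GH
    exact add_le_add (step_gf T true fun w => Dj w (rev t)) (step_gf T false fun w => Dj (rev t) w)
  calc ∑' t : {t : List Bool // t ∈ Brd u}, wE t.1 * GH T t.1
      ≤ ∑' t : {t : List Bool // t ∈ Brd u}, (4 * (wE t.1 * gf {w | w ∈ SSt (T + 1) ∧ Dj w (rev t.1)}) +
        4 * (wE t.1 * gf {w | w ∈ SSt (T + 1) ∧ Dj (rev t.1) w})) := by
        refine ENNReal.tsum_le_tsum fun t => (mul_le_mul' le_rfl (h1 t.1)).trans (le_of_eq ?_)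
        ring
    _ = 4 * g2 (SSt (T + 1)) (Brd u) Dj + 4 * g2 (Brd u) (SSt (T + 1)) Dj := by
        rw [ENNReal.tsum_add, ENNReal.tsum_mul_left, ENNReal.tsum_mul_left, g2_right, g2_left,
          sum_rev u fun x => gf {w | w ∈ SSt (T + 1) ∧ Dj w x}, sum_rev u fun x => gf {w | w ∈ SSt (T + 1) ∧ Dj x w}]
    _ ≤ 4 * g2 (SSt (T + 1)) (Brd u) Dj + 4 * g2 (SSt (T + 1)) (Brd u) Dj :=
        add_le_add le_rfl (mul_le_mul' le_rfl (g2_Brd_SSt _ _))
    _ = 8 * g2 (SSt (T + 1)) (Brd u) Dj := by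
        rw [← add_mul]
        norm_num

/-- a bridge of height u with the walks of height less than T that hang at its end -/
theorem WB_le : ∃ C : ℝ, 1 ≤ C ∧ ∀ T u : ℕ, u ≤ T →
    WB (Gh T) u ≤ ENNReal.ofReal (C * lg u ^ C * (uu u / UU u)) * HH (2 * T) := by
  obtain ⟨C, hC, h⟩ := Yd_le
  have hU : ∀ n, 0 < UU n := Num2Aux.UU_pos
  refine ⟨8 * C + 1, by linarith, ?_⟩
  intro T u hu
  have hlg := lg_one u
  have hl0 : 0 < lg u := by linarith
  have hr := uu_div_nonneg u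
  have h1 : BT u ≤ ENNReal.ofReal (uu u / UU u) * HH (2 * T) := by
    have h2 : ENNReal.ofReal (UU u) ≤ HH (2 * T) := (UU_le_HH u).trans (HH_mono (by omega))
    calc BT u = ENNReal.ofReal (uu u / UU u) * ENNReal.ofReal (UU u) := by
          rw [← ENNReal.ofReal_mul hr, div_mul_cancel₀ _ (hU u).ne']
          exact CuLogAux.bt_eq u
      _ ≤ _ := mul_le_mul' le_rfl h2
  have hpow : (1 : ℝ) ≤ lg u ^ (8 * C + 1) := Real.one_le_rpow hlg (by linarith)
  rcases Nat.eq_zero_or_pos T with rfl | hT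
  · have e : WB (Gh 0) u = BT u := by
      rw [← gf_Brd]
      unfold WB gf Gh
      refine tsum_congr fun t => ?_
      simp
    rw [e]
    refine h1.trans (mul_le_mul' (ENNReal.ofReal_le_ofReal ?_) le_rfl)
    have : (1 : ℝ) ≤ (8 * C + 1) * lg u ^ (8 * C + 1) := by nlinarith
    nlinarith
  · have e : WB (Gh T) u = BT u + ∑' t : {t : List Bool // t ∈ Brd u}, wE t.1 * GH (T - 1) t.1 := by
      rw [← gf_Brd]
      have hT0 : T ≠ 0 := by omega
      have e1 : ∀ t : List Bool, Gh T t = 1 + GH (T - 1) t := fun t => by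
        unfold Gh
        rw [if_neg hT0]
      unfold WB gf
      simp only [e1, mul_add, mul_one]
      rw [ENNReal.tsum_add]
    rw [e]
    have h2 := WB_GH (T - 1) u
    rw [show T - 1 + 1 = T by omega] at h2
    refine (add_le_add h1 (h2.trans (mul_le_mul' le_rfl (h T u hu)))).trans ?_
    have h3 : (8 : ℝ≥0∞) = ENNReal.ofReal 8 := by norm_num
    rw [← mul_assoc, h3, ← ENNReal.ofReal_mul (by norm_num), ← add_mul, ← ENNReal.ofReal_add hr (by positivity)]
    refine mul_le_mul' (ENNReal.ofReal_le_ofReal ?_) le_rfl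
    have h4 : lg u ^ C ≤ lg u ^ (8 * C + 1) := Real.rpow_le_rpow_of_exponent_le hlg (by linarith)
    have h5 : 8 * (C * lg u ^ C) ≤ 8 * C * lg u ^ (8 * C + 1) := by nlinarith
    calc uu u / UU u + 8 * (C * lg u ^ C * (uu u / UU u)) = (1 + 8 * (C * lg u ^ C)) * (uu u / UU u) := by ring
      _ ≤ ((8 * C + 1) * lg u ^ (8 * C + 1)) * (uu u / UU u) := by
          refine mul_le_mul_of_nonneg_right ?_ hr
          nlinarith
      _ = _ := by ring

end BAR

end HexObs
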