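import Pool.Agent.BAR.Cum
import Pool.Agent.BAR.Power
import Pool.Agent.BAR1.Main

/-!
BAR, glue: from the growth of HH to the cumulative sums of a_k mu ^ (-k), in all directions, and the passage to the
statement in brick wall coordinates.
-/

set_option autoImplicit false

namespace HexObs

namespace BAR

open SDN T2 Filter

open scoped ENNReal Topology

/-- growth of HH from above with exponent h -/
def HUp (h : ℝ) : Prop := ∀ ε : ℝ, 0 < ε → ∃ A : ℝ, ∀ n : ℕ, 1 ≤ n → HH n ≤ ENNReal.ofReal (A * (n : ℝ) ^ (h + ε))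

/-- growth of HH from below with exponent h -/
def HLow (h : ℝ) : Prop :=
  ∀ ε : ℝ, 0 < ε → ∃ c : ℝ, 0 < c ∧ ∀ n : ℕ, 1 ≤ n → ENNReal.ofReal (c * (n : ℝ) ^ (h - ε)) ≤ HH n

/-- powers of the logarithm against small powers -/
lemma lg_pow {C ε : ℝ} (hC : 0 ≤ C) (hε : 0 < ε) : ∃ K : ℝ, 0 < K ∧ ∀ m : ℕ, 1 ≤ m → lg (2 * m) ^ C ≤ K * (m : ℝ) ^ ε := by
  rcases eq_or_lt_of_le hC with h0 | h0
  · refine ⟨1, one_pos, fun m hm => ?_⟩
    have hmR : (1 : ℝ) ≤ m := by exact_mod_cast hm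
    rw [← h0, Real.rpow_zero, one_mul]
    exact Real.one_le_rpow hmR hε.le
  · -- 2 + log m / log 2 ≤ K0 m ^ (ε / C)
    have hl2 : 0 < Real.log 2 := Real.log_pos (by norm_num)
    obtain ⟨s, hs⟩ : ∃ s, s = ε / C := ⟨_, rfl⟩
    have hs0 : 0 < s := by rw [hs]; positivity
    obtain ⟨K, hK⟩ : ∃ K, K = 2 + 1 / (s * Real.log 2) := ⟨_, rfl⟩
    have hK0 : 0 < K := by rw [hK]; positivity
    refine ⟨K ^ C, by positivity, fun m hm => ?_⟩
    have hmR : (1 : ℝ) ≤ m := by exact_mod_cast hm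
    have hm0 : (0 : ℝ) < m := by linarith
    have h1 : lg (2 * m) ≤ 2 + Real.log m / Real.log 2 := by
      unfold lg
      have h2 : (Nat.log 2 (2 * m) : ℝ) ≤ Real.logb 2 ((2 * m : ℕ) : ℝ) := Real.natLog_le_logb _ _
      have h3 : Real.logb 2 ((2 * m : ℕ) : ℝ) = 1 + Real.log m / Real.log 2 := by
        unfold Real.logb
        push_cast
        rw [Real.log_mul (by norm_num) hm0.ne', add_div, div_self hl2.ne']
      rw [h3] at h2
      linarith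
    have h4 : Real.log m ≤ (m : ℝ) ^ s / s := Real.log_le_rpow_div hm0.le hs0
    have h5 : 1 ≤ (m : ℝ) ^ s := Real.one_le_rpow hmR hs0.le
    have h6 : lg (2 * m) ≤ K * (m : ℝ) ^ s := by
      refine h1.trans ?_
      have h7 : Real.log m / Real.log 2 ≤ (m : ℝ) ^ s / s / Real.log 2 := by gcongr
      rw [hK]
      have h8 : (2 + 1 / (s * Real.log 2)) * (m : ℝ) ^ s = 2 * (m : ℝ) ^ s + (m : ℝ) ^ s / s / Real.log 2 := by
        field_simp
      rw [h8]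
      linarith
    have h9 : 0 ≤ lg (2 * m) := by linarith [lg_one (2 * m)]
    calc lg (2 * m) ^ C ≤ (K * (m : ℝ) ^ s) ^ C := Real.rpow_le_rpow h9 h6 hC
      _ = K ^ C * (m : ℝ) ^ ε := by
        rw [Real.mul_rpow hK0.le (by positivity), ← Real.rpow_mul hm0.le, hs, div_mul_cancel₀ _ h0.ne']

/-- HH m ≤ m ^ (h + o(1)): Chi m ≤ m ^ (2 h - 3 / 4 + o(1)) -/
theorem chi_up_of_HH {h : ℝ} (hh : 3 / 4 ≤ h) (H : HUp h) : ∀ ε : ℝ, 0 < ε → ∃ C : ℝ, ∀ m : ℕ, 1 ≤ m →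
    Chi m ≤ ENNReal.ofReal (C * (m : ℝ) ^ (2 * h - 3 / 4 + ε)) := by
  intro ε hε
  obtain ⟨A, hA⟩ := H (ε / 4) (by positivity)
  have hA' : ∀ n : ℕ, 1 ≤ n → HH n ≤ ENNReal.ofReal (|A| * (n : ℝ) ^ (h + ε / 4)) := by
    intro n hn
    refine (hA n hn).trans (ENNReal.ofReal_le_ofReal ?_)
    exact mul_le_mul_of_nonneg_right (le_abs_self A) (by positivity)
  obtain ⟨C, hC, h1⟩ := Chi_pow (a := h + ε / 4) (by linarith) (abs_nonneg A) hA'
  obtain ⟨K, hK, h2⟩ := lg_pow hC (by positivity : 0 < ε / 2)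
  refine ⟨C * K, fun m hm => (h1 m hm).trans (ENNReal.ofReal_le_ofReal ?_)⟩
  have hmR : (1 : ℝ) ≤ m := by exact_mod_cast hm
  have hm0 : (0 : ℝ) < m := by linarith
  calc C * lg (2 * m) ^ C * (m : ℝ) ^ (2 * (h + ε / 4) - 3 / 4) ≤
      C * (K * (m : ℝ) ^ (ε / 2)) * (m : ℝ) ^ (2 * (h + ε / 4) - 3 / 4) := by
        have := h2 m hm
        gcongr
    _ = C * K * ((m : ℝ) ^ (ε / 2) * (m : ℝ) ^ (2 * (h + ε / 4) - 3 / 4)) := by ring
    _ = C * K * (m : ℝ) ^ (2 * h - 3 / 4 + ε) := by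
        rw [← Real.rpow_add hm0]
        congr 2
        ring

/-- HH m ≥ m ^ (h - o(1)): Chi m ≥ m ^ (2 h - 3 / 4 - o(1)) -/
theorem chi_low_of_HH {h : ℝ} (hh : 3 / 4 < h) (H : HLow h) : ∀ ε : ℝ, 0 < ε → ∃ c : ℝ, 0 < c ∧ ∀ m : ℕ, 1 ≤ m →
    ENNReal.ofReal (c * (m : ℝ) ^ (2 * h - 3 / 4 - ε)) ≤ Chi m := by
  intro ε0 hε0
  -- a small ε with a nonnegative exponent
  obtain ⟨ε, hε, hεε, hεh⟩ : ∃ ε : ℝ, 0 < ε ∧ ε ≤ ε0 ∧ 0 ≤ 2 * h - 3 / 4 - ε :=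
    ⟨min ε0 (3 / 4), lt_min hε0 (by norm_num), min_le_left _ _, by
      have := min_le_right ε0 (3 / 4)
      linarith⟩
  obtain ⟨c, hc, h1⟩ := H (ε / 2) (by positivity)
  obtain ⟨C, hC, h2⟩ := HH_sq_le
  -- Chi (2 k + 1) for k ≥ 1
  have h3 : ∀ k : ℕ, 1 ≤ k → ENNReal.ofReal (c ^ 2 / (2 * C) * (k : ℝ) ^ (2 * h - 3 / 4 - ε)) ≤ Chi (2 * k + 1) := by
    intro k hk
    have hkR : (1 : ℝ) ≤ k := by exact_mod_cast hk
    have hk0 : (0 : ℝ) < k := by linarith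
    have h4 := h2 k
    have h5 : ENNReal.ofReal (c * (k : ℝ) ^ (h - ε / 2)) ^ 2 ≤ HH k ^ 2 := pow_le_pow_left' (h1 k hk) 2
    have h6 := h5.trans h4
    have h7 : ((k : ℝ) + 1) ^ (3 / 4 : ℝ) ≤ 2 * (k : ℝ) ^ (3 / 4 : ℝ) := by
      calc ((k : ℝ) + 1) ^ (3 / 4 : ℝ) ≤ (2 * k) ^ (3 / 4 : ℝ) := Real.rpow_le_rpow (by positivity) (by linarith) (by norm_num)
        _ = 2 ^ (3 / 4 : ℝ) * (k : ℝ) ^ (3 / 4 : ℝ) := Real.mul_rpow (by norm_num) hk0.le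
        _ ≤ 2 ^ (1 : ℝ) * (k : ℝ) ^ (3 / 4 : ℝ) := by
            gcongr
            · norm_num
            · norm_num
        _ = 2 * (k : ℝ) ^ (3 / 4 : ℝ) := by rw [Real.rpow_one]
    obtain ⟨D, hD⟩ : ∃ D, D = 2 * C * (k : ℝ) ^ (3 / 4 : ℝ) := ⟨_, rfl⟩
    have hD0 : 0 < D := by rw [hD]; positivity
    have h8 : ENNReal.ofReal (c * (k : ℝ) ^ (h - ε / 2)) ^ 2 ≤ ENNReal.ofReal D * Chi (2 * k + 1) := by
      refine h6.trans (mul_le_mul_left (ENNReal.ofReal_le_ofReal ?_) _)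
      rw [hD]
      nlinarith
    have h9 : ENNReal.ofReal (c ^ 2 / (2 * C) * (k : ℝ) ^ (2 * h - 3 / 4 - ε)) =
        ENNReal.ofReal D⁻¹ * ENNReal.ofReal (c * (k : ℝ) ^ (h - ε / 2)) ^ 2 := by
      rw [← ENNReal.ofReal_pow (by positivity), ← ENNReal.ofReal_mul (by positivity)]
      congr 1
      have e1 : ((k : ℝ) ^ (h - ε / 2)) ^ 2 = (k : ℝ) ^ (2 * h - 3 / 4 - ε) * (k : ℝ) ^ (3 / 4 : ℝ) := by
        rw [sq, ← Real.rpow_add hk0, ← Real.rpow_add hk0]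
        congr 1
        ring
      have hk34 : 0 < (k : ℝ) ^ (3 / 4 : ℝ) := by positivity
      rw [mul_pow, e1, hD]
      field_simp
    rw [h9]
    calc ENNReal.ofReal D⁻¹ * ENNReal.ofReal (c * (k : ℝ) ^ (h - ε / 2)) ^ 2 ≤
        ENNReal.ofReal D⁻¹ * (ENNReal.ofReal D * Chi (2 * k + 1)) := mul_le_mul_right h8 _
      _ = Chi (2 * k + 1) := by
        rw [← mul_assoc, ← ENNReal.ofReal_mul (by positivity), inv_mul_cancel₀ hD0.ne', ENNReal.ofReal_one, one_mul]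
  have hmono : ∀ {m m' : ℕ}, m ≤ m' → Chi m ≤ Chi m' := by
    intro m m' hmm
    refine gf_mono ?_
    rintro t ⟨h4, c, h5⟩
    refine ⟨h4, c, fun i hi1 hi2 => ?_⟩
    have h6 := h5 i hi1 hi2
    have h7 : (m : ℤ) ≤ m' := by exact_mod_cast hmm
    exact ⟨h6.1, by linarith [h6.2]⟩
  have hchi1 : ∀ m : ℕ, 1 ≤ Chi m := by
    intro m
    have h4 : (({([] : List Bool)} : Finset (List Bool)) : Set (List Bool)) ⊆
        {t | Saw Set.univ oo up t ∧ Ext m t} := by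
      intro t ht
      rw [Finset.mem_coe, Finset.mem_singleton] at ht
      subst ht
      refine ⟨⟨fun _ _ _ => Set.mem_univ _, fun i k hik hk => ?_⟩, 0, fun i hi1 hi2 => ?_⟩
      · simp only [List.length_nil] at hk
        omega
      · simp only [List.length_nil] at hi2
        omega
    have h5 := gf_mono h4
    rwa [gf_finset, Finset.sum_singleton, List.length_nil, pow_zero, ENNReal.ofReal_one] at h5
  obtain ⟨g, hg⟩ : ∃ g, g = 2 * h - 3 / 4 - ε := ⟨_, rfl⟩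
  rw [← hg] at h3
  have hg0 : 0 ≤ g := by rw [hg]; exact hεh
  refine ⟨min (c ^ 2 / (2 * C) * (1 / 4) ^ g) ((1 / 4) ^ g), by positivity, fun m hm => ?_⟩
  have hmR : (1 : ℝ) ≤ m := by exact_mod_cast hm
  have hm0 : (0 : ℝ) < m := by linarith
  have hexp : (m : ℝ) ^ (2 * h - 3 / 4 - ε0) ≤ (m : ℝ) ^ g := Real.rpow_le_rpow_of_exponent_le hmR (by
    rw [hg]
    linarith)
  rcases Nat.lt_or_ge m 3 with hm3 | hm3
  · refine le_trans ?_ (hchi1 m)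
    rw [← ENNReal.ofReal_one]
    apply ENNReal.ofReal_le_ofReal
    have h4 : (m : ℝ) ≤ 4 := by
      have : m ≤ 4 := by omega
      exact_mod_cast this
    calc min (c ^ 2 / (2 * C) * (1 / 4) ^ g) ((1 / 4) ^ g) * (m : ℝ) ^ (2 * h - 3 / 4 - ε0) ≤
        (1 / 4) ^ g * (4 : ℝ) ^ g := by
          apply mul_le_mul (min_le_right _ _) (hexp.trans (Real.rpow_le_rpow hm0.le h4 hg0)) (by positivity)
            (by positivity)
      _ = 1 := by
          rw [← Real.mul_rpow (by norm_num) (by norm_num)]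
          norm_num
  · obtain ⟨k, hk⟩ : ∃ k : ℕ, k = (m - 1) / 2 := ⟨_, rfl⟩
    have hk1 : 1 ≤ k := by omega
    have hk2 : 2 * k + 1 ≤ m := by omega
    have hk3 : m ≤ 4 * k := by omega
    refine le_trans ?_ ((h3 k hk1).trans (hmono hk2))
    apply ENNReal.ofReal_le_ofReal
    have h4 : (1 / 4 : ℝ) * m ≤ k := by
      have : (m : ℝ) ≤ 4 * k := by exact_mod_cast hk3
      linarith
    calc min (c ^ 2 / (2 * C) * (1 / 4) ^ g) ((1 / 4) ^ g) * (m : ℝ) ^ (2 * h - 3 / 4 - ε0) ≤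
        (c ^ 2 / (2 * C) * (1 / 4) ^ g) * (m : ℝ) ^ g := by
          apply mul_le_mul (min_le_left _ _) hexp (by positivity) (by positivity)
      _ = c ^ 2 / (2 * C) * (1 / 4 * (m : ℝ)) ^ g := by
          rw [Real.mul_rpow (by norm_num) hm0.le]
          ring
      _ ≤ c ^ 2 / (2 * C) * (k : ℝ) ^ g := by
          have := Real.rpow_le_rpow (by positivity) h4 hg0
          gcongr

/-- upper bound of the cumulative sums, all n -/
theorem cum_le_of_HH {h τ1 : ℝ} (hh : 3 / 4 ≤ h) (H : HUp h) (hτ1 : 0 < τ1) (hL : LongWalks τ1) {δ : ℝ}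
    (hδ : (2 * h - 3 / 4) / (1 + τ1) < δ) : ∃ C : ℝ, ∀ n : ℕ, 1 ≤ n → cum n ≤ C * (n : ℝ) ^ δ := by
  obtain ⟨C, hC⟩ := cum_upper (g := 2 * h - 3 / 4) (by linarith) hτ1 hL (chi_up_of_HH hh H) hδ
  have hδ0 : 0 ≤ δ := by
    have h1 : 0 < (2 * h - 3 / 4) / (1 + τ1) := div_pos (by linarith) (by linarith)
    linarith
  obtain ⟨n0, hn0⟩ := Filter.eventually_atTop.1 hC
  have hm : ∀ {n n' : ℕ}, n ≤ n' → cum n ≤ cum n' := by
    intro n n' hnn
    unfold cum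
    apply Finset.sum_le_sum_of_subset_of_nonneg
    · intro k hk
      rw [Finset.mem_range] at hk ⊢
      omega
    · intro k _ _
      have hx := xc_pos
      rw [muB_eq]
      positivity
  refine ⟨|C| + cum n0, fun n hn => ?_⟩
  have hnR : (1 : ℝ) ≤ n := by exact_mod_cast hn
  have h1 : 1 ≤ (n : ℝ) ^ δ := Real.one_le_rpow hnR hδ0
  have h2 := cum_ge_one n0
  rcases Nat.lt_or_ge n n0 with h3 | h3
  · have h4 := hm h3.le
    have h5 : 0 ≤ |C| * (n : ℝ) ^ δ := by positivity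
    nlinarith
  · have h4 := hn0 n h3
    have h5 : C * (n : ℝ) ^ δ ≤ |C| * (n : ℝ) ^ δ := mul_le_mul_of_nonneg_right (le_abs_self C) (by positivity)
    have h6 : 0 ≤ cum n0 * (n : ℝ) ^ δ := by positivity
    linarith

/-- lower bound of the cumulative sums, all n -/
theorem cum_ge_of_HH {h a : ℝ} (hh : 3 / 4 < h) (H : HLow h) (ha : 1 ≤ a)
    (hM : ∀ a' : ℝ, a < a' → ∃ C : ℝ, 0 ≤ C ∧ MeanLen a' C) {δ : ℝ}
    (hδ : δ < (2 * h - 3 / 4) / a) : ∃ c : ℝ, 0 < c ∧ ∀ n : ℕ, 1 ≤ n → c * (n : ℝ) ^ δ ≤ cum n := by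
  obtain ⟨c, hc, h1⟩ := cum_lower (g := 2 * h - 3 / 4) (by linarith) ha hM (chi_low_of_HH hh H) hδ
  obtain ⟨n0, hn0⟩ := Filter.eventually_atTop.1 h1
  obtain ⟨δ', hδ'⟩ : ∃ δ', δ' = max δ 0 := ⟨_, rfl⟩
  have hd0 : 0 ≤ δ' := by rw [hδ']; exact le_max_right _ _
  have hdd : δ ≤ δ' := by rw [hδ']; exact le_max_left _ _
  refine ⟨min c (((n0 : ℝ) + 1) ^ δ')⁻¹, by positivity, fun n hn => ?_⟩
  have hnR : (1 : ℝ) ≤ n := by exact_mod_cast hn
  rcases Nat.lt_or_ge n n0 with h3 | h3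
  · refine le_trans ?_ (cum_ge_one n)
    have h4 : (n : ℝ) ^ δ ≤ ((n0 : ℝ) + 1) ^ δ' := by
      refine (Real.rpow_le_rpow_of_exponent_le hnR hdd).trans ?_
      apply Real.rpow_le_rpow (by linarith) _ hd0
      have : (n : ℝ) ≤ n0 := by exact_mod_cast h3.le
      linarith
    have hp : 0 < ((n0 : ℝ) + 1) ^ δ' := by positivity
    calc min c (((n0 : ℝ) + 1) ^ δ')⁻¹ * (n : ℝ) ^ δ ≤ (((n0 : ℝ) + 1) ^ δ')⁻¹ * ((n0 : ℝ) + 1) ^ δ' :=
          mul_le_mul (min_le_right _ _) h4 (by positivity) (by positivity)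
      _ = 1 := inv_mul_cancel₀ hp.ne'
  · exact (mul_le_mul_of_nonneg_right (min_le_left _ _) (by positivity)).trans (hn0 n h3)

/-- the limit of the logarithms -/
theorem cum_limit_of_HH {h a : ℝ} (hh : 3 / 4 < h) (H1 : HUp h) (H2 : HLow h) (ha : 1 < a)
    (hM : ∀ a' : ℝ, a < a' → ∃ C : ℝ, 0 ≤ C ∧ MeanLen a' C) (hL : LongWalks (a - 1)) :
    Tendsto (fun n : ℕ => Real.log (cum n) / Real.log n) atTop (𝓝 ((2 * h - 3 / 4) / a)) :=
  cum_limit (by linarith) ha hM hL (chi_low_of_HH hh H2) (chi_up_of_HH hh.le H1)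

/-- from aB, muB to the statement of the problem (brick wall coordinates) -/
theorem to_public {P : (ℕ → ℕ) → ℝ → Prop} (h : P aB muB) :
    ∀ Adj : ℤ × ℤ → ℤ × ℤ → Prop,
      Adj = (fun p q : ℤ × ℤ =>
          q - p = (1, 0) ∨ q - p = (-1, 0) ∨
          (q - p = (0, 1) ∧ Even (p.1 + p.2)) ∨
          (q - p = (0, -1) ∧ Even (q.1 + q.2))) →
      ∀ a : ℕ → ℕ,
        (∀ n : ℕ, a n = Set.ncard {f : Fin (n + 1) → ℤ × ℤ |
            f 0 = 0 ∧ Function.Injective f ∧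
            ∀ i : Fin n, Adj (f i.castSucc) (f i.succ)}) →
        ∀ μ : ℝ,
          μ = (⨅ n : {n : ℕ // 1 ≤ n}, ((a n.1 : ℝ) ^ ((1 : ℝ) / (n.1 : ℝ)))) → P a μ := by
  intro Adj hAdj a ha μ hμ
  have h1 : a = aB := by
    funext n
    rw [ha n, hAdj]
    rfl
  have h2 : μ = muB := by
    rw [hμ, h1]
    rfl
  rw [h1, h2]
  exact h

end BAR

end HexObs
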