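import Pool.Agent.BAR.ColDefs
import Pool.Agent.BAR13.Cuts
import Pool.Agent.PHW.LowA

/-!
BAR, columns, part A: a half plane walk and the mirror image of a half plane walk joined through the vertical edge of the
start.
-/

set_option autoImplicit false

namespace HexObs

open Complex Finset ENNReal

namespace BAR

open BAR13 (IsCut cuts mem_cuts mem_SSt)

lemma mir_mir (p : Pt) : mir (mir p) = p := by
  unfold mir
  ext <;> simp

lemma mir_add (p q : Pt) : mir (p + q) = mir p + mir q := by
  unfold mir
  ext
  · rfl
  · simp only [Prod.fst_add, Prod.snd_add]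
    ring

lemma mir_fst (p : Pt) : (mir p).1 = p.1 := rfl

lemma ip_mir (p : Pt) : ip (mir p) up = -ip p up := by
  simp only [ip, mir, up]
  ring

lemma mir_turn (b : Bool) (d : Pt) : mir (turn b d) = turn (!b) (mir d) := by
  cases b <;> ext <;> simp [turn, rotL, rotR, mir] <;> ring

lemma turn_neg (b : Bool) (d : Pt) : turn b (-d) = -turn b d := by
  cases b <;> ext <;> simp [turn, rotL, rotR] <;> ring

lemma turn_turn (b : Bool) (d : Pt) : turn b (turn (!b) d) = d := by
  cases b <;> ext <;> simp [turn, rotL, rotR]

lemma mir_inj {p q : Pt} (h : mir p = mir q) : p = q := by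
  rw [← mir_mir p, h, mir_mir]

lemma mir_up : mir up = -up := by decide

lemma mir_mem : ∀ d ∈ dirs, mir d ∈ dirs := by decide

lemma neg_mir_mem : ∀ d ∈ dirs, -mir d ∈ dirs := by decide

/-- the joined word -/
def jw (s t : List Bool) : List Bool := s.reverse ++ t

lemma jw_length (s t : List Bool) : (jw s t).length = s.length + t.length := by
  unfold jw
  rw [List.length_append, List.length_reverse]

lemma tf_reverse {t : List Bool} {i : ℕ} (h : i < t.length) : tf t.reverse i = tf t (t.length - 1 - i) := by
  unfold tf
  rw [List.getD_eq_getElem _ _ (by rw [List.length_reverse]; exact h), List.getD_eq_getElem _ _ (by omega),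
    List.getElem_reverse]

lemma tf_jw_left {s t : List Bool} {i : ℕ} (h : i < s.length) : tf (jw s t) i = tf s (s.length - 1 - i) := by
  unfold jw
  rw [tf_append_left (by rw [List.length_reverse]; exact h), tf_reverse h]

lemma tf_jw_right (s t : List Bool) (i : ℕ) : tf (jw s t) (s.length + i) = tf t i := by
  unfold jw
  have := tf_append_right (t := s.reverse) (s := t) i
  rwa [List.length_reverse] at this

/-- first direction of the joined walk -/
lemma jw_dx_left (s t : List Bool) : ∀ i, i ≤ s.length →
    dx (-mir (dx up s s.length)) (jw s t) i = -mir (dx up s (s.length - i)) := by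
  intro i
  induction i with
  | zero => intro _; rfl
  | succ i ih =>
    intro hi
    rw [dx_succ, ih (by omega), tf_jw_left (by omega)]
    have e1 : s.length - i = (s.length - 1 - i) + 1 := by omega
    have e2 : s.length - (i + 1) = s.length - 1 - i := by omega
    rw [e1, dx_succ, mir_turn, turn_neg, turn_turn, e2]

lemma jw_dx_right (s t : List Bool) (i : ℕ) :
    dx (-mir (dx up s s.length)) (jw s t) (s.length + i) = dx up t i := by
  induction i with
  | zero =>
    rw [add_zero, jw_dx_left s t _ le_rfl, Nat.sub_self]
    show -mir up = up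
    decide
  | succ i ih =>
    rw [← add_assoc, dx_succ, ih, tf_jw_right, dx_succ]

/-- base point of the joined walk -/
def bs (s : List Bool) : Pt := mir (vx oo up s (s.length + 1)) + up

/-- the vertices of the first part -/
lemma jw_vx_left (s t : List Bool) : ∀ i, i ≤ s.length + 1 →
    bs s + vx oo (-mir (dx up s s.length)) (jw s t) i = mir (vx oo up s (s.length + 1 - i)) + up := by
  intro i
  induction i with
  | zero =>
    intro _
    show bs s + 0 = _
    rw [add_zero]
    rfl
  | succ i ih =>
    intro hi
    rw [vx_succ, ← add_assoc, ih (by omega), jw_dx_left s t i (by omega)]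
    have e1 : s.length + 1 - i = (s.length - i) + 1 := by omega
    have e2 : s.length + 1 - (i + 1) = s.length - i := by omega
    rw [e1, vx_succ, mir_add, e2]
    abel

lemma jw_vx_right (s t : List Bool) (i : ℕ) :
    bs s + vx oo (-mir (dx up s s.length)) (jw s t) (s.length + i) = vx oo up t i := by
  induction i with
  | zero =>
    rw [add_zero, jw_vx_left s t _ (by omega), show s.length + 1 - s.length = 1 by omega]
    have : vx oo up s 1 = up := by
      show oo + up = up
      exact zero_add up
    rw [this]
    show mir up + up = oo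
    decide
  | succ i ih =>
    rw [← add_assoc, vx_succ, ← add_assoc, ih, jw_dx_right, vx_succ]

lemma jw_lev_left (s t : List Bool) {i : ℕ} (hi : i ≤ s.length + 1) :
    ip (bs s) up + ip (vx oo (-mir (dx up s s.length)) (jw s t) i) up = 2 - lev s (s.length + 1 - i) := by
  rw [← ip_add_left, jw_vx_left s t i hi, ip_add_left, ip_mir, lowA_ipup]
  unfold lev
  ring

lemma jw_lev_right (s t : List Bool) (i : ℕ) :
    ip (bs s) up + ip (vx oo (-mir (dx up s s.length)) (jw s t) (s.length + i)) up = lev t i := by
  rw [← ip_add_left, jw_vx_right s t i]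
  rfl

/-- the word u crosses the level of its edge number j (upwards) only once -/
def IsMk' (D : Pt) (u : List Bool) (j : ℕ) : Prop := 1 ≤ j ∧ j ≤ u.length ∧ dx D u j = up ∧
  (∀ i, 1 ≤ i → i ≤ j → ip (vx oo D u i) up ≤ ip (vx oo D u j) up) ∧
  ∀ i, j < i → i ≤ u.length → ip (vx oo D u j) up < ip (vx oo D u i) up

open Classical in
/-- the cuts of a walk -/
noncomputable def mks' (D : Pt) (u : List Bool) : Finset ℕ := (range (u.length + 1)).filter (IsMk' D u)

lemma mem_mks' {D : Pt} {u : List Bool} {j : ℕ} : j ∈ mks' D u ↔ IsMk' D u j := by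
  classical
  unfold mks'
  rw [mem_filter, mem_range]
  exact ⟨fun h => h.2, fun h => ⟨by have := h.2.1; omega, h⟩⟩

lemma lev_ge_two' {t : List Bool} {i : ℕ} (h : 0 < lev t i) : 2 ≤ lev t i := by
  have := lev_mod t i
  split_ifs at this <;> omega

/-- half plane words of at most m rows whose tip is new and lies in the strip -/
def TN (m : ℕ) : Set (List Bool) := {w | w ++ [true] ∈ SSt m}

lemma mem_TN {m : ℕ} {w : List Bool} : w ∈ TN m ↔
    (∀ i, 1 ≤ i → i ≤ w.length + 1 → 0 < lev w i ∧ lev w i < 3 * m + 2) ∧
    ∀ i k, i < k → k ≤ w.length + 1 → vx oo up w i ≠ vx oo up w k := by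
  have hl : (w ++ [true]).length = w.length + 1 := by rw [List.length_append, List.length_singleton]
  have hv : ∀ i, i ≤ w.length + 1 → vx oo up (w ++ [true]) i = vx oo up w i := fun i hi => vx_append hi
  have hlv : ∀ i, i ≤ w.length + 1 → lev (w ++ [true]) i = lev w i := by
    intro i hi
    unfold lev
    rw [hv i hi]
  show w ++ [true] ∈ SSt m ↔ _
  rw [mem_SSt, hl]
  constructor
  · rintro ⟨h1, h2⟩
    refine ⟨fun i hi hi2 => ?_, fun i k hik hk => ?_⟩
    · have := h1 i hi hi2
      rwa [hlv i hi2] at this
    · have := h2 i k hik hk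
      rwa [hv i (by omega), hv k hk] at this
  · rintro ⟨h1, h2⟩
    refine ⟨fun i hi hi2 => ?_, fun i k hik hk => ?_⟩
    · rw [hlv i hi2]
      exact h1 i hi hi2
    · rw [hv i (by omega), hv k hk]
      exact h2 i k hik hk

lemma TN_SSt {m : ℕ} {w : List Bool} (h : w ∈ TN m) : w ∈ SSt m := by
  obtain ⟨h1, h2⟩ := mem_TN.1 h
  exact mem_SSt.2 ⟨fun i hi hi2 => h1 i hi (by omega), fun i k hik hk => h2 i k hik (by omega)⟩

/-- the vertices of the joined walk are distinct -/
theorem jw_inj {m m' : ℕ} {s t : List Bool} (hs : s ∈ TN m) (ht : t ∈ TN m') : ∀ i j, i < j →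
    j ≤ (jw s t).length + 1 →
    vx oo (-mir (dx up s s.length)) (jw s t) i ≠ vx oo (-mir (dx up s s.length)) (jw s t) j := by
  obtain ⟨a1, a2⟩ := mem_TN.1 hs
  obtain ⟨b1, b2⟩ := mem_TN.1 ht
  intro i j hij hj he
  rw [jw_length] at hj
  have he2 : bs s + vx oo (-mir (dx up s s.length)) (jw s t) i =
      bs s + vx oo (-mir (dx up s s.length)) (jw s t) j := by rw [he]
  rcases Nat.lt_or_ge s.length j with h | h
  · rcases Nat.lt_or_ge s.length i with h' | h'
    · obtain ⟨k, rfl⟩ := Nat.exists_eq_add_of_le h'.le
      obtain ⟨l, rfl⟩ := Nat.exists_eq_add_of_le h.le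
      rw [jw_vx_right, jw_vx_right] at he2
      exact b2 k l (by omega) (by omega) he2
    · obtain ⟨l, rfl⟩ := Nat.exists_eq_add_of_le h.le
      have e1 := jw_lev_left s t (i := i) (by omega)
      have e2 := jw_lev_right s t l
      rw [he] at e1
      have e3 := lev_ge_two' (a1 (s.length + 1 - i) (by omega) (by omega)).1
      have e4 := (b1 l (by omega) (by omega)).1
      omega
  · rw [jw_vx_left s t i (by omega), jw_vx_left s t j (by omega)] at he2
    exact a2 (s.length + 1 - j) (s.length + 1 - i) (by omega) (by omega) (mir_inj (add_right_cancel he2)).symm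

/-- the join is a cut -/
theorem jw_mark {m m' : ℕ} {s t : List Bool} (hs : s ∈ SSt m) (ht : t ∈ SSt m') (hl : 1 ≤ s.length) :
    IsMk' (-mir (dx up s s.length)) (jw s t) s.length := by
  obtain ⟨a1, -⟩ := mem_SSt.1 hs
  obtain ⟨b1, -⟩ := mem_SSt.1 ht
  have h0 := jw_lev_right s t 0
  rw [add_zero, lev_zero] at h0
  refine ⟨hl, by rw [jw_length]; omega, ?_, fun i h1 h2 => ?_, fun i h1 h2 => ?_⟩
  · have := jw_dx_right s t 0
    rw [add_zero] at this
    exact this
  · have e1 := jw_lev_left s t (i := i) (by omega)
    have e3 := lev_ge_two' (a1 (s.length + 1 - i) (by omega) (by omega)).1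
    omega
  · obtain ⟨l, rfl⟩ := Nat.exists_eq_add_of_le h1.le
    rw [jw_length] at h2
    have e2 := jw_lev_right s t l
    have e4 := (b1 l (by omega) (by omega)).1
    omega

/-- the number of cuts of the joined walk -/
theorem jw_marks {m m' : ℕ} {s t : List Bool} (hs : s ∈ SSt m) (ht : t ∈ SSt m') :
    (mks' (-mir (dx up s s.length)) (jw s t)).card ≤ (cuts s).card + (cuts t).card + 1 := by
  obtain ⟨a1, -⟩ := mem_SSt.1 hs
  obtain ⟨b1, -⟩ := mem_SSt.1 ht
  obtain ⟨n, hn⟩ : ∃ n, n = s.length := ⟨_, rfl⟩
  obtain ⟨D, hD⟩ : ∃ D, D = -mir (dx up s s.length) := ⟨_, rfl⟩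
  have hL1 : ∀ i, i ≤ n + 1 → ip (bs s) up + ip (vx oo D (jw s t) i) up = 2 - lev s (n + 1 - i) :=
    fun i hi => by rw [hn, hD]; exact jw_lev_left s t (by omega)
  have hL2 : ∀ i, ip (bs s) up + ip (vx oo D (jw s t) (n + i)) up = lev t i :=
    fun i => by rw [hn, hD]; exact jw_lev_right s t i
  have hD1 : ∀ i, i ≤ n → dx D (jw s t) i = -mir (dx up s (n - i)) :=
    fun i hi => by rw [hn, hD]; exact jw_dx_left s t i (by omega)
  have hD2 : ∀ i, dx D (jw s t) (n + i) = dx up t i :=
    fun i => by rw [hn, hD]; exact jw_dx_right s t i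
  rw [← hD]
  have hsub : mks' D (jw s t) ⊆
      insert n ((cuts t).image (fun i => n + i) ∪ (cuts s).image fun i => n - i) := by
    intro j hj
    obtain ⟨j0, j1, j2, j3, j4⟩ := mem_mks'.1 hj
    rw [jw_length, ← hn] at j1 j4
    rw [mem_insert, mem_union, mem_image, mem_image]
    rcases lt_trichotomy j n with h | h | h
    · right
      right
      refine ⟨n - j, mem_cuts.2 ?_, by omega⟩
      have hdx : dx up s (n - j) = up := by
        have h3 := hD1 j (by omega)
        rw [j2] at h3
        have h4 : mir (dx up s (n - j)) = mir up := by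
          rw [mir_up]
          exact (neg_eq_iff_eq_neg.1 h3.symm)
        exact mir_inj h4
      have hst : lev s (n + 1 - j) = lev s (n - j) + 2 := by
        have h3 := lev_succ s (n - j)
        rw [hdx, lowA_ipup, show n - j + 1 = n + 1 - j by omega] at h3
        exact h3
      have hj' := hL1 j (by omega)
      rw [hst] at hj'
      refine ⟨by omega, by omega, hdx, fun i hi => ?_, fun i hi hi2 => ?_⟩
      · rcases Nat.eq_zero_or_pos i with h0 | h0
        · subst h0
          rw [lev_zero]
          exact (a1 (n - j) (by omega) (by omega)).1.le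
        · have h5 := j4 (n + 1 - i) (by omega) (by omega)
          have h6 := hL1 (n + 1 - i) (by omega)
          rw [show n + 1 - (n + 1 - i) = i by omega] at h6
          have h7 := lev_mod s i
          have h8 := lev_mod s (n - j)
          have h9 : Even (n - j) := BAR13.even_of_up hdx
          rw [if_pos h9] at h8
          split_ifs at h7 <;> omega
      · have h5 := j3 (n + 1 - i) (by omega) (by omega)
        have h6 := hL1 (n + 1 - i) (by omega)
        rw [show n + 1 - (n + 1 - i) = i by omega] at h6
        omega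
    · left
      exact h
    · right
      left
      refine ⟨j - n, mem_cuts.2 ?_, by omega⟩
      have hj' := hL2 (j - n)
      rw [show n + (j - n) = j by omega] at hj'
      refine ⟨by omega, by omega, ?_, fun i hi => ?_, fun i hi hi2 => ?_⟩
      · have := hD2 (j - n)
        rw [show n + (j - n) = j by omega] at this
        rw [← this]
        exact j2
      · rcases Nat.eq_zero_or_pos i with h0 | h0
        · subst h0
          rw [lev_zero]
          exact (b1 (j - n) (by omega) (by omega)).1.le
        · have h5 := j3 (n + i) (by omega) (by omega)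
          have h6 := hL2 i
          omega
      · have h5 := j4 (n + i) (by omega) (by omega)
        have h6 := hL2 i
        omega
  refine (card_le_card hsub).trans ((card_insert_le _ _).trans ?_)
  have h3 := card_union_le ((cuts t).image fun i => n + i) ((cuts s).image fun i => n - i)
  have h4 : ((cuts t).image fun i => n + i).card ≤ (cuts t).card := card_image_le
  have h5 : ((cuts s).image fun i => n - i).card ≤ (cuts s).card := card_image_le
  omega

end BAR

end HexObs
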