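import Pool.Agent.BAR.ColA
import Pool.Agent.PLW.Strip

/-!
BAR, columns, part B: the sum over the pairs of half plane walks that end in the same column.
-/

set_option autoImplicit false

namespace HexObs

open Complex Finset ENNReal

namespace BAR

open BAR13 (IsCut cuts mem_cuts mem_SSt)

/-- half plane words of at most 5 m rows with a new tip, the last direction δ, an end above the first 2 m rows, not more
than m rows below the highest vertex, and at most K cuts -/
def VA (m : ℕ) (δ : Pt) (K : ℕ) : Set (List Bool) := {v | v ∈ TN (5 * m) ∧ 1 ≤ v.length ∧ dx up v v.length = δ ∧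
  6 * (m : ℤ) + 2 ≤ lev v v.length ∧ (∀ i, i ≤ v.length → lev v i ≤ lev v v.length + 3 * m - 2) ∧ (cuts v).card ≤ K}

/-- column of the last vertex -/
def col (v : List Bool) : ℤ := (vx oo up v v.length).1

lemma dir_lev (t : List Bool) (i : ℕ) : (Even i ∧ (ip (dx up t i) up = 2 ∨ ip (dx up t i) up = -1)) ∨
    (¬ Even i ∧ (ip (dx up t i) up = -2 ∨ ip (dx up t i) up = 1)) := by
  by_cases h : Even i
  · left
    refine ⟨h, ?_⟩
    rcases step_even upd t h with h1 | h1 | h1
    · exact Or.inl h1.2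
    · exact Or.inr h1.2
    · exact Or.inr h1.2
  · right
    refine ⟨h, ?_⟩
    rcases step_odd upd t h with h1 | h1 | h1
    · exact Or.inl h1.2
    · exact Or.inr h1.2
    · exact Or.inr h1.2

/-- the joined walks -/
theorem jw_mem {m K : ℕ} {δ : Pt} (hδ : ip δ up ≤ 1) {s t : List Bool} (hs : s ∈ VA m δ K) (ht : t ∈ VA m δ K)
    (hc : col s = col t) : ∃ k ∈ Icc (4 * m) (10 * m), jw s t ∈ CW δ k := by
  obtain ⟨s1, s2, s3, s4, s5, -⟩ := hs
  obtain ⟨t1, t2, t3, t4, t5, -⟩ := ht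
  have a1 := (mem_TN.1 s1).1
  have b1 := (mem_TN.1 t1).1
  have hv : vx oo up s (s.length + 1) = vx oo up s s.length + δ := by rw [vx_succ, s3]
  have hlv : lev s (s.length + 1) = lev s s.length + ip δ up := by rw [lev_succ, s3]
  have hds := dir_lev s s.length
  have hdt := dir_lev t t.length
  rw [s3] at hds
  rw [t3] at hdt
  have hms := lev_mod s s.length
  have hmt := lev_mod t t.length
  have hinj := jw_inj s1 t1
  have hL1 : ∀ i, i ≤ s.length + 1 → ip (bs s) up + ip (vx oo (-mir δ) (jw s t) i) up = 2 - lev s (s.length + 1 - i) :=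
    fun i hi => by
      have := jw_lev_left s t hi
      rwa [s3] at this
  have hL2 : ∀ i, ip (bs s) up + ip (vx oo (-mir δ) (jw s t) (s.length + i)) up = lev t i :=
    fun i => by
      have := jw_lev_right s t i
      rwa [s3] at this
  have hD2 := jw_dx_right s t t.length
  have hV2 := jw_vx_right s t t.length
  rw [s3] at hD2 hV2 hinj
  have hb0 := hL1 0 (by omega)
  have hz : ip (vx oo (-mir δ) (jw s t) 0) up = 0 := by
    show ip oo up = 0
    decide
  rw [hz, Nat.sub_zero] at hb0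
  have hend := hL2 t.length
  obtain ⟨L1, hL1e⟩ : ∃ L1, L1 = lev s s.length := ⟨_, rfl⟩
  obtain ⟨L2, hL2e⟩ : ∃ L2, L2 = lev t t.length := ⟨_, rfl⟩
  obtain ⟨e, he⟩ : ∃ e, e = ip δ up := ⟨_, rfl⟩
  have u1 := (a1 s.length s2 (by omega)).2
  have u2 := (b1 t.length t2 (by omega)).2
  rw [← hL1e] at hms hlv u1 s4
  rw [← hL2e] at hmt hend u2 t4
  rw [← he] at hds hdt hlv
  have hdiv : (3 : ℤ) ∣ L1 + L2 + e - 2 := by
    rcases hds with ⟨p1, p2⟩ | ⟨p1, p2⟩
    · rcases hdt with ⟨q1, q2⟩ | ⟨q1, q2⟩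
      · rw [if_pos p1] at hms
        rw [if_pos q1] at hmt
        omega
      · omega
    · rcases hdt with ⟨q1, q2⟩ | ⟨q1, q2⟩
      · omega
      · rw [if_neg p1] at hms
        rw [if_neg q1] at hmt
        omega
  have he2 : -2 ≤ e ∧ e ≤ 1 := by
    rw [← he] at hδ
    omega
  have u1' : L1 ≤ 15 * m := by
    push_cast at u1
    split_ifs at hms <;> omega
  have u2' : L2 ≤ 15 * m := by
    push_cast at u2
    split_ifs at hmt <;> omega
  obtain ⟨q, hq⟩ := hdiv
  have hq0 : 4 * (m : ℤ) ≤ q := by omega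
  have hq1 : q ≤ 10 * m := by omega
  refine ⟨q.toNat, mem_Icc.2 ⟨by omega, by omega⟩, ?_⟩
  have hqn : ((q.toNat : ℕ) : ℤ) = q := Int.toNat_of_nonneg (by omega)
  refine ⟨by rw [jw_length]; omega, hinj, ?_, ?_, ?_, ?_⟩
  · rw [jw_length]
    exact hD2.trans t3
  · have e1 : (bs s).1 + (vx oo (-mir δ) (jw s t) (s.length + t.length)).1 = (vx oo up t t.length).1 := by
      rw [← hV2]
      rfl
    have e2 : (bs s).1 = (vx oo up s s.length).1 + δ.1 := by
      unfold bs
      rw [hv]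
      show (mir (vx oo up s s.length + δ)).1 + up.1 = _
      rw [mir_fst]
      show (vx oo up s s.length).1 + δ.1 + 0 = _
      ring
    unfold col at hc
    rw [jw_length]
    omega
  · rw [jw_length, hqn]
    omega
  · intro i j hi2 hj2
    rw [jw_length] at hi2 hj2
    have hup : ip (bs s) up + ip (vx oo (-mir δ) (jw s t) i) up ≤ L2 + 3 * m - 2 := by
      rcases Nat.lt_or_ge s.length i with h | h
      · obtain ⟨l, rfl⟩ := Nat.exists_eq_add_of_le h.le
        rw [hL2]
        rcases Nat.lt_or_ge t.length l with h' | h'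
        · have : l = t.length + 1 := by omega
          rw [this, lev_succ, t3, ← he, ← hL2e]
          omega
        · have := t5 l (by omega)
          rw [← hL2e] at this
          exact this
      · rw [hL1 i (by omega)]
        have := lev_ge_two' (a1 (s.length + 1 - i) (by omega) (by omega)).1
        omega
    have hlo : 4 - 3 * m - L1 ≤ ip (bs s) up + ip (vx oo (-mir δ) (jw s t) j) up := by
      rcases Nat.lt_or_ge s.length j with h | h
      · obtain ⟨l, rfl⟩ := Nat.exists_eq_add_of_le h.le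
        rw [hL2]
        have := (b1 l (by omega) (by omega)).1
        omega
      · rw [hL1 j (by omega)]
        rcases Nat.eq_zero_or_pos j with h' | h'
        · rw [h', Nat.sub_zero, hlv]
          omega
        · have := s5 (s.length + 1 - j) (by omega)
          rw [← hL1e] at this
          omega
    rw [hqn]
    omega

/-- pairs that end in the same column -/
def PA (S : Set (List Bool)) : Set (List Bool × List Bool) := {p | p.1 ∈ S ∧ p.2 ∈ S ∧ col p.1 = col p.2}

lemma jw_eq {s t s' t' : List Bool} (h : jw s t = jw s' t') (hl : s.length = s'.length) : s = s' ∧ t = t' := by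
  unfold jw at h
  obtain ⟨h1, h2⟩ := List.append_inj h (by rw [List.length_reverse, List.length_reverse, hl])
  exact ⟨List.reverse_injective h1, h2⟩

lemma wE_jw (s t : List Bool) : wE (jw s t) = wE s * wE t := by
  unfold jw
  rw [wE_append]
  congr 1
  unfold wE
  rw [List.length_reverse]

/-- the sum over the pairs in the same column -/
theorem PA_le {m K : ℕ} {δ : Pt} (hδ : ip δ up ≤ 1) {S : Set (List Bool)} (hS : S ⊆ VA m δ K) :
    ∑' p : PA S, wE p.1.1 * wE p.1.2 ≤ ((2 * K + 1 : ℕ) : ℝ≥0∞) * ∑ k ∈ Icc (4 * m) (10 * m), gf (CW δ k) := by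
  classical
  obtain ⟨U, hU⟩ : ∃ U : Set (List Bool), U = ⋃ k ∈ Icc (4 * m) (10 * m), CW δ k := ⟨_, rfl⟩
  let G : List Bool × ℕ → ℝ≥0∞ := fun q =>
    if q.1 ∈ U ∧ (mks' (-mir δ) q.1).card ≤ 2 * K + 1 ∧ q.2 ∈ mks' (-mir δ) q.1 then wE q.1 else 0
  let F : PA S → List Bool × ℕ := fun p => (jw p.1.1 p.1.2, p.1.1.length)
  have hFinj : Function.Injective F := by
    rintro ⟨⟨a, b⟩, hab⟩ ⟨⟨a', b'⟩, hab'⟩ h
    have e2 : jw a b = jw a' b' := congrArg (fun q => q.1) h
    have e3 : a.length = a'.length := congrArg (fun q => q.2) h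
    obtain ⟨e4, e5⟩ := jw_eq e2 e3
    exact Subtype.ext (Prod.ext e4 e5)
  have hval : ∀ p : PA S, wE p.1.1 * wE p.1.2 = G (F p) := by
    rintro ⟨⟨s, t⟩, hs, ht, hc⟩
    have hs' := hS hs
    have ht' := hS ht
    obtain ⟨k, hk, hmem⟩ := jw_mem hδ hs' ht' hc
    have h1 : jw s t ∈ U := by
      rw [hU]
      exact Set.mem_biUnion hk hmem
    have h2 : (mks' (-mir (dx up s s.length)) (jw s t)).card ≤ (cuts s).card + (cuts t).card + 1 :=
      jw_marks (TN_SSt hs'.1) (TN_SSt ht'.1)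
    have h3 : IsMk' (-mir (dx up s s.length)) (jw s t) s.length := jw_mark (TN_SSt hs'.1) (TN_SSt ht'.1) hs'.2.1
    have hsd : dx up s s.length = δ := hs'.2.2.1
    rw [hsd] at h2 h3
    have h4 : (cuts s).card ≤ K := hs'.2.2.2.2.2
    have h5 : (cuts t).card ≤ K := ht'.2.2.2.2.2
    show wE s * wE t = if jw s t ∈ U ∧ (mks' (-mir δ) (jw s t)).card ≤ 2 * K + 1 ∧
      s.length ∈ mks' (-mir δ) (jw s t) then wE (jw s t) else 0
    rw [if_pos ⟨h1, by omega, mem_mks'.2 h3⟩, wE_jw]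
  calc ∑' p : PA S, wE p.1.1 * wE p.1.2 = ∑' p : PA S, G (F p) := tsum_congr hval
    _ ≤ ∑' q, G q := ENNReal.tsum_comp_le_tsum_of_injective hFinj G
    _ = ∑' t : List Bool, ∑' p : ℕ, G (t, p) := by
        rw [ENNReal.tsum_prod']
    _ ≤ ∑' t : List Bool, U.indicator (fun t => ((2 * K + 1 : ℕ) : ℝ≥0∞) * wE t) t := by
        refine ENNReal.tsum_le_tsum fun t => ?_
        by_cases ht : t ∈ U ∧ (mks' (-mir δ) t).card ≤ 2 * K + 1
        · rw [Set.indicator_of_mem ht.1]
          have h1 : ∑' p : ℕ, G (t, p) = ∑ p ∈ mks' (-mir δ) t, wE t := by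
            rw [tsum_eq_sum (s := mks' (-mir δ) t)]
            · refine Finset.sum_congr rfl fun p hp => ?_
              show (if t ∈ U ∧ (mks' (-mir δ) t).card ≤ 2 * K + 1 ∧ p ∈ mks' (-mir δ) t then wE t else 0) = _
              rw [if_pos ⟨ht.1, ht.2, hp⟩]
            · intro p hp
              show (if t ∈ U ∧ (mks' (-mir δ) t).card ≤ 2 * K + 1 ∧ p ∈ mks' (-mir δ) t then wE t else 0) = 0
              rw [if_neg (fun h => hp h.2.2)]
          rw [h1, Finset.sum_const, nsmul_eq_mul]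
          refine mul_le_mul' ?_ le_rfl
          exact_mod_cast ht.2
        · refine le_trans (le_of_eq (ENNReal.tsum_eq_zero.2 ?_)) bot_le
          intro p
          show (if t ∈ U ∧ (mks' (-mir δ) t).card ≤ 2 * K + 1 ∧ p ∈ mks' (-mir δ) t then wE t else 0) = 0
          rw [if_neg (fun h => ht ⟨h.1, h.2.1⟩)]
    _ = ((2 * K + 1 : ℕ) : ℝ≥0∞) * gf U := by
        unfold gf
        rw [← tsum_subtype U (fun t => ((2 * K + 1 : ℕ) : ℝ≥0∞) * wE t), ENNReal.tsum_mul_left]
    _ ≤ _ := by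
        refine mul_le_mul' le_rfl ?_
        rw [hU]
        exact ENNReal.tsum_biUnion_le wE _ _

/-- the square of the weight of S by the pairs in the same column, when the columns lie in [-X, X] -/
theorem sq_le_PA {S : Set (List Bool)} {X : ℕ} (hX : ∀ v ∈ S, |col v| ≤ X) :
    gf S ^ 2 ≤ ((4 * X + 2 : ℕ) : ℝ≥0∞) * ∑' p : PA S, wE p.1.1 * wE p.1.2 := by
  classical
  obtain ⟨Sx, hSx⟩ : ∃ Sx : ℤ → Set (List Bool), Sx = fun x => {v | v ∈ S ∧ col v = x} := ⟨_, rfl⟩
  have h1 : gf S ≤ ∑ x ∈ Icc (-(X : ℤ)) X, gf (Sx x) := by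
    have hsub : S ⊆ ⋃ x ∈ Icc (-(X : ℤ)) X, Sx x := by
      intro v hv
      have := abs_le.1 (hX v hv)
      refine Set.mem_biUnion (Finset.mem_coe.2 (mem_Icc.2 this)) ?_
      rw [hSx]
      exact ⟨hv, rfl⟩
    exact (gf_mono hsub).trans (ENNReal.tsum_biUnion_le wE _ _)
  have h2 : ∑ x ∈ Icc (-(X : ℤ)) X, gf (Sx x) ^ 2 ≤ ∑' p : PA S, wE p.1.1 * wE p.1.2 := by
    have hprod : ∀ x, gf (Sx x) ^ 2 = ∑' p : ↥(Sx x ×ˢ Sx x), wE p.1.1 * wE p.1.2 := by
      intro x
      calc gf (Sx x) ^ 2 = gf (Sx x) * gf (Sx x) := sq _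
        _ = ∑' a : ↥(Sx x), ∑' c : ↥(Sx x), wE a.1 * wE c.1 := by
            simp only [ENNReal.tsum_mul_left]
            rw [ENNReal.tsum_mul_right]
            rfl
        _ = ∑' p : ↥(Sx x) × ↥(Sx x), wE p.1.1 * wE p.2.1 :=
            (ENNReal.tsum_prod (f := fun (a : ↥(Sx x)) (c : ↥(Sx x)) => wE a.1 * wE c.1)).symm
        _ = _ := ((Equiv.Set.prod (Sx x) (Sx x)).tsum_eq (fun p : ↥(Sx x) × ↥(Sx x) => wE p.1.1 * wE p.2.1)).symm
    obtain ⟨f, hf⟩ : ∃ f : List Bool × List Bool → ℝ≥0∞, f = fun p => wE p.1 * wE p.2 := ⟨_, rfl⟩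
    have e1 : ∀ x, gf (Sx x) ^ 2 = ∑' p : List Bool × List Bool, (Sx x ×ˢ Sx x).indicator f p := by
      intro x
      rw [hprod x, ← tsum_subtype (Sx x ×ˢ Sx x) f, hf]
    have e2 : ∑' p : PA S, wE p.1.1 * wE p.1.2 = ∑' p : List Bool × List Bool, (PA S).indicator f p := by
      rw [← tsum_subtype (PA S) f, hf]
    rw [e2]
    calc ∑ x ∈ Icc (-(X : ℤ)) X, gf (Sx x) ^ 2 =
        ∑' p : List Bool × List Bool, ∑ x ∈ Icc (-(X : ℤ)) X, (Sx x ×ˢ Sx x).indicator f p := by
          rw [Summable.tsum_finsetSum fun _ _ => ENNReal.summable]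
          exact Finset.sum_congr rfl fun x _ => e1 x
      _ ≤ _ := by
          refine ENNReal.tsum_le_tsum fun p => ?_
          by_cases hp : p ∈ PA S
          · rw [Set.indicator_of_mem hp]
            have h3 : ∀ x ∈ Icc (-(X : ℤ)) X, (Sx x ×ˢ Sx x).indicator f p = if x = col p.1 then f p else 0 := by
              intro x _
              by_cases hx : x = col p.1
              · rw [if_pos hx, Set.indicator_of_mem]
                rw [hSx, Set.mem_prod]
                exact ⟨⟨hp.1, hx.symm⟩, ⟨hp.2.1, hp.2.2.symm.trans hx.symm⟩⟩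
              · rw [if_neg hx, Set.indicator_of_notMem]
                intro h
                rw [hSx, Set.mem_prod] at h
                exact hx h.1.2.symm
            rw [Finset.sum_congr rfl h3, Finset.sum_ite_eq']
            split_ifs
            · exact le_rfl
            · exact bot_le
          · rw [Set.indicator_of_notMem hp]
            refine le_of_eq (Finset.sum_eq_zero fun x _ => ?_)
            rw [Set.indicator_of_notMem]
            intro h
            rw [hSx, Set.mem_prod] at h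
            exact hp ⟨h.1.1, h.2.1, h.1.2.trans h.2.2.symm⟩
  have h3 : (∑ x ∈ Icc (-(X : ℤ)) X, gf (Sx x)) ^ 2 ≤
      ((4 * X + 2 : ℕ) : ℝ≥0∞) * ∑ x ∈ Icc (-(X : ℤ)) X, gf (Sx x) ^ 2 := by
    have hab : ∀ a b : ℝ≥0∞, a * b ≤ a ^ 2 + b ^ 2 := by
      intro a b
      rcases le_total a b with h | h
      · calc a * b ≤ b * b := mul_le_mul' h le_rfl
          _ = b ^ 2 := (sq b).symm
          _ ≤ _ := le_add_self
      · calc a * b ≤ a * a := mul_le_mul' le_rfl h
          _ = a ^ 2 := (sq a).symm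
          _ ≤ _ := le_self_add
    have hcard : (Icc (-(X : ℤ)) X).card = 2 * X + 1 := by
      rw [Int.card_Icc]
      omega
    calc (∑ x ∈ Icc (-(X : ℤ)) X, gf (Sx x)) ^ 2 =
        ∑ x ∈ Icc (-(X : ℤ)) X, ∑ y ∈ Icc (-(X : ℤ)) X, gf (Sx x) * gf (Sx y) := by
          rw [sq, Finset.sum_mul_sum]
      _ ≤ ∑ x ∈ Icc (-(X : ℤ)) X, ∑ y ∈ Icc (-(X : ℤ)) X, (gf (Sx x) ^ 2 + gf (Sx y) ^ 2) :=
          Finset.sum_le_sum fun x _ => Finset.sum_le_sum fun y _ => hab _ _
      _ = ((4 * X + 2 : ℕ) : ℝ≥0∞) * ∑ x ∈ Icc (-(X : ℤ)) X, gf (Sx x) ^ 2 := by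
          simp only [Finset.sum_add_distrib, Finset.sum_const, hcard, nsmul_eq_mul]
          rw [← Finset.mul_sum]
          push_cast
          ring
  calc gf S ^ 2 ≤ (∑ x ∈ Icc (-(X : ℤ)) X, gf (Sx x)) ^ 2 := pow_le_pow_left' h1 2
    _ ≤ ((4 * X + 2 : ℕ) : ℝ≥0∞) * ∑ x ∈ Icc (-(X : ℤ)) X, gf (Sx x) ^ 2 := h3
    _ ≤ _ := mul_le_mul' le_rfl h2

end BAR

end HexObs
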