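import Pool.Agent.BAR.ColA
import Pool.Agent.BAR.WBd
import Pool.Agent.BAR1.Vert

/-!
BAR, columns, part C: the half plane words with a given last direction that is not vertical and a new tip carry a positive
part of the weight of all half plane words.
-/

set_option autoImplicit false

namespace HexObs

open Complex Finset ENNReal

namespace BAR

/-- half plane words with the last direction δ -/
def SD (m : ℕ) (δ : Pt) : Set (List Bool) := {w | w ∈ SSt m ∧ dx up w w.length = δ}

/-- half plane words with the last direction δ and a new tip in the strip -/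
def SN (m : ℕ) (δ : Pt) : Set (List Bool) := {w | w ∈ TN m ∧ dx up w w.length = δ}

lemma dx_last (s : List Bool) (b : Bool) : dx up (s ++ [b]) (s ++ [b]).length = turn b (dx up s s.length) := by
  rw [List.length_append, List.length_singleton, dx_succ, dx_append le_rfl]
  congr 1
  have := tf_append_right (t := s) (s := [b]) 0
  rw [Nat.add_zero] at this
  rw [this]
  rfl

lemma gf_nil1 : gf {([] : List Bool)} = 1 := by
  unfold gf
  rw [tsum_singleton (f := wE)]
  unfold wE
  simp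

lemma SN_sub (m : ℕ) (δ : Pt) : SN m δ ⊆ SD m δ := fun _ h => ⟨TN_SSt h.1, h.2⟩

lemma turn_inv_true (d δ : Pt) (h : turn true d = δ) : d = rotR δ := by
  subst h
  ext <;> simp [turn, rotL, rotR]

lemma turn_inv_false (d δ : Pt) (h : turn false d = δ) : d = rotL δ := by
  subst h
  ext <;> simp [turn, rotL, rotR]

/-- without the last letter -/
theorem SD_out (m : ℕ) (δ : Pt) :
    gf (SD m δ) ≤ 1 + ENNReal.ofReal xc * (gf (SN m (rotR δ)) + gf (SN m (rotL δ))) := by
  have hsub : SD m δ ⊆ ({[]} ∪ (fun w : List Bool => w ++ [true]) '' (SN m (rotR δ))) ∪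
      (fun w : List Bool => w ++ [false]) '' (SN m (rotL δ)) := by
    rintro w ⟨h1, h2⟩
    rcases List.eq_nil_or_concat w with hw | ⟨s, b, hw⟩
    · exact Or.inl (Or.inl hw)
    · rw [List.concat_eq_append] at hw
      subst hw
      rw [dx_last] at h2
      have h3 : s ∈ TN m := SSt_last true h1
      cases b
      · exact Or.inr ⟨s, ⟨h3, turn_inv_false _ _ h2⟩, rfl⟩
      · exact Or.inl (Or.inr ⟨s, ⟨h3, turn_inv_true _ _ h2⟩, rfl⟩)
  have him : ∀ (b : Bool) (S : Set (List Bool)),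
      gf ((fun w : List Bool => w ++ [b]) '' S) ≤ ENNReal.ofReal xc * gf S := by
    intro b S
    refine (PLW.gf_image _ _).trans ?_
    unfold gf
    rw [← ENNReal.tsum_mul_left]
    refine ENNReal.tsum_le_tsum fun w => le_of_eq ?_
    unfold wE
    rw [← ENNReal.ofReal_mul xc_pos.le, List.length_append, List.length_singleton, pow_succ, mul_comm]
  refine (gf_mono hsub).trans ((gf_union_le _ _).trans ((add_le_add (gf_union_le _ _) le_rfl).trans ?_))
  rw [gf_nil1, mul_add, ← add_assoc]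
  exact add_le_add (add_le_add le_rfl (him _ _)) (him _ _)

lemma HH_le_sum (m : ℕ) : HH m ≤ ∑ δ ∈ dirs, gf (SD m δ) := by
  have hsub : SSt m ⊆ ⋃ δ ∈ dirs, SD m δ := by
    intro w hw
    exact Set.mem_biUnion (Finset.mem_coe.2 (dx_mem upd w w.length)) ⟨hw, rfl⟩
  exact (gf_mono hsub).trans (ENNReal.tsum_biUnion_le wE _ _)

/-- reflection that changes the sign of the column and keeps the level -/
def lrm (p : Pt) : Pt := (-p.1, p.1 + p.2)

lemma lrm_turn (b : Bool) (d : Pt) : lrm (turn b d) = turn (!b) (lrm d) := by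
  cases b <;> ext <;> simp [turn, rotL, rotR, lrm]

lemma lrm_lrm (p : Pt) : lrm (lrm p) = p := by
  unfold lrm
  ext <;> simp

lemma dx_lrm (t : List Bool) : ∀ i, i ≤ t.length → dx up (t.map not) i = lrm (dx up t i) := by
  intro i
  induction i with
  | zero =>
    intro _
    show up = lrm up
    decide
  | succ i ih =>
    intro hi
    rw [dx_succ, dx_succ, ih (by omega), tf_map_not (by omega), lrm_turn]

lemma SN_mirror (m : ℕ) (δ : Pt) : gf (SN m δ) ≤ gf (SN m (lrm δ)) := by
  have e : (not ∘ not : Bool → Bool) = id := by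
    funext b
    cases b <;> rfl
  have hsub : SN m δ ⊆ (fun w : List Bool => w.map not) '' SN m (lrm δ) := by
    rintro w ⟨h1, h2⟩
    refine ⟨w.map not, ⟨?_, ?_⟩, ?_⟩
    · have h3 := SSt_not (T := m) (t := w ++ [true]) h1
      rw [List.map_append] at h3
      exact SSt_last true h3
    · rw [List.length_map, dx_lrm w _ le_rfl, h2]
    · show (w.map not).map not = w
      rw [List.map_map, e, List.map_id]
  refine (gf_mono hsub).trans ((PLW.gf_image _ _).trans (le_of_eq (tsum_congr fun w => ?_)))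
  exact wE_not w.1

lemma SN_mirror_eq (m : ℕ) (δ : Pt) : gf (SN m (lrm δ)) = gf (SN m δ) :=
  le_antisymm (by
    have := SN_mirror m (lrm δ)
    rwa [lrm_lrm] at this) (SN_mirror m δ)

/-- the two directions down to the left and to the right -/
def dF : Finset Pt := {(1, -1), (-1, 0)}

/-- the two directions up to the left and to the right -/
def dR : Finset Pt := {(1, 0), (-1, 1)}

/-- every direction that is not vertical -/
theorem HH_le_SN (m : ℕ) {δ : Pt} (hδ : δ ∈ dF ∪ dR) : HH m ≤ 40 + 20 * gf (SN m δ) := by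
  have hfin : ∀ d, gf (SD m d) ≠ ∞ := fun d =>
    ne_top_of_le_ne_top (PLW.gf_SSt_fin m) (gf_mono fun w hw => hw.1)
  have hfinN : ∀ d, gf (SN m d) ≠ ∞ := fun d => ne_top_of_le_ne_top (hfin d) (gf_mono (SN_sub m d))
  have hHfin : HH m ≠ ∞ := PLW.gf_SSt_fin m
  obtain ⟨X, hX⟩ : ∃ X : Pt → ℝ, X = fun d => (gf (SD m d)).toReal := ⟨_, rfl⟩
  obtain ⟨Y, hY⟩ : ∃ Y : Pt → ℝ, Y = fun d => (gf (SN m d)).toReal := ⟨_, rfl⟩
  have hX0 : ∀ d, 0 ≤ X d := fun d => by rw [hX]; exact ENNReal.toReal_nonneg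
  have hY0 : ∀ d, 0 ≤ Y d := fun d => by rw [hY]; exact ENNReal.toReal_nonneg
  have eX : ∀ d, gf (SD m d) = ENNReal.ofReal (X d) := fun d => by
    rw [hX]
    exact (ENNReal.ofReal_toReal (hfin d)).symm
  have eY : ∀ d, gf (SN m d) = ENNReal.ofReal (Y d) := fun d => by
    rw [hY]
    exact (ENNReal.ofReal_toReal (hfinN d)).symm
  have hYX : ∀ d, Y d ≤ X d := fun d => by
    have h1 := gf_mono (SN_sub m d)
    rw [eX, eY, ENNReal.ofReal_le_ofReal_iff (hX0 d)] at h1
    exact h1
  have hx0 : 0 < xc := xc_pos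
  have hx1 : xc ≤ 3 / 5 := xc_le
  have hout : ∀ d, X d ≤ 1 + xc * (Y (rotR d) + Y (rotL d)) := fun d => by
    have h1 := SD_out m d
    have e1 : (1 : ℝ≥0∞) = ENNReal.ofReal 1 := by norm_num
    rw [eX, eY, eY, e1, ← ENNReal.ofReal_add (hY0 _) (hY0 _), ← ENNReal.ofReal_mul hx0.le,
      ← ENNReal.ofReal_add (by norm_num) (mul_nonneg hx0.le (add_nonneg (hY0 _) (hY0 _))),
      ENNReal.ofReal_le_ofReal_iff (by
        have := mul_nonneg hx0.le (add_nonneg (hY0 (rotR d)) (hY0 (rotL d)))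
        linarith)] at h1
    exact h1
  have hmir : ∀ d, Y (lrm d) = Y d := fun d => by
    rw [hY]
    show (gf (SN m (lrm d))).toReal = _
    rw [SN_mirror_eq]
  obtain ⟨R, hR⟩ : ∃ R, R = Y (1, 0) := ⟨_, rfl⟩
  obtain ⟨F, hF⟩ : ∃ F, F = Y (1, -1) := ⟨_, rfl⟩
  have hR' : Y (-1, 1) = R := by
    rw [hR, ← hmir (1, 0)]
    rfl
  have hF' : Y (-1, 0) = F := by
    rw [hF, ← hmir (1, -1)]
    rfl
  have r0 : 0 ≤ R := by rw [hR]; exact hY0 _
  have f0 : 0 ≤ F := by rw [hF]; exact hY0 _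
  -- outgoing directions
  have xU : X (0, 1) ≤ 1 + xc * (R + R) := by
    have h1 := hout (0, 1)
    have e1 : rotR (0, 1) = ((1, 0) : Pt) := by decide
    have e2 : rotL (0, 1) = ((-1, 1) : Pt) := by decide
    rwa [e1, e2, hR', ← hR] at h1
  have xN : X (0, -1) ≤ 1 + xc * (F + F) := by
    have h1 := hout (0, -1)
    have e1 : rotR (0, -1) = ((-1, 0) : Pt) := by decide
    have e2 : rotL (0, -1) = ((1, -1) : Pt) := by decide
    rwa [e1, e2, hF', ← hF] at h1
  have yU : Y (0, 1) ≤ 1 + xc * (R + R) := (hYX _).trans xU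
  have yN : Y (0, -1) ≤ 1 + xc * (F + F) := (hYX _).trans xN
  have hxR : xc * R ≤ 3 / 5 * R := mul_le_mul_of_nonneg_right hx1 r0
  have hxF : xc * F ≤ 3 / 5 * F := mul_le_mul_of_nonneg_right hx1 f0
  have hxyU : xc * Y (0, 1) ≤ 3 / 5 * Y (0, 1) := mul_le_mul_of_nonneg_right hx1 (hY0 _)
  have hxyN : xc * Y (0, -1) ≤ 3 / 5 * Y (0, -1) := mul_le_mul_of_nonneg_right hx1 (hY0 _)
  have xR : X (1, 0) ≤ 1 + xc * (F + Y (0, 1)) := by
    have h1 := hout (1, 0)
    have e1 : rotR (1, 0) = ((1, -1) : Pt) := by decide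
    have e2 : rotL (1, 0) = ((0, 1) : Pt) := by decide
    rwa [e1, e2, ← hF] at h1
  have xR' : X (-1, 1) ≤ 1 + xc * (Y (0, 1) + F) := by
    have h1 := hout (-1, 1)
    have e1 : rotR (-1, 1) = ((0, 1) : Pt) := by decide
    have e2 : rotL (-1, 1) = ((-1, 0) : Pt) := by decide
    rwa [e1, e2, hF'] at h1
  have xF : X (-1, 0) ≤ 1 + xc * (R + Y (0, -1)) := by
    have h1 := hout (-1, 0)
    have e1 : rotR (-1, 0) = ((-1, 1) : Pt) := by decide
    have e2 : rotL (-1, 0) = ((0, -1) : Pt) := by decide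
    rwa [e1, e2, hR'] at h1
  have xF' : X (1, -1) ≤ 1 + xc * (Y (0, -1) + R) := by
    have h1 := hout (1, -1)
    have e1 : rotR (1, -1) = ((0, -1) : Pt) := by decide
    have e2 : rotL (1, -1) = ((1, 0) : Pt) := by decide
    rwa [e1, e2, ← hR] at h1
  have yR : R ≤ X (1, 0) := by rw [hR]; exact hYX _
  have yF : F ≤ X (1, -1) := by rw [hF]; exact hYX _
  have hsum : (HH m).toReal ≤ X (1, 0) + X (0, 1) + X (-1, 1) + X (-1, 0) + X (0, -1) + X (1, -1) := by
    have h1 := HH_le_sum m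
    have h2 : ∑ δ ∈ dirs, gf (SD m δ) = ENNReal.ofReal (∑ δ ∈ dirs, X δ) := by
      rw [ENNReal.ofReal_sum_of_nonneg fun d _ => hX0 d]
      exact Finset.sum_congr rfl fun d _ => eX d
    have h3 : ∑ δ ∈ dirs, X δ = X (1, 0) + X (0, 1) + X (-1, 1) + X (-1, 0) + X (0, -1) + X (1, -1) := by
      unfold dirs
      rw [Finset.sum_insert (by decide), Finset.sum_insert (by decide), Finset.sum_insert (by decide),
        Finset.sum_insert (by decide), Finset.sum_insert (by decide), Finset.sum_singleton]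
      ring
    rw [h2, h3] at h1
    have h4 := ENNReal.toReal_mono ENNReal.ofReal_ne_top h1
    rwa [ENNReal.toReal_ofReal (by
      have h5 := hX0 (1, 0)
      have h6 := hX0 (0, 1)
      have h7 := hX0 (-1, 1)
      have h8 := hX0 (-1, 0)
      have h9 := hX0 (0, -1)
      have h10 := hX0 (1, -1)
      linarith)] at h4
  have hRF : R ≤ 6 + 11 / 5 * F := by nlinarith
  have hFR : F ≤ 6 + 11 / 5 * R := by nlinarith
  have htot : (HH m).toReal ≤ 17 / 2 + 4 * (R + F) := by nlinarith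
  have hmain : ∀ y, (y = R ∨ y = F) → (HH m).toReal ≤ 40 + 20 * y := by
    rintro y (h | h) <;> rw [h] <;> linarith
  have hcase : Y δ = R ∨ Y δ = F := by
    have h1 : ∀ δ ∈ dF ∪ dR, δ = (1, -1) ∨ δ = (-1, 0) ∨ δ = (1, 0) ∨ δ = (-1, 1) := by decide
    rcases h1 δ hδ with h | h | h | h
    · exact Or.inr (by rw [h, hF])
    · exact Or.inr (by rw [h, hF'])
    · exact Or.inl (by rw [h, hR])
    · exact Or.inl (by rw [h, hR'])
  have h1 := hmain _ hcase
  have e40 : (40 : ℝ≥0∞) = ENNReal.ofReal 40 := by norm_num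
  have e20 : (20 : ℝ≥0∞) = ENNReal.ofReal 20 := by norm_num
  have hy0 := hY0 δ
  rw [← ENNReal.ofReal_toReal hHfin, eY, e40, e20, ← ENNReal.ofReal_mul (by norm_num),
    ← ENNReal.ofReal_add (by norm_num) (by positivity)]
  exact ENNReal.ofReal_le_ofReal h1

end BAR

end HexObs
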