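import Pool.Agent.BAR.ColB
import Pool.Agent.BAR.ColC
import Pool.Agent.BAR1.Main

/-!
BAR, columns, part D: a bridge of at least 2 m rows in front of a half plane word of m rows.
-/

set_option autoImplicit false

namespace HexObs

open Complex Finset ENNReal

namespace BAR

/-- half plane words of height m rows with a new tip, the last direction δ and at most K cuts -/
def SDK (m : ℕ) (δ : Pt) (K : ℕ) : Set (List Bool) := {w | w ∈ TN m ∧ (cuts w).card ≤ K ∧ 1 ≤ w.length ∧
  dx up w w.length = δ}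

/-- half plane words of at most 5 m rows with a new tip, the last direction δ, an end above the first 2 m rows and not more than m rows
below the highest vertex -/
def VB (m : ℕ) (δ : Pt) : Set (List Bool) := {v | v ∈ TN (5 * m) ∧ 1 ≤ v.length ∧ dx up v v.length = δ ∧
  6 * (m : ℤ) + 2 ≤ lev v v.length ∧ ∀ i, i ≤ v.length → lev v i ≤ lev v v.length + 3 * m - 2}

lemma cuts_eq (w : List Bool) : BAR13.cuts w = cuts w := by
  ext j
  rw [BAR13.mem_cuts, mem_cuts]
  exact Iff.rfl

lemma SSt_top {m : ℕ} {w : List Bool} (hw : w ∈ SSt m) {i : ℕ} (hi : i ≤ w.length) : lev w i ≤ 3 * m := by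
  rcases Nat.eq_zero_or_pos i with h0 | h0
  · rw [h0, lev_zero]
    positivity
  · have h1 := ((mem_SSt.1 hw).1 i h0 hi).2
    have h2 := lev_mod w i
    split_ifs at h2 <;> omega

/-- a bridge in front of a half plane word with few cuts -/
lemma pre_mem2 {r m K : ℕ} (hr : 2 * m ≤ r) (hr' : r ≤ 4 * m) {δ : Pt} {b w : List Bool} (hb : b ∈ Brd r)
    (hw : w ∈ SDK m δ K) : b ++ w ∈ VB m δ ∧ SpP 1 K (b ++ w) b.length := by
  obtain ⟨hw0, hw2, hw3, hw4⟩ := hw
  have hw1 := TN_SSt hw0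
  have hb' := mem_Brd.1 hb
  have hlev : lev (b ++ w) b.length = 3 * (r : ℤ) := at_cut hb
  have hcat : ∀ i, lev (b ++ w) (b.length + i) = 3 * r + lev w i := by
    intro i
    rw [lev_cat hb'.2.2.1, hb'.2.2.2]
  have hlow : ∀ i, i ≤ b.length → lev (b ++ w) i ≤ 3 * r := by
    intro i hi
    rw [lev_append (by omega)]
    rcases Nat.eq_zero_or_pos i with h0 | h0
    · rw [h0, lev_zero]
      positivity
    · exact (hb'.1 i h0 hi).2
  have hend : 2 ≤ lev w w.length := lev_ge_two' ((mem_SSt.1 hw1).1 w.length hw3 le_rfl).1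
  have hT : b ++ w ∈ TN (5 * m) := by
    show (b ++ w) ++ [true] ∈ SSt (5 * m)
    rw [List.append_assoc]
    exact SSt_mono (by omega) (SSt_cat hb hw0)
  refine ⟨⟨hT, by rw [List.length_append]; omega, ?_, ?_, ?_⟩, ?_, ?_, ?_, ?_, ?_⟩
  · rw [List.length_append, dx_cat hb'.2.2.1]
    exact hw4
  · rw [List.length_append, hcat]
    omega
  · intro i hi
    rw [List.length_append] at hi
    rw [List.length_append, hcat]
    rcases Nat.lt_or_ge b.length i with h | h
    · obtain ⟨l, rfl⟩ := Nat.exists_eq_add_of_le h.le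
      rw [hcat]
      have := SSt_top hw1 (i := l) (by omega)
      omega
    · have := hlow i h
      omega
  · rw [List.length_append]
    omega
  · rw [dx_append le_rfl, hb'.2.2.1, one_smul]
  · intro i hi
    rw [one_mul, one_mul, hlev]
    exact hlow i hi
  · intro i hi hil
    rw [one_mul, one_mul, hlev]
    exact beyond hb (pos_SSt hw1) hi hil
  · rw [List.drop_left]
    exact hw2

/-- pairs of a bridge and a half plane word with few cuts -/
theorem pre_le2 (m K : ℕ) (δ : Pt) :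
    (∑ r ∈ Icc (2 * m) (4 * m), BT r) * gf (SDK m δ K) ≤ ENNReal.ofReal ((K : ℝ) + 1) * gf (VB m δ) := by
  classical
  obtain ⟨B, hB⟩ : ∃ B : Set (List Bool), B = ⋃ r ∈ Icc (2 * m) (4 * m), Brd r := ⟨_, rfl⟩
  have hgB : ∑ r ∈ Icc (2 * m) (4 * m), BT r ≤ gf B := by
    rw [hB, Finset.sum_congr rfl fun r _ => (gf_Brd r).symm]
    exact gf_bi_eq _ _ fun i j w hi hj => Brd_height hi hj
  let G : List Bool × ℕ → ℝ≥0∞ := fun q => if q.1 ∈ VB m δ ∧ q.2 ∈ spl 1 K q.1 then wE q.1 else 0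
  let F : B × SDK m δ K → List Bool × ℕ := fun q => (q.1.1 ++ q.2.1, q.1.1.length)
  have hFinj : Function.Injective F := by
    rintro ⟨a, b⟩ ⟨a', b'⟩ h
    have e2 : a.1 ++ b.1 = a'.1 ++ b'.1 := congrArg (fun q => q.1) h
    have e3 : a.1.length = a'.1.length := congrArg (fun q => q.2) h
    obtain ⟨e4, e5⟩ := List.append_inj e2 e3
    exact Prod.ext (Subtype.ext e4) (Subtype.ext e5)
  have hval : ∀ q : B × SDK m δ K, wE q.1.1 * wE q.2.1 = G (F q) := by
    rintro ⟨a, b⟩
    have ha : a.1 ∈ ⋃ r ∈ Icc (2 * m) (4 * m), Brd r := hB.subset a.2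
    rw [Set.mem_iUnion₂] at ha
    obtain ⟨r, hr, har⟩ := ha
    rw [mem_Icc] at hr
    have h1 := pre_mem2 hr.1 hr.2 har b.2
    have h2 : (a.1 ++ b.1) ∈ VB m δ ∧ a.1.length ∈ spl 1 K (a.1 ++ b.1) := ⟨h1.1, mem_spl.2 h1.2⟩
    show wE a.1 * wE b.1 = if (a.1 ++ b.1) ∈ VB m δ ∧ a.1.length ∈ spl 1 K (a.1 ++ b.1) then
      wE (a.1 ++ b.1) else 0
    rw [if_pos h2, wE_append]
  calc (∑ r ∈ Icc (2 * m) (4 * m), BT r) * gf (SDK m δ K) ≤ gf B * gf (SDK m δ K) := mul_le_mul' hgB le_rfl
    _ = ∑' q : B × SDK m δ K, wE q.1.1 * wE q.2.1 := by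
        unfold gf
        rw [← ENNReal.tsum_mul_right]
        simp_rw [← ENNReal.tsum_mul_left]
        rw [← ENNReal.tsum_prod]
    _ = ∑' q : B × SDK m δ K, G (F q) := tsum_congr hval
    _ ≤ ∑' q, G q := ENNReal.tsum_comp_le_tsum_of_injective hFinj G
    _ = ∑' t : List Bool, ∑' p : ℕ, G (t, p) := by
        rw [ENNReal.tsum_prod']
    _ ≤ ∑' t : List Bool, (VB m δ).indicator (fun t => ENNReal.ofReal ((K : ℝ) + 1) * wE t) t := by
        refine ENNReal.tsum_le_tsum fun t => ?_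
        by_cases ht : t ∈ VB m δ
        · rw [Set.indicator_of_mem ht]
          have h1 : ∑' p : ℕ, G (t, p) = ∑ p ∈ spl 1 K t, wE t := by
            rw [tsum_eq_sum (s := spl 1 K t)]
            · refine Finset.sum_congr rfl fun p hp => ?_
              show (if t ∈ VB m δ ∧ p ∈ spl 1 K t then wE t else 0) = _
              rw [if_pos ⟨ht, hp⟩]
            · intro p hp
              show (if t ∈ VB m δ ∧ p ∈ spl 1 K t then wE t else 0) = 0
              rw [if_neg (fun h => hp h.2)]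
          rw [h1, Finset.sum_const, nsmul_eq_mul]
          refine mul_le_mul' ?_ le_rfl
          rw [← ENNReal.ofReal_natCast]
          apply ENNReal.ofReal_le_ofReal
          exact_mod_cast spl_card (Or.inl rfl) K t
        · rw [Set.indicator_of_notMem ht]
          refine le_of_eq ?_
          rw [ENNReal.tsum_eq_zero]
          intro p
          show (if t ∈ VB m δ ∧ p ∈ spl 1 K t then wE t else 0) = 0
          rw [if_neg (fun h => ht h.1)]
    _ = ENNReal.ofReal ((K : ℝ) + 1) * gf (VB m δ) := by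
        unfold gf
        rw [← tsum_subtype (VB m δ) (fun t => ENNReal.ofReal ((K : ℝ) + 1) * wE t), ENNReal.tsum_mul_left]

/-- most words have few cuts -/
lemma VB_sub (m K : ℕ) (δ : Pt) : VB m δ ⊆ VA m δ K ∪ MC (5 * m) (K + 1) := by
  rintro v ⟨h1, h2, h3, h4, h5⟩
  rcases Nat.lt_or_ge K (cuts v).card with h | h
  · exact Or.inr (mem_MC (K + 1) (TN_SSt h1) h)
  · exact Or.inl ⟨h1, h2, h3, h4, h5, by rw [cuts_eq]; exact h⟩

lemma SD_sub (m K : ℕ) {δ : Pt} (hδ : δ ≠ up) : SN m δ ⊆ SDK m δ K ∪ MC m (K + 1) := by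
  rintro w ⟨h1, h2⟩
  rcases Nat.lt_or_ge K (cuts w).card with h | h
  · exact Or.inr (mem_MC (K + 1) (TN_SSt h1) h)
  · refine Or.inl ⟨h1, h, ?_, h2⟩
    rcases Nat.eq_zero_or_pos w.length with h0 | h0
    · exfalso
      apply hδ
      rw [← h2, h0]
      rfl
    · exact h0

end BAR

end HexObs
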