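import Pool.Agent.BAR.Defs

/-!
BAR, columns: the two point function of the walks between two mid-edges of the same column, k rows apart (k rows = height 3 k).
The walks start at the mid-edge between oo and oo - mir δ (mir = reflection in a horizontal line) and end with a half edge of
direction δ; they are counted when the outer ends oo and tip of the two half edges are not visited and lie in the same column
and the end vertex is 3 k above oo; their extent is at most 3 k / 2 rows.
-/

set_option autoImplicit false

namespace HexObs

open Complex Finset ENNReal

namespace BAR

/-- reflection that keeps the column and changes the sign of the level -/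
def mir (p : Pt) : Pt := (p.1, -p.1 - p.2)

/-- walks from the mid-edge {oo, oo - mir δ} to a mid-edge k rows above it in the same column, last half edge of direction δ,
extent at most 3 k / 2 rows; oo and the tip (vertex number length + 1) are not visited -/
def CW (δ : Pt) (k : ℕ) : Set (List Bool) := {u | 1 ≤ u.length ∧
  (∀ i j, i < j → j ≤ u.length + 1 → vx oo (-mir δ) u i ≠ vx oo (-mir δ) u j) ∧
  dx (-mir δ) u u.length = δ ∧
  (vx oo (-mir δ) u u.length).1 = -δ.1 ∧ ip (vx oo (-mir δ) u u.length) up = 3 * k ∧
  ∀ i j, i ≤ u.length + 1 → j ≤ u.length + 1 →
    2 * (ip (vx oo (-mir δ) u i) up - ip (vx oo (-mir δ) u j) up) ≤ 9 * k}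

end BAR

end HexObs
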