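import Pool.Agent.BAR.ColD
import Pool.Agent.BAR.LatLog
import Pool.Agent.EXL.Final

/-!
BAR, columns, part E: polynomial bound of HH, tails, the sums of bridges.
-/

set_option autoImplicit false

namespace HexObs

open Complex Finset ENNReal SDN

namespace BAR

lemma log_le_lg {m : ℕ} (hm : 1 ≤ m) : Real.log m ≤ lg m := by
  have h1 : m < 2 ^ (Nat.log 2 m + 1) := Nat.lt_pow_succ_log_self (by norm_num) m
  have hm0 : (0 : ℝ) < m := by exact_mod_cast hm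
  have h2 : (m : ℝ) ≤ (2 : ℝ) ^ (Nat.log 2 m + 1) := by exact_mod_cast h1.le
  have h3 : Real.log m ≤ ((Nat.log 2 m + 1 : ℕ) : ℝ) * Real.log 2 := by
    have := Real.log_le_log hm0 h2
    rwa [Real.log_pow] at this
  have h4 : Real.log 2 ≤ 1 := by
    have := Real.log_two_lt_d9
    linarith
  have h5 : (0 : ℝ) ≤ ((Nat.log 2 m + 1 : ℕ) : ℝ) := by positivity
  unfold lg
  push_cast at h3 h5
  nlinarith

lemma SSt_Ext {m : ℕ} {w : List Bool} (hw : w ∈ SSt m) : w ∈ SA ∧ Ext m w := by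
  refine ⟨hw.mono (Set.subset_univ _), 0, fun i h1 h2 => ?_⟩
  have h3 := (mem_SSt.1 hw).1 i h1 h2
  have h4 := SSt_top hw h2
  push_cast
  constructor <;> omega

/-- polynomial bound -/
theorem HH_poly : ∃ A B : ℝ, 1 ≤ A ∧ 0 ≤ B ∧ ∀ m : ℕ, 1 ≤ m → HH m ≤ ENNReal.ofReal (A * (m : ℝ) ^ B) := by
  obtain ⟨L1, hL1⟩ := lat_small (η := 1 / 2) (by norm_num) (by norm_num)
  obtain ⟨C', hC', hpoly⟩ := SAL_poly
  obtain ⟨Q, hQ⟩ : ∃ Q : ℝ, Q = (100 * (4 ^ L1 * 16)) ^ C' * C' := ⟨_, rfl⟩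
  have hQ0 : 0 < Q := by rw [hQ]; positivity
  refine ⟨Q + 1, 4 * C', by linarith, by positivity, fun m hm => ?_⟩
  have hm1 : (1 : ℝ) ≤ m := by exact_mod_cast hm
  obtain ⟨n, hn⟩ : ∃ n, n = Nat.log 2 m := ⟨_, rfl⟩
  obtain ⟨L, hL⟩ : ∃ L, L = L1 + 2 * (n + 1) := ⟨_, rfl⟩
  have h1 : m < 2 ^ (n + 1) := hn ▸ Nat.lt_pow_succ_log_self (by norm_num) m
  have h2 : 2 ^ n ≤ m := hn ▸ Nat.pow_log_le_self 2 (by omega)
  have h3 : (m : ℝ) ≤ (2 : ℝ) ^ ((1 - 1 / 2 : ℝ) * L) := by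
    have e1 : (m : ℝ) ≤ (2 : ℝ) ^ ((n + 1 : ℕ) : ℝ) := by
      rw [Real.rpow_natCast]
      exact_mod_cast h1.le
    refine e1.trans (Real.rpow_le_rpow_of_exponent_le (by norm_num) ?_)
    rw [hL]
    push_cast
    have : (0 : ℝ) ≤ L1 := Nat.cast_nonneg _
    linarith
  have h4 := hL1 L (by omega) m h3
  have hsub : SSt m ⊆ {t | t ∈ SA ∧ Ext m t ∧ t ∉ WL L} ∪ SAL (100 * 4 ^ L) := by
    intro w hw
    obtain ⟨e1, e2⟩ := SSt_Ext hw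
    by_cases h5 : w ∈ WL L
    · exact Or.inr ⟨e1, WL_length h5⟩
    · exact Or.inl ⟨e1, e2, h5⟩
  have h5 := hpoly (100 * 4 ^ L) (by
    have : 1 ≤ 4 ^ L := Nat.one_le_pow _ _ (by norm_num)
    omega)
  have h6 : ((100 * 4 ^ L : ℕ) : ℝ) ^ C' * C' ≤ Q * (m : ℝ) ^ (4 * C') := by
    have e1 : ((100 * 4 ^ L : ℕ) : ℝ) ≤ 100 * (4 ^ L1 * 16) * (m : ℝ) ^ (4 : ℝ) := by
      have e2 : (4 : ℝ) ^ L = 4 ^ L1 * 16 * ((2 : ℝ) ^ n) ^ 4 := by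
        rw [hL, pow_add, ← pow_mul, show (4 : ℝ) = 2 ^ 2 by norm_num, ← pow_mul, ← pow_mul]
        rw [show (16 : ℝ) = 2 ^ 4 by norm_num, mul_assoc, ← pow_add]
        congr 2
        ring
      have e3 : ((2 : ℝ) ^ n) ^ 4 ≤ (m : ℝ) ^ 4 := by
        apply pow_le_pow_left₀ (by positivity)
        exact_mod_cast h2
      have e4 : (m : ℝ) ^ (4 : ℝ) = (m : ℝ) ^ 4 := by
        rw [← Real.rpow_natCast]
        norm_num
      push_cast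
      rw [e4, e2]
      have e5 : (0 : ℝ) ≤ 100 * (4 ^ L1 * 16) := by positivity
      nlinarith
    have e2 : ((100 * 4 ^ L : ℕ) : ℝ) ^ C' ≤ (100 * (4 ^ L1 * 16) * (m : ℝ) ^ (4 : ℝ)) ^ C' :=
      Real.rpow_le_rpow (by positivity) e1 hC'.le
    rw [Real.mul_rpow (by positivity) (by positivity), ← Real.rpow_mul (by positivity)] at e2
    calc ((100 * 4 ^ L : ℕ) : ℝ) ^ C' * C' ≤ ((100 * (4 ^ L1 * 16)) ^ C' * (m : ℝ) ^ (4 * C')) * C' :=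
          mul_le_mul_of_nonneg_right e2 hC'.le
      _ = Q * (m : ℝ) ^ (4 * C') := by
          rw [hQ]
          ring
  have h7 : 1 ≤ (m : ℝ) ^ (4 * C') := Real.one_le_rpow hm1 (by positivity)
  calc HH m ≤ 1 + ENNReal.ofReal (Q * (m : ℝ) ^ (4 * C')) :=
        (gf_mono hsub).trans ((gf_union_le _ _).trans (add_le_add h4 (h5.trans (ENNReal.ofReal_le_ofReal h6))))
    _ = ENNReal.ofReal (1 + Q * (m : ℝ) ^ (4 * C')) := by
        rw [ENNReal.ofReal_add (by norm_num) (by positivity), ENNReal.ofReal_one]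
    _ ≤ _ := ENNReal.ofReal_le_ofReal (by nlinarith)

/-- words with many cuts -/
lemma MC_small {C A : ℝ} {m K : ℕ} (hC : 1 ≤ C) (hK : ((m : ℝ) + 1) ^ (-(3 / 4 : ℝ)) / C ≤ KK' (m + 1)) (hA : 0 ≤ A)
    (h : C * ((m : ℝ) + 1) ^ (3 / 4 : ℝ) * A ≤ K + 1) :
    gf (MC m (K + 1)) ≤ ENNReal.ofReal (Real.exp (-A)) * HH m := by
  have hm : (0 : ℝ) < (m : ℝ) + 1 := by positivity
  refine (gf_MC m (K + 1)).trans (mul_le_mul' (ENNReal.ofReal_le_ofReal ?_) le_rfl)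
  have hk0 : 0 ≤ 1 - KK' (m + 1) := by linarith [KK_le_one (m + 1)]
  have e1 : 1 - KK' (m + 1) ≤ Real.exp (-(KK' (m + 1))) := by
    have := Real.add_one_le_exp (-(KK' (m + 1)))
    linarith
  have e2 : A ≤ KK' (m + 1) * ((K + 1 : ℕ) : ℝ) := by
    have e3 : ((m : ℝ) + 1) ^ (-(3 / 4 : ℝ)) / C * (C * ((m : ℝ) + 1) ^ (3 / 4 : ℝ) * A) = A := by
      rw [Real.rpow_neg hm.le]
      field_simp
    rw [← e3]
    refine mul_le_mul hK ?_ (by positivity) (KK_nonneg _)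
    push_cast
    exact h
  calc (1 - KK' (m + 1)) ^ (K + 1) ≤ (Real.exp (-(KK' (m + 1)))) ^ (K + 1) := pow_le_pow_left₀ hk0 e1 _
    _ = Real.exp (-(KK' (m + 1) * ((K + 1 : ℕ) : ℝ))) := by
        rw [← Real.exp_nat_mul]
        congr 1
        ring
    _ ≤ Real.exp (-A) := Real.exp_le_exp.2 (by linarith)

/-- the bridges of at least 2 m rows and at most 4 m rows -/
lemma sum_BT_low : ∃ c : ℝ, 0 < c ∧ ∀ m : ℕ, 1 ≤ m →
    ENNReal.ofReal (c * (m : ℝ) ^ (3 / 4 : ℝ)) ≤ ∑ r ∈ Icc (2 * m) (4 * m), BT r := by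
  obtain ⟨C, hC, h⟩ := Pool.Agent.EXL.bridge_exponent
  refine ⟨2 * (4 : ℝ) ^ (-(1 / 4) : ℝ) / C, by positivity, fun m hm => ?_⟩
  have hm0 : (0 : ℝ) < m := by exact_mod_cast hm
  have h1 := (h (4 * m) (by omega)).1
  rw [← uu_eq (by omega)] at h1
  have h2 : ∀ r ∈ Icc (2 * m) (4 * m), ENNReal.ofReal (uu (4 * m)) ≤ BT r := by
    intro r hr
    rw [CuLogAux.bt_eq r]
    exact ENNReal.ofReal_le_ofReal (uu_anti (mem_Icc.1 hr).2)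
  refine le_trans ?_ (Finset.sum_le_sum h2)
  rw [Finset.sum_const, Nat.card_Icc, nsmul_eq_mul, ← ENNReal.ofReal_natCast, ← ENNReal.ofReal_mul (by positivity)]
  apply ENNReal.ofReal_le_ofReal
  have h3 : (2 : ℝ) * m ≤ ((4 * m + 1 - 2 * m : ℕ) : ℝ) := by
    have : 2 * m ≤ 4 * m + 1 - 2 * m := by omega
    exact_mod_cast this
  have h4 : ((4 * m : ℕ) : ℝ) ^ (-(1 / 4) : ℝ) = (4 : ℝ) ^ (-(1 / 4) : ℝ) * (m : ℝ) ^ (-(1 / 4) : ℝ) := by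
    push_cast
    exact Real.mul_rpow (by norm_num) hm0.le
  have h5 : (m : ℝ) ^ (3 / 4 : ℝ) = m * (m : ℝ) ^ (-(1 / 4) : ℝ) := by
    have e : (3 / 4 : ℝ) = 1 + (-(1 / 4) : ℝ) := by norm_num
    rw [e, Real.rpow_add hm0, Real.rpow_one]
  rw [h4] at h1
  calc 2 * (4 : ℝ) ^ (-(1 / 4) : ℝ) / C * (m : ℝ) ^ (3 / 4 : ℝ) =
      2 * m * ((4 : ℝ) ^ (-(1 / 4) : ℝ) * (m : ℝ) ^ (-(1 / 4) : ℝ) / C) := by
        rw [h5]
        ring
    _ ≤ ((4 * m + 1 - 2 * m : ℕ) : ℝ) * uu (4 * m) := by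
        apply mul_le_mul h3 h1 (by positivity) (by positivity)

/-- the scale of the lateral box -/
lemma scale_ex (K : ℕ) : ∃ q : ℕ, ∀ m : ℕ, 1 ≤ m → ∃ L : ℕ, K * (L + 1) * (5 * m + 1) ≤ 2 ^ L ∧
    2 ^ L ≤ 2 ^ (q + 1) * (m * (Nat.log 2 m + 1)) := by
  obtain ⟨q, hq⟩ : ∃ q : ℕ, 6 * K * (q + 5) ≤ 2 ^ q := by
    obtain ⟨s, hs⟩ : ∃ s, s = 6 * K + 5 := ⟨_, rfl⟩
    refine ⟨4 * s, ?_⟩
    have h1 : s < 2 ^ s := Nat.lt_two_pow_self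
    have h2 : 2 ^ (4 * s) = 2 ^ s * 2 ^ s * 2 ^ s * 2 ^ s := by
      rw [← pow_add, ← pow_add, ← pow_add]
      congr 1
      ring
    rw [h2]
    have h3 : 6 * K ≤ 2 ^ s := by omega
    have h4 : 4 * s + 5 ≤ 2 ^ s * 2 ^ s * 2 ^ s := by
      have h5 : 5 ≤ s := by omega
      have h6 : s * s * s ≤ 2 ^ s * 2 ^ s * 2 ^ s := by gcongr
      nlinarith
    calc 6 * K * (4 * s + 5) ≤ 2 ^ s * (2 ^ s * 2 ^ s * 2 ^ s) := Nat.mul_le_mul h3 h4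
      _ = _ := by ring
  refine ⟨q, fun m hm => ?_⟩
  obtain ⟨n0, hn0⟩ : ∃ n0, n0 = Nat.log 2 m + 1 := ⟨_, rfl⟩
  obtain ⟨P, hP⟩ : ∃ P, P = m * n0 := ⟨_, rfl⟩
  have hP1 : 1 ≤ P := by
    rw [hP, hn0]
    exact Nat.one_le_iff_ne_zero.2 (Nat.mul_ne_zero (by omega) (by omega))
  have h1 : P < 2 ^ (Nat.log 2 P + 1) := Nat.lt_pow_succ_log_self (by norm_num) P
  have h2 : 2 ^ Nat.log 2 P ≤ P := Nat.pow_log_le_self 2 (by omega)
  have h3 : Nat.log 2 P ≤ 2 * n0 := by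
    have h4 : m < 2 ^ n0 := by
      rw [hn0]
      exact Nat.lt_pow_succ_log_self (by norm_num) m
    have h5 : n0 < 2 ^ n0 := Nat.lt_two_pow_self
    have h6 : P < 2 ^ (2 * n0) := by
      rw [hP, two_mul, pow_add]
      exact Nat.mul_lt_mul'' h4 h5
    exact (Nat.log_lt_of_lt_pow (by omega) h6).le
  refine ⟨q + (Nat.log 2 P + 1), ?_, ?_⟩
  · rw [pow_add]
    have h4 : q + (Nat.log 2 P + 1) + 1 ≤ (q + 5) * n0 := by
      have : 1 ≤ n0 := by omega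
      nlinarith
    calc K * (q + (Nat.log 2 P + 1) + 1) * (5 * m + 1) ≤ K * ((q + 5) * n0) * (6 * m) := by
          gcongr
          omega
      _ = 6 * K * (q + 5) * P := by
          rw [hP]
          ring
      _ ≤ 2 ^ q * 2 ^ (Nat.log 2 P + 1) := Nat.mul_le_mul hq h1.le
  · rw [← hn0, ← hP, pow_add, pow_succ, pow_succ]
    have : 2 ^ q * (2 ^ Nat.log 2 P * 2) ≤ 2 ^ q * (P * 2) := by gcongr
    calc 2 ^ q * (2 ^ Nat.log 2 P * 2) ≤ 2 ^ q * (P * 2) := this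
      _ = 2 ^ q * 2 * P := by ring

lemma col_le {L : ℕ} {v : List Bool} (hv : v ∈ WL L) : |col v| ≤ ((3 * 2 ^ L + 2 : ℕ) : ℤ) := by
  have h1 := abs_le.1 (hv.2 v.length le_rfl false)
  have h2 := abs_le.1 (hv.2 v.length le_rfl true)
  unfold row at h1 h2
  rw [lvl_false_eq] at h1
  rw [lvl_true_eq] at h2
  unfold col
  rw [abs_le]
  push_cast
  constructor <;> omega

end BAR

end HexObs
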