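import Pool.Agent.BAR.ColE

/-!
BAR, columns, part F: the square of the weight of the half plane walks of at most m rows is at most log ^ 2 m times m ^ (7/4)
times the sum over 4 m ≤ k ≤ 10 m of the two point functions between mid-edges of the same column, k rows apart.
-/

set_option autoImplicit false

namespace HexObs

open Complex Finset ENNReal SDN

namespace BAR

lemma exp_seven : 640 * Real.exp (-7) ≤ 1 := by
  have h1 : (2.7 : ℝ) < Real.exp 1 := lt_trans (by norm_num) Real.exp_one_gt_d9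
  have h2 : Real.exp 7 = Real.exp 1 ^ 7 := by
    rw [← Real.exp_nat_mul]
    norm_num
  have h3 : (2.7 : ℝ) ^ 7 ≤ Real.exp 7 := by
    rw [h2]
    exact pow_le_pow_left₀ (by norm_num) h1.le 7
  have h4 : (640 : ℝ) ≤ Real.exp 7 := le_trans (by norm_num) h3
  rw [Real.exp_neg, ← div_eq_mul_inv, div_le_one (Real.exp_pos _)]
  exact h4

/-- the weight of VB is of the order of HH -/
theorem HH_le_VB {δ : Pt} (hδ : δ ∈ dF ∪ dR) : ∃ (C : ℝ), 0 < C ∧ ∀ m : ℕ, 1 ≤ m →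
    HH m ≤ 136 + ENNReal.ofReal C * gf (VB m δ) := by
  obtain ⟨C, hC, hKK⟩ := KK_low
  obtain ⟨c, hc, hB⟩ := sum_BT_low
  have hδu : δ ≠ up := by
    have : ∀ δ ∈ dF ∪ dR, δ ≠ up := by decide
    exact this δ hδ
  refine ⟨320 * (28 * C / c), by positivity, fun m hm => ?_⟩
  have hm0 : (0 : ℝ) < m := by exact_mod_cast hm
  have hm1 : (1 : ℝ) ≤ m := by exact_mod_cast hm
  obtain ⟨K0, hK0⟩ : ∃ K0 : ℕ, K0 = ⌊C * ((m : ℝ) + 1) ^ (3 / 4 : ℝ) * 7⌋₊ := ⟨_, rfl⟩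
  have hp0 : (0 : ℝ) ≤ C * ((m : ℝ) + 1) ^ (3 / 4 : ℝ) * 7 := by positivity
  have hK1 : C * ((m : ℝ) + 1) ^ (3 / 4 : ℝ) * 7 ≤ K0 + 1 := by
    rw [hK0]
    exact (Nat.lt_floor_add_one _).le
  have hK2 : (K0 : ℝ) + 1 ≤ 28 * C * (m : ℝ) ^ (3 / 4 : ℝ) := by
    have h1 : (K0 : ℝ) ≤ C * ((m : ℝ) + 1) ^ (3 / 4 : ℝ) * 7 := by
      rw [hK0]
      exact Nat.floor_le hp0
    have h2 : ((m : ℝ) + 1) ^ (3 / 4 : ℝ) ≤ 2 * (m : ℝ) ^ (3 / 4 : ℝ) := by
      calc ((m : ℝ) + 1) ^ (3 / 4 : ℝ) ≤ (2 * (m : ℝ)) ^ (3 / 4 : ℝ) :=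
            Real.rpow_le_rpow (by positivity) (by linarith) (by norm_num)
        _ = 2 ^ (3 / 4 : ℝ) * (m : ℝ) ^ (3 / 4 : ℝ) := Real.mul_rpow (by norm_num) hm0.le
        _ ≤ 2 ^ (1 : ℝ) * (m : ℝ) ^ (3 / 4 : ℝ) := by
            apply mul_le_mul_of_nonneg_right _ (by positivity)
            exact Real.rpow_le_rpow_of_exponent_le (by norm_num) (by norm_num)
        _ = _ := by rw [Real.rpow_one]
    have h3 : (1 : ℝ) ≤ (m : ℝ) ^ (3 / 4 : ℝ) := Real.one_le_rpow hm1 (by norm_num)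
    nlinarith
  have h1 := HH_le_SN m hδ
  have h2 : gf (SN m δ) ≤ gf (SDK m δ K0) + ENNReal.ofReal (Real.exp (-7)) * HH m :=
    (gf_mono (SD_sub m K0 hδu)).trans ((gf_union_le _ _).trans
      (add_le_add le_rfl (MC_small hC (hKK m) (by norm_num) hK1)))
  have h3 : ENNReal.ofReal (c * (m : ℝ) ^ (3 / 4 : ℝ)) * gf (SDK m δ K0) ≤
      ENNReal.ofReal (28 * C * (m : ℝ) ^ (3 / 4 : ℝ)) * gf (VB m δ) := by
    refine (mul_le_mul' (hB m hm) le_rfl).trans ((pre_le2 m K0 δ).trans ?_)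
    exact mul_le_mul' (ENNReal.ofReal_le_ofReal hK2) le_rfl
  have hfin : HH m ≠ ∞ := PLW.gf_SSt_fin m
  have hSfin : gf (SDK m δ K0) ≠ ∞ := ne_top_of_le_ne_top hfin (gf_mono fun w hw => TN_SSt hw.1)
  have hDfin : gf (SN m δ) ≠ ∞ := ne_top_of_le_ne_top hfin (gf_mono fun w hw => TN_SSt hw.1)
  have hVfin : gf (VB m δ) ≠ ∞ := ne_top_of_le_ne_top (PLW.gf_SSt_fin (5 * m)) (gf_mono fun w hw => TN_SSt hw.1)
  obtain ⟨h, hh⟩ : ∃ h : ℝ, h = (HH m).toReal := ⟨_, rfl⟩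
  obtain ⟨s, hs⟩ : ∃ s : ℝ, s = (gf (SDK m δ K0)).toReal := ⟨_, rfl⟩
  obtain ⟨d, hd⟩ : ∃ d : ℝ, d = (gf (SN m δ)).toReal := ⟨_, rfl⟩
  obtain ⟨v, hv⟩ : ∃ v : ℝ, v = (gf (VB m δ)).toReal := ⟨_, rfl⟩
  have h0 : 0 ≤ h := by rw [hh]; exact ENNReal.toReal_nonneg
  have s0 : 0 ≤ s := by rw [hs]; exact ENNReal.toReal_nonneg
  have d0 : 0 ≤ d := by rw [hd]; exact ENNReal.toReal_nonneg
  have v0 : 0 ≤ v := by rw [hv]; exact ENNReal.toReal_nonneg
  have eh : HH m = ENNReal.ofReal h := by rw [hh, ENNReal.ofReal_toReal hfin]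
  have es : gf (SDK m δ K0) = ENNReal.ofReal s := by rw [hs, ENNReal.ofReal_toReal hSfin]
  have ed : gf (SN m δ) = ENNReal.ofReal d := by rw [hd, ENNReal.ofReal_toReal hDfin]
  have ev : gf (VB m δ) = ENNReal.ofReal v := by rw [hv, ENNReal.ofReal_toReal hVfin]
  have e68 : (40 : ℝ≥0∞) = ENNReal.ofReal 40 := by norm_num
  have e160 : (20 : ℝ≥0∞) = ENNReal.ofReal 20 := by norm_num
  have e136 : (136 : ℝ≥0∞) = ENNReal.ofReal 136 := by norm_num
  rw [eh, ed, e68, e160, ← ENNReal.ofReal_mul (by norm_num), ← ENNReal.ofReal_add (by norm_num) (by positivity),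
    ENNReal.ofReal_le_ofReal_iff (by positivity)] at h1
  rw [ed, es, eh, ← ENNReal.ofReal_mul (by positivity), ← ENNReal.ofReal_add s0 (by positivity),
    ENNReal.ofReal_le_ofReal_iff (by positivity)] at h2
  rw [es, ev, ← ENNReal.ofReal_mul (by positivity), ← ENNReal.ofReal_mul (by positivity),
    ENNReal.ofReal_le_ofReal_iff (by positivity)] at h3
  have h4 : s ≤ 28 * C / c * v := by
    have hp : 0 < (m : ℝ) ^ (3 / 4 : ℝ) := by positivity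
    have h5 : c * s * (m : ℝ) ^ (3 / 4 : ℝ) ≤ 28 * C * v * (m : ℝ) ^ (3 / 4 : ℝ) := by nlinarith
    have h6 := le_of_mul_le_mul_right h5 hp
    rw [div_mul_eq_mul_div, le_div_iff₀ hc]
    linarith
  have h5 : Real.exp (-7) * h ≤ h / 640 := by
    have := mul_le_mul_of_nonneg_right exp_seven h0
    linarith
  rw [eh, ev, e136, ← ENNReal.ofReal_mul (by positivity), ← ENNReal.ofReal_add (by norm_num) (by positivity)]
  apply ENNReal.ofReal_le_ofReal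
  linarith

/-- MAIN THEOREM: half plane walks by the two point functions of a column -/
theorem HH_sq_le_CW {δ : Pt} (hδ : δ ∈ dF ∪ dR) : ∃ (C : ℝ) (m0 : ℕ), 0 < C ∧ ∀ m : ℕ, m0 ≤ m →
    HH m ^ 2 ≤ ENNReal.ofReal (C * lg m ^ 2 * (m : ℝ) ^ (7 / 4 : ℝ)) * ∑ k ∈ Icc (4 * m) (10 * m), gf (CW δ k) := by
  obtain ⟨CV, hCV, hV⟩ := HH_le_VB hδ
  obtain ⟨C, hC, hKK⟩ := KK_low
  obtain ⟨A, B, hA, hB, hpoly⟩ := HH_poly
  obtain ⟨KL, hKL⟩ := lat_log (Q := 1) one_pos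
  obtain ⟨q, hq⟩ := scale_ex KL
  obtain ⟨CU, hCU, hU⟩ := UU_low
  obtain ⟨R, hR⟩ : ∃ R : ℝ, R = Real.log A + B * 2 + B := ⟨_, rfl⟩
  have hlogA : 0 ≤ Real.log A := Real.log_nonneg hA
  have hR0 : 0 ≤ R := by rw [hR]; positivity
  obtain ⟨Q, hQ⟩ : ∃ Q : ℝ, Q = 2 * (136 + CV * 2) := ⟨_, rfl⟩
  have hQ0 : 0 < Q := by rw [hQ]; positivity
  obtain ⟨m1, hm1⟩ := exists_nat_ge ((CU * Q) ^ (4 / 3 : ℝ))
  refine ⟨(2 * CV) ^ 2 * (24 * 2 ^ (q + 1) + 10) * (2 * (6 ^ (3 / 4 : ℝ) * C * R) + 1), m1 + 1, by positivity,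
    fun m hm => ?_⟩
  have hmm : 1 ≤ m := by omega
  have hmR : (1 : ℝ) ≤ m := by exact_mod_cast hmm
  have hm0 : (0 : ℝ) < m := by linarith
  have hlg := lg_one m
  -- the number of cuts
  obtain ⟨K, hK⟩ : ∃ K : ℕ, K = ⌊C * (((5 * m : ℕ) : ℝ) + 1) ^ (3 / 4 : ℝ) * (R * lg m)⌋₊ := ⟨_, rfl⟩
  have hp0 : (0 : ℝ) ≤ C * (((5 * m : ℕ) : ℝ) + 1) ^ (3 / 4 : ℝ) * (R * lg m) := by positivity
  have hK1 : C * (((5 * m : ℕ) : ℝ) + 1) ^ (3 / 4 : ℝ) * (R * lg m) ≤ K + 1 := by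
    rw [hK]
    exact (Nat.lt_floor_add_one _).le
  have hK2 : 2 * (K : ℝ) + 1 ≤ (2 * (6 ^ (3 / 4 : ℝ) * C * R) + 1) * (lg m * (m : ℝ) ^ (3 / 4 : ℝ)) := by
    have h1 : (K : ℝ) ≤ C * (((5 * m : ℕ) : ℝ) + 1) ^ (3 / 4 : ℝ) * (R * lg m) := by
      rw [hK]
      exact Nat.floor_le hp0
    have h2 : (((5 * m : ℕ) : ℝ) + 1) ^ (3 / 4 : ℝ) ≤ 6 ^ (3 / 4 : ℝ) * (m : ℝ) ^ (3 / 4 : ℝ) := by
      rw [← Real.mul_rpow (by norm_num) hm0.le]
      apply Real.rpow_le_rpow (by positivity) _ (by norm_num)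
      push_cast
      linarith
    have h3 : (1 : ℝ) ≤ (m : ℝ) ^ (3 / 4 : ℝ) := Real.one_le_rpow hmR (by norm_num)
    have h4 : C * (((5 * m : ℕ) : ℝ) + 1) ^ (3 / 4 : ℝ) * (R * lg m) ≤
        C * (6 ^ (3 / 4 : ℝ) * (m : ℝ) ^ (3 / 4 : ℝ)) * (R * lg m) := by gcongr
    have h5 : 1 ≤ lg m * (m : ℝ) ^ (3 / 4 : ℝ) := by nlinarith
    calc 2 * (K : ℝ) + 1 ≤ 2 * (C * (6 ^ (3 / 4 : ℝ) * (m : ℝ) ^ (3 / 4 : ℝ)) * (R * lg m)) +
          lg m * (m : ℝ) ^ (3 / 4 : ℝ) := by linarith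
      _ = _ := by ring
  -- the box
  obtain ⟨L, hL1, hL2⟩ := hq m hmm
  have hX : ((4 * (3 * 2 ^ L + 2) + 2 : ℕ) : ℝ) ≤ (24 * 2 ^ (q + 1) + 10) * (lg m * m) := by
    have h1 : ((2 ^ L : ℕ) : ℝ) ≤ ((2 ^ (q + 1) * (m * (Nat.log 2 m + 1)) : ℕ) : ℝ) := by exact_mod_cast hL2
    push_cast at h1
    have h2 : lg m = (Nat.log 2 m : ℝ) + 1 := by
      unfold lg
      ring
    rw [← h2] at h1
    push_cast
    have h3 : 1 ≤ lg m * m := by nlinarith
    have h4 : (0 : ℝ) ≤ 2 ^ (q + 1) := by positivity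
    nlinarith
  -- tails
  obtain ⟨W, hW⟩ : ∃ W : Set (List Bool), W = {v | v ∈ VA m δ K ∧ v ∈ WL L} := ⟨_, rfl⟩
  have hsub : VB m δ ⊆ (W ∪ {t | t ∈ SA ∧ Ext (5 * m) t ∧ t ∉ WL L}) ∪ MC (5 * m) (K + 1) := by
    intro v hv
    rcases VB_sub m K δ hv with h | h
    · left
      by_cases h1 : v ∈ WL L
      · left
        rw [hW]
        exact ⟨h, h1⟩
      · right
        obtain ⟨e1, e2⟩ := SSt_Ext (TN_SSt h.1)
        exact ⟨e1, e2, h1⟩
    · exact Or.inr h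
  have ht1 : gf {t | t ∈ SA ∧ Ext (5 * m) t ∧ t ∉ WL L} ≤ 1 := by
    refine (hKL L (5 * m) hL1).trans ?_
    rw [← ENNReal.ofReal_one]
    apply ENNReal.ofReal_le_ofReal
    apply Real.rpow_le_one_of_one_le_of_nonpos (by norm_num)
    have : (0 : ℝ) ≤ L := Nat.cast_nonneg _
    linarith
  have ht2 : gf (MC (5 * m) (K + 1)) ≤ 1 := by
    refine (MC_small hC (hKK (5 * m)) (by positivity) hK1).trans ?_
    refine (mul_le_mul' le_rfl (hpoly (5 * m) (by omega))).trans ?_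
    rw [← ENNReal.ofReal_mul (by positivity), ← ENNReal.ofReal_one]
    apply ENNReal.ofReal_le_ofReal
    have h5m : (0 : ℝ) < ((5 * m : ℕ) : ℝ) := by positivity
    have h1 : A * ((5 * m : ℕ) : ℝ) ^ B = Real.exp (Real.log A + B * Real.log ((5 * m : ℕ) : ℝ)) := by
      rw [Real.exp_add, Real.exp_log (by linarith), Real.rpow_def_of_pos h5m, mul_comm B]
    rw [h1, ← Real.exp_add]
    apply Real.exp_le_one_iff.2
    have h2 : Real.log ((5 * m : ℕ) : ℝ) ≤ 2 + lg m := by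
      push_cast
      rw [Real.log_mul (by norm_num) hm0.ne']
      have h3 := log_le_lg hmm
      have h4 : Real.log 5 ≤ 2 := by
        have h5 : Real.log 5 ≤ Real.log ((2 : ℝ) ^ 2 * 2) := Real.log_le_log (by norm_num) (by norm_num)
        rw [Real.log_mul (by norm_num) (by norm_num), Real.log_pow] at h5
        have := Real.log_two_lt_d9
        push_cast at h5
        have h6 : Real.log 5 ≤ 3 * Real.log 2 := by linarith
        have h7 : Real.log 5 < Real.log 7.3 := Real.log_lt_log (by norm_num) (by norm_num)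
        have h8 : Real.log 7.3 ≤ 2 := by
          rw [Real.log_le_iff_le_exp (by norm_num)]
          have h9 : (2.71 : ℝ) < Real.exp 1 := lt_trans (by norm_num) Real.exp_one_gt_d9
          have h10 : Real.exp 2 = Real.exp 1 ^ 2 := by
            rw [← Real.exp_nat_mul]
            norm_num
          rw [h10]
          have h11 := pow_le_pow_left₀ (by norm_num) h9.le 2
          linarith
        linarith
      linarith
    have h3 : Real.log A + B * Real.log ((5 * m : ℕ) : ℝ) ≤ R * lg m := by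
      rw [hR]
      have h4 : B * Real.log ((5 * m : ℕ) : ℝ) ≤ B * (2 + lg m) := mul_le_mul_of_nonneg_left h2 hB
      have h5 : Real.log A ≤ Real.log A * lg m := by nlinarith
      have h6 : B * 2 ≤ B * 2 * lg m := by nlinarith [mul_nonneg hB (by norm_num : (0 : ℝ) ≤ 2)]
      nlinarith
    linarith
  have hVW : gf (VB m δ) ≤ gf W + 2 := by
    refine (gf_mono hsub).trans ((gf_union_le _ _).trans ((add_le_add (gf_union_le _ _) le_rfl).trans ?_))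
    calc gf W + gf {t | t ∈ SA ∧ Ext (5 * m) t ∧ t ∉ WL L} + gf (MC (5 * m) (K + 1)) ≤ gf W + 1 + 1 :=
          add_le_add (add_le_add le_rfl ht1) ht2
      _ = gf W + 2 := by
          rw [add_assoc]
          norm_num
  -- large m
  have hfin : HH m ≠ ∞ := PLW.gf_SSt_fin m
  have hWfin : gf W ≠ ∞ := ne_top_of_le_ne_top (PLW.gf_SSt_fin (5 * m)) (gf_mono fun w hw => by
    rw [hW] at hw
    exact TN_SSt hw.1.1)
  have hHW : HH m ≤ ENNReal.ofReal (2 * CV) * gf W := by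
    have h1 : HH m ≤ 136 + ENNReal.ofReal CV * (gf W + 2) :=
      (hV m hmm).trans (add_le_add le_rfl (mul_le_mul' le_rfl hVW))
    have h2 : ENNReal.ofReal Q ≤ HH m := by
      refine le_trans (ENNReal.ofReal_le_ofReal ?_) (UU_le_HH m)
      have h3 := hU m
      have h4 : (CU * Q) ^ (4 / 3 : ℝ) ≤ (m : ℝ) + 1 := by
        refine hm1.trans ?_
        have : (m1 : ℝ) ≤ m := by exact_mod_cast (by omega : m1 ≤ m)
        linarith
      have h5 : CU * Q ≤ ((m : ℝ) + 1) ^ (3 / 4 : ℝ) := by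
        have h6 := Real.rpow_le_rpow (by positivity) h4 (by norm_num : (0 : ℝ) ≤ 3 / 4)
        rw [← Real.rpow_mul (by positivity)] at h6
        have e : (4 / 3 : ℝ) * (3 / 4) = 1 := by norm_num
        rw [e, Real.rpow_one] at h6
        exact h6
      have h6 : CU * Q ≤ CU * UU m := h5.trans h3
      exact le_of_mul_le_mul_left h6 (by linarith)
    obtain ⟨h, hh⟩ : ∃ h : ℝ, h = (HH m).toReal := ⟨_, rfl⟩
    obtain ⟨w, hw⟩ : ∃ w : ℝ, w = (gf W).toReal := ⟨_, rfl⟩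
    have h0 : 0 ≤ h := by rw [hh]; exact ENNReal.toReal_nonneg
    have w0 : 0 ≤ w := by rw [hw]; exact ENNReal.toReal_nonneg
    have eh : HH m = ENNReal.ofReal h := by rw [hh, ENNReal.ofReal_toReal hfin]
    have ew : gf W = ENNReal.ofReal w := by rw [hw, ENNReal.ofReal_toReal hWfin]
    have e136 : (136 : ℝ≥0∞) = ENNReal.ofReal 136 := by norm_num
    have e2 : (2 : ℝ≥0∞) = ENNReal.ofReal 2 := by norm_num
    rw [eh, ew, e136, e2, ← ENNReal.ofReal_add w0 (by norm_num), ← ENNReal.ofReal_mul hCV.le,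
      ← ENNReal.ofReal_add (by norm_num) (by positivity), ENNReal.ofReal_le_ofReal_iff (by positivity)] at h1
    rw [eh, ENNReal.ofReal_le_ofReal_iff h0, hQ] at h2
    rw [eh, ew, ← ENNReal.ofReal_mul (by positivity)]
    apply ENNReal.ofReal_le_ofReal
    nlinarith
  -- the pairs
  have hcol : ∀ v ∈ W, |col v| ≤ ((3 * 2 ^ L + 2 : ℕ) : ℤ) := by
    intro v hv
    rw [hW] at hv
    exact col_le hv.2
  have hsq := sq_le_PA hcol
  have hδi : ip δ up ≤ 1 := by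
    have : ∀ δ ∈ dF ∪ dR, ip δ up ≤ 1 := by decide
    exact this δ hδ
  have hpa := PA_le (m := m) (K := K) hδi (S := W) (by
    rw [hW]
    exact fun v hv => hv.1)
  obtain ⟨SG, hS⟩ : ∃ SG : ℝ≥0∞, SG = ∑ k ∈ Icc (4 * m) (10 * m), gf (CW δ k) := ⟨_, rfl⟩
  rw [← hS] at hpa ⊢
  calc HH m ^ 2 ≤ (ENNReal.ofReal (2 * CV) * gf W) ^ 2 := pow_le_pow_left' hHW 2
    _ = ENNReal.ofReal ((2 * CV) ^ 2) * gf W ^ 2 := by
        rw [mul_pow, ENNReal.ofReal_pow (by positivity)]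
    _ ≤ ENNReal.ofReal ((2 * CV) ^ 2) * (((4 * (3 * 2 ^ L + 2) + 2 : ℕ) : ℝ≥0∞) *
        (((2 * K + 1 : ℕ) : ℝ≥0∞) * SG)) := by
        gcongr
        exact hsq.trans (mul_le_mul' le_rfl hpa)
    _ = ENNReal.ofReal ((2 * CV) ^ 2 * ((4 * (3 * 2 ^ L + 2) + 2 : ℕ) : ℝ) * ((2 * K + 1 : ℕ) : ℝ)) * SG := by
        rw [ENNReal.ofReal_mul (by positivity), ENNReal.ofReal_mul (by positivity), ENNReal.ofReal_natCast,
          ENNReal.ofReal_natCast]
        ring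
    _ ≤ _ := by
        refine mul_le_mul' (ENNReal.ofReal_le_ofReal ?_) le_rfl
        have e1 : (m : ℝ) ^ (7 / 4 : ℝ) = m * (m : ℝ) ^ (3 / 4 : ℝ) := by
          have e : (7 / 4 : ℝ) = 1 + 3 / 4 := by norm_num
          rw [e, Real.rpow_add hm0, Real.rpow_one]
        have hK3 : ((2 * K + 1 : ℕ) : ℝ) ≤ (2 * (6 ^ (3 / 4 : ℝ) * C * R) + 1) * (lg m * (m : ℝ) ^ (3 / 4 : ℝ)) := by
          push_cast
          exact hK2
        calc (2 * CV) ^ 2 * ((4 * (3 * 2 ^ L + 2) + 2 : ℕ) : ℝ) * ((2 * K + 1 : ℕ) : ℝ) ≤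
            (2 * CV) ^ 2 * ((24 * 2 ^ (q + 1) + 10) * (lg m * m)) *
              ((2 * (6 ^ (3 / 4 : ℝ) * C * R) + 1) * (lg m * (m : ℝ) ^ (3 / 4 : ℝ))) := by
              gcongr
          _ = _ := by
              rw [e1]
              ring

end BAR

end HexObs
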