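import Pool.Agent.BAR.ColF

/-!
BAR, columns, part G: a power bound of the two point function of a column gives a power bound of the weight of the half plane
walks (unfolded form of HUp of BAR/Glue).
-/

set_option autoImplicit false

namespace HexObs

open Complex Finset ENNReal SDN

namespace BAR

lemma lg_sq_pow {ε : ℝ} (hε : 0 < ε) : ∃ K : ℝ, 0 < K ∧ ∀ m : ℕ, 1 ≤ m → lg m ^ 2 ≤ K * (m : ℝ) ^ ε := by
  obtain ⟨s, hs⟩ : ∃ s, s = ε / 2 := ⟨_, rfl⟩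
  have hs0 : 0 < s := by rw [hs]; positivity
  have hl2 : 0 < Real.log 2 := Real.log_pos (by norm_num)
  refine ⟨(1 + 1 / (s * Real.log 2)) ^ 2, by positivity, fun m hm => ?_⟩
  have hm1 : (1 : ℝ) ≤ m := by exact_mod_cast hm
  have hm0 : (0 : ℝ) < m := by linarith
  have h1 : lg m ≤ 1 + Real.log m / Real.log 2 := by
    unfold lg
    have h2 : (Nat.log 2 m : ℝ) ≤ Real.logb 2 (m : ℝ) := Real.natLog_le_logb _ _
    unfold Real.logb at h2
    linarith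
  have h4 : Real.log m ≤ (m : ℝ) ^ s / s := Real.log_le_rpow_div hm0.le hs0
  have h5 : 1 ≤ (m : ℝ) ^ s := Real.one_le_rpow hm1 hs0.le
  have h6 : lg m ≤ (1 + 1 / (s * Real.log 2)) * (m : ℝ) ^ s := by
    refine h1.trans ?_
    have h7 : Real.log m / Real.log 2 ≤ (m : ℝ) ^ s / s / Real.log 2 := by gcongr
    have h8 : (1 + 1 / (s * Real.log 2)) * (m : ℝ) ^ s = (m : ℝ) ^ s + (m : ℝ) ^ s / s / Real.log 2 := by
      field_simp
    rw [h8]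
    linarith
  have h9 : 0 ≤ lg m := by linarith [lg_one m]
  calc lg m ^ 2 ≤ ((1 + 1 / (s * Real.log 2)) * (m : ℝ) ^ s) ^ 2 := pow_le_pow_left₀ h9 h6 2
    _ = (1 + 1 / (s * Real.log 2)) ^ 2 * (m : ℝ) ^ ε := by
        rw [mul_pow, ← Real.rpow_natCast ((m : ℝ) ^ s), ← Real.rpow_mul hm0.le, hs]
        congr 2
        push_cast
        ring

lemma rpow_window {s : ℝ} {m k : ℕ} (hm : 1 ≤ m) (h1 : 4 * m ≤ k) (h2 : k ≤ 10 * m) :
    (k : ℝ) ^ s ≤ (10 : ℝ) ^ |s| * (m : ℝ) ^ s := by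
  have hm0 : (0 : ℝ) < m := by exact_mod_cast hm
  have hk1 : 4 * (m : ℝ) ≤ k := by exact_mod_cast h1
  have hk2 : (k : ℝ) ≤ 10 * m := by exact_mod_cast h2
  obtain ⟨x, hx⟩ : ∃ x : ℝ, x = k / m := ⟨_, rfl⟩
  have hx1 : 1 ≤ x := by
    rw [hx, le_div_iff₀ hm0]
    linarith
  have hx2 : x ≤ 10 := by
    rw [hx, div_le_iff₀ hm0]
    exact hk2
  have hk : (k : ℝ) = x * m := by
    rw [hx]
    field_simp
  rw [hk, Real.mul_rpow (by linarith) hm0.le]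
  apply mul_le_mul_of_nonneg_right _ (by positivity)
  calc x ^ s ≤ x ^ |s| := Real.rpow_le_rpow_of_exponent_le hx1 (le_abs_self s)
    _ ≤ 10 ^ |s| := Real.rpow_le_rpow (by linarith) hx2 (abs_nonneg s)

/-- a power bound of the two point function of a column bounds the half plane walks -/
theorem HH_le_of_CW {δ : Pt} (hδ : δ ∈ dF ∪ dR) {b : ℝ} (hb : b ≤ 11 / 4)
    (H : ∀ ε : ℝ, 0 < ε → ∃ (A : ℝ) (k0 : ℕ), ∀ k : ℕ, k0 ≤ k → gf (CW δ k) ≤ ENNReal.ofReal (A * (k : ℝ) ^ (-b + ε))) :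
    ∀ ε : ℝ, 0 < ε → ∃ A : ℝ, ∀ n : ℕ, 1 ≤ n → HH n ≤ ENNReal.ofReal (A * (n : ℝ) ^ ((11 / 4 - b) / 2 + ε)) := by
  intro ε hε
  obtain ⟨C, m0, hC, hmain⟩ := HH_sq_le_CW hδ
  obtain ⟨A0, k0, hA0⟩ := H ε hε
  obtain ⟨K, hK, hlg⟩ := lg_sq_pow hε
  obtain ⟨A, hA⟩ : ∃ A, A = max A0 1 := ⟨_, rfl⟩
  have hA1 : 1 ≤ A := by rw [hA]; exact le_max_right _ _
  obtain ⟨s, hs⟩ : ∃ s, s = -b + ε := ⟨_, rfl⟩
  obtain ⟨P, hP⟩ : ∃ P, P = C * K * (7 * (A * 10 ^ |s|)) := ⟨_, rfl⟩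
  have hP0 : 0 < P := by rw [hP]; positivity
  obtain ⟨n0, hn0⟩ : ∃ n0 : ℕ, n0 = m0 + k0 + 1 := ⟨_, rfl⟩
  have hfin : ∀ m, HH m ≠ ∞ := PLW.gf_SSt_fin
  refine ⟨Real.sqrt P + (HH n0).toReal, fun n hn => ?_⟩
  have hnR : (1 : ℝ) ≤ n := by exact_mod_cast hn
  have hn0R : (0 : ℝ) < n := by linarith
  have hexp : 1 ≤ (n : ℝ) ^ ((11 / 4 - b) / 2 + ε) := Real.one_le_rpow hnR (by linarith)
  have hq0 : 0 ≤ (HH n0).toReal := ENNReal.toReal_nonneg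
  rcases Nat.lt_or_ge n n0 with h | h
  · calc HH n ≤ HH n0 := HH_mono h.le
      _ = ENNReal.ofReal (HH n0).toReal := (ENNReal.ofReal_toReal (hfin n0)).symm
      _ ≤ _ := by
        apply ENNReal.ofReal_le_ofReal
        have := Real.sqrt_nonneg P
        nlinarith
  · have h1 := hmain n (by omega)
    have h2 : ∑ k ∈ Icc (4 * n) (10 * n), gf (CW δ k) ≤ ENNReal.ofReal (7 * (A * 10 ^ |s|) * ((n : ℝ) * (n : ℝ) ^ s)) := by
      have h3 : ∀ k ∈ Icc (4 * n) (10 * n), gf (CW δ k) ≤ ENNReal.ofReal (A * (10 ^ |s| * (n : ℝ) ^ s)) := by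
        intro k hk
        rw [mem_Icc] at hk
        refine (hA0 k (by omega)).trans (ENNReal.ofReal_le_ofReal ?_)
        rw [← hs]
        have h4 := rpow_window (s := s) hn hk.1 hk.2
        calc A0 * (k : ℝ) ^ s ≤ A * (k : ℝ) ^ s :=
              mul_le_mul_of_nonneg_right (by rw [hA]; exact le_max_left _ _) (by positivity)
          _ ≤ _ := mul_le_mul_of_nonneg_left h4 (by linarith)
      refine (Finset.sum_le_sum h3).trans ?_
      rw [Finset.sum_const, Nat.card_Icc, nsmul_eq_mul, ← ENNReal.ofReal_natCast, ← ENNReal.ofReal_mul (by positivity)]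
      apply ENNReal.ofReal_le_ofReal
      have h5 : ((10 * n + 1 - 4 * n : ℕ) : ℝ) ≤ 7 * n := by
        have : 10 * n + 1 - 4 * n ≤ 7 * n := by omega
        exact_mod_cast this
      calc ((10 * n + 1 - 4 * n : ℕ) : ℝ) * (A * (10 ^ |s| * (n : ℝ) ^ s)) ≤ 7 * n * (A * (10 ^ |s| * (n : ℝ) ^ s)) :=
            mul_le_mul_of_nonneg_right h5 (by positivity)
        _ = _ := by ring
    have h3 : HH n ^ 2 ≤ ENNReal.ofReal (P * ((n : ℝ) ^ ((11 / 4 - b) / 2 + ε)) ^ 2) := by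
      refine h1.trans ((mul_le_mul' le_rfl h2).trans ?_)
      rw [← ENNReal.ofReal_mul (by positivity)]
      apply ENNReal.ofReal_le_ofReal
      have h4 : ((n : ℝ) ^ ((11 / 4 - b) / 2 + ε)) ^ 2 = (n : ℝ) ^ ε * (n : ℝ) ^ (7 / 4 : ℝ) * ((n : ℝ) * (n : ℝ) ^ s) := by
        rw [← Real.rpow_natCast ((n : ℝ) ^ ((11 / 4 - b) / 2 + ε)), ← Real.rpow_mul hn0R.le]
        have e1 : (n : ℝ) * (n : ℝ) ^ s = (n : ℝ) ^ (1 + s) := by rw [Real.rpow_add hn0R, Real.rpow_one]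
        rw [e1, ← Real.rpow_add hn0R, ← Real.rpow_add hn0R, hs]
        congr 1
        push_cast
        ring
      rw [h4, hP]
      have h5 := hlg n hn
      calc C * lg n ^ 2 * (n : ℝ) ^ (7 / 4 : ℝ) * (7 * (A * 10 ^ |s|) * ((n : ℝ) * (n : ℝ) ^ s)) ≤
          C * (K * (n : ℝ) ^ ε) * (n : ℝ) ^ (7 / 4 : ℝ) * (7 * (A * 10 ^ |s|) * ((n : ℝ) * (n : ℝ) ^ s)) := by gcongr
        _ = _ := by ring
    obtain ⟨a, ha⟩ : ∃ a : ℝ, a = (HH n).toReal := ⟨_, rfl⟩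
    have ha0 : 0 ≤ a := by rw [ha]; exact ENNReal.toReal_nonneg
    have ea : HH n = ENNReal.ofReal a := by rw [ha, ENNReal.ofReal_toReal (hfin n)]
    rw [ea, ← ENNReal.ofReal_pow ha0, ENNReal.ofReal_le_ofReal_iff (by positivity)] at h3
    rw [ea]
    apply ENNReal.ofReal_le_ofReal
    have h4 : a ≤ Real.sqrt (P * ((n : ℝ) ^ ((11 / 4 - b) / 2 + ε)) ^ 2) := Real.le_sqrt_of_sq_le h3
    rw [Real.sqrt_mul hP0.le, Real.sqrt_sq (by positivity)] at h4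
    nlinarith

end BAR

end HexObs
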