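import Pool.Agent.BAR.SizeMain
import Pool.Agent.PHW.Dict

/-!
BAR, section 3, part G: the cumulative sums of a_k mu ^ (-k) and the assembly.
-/

set_option autoImplicit false

namespace HexObs

namespace BAR

open SDN T2 Filter

open scoped ENNReal Topology

/-- cumulative sums of the correction factor of the number of self-avoiding walks -/
noncomputable def cum (n : ℕ) : ℝ := ∑ k ∈ Finset.range (n + 1), (aB k : ℝ) / muB ^ k

lemma muB_eq : muB = 1 / xc := le_antisymm muB_le le_muB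

lemma SAL_zero : SAL 0 = SawN 0 := by
  ext t
  constructor
  · rintro ⟨h1, h2⟩
    exact ⟨by omega, h1⟩
  · rintro ⟨h1, h2⟩
    exact ⟨h2, by omega⟩

lemma SAL_succ (n : ℕ) : SAL (n + 1) = SAL n ∪ SawN (n + 1) := by
  ext t
  constructor
  · rintro ⟨h1, h2⟩
    rcases Nat.lt_or_ge n t.length with h3 | h3
    · exact Or.inr ⟨by omega, h1⟩
    · exact Or.inl ⟨h1, h3⟩
  · rintro (⟨h1, h2⟩ | ⟨h1, h2⟩)
    · exact ⟨h1, by omega⟩
    · exact ⟨h2, by omega⟩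

theorem gf_SAL (n : ℕ) : gf (SAL n) = ENNReal.ofReal (∑ k ∈ Finset.range (n + 1), (cS k : ℝ) * xc ^ k) := by
  have hx := xc_pos
  induction n with
  | zero => rw [SAL_zero, PHWDict.gf_SawN, Finset.sum_range_one]
  | succ n ih =>
    have hd : Disjoint (SAL n) (SawN (n + 1)) := by
      rw [Set.disjoint_left]
      rintro t ⟨_, h1⟩ ⟨h2, _⟩
      omega
    rw [SAL_succ, gf_union hd, ih, PHWDict.gf_SawN, Finset.sum_range_succ _ (n + 1),
      ENNReal.ofReal_add (Finset.sum_nonneg fun k _ => by positivity) (by positivity)]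

lemma cS_zero : cS 0 = 1 := by
  have h1 : SawN 0 = {([] : List Bool)} := by
    ext t
    rw [Set.mem_singleton_iff]
    constructor
    · rintro ⟨h1, _⟩
      exact List.length_eq_zero_iff.1 h1
    · rintro rfl
      refine ⟨rfl, fun _ _ _ => Set.mem_univ _, fun i k hik hk => ?_⟩
      simp only [List.length_nil] at hk
      omega
  unfold cS
  rw [h1, Set.ncard_singleton]

lemma aB_zero : aB 0 = 1 := by
  have h1 : {f : Fin (0 + 1) → ℤ × ℤ | f 0 = 0 ∧ Function.Injective f ∧ ∀ i : Fin 0, AdjB (f i.castSucc) (f i.succ)} =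
      {fun _ => 0} := by
    ext f
    rw [Set.mem_singleton_iff]
    constructor
    · rintro ⟨h, _, _⟩
      funext i
      have hi : i = 0 := by omega
      rw [hi, h]
    · rintro rfl
      refine ⟨rfl, fun i j _ => by omega, fun i => i.elim0⟩
  unfold aB
  rw [h1, Set.ncard_singleton]

lemma term_bounds (k : ℕ) : (cS k : ℝ) * xc ^ k ≤ (aB k : ℝ) / muB ^ k ∧
    (aB k : ℝ) / muB ^ k ≤ 3 / 2 * ((cS k : ℝ) * xc ^ k) := by
  have hx := xc_pos
  have e1 : (aB k : ℝ) / muB ^ k = (aB k : ℝ) * xc ^ k := by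
    rw [muB_eq, one_div, inv_pow, div_inv_eq_mul]
  have hxk : 0 < xc ^ k := pow_pos hx k
  rw [e1]
  rcases Nat.eq_zero_or_pos k with h0 | h0
  · subst h0
    rw [cS_zero, aB_zero]
    norm_num
  · have h1 : (2 : ℝ) * aB k = 3 * cS k := by exact_mod_cast aB_eq h0
    have h2 : (0 : ℝ) ≤ cS k := Nat.cast_nonneg _
    constructor <;> nlinarith

theorem gf_SAL_le_cum (n : ℕ) : gf (SAL n) ≤ ENNReal.ofReal (cum n) := by
  rw [gf_SAL]
  exact ENNReal.ofReal_le_ofReal (Finset.sum_le_sum fun k _ => (term_bounds k).1)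

theorem cum_le_gf_SAL (n : ℕ) : ENNReal.ofReal (cum n) ≤ ENNReal.ofReal (3 / 2) * gf (SAL n) := by
  rw [gf_SAL, ← ENNReal.ofReal_mul (by norm_num), Finset.mul_sum]
  exact ENNReal.ofReal_le_ofReal (Finset.sum_le_sum fun k _ => (term_bounds k).2)

lemma cum_ge_one (n : ℕ) : 1 ≤ cum n := by
  have h1 : ∀ k, (0 : ℝ) ≤ (aB k : ℝ) / muB ^ k := fun k => by
    have hx := xc_pos
    rw [muB_eq]
    positivity
  unfold cum
  calc (1 : ℝ) = (aB 0 : ℝ) / muB ^ 0 := by rw [aB_zero]; norm_num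
    _ ≤ _ := Finset.single_le_sum (f := fun k => (aB k : ℝ) / muB ^ k) (fun k _ => h1 k)
        (Finset.mem_range.2 (by omega))

lemma one_le_SAL (n : ℕ) : 1 ≤ gf (SAL n) := by
  have h1 : (({([] : List Bool)} : Finset (List Bool)) : Set (List Bool)) ⊆ SAL n := by
    intro t ht
    rw [Finset.mem_coe, Finset.mem_singleton] at ht
    subst ht
    refine ⟨⟨fun _ _ _ => Set.mem_univ _, fun i k hik hk => ?_⟩, by simp⟩
    simp only [List.length_nil] at hk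
    omega
  have h2 := gf_mono h1
  rwa [gf_finset, Finset.sum_singleton, List.length_nil, pow_zero, ENNReal.ofReal_one] at h2

/-- lower bound of the cumulative sums -/
theorem cum_lower {g a : ℝ} (hg : 0 < g) (ha : 1 ≤ a) (hM : ∀ a' : ℝ, a < a' → ∃ C : ℝ, 0 ≤ C ∧ MeanLen a' C)
    (h : ∀ ε : ℝ, 0 < ε → ∃ c : ℝ, 0 < c ∧ ∀ m : ℕ, 1 ≤ m → ENNReal.ofReal (c * (m : ℝ) ^ (g - ε)) ≤ Chi m)
    {δ : ℝ} (hδ : δ < g / a) : ∃ c : ℝ, 0 < c ∧ ∀ᶠ n : ℕ in atTop, c * (n : ℝ) ^ δ ≤ cum n := by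
  have ha0 : 0 < a := by linarith
  obtain ⟨δ', hδ'⟩ : ∃ δ', δ' = max δ 0 := ⟨_, rfl⟩
  have hd0 : 0 ≤ δ' := by rw [hδ']; exact le_max_right _ _
  have hdd : δ ≤ δ' := by rw [hδ']; exact le_max_left _ _
  have hd1 : δ' < g / a := by
    rw [hδ']
    exact max_lt hδ (by positivity)
  -- b > a with δ' b < g
  obtain ⟨b, hb1, hb2⟩ : ∃ b, a < b ∧ δ' * b < g := by
    rcases eq_or_lt_of_le hd0 with h0 | h0
    · exact ⟨a + 1, by linarith, by rw [← h0, zero_mul]; exact hg⟩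
    · have h1 : a < g / δ' := by
        rw [lt_div_iff₀ ha0] at hd1
        rw [lt_div_iff₀ h0]
        linarith
      obtain ⟨b, h2, h3⟩ := exists_between h1
      rw [lt_div_iff₀ h0] at h3
      exact ⟨b, h2, by linarith⟩
  have hb0 : 0 < b := by linarith
  obtain ⟨c, hc, hchi⟩ := h (g - δ' * b) (by linarith)
  rw [sub_sub_cancel] at hchi
  obtain ⟨m0, hm0⟩ := chi_sal ha hM hb1
  obtain ⟨n0, hn0⟩ := exists_nat_ge (((m0 : ℝ) + 2) ^ b)
  refine ⟨c / 3 * (1 / 2) ^ (δ' * b), by positivity, ?_⟩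
  filter_upwards [Filter.eventually_ge_atTop (n0 + 1)] with n hn
  have hnR : (1 : ℝ) ≤ n := by exact_mod_cast (by omega : 1 ≤ n)
  obtain ⟨x, hx⟩ : ∃ x, x = (n : ℝ) ^ (1 / b) := ⟨_, rfl⟩
  have hxb : x ^ b = n := by
    rw [hx, ← Real.rpow_mul (by linarith), one_div_mul_cancel hb0.ne', Real.rpow_one]
  have hx0 : 0 < x := by rw [hx]; positivity
  have hxm : (m0 : ℝ) + 2 ≤ x := by
    have h1 : ((m0 : ℝ) + 2) ^ b ≤ x ^ b := by
      rw [hxb]
      refine hn0.trans ?_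
      exact_mod_cast (by omega : n0 ≤ n)
    exact (Real.rpow_le_rpow_iff (by positivity) hx0.le hb0).1 h1
  obtain ⟨m, hm⟩ : ∃ m : ℕ, m = ⌊x⌋₊ := ⟨_, rfl⟩
  have hm1 : (m : ℝ) ≤ x := by rw [hm]; exact Nat.floor_le hx0.le
  have hm2 : x < m + 1 := by rw [hm]; exact Nat.lt_floor_add_one x
  have hm3 : m0 ≤ m := by
    have : (m0 : ℝ) ≤ m := by linarith
    exact_mod_cast this
  have hm4 : 1 ≤ m := by
    have h1 : (0 : ℝ) ≤ m0 := Nat.cast_nonneg _
    have : (1 : ℝ) ≤ m := by linarith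
    exact_mod_cast this
  have h1 := hchi m hm4
  have h2 := hm0 m hm3 n (by
    rw [← hxb]
    exact Real.rpow_le_rpow (Nat.cast_nonneg _) hm1 hb0.le)
  have h3 : gf (SAL n) + 2 ≤ 3 * gf (SAL n) := by
    have := one_le_SAL n
    calc gf (SAL n) + 2 = gf (SAL n) + 2 * 1 := by rw [mul_one]
      _ ≤ gf (SAL n) + 2 * gf (SAL n) := by gcongr
      _ = 3 * gf (SAL n) := by ring
  have h4 := (h1.trans h2).trans (h3.trans (mul_le_mul_right (gf_SAL_le_cum n) 3))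
  have h5 : c * (m : ℝ) ^ (δ' * b) ≤ 3 * cum n := by
    have hc1 := cum_ge_one n
    rw [show (3 : ℝ≥0∞) = ENNReal.ofReal 3 by norm_num, ← ENNReal.ofReal_mul (by norm_num)] at h4
    exact (ENNReal.ofReal_le_ofReal_iff (by linarith)).1 h4
  have h6 : 1 / 2 * x ≤ m := by
    have h7 : (0 : ℝ) ≤ m0 := Nat.cast_nonneg _
    linarith
  have h7 : (1 / 2 : ℝ) ^ (δ' * b) * (n : ℝ) ^ δ' ≤ (m : ℝ) ^ (δ' * b) := by
    have e1 : (n : ℝ) ^ δ' = x ^ (δ' * b) := by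
      rw [mul_comm δ' b, Real.rpow_mul hx0.le, hxb]
    rw [e1, ← Real.mul_rpow (by norm_num) hx0.le]
    exact Real.rpow_le_rpow (by positivity) h6 (by positivity)
  have h8 : (n : ℝ) ^ δ ≤ (n : ℝ) ^ δ' := Real.rpow_le_rpow_of_exponent_le hnR hdd
  calc c / 3 * (1 / 2) ^ (δ' * b) * (n : ℝ) ^ δ ≤ c / 3 * (1 / 2) ^ (δ' * b) * (n : ℝ) ^ δ' := by gcongr
    _ = c / 3 * ((1 / 2) ^ (δ' * b) * (n : ℝ) ^ δ') := by ring
    _ ≤ c / 3 * (m : ℝ) ^ (δ' * b) := by gcongr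
    _ ≤ cum n := by linarith

/-- upper bound of the cumulative sums -/
theorem cum_upper {g τ1 : ℝ} (hg : 0 < g) (hτ1 : 0 < τ1) (hL : LongWalks τ1)
    (h : ∀ ε : ℝ, 0 < ε → ∃ C : ℝ, ∀ m : ℕ, 1 ≤ m → Chi m ≤ ENNReal.ofReal (C * (m : ℝ) ^ (g + ε)))
    {δ : ℝ} (hδ : g / (1 + τ1) < δ) : ∃ C : ℝ, ∀ᶠ n : ℕ in atTop, cum n ≤ C * (n : ℝ) ^ δ := by
  have hτ0 : 0 < 1 + τ1 := by linarith
  have hδ0 : 0 < δ := lt_trans (by positivity) hδ
  obtain ⟨β, hβ1, hβ2⟩ : ∃ β, g / δ < β ∧ β < 1 + τ1 := by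
    apply exists_between
    rw [div_lt_iff₀ hδ0]
    rw [div_lt_iff₀ hτ0] at hδ
    linarith
  have hβ0 : 0 < β := lt_trans (by positivity) hβ1
  have hgβ : g < δ * β := by
    rw [div_lt_iff₀ hδ0] at hβ1
    linarith
  obtain ⟨C, hC⟩ := h (δ * β - g) (by linarith)
  rw [add_sub_cancel] at hC
  obtain ⟨n0, hn0⟩ := sal_chi hτ1 hL hβ0 hβ2
  refine ⟨3 / 2 * (|C| * 5 ^ (δ * β) + 1), ?_⟩
  filter_upwards [Filter.eventually_ge_atTop (n0 + 1)] with n hn
  have hnR : (1 : ℝ) ≤ n := by exact_mod_cast (by omega : 1 ≤ n)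
  obtain ⟨x, hx⟩ : ∃ x, x = (n : ℝ) ^ (1 / β) := ⟨_, rfl⟩
  have hxb : x ^ β = n := by
    rw [hx, ← Real.rpow_mul (by linarith), one_div_mul_cancel hβ0.ne', Real.rpow_one]
  have hx1 : 1 ≤ x := by rw [hx]; exact Real.one_le_rpow hnR (by positivity)
  obtain ⟨m, hm⟩ : ∃ m : ℕ, m = ⌈4 * x⌉₊ := ⟨_, rfl⟩
  have hm1 : 4 * x ≤ m := by rw [hm]; exact Nat.le_ceil _
  have hm2 : (m : ℝ) < 4 * x + 1 := by rw [hm]; exact Nat.ceil_lt_add_one (by positivity)
  have hm4 : 1 ≤ m := by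
    have : (1 : ℝ) ≤ m := by linarith
    exact_mod_cast this
  have h1 := hn0 n (by omega) m (by rw [← hx]; exact hm1)
  have h2 := hC m hm4
  have h3 : C * (m : ℝ) ^ (δ * β) ≤ |C| * 5 ^ (δ * β) * (n : ℝ) ^ δ := by
    have h4 : (m : ℝ) ^ (δ * β) ≤ (5 * x) ^ (δ * β) :=
      Real.rpow_le_rpow (Nat.cast_nonneg _) (by linarith) (by positivity)
    have h5 : (5 * x) ^ (δ * β) = 5 ^ (δ * β) * (n : ℝ) ^ δ := by
      have h5' : x ^ (δ * β) = (n : ℝ) ^ δ := by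
        rw [mul_comm δ β, Real.rpow_mul (by linarith) β δ, hxb]
      rw [Real.mul_rpow (by norm_num) (by linarith), h5']
    calc C * (m : ℝ) ^ (δ * β) ≤ |C| * (m : ℝ) ^ (δ * β) := by
          apply mul_le_mul_of_nonneg_right (le_abs_self C) (by positivity)
      _ ≤ |C| * (5 * x) ^ (δ * β) := mul_le_mul_of_nonneg_left h4 (abs_nonneg _)
      _ = _ := by rw [h5]; ring
  have hnd : (1 : ℝ) ≤ (n : ℝ) ^ δ := Real.one_le_rpow hnR hδ0.le
  have h6 : gf (SAL n) ≤ ENNReal.ofReal ((|C| * 5 ^ (δ * β) + 1) * (n : ℝ) ^ δ) := by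
    calc gf (SAL n) ≤ Chi m + 1 := h1
      _ ≤ ENNReal.ofReal (|C| * 5 ^ (δ * β) * (n : ℝ) ^ δ) + ENNReal.ofReal ((n : ℝ) ^ δ) := by
          refine add_le_add (h2.trans (ENNReal.ofReal_le_ofReal h3)) ?_
          rw [← ENNReal.ofReal_one]
          exact ENNReal.ofReal_le_ofReal hnd
      _ = _ := by
          rw [← ENNReal.ofReal_add (by positivity) (by positivity)]
          congr 1
          ring
  have h7 := (cum_le_gf_SAL n).trans (mul_le_mul_right h6 _)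
  rw [← ENNReal.ofReal_mul (by norm_num)] at h7
  have h8 := (ENNReal.ofReal_le_ofReal_iff (by positivity)).1 h7
  linarith

/-- two sided power bounds give the limit of the logarithms -/
theorem lim_of_bounds {f : ℕ → ℝ} {γ : ℝ} (hlow : ∀ δ : ℝ, δ < γ → ∃ c : ℝ, 0 < c ∧ ∀ᶠ n : ℕ in atTop, c * (n : ℝ) ^ δ ≤ f n)
    (hup : ∀ δ : ℝ, γ < δ → ∃ C : ℝ, ∀ᶠ n : ℕ in atTop, f n ≤ C * (n : ℝ) ^ δ) :
    Tendsto (fun n : ℕ => Real.log (f n) / Real.log n) atTop (𝓝 γ) := by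
  have hlog : Tendsto (fun n : ℕ => Real.log (n : ℝ)) atTop atTop :=
    Real.tendsto_log_atTop.comp tendsto_natCast_atTop_atTop
  rw [tendsto_order]
  constructor
  · intro u hu
    obtain ⟨δ, h1, h2⟩ := exists_between hu
    obtain ⟨c, hc, h3⟩ := hlow δ h2
    filter_upwards [h3, hlog.eventually_gt_atTop (|Real.log c| / (δ - u)), Filter.eventually_ge_atTop 2] with n h4 h5 h6
    have hnR : (1 : ℝ) < n := by exact_mod_cast (by omega : 1 < n)
    have hn0 : (0 : ℝ) < n := by linarith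
    have hl : 0 < Real.log n := Real.log_pos hnR
    rw [lt_div_iff₀ hl]
    have h7 : Real.log (c * (n : ℝ) ^ δ) ≤ Real.log (f n) := Real.log_le_log (by positivity) h4
    rw [Real.log_mul hc.ne' (by positivity), Real.log_rpow hn0] at h7
    rw [div_lt_iff₀ (by linarith)] at h5
    have h8 := neg_abs_le (Real.log c)
    nlinarith
  · intro u hu
    obtain ⟨δ, h1, h2⟩ := exists_between hu
    obtain ⟨C, h3⟩ := hup δ h1
    obtain ⟨c, hc, h3'⟩ := hlow (γ - 1) (by linarith)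
    filter_upwards [h3, h3', hlog.eventually_gt_atTop (|Real.log C| / (u - δ)), Filter.eventually_ge_atTop 2] with n h4
      h4' h5 h6
    have hnR : (1 : ℝ) < n := by exact_mod_cast (by omega : 1 < n)
    have hn0 : (0 : ℝ) < n := by linarith
    have hl : 0 < Real.log n := Real.log_pos hnR
    have hf : 0 < f n := lt_of_lt_of_le (by positivity) h4'
    have hC : 0 < C := by
      by_contra hcon
      have h7 : C * (n : ℝ) ^ δ ≤ 0 := mul_nonpos_of_nonpos_of_nonneg (not_lt.1 hcon) (by positivity)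
      linarith
    rw [div_lt_iff₀ hl]
    have h7 : Real.log (f n) ≤ Real.log (C * (n : ℝ) ^ δ) := Real.log_le_log hf h4
    rw [Real.log_mul hC.ne' (by positivity), Real.log_rpow hn0] at h7
    rw [div_lt_iff₀ (by linarith)] at h5
    have h8 := le_abs_self (Real.log C)
    nlinarith

/-- ASSEMBLY: Chi m = m ^ (g + o(1)) and the exponent a of the length on both sides give n ^ (g / a + o(1)) -/
theorem cum_limit {g a : ℝ} (hg : 0 < g) (ha : 1 < a) (hM : ∀ a' : ℝ, a < a' → ∃ C : ℝ, 0 ≤ C ∧ MeanLen a' C)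
    (hL : LongWalks (a - 1))
    (hlow : ∀ ε : ℝ, 0 < ε → ∃ c : ℝ, 0 < c ∧ ∀ m : ℕ, 1 ≤ m → ENNReal.ofReal (c * (m : ℝ) ^ (g - ε)) ≤ Chi m)
    (hup : ∀ ε : ℝ, 0 < ε → ∃ C : ℝ, ∀ m : ℕ, 1 ≤ m → Chi m ≤ ENNReal.ofReal (C * (m : ℝ) ^ (g + ε))) :
    Tendsto (fun n : ℕ => Real.log (cum n) / Real.log n) atTop (𝓝 (g / a)) := by
  refine lim_of_bounds (fun δ hδ => cum_lower hg ha.le hM hlow hδ) (fun δ hδ => cum_upper hg (by linarith) hL hup ?_)
  rwa [add_sub_cancel]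

end BAR

end HexObs
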