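import Pool.Agent.T2.LongB
import Pool.Agent.NUF.LowNF
import Pool.Agent.BAR.Defs
import Pool.Agent.HexLoop.SDVertB
import Pool.Agent.PHW.Base

/-!
BAR, C2: the weight of the half plane words of a given height from a lower bound of the weight of the walks through a
vertex: the walks from a boundary edge through a vertex weigh as much as the sticks that end at the vertex, and the
sticks that end on different levels or start at different feet are different half plane words.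
-/

set_option autoImplicit false

namespace HexObs

namespace BAR

open Finset LP CMP T2

open scoped ENNReal

/-- the sticks from the boundary edge a to the vertex v -/
noncomputable def Stk (T L : ℕ) (v : Pt) (a : Pt × Pt) : Finset (List Bool) := by
  classical
  exact (ex0 ((Par T L L).erase v) a).filter (fun t => tp a t = v)

lemma mem_Stk {T L : ℕ} {v : Pt} {a : Pt × Pt} {t : List Bool} : t ∈ Stk T L v a ↔
    Arr0 ((Par T L L).erase v) a t ∧ tp a t = v := by
  classical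
  unfold Stk ex0
  rw [Finset.mem_filter, Finset.mem_filter, mem_arr0]
  constructor
  · rintro ⟨⟨h1, _⟩, h2⟩
    exact ⟨h1, h2⟩
  · rintro ⟨h1, h2⟩
    refine ⟨⟨h1, ?_⟩, h2⟩
    rw [h2]
    exact fun h => (Finset.mem_erase.1 h).1 rfl

open Classical in
/-- the walks from one edge through the vertex weigh at most as much as the sticks -/
lemma start_le {T L : ℕ} {v : Pt} (hv : v ∈ Par T L L) {a : Pt × Pt} (ha : a ∈ bd (Par T L L)) :
    ∑ t ∈ (ex0 (Par T L L) a).filter (Hit {v} a), cw t ≤ ∑ t ∈ Stk T L v a, xc ^ t.length := by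
  have h1 := hit_vertex (par_full T L L) hv ha
  have h2 := congrArg Complex.re h1
  rw [Complex.re_sum, Complex.re_sum] at h2
  have h3 : ∀ t : List Bool, (wt t).re = cw t := wt_re
  simp only [h3] at h2
  have e : (ex0 ((Par T L L).erase v) a).filter (fun t => tp a t = v) = Stk T L v a := by
    unfold Stk
    congr 1
  rw [e] at h2
  rw [h2]
  exact Finset.sum_le_sum (fun t _ => cw_le_pow t)

lemma vx_floor (v0 : Pt) (t : List Bool) (i : ℕ) : vx v0 up t i = v0 + vx oo up t i := by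
  have := arcA_vx (u := (1, 0)) (v0 := v0) t i
  rw [mulE_one, mulE_one] at this
  exact this

lemma vx_top (v0 : Pt) (t : List Bool) (i : ℕ) : vx v0 (-up) t i = v0 + -vx oo up t i := by
  have := arcA_vx (u := (-1, 0)) (v0 := v0) t i
  rw [hmul', hmul'] at this
  exact this

lemma lv_add' (v w : Pt) : lv (v + w) = lv v + lv w := by
  unfold lv
  simp only [Prod.fst_add, Prod.snd_add]
  ring

lemma lv_neg' (v : Pt) : lv (-v) = -lv v := by
  unfold lv
  simp only [Prod.fst_neg, Prod.snd_neg]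
  ring

/-- words that stay in the strip -/
private lemma mem_SSt_of {T : ℕ} {t : List Bool} (hm : ∀ i, 1 ≤ i → i ≤ t.length → 0 < lev t i ∧ lev t i < 3 * T + 2)
    (hi : ∀ i k, 1 ≤ i → i < k → k ≤ t.length → vx oo up t i ≠ vx oo up t k) : t ∈ SSt T := by
  refine ⟨fun i h1 h2 => mem_St.2 (hm i h1 h2), ?_⟩
  intro i k hik hk he
  rcases Nat.eq_zero_or_pos i with h0 | h0
  · have h5 := hm k (by omega) hk
    have h6 : lev t i = lev t k := by
      unfold lev
      rw [he]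
    rw [h0, lev_zero] at h6
    omega
  · exact hi i k h0 hik hk he

/-- the sticks from the floor -/
lemma stk_floor {T L : ℕ} {v v0 : Pt} (h0 : lv v0 = 0) {t : List Bool} (ht : t ∈ Stk T L v (v0, up)) :
    t ∈ SSt T ∧ tip oo up t = v - v0 := by
  obtain ⟨h1, h2⟩ := mem_Stk.1 ht
  constructor
  · apply mem_SSt_of
    · intro i hi hl
      have h4 : vx v0 up t i ∈ Par T L L := Finset.mem_of_mem_erase (h1.mem i hi hl)
      rw [vx_floor, mem_par, lv_add', h0, zero_add, ← lev_lv] at h4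
      exact ⟨h4.2.1, h4.2.2.1⟩
    · intro i k hi hik hk he
      apply h1.inj i k hi hik hk
      show vx v0 up t i = vx v0 up t k
      rw [vx_floor, vx_floor v0 t k, he]
  · have h3 : vx v0 up t (t.length + 1) = v := h2
    rw [vx_floor] at h3
    show vx oo up t (t.length + 1) = _
    rw [← h3, add_sub_cancel_left]

/-- the sticks from the top -/
lemma stk_top {T L : ℕ} {v v0 : Pt} (h0 : lv v0 = 3 * T + 2) {t : List Bool} (ht : t ∈ Stk T L v (v0, -up)) :
    t ∈ SSt T ∧ tip oo up t = v0 - v := by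
  obtain ⟨h1, h2⟩ := mem_Stk.1 ht
  constructor
  · apply mem_SSt_of
    · intro i hi hl
      have h4 : vx v0 (-up) t i ∈ Par T L L := Finset.mem_of_mem_erase (h1.mem i hi hl)
      rw [vx_top, mem_par, lv_add', lv_neg', h0, ← lev_lv] at h4
      obtain ⟨_, h5, h6, _⟩ := h4
      exact ⟨by linarith, by linarith⟩
    · intro i k hi hik hk he
      apply h1.inj i k hi hik hk
      show vx v0 (-up) t i = vx v0 (-up) t k
      rw [vx_top, vx_top v0 t k, he]
  · have h3 : vx v0 (-up) t (t.length + 1) = v := h2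
    rw [vx_top] at h3
    show vx oo up t (t.length + 1) = _
    rw [← h3]
    abel

/-- the sticks from one side: each half plane word occurs at most once -/
lemma side_le {T L : ℕ} {J : Finset (ℕ × ℕ)} {F : Finset (Pt × Pt)} {V : ℕ × ℕ → Pt}
    (φ : (ℕ × ℕ) → (Pt × Pt) → Pt)
    (hφ : ∀ x ∈ J, ∀ y ∈ J, ∀ a ∈ F, ∀ b ∈ F, φ x a = φ y b → x = y ∧ a = b)
    (hS : ∀ x ∈ J, ∀ a ∈ F, ∀ t ∈ Stk T L (V x) a, t ∈ SSt T ∧ tip oo up t = φ x a) :
    ENNReal.ofReal (∑ x ∈ J, ∑ a ∈ F, ∑ t ∈ Stk T L (V x) a, xc ^ t.length) ≤ BAR.HH T := by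
  classical
  rw [← Finset.sum_product (s := J) (t := F) (f := fun y => ∑ t ∈ Stk T L (V y.1) y.2, xc ^ t.length)]
  rw [← Finset.sum_biUnion]
  · rw [← gf_finset]
    apply gf_mono
    intro t ht
    rw [Finset.mem_coe, Finset.mem_biUnion] at ht
    obtain ⟨y, hy, ht⟩ := ht
    rw [Finset.mem_product] at hy
    exact (hS y.1 hy.1 y.2 hy.2 t ht).1
  · intro y hy z hz hne
    rw [Function.onFun, Finset.disjoint_left]
    intro t h1 h2
    rw [Finset.mem_coe, Finset.mem_product] at hy hz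
    apply hne
    have h3 := (hS y.1 hy.1 y.2 hy.2 t h1).2
    have h4 := (hS z.1 hz.1 z.2 hz.2 t h2).2
    have h5 := hφ y.1 hy.1 z.1 hz.1 y.2 hy.2 z.2 hz.2 (h3.symm.trans h4)
    exact Prod.ext h5.1 h5.2

open Classical in
/-- the walks through one vertex of the middle and the sticks to the vertex -/
lemma one_vertex_s {h L : ℕ} (hL : 3 * h < L) {x : ℕ × ℕ} (hx : x ∈ KJ h) {ε : ℝ}
    (hε : ∑ a ∈ bd (Par (3 * h) L L), ∑ t ∈ (ex0 (Par (3 * h) L L) a).filter (fun t =>
      ((a.2 ≠ up ∧ a.2 ≠ -up) ∨ (dx a.2 t t.length ≠ up ∧ dx a.2 t t.length ≠ -up)) ∧ Hit {kv (kl h x)} a t),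
        xc ^ t.length ≤ ε) :
    LP.HH (Par (3 * h) L L) {kv (kl h x)} ≤
      ε + ∑ a ∈ (bd (Par (3 * h) L L)).filter (fun a => a.2 = up), ∑ t ∈ Stk (3 * h) L (kv (kl h x)) a, xc ^ t.length +
      ∑ a ∈ (bd (Par (3 * h) L L)).filter (fun a => a.2 = -up), ∑ t ∈ Stk (3 * h) L (kv (kl h x)) a, xc ^ t.length := by
  have hv : kv (kl h x) ∈ Par (3 * h) L L := by
    have hb := kl_bd hx
    rw [mem_par]
    refine ⟨kv_cl hx, ?_, ?_, ?_, ?_⟩
    · rw [lv_kv]; omega
    · rw [lv_kv]; push_cast; omega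
    · rw [nn_kv]; omega
    · rw [nn_kv]; omega
  rw [HH_def]
  have h2 : ∀ a ∈ bd (Par (3 * h) L L), ∑ t ∈ (ex0 (Par (3 * h) L L) a).filter (Hit {kv (kl h x)} a), cw t ≤
      ∑ t ∈ (ex0 (Par (3 * h) L L) a).filter (fun t =>
        ((a.2 ≠ up ∧ a.2 ≠ -up) ∨ (dx a.2 t t.length ≠ up ∧ dx a.2 t t.length ≠ -up)) ∧ Hit {kv (kl h x)} a t),
          xc ^ t.length + (if a.2 = up then ∑ t ∈ Stk (3 * h) L (kv (kl h x)) a, xc ^ t.length else 0) +
        (if a.2 = -up then ∑ t ∈ Stk (3 * h) L (kv (kl h x)) a, xc ^ t.length else 0) := by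
    intro a ha1
    have h0 : 0 ≤ ∑ t ∈ (ex0 (Par (3 * h) L L) a).filter (fun t =>
        ((a.2 ≠ up ∧ a.2 ≠ -up) ∨ (dx a.2 t t.length ≠ up ∧ dx a.2 t t.length ≠ -up)) ∧ Hit {kv (kl h x)} a t),
          xc ^ t.length := Finset.sum_nonneg (fun t _ => pow_nonneg xc_pos.le _)
    have hne : (up : Pt) ≠ -up := by decide
    by_cases ha : a.2 = up
    · rw [if_pos ha, if_neg (by rw [ha]; exact hne), add_zero]
      linarith [start_le hv ha1]
    · by_cases hb : a.2 = -up
      · rw [if_neg ha, if_pos hb, add_zero]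
        linarith [start_le hv ha1]
      · rw [if_neg ha, if_neg hb, add_zero, add_zero]
        have h4 : (ex0 (Par (3 * h) L L) a).filter (Hit {kv (kl h x)} a) =
            (ex0 (Par (3 * h) L L) a).filter (fun t =>
              ((a.2 ≠ up ∧ a.2 ≠ -up) ∨ (dx a.2 t t.length ≠ up ∧ dx a.2 t t.length ≠ -up)) ∧
                Hit {kv (kl h x)} a t) := by
          ext t
          rw [Finset.mem_filter, Finset.mem_filter]
          tauto
        rw [h4]
        exact Finset.sum_le_sum (fun t _ => cw_le_pow t)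
  refine (Finset.sum_le_sum h2).trans ?_
  rw [Finset.sum_add_distrib, Finset.sum_add_distrib, Finset.sum_filter, Finset.sum_filter]
  linarith

/-- C2 for the heights 3 h: half plane words from the walks through the middle -/
theorem HH_three_low {b c : ℝ} (hb : 0 ≤ b) (hc : 0 < c) (hlow : LowHH b c) {h : ℕ} (hh : 1 ≤ h) :
    ENNReal.ofReal (c / 2 * (h : ℝ) ^ (b + 1)) ≤ BAR.HH (3 * h) := by
  classical
  obtain ⟨L0, hL0⟩ := hlow h hh
  choose A0 hA0 using fun v : Pt => walls_hit (3 * h) v (c / 2) (by omega) (by positivity)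
  set L := 3 * h + 1 + L0 + ∑ x ∈ KJ h, A0 (kv (kl h x)) with hL
  have hL1 : 3 * h < L := by omega
  have hL2 : ∀ x ∈ KJ h, A0 (kv (kl h x)) ≤ L := by
    intro x hx
    have h9 : A0 (kv (kl h x)) ≤ ∑ x ∈ KJ h, A0 (kv (kl h x)) :=
      Finset.single_le_sum (f := fun x => A0 (kv (kl h x))) (fun i _ => Nat.zero_le _) hx
    omega
  have h1 : ∑ x ∈ KJ h, (c * (h : ℝ) ^ b) ≤ ∑ x ∈ KJ h, (c / 2 +
      ∑ a ∈ (bd (Par (3 * h) L L)).filter (fun a => a.2 = up), ∑ t ∈ Stk (3 * h) L (kv (kl h x)) a, xc ^ t.length +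
      ∑ a ∈ (bd (Par (3 * h) L L)).filter (fun a => a.2 = -up), ∑ t ∈ Stk (3 * h) L (kv (kl h x)) a, xc ^ t.length) := by
    apply Finset.sum_le_sum
    intro x hx
    exact (hL0 L (by omega) x hx).trans (one_vertex_s hL1 hx (hA0 _ L L (hL2 x hx) (hL2 x hx)))
  rw [Finset.sum_add_distrib, Finset.sum_add_distrib, Finset.sum_const, Finset.sum_const, nsmul_eq_mul, nsmul_eq_mul,
    KJ_card] at h1
  have h2 := side_le (T := 3 * h) (L := L) (J := KJ h) (F := (bd (Par (3 * h) L L)).filter (fun a => a.2 = up))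
    (V := fun x => kv (kl h x)) (fun x a => kv (kl h x) - a.1)
    (by
      intro x hx y hy a ha b hb he
      rw [Finset.mem_filter] at ha hb
      obtain ⟨k, rfl, _, _⟩ := floor_start (by omega) (by omega) (by omega) ha.1 ha.2
      obtain ⟨l, rfl, _, _⟩ := floor_start (by omega) (by omega) (by omega) hb.1 hb.2
      have h5 := phF_inj h (y := (k, x)) (z := (l, y)) hx hy he
      rw [Prod.ext_iff] at h5
      obtain ⟨h6, h7⟩ := h5
      have h6' : k = l := h6
      exact ⟨h7, by rw [h6']⟩)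
    (by
      intro x hx a ha t ht
      rw [Finset.mem_filter] at ha
      obtain ⟨k, rfl, _, _⟩ := floor_start (by omega) (by omega) (by omega) ha.1 ha.2
      exact stk_floor (by unfold lv; simp only; ring) ht)
  have h3 := side_le (T := 3 * h) (L := L) (J := KJ h) (F := (bd (Par (3 * h) L L)).filter (fun a => a.2 = -up))
    (V := fun x => kv (kl h x)) (fun x a => a.1 - kv (kl h x))
    (by
      intro x hx y hy a ha b hb he
      rw [Finset.mem_filter] at ha hb
      obtain ⟨k, rfl, _, _⟩ := top_start (by omega) (by omega) (by omega) ha.1 ha.2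
      obtain ⟨l, rfl, _, _⟩ := top_start (by omega) (by omega) (by omega) hb.1 hb.2
      have h5 := phT_inj h (y := (k, x)) (z := (l, y)) hx hy he
      rw [Prod.ext_iff] at h5
      obtain ⟨h6, h7⟩ := h5
      have h6' : k = l := h6
      exact ⟨h7, by rw [h6']⟩)
    (by
      intro x hx a ha t ht
      rw [Finset.mem_filter] at ha
      obtain ⟨k, rfl, _, _⟩ := top_start (by omega) (by omega) (by omega) ha.1 ha.2
      exact stk_top (by unfold lv; simp only; ring) ht)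
  set SF := ∑ x ∈ KJ h, ∑ a ∈ (bd (Par (3 * h) L L)).filter (fun a => a.2 = up),
    ∑ t ∈ Stk (3 * h) L (kv (kl h x)) a, xc ^ t.length with hSF
  set ST := ∑ x ∈ KJ h, ∑ a ∈ (bd (Par (3 * h) L L)).filter (fun a => a.2 = -up),
    ∑ t ∈ Stk (3 * h) L (kv (kl h x)) a, xc ^ t.length with hST
  have hSF0 : 0 ≤ SF := Finset.sum_nonneg (fun x _ => Finset.sum_nonneg (fun a _ =>
    Finset.sum_nonneg (fun t _ => pow_nonneg xc_pos.le _)))
  have hST0 : 0 ≤ ST := Finset.sum_nonneg (fun x _ => Finset.sum_nonneg (fun a _ =>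
    Finset.sum_nonneg (fun t _ => pow_nonneg xc_pos.le _)))
  have hh1 : (1 : ℝ) ≤ h := by exact_mod_cast hh
  have hh0 : (0 : ℝ) < h := by linarith
  have hp : 1 ≤ (h : ℝ) ^ b := Real.one_le_rpow hh1 hb
  have e1 : (h : ℝ) ^ (b + 1) = (h : ℝ) ^ b * h := by
    rw [Real.rpow_add hh0, Real.rpow_one]
  have h4 : 2 * (c / 2 * (h : ℝ) ^ (b + 1)) ≤ SF + ST := by
    push_cast at h1
    rw [e1]
    have h5 : c * h ≤ c * ((h : ℝ) ^ b * h) := by
      apply mul_le_mul_of_nonneg_left _ hc.le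
      nlinarith
    nlinarith
  have h5 : 2 * ENNReal.ofReal (c / 2 * (h : ℝ) ^ (b + 1)) ≤ 2 * BAR.HH (3 * h) := by
    calc 2 * ENNReal.ofReal (c / 2 * (h : ℝ) ^ (b + 1)) = ENNReal.ofReal (2 * (c / 2 * (h : ℝ) ^ (b + 1))) := by
          rw [ENNReal.ofReal_mul (p := 2) (by norm_num), ENNReal.ofReal_ofNat]
      _ ≤ ENNReal.ofReal (SF + ST) := ENNReal.ofReal_le_ofReal h4
      _ = ENNReal.ofReal SF + ENNReal.ofReal ST := ENNReal.ofReal_add hSF0 hST0
      _ ≤ BAR.HH (3 * h) + BAR.HH (3 * h) := add_le_add h2 h3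
      _ = _ := by rw [two_mul]
  exact (ENNReal.mul_le_mul_iff_right (by norm_num) (by norm_num)).1 h5

private lemma SSt_mono {m n : ℕ} (h : m ≤ n) : SSt m ⊆ SSt n := by
  intro t ht
  refine ⟨fun i hi hl => ?_, ht.inj⟩
  have h1 := mem_St.1 (ht.mem i hi hl)
  rw [mem_St]
  have h2 : (m : ℤ) ≤ n := by exact_mod_cast h
  exact ⟨h1.1, by linarith [h1.2]⟩

private lemma HH_mono' {m n : ℕ} (h : m ≤ n) : BAR.HH m ≤ BAR.HH n := gf_mono (SSt_mono h)

private lemma one_le_HH (m : ℕ) : 1 ≤ BAR.HH m := by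
  have h1 : (({[]} : Finset (List Bool)) : Set (List Bool)) ⊆ SSt m := by
    intro t ht
    rw [Finset.mem_coe, Finset.mem_singleton] at ht
    rw [ht]
    refine ⟨fun i hi hl => ?_, fun i k hik hk => ?_⟩
    · rw [List.length_nil] at hl
      omega
    · rw [List.length_nil] at hk
      omega
  have h2 := gf_mono h1
  rw [gf_finset] at h2
  simp only [Finset.sum_singleton, List.length_nil, pow_zero, ENNReal.ofReal_one] at h2
  exact h2

/-- C2: power law lower bound of the weight of the half plane words of height m -/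
theorem HH_low {b c : ℝ} (hb : 0 ≤ b) (hc : 0 < c) (hlow : LowHH b c) :
    ∃ c' : ℝ, 0 < c' ∧ ∀ m : ℕ, 1 ≤ m → ENNReal.ofReal (c' * (m : ℝ) ^ (b + 1)) ≤ BAR.HH m := by
  refine ⟨min (c / 2 * (5 : ℝ) ^ (-(b + 1))) ((2 : ℝ) ^ (-(b + 1))), lt_min (by positivity) (by positivity), ?_⟩
  intro m hm
  have hm0 : (0 : ℝ) ≤ m := Nat.cast_nonneg m
  have hmp : 0 ≤ (m : ℝ) ^ (b + 1) := Real.rpow_nonneg hm0 _
  rcases lt_or_ge m 3 with h3 | h3
  · refine le_trans ?_ (one_le_HH m)
    rw [← ENNReal.ofReal_one]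
    apply ENNReal.ofReal_le_ofReal
    have h4 : (m : ℝ) ≤ 2 := by exact_mod_cast (by omega : m ≤ 2)
    have h5 : (m : ℝ) ^ (b + 1) ≤ (2 : ℝ) ^ (b + 1) := Real.rpow_le_rpow hm0 h4 (by linarith)
    calc _ ≤ (2 : ℝ) ^ (-(b + 1)) * (2 : ℝ) ^ (b + 1) :=
          mul_le_mul (min_le_right _ _) h5 hmp (by positivity)
      _ = 1 := by rw [← Real.rpow_add (by norm_num)]; simp
  · have h4 : 1 ≤ m / 3 := by omega
    have h5 : (m : ℝ) ≤ 5 * ((m / 3 : ℕ) : ℝ) := by
      have : m ≤ 5 * (m / 3) := by omega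
      exact_mod_cast this
    refine le_trans ?_ ((HH_three_low hb hc hlow h4).trans (HH_mono' (by omega)))
    apply ENNReal.ofReal_le_ofReal
    have h6 : (m : ℝ) ^ (b + 1) ≤ (5 * ((m / 3 : ℕ) : ℝ)) ^ (b + 1) := Real.rpow_le_rpow hm0 h5 (by linarith)
    rw [Real.mul_rpow (by norm_num) (Nat.cast_nonneg _)] at h6
    calc _ ≤ (c / 2 * (5 : ℝ) ^ (-(b + 1))) * ((5 : ℝ) ^ (b + 1) * ((m / 3 : ℕ) : ℝ) ^ (b + 1)) :=
          mul_le_mul (min_le_left _ _) h6 hmp (by positivity)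
      _ = c / 2 * ((5 : ℝ) ^ (-(b + 1)) * (5 : ℝ) ^ (b + 1)) * ((m / 3 : ℕ) : ℝ) ^ (b + 1) := by ring
      _ = c / 2 * ((m / 3 : ℕ) : ℝ) ^ (b + 1) := by
          rw [← Real.rpow_add (by norm_num)]
          simp

/-- C2 from the gas of nested polygons at the fugacity 2 -/
theorem HH_low_of_NF {b c : ℝ} (hb : 0 ≤ b) (hc : 0 < c)
    (h : ∀ m : ℕ, 1 ≤ m → ∃ M : ℕ, c * (m : ℝ) ^ b ≤ NF (2 : ℝ) (LP.PP m M) f0) :
    ∃ c' : ℝ, 0 < c' ∧ ∀ m : ℕ, 1 ≤ m → ENNReal.ofReal (c' * (m : ℝ) ^ (b + 1)) ≤ BAR.HH m :=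
  HH_low hb (by have := r2_pos; positivity) (lowHH_of_NF h)

end BAR

end HexObs
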