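import Pool.Agent.BAR.Cum

/-!
# From the cumulative sums to every single number of steps (TARGET-C, P1)

`aB n mu^(-n) <= (cum n / (n + 1)) ^ 2` for every `n` (submultiplicativity and the inequality of the means).
-/

set_option autoImplicit false

namespace HexObs

namespace BAR

open Finset Filter

/-- the correction factor. -/
noncomputable def uB (n : ℕ) : ℝ := (aB n : ℝ) / muB ^ n

theorem muB_pos : 0 < muB := by
  rw [muB_eq]
  exact one_div_pos.2 xc_pos

theorem uB_nonneg (n : ℕ) : 0 ≤ uB n := by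
  have := muB_pos
  unfold uB
  positivity

theorem uB_mul_le {k n : ℕ} (h : k ≤ n) : uB n ≤ uB k * uB (n - k) := by
  have h0 := muB_pos
  have h1 : (aB n : ℝ) ≤ aB k * aB (n - k) := by
    have := aB_mul_le k (n - k)
    rw [Nat.add_sub_cancel' h] at this
    exact_mod_cast this
  have h2 : muB ^ n = muB ^ k * muB ^ (n - k) := by
    rw [← pow_add, Nat.add_sub_cancel' h]
  unfold uB
  rw [h2, div_mul_div_comm]
  exact div_le_div_of_nonneg_right h1 (by positivity)

theorem cum_eq (n : ℕ) : cum n = ∑ k ∈ range (n + 1), uB k := rfl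

/-- **Every single number of steps against the cumulative sum.** -/
theorem uB_le (n : ℕ) : uB n ≤ (cum n / (n + 1)) ^ 2 := by
  have h1 : ∀ k ∈ range (n + 1), Real.sqrt (uB n) ≤ (uB k + uB (n - k)) / 2 := by
    intro k hk
    have hk' : k ≤ n := by
      have := mem_range.1 hk
      omega
    have a := uB_nonneg k
    have b := uB_nonneg (n - k)
    refine Real.sqrt_le_iff.2 ⟨by linarith, ?_⟩
    have := uB_mul_le hk'
    nlinarith [sq_nonneg (uB k - uB (n - k))]
  have h2 := sum_le_sum h1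
  rw [sum_const, card_range, nsmul_eq_mul, ← sum_div, sum_add_distrib] at h2
  have h3 : ∑ k ∈ range (n + 1), uB (n - k) = ∑ k ∈ range (n + 1), uB k := by
    rw [← sum_range_reflect]
    refine sum_congr rfl fun k hk => ?_
    have := mem_range.1 hk
    congr 1
    omega
  rw [h3, ← cum_eq] at h2
  have h4 : (0 : ℝ) < n + 1 := by positivity
  have h5 : Real.sqrt (uB n) ≤ cum n / (n + 1) := by
    rw [le_div_iff₀ h4]
    push_cast at h2
    linarith
  rw [← Real.sq_sqrt (uB_nonneg n)]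
  exact pow_le_pow_left₀ (Real.sqrt_nonneg _) h5 2

theorem aB_le (n : ℕ) : (aB n : ℝ) ≤ (cum n / (n + 1)) ^ 2 * muB ^ n := by
  have h := uB_le n
  have h0 := muB_pos
  unfold uB at h
  rwa [div_le_iff₀ (by positivity)] at h

/-- **Pointwise corollary**: `cum n <= C n^g` implies `aB n <= C^2 n^(2g-2) mu^n`, for the same `n`. -/
theorem aB_of_cum {C g : ℝ} {n : ℕ} (hn : 1 ≤ n) (h : cum n ≤ C * (n : ℝ) ^ g) :
    (aB n : ℝ) ≤ C ^ 2 * (n : ℝ) ^ (2 * g - 2) * muB ^ n := by
  have h0 := muB_pos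
  have hn' : (0 : ℝ) < n := by exact_mod_cast hn
  have hc : 0 ≤ cum n := by linarith [cum_ge_one n]
  have h1 : cum n / (n + 1) ≤ C * (n : ℝ) ^ (g - 1) := by
    calc cum n / (n + 1) ≤ cum n / n := div_le_div_of_nonneg_left hc hn' (by linarith)
      _ ≤ C * (n : ℝ) ^ g / n := div_le_div_of_nonneg_right h hn'.le
      _ = C * (n : ℝ) ^ (g - 1) := by
          rw [Real.rpow_sub_one hn'.ne', mul_div_assoc]
  have h2 : (cum n / (n + 1)) ^ 2 ≤ C ^ 2 * (n : ℝ) ^ (2 * g - 2) := by
    refine (pow_le_pow_left₀ (by positivity) h1 2).trans (le_of_eq ?_)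
    rw [mul_pow, ← Real.rpow_natCast ((n : ℝ) ^ (g - 1)) 2, ← Real.rpow_mul hn'.le]
    congr 2
    push_cast
    ring
  exact (aB_le n).trans (mul_le_mul_of_nonneg_right h2 (by positivity))

/-- the eventual form. -/
theorem aB_eventually {C g : ℝ} (h : ∀ᶠ n : ℕ in atTop, cum n ≤ C * (n : ℝ) ^ g) :
    ∀ᶠ n : ℕ in atTop, (aB n : ℝ) ≤ C ^ 2 * (n : ℝ) ^ (2 * g - 2) * muB ^ n := by
  filter_upwards [h, eventually_ge_atTop 1] with n hn h1
  exact aB_of_cum h1 hn

end BAR

end HexObs
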