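import Pool.Agent.BAR.Glue
import Pool.Agent.BAR.ColG
import Pool.Agent.BAR.Leg
import Pool.Agent.BAR.Pointw
import Pool.Agent.NUF.FINT

/-!
BAR, the exponent gamma from above: from the bound of the two point function of a column to the cumulative sums.

`TwoPt W` : the two point function of the column is at most `W k` (odd `k`);
`WUp W` : `W k <= k ^ (- 5 / 24 + o(1))` (odd `k`).
-/

set_option autoImplicit false

namespace HexObs

namespace BAR

open Finset Filter T2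

open scoped ENNReal Topology

/-- the two point function of the column, k odd, is at most W k -/
def TwoPt (W : ℕ → ℝ) : Prop :=
  ∃ k0 : ℕ, ∀ k : ℕ, k0 ≤ k → Odd k → gf (CW (-1, 0) k) ≤ ENNReal.ofReal (W k)

/-- W k is at most k ^ (- 5 / 24 + o(1)), k odd -/
def WUp (W : ℕ → ℝ) : Prop := ∀ ε : ℝ, 0 < ε → ∃ (A : ℝ) (k0 : ℕ), ∀ k : ℕ, k0 ≤ k → Odd k →
  W k ≤ A * (k : ℝ) ^ (-(5 / 24 : ℝ) + ε)

/-- for even k the two mid-edges have different kinds -/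
lemma CW_even {k : ℕ} (hk : ¬ Odd k) : CW (-1, 0) k = ∅ := by
  ext u
  simp only [Set.mem_empty_iff_false, iff_false]
  rintro ⟨_, _, _, h4, h5, _⟩
  apply hk
  unfold ip at h5
  simp only [up] at h5
  have h6 : (vx oo (-mir (-1, 0)) u u.length).1 = 1 := by
    rw [h4]
    norm_num
  rw [h6] at h5
  have h7 : (Odd (k : ℤ)) := by
    rcases Int.even_or_odd (k : ℤ) with h | h
    · exfalso
      obtain ⟨r, hr⟩ := h
      omega
    · exact h
  exact_mod_cast h7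

/-- the half plane walks from the two point function -/
theorem hUp_of {W : ℕ → ℝ} (h1 : TwoPt W) (h2 : WUp W) : HUp (61 / 48) := by
  obtain ⟨k1, h1⟩ := h1
  have H := HH_le_of_CW (δ := (-1, 0)) (by decide) (b := 5 / 24) (by norm_num) (by
    intro ε hε
    obtain ⟨A, k2, h2⟩ := h2 ε hε
    refine ⟨A, k1 + k2, fun k hk => ?_⟩
    by_cases ho : Odd k
    · exact (h1 k (by omega) ho).trans (ENNReal.ofReal_le_ofReal (h2 k (by omega) ho))
    · rw [CW_even ho]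
      simp [gf])
  intro ε hε
  obtain ⟨A, hA⟩ := H ε hε
  refine ⟨A, fun n hn => ?_⟩
  have h3 := hA n hn
  have e : ((11 / 4 - 5 / 24) / 2 + ε : ℝ) = 61 / 48 + ε := by norm_num
  rwa [e] at h3

/-- the weight of all walks of a given extent: gamma / nu = 43 / 24 -/
theorem chi_up {W : ℕ → ℝ} (h1 : TwoPt W) (h2 : WUp W) : ∀ ε : ℝ, 0 < ε → ∃ C : ℝ, ∀ m : ℕ, 1 ≤ m →
    Chi m ≤ ENNReal.ofReal (C * (m : ℝ) ^ (43 / 24 + ε)) := by
  intro ε hε
  obtain ⟨C, hC⟩ := chi_up_of_HH (h := 61 / 48) (by norm_num) (hUp_of h1 h2) ε hε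
  refine ⟨C, fun m hm => ?_⟩
  have h3 := hC m hm
  have e : (2 * (61 / 48) - 3 / 4 + ε : ℝ) = 43 / 24 + ε := by norm_num
  rwa [e] at h3

/-- the cumulative sums from above, for any known excess of the length of the long walks -/
theorem cum_up_gen {τ1 δ : ℝ} (H : HUp (61 / 48)) (hτ : 0 < τ1) (hL : LongWalks τ1)
    (hδ : 43 / 24 / (1 + τ1) < δ) : ∃ C : ℝ, ∀ n : ℕ, 1 ≤ n → cum n ≤ C * (n : ℝ) ^ δ := by
  apply cum_le_of_HH (h := 61 / 48) (by norm_num) H hτ hL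
  have e : (2 * (61 / 48) - 3 / 4 : ℝ) = 43 / 24 := by norm_num
  rwa [e]

/-- the cumulative sums from above -/
theorem cum_up (H : HUp (61 / 48)) (hL : Pool.Agent.NUF.NFLow) {ε : ℝ} (hε : 0 < ε) :
    ∃ C : ℝ, ∀ n : ℕ, 1 ≤ n → cum n ≤ C * (n : ℝ) ^ (43 / 32 + ε) :=
  cum_up_gen H (by norm_num) (Pool.Agent.NUF.longWalks_third hL) (by
    have e : (43 / 24 / (1 + 1 / 3) : ℝ) = 43 / 32 := by norm_num
    rw [e]
    linarith)

/-- the half plane walks from below -/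
theorem hLow_of (hL : Pool.Agent.NUF.NFLow) : HLow (13 / 12) := by
  intro ε hε
  obtain ⟨δ, hδ⟩ : ∃ δ : ℝ, δ = min ε (1 / 12) := ⟨_, rfl⟩
  have h1 : 0 < δ := by rw [hδ]; exact lt_min hε (by norm_num)
  have h2 : δ ≤ ε := by rw [hδ]; exact min_le_left _ _
  have h3 : δ ≤ 1 / 12 := by rw [hδ]; exact min_le_right _ _
  obtain ⟨c, hc, hN⟩ := hL δ h1
  obtain ⟨c', hc', h⟩ := HH_low_of_NF (b := 1 / 12 - δ) (by linarith) hc hN
  refine ⟨c', hc', fun n hn => le_trans (ENNReal.ofReal_le_ofReal ?_) (h n hn)⟩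
  have hn1 : (1 : ℝ) ≤ n := by exact_mod_cast hn
  exact mul_le_mul_of_nonneg_left (Real.rpow_le_rpow_of_exponent_le hn1 (by linarith)) hc'.le

/-- the cumulative sums from below -/
theorem cum_low (hU : Pool.Agent.NUF.NumUp) (hL : Pool.Agent.NUF.NFLow) {ε : ℝ} (hε : 0 < ε) :
    ∃ c : ℝ, 0 < c ∧ ∀ n : ℕ, 1 ≤ n → c * (n : ℝ) ^ (17 / 16 - ε) ≤ cum n :=
  cum_ge_of_HH (h := 13 / 12) (a := 4 / 3) (by norm_num) (hLow_of hL) (by norm_num)
    (fun _ ha => Pool.Agent.NUF.meanLen_of_ZZ (Pool.Agent.NUF.zzUp_of hU) ha) (by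
      have e : ((2 * (13 / 12) - 3 / 4) / (4 / 3) : ℝ) = 17 / 16 := by norm_num
      rw [e]
      linarith)

lemma few_card {C g s K : ℝ} {n : ℕ} (hK : 0 < K) (hs : 0 ≤ s) (h : cum n ≤ C * (n : ℝ) ^ g) :
    (((range n).filter (fun k : ℕ => (k : ℝ) ^ s * muB ^ k < aB k)).card : ℝ) ≤ K + 1 + C * (n : ℝ) ^ g / K ^ s := by
  classical
  have hmu := muB_pos
  set F := (range n).filter (fun k : ℕ => (k : ℝ) ^ s * muB ^ k < aB k) with hF
  have h1 : F.card ≤ (F.filter (fun k : ℕ => (k : ℝ) ≤ K)).card + (F.filter (fun k : ℕ => ¬ (k : ℝ) ≤ K)).card := by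
    rw [Finset.card_filter_add_card_filter_not]
  have h2 : ((F.filter (fun k : ℕ => (k : ℝ) ≤ K)).card : ℝ) ≤ K + 1 := by
    have h3 : F.filter (fun k : ℕ => (k : ℝ) ≤ K) ⊆ range (⌊K⌋₊ + 1) := by
      intro k hk
      rw [mem_filter] at hk
      rw [mem_range]
      exact Nat.lt_succ_of_le (Nat.le_floor hk.2)
    have h4 := card_le_card h3
    rw [card_range] at h4
    have h5 : ((⌊K⌋₊ + 1 : ℕ) : ℝ) ≤ K + 1 := by
      push_cast
      linarith [Nat.floor_le hK.le]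
    exact le_trans (by exact_mod_cast h4) h5
  have hKs : 0 < K ^ s := Real.rpow_pos_of_pos hK s
  have h6 : ((F.filter (fun k : ℕ => ¬ (k : ℝ) ≤ K)).card : ℝ) * K ^ s ≤ cum n := by
    have h7 : ∑ _k ∈ F.filter (fun k : ℕ => ¬ (k : ℝ) ≤ K), K ^ s ≤ ∑ k ∈ F.filter (fun k : ℕ => ¬ (k : ℝ) ≤ K), uB k := by
      apply sum_le_sum
      intro k hk
      rw [mem_filter, hF, mem_filter] at hk
      have h8 : K ^ s ≤ (k : ℝ) ^ s := Real.rpow_le_rpow hK.le (not_le.1 hk.2).le hs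
      unfold uB
      rw [le_div_iff₀ (by positivity)]
      have h9 : K ^ s * muB ^ k ≤ (k : ℝ) ^ s * muB ^ k := mul_le_mul_of_nonneg_right h8 (by positivity)
      linarith [hk.1.2]
    rw [sum_const, nsmul_eq_mul] at h7
    refine h7.trans ?_
    rw [cum_eq]
    apply sum_le_sum_of_subset_of_nonneg
    · intro k hk
      rw [mem_filter, hF, mem_filter, mem_range] at hk
      rw [mem_range]
      omega
    · intro k _ _
      exact uB_nonneg k
  have h10 : ((F.filter (fun k : ℕ => ¬ (k : ℝ) ≤ K)).card : ℝ) ≤ C * (n : ℝ) ^ g / K ^ s := by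
    rw [le_div_iff₀ hKs]
    linarith
  have h11 : (F.card : ℝ) ≤ ((F.filter (fun k : ℕ => (k : ℝ) ≤ K)).card : ℝ) +
      ((F.filter (fun k : ℕ => ¬ (k : ℝ) ≤ K)).card : ℝ) := by exact_mod_cast h1
  linarith

/-- **density one**: a bound of the cumulative sums bounds almost every term -/
theorem few_large {g : ℝ} (hg : 1 ≤ g) (h : ∀ ε : ℝ, 0 < ε → ∃ C : ℝ, ∀ n : ℕ, 1 ≤ n → cum n ≤ C * (n : ℝ) ^ (g + ε)) :
    ∀ ε : ℝ, 0 < ε → Tendsto (fun n : ℕ =>
      (((range n).filter (fun k : ℕ => (k : ℝ) ^ (g - 1 + ε) * muB ^ k < aB k)).card : ℝ) / n) atTop (𝓝 0) := by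
  intro ε hε
  obtain ⟨s, hs⟩ : ∃ s, s = g - 1 + ε := ⟨_, rfl⟩
  rw [← hs]
  have hs0 : 0 < s := by rw [hs]; linarith
  obtain ⟨η, hη⟩ : ∃ η, η = ε / (2 * s) := ⟨_, rfl⟩
  have hη0 : 0 < η := by rw [hη]; positivity
  have hηs : η * s = ε / 2 := by
    rw [hη]
    field_simp
  obtain ⟨C, hC⟩ := h (ε / 4) (by positivity)
  have hb : ∀ n : ℕ, 1 ≤ n →
      (((range n).filter (fun k : ℕ => (k : ℝ) ^ s * muB ^ k < aB k)).card : ℝ) / n ≤
        (n : ℝ) ^ (-η) + (n : ℝ) ^ (-1 : ℝ) + |C| * (n : ℝ) ^ (-(ε / 4)) := by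
    intro n hn
    have hn0 : (0 : ℝ) < n := by exact_mod_cast hn
    have h1 := few_card (K := (n : ℝ) ^ (1 - η)) (s := s) (by positivity) hs0.le (hC n hn)
    rw [div_le_iff₀ hn0]
    refine h1.trans ?_
    have e1 : (n : ℝ) ^ (-η) * n = (n : ℝ) ^ (1 - η) := by
      rw [← Real.rpow_add_one hn0.ne']
      congr 1
      ring
    have e2 : (n : ℝ) ^ (-1 : ℝ) * n = 1 := by
      rw [← Real.rpow_add_one hn0.ne']
      norm_num
    have e3 : (n : ℝ) ^ (g + ε / 4) / ((n : ℝ) ^ (1 - η)) ^ s = (n : ℝ) ^ (-(ε / 4)) * n := by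
      rw [← Real.rpow_mul hn0.le, ← Real.rpow_sub hn0, ← Real.rpow_add_one hn0.ne']
      congr 1
      have : (1 - η) * s = s - ε / 2 := by rw [sub_mul, one_mul, hηs]
      rw [this, hs]
      ring
    have h2 : C * (n : ℝ) ^ (g + ε / 4) / ((n : ℝ) ^ (1 - η)) ^ s ≤ |C| * ((n : ℝ) ^ (-(ε / 4)) * n) := by
      rw [mul_div_assoc, e3]
      exact mul_le_mul_of_nonneg_right (le_abs_self C) (by positivity)
    calc (n : ℝ) ^ (1 - η) + 1 + C * (n : ℝ) ^ (g + ε / 4) / ((n : ℝ) ^ (1 - η)) ^ s ≤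
          (n : ℝ) ^ (1 - η) + 1 + |C| * ((n : ℝ) ^ (-(ε / 4)) * n) := by linarith
      _ = ((n : ℝ) ^ (-η) + (n : ℝ) ^ (-1 : ℝ) + |C| * (n : ℝ) ^ (-(ε / 4))) * n := by
          rw [add_mul, add_mul, e1, e2]
          ring
  have ht : Tendsto (fun n : ℕ => (n : ℝ) ^ (-η) + (n : ℝ) ^ (-1 : ℝ) + |C| * (n : ℝ) ^ (-(ε / 4))) atTop (𝓝 0) := by
    have t1 : Tendsto (fun n : ℕ => (n : ℝ) ^ (-η)) atTop (𝓝 0) :=
      (tendsto_rpow_neg_atTop hη0).comp tendsto_natCast_atTop_atTop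
    have t2 : Tendsto (fun n : ℕ => (n : ℝ) ^ (-1 : ℝ)) atTop (𝓝 0) :=
      (tendsto_rpow_neg_atTop one_pos).comp tendsto_natCast_atTop_atTop
    have t3 : Tendsto (fun n : ℕ => (n : ℝ) ^ (-(ε / 4))) atTop (𝓝 0) :=
      (tendsto_rpow_neg_atTop (by positivity)).comp tendsto_natCast_atTop_atTop
    have t4 := (t1.add t2).add (t3.const_mul |C|)
    simpa using t4
  refine tendsto_of_tendsto_of_tendsto_of_le_of_le' tendsto_const_nhds ht ?_ ?_
  · exact Eventually.of_forall fun n => by positivity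
  · exact eventually_atTop.2 ⟨1, hb⟩

/-- **All bounds**, on aB and muB. -/
theorem gamma_all (H : HUp (61 / 48)) (hU : Pool.Agent.NUF.NumUp) (hL : Pool.Agent.NUF.NFLow) :
    (∀ ε : ℝ, 0 < ε → ∃ C : ℝ, 0 < C ∧ ∀ n : ℕ, 1 ≤ n →
      C⁻¹ * (n : ℝ) ^ (17 / 16 - ε) ≤ ∑ k ∈ range (n + 1), (aB k : ℝ) / muB ^ k ∧
      ∑ k ∈ range (n + 1), (aB k : ℝ) / muB ^ k ≤ C * (n : ℝ) ^ (43 / 32 + ε) ∧
      (aB n : ℝ) ≤ C * (n : ℝ) ^ (11 / 16 + ε) * muB ^ n) ∧
    ∀ ε : ℝ, 0 < ε → Tendsto (fun n : ℕ =>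
      (((range n).filter (fun k : ℕ => (k : ℝ) ^ (11 / 32 + ε) * muB ^ k < aB k)).card : ℝ) / n) atTop (𝓝 0) := by
  constructor
  · intro ε hε
    obtain ⟨c, hc, h1⟩ := cum_low hU hL hε
    obtain ⟨C, h2⟩ := cum_up H hL (show 0 < ε / 2 by positivity)
    obtain ⟨D, hD⟩ : ∃ D, D = max (max c⁻¹ |C|) (C ^ 2 + 1) := ⟨_, rfl⟩
    have hD1 : c⁻¹ ≤ D := by rw [hD]; exact (le_max_left _ _).trans (le_max_left _ _)
    have hD2 : |C| ≤ D := by rw [hD]; exact (le_max_right _ _).trans (le_max_left _ _)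
    have hD3 : C ^ 2 ≤ D := by
      rw [hD]
      exact le_trans (by linarith) (le_max_right _ _)
    have hD0 : 0 < D := lt_of_lt_of_le (inv_pos.2 hc) hD1
    refine ⟨D, hD0, fun n hn => ?_⟩
    have hn1 : (1 : ℝ) ≤ n := by exact_mod_cast hn
    have hn0 : (0 : ℝ) < n := by linarith
    have hmu := muB_pos
    refine ⟨?_, ?_, ?_⟩
    · refine le_trans (mul_le_mul_of_nonneg_right ?_ (by positivity)) (h1 n hn)
      rw [inv_le_comm₀ hD0 hc]
      exact hD1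
    · refine (h2 n hn).trans ?_
      calc C * (n : ℝ) ^ (43 / 32 + ε / 2) ≤ |C| * (n : ℝ) ^ (43 / 32 + ε / 2) :=
            mul_le_mul_of_nonneg_right (le_abs_self C) (by positivity)
        _ ≤ D * (n : ℝ) ^ (43 / 32 + ε) := mul_le_mul hD2
            (Real.rpow_le_rpow_of_exponent_le hn1 (by linarith)) (by positivity) hD0.le
    · have h3 := aB_of_cum hn (h2 n hn)
      have e : (2 * (43 / 32 + ε / 2) - 2 : ℝ) = 11 / 16 + ε := by ring
      rw [e] at h3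
      refine h3.trans (mul_le_mul_of_nonneg_right ?_ (by positivity))
      exact mul_le_mul_of_nonneg_right hD3 (by positivity)
  · intro ε hε
    have h1 := few_large (g := 43 / 32) (by norm_num) (fun ε hε => cum_up H hL hε) ε hε
    have e : (43 / 32 - 1 + ε : ℝ) = 11 / 32 + ε := by norm_num
    rwa [e] at h1

end BAR

end HexObs
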