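import Pool.Agent.BAR.Gamma
import Pool.Agent.BAR.PubD
import Pool.Agent.T2.LongQ

/-!
BAR, the exponent gamma from above, part 2: the walks of a given extent (gamma / nu = 43 / 24, half plane 61 / 48), in brick
wall coordinates, and the cumulative sums with the excess 1 / 4 of the length of the long walks (no further input).
-/

set_option autoImplicit false

namespace HexObs

namespace BARPub

open Finset Filter

open scoped ENNReal Topology

/-- a power bound in the extended half line, read in the reals -/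
lemma toReal_pow {g : ℝ≥0∞} {A s x : ℝ} (h : g ≤ ENNReal.ofReal (A * x ^ s)) (hx : 0 ≤ x) :
    g.toReal ≤ |A| * x ^ s := by
  have h1 : g ≤ ENNReal.ofReal (|A| * x ^ s) :=
    h.trans (ENNReal.ofReal_le_ofReal (mul_le_mul_of_nonneg_right (le_abs_self A) (Real.rpow_nonneg hx s)))
  have h2 := ENNReal.toReal_mono ENNReal.ofReal_ne_top h1
  rwa [ENNReal.toReal_ofReal (mul_nonneg (abs_nonneg A) (Real.rpow_nonneg hx s))] at h2

/-- **the walks of a given extent**, upper bounds -/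
theorem size_up (H : BAR.HUp (61 / 48)) : ∀ ε : ℝ, 0 < ε → ∃ C : ℝ, 0 < C ∧ ∀ h x : ℕ → ℕ → ℕ,
    (∀ n m : ℕ, h n m = Set.ncard {f : Fin (n + 1) → ℤ × ℤ | f 0 = 0 ∧ Function.Injective f ∧
      (∀ i : Fin n, AdjB (f i.castSucc) (f i.succ)) ∧ ∀ i : Fin n, 1 ≤ (f i.succ).2 ∧ (f i.succ).2 ≤ (m : ℤ)}) →
    (∀ n m : ℕ, x n m = Set.ncard {f : Fin (n + 1) → ℤ × ℤ | f 0 = 0 ∧ Function.Injective f ∧
      (∀ i : Fin n, AdjB (f i.castSucc) (f i.succ)) ∧ ∃ c : ℤ, ∀ i : Fin (n + 1), c ≤ (f i).2 ∧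
        (f i).2 ≤ c + (m : ℤ)}) →
    ∀ m : ℕ, 1 ≤ m →
      Summable (fun n => (h n m : ℝ) / muB ^ n) ∧ Summable (fun n => (x n m : ℝ) / muB ^ n) ∧
      ∑' n, (h n m : ℝ) / muB ^ n ≤ C * (m : ℝ) ^ (61 / 48 + ε) ∧
      ∑' n, (x n m : ℝ) / muB ^ n ≤ C * (m : ℝ) ^ (43 / 24 + ε) := by
  intro ε hε
  obtain ⟨A, hA⟩ := H ε hε
  obtain ⟨B, hB⟩ := BAR.chi_up_of_HH (h := 61 / 48) (by norm_num) H ε hε
  obtain ⟨K, hK, hXK⟩ := XL_le
  have e24 : (2 * (61 / 48) - 3 / 4 + ε : ℝ) = 43 / 24 + ε := by norm_num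
  rw [e24] at hB
  obtain ⟨C, hC⟩ : ∃ C : ℝ, C = max (2 * |A| + 1) (K * |B| * 2 ^ (43 / 24 + ε)) := ⟨_, rfl⟩
  have hC1 : 2 * |A| ≤ C := by
    rw [hC]
    exact le_trans (by linarith) (le_max_left _ _)
  have hC2 : K * |B| * 2 ^ (43 / 24 + ε) ≤ C := by rw [hC]; exact le_max_right _ _
  have hC0 : 0 < C := by
    rw [hC]
    exact lt_of_lt_of_le (by positivity) (le_max_left _ _)
  refine ⟨C, hC0, fun h x hh hx m hm => ?_⟩
  have hH : Summable (fun n => (h n m : ℝ) / muB ^ n) ∧ ∑' n, (h n m : ℝ) / muB ^ n = (gl (HL m)).toReal := by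
    have hmu : 0 < muB := BAR.muB_pos
    refine real_of (fun n => by positivity) ?_ (HL_fin m)
    rw [← tsum_H m]
    refine tsum_congr fun n => ?_
    rw [hh n m]
    rfl
  have hX : Summable (fun n => (x n m : ℝ) / muB ^ n) ∧ ∑' n, (x n m : ℝ) / muB ^ n = (gl (XL m)).toReal := by
    have hmu : 0 < muB := BAR.muB_pos
    refine real_of (fun n => by positivity) ?_ (XL_fin hm)
    rw [← tsum_X m]
    refine tsum_congr fun n => ?_
    rw [hx n m]
    rfl
  have hm0 : (1 : ℝ) ≤ m := by exact_mod_cast hm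
  refine ⟨hH.1, hX.1, ?_, ?_⟩
  · rw [hH.2]
    have h1 : gl (HL m) ≤ ENNReal.ofReal (2 * |A| * (m : ℝ) ^ (61 / 48 + ε)) := by
      refine (HL_le m).trans ?_
      have h2 : BAR.HH m ≤ ENNReal.ofReal (|A| * (m : ℝ) ^ (61 / 48 + ε)) :=
        (hA m hm).trans (ENNReal.ofReal_le_ofReal (mul_le_mul_of_nonneg_right (le_abs_self A) (by positivity)))
      calc 2 * BAR.HH m ≤ ENNReal.ofReal 2 * ENNReal.ofReal (|A| * (m : ℝ) ^ (61 / 48 + ε)) := by
            refine mul_le_mul' (le_of_eq ?_) h2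
            norm_num
        _ = ENNReal.ofReal (2 * |A| * (m : ℝ) ^ (61 / 48 + ε)) := by
            rw [← ENNReal.ofReal_mul (by norm_num)]
            congr 1
            ring
    have h3 := toReal_pow h1 (by positivity)
    rw [abs_of_nonneg (by positivity)] at h3
    exact h3.trans (mul_le_mul_of_nonneg_right hC1 (by positivity))
  · rw [hX.2]
    have h1 : gl (XL m) ≤ ENNReal.ofReal (K * |B| * 2 ^ (43 / 24 + ε) * (m : ℝ) ^ (43 / 24 + ε)) := by
      refine (hXK m).trans ?_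
      have h2 := hB (m + 1) (by omega)
      have h3 : B * ((m + 1 : ℕ) : ℝ) ^ (43 / 24 + ε) ≤ |B| * (2 ^ (43 / 24 + ε) * (m : ℝ) ^ (43 / 24 + ε)) := by
        have h4 : ((m + 1 : ℕ) : ℝ) ≤ 2 * m := by
          push_cast
          linarith
        have h5 : ((m + 1 : ℕ) : ℝ) ^ (43 / 24 + ε) ≤ (2 * (m : ℝ)) ^ (43 / 24 + ε) :=
          Real.rpow_le_rpow (by positivity) h4 (by positivity)
        rw [Real.mul_rpow (by norm_num) (by positivity)] at h5
        exact mul_le_mul (le_abs_self B) h5 (by positivity) (abs_nonneg B)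
      calc ENNReal.ofReal K * BAR.Chi (m + 1) ≤
            ENNReal.ofReal K * ENNReal.ofReal (|B| * (2 ^ (43 / 24 + ε) * (m : ℝ) ^ (43 / 24 + ε))) :=
              mul_le_mul' le_rfl (h2.trans (ENNReal.ofReal_le_ofReal h3))
        _ = ENNReal.ofReal (K * |B| * 2 ^ (43 / 24 + ε) * (m : ℝ) ^ (43 / 24 + ε)) := by
            rw [← ENNReal.ofReal_mul hK.le]
            congr 1
            ring
    have h3 := toReal_pow h1 (by positivity)
    rw [abs_of_nonneg (by positivity)] at h3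
    exact h3.trans (mul_le_mul_of_nonneg_right hC2 (by positivity))

end BARPub

namespace BAR

open Finset Filter

open scoped ENNReal Topology

/-- **the bounds without further input**: the excess 1 / 4 of the length of the long walks -/
theorem gamma_quarter (H : HUp (61 / 48)) :
    (∀ ε : ℝ, 0 < ε → ∃ C : ℝ, 0 < C ∧ ∀ n : ℕ, 1 ≤ n →
      ∑ k ∈ range (n + 1), (aB k : ℝ) / muB ^ k ≤ C * (n : ℝ) ^ (43 / 30 + ε) ∧
      (aB n : ℝ) ≤ C * (n : ℝ) ^ (13 / 15 + ε) * muB ^ n) ∧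
    ∀ ε : ℝ, 0 < ε → Tendsto (fun n : ℕ =>
      (((range n).filter (fun k : ℕ => (k : ℝ) ^ (13 / 30 + ε) * muB ^ k < aB k)).card : ℝ) / n) atTop (𝓝 0) := by
  have hcum : ∀ ε : ℝ, 0 < ε → ∃ C : ℝ, ∀ n : ℕ, 1 ≤ n → cum n ≤ C * (n : ℝ) ^ (43 / 30 + ε) := by
    intro ε hε
    refine cum_up_gen H (by norm_num) T2.longWalks_quarter ?_
    have e : (43 / 24 / (1 + 1 / 4) : ℝ) = 43 / 30 := by norm_num
    rw [e]
    linarith
  constructor
  · intro ε hε
    obtain ⟨C, h2⟩ := hcum (ε / 2) (by positivity)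
    obtain ⟨D, hD⟩ : ∃ D, D = max |C| (C ^ 2 + 1) := ⟨_, rfl⟩
    have hD2 : |C| ≤ D := by rw [hD]; exact le_max_left _ _
    have hD3 : C ^ 2 ≤ D := by
      rw [hD]
      exact le_trans (by linarith) (le_max_right _ _)
    have hD0 : 0 < D := by
      rw [hD]
      exact lt_of_lt_of_le (by positivity) (le_max_right _ _)
    refine ⟨D, hD0, fun n hn => ?_⟩
    have hn1 : (1 : ℝ) ≤ n := by exact_mod_cast hn
    have hn0 : (0 : ℝ) < n := by linarith
    have hmu := muB_pos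
    refine ⟨?_, ?_⟩
    · refine (h2 n hn).trans ?_
      calc C * (n : ℝ) ^ (43 / 30 + ε / 2) ≤ |C| * (n : ℝ) ^ (43 / 30 + ε / 2) :=
            mul_le_mul_of_nonneg_right (le_abs_self C) (by positivity)
        _ ≤ D * (n : ℝ) ^ (43 / 30 + ε) := mul_le_mul hD2
            (Real.rpow_le_rpow_of_exponent_le hn1 (by linarith)) (by positivity) hD0.le
    · have h3 := aB_of_cum hn (h2 n hn)
      have e : (2 * (43 / 30 + ε / 2) - 2 : ℝ) = 13 / 15 + ε := by ring
      rw [e] at h3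
      refine h3.trans (mul_le_mul_of_nonneg_right ?_ (by positivity))
      exact mul_le_mul_of_nonneg_right hD3 (by positivity)
  · intro ε hε
    have h1 := few_large (g := 43 / 30) (by norm_num) hcum ε hε
    have e : (43 / 30 - 1 + ε : ℝ) = 13 / 30 + ε := by norm_num
    rwa [e] at h1

end BAR

end HexObs
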