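import Pool.Agent.BAR.Power
import Pool.Agent.BAR1.Main

/-!
BAR: growth of the weight of the half plane walks, the closed form of the scaling relation.
-/

set_option autoImplicit false

namespace HexObs

open Complex Finset ENNReal

namespace BAR

/-- a bridge in front of a half plane word with few cuts -/
lemma pre_mem {r m D K : ℕ} (hr : r ≤ m) {b w : List Bool} (hb : b ∈ Brd r) (hw : w ∈ FW D K) :
    b ++ w ∈ SSt (m + D) ∧ SpP 1 K (b ++ w) b.length := by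
  obtain ⟨hw1, hw2⟩ := hw
  refine ⟨SSt_mono (by omega) (SSt_cat hb hw1), ?_⟩
  have hb' := mem_Brd.1 hb
  have hlev : lev (b ++ w) b.length = 3 * (r : ℤ) := at_cut hb
  refine ⟨by rw [List.length_append]; omega, ?_, ?_, ?_, ?_⟩
  · rw [dx_append le_rfl, hb'.2.2.1, one_smul]
  · intro i hi
    rw [one_mul, one_mul, hlev, lev_append (by omega)]
    rcases Nat.eq_zero_or_pos i with h0 | h0
    · rw [h0, lev_zero]
      positivity
    · exact (hb'.1 i h0 hi).2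
  · intro i hi hil
    rw [one_mul, one_mul, hlev]
    exact beyond hb (pos_SSt hw1) hi hil
  · rw [List.drop_left]
    exact hw2

/-- pairs of a bridge and a half plane word with few cuts -/
theorem pre_le (m D K : ℕ) :
    ENNReal.ofReal (UU m) * gf (FW D K) ≤ ENNReal.ofReal ((K : ℝ) + 1) * HH (m + D) := by
  classical
  obtain ⟨B, hB⟩ : ∃ B : Set (List Bool), B = ⋃ r ∈ Finset.range (m + 1), Brd r := ⟨_, rfl⟩
  have hgB : ENNReal.ofReal (UU m) ≤ gf B := by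
    rw [hB, ← sum_BT, Finset.sum_congr rfl fun r _ => (gf_Brd r).symm]
    exact gf_bi_eq _ _ fun i j w hi hj => Brd_height hi hj
  let G : List Bool × ℕ → ℝ≥0∞ := fun q => if q.1 ∈ SSt (m + D) ∧ q.2 ∈ spl 1 K q.1 then wE q.1 else 0
  let F : B × FW D K → List Bool × ℕ := fun q => (q.1.1 ++ q.2.1, q.1.1.length)
  have hFinj : Function.Injective F := by
    rintro ⟨a, b⟩ ⟨a', b'⟩ h
    have e2 : a.1 ++ b.1 = a'.1 ++ b'.1 := congrArg (fun q => q.1) h
    have e3 : a.1.length = a'.1.length := congrArg (fun q => q.2) h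
    obtain ⟨e4, e5⟩ := List.append_inj e2 e3
    exact Prod.ext (Subtype.ext e4) (Subtype.ext e5)
  have hval : ∀ q : B × FW D K, wE q.1.1 * wE q.2.1 = G (F q) := by
    rintro ⟨a, b⟩
    have ha : a.1 ∈ ⋃ r ∈ Finset.range (m + 1), Brd r := hB.subset a.2
    rw [Set.mem_iUnion₂] at ha
    obtain ⟨r, hr, har⟩ := ha
    have h1 := pre_mem (m := m) (by have := Finset.mem_range.1 hr; omega) har b.2
    have h2 : (a.1 ++ b.1) ∈ SSt (m + D) ∧ a.1.length ∈ spl 1 K (a.1 ++ b.1) := ⟨h1.1, mem_spl.2 h1.2⟩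
    show wE a.1 * wE b.1 = if (a.1 ++ b.1) ∈ SSt (m + D) ∧ a.1.length ∈ spl 1 K (a.1 ++ b.1) then
      wE (a.1 ++ b.1) else 0
    rw [if_pos h2, wE_append]
  calc ENNReal.ofReal (UU m) * gf (FW D K) ≤ gf B * gf (FW D K) := mul_le_mul' hgB le_rfl
    _ = ∑' q : B × FW D K, wE q.1.1 * wE q.2.1 := by
        unfold gf
        rw [← ENNReal.tsum_mul_right]
        simp_rw [← ENNReal.tsum_mul_left]
        rw [← ENNReal.tsum_prod]
    _ = ∑' q : B × FW D K, G (F q) := tsum_congr hval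
    _ ≤ ∑' q, G q := ENNReal.tsum_comp_le_tsum_of_injective hFinj G
    _ = ∑' t : List Bool, ∑' p : ℕ, G (t, p) := by
        rw [ENNReal.tsum_prod']
    _ ≤ ∑' t : List Bool, (SSt (m + D)).indicator (fun t => ENNReal.ofReal ((K : ℝ) + 1) * wE t) t := by
        refine ENNReal.tsum_le_tsum fun t => ?_
        by_cases ht : t ∈ SSt (m + D)
        · rw [Set.indicator_of_mem ht]
          have h1 : ∑' p : ℕ, G (t, p) = ∑ p ∈ spl 1 K t, wE t := by
            rw [tsum_eq_sum (s := spl 1 K t)]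
            · refine Finset.sum_congr rfl fun p hp => ?_
              show (if t ∈ SSt (m + D) ∧ p ∈ spl 1 K t then wE t else 0) = _
              rw [if_pos ⟨ht, hp⟩]
            · intro p hp
              show (if t ∈ SSt (m + D) ∧ p ∈ spl 1 K t then wE t else 0) = 0
              rw [if_neg (fun h => hp h.2)]
          rw [h1, Finset.sum_const, nsmul_eq_mul]
          refine mul_le_mul' ?_ le_rfl
          rw [← ENNReal.ofReal_natCast]
          apply ENNReal.ofReal_le_ofReal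
          exact_mod_cast spl_card (Or.inl rfl) K t
        · rw [Set.indicator_of_notMem ht]
          refine le_of_eq ?_
          rw [ENNReal.tsum_eq_zero]
          intro p
          show (if t ∈ SSt (m + D) ∧ p ∈ spl 1 K t then wE t else 0) = 0
          rw [if_neg (fun h => ht h.1)]
    _ = ENNReal.ofReal ((K : ℝ) + 1) * HH (m + D) := by
        unfold HH gf
        rw [← tsum_subtype (SSt (m + D)) (fun t => ENNReal.ofReal ((K : ℝ) + 1) * wE t), ENNReal.tsum_mul_left]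

/-- GROWTH of the weight of the half plane walks -/
theorem growth : ∃ C : ℝ, 0 < C ∧ ∀ m D : ℕ,
    ENNReal.ofReal (UU m) * HH D ≤ ENNReal.ofReal (C * ((D : ℝ) + 1) ^ (3 / 4 : ℝ)) * HH (m + D) := by
  obtain ⟨C, hC, hKK⟩ := KK_low
  refine ⟨4 * C, by linarith, fun m D => ?_⟩
  have hD1 : (1 : ℝ) ≤ ((D : ℝ) + 1) ^ (3 / 4 : ℝ) := by
    apply Real.one_le_rpow _ (by norm_num)
    have := Nat.cast_nonneg (α := ℝ) D
    linarith
  have hCm : 1 ≤ C * ((D : ℝ) + 1) ^ (3 / 4 : ℝ) := by nlinarith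
  obtain ⟨K, hK⟩ : ∃ K : ℕ, K = ⌊C * ((D : ℝ) + 1) ^ (3 / 4 : ℝ)⌋₊ := ⟨_, rfl⟩
  have hK1 : C * ((D : ℝ) + 1) ^ (3 / 4 : ℝ) ≤ K + 1 := by
    rw [hK]
    exact (Nat.lt_floor_add_one _).le
  have hK2 : (K : ℝ) ≤ C * ((D : ℝ) + 1) ^ (3 / 4 : ℝ) := by
    rw [hK]
    exact Nat.floor_le (by linarith)
  have h1 := HH_le_FW hC D (hKK D) hK1
  calc ENNReal.ofReal (UU m) * HH D ≤ ENNReal.ofReal (UU m) * (2 * gf (FW D K)) := mul_le_mul' le_rfl h1
    _ = 2 * (ENNReal.ofReal (UU m) * gf (FW D K)) := by ring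
    _ ≤ 2 * (ENNReal.ofReal ((K : ℝ) + 1) * HH (m + D)) := mul_le_mul' le_rfl (pre_le m D K)
    _ = ENNReal.ofReal (2 * ((K : ℝ) + 1)) * HH (m + D) := by
        have e2 : (2 : ℝ≥0∞) = ENNReal.ofReal 2 := by norm_num
        rw [e2, ← mul_assoc, ← ENNReal.ofReal_mul (by norm_num)]
    _ ≤ _ := mul_le_mul' (ENNReal.ofReal_le_ofReal (by nlinarith)) le_rfl

/-- the dyadic sum in closed form -/
theorem SH_le : ∃ C : ℝ, 0 < C ∧ ∀ m : ℕ, 1 ≤ m →
    SH m ≤ ENNReal.ofReal (C * (lg m * (m : ℝ) ^ (-(3 / 4) : ℝ))) * HH (5 * m) := by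
  obtain ⟨C1, hC1, h1⟩ := growth
  obtain ⟨c, C2, hc, hC2, hU⟩ := UU_two
  refine ⟨C1 * 5 / c / c, by positivity, fun m hm => ?_⟩
  have hm0 : (0 : ℝ) < m := by exact_mod_cast hm
  have hterm : ∀ k ∈ Finset.range (Nat.log 2 m + 1), HH (4 * 2 ^ k) * ENNReal.ofReal (1 / UU (2 ^ k)) ≤
      ENNReal.ofReal (C1 * 5 / c / c * (m : ℝ) ^ (-(3 / 4) : ℝ)) * HH (5 * m) := by
    intro k hk
    rw [Finset.mem_range] at hk
    have hkm : 2 ^ k ≤ m := (Nat.pow_le_pow_right (by norm_num) (by omega)).trans (Nat.pow_log_le_self 2 (by omega))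
    obtain ⟨D, hD⟩ : ∃ D : ℕ, D = 2 ^ k := ⟨_, rfl⟩
    have hD1 : 1 ≤ D := by rw [hD]; exact Nat.one_le_two_pow
    rw [← hD] at hkm ⊢
    have hD0 : (1 : ℝ) ≤ (D : ℝ) := by exact_mod_cast hD1
    have h2 := h1 m (4 * D)
    have h3 := (hU D hD1).1
    have h4 := (hU m hm).1
    have hUm : 0 < UU m := Num2Aux.UU_pos m
    have hUD : 0 < UU D := Num2Aux.UU_pos D
    have h5 : ((4 * D : ℕ) : ℝ) + 1 ≤ 5 * D := by push_cast; linarith
    have h6 : (((4 * D : ℕ) : ℝ) + 1) ^ (3 / 4 : ℝ) ≤ 5 * (D : ℝ) ^ (3 / 4 : ℝ) := by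
      calc (((4 * D : ℕ) : ℝ) + 1) ^ (3 / 4 : ℝ) ≤ (5 * (D : ℝ)) ^ (3 / 4 : ℝ) :=
            Real.rpow_le_rpow (by positivity) h5 (by norm_num)
        _ = 5 ^ (3 / 4 : ℝ) * (D : ℝ) ^ (3 / 4 : ℝ) := Real.mul_rpow (by norm_num) (by positivity)
        _ ≤ 5 * (D : ℝ) ^ (3 / 4 : ℝ) := by
            refine mul_le_mul_of_nonneg_right ?_ (by positivity)
            calc (5 : ℝ) ^ (3 / 4 : ℝ) ≤ 5 ^ (1 : ℝ) :=
                  Real.rpow_le_rpow_of_exponent_le (by norm_num) (by norm_num)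
              _ = 5 := Real.rpow_one 5
    -- divide the growth by UU m
    have h7 : HH (4 * D) ≤ ENNReal.ofReal (C1 * (5 * (D : ℝ) ^ (3 / 4 : ℝ)) / UU m) * HH (5 * m) := by
      have h8 : ENNReal.ofReal (1 / UU m) * (ENNReal.ofReal (UU m) * HH (4 * D)) = HH (4 * D) := by
        rw [← mul_assoc, ← ENNReal.ofReal_mul (by positivity), one_div_mul_cancel hUm.ne', ENNReal.ofReal_one,
          one_mul]
      rw [← h8]
      refine (mul_le_mul' le_rfl h2).trans ?_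
      rw [← mul_assoc, ← ENNReal.ofReal_mul (by positivity)]
      refine mul_le_mul' (ENNReal.ofReal_le_ofReal ?_) (HH_mono (by omega))
      rw [one_div, inv_mul_eq_div]
      exact div_le_div_of_nonneg_right (mul_le_mul_of_nonneg_left h6 hC1.le) hUm.le
    refine (mul_le_mul' h7 le_rfl).trans ?_
    rw [mul_right_comm, ← ENNReal.ofReal_mul (by positivity)]
    refine mul_le_mul' (ENNReal.ofReal_le_ofReal ?_) le_rfl
    have hDp : 0 < (D : ℝ) ^ (3 / 4 : ℝ) := by positivity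
    have hmp : 0 < (m : ℝ) ^ (3 / 4 : ℝ) := by positivity
    have e1 : (m : ℝ) ^ (-(3 / 4) : ℝ) = 1 / (m : ℝ) ^ (3 / 4 : ℝ) := by
      rw [Real.rpow_neg hm0.le, one_div]
    rw [e1]
    calc C1 * (5 * (D : ℝ) ^ (3 / 4 : ℝ)) / UU m * (1 / UU D)
        ≤ C1 * (5 * (D : ℝ) ^ (3 / 4 : ℝ)) / (c * (m : ℝ) ^ (3 / 4 : ℝ)) * (1 / (c * (D : ℝ) ^ (3 / 4 : ℝ))) := by
          refine mul_le_mul ?_ ?_ (by positivity) (by positivity)
          · exact div_le_div_of_nonneg_left (by positivity) (by positivity) h4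
          · exact div_le_div_of_nonneg_left (by norm_num) (by positivity) h3
      _ = C1 * 5 / c / c * (1 / (m : ℝ) ^ (3 / 4 : ℝ)) := by
          field_simp
  refine (Finset.sum_le_sum hterm).trans ?_
  rw [Finset.sum_const, Finset.card_range, nsmul_eq_mul, ← mul_assoc]
  refine mul_le_mul' ?_ le_rfl
  rw [← ENNReal.ofReal_natCast, ← ENNReal.ofReal_mul (by positivity)]
  apply ENNReal.ofReal_le_ofReal
  unfold lg
  push_cast
  apply le_of_eq
  ring

/-- **THE SCALING RELATION, upper half**: all walks of extent at most m against the square of the half plane walks -/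
theorem Chi_le_HH_sq : ∃ C : ℝ, 1 ≤ C ∧ ∀ m : ℕ, 1 ≤ m →
    Chi m ≤ ENNReal.ofReal (C * lg (2 * m) ^ C * (m : ℝ) ^ (-(3 / 4) : ℝ)) * HH (5 * m) ^ 2 := by
  obtain ⟨C1, hC1, h1⟩ := Chi_upper
  obtain ⟨C2, hC2, h2⟩ := SH_le
  obtain ⟨C, hCdef⟩ : ∃ C : ℝ, C = max (C1 * C2) (C1 + 1) := ⟨_, rfl⟩
  have hCa : C1 * C2 ≤ C := by rw [hCdef]; exact le_max_left _ _
  have hCb : C1 + 1 ≤ C := by rw [hCdef]; exact le_max_right _ _
  refine ⟨C, by linarith, fun m hm => ?_⟩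
  have hm0 : (0 : ℝ) < m := by exact_mod_cast hm
  obtain ⟨L, hL⟩ : ∃ L : ℝ, L = lg (2 * m) := ⟨_, rfl⟩
  have hL1 : 1 ≤ L := by rw [hL]; exact lg_one _
  have hL0 : 0 < L := by linarith
  have hlm : lg m ≤ L := by rw [hL]; exact lg_mono (by omega)
  have h0 := h1 m hm
  rw [← hL] at h0 ⊢
  have h4 : SH m ≤ ENNReal.ofReal (C2 * (L * (m : ℝ) ^ (-(3 / 4) : ℝ))) * HH (5 * m) := by
    refine (h2 m hm).trans (mul_le_mul' (ENNReal.ofReal_le_ofReal ?_) le_rfl)
    refine mul_le_mul_of_nonneg_left ?_ hC2.le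
    exact mul_le_mul_of_nonneg_right hlm (by positivity)
  have h5 : HH (4 * m) ≤ HH (5 * m) := HH_mono (by omega)
  refine h0.trans ((mul_le_mul' le_rfl (mul_le_mul' h5 h4)).trans ?_)
  have e0 : ENNReal.ofReal (C1 * L ^ C1) * (HH (5 * m) *
      (ENNReal.ofReal (C2 * (L * (m : ℝ) ^ (-(3 / 4) : ℝ))) * HH (5 * m))) =
      (ENNReal.ofReal (C1 * L ^ C1) * ENNReal.ofReal (C2 * (L * (m : ℝ) ^ (-(3 / 4) : ℝ)))) * HH (5 * m) ^ 2 := by
    ring
  rw [e0, ← ENNReal.ofReal_mul (by positivity)]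
  refine mul_le_mul' (ENNReal.ofReal_le_ofReal ?_) le_rfl
  have e3 : L ^ C1 * L = L ^ (C1 + 1) := by
    rw [Real.rpow_add hL0, Real.rpow_one]
  calc C1 * L ^ C1 * (C2 * (L * (m : ℝ) ^ (-(3 / 4) : ℝ)))
      = (C1 * C2) * (L ^ C1 * L) * (m : ℝ) ^ (-(3 / 4) : ℝ) := by ring
    _ = (C1 * C2) * L ^ (C1 + 1) * (m : ℝ) ^ (-(3 / 4) : ℝ) := by rw [e3]
    _ ≤ C * L ^ C * (m : ℝ) ^ (-(3 / 4) : ℝ) := by
        refine mul_le_mul_of_nonneg_right ?_ (by positivity)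
        exact mul_le_mul hCa (Real.rpow_le_rpow_of_exponent_le hL1 hCb) (by positivity) (by linarith)

end BAR

end HexObs
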