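import Pool.Agent.BAR.Defs
import Pool.Agent.PHW.ChainS
import Pool.Agent.PHW.ChainI

/-!
BAR: weighted sums over bridges, cut at the jump over a level.
-/

set_option autoImplicit false

namespace HexObs

open Complex Finset ENNReal

namespace BAR

/-- total weight of the bridges of height u with the additional weight F -/
noncomputable def WB (F : List Bool → ℝ≥0∞) (u : ℕ) : ℝ≥0∞ := ∑' t : {t : List Bool // t ∈ Brd u}, wE t.1 * F t.1

open Classical in
lemma WB_ind (F : List Bool → ℝ≥0∞) (a : ℕ) :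
    WB F a = ∑' t : List Bool, if t ∈ Brd a then wE t * F t else 0 := by
  unfold WB
  rw [tsum_subtype (Brd a) (fun g : List Bool => wE g * F g)]
  exact tsum_congr fun t => by simp only [Set.indicator_apply]

/-- a bridge of height n + 1 is cut at its jump over the height l -/
lemma jump_sum {F : List Bool → ℝ≥0∞} (hF : ∀ s t, F (s ++ t) ≤ F t) {n l : ℕ} (hl : l ≤ n)
    (R : List Bool → Prop) (hR : ∀ N w, R (N ++ w) → R N) :
    ∑' g' : {g' : List Bool // g' ∈ Brd (n + 1) ∧ R g'}, wE g'.1 * F g'.1 ≤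
    ∑ i ∈ Finset.range (l + 1), ∑ r ∈ Finset.Ico (l + 1 - i) (n + 2 - i),
      gf {N | N ∈ Brd i ∧ R N} * kap' r * WB F (n + 1 - i - r) := by
  classical
  -- the pieces of a strand
  have hdec : ∀ x : {g' : List Bool // g' ∈ Brd (n + 1) ∧ R g'},
      ∃ y : (ℕ × ℕ) × (List Bool × List Bool × List Bool),
        (y.1.1 ∈ Finset.range (l + 1) ∧ y.1.2 ∈ Finset.Ico (l + 1 - y.1.1) (n + 2 - y.1.1)) ∧
        (y.2.1 ∈ Brd y.1.1 ∧ R y.2.1) ∧ y.2.2.1 ∈ Irr y.1.2 ∧ y.2.2.2 ∈ Brd (n + 1 - y.1.1 - y.1.2) ∧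
        x.1 = y.2.1 ++ y.2.2.1 ++ y.2.2.2 := by
    intro x
    obtain ⟨j, r, a, p, u, h1, h2, h3, ha, hp, hu, he⟩ := jump_dec (s := l) (n := n + 1) (by omega) x.2.1
    refine ⟨((j, r), (a, p, u)), ⟨?_, ?_⟩, ⟨ha, ?_⟩, hp, hu, he⟩
    · simp only [Finset.mem_range]
      omega
    · simp only [Finset.mem_Ico]
      omega
    · have := x.2.2
      rw [he, List.append_assoc] at this
      exact hR a _ this
  choose φ hφ1 hφ2 hφ3 hφ4 hφ5 using hdec
  have hinj : Function.Injective φ := by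
    intro x y hxy
    apply Subtype.ext
    rw [hφ5 x, hφ5 y, hxy]
  let G : (ℕ × ℕ) × (List Bool × List Bool × List Bool) → ℝ≥0∞ := fun y =>
    if y.1.1 ∈ Finset.range (l + 1) ∧ y.1.2 ∈ Finset.Ico (l + 1 - y.1.1) (n + 2 - y.1.1) then
      (if y.2.1 ∈ Brd y.1.1 ∧ R y.2.1 then wE y.2.1 else 0) *
        ((if y.2.2.1 ∈ Irr y.1.2 then wE y.2.2.1 else 0) *
          (if y.2.2.2 ∈ Brd (n + 1 - y.1.1 - y.1.2) then wE y.2.2.2 * F y.2.2.2 else 0))
    else 0
  have hle : ∀ x : {g' : List Bool // g' ∈ Brd (n + 1) ∧ R g'}, wE x.1 * F x.1 ≤ G (φ x) := by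
    intro x
    have e : G (φ x) = wE (φ x).2.1 * (wE (φ x).2.2.1 * (wE (φ x).2.2.2 * F (φ x).2.2.2)) := by
      show (if (φ x).1.1 ∈ Finset.range (l + 1) ∧ (φ x).1.2 ∈ Finset.Ico (l + 1 - (φ x).1.1) (n + 2 - (φ x).1.1) then
        (if (φ x).2.1 ∈ Brd (φ x).1.1 ∧ R (φ x).2.1 then wE (φ x).2.1 else 0) *
        ((if (φ x).2.2.1 ∈ Irr (φ x).1.2 then wE (φ x).2.2.1 else 0) *
          (if (φ x).2.2.2 ∈ Brd (n + 1 - (φ x).1.1 - (φ x).1.2) then
            wE (φ x).2.2.2 * F (φ x).2.2.2 else 0)) else 0) = _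
      rw [if_pos (hφ1 x), if_pos (hφ2 x), if_pos (hφ3 x), if_pos (hφ4 x)]
    rw [e]
    conv_lhs => rw [hφ5 x]
    rw [wE_append, wE_append]
    have h1 := hF ((φ x).2.1 ++ (φ x).2.2.1) (φ x).2.2.2
    calc wE (φ x).2.1 * wE (φ x).2.2.1 * wE (φ x).2.2.2 *
          F ((φ x).2.1 ++ (φ x).2.2.1 ++ (φ x).2.2.2)
        ≤ wE (φ x).2.1 * wE (φ x).2.2.1 * wE (φ x).2.2.2 * F (φ x).2.2.2 :=
          mul_le_mul_right h1 _
      _ = _ := by ring
  refine (ENNReal.tsum_le_tsum hle).trans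
    ((ENNReal.tsum_comp_le_tsum_of_injective hinj G).trans (le_of_eq ?_))
  rw [ENNReal.tsum_prod', ENNReal.tsum_prod']
  have hin : ∀ i r : ℕ, ∑' y : List Bool × List Bool × List Bool, G ((i, r), y) =
      if i ∈ Finset.range (l + 1) ∧ r ∈ Finset.Ico (l + 1 - i) (n + 2 - i) then
        gf {N | N ∈ Brd i ∧ R N} * kap' r * WB F (n + 1 - i - r) else 0 := by
    intro i r
    by_cases h : i ∈ Finset.range (l + 1) ∧ r ∈ Finset.Ico (l + 1 - i) (n + 2 - i)
    · rw [if_pos h]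
      have e : ∀ y : List Bool × List Bool × List Bool, G ((i, r), y) =
          (if y.1 ∈ Brd i ∧ R y.1 then wE y.1 else 0) *
          ((if y.2.1 ∈ Irr r then wE y.2.1 else 0) *
            (if y.2.2 ∈ Brd (n + 1 - i - r) then wE y.2.2 * F y.2.2 else 0)) := by
        intro y
        show (if i ∈ Finset.range (l + 1) ∧ r ∈ Finset.Ico (l + 1 - i) (n + 2 - i) then _ else _) = _
        rw [if_pos h]
      rw [tsum_congr e, ENNReal.tsum_prod']
      have e2 : ∀ N : List Bool, ∑' y : List Bool × List Bool,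
          (if N ∈ Brd i ∧ R N then wE N else 0) * ((if y.1 ∈ Irr r then wE y.1 else 0) *
            (if y.2 ∈ Brd (n + 1 - i - r) then wE y.2 * F y.2 else 0)) =
          (if N ∈ Brd i ∧ R N then wE N else 0) * (kap' r * WB F (n + 1 - i - r)) := by
        intro N
        rw [ENNReal.tsum_mul_left, ENNReal.tsum_prod']
        congr 1
        simp only [ENNReal.tsum_mul_left, ENNReal.tsum_mul_right]
        unfold kap'
        rw [gf_ind, WB_ind]
      rw [tsum_congr e2, ENNReal.tsum_mul_right, gf_ind, mul_assoc]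
      congr 1
      refine tsum_congr fun N => ?_
      by_cases hN : N ∈ Brd i ∧ R N
      · rw [if_pos hN]
        exact (if_pos hN).symm
      · rw [if_neg hN]
        exact (if_neg hN).symm
    · rw [if_neg h]
      have e : ∀ y : List Bool × List Bool × List Bool, G ((i, r), y) = 0 := by
        intro y
        show (if i ∈ Finset.range (l + 1) ∧ r ∈ Finset.Ico (l + 1 - i) (n + 2 - i) then _ else _) = _
        rw [if_neg h]
      rw [tsum_congr e, tsum_zero]
  simp only [hin]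
  have h1 : ∀ i : ℕ, ∑' r : ℕ, (if i ∈ Finset.range (l + 1) ∧ r ∈ Finset.Ico (l + 1 - i) (n + 2 - i) then
      gf {N | N ∈ Brd i ∧ R N} * kap' r * WB F (n + 1 - i - r) else 0) =
      if i ∈ Finset.range (l + 1) then ∑ r ∈ Finset.Ico (l + 1 - i) (n + 2 - i),
        gf {N | N ∈ Brd i ∧ R N} * kap' r * WB F (n + 1 - i - r) else 0 := by
    intro i
    by_cases hi : i ∈ Finset.range (l + 1)
    · rw [if_pos hi, tsum_eq_sum (s := Finset.Ico (l + 1 - i) (n + 2 - i))]
      · exact Finset.sum_congr rfl fun r hr => if_pos ⟨hi, hr⟩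
      · intro r hr
        exact if_neg fun h => hr h.2
    · rw [if_neg hi]
      rw [tsum_congr (fun r => if_neg fun h => hi h.1), tsum_zero]
  rw [tsum_congr h1, tsum_eq_sum (s := Finset.range (l + 1))]
  · exact Finset.sum_congr rfl fun i hi => if_pos hi
  · intro i hi
    exact if_neg hi

end BAR

end HexObs
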