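import Pool.Agent.BAR.LatC
import Pool.Agent.SDN.MainA

/-!
BAR, section 3, part D: the words of a strip of m rows that leave a box of radius 2 ^ L ≥ m ^ (1 + η) have a small total
weight.
-/

set_option autoImplicit false

namespace HexObs

namespace BAR

open Complex Finset ENNReal SDN PLW

lemma tail_num {K K' q η : ℝ} (hK : 0 < K) (hK' : 0 ≤ K') (hq : 0 < q) (hq1 : q < 1) (hη : 0 < η) :
    ∃ L1 : ℕ, ∀ L : ℕ, L1 ≤ L → K * ((2 : ℝ) ^ L) ^ K' * q ^ ((2 : ℝ) ^ (η * L) / 16) ≤ (1 / 2) ^ (L + 1) := by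
  obtain ⟨C, hC⟩ : ∃ C, C = K' + 1 + 2 * K + 1 := ⟨_, rfl⟩
  have hC0 : 0 < C := by rw [hC]; positivity
  have hs : 0 < η / 2 := by positivity
  have hl2 : 0 < Real.log 2 := Real.log_pos (by norm_num)
  obtain ⟨ρ, hρ⟩ : ∃ ρ, ρ = -Real.log q / Real.log 2 := ⟨_, rfl⟩
  have hρ0 : 0 < ρ := by
    rw [hρ]
    exact div_pos (by linarith [Real.log_neg hq hq1]) hl2
  have hq2 : q = (2 : ℝ) ^ (-ρ) := by
    rw [hρ, neg_div, neg_neg, Real.rpow_def_of_pos (by norm_num), mul_div_cancel₀ _ hl2.ne', Real.exp_log hq]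
  obtain ⟨L0, hL0⟩ := MainA.asymp C (η / 2) hC0 hs
  obtain ⟨L2, hL2⟩ := exists_nat_ge (16 / ρ / (η / 2 * Real.log 2))
  refine ⟨L0 + L2, fun L hL => ?_⟩
  have h1 := hL0 L (by omega)
  have h2 : Real.exp (-(2 : ℝ) ^ (η / 2 / 2 * L)) ≤ 1 := Real.exp_le_one_iff.2 (by
    have : (0 : ℝ) < (2 : ℝ) ^ (η / 2 / 2 * L) := by positivity
    linarith)
  obtain ⟨y, hy⟩ : ∃ y, y = (2 : ℝ) ^ (η / 2 * L) := ⟨_, rfl⟩
  have hLL : (L2 : ℝ) ≤ L := by exact_mod_cast (by omega : L2 ≤ L)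
  have hy1 : 16 / ρ ≤ y := by
    have h3 := hL2.trans hLL
    rw [div_le_iff₀ (by positivity)] at h3
    have h4 : L * (η / 2 * Real.log 2) ≤ y := by
      rw [hy, Real.rpow_def_of_pos (by norm_num)]
      have := Real.add_one_le_exp (Real.log 2 * (η / 2 * L))
      nlinarith
    linarith
  have hyy : (2 : ℝ) ^ (η * L) = y * y := by
    rw [hy, ← Real.rpow_add (by norm_num)]
    congr 1
    ring
  have hy0 : 0 < y := by rw [hy]; positivity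
  have h3 : q ^ ((2 : ℝ) ^ (η * L) / 16) ≤ (2 : ℝ) ^ (-y) := by
    rw [hq2, ← Real.rpow_mul (by norm_num), hyy]
    apply Real.rpow_le_rpow_of_exponent_le (by norm_num)
    have h4 : 16 ≤ ρ * y := by
      rw [div_le_iff₀ hρ0] at hy1
      linarith
    nlinarith
  have hX : (1 : ℝ) ≤ (2 : ℝ) ^ L := one_le_pow₀ (by norm_num)
  obtain ⟨X, hXX⟩ : ∃ X, X = (2 : ℝ) ^ L := ⟨_, rfl⟩
  rw [← hXX] at hX h1 ⊢
  rw [← hy] at h1
  have h4 : K * X ^ K' * (2 * X) ≤ X ^ C * C := by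
    have e1 : X ^ K' * X = X ^ (K' + 1) := (Real.rpow_add_one (by linarith) K').symm
    have e2 : X ^ (K' + 1) ≤ X ^ C := Real.rpow_le_rpow_of_exponent_le hX (by rw [hC]; linarith)
    calc K * X ^ K' * (2 * X) = 2 * K * (X ^ K' * X) := by ring
      _ = 2 * K * X ^ (K' + 1) := by rw [e1]
      _ ≤ C * X ^ C := by
          apply mul_le_mul (by rw [hC]; linarith) e2 (by positivity) hC0.le
      _ = X ^ C * C := mul_comm _ _
  have e5 : ((1 : ℝ) / 2) ^ (L + 1) * (2 * X) = 1 := by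
    rw [hXX, show (2 : ℝ) * 2 ^ L = 2 ^ (L + 1) by ring, ← mul_pow]
    norm_num
  have hpos : 0 < 2 * X := by linarith
  have h6 : K * X ^ K' * q ^ ((2 : ℝ) ^ (η * L) / 16) * (2 * X) ≤ 1 := by
    calc K * X ^ K' * q ^ ((2 : ℝ) ^ (η * L) / 16) * (2 * X) = K * X ^ K' * (2 * X) * q ^ ((2 : ℝ) ^ (η * L) / 16) := by
          ring
      _ ≤ X ^ C * C * (2 : ℝ) ^ (-y) := mul_le_mul h4 h3 (by positivity) (by positivity)
      _ ≤ _ := h1
      _ ≤ 1 := h2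
  exact le_of_mul_le_mul_right (h6.trans_eq e5.symm) hpos

lemma Ext_YS {m : ℕ} {t : List Bool} (hs : t ∈ SA) (h : Ext m t) : t ∈ YS (3 * m) := by
  obtain ⟨c, hc⟩ := h
  refine ⟨hs, fun i hi => ?_⟩
  rcases Nat.eq_zero_or_pos i with h0 | h0
  · subst h0
    rw [lev_zero, abs_zero]
    positivity
  · have h1 := hc 1 le_rfl (by omega)
    have h2 := hc i h0 hi
    have e1 : lev t 1 = 2 := by
      unfold lev
      show ip (oo + up) up = 2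
      decide
    rw [e1] at h1
    rw [abs_le]
    push_cast
    constructor <;> omega

lemma WL_mono {L L' : ℕ} (h : L ≤ L') {t : List Bool} (ht : t ∈ WL L) : t ∈ WL L' := by
  refine ⟨ht.1, fun i hi dir => (ht.2 i hi dir).trans ?_⟩
  exact pow_le_pow_right₀ (by norm_num) h

lemma WL_ex {t : List Bool} (ht : t ∈ SA) : ∃ L, t ∈ WL L := by
  obtain ⟨B, hB⟩ : ∃ B : ℕ, B = ∑ i ∈ Finset.range (t.length + 1),
    ((row false (vx oo up t i)).natAbs + (row true (vx oo up t i)).natAbs) := ⟨_, rfl⟩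
  refine ⟨B, ht, fun i hi dir => ?_⟩
  have h1 : (row false (vx oo up t i)).natAbs + (row true (vx oo up t i)).natAbs ≤ B := by
    rw [hB]
    exact Finset.single_le_sum (f := fun i => (row false (vx oo up t i)).natAbs + (row true (vx oo up t i)).natAbs)
      (fun _ _ => Nat.zero_le _) (Finset.mem_range.2 (by omega))
  have h2 : (B : ℤ) ≤ 2 ^ B := by exact_mod_cast (Nat.lt_two_pow_self (n := B)).le
  have h3 : |row dir (vx oo up t i)| = ((row dir (vx oo up t i)).natAbs : ℤ) := Int.abs_eq_natAbs _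
  rw [h3]
  have h4 : (row dir (vx oo up t i)).natAbs ≤ B := by
    cases dir <;> omega
  have h5 : ((row dir (vx oo up t i)).natAbs : ℤ) ≤ B := by exact_mod_cast h4
  linarith

lemma far_of {m L : ℕ} {t : List Bool} (hY : t ∈ YS (3 * m)) (hL : 2 ≤ L) (hm : m + 6 ≤ 2 ^ (L - 1))
    (hW : t ∉ WL L) : FarN (6 * ((2 ^ (L - 2) : ℕ) : ℤ) + 18) t := by
  have hW' : ∃ i, i ≤ t.length ∧ ∃ dir, (2 : ℤ) ^ L < |row dir (vx oo up t i)| := by
    by_contra hcon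
    push Not at hcon
    exact hW ⟨hY.1, hcon⟩
  obtain ⟨i, hi, dir, h1⟩ := hW'
  obtain ⟨X, hX⟩ : ∃ X : ℕ, X = 2 ^ (L - 2) := ⟨_, rfl⟩
  have e1 : (2 : ℤ) ^ L = 4 * X := by
    rw [hX]
    push_cast
    rw [show L = (L - 2) + 2 by omega, pow_add, Nat.add_sub_cancel]
    ring
  have e2 : 2 ^ (L - 1) = 2 * X := by
    rw [hX, show L - 1 = (L - 2) + 1 by omega, pow_succ]
    ring
  rw [e2] at hm
  rw [e1] at h1
  rw [← hX]
  have h2 := abs_le.1 (hY.2 i hi)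
  have e3 : lev t i = (vx oo up t i).1 + 2 * (vx oo up t i).2 := by
    unfold lev
    simp only [ip, up]
    ring
  rw [e3] at h2
  refine ⟨i, hi, ?_⟩
  unfold LP.nn
  unfold row at h1
  cases dir
  · exfalso
    rw [lvl_false_eq] at h1
    rcases abs_cases (((vx oo up t i).1 + 2 * (vx oo up t i).2) / 3) with ⟨h3, _⟩ | ⟨h3, _⟩ <;>
      push_cast at h2 <;> omega
  · rw [lvl_true_eq] at h1
    rcases abs_cases (-(2 * (vx oo up t i).1 + (vx oo up t i).2) / 3) with ⟨h3, _⟩ | ⟨h3, _⟩ <;>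
      rcases abs_cases ((vx oo up t i).1 - (vx oo up t i).2) with ⟨h4, _⟩ | ⟨h4, _⟩ <;>
      push_cast at h2 <;> omega

/-- one scale -/
theorem scale_small {η : ℝ} (hη : 0 < η) (hη1 : η ≤ 1) : ∃ L1 : ℕ, ∀ L : ℕ, L1 ≤ L → ∀ m : ℕ,
    (m : ℝ) ≤ (2 : ℝ) ^ ((1 - η) * L) →
    gf {t | t ∈ YS (3 * m) ∧ t ∈ WL (L + 1) ∧ t ∉ WL L} ≤ ENNReal.ofReal ((1 / 2) ^ (L + 1)) := by
  obtain ⟨C, q, hC, hq, hq1, hdec⟩ := gf_FY_decay
  obtain ⟨C', hC', hpoly⟩ := SAL_poly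
  obtain ⟨K, hK⟩ : ∃ K : ℝ, K = C * q⁻¹ * ((402 : ℝ) ^ C' * C') ^ 2 := ⟨_, rfl⟩
  have hK0 : 0 < K := by rw [hK]; positivity
  obtain ⟨L1, hL1⟩ := tail_num (K := K) (K' := 4 * C') hK0 (by positivity) hq hq1 hη
  obtain ⟨L2, hL2⟩ := exists_nat_ge (2 / η)
  refine ⟨L1 + L2 + 5, fun L hL m hm => ?_⟩
  have hLr : (L2 : ℝ) ≤ L := by exact_mod_cast (by omega : L2 ≤ L)
  obtain ⟨X, hX⟩ : ∃ X : ℝ, X = (2 : ℝ) ^ ((1 - η) * L) := ⟨_, rfl⟩
  obtain ⟨Y, hY⟩ : ∃ Y : ℝ, Y = (2 : ℝ) ^ (η * L) := ⟨_, rfl⟩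
  have hXY : X * Y = (2 : ℝ) ^ L := by
    rw [hX, hY, ← Real.rpow_add (by norm_num), ← Real.rpow_natCast]
    congr 1
    ring
  have hX1 : 1 ≤ X := by
    rw [hX]
    exact Real.one_le_rpow (by norm_num) (mul_nonneg (by linarith) (Nat.cast_nonneg L))
  have hY4 : 4 ≤ Y := by
    have h1 : (2 : ℝ) ≤ η * L := by
      have h2 := hL2.trans hLr
      rw [div_le_iff₀ hη] at h2
      linarith
    calc (4 : ℝ) = (2 : ℝ) ^ (2 : ℝ) := by norm_num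
      _ ≤ Y := by
        rw [hY]
        exact Real.rpow_le_rpow_of_exponent_le (by norm_num) h1
  rw [← hX] at hm
  have e2 : (2 : ℝ) ^ L = 4 * (2 : ℝ) ^ (L - 2) := by
    rw [show L = (L - 2) + 2 by omega, pow_add, Nat.add_sub_cancel]
    ring
  have e3 : (2 : ℝ) ^ L = 2 * (2 : ℝ) ^ (L - 1) := by
    rw [show L = (L - 1) + 1 by omega, pow_succ, Nat.add_sub_cancel]
    ring
  have h32 : (32 : ℝ) ≤ (2 : ℝ) ^ L := by
    calc (32 : ℝ) = (2 : ℝ) ^ 5 := by norm_num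
      _ ≤ (2 : ℝ) ^ L := pow_le_pow_right₀ (by norm_num) (by omega)
  have hm6 : m + 6 ≤ 2 ^ (L - 1) := by
    have h1 : (m : ℝ) + 6 ≤ (2 : ℝ) ^ (L - 1) := by
      nlinarith
    exact_mod_cast h1
  have hsub : {t | t ∈ YS (3 * m) ∧ t ∈ WL (L + 1) ∧ t ∉ WL L} ⊆
      FY (3 * m) (100 * 4 ^ (L + 1)) (6 * ((2 ^ (L - 2) : ℕ) : ℤ) + 18) := by
    rintro t ⟨h1, h2, h3⟩
    exact ⟨h1, WL_length h2, far_of h1 (by omega) hm6 h3⟩
  have hr1 : 1 ≤ 2 ^ (L - 2) := Nat.one_le_two_pow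
  refine (gf_mono hsub).trans ((hdec (3 * m) (2 ^ (L - 2)) (100 * 4 ^ (L + 1)) hr1).trans ?_)
  have hN1 : 1 ≤ 100 * 4 ^ (L + 1) + 2 := by omega
  have hG := hpoly (100 * 4 ^ (L + 1) + 2) hN1
  obtain ⟨Z, hZ⟩ : ∃ Z : ℝ, Z = (2 : ℝ) ^ L := ⟨_, rfl⟩
  have hZ1 : 1 ≤ Z := by rw [hZ]; exact one_le_pow₀ (by norm_num)
  have h4Z : (4 : ℝ) ^ L = Z * Z := by
    rw [hZ, ← mul_pow]
    norm_num
  have hG2 : gf (SAL (100 * 4 ^ (L + 1) + 2)) ≤ ENNReal.ofReal ((402 : ℝ) ^ C' * C' * Z ^ (2 * C')) := by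
    refine hG.trans (ENNReal.ofReal_le_ofReal ?_)
    have h1 : ((100 * 4 ^ (L + 1) + 2 : ℕ) : ℝ) ≤ 402 * (Z * Z) := by
      push_cast
      rw [pow_succ, h4Z]
      nlinarith
    have h2 : ((100 * 4 ^ (L + 1) + 2 : ℕ) : ℝ) ^ C' ≤ (402 * (Z * Z)) ^ C' :=
      Real.rpow_le_rpow (by positivity) h1 hC'.le
    have h3 : (402 * (Z * Z)) ^ C' = (402 : ℝ) ^ C' * Z ^ (2 * C') := by
      rw [Real.mul_rpow (by norm_num) (by positivity), Real.mul_rpow (by linarith) (by linarith),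
        ← Real.rpow_add (by linarith)]
      congr 2
      ring
    rw [h3] at h2
    calc _ ≤ (402 : ℝ) ^ C' * Z ^ (2 * C') * C' := mul_le_mul_of_nonneg_right h2 hC'.le
      _ = _ := by ring
  have hq3 : q ^ (2 ^ (L - 2) / (3 * m + 1)) ≤ q⁻¹ * q ^ (Y / 16) := by
    have h1 : Y / 16 - 1 ≤ ((2 ^ (L - 2) / (3 * m + 1) : ℕ) : ℝ) := by
      have h2 : ((2 : ℝ) ^ (L - 2)) / (3 * m + 1) < ((2 ^ (L - 2) / (3 * m + 1) : ℕ) : ℝ) + 1 := by
        have h3 := Nat.lt_div_mul_add (a := 2 ^ (L - 2)) (b := 3 * m + 1) (by omega)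
        rw [div_lt_iff₀ (by positivity)]
        have h4 : ((2 ^ (L - 2) : ℕ) : ℝ) < ((2 ^ (L - 2) / (3 * m + 1) * (3 * m + 1) + (3 * m + 1) : ℕ) : ℝ) := by
          exact_mod_cast h3
        push_cast at h4 ⊢
        linarith
      have h5 : Y / 16 ≤ ((2 : ℝ) ^ (L - 2)) / (3 * m + 1) := by
        rw [div_le_div_iff₀ (by norm_num) (by positivity)]
        have h6 : (3 : ℝ) * m + 1 ≤ 4 * X := by linarith
        have h7 : Y * (3 * m + 1) ≤ Y * (4 * X) := mul_le_mul_of_nonneg_left h6 (by linarith)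
        have h8 : Y * (4 * X) = 4 * (X * Y) := by ring
        rw [h8, hXY, e2] at h7
        linarith
      linarith
    calc q ^ (2 ^ (L - 2) / (3 * m + 1)) = q ^ (((2 ^ (L - 2) / (3 * m + 1) : ℕ) : ℝ)) := (Real.rpow_natCast _ _).symm
      _ ≤ q ^ (Y / 16 - 1) := Real.rpow_le_rpow_of_exponent_ge hq hq1.le h1
      _ = q⁻¹ * q ^ (Y / 16) := by
        rw [sub_eq_add_neg, Real.rpow_add hq, Real.rpow_neg_one]
        ring
  calc ENNReal.ofReal (C * q ^ (2 ^ (L - 2) / (3 * m + 1))) * gf (SAL (100 * 4 ^ (L + 1) + 2)) ^ 2 ≤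
      ENNReal.ofReal (C * (q⁻¹ * q ^ (Y / 16))) * ENNReal.ofReal ((402 : ℝ) ^ C' * C' * Z ^ (2 * C')) ^ 2 := by
        gcongr
    _ = ENNReal.ofReal (K * Z ^ (4 * C') * q ^ (Y / 16)) := by
        rw [← ENNReal.ofReal_pow (by positivity), ← ENNReal.ofReal_mul (by positivity)]
        congr 1
        have : (Z ^ (2 * C')) ^ 2 = Z ^ (4 * C') := by
          rw [sq, ← Real.rpow_add (by linarith)]
          congr 1
          ring
        rw [mul_pow, this, hK]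
        ring
    _ ≤ ENNReal.ofReal ((1 / 2) ^ (L + 1)) := by
        apply ENNReal.ofReal_le_ofReal
        rw [hZ, hY]
        exact hL1 L (by omega)

/-- words of m rows that leave the box of radius 2 ^ L ≥ m ^ (1 / (1 - η)) -/
theorem lat_small {η : ℝ} (hη : 0 < η) (hη1 : η ≤ 1) : ∃ L1 : ℕ, ∀ L : ℕ, L1 ≤ L → ∀ m : ℕ,
    (m : ℝ) ≤ (2 : ℝ) ^ ((1 - η) * L) → gf {t | t ∈ SA ∧ Ext m t ∧ t ∉ WL L} ≤ 1 := by
  obtain ⟨L1, hL1⟩ := scale_small hη hη1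
  refine ⟨L1, fun L hL m hm => ?_⟩
  have hsub : {t | t ∈ SA ∧ Ext m t ∧ t ∉ WL L} ⊆
      ⋃ k : ℕ, {t | t ∈ YS (3 * m) ∧ t ∈ WL (L + k + 1) ∧ t ∉ WL (L + k)} := by
    rintro t ⟨h1, h2, h3⟩
    classical
    have hex := WL_ex h1
    obtain ⟨N, hN, hmin⟩ : ∃ N, t ∈ WL N ∧ ∀ k, k < N → t ∉ WL k :=
      ⟨Nat.find hex, Nat.find_spec hex, fun k hk => Nat.find_min hex hk⟩
    have hLN : L < N := by
      by_contra hcon
      exact h3 (WL_mono (not_lt.1 hcon) hN)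
    rw [Set.mem_iUnion]
    refine ⟨N - L - 1, Ext_YS h1 h2, ?_, hmin _ (by omega)⟩
    rw [show L + (N - L - 1) + 1 = N by omega]
    exact hN
  have h1 : ∀ k : ℕ, gf {t | t ∈ YS (3 * m) ∧ t ∈ WL (L + k + 1) ∧ t ∉ WL (L + k)} ≤ (2⁻¹ : ℝ≥0∞) ^ (k + 1) := by
    intro k
    refine (hL1 (L + k) (by omega) m (hm.trans ?_)).trans ?_
    · apply Real.rpow_le_rpow_of_exponent_le (by norm_num)
      apply mul_le_mul_of_nonneg_left _ (by linarith)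
      exact_mod_cast (by omega : L ≤ L + k)
    · have e1 : (2⁻¹ : ℝ≥0∞) ^ (k + 1) = ENNReal.ofReal ((1 / 2) ^ (k + 1)) := by
        rw [ENNReal.ofReal_pow (by norm_num)]
        congr 1
        rw [one_div, ENNReal.ofReal_inv_of_pos (by norm_num)]
        norm_num
      rw [e1]
      apply ENNReal.ofReal_le_ofReal
      exact pow_le_pow_of_le_one (by norm_num) (by norm_num) (by omega)
  calc gf {t | t ∈ SA ∧ Ext m t ∧ t ∉ WL L} ≤
      gf (⋃ k : ℕ, {t | t ∈ YS (3 * m) ∧ t ∈ WL (L + k + 1) ∧ t ∉ WL (L + k)}) := gf_mono hsub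
    _ ≤ ∑' k : ℕ, gf {t | t ∈ YS (3 * m) ∧ t ∈ WL (L + k + 1) ∧ t ∉ WL (L + k)} :=
        ENNReal.tsum_iUnion_le_tsum wE _
    _ ≤ ∑' k : ℕ, (2⁻¹ : ℝ≥0∞) ^ (k + 1) := ENNReal.tsum_le_tsum h1
    _ = 1 := by
        rw [ENNReal.tsum_geometric_add_one, ENNReal.one_sub_inv_two, inv_inv]
        exact ENNReal.inv_mul_cancel (by norm_num) (by norm_num)

end BAR

end HexObs
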