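import Pool.Agent.BAR.Defs
import Pool.Agent.CMP.LatTail
import Pool.Agent.PLW.Strip
import Pool.Agent.SDN.Frames

/-!
BAR, section 3, part A: half plane words of a strip that go beyond a lateral distance.
-/

set_option autoImplicit false

namespace HexObs

namespace BAR

open Complex Finset ENNReal SDN

/-- the word goes laterally at least to the distance D -/
def FarN (D : ℤ) (t : List Bool) : Prop := ∃ i, i ≤ t.length ∧ D ≤ |LP.nn (vx oo up t i)|

/-- cosines of the admissible windings -/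
lemma cw_ge {t : List Bool} (h : -3 ≤ wind t ∧ wind t ≤ 3) :
    Real.cos (3 * Real.pi / 8) * xc ^ t.length ≤ LP.cw t := by
  unfold LP.cw
  apply mul_le_mul_of_nonneg_right _ (pow_nonneg xc_pos.le _)
  rw [← Real.cos_abs (wind t * (Real.pi / 8))]
  have h3 : (-3 : ℝ) ≤ wind t := by exact_mod_cast h.1
  have h4 : (wind t : ℝ) ≤ 3 := by exact_mod_cast h.2
  have hp := Real.pi_pos
  apply Real.cos_le_cos_of_nonneg_of_le_pi (abs_nonneg _) (by linarith)
  rw [abs_mul, abs_of_pos (by positivity : 0 < Real.pi / 8)]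
  have h5 : |(wind t : ℝ)| ≤ 3 := abs_le.2 ⟨h3, h4⟩
  nlinarith

lemma cos_three_pos : 0 < Real.cos (3 * Real.pi / 8) := by
  apply Real.cos_pos_of_mem_Ioo
  constructor <;> linarith [Real.pi_pos]

/-- exits of the parallelogram that go beyond the distance r -/
theorem far_exits : ∃ C q : ℝ, 0 < C ∧ 0 < q ∧ q < 1 ∧ ∀ T r : ℕ, 1 ≤ T → 1 ≤ r →
    gf {t | t ∈ exits (LP.Par T (r + 2) (r + 2)) oo up ∧ CMP.Far r t} ≤ ENNReal.ofReal (C * q ^ (r / T)) := by
  classical
  obtain ⟨C, q, hC, hq, hq1, h⟩ := CMP.lat_tail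
  have hc := cos_three_pos
  refine ⟨C / Real.cos (3 * Real.pi / 8), q, by positivity, hq, hq1, fun T r hT hr => ?_⟩
  have h1 := h T (r + 2) (r + 2) r hT (by omega) (by omega) hr
  have e1 : {t | t ∈ exits (LP.Par T (r + 2) (r + 2)) oo up ∧ CMP.Far r t} =
      (((exits (LP.Par T (r + 2) (r + 2)) oo up).filter (CMP.Far r) : Finset (List Bool)) : Set (List Bool)) := by
    ext t
    simp only [Set.mem_ofPred_eq, Finset.coe_filter]
  rw [e1, gf_finset]
  apply ENNReal.ofReal_le_ofReal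
  rw [div_mul_eq_mul_div, le_div_iff₀ hc, Finset.sum_mul]
  refine le_trans (Finset.sum_le_sum fun t ht => ?_) h1
  rw [mul_comm]
  exact cw_ge (Tube.dm_wind upd true hT (by omega) (by omega) (Finset.mem_filter.1 ht).1)

lemma nn_add (p q : Pt) : LP.nn (p + q) = LP.nn p + LP.nn q := by
  simp only [LP.nn, Prod.fst_add, Prod.snd_add]
  ring

lemma nn_sub (p q : Pt) : LP.nn (p - q) = LP.nn p - LP.nn q := by
  simp only [LP.nn, Prod.fst_sub, Prod.snd_sub]
  ring

lemma nn_dir {d : Pt} (h : d ∈ dirs) : |LP.nn d| ≤ 2 := by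
  revert d
  decide

lemma nn_step (t : List Bool) (i : ℕ) : |LP.nn (vx oo up t (i + 1)) - LP.nn (vx oo up t i)| ≤ 2 := by
  rw [vx_succ, nn_add, add_sub_cancel_left]
  exact nn_dir (dx_mem upd t i)

/-- half plane words of the strip of height T with at most Λ letters that go beyond the distance r -/
theorem half_far : ∃ C q : ℝ, 0 < C ∧ 0 < q ∧ q < 1 ∧ ∀ T r Λ : ℕ, 1 ≤ T → 1 ≤ r →
    gf {t | t ∈ SSt T ∧ t.length ≤ Λ ∧ FarN (3 * r + 6) t} ≤ ENNReal.ofReal (C * q ^ (r / T)) * gf (SAL Λ) := by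
  obtain ⟨C, q, hC, hq, hq1, h⟩ := far_exits
  refine ⟨C, q, hC, hq, hq1, fun T r Λ hT hr => ?_⟩
  refine le_trans (gf_le_mul (Q := {t | t ∈ exits (LP.Par T (r + 2) (r + 2)) oo up ∧ CMP.Far r t}) (R := SAL Λ) ?_)
    (mul_le_mul_left (h T r hT hr) _)
  rintro t ⟨hS, hl, i1, hi1, hfar⟩
  have hpar : ∀ i, 1 ≤ i → i ≤ t.length → (vx oo up t i ∈ LP.Par T (r + 2) (r + 2) ↔
      (-(3 * (r + 2 : ℕ) : ℤ) < LP.nn (vx oo up t i) ∧ LP.nn (vx oo up t i) < 3 * (r + 2 : ℕ) - 1)) := by
    intro i h1 h2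
    have h3 := mem_St.1 (hS.mem i h1 h2)
    have h4 : lev t i = (vx oo up t i).1 + 2 * (vx oo up t i).2 := by
      unfold lev
      simp only [ip, up]
      ring
    rw [h4] at h3
    have h5 : cl (vx oo up t i) = 0 ∨ cl (vx oo up t i) = 2 := by
      have := vx_hex oo up t i
      have e : IsHex oo up (vx oo up t i) ↔ (cl (vx oo up t i) = 0 ∨ cl (vx oo up t i) = 2) := by
        have e0 : cl oo = 0 := by decide
        have e2 : cl oo + cl up = 2 := by decide
        unfold IsHex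
        rw [e2, e0]
      exact e.1 this
    unfold LP.Par
    rw [LP.arcA_mem]
    unfold LP.nn
    constructor
    · rintro ⟨_, _, _, h6, h7⟩
      constructor <;> omega
    · rintro ⟨h6, h7⟩
      exact ⟨h5, h3.1, by push_cast at h3; linarith [h3.2], by omega, by omega⟩
  have h0 : LP.nn (vx oo up t 0) = 0 := by
    show LP.nn oo = 0
    decide
  have hi0 : 1 ≤ i1 := by
    rcases Nat.eq_zero_or_pos i1 with h1 | h1
    · rw [h1, h0, abs_zero] at hfar
      omega
    · exact h1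
  have hex : ∃ i, 1 ≤ i ∧ i ≤ t.length ∧ vx oo up t i ∉ LP.Par T (r + 2) (r + 2) := by
    refine ⟨i1, hi0, hi1, fun h1 => ?_⟩
    have h2 := (hpar i1 hi0 hi1).1 h1
    rcases abs_cases (LP.nn (vx oo up t i1)) with ⟨h3, _⟩ | ⟨h3, _⟩ <;> push_cast at h2 <;> omega
  classical
  obtain ⟨i, ⟨hi1', hi2, hi3⟩, hmin⟩ : ∃ i, (1 ≤ i ∧ i ≤ t.length ∧ vx oo up t i ∉ LP.Par T (r + 2) (r + 2)) ∧
      ∀ k, k < i → ¬ (1 ≤ k ∧ k ≤ t.length ∧ vx oo up t k ∉ LP.Par T (r + 2) (r + 2)) :=
    ⟨Nat.find hex, Nat.find_spec hex, fun k hk => Nat.find_min hex hk⟩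
  have hin : ∀ k, 1 ≤ k → k < i → vx oo up t k ∈ LP.Par T (r + 2) (r + 2) := by
    intro k h1 h2
    by_contra h3
    exact hmin k h2 ⟨h1, by omega, h3⟩
  have hln : (t.take (i - 1)).length = i - 1 := by
    rw [List.length_take]
    omega
  have hv : ∀ k, k ≤ i → vx oo up (t.take (i - 1)) k = vx oo up t k := by
    intro k hk
    have h1 := vx_append (v0 := oo) (d0 := up) (t := t.take (i - 1)) (s := t.drop (i - 1)) (i := k) (by omega)
    rw [List.take_append_drop] at h1
    exact h1.symm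
  have hout := (not_congr (hpar i hi1' hi2)).1 hi3
  have hst := nn_step t (i - 1)
  rw [show i - 1 + 1 = i by omega, abs_le] at hst
  have hi4 : 2 ≤ i := by
    by_contra hcon
    have h1 : i = 1 := by omega
    subst h1
    rw [show 1 - 1 = 0 by norm_num, h0] at hst
    apply hout
    push_cast
    constructor <;> omega
  refine ⟨t.take (i - 1), ⟨mem_exits.2 ⟨⟨?_, ?_⟩, ?_⟩, i - 1, by omega, by omega, ?_⟩, t.drop (i - 1), ⟨?_, ?_⟩,
    (List.take_append_drop _ _).symm⟩
  · intro k h1 h2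
    rw [hln] at h2
    rw [hv k (by omega)]
    exact hin k h1 (by omega)
  · intro k l hkl hl2
    rw [hln] at hl2
    rw [hv k (by omega), hv l (by omega)]
    exact hS.inj k l hkl (by omega)
  · show vx oo up (t.take (i - 1)) ((t.take (i - 1)).length + 1) ∉ _
    rw [hln, show i - 1 + 1 = i by omega, hv i le_rfl]
    exact hi3
  · rw [hv (i - 1) (by omega)]
    push_cast at hout
    rcases lt_or_ge (LP.nn (vx oo up t i)) 0 with h1 | h1
    · right
      by_contra h2
      apply hout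
      constructor <;> omega
    · left
      by_contra h2
      apply hout
      constructor <;> omega
  · exact SA_drop (hS.mono (Set.subset_univ _)) _
  · rw [List.length_drop]
    omega

end BAR

end HexObs
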