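import Pool.Agent.BAR.LatA

/-!
BAR, section 3, part B: split of a word at its lowest vertex, with the lateral extent.
-/

set_option autoImplicit false

namespace HexObs

namespace BAR

open Complex Finset ENNReal SDN PLW

/-- half plane words of the strip of height T with at most N letters -/
def HSt (T N : ℕ) : Set (List Bool) := {w | w ∈ SSt T ∧ w.length ≤ N}

/-- those that go beyond the lateral distance D -/
def HFa (T N : ℕ) (D : ℤ) : Set (List Bool) := {w | w ∈ SSt T ∧ w.length ≤ N ∧ FarN D w}

lemma key_head {n : ℕ} {t : List Bool} (hl : t.length = n) {j : ℕ} (h1 : 1 ≤ j) (hj : j ≤ n) {b : Bool}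
    (hb : dx up t (j - 1) = -(turn b up)) (k : ℕ) (hk : k ≤ j) :
    vx oo up (b :: (rev (t.take (j - 1)) ++ [true])) (k + 1) = (up - vx oo up t j) + vx oo up t (j - k) := by
  have hsl : (rev (t.take (j - 1))).length = j - 1 := by
    rw [rev_length, List.length_take]
    omega
  rw [(lowA_cons oo up b _ k).1, vx_append (by omega)]
  rw [← lowA_rev hl h1 hj hb k (by omega), ← lowA_trans]
  congr 1
  show oo + up = up - vx oo up t j + vx oo up t j
  rw [sub_add_cancel]
  exact zero_add _

lemma key_tail {t : List Bool} {j : ℕ} (h1 : 1 ≤ j) {b : Bool}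
    (hb : dx up t (j - 1) = -(turn b up)) (hbb : tf t (j - 1) = b) (k : ℕ) :
    vx oo up ((!b) :: t.drop j) (k + 1) = (up - vx oo up t j) + vx oo up t (j + k) := by
  have hdj' : dx up t j = turn (!b) up := by
    have hdj : dx up t j = turn (tf t (j - 1)) (-(turn b up)) := by
      rw [← hb, ← dx_succ, show j - 1 + 1 = j by omega]
    rw [hbb] at hdj
    rw [hdj]
    cases b <;> decide
  rw [(lowA_cons oo up (!b) _ k).1, lowA_drop oo up t j k, ← lowA_trans, hdj']
  congr 1
  show oo + up = up - vx oo up t j + vx oo up t j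
  rw [sub_add_cancel]
  exact zero_add _

lemma key_rev {n : ℕ} {t : List Bool} (hl : t.length = n) (hn : 1 ≤ n) (hd : dx up t (n - 1) = -up) (i : ℕ)
    (hi : i ≤ n) : vx oo up (rev (t.take (n - 1))) i = -(vx oo up t n) + vx oo up t (n - i) := by
  rw [← lowA_rev hl hn le_rfl hd i hi, ← lowA_trans, neg_add_cancel]
  rfl

/-- the three cases, with the direction data -/
theorem low_data {n M : ℕ} (hn : 1 ≤ n) {t : List Bool} (hl : t.length = n) (hs : Saw Set.univ oo up t)
    (hM : ∀ i, i ≤ n → |lev t i| ≤ M) :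
    t ∈ SSt (M + 1) ∨ (dx up t (n - 1) = -up ∧ rev (t.take (n - 1)) ∈ SSt (M + 1)) ∨
    (∃ j b, 1 ≤ j ∧ j ≤ n ∧ dx up t (j - 1) = -(turn b up) ∧ (b :: (rev (t.take (j - 1)) ++ [true])) ∈ SSt (M + 1) ∧
      (j < n → tf t (j - 1) = b ∧ ((!b) :: t.drop j) ∈ SSt (M + 1))) := by
  obtain ⟨j0, hj0, hmin0⟩ := Finset.exists_min_image (Finset.range (n + 1)) (fun i => lev t i) ⟨0, by simp⟩
  rw [Finset.mem_range] at hj0
  have hmin : ∀ i, i ≤ n → lev t j0 ≤ lev t i := fun i hi => hmin0 i (Finset.mem_range.2 (by omega))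
  by_cases hodd : ∃ j, j ≤ n ∧ ¬ Even j ∧ lev t j = lev t j0
  · obtain ⟨j, hj, ho, hjl⟩ := hodd
    have h1 : 1 ≤ j := by
      rcases Nat.eq_zero_or_pos j with h | h
      · rw [h] at ho
        exact absurd (by decide) ho
      · exact h
    have hminj : ∀ i, i ≤ n → lev t j ≤ lev t i := by
      rw [hjl]
      exact hmin
    obtain ⟨b, hb, hb'⟩ := head_M hl hs hM h1 hj ho hminj
    exact Or.inr (Or.inr ⟨j, b, h1, hj, hb, hb', fun h => tail_M hl hs hM h1 h hminj hb⟩)
  · push Not at hodd
    have hstrict : ∀ k, 1 ≤ k → k < n → lev t j0 < lev t k := by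
      intro k hk1 hk
      by_contra hcon
      have h2 : lev t k = lev t j0 := le_antisymm (not_lt.1 hcon) (hmin k hk.le)
      by_cases he : Even k
      · exact lowA_even hl hs hk1 hk he (by rw [h2]; exact hmin)
      · exact hodd k hk.le he h2
    by_cases hlast : lev t n = lev t j0
    · -- the end is lowest
      have he : Even n := by
        by_contra he
        exact hodd n le_rfl he hlast
      have ho : ¬ Even (n - 1) := by
        obtain ⟨m, hm⟩ := he
        rintro ⟨m', hm'⟩
        omega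
      have hd : dx up t (n - 1) = -up := by
        have h3 := lev_succ t (n - 1)
        rw [show n - 1 + 1 = n by omega] at h3
        have h4 := hmin (n - 1) (by omega)
        rcases step_odd upd t ho with h | h | h
        · exact h.1
        · rw [h.2] at h3
          omega
        · rw [h.2] at h3
          omega
      have hsl : (rev (t.take (n - 1))).length = n - 1 := by
        rw [rev_length, List.length_take]
        omega
      have key := key_rev hl hn hd
      refine Or.inr (Or.inl ⟨hd, ?_, ?_⟩)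
      · intro i hi hil
        rw [hsl] at hil
        refine mem_St.2 ?_
        have h2 := hstrict (n - i) (by omega) (by omega)
        rw [← hlast] at h2
        have h3 := abs_le.1 (hM n le_rfl)
        have h4 := abs_le.1 (hM (n - i) (by omega))
        unfold lev at h2 h3 h4 ⊢
        rw [key i (by omega), ip_add_left, ip_neg_left]
        push_cast
        constructor <;> omega
      · intro i k hik hk heq
        rw [hsl] at hk
        rw [key i (by omega), key k (by omega)] at heq
        exact hs.inj (n - k) (n - i) (by omega) (by omega) (add_left_cancel heq).symm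
    · -- the start is lowest
      have h0 : j0 = 0 := by
        by_contra hne
        rcases Nat.lt_or_ge j0 n with h | h
        · exact lt_irrefl _ (hstrict j0 (by omega) h)
        · exact hlast (by rw [show j0 = n by omega])
      refine Or.inl ⟨?_, hs.inj⟩
      intro i hi hil
      rw [hl] at hil
      refine mem_St.2 ?_
      rw [h0, lev_zero] at hstrict hmin hlast
      have h4 := abs_le.1 (hM i hil)
      refine ⟨?_, by push_cast; omega⟩
      rcases Nat.lt_or_ge i n with h | h
      · exact hstrict i hi h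
      · have h2 := hmin i hil
        have h3 : i = n := by omega
        rw [h3] at h2 ⊢
        omega

lemma nn_up : LP.nn up = -1 := by decide

/-- split of a far word at its lowest vertex: one of the two parts is far -/
theorem far_split {n M Λ : ℕ} (hn : 1 ≤ n) {t : List Bool} (hl : t.length = n) (hΛ : n ≤ Λ) (hs : Saw Set.univ oo up t)
    (hM : ∀ i, i ≤ n → |lev t i| ≤ M) {D : ℤ} (hD : 0 ≤ D) (hF : FarN (2 * D + 6) t) :
    t ∈ HFa (M + 1) (Λ + 2) D ∨ rev (t.take (n - 1)) ∈ HFa (M + 1) (Λ + 2) D ∨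
    (∃ b, b :: (rev (t.take (n - 1)) ++ [true]) ∈ HFa (M + 1) (Λ + 2) D) ∨
    (∃ j b, 1 ≤ j ∧ j < n ∧ t = t.take (j - 1) ++ (b :: t.drop j) ∧
      (((b :: (rev (t.take (j - 1)) ++ [true])) ∈ HFa (M + 1) (Λ + 2) D ∧ ((!b) :: t.drop j) ∈ HSt (M + 1) (Λ + 2)) ∨
      ((b :: (rev (t.take (j - 1)) ++ [true])) ∈ HSt (M + 1) (Λ + 2) ∧ ((!b) :: t.drop j) ∈ HFa (M + 1) (Λ + 2) D))) := by
  obtain ⟨i, hi, hfar⟩ := hF
  rw [hl] at hi
  have h0 : LP.nn (vx oo up t 0) = 0 := by
    show LP.nn oo = 0
    decide
  have hi1 : 1 ≤ i := by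
    rcases Nat.eq_zero_or_pos i with h1 | h1
    · rw [h1, h0, abs_zero] at hfar
      omega
    · exact h1
  rcases low_data hn hl hs hM with h | ⟨hd, h⟩ | ⟨j, b, h1, hj, hb, h2, h3⟩
  · exact Or.inl ⟨h, by omega, i, by omega, by omega⟩
  · have hsl : (rev (t.take (n - 1))).length = n - 1 := by
      rw [rev_length, List.length_take]
      omega
    refine Or.inr (Or.inl ⟨h, by omega, ?_⟩)
    have key := key_rev hl hn hd
    have hnn : ∀ k, k ≤ n → LP.nn (vx oo up (rev (t.take (n - 1))) k) =
        LP.nn (vx oo up t (n - k)) - LP.nn (vx oo up t n) := by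
      intro k hk
      rw [key k hk, show -(vx oo up t n) + vx oo up t (n - k) = vx oo up t (n - k) - vx oo up t n by abel, nn_sub]
    by_cases hc : D + 3 ≤ |LP.nn (vx oo up t n)|
    · refine ⟨n - 1, by omega, ?_⟩
      rw [hnn (n - 1) (by omega), show n - (n - 1) = 1 by omega]
      have h5 := nn_step t 0
      rw [h0, sub_zero, zero_add] at h5
      rcases abs_cases (LP.nn (vx oo up t n)) with ⟨h6, _⟩ | ⟨h6, _⟩ <;>
        rcases abs_cases (LP.nn (vx oo up t 1)) with ⟨h7, _⟩ | ⟨h7, _⟩ <;>
        rcases abs_cases (LP.nn (vx oo up t 1) - LP.nn (vx oo up t n)) with ⟨h8, _⟩ | ⟨h8, _⟩ <;> omega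
    · refine ⟨n - i, by omega, ?_⟩
      rw [hnn (n - i) (by omega), show n - (n - i) = i by omega]
      rcases abs_cases (LP.nn (vx oo up t n)) with ⟨h6, _⟩ | ⟨h6, _⟩ <;>
        rcases abs_cases (LP.nn (vx oo up t i)) with ⟨h7, _⟩ | ⟨h7, _⟩ <;>
        rcases abs_cases (LP.nn (vx oo up t i) - LP.nn (vx oo up t n)) with ⟨h8, _⟩ | ⟨h8, _⟩ <;> omega
  · have hsl : (b :: (rev (t.take (j - 1)) ++ [true])).length = j + 1 := by
      rw [List.length_cons, List.length_append, rev_length, List.length_take, List.length_singleton]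
      omega
    have hn1 : ∀ k, k ≤ j → LP.nn (vx oo up (b :: (rev (t.take (j - 1)) ++ [true])) (k + 1)) =
        -1 - LP.nn (vx oo up t j) + LP.nn (vx oo up t (j - k)) := by
      intro k hk
      rw [key_head hl h1 hj hb k hk, nn_add, nn_sub, nn_up]
    -- a far vertex before j (included)
    have hA : ∀ l, l ≤ j → D + 1 ≤ |LP.nn (vx oo up t l) - LP.nn (vx oo up t j)| →
        (b :: (rev (t.take (j - 1)) ++ [true])) ∈ HFa (M + 1) (Λ + 2) D := by
      intro l hl1 hl2
      refine ⟨h2, by omega, j - l + 1, by omega, ?_⟩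
      rw [hn1 (j - l) (by omega), show j - (j - l) = l by omega]
      rcases abs_cases (LP.nn (vx oo up t l) - LP.nn (vx oo up t j)) with ⟨h6, _⟩ | ⟨h6, _⟩ <;>
        rcases abs_cases (-1 - LP.nn (vx oo up t j) + LP.nn (vx oo up t l)) with ⟨h8, _⟩ | ⟨h8, _⟩ <;> omega
    by_cases hjn : j < n
    · obtain ⟨hbb, h4⟩ := h3 hjn
      have hst : t = t.take (j - 1) ++ (b :: t.drop j) := by
        have h5 : j - 1 < t.length := by omega
        have h6 : t[j - 1] = b := by
          rw [← hbb]
          unfold tf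
          rw [List.getD_eq_getElem _ _ h5]
        have h7 := List.drop_eq_getElem_cons h5
        rw [h6, show j - 1 + 1 = j by omega] at h7
        rw [← h7, List.take_append_drop]
      have hl2 : ((!b) :: t.drop j).length = n - j + 1 := by
        rw [List.length_cons, List.length_drop, hl]
      have hn2 : ∀ k, LP.nn (vx oo up ((!b) :: t.drop j) (k + 1)) =
          -1 - LP.nn (vx oo up t j) + LP.nn (vx oo up t (j + k)) := by
        intro k
        rw [key_tail h1 hb hbb k, nn_add, nn_sub, nn_up]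
      refine Or.inr (Or.inr (Or.inr ⟨j, b, h1, hjn, hst, ?_⟩))
      by_cases hc : D + 1 ≤ |LP.nn (vx oo up t j)|
      · left
        refine ⟨hA 0 (by omega) ?_, h4, by omega⟩
        rw [h0, zero_sub, abs_neg]
        exact hc
      · have hc2 : D + 1 ≤ |LP.nn (vx oo up t i) - LP.nn (vx oo up t j)| := by
          rcases abs_cases (LP.nn (vx oo up t j)) with ⟨h6, _⟩ | ⟨h6, _⟩ <;>
            rcases abs_cases (LP.nn (vx oo up t i)) with ⟨h7, _⟩ | ⟨h7, _⟩ <;>
            rcases abs_cases (LP.nn (vx oo up t i) - LP.nn (vx oo up t j)) with ⟨h8, _⟩ | ⟨h8, _⟩ <;> omega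
        rcases Nat.le_total i j with hij | hij
        · left
          exact ⟨hA i hij hc2, h4, by omega⟩
        · right
          refine ⟨⟨h2, by omega⟩, h4, by omega, i - j + 1, by omega, ?_⟩
          rw [hn2 (i - j), show j + (i - j) = i by omega]
          rcases abs_cases (LP.nn (vx oo up t i) - LP.nn (vx oo up t j)) with ⟨h6, _⟩ | ⟨h6, _⟩ <;>
            rcases abs_cases (-1 - LP.nn (vx oo up t j) + LP.nn (vx oo up t i)) with ⟨h8, _⟩ | ⟨h8, _⟩ <;> omega
    · have hjn' : j = n := by omega
      subst hjn'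
      refine Or.inr (Or.inr (Or.inl ⟨b, ?_⟩))
      by_cases hc : D + 1 ≤ |LP.nn (vx oo up t j)|
      · refine hA 0 (by omega) ?_
        rw [h0, zero_sub, abs_neg]
        exact hc
      · refine hA i hi ?_
        rcases abs_cases (LP.nn (vx oo up t j)) with ⟨h6, _⟩ | ⟨h6, _⟩ <;>
          rcases abs_cases (LP.nn (vx oo up t i)) with ⟨h7, _⟩ | ⟨h7, _⟩ <;>
          rcases abs_cases (LP.nn (vx oo up t i) - LP.nn (vx oo up t j)) with ⟨h8, _⟩ | ⟨h8, _⟩ <;> omega

end BAR

end HexObs
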