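import Pool.Agent.BAR.LatB
import Pool.Agent.SDN.SplitP

/-!
BAR, section 3, part C: words of a strip (started inside) that go beyond a lateral distance.
-/

set_option autoImplicit false

namespace HexObs

namespace BAR

open Complex Finset ENNReal SDN PLW

lemma sum_pair2 (S S' : Set (List Bool)) (f : List Bool × List Bool → List Bool)
    (h : ∀ w, w.1.length + w.2.length ≤ (f w).length + 2) : gf (f '' (S ×ˢ S')) ≤ 4 * (gf S * gf S') := by
  refine (gf_image _ f).trans ?_
  calc ∑' i : ↥(S ×ˢ S'), wE (f i.1) ≤ ∑' i : ↥(S ×ˢ S'), 4 * (wE i.1.1 * wE i.1.2) := by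
        refine ENNReal.tsum_le_tsum fun i => ?_
        rw [← wE_append]
        refine wE_len ?_
        rw [List.length_append]
        exact h i.1
    _ = ∑' p : ↥S × ↥S', 4 * (wE p.1.1 * wE p.2.1) :=
        (Equiv.Set.prod S S').tsum_eq (fun p : ↥S × ↥S' => 4 * (wE p.1.1 * wE p.2.1))
    _ = ∑' p : ↥S, ∑' q : ↥S', 4 * (wE p.1 * wE q.1) :=
        ENNReal.tsum_prod (f := fun (a : ↥S) (b : ↥S') => 4 * (wE a.1 * wE b.1))
    _ = 4 * (gf S * gf S') := by
        simp only [ENNReal.tsum_mul_left]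
        rw [ENNReal.tsum_mul_right]
        rfl

/-- far words with the levels in [-M, M] and at most Λ letters -/
def FY (M Λ : ℕ) (D : ℤ) : Set (List Bool) := {t | t ∈ YS M ∧ t.length ≤ Λ ∧ FarN D t}

theorem gf_FY_le {M Λ : ℕ} {D : ℤ} (hD : 0 ≤ D) : gf (FY M Λ (2 * D + 6)) ≤ 17 * gf (HFa (M + 1) (Λ + 2) D) +
    8 * (gf (HFa (M + 1) (Λ + 2) D) * gf (HSt (M + 1) (Λ + 2))) := by
  have hsub : FY M Λ (2 * D + 6) ⊆ HFa (M + 1) (Λ + 2) D ∪
      (fun w : List Bool × Bool => rev w.1 ++ [w.2]) '' (HFa (M + 1) (Λ + 2) D ×ˢ (Set.univ : Set Bool)) ∪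
      (fun w : List Bool × Bool => rev (w.1.tail.dropLast) ++ [w.2]) ''
        (HFa (M + 1) (Λ + 2) D ×ˢ (Set.univ : Set Bool)) ∪
      (fun w : List Bool × List Bool => rev (w.1.tail.dropLast) ++ (w.1.headD true :: w.2.tail)) ''
        (HFa (M + 1) (Λ + 2) D ×ˢ HSt (M + 1) (Λ + 2)) ∪
      (fun w : List Bool × List Bool => rev (w.1.tail.dropLast) ++ (w.1.headD true :: w.2.tail)) ''
        (HSt (M + 1) (Λ + 2) ×ˢ HFa (M + 1) (Λ + 2) D) := by
    rintro t ⟨⟨hs, hM⟩, hl, hF⟩
    rcases Nat.eq_zero_or_pos t.length with h0 | h0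
    · exfalso
      obtain ⟨i, hi, h1⟩ := hF
      have hi0 : i = 0 := by omega
      rw [hi0] at h1
      have h2 : LP.nn (vx oo up t 0) = 0 := by
        show LP.nn oo = 0
        decide
      rw [h2, abs_zero] at h1
      omega
    · obtain ⟨c, hc⟩ : ∃ c, t = t.take (t.length - 1) ++ [c] := by
        have h1 : (t.drop (t.length - 1)).length = 1 := by
          rw [List.length_drop]
          omega
        obtain ⟨c, hc⟩ := List.length_eq_one_iff.1 h1
        refine ⟨c, ?_⟩
        rw [← hc, List.take_append_drop]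
      rcases far_split h0 rfl hl hs hM hD hF with h | h | ⟨b, h⟩ | ⟨j, b, hj1, hjn, heq, h | h⟩
      · exact Or.inl (Or.inl (Or.inl (Or.inl h)))
      · refine Or.inl (Or.inl (Or.inl (Or.inr ⟨(rev (t.take (t.length - 1)), c), ⟨h, trivial⟩, ?_⟩)))
        show rev (rev (t.take (t.length - 1))) ++ [c] = t
        rw [rev_rev, ← hc]
      · refine Or.inl (Or.inl (Or.inr ⟨(b :: (rev (t.take (t.length - 1)) ++ [true]), c), ⟨h, trivial⟩, ?_⟩))
        show rev ((rev (t.take (t.length - 1)) ++ [true]).dropLast) ++ [c] = t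
        rw [List.dropLast_concat, rev_rev, ← hc]
      · refine Or.inl (Or.inr ⟨(b :: (rev (t.take (j - 1)) ++ [true]), (!b) :: t.drop j), h, ?_⟩)
        show rev ((rev (t.take (j - 1)) ++ [true]).dropLast) ++ (b :: t.drop j) = t
        rw [List.dropLast_concat, rev_rev, ← heq]
      · refine Or.inr ⟨(b :: (rev (t.take (j - 1)) ++ [true]), (!b) :: t.drop j), h, ?_⟩
        show rev ((rev (t.take (j - 1)) ++ [true]).dropLast) ++ (b :: t.drop j) = t
        rw [List.dropLast_concat, rev_rev, ← heq]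
  have hlen1 : ∀ w : List Bool × Bool, w.1.length ≤ (rev w.1 ++ [w.2]).length + 2 := by
    intro w
    simp only [List.length_append, rev_length, List.length_cons, List.length_nil]
    omega
  have hlen2 : ∀ w : List Bool × Bool, w.1.length ≤ (rev (w.1.tail.dropLast) ++ [w.2]).length + 2 := by
    intro w
    simp only [List.length_append, rev_length, List.length_dropLast, List.length_tail, List.length_cons,
      List.length_nil]
    omega
  have hlen3 : ∀ w : List Bool × List Bool, w.1.length + w.2.length ≤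
      (rev (w.1.tail.dropLast) ++ (w.1.headD true :: w.2.tail)).length + 2 := by
    intro w
    simp only [List.length_append, rev_length, List.length_dropLast, List.length_tail, List.length_cons]
    omega
  have h1 := sum_bool (HFa (M + 1) (Λ + 2) D) (fun w => rev w.1 ++ [w.2]) hlen1
  have h2 := sum_bool (HFa (M + 1) (Λ + 2) D) (fun w => rev (w.1.tail.dropLast) ++ [w.2]) hlen2
  have h3 := sum_pair2 (HFa (M + 1) (Λ + 2) D) (HSt (M + 1) (Λ + 2))
    (fun w => rev (w.1.tail.dropLast) ++ (w.1.headD true :: w.2.tail)) hlen3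
  have h4 := sum_pair2 (HSt (M + 1) (Λ + 2)) (HFa (M + 1) (Λ + 2) D)
    (fun w => rev (w.1.tail.dropLast) ++ (w.1.headD true :: w.2.tail)) hlen3
  refine (gf_mono hsub).trans ((gf_union_le _ _).trans ((add_le_add ((gf_union_le _ _).trans (add_le_add
    ((gf_union_le _ _).trans (add_le_add ((gf_union_le _ _).trans (add_le_add le_rfl h1)) h2)) h3)) h4).trans
    (le_of_eq ?_)))
  ring

/-- far words: exponential decay -/
theorem gf_FY_decay : ∃ C q : ℝ, 0 < C ∧ 0 < q ∧ q < 1 ∧ ∀ M r Λ : ℕ, 1 ≤ r →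
    gf (FY M Λ (6 * r + 18)) ≤ ENNReal.ofReal (C * q ^ (r / (M + 1))) * gf (SAL (Λ + 2)) ^ 2 := by
  obtain ⟨C, q, hC, hq, hq1, h⟩ := half_far
  refine ⟨25 * C, q, by positivity, hq, hq1, fun M r Λ hr => ?_⟩
  obtain ⟨G, hG⟩ : ∃ G, G = gf (SAL (Λ + 2)) := ⟨_, rfl⟩
  have hG1 : 1 ≤ G := by
    have h1 : (({([] : List Bool)} : Finset (List Bool)) : Set (List Bool)) ⊆ SAL (Λ + 2) := by
      intro t ht
      rw [Finset.mem_coe, Finset.mem_singleton] at ht
      subst ht
      refine ⟨⟨fun _ _ _ => Set.mem_univ _, fun i k hik hk => ?_⟩, by simp⟩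
      simp only [List.length_nil] at hk
      omega
    have h2 := gf_mono h1
    rw [gf_finset, Finset.sum_singleton, List.length_nil, pow_zero, ENNReal.ofReal_one] at h2
    rw [hG]
    exact h2
  have hP : gf (HFa (M + 1) (Λ + 2) (3 * r + 6)) ≤ ENNReal.ofReal (C * q ^ (r / (M + 1))) * G := by
    rw [hG]
    exact h (M + 1) r (Λ + 2) (by omega) hr
  have hS : gf (HSt (M + 1) (Λ + 2)) ≤ G := by
    rw [hG]
    exact gf_mono fun t ht => ⟨ht.1.mono (Set.subset_univ _), ht.2⟩
  have h1 := gf_FY_le (M := M) (Λ := Λ) (D := 3 * (r : ℤ) + 6) (by positivity)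
  rw [show 2 * (3 * (r : ℤ) + 6) + 6 = 6 * r + 18 by ring] at h1
  obtain ⟨A, hA⟩ : ∃ A, A = ENNReal.ofReal (C * q ^ (r / (M + 1))) := ⟨_, rfl⟩
  rw [← hA] at hP
  have e25 : ENNReal.ofReal (25 * C * q ^ (r / (M + 1))) = 25 * A := by
    rw [hA, mul_assoc, ENNReal.ofReal_mul (by norm_num)]
    congr 1
    norm_num
  rw [e25, ← hG]
  calc gf (FY M Λ (6 * r + 18)) ≤ 17 * gf (HFa (M + 1) (Λ + 2) (3 * r + 6)) +
      8 * (gf (HFa (M + 1) (Λ + 2) (3 * r + 6)) * gf (HSt (M + 1) (Λ + 2))) := h1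
    _ ≤ 17 * (A * G) + 8 * ((A * G) * G) := by gcongr
    _ ≤ 17 * (A * (G * G)) + 8 * ((A * G) * G) := by
        have : G ≤ G * G := by
          calc G = G * 1 := (mul_one G).symm
            _ ≤ G * G := mul_le_mul_right hG1 G
        gcongr
    _ = 25 * A * G ^ 2 := by ring

end BAR

end HexObs
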