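import Pool.Agent.BAR.Gamma
import Pool.Agent.BAR.HCut

/-!
BAR, type C: the half plane walks from below from the one-leg function of the strip with a middle mid-edge.

`MidW k` : the words of the strip of 2 k rows whose last half edge leads to the vertical mid-edge between the rows k and k + 1
(from below or from above). `gf (MidW k)` is the sum, with the weight xc per vertex, of all self-avoiding walks in the (regular,
honeycomb) strip from the feet of the floor to one fixed vertical mid-edge of the middle = the floor exits of the regular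
one-leg function of the strip (all windings with weight 1).

`MidLow b` : lower bound with the exponent b for every height; `MidLowW b` : for one height in every window [m - m^ε, m + m^ε].
-/

set_option autoImplicit false

namespace HexObs

namespace BAR

open Finset Filter

open scoped ENNReal Topology

/-- words of the strip of 2 k rows that end on the vertical mid-edge between the rows k and k + 1 -/
def MidW (k : ℕ) : Set (List Bool) := {t | t ∈ SSt (2 * k) ∧ lev t t.length + lev t (t.length + 1) = 6 * k + 2}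

/-- the one-leg function of the middle of the strip grows at least with the exponent b (one height for every scale) -/
def MidLow (b : ℝ) : Prop :=
  ∀ ε : ℝ, 0 < ε → ∃ c : ℝ, 0 < c ∧ ∀ k : ℕ, 1 ≤ k → ENNReal.ofReal (c * (k : ℝ) ^ (b - ε)) ≤ gf (MidW k)

/-- the same for one height in every window -/
def MidLowW (b : ℝ) : Prop :=
  ∀ ε : ℝ, 0 < ε → ∃ (c : ℝ) (m0 : ℕ), 0 < c ∧ ∀ m : ℕ, m0 ≤ m → ∃ k : ℕ,
    (m : ℝ) - (m : ℝ) ^ ε ≤ k ∧ (k : ℝ) ≤ m + (m : ℝ) ^ ε ∧ ENNReal.ofReal (c * (m : ℝ) ^ (b - ε)) ≤ gf (MidW k)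

/-- a family of sets of words: one member in every window is large -/
def LowFam (G : ℕ → Set (List Bool)) (b : ℝ) : Prop :=
  ∀ ε : ℝ, 0 < ε → ∃ (c : ℝ) (m0 : ℕ), 0 < c ∧ ∀ m : ℕ, m0 ≤ m → ∃ k : ℕ,
    (m : ℝ) - (m : ℝ) ^ ε ≤ k ∧ (k : ℝ) ≤ m + (m : ℝ) ^ ε ∧ ENNReal.ofReal (c * (m : ℝ) ^ (b - ε)) ≤ gf (G k)

/-- disjoint members inside the strips of 2 k + 1 rows -/
structure Fam (G : ℕ → Set (List Bool)) : Prop where
  disj : ∀ a b t, t ∈ G a → t ∈ G b → a = b
  sub : ∀ k, G k ⊆ SSt (2 * k + 1)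

lemma fam_sum_le {G : ℕ → Set (List Bool)} (hG : Fam G) (F : Finset ℕ) (m : ℕ) (hF : ∀ k ∈ F, k ≤ m) :
    ∑ k ∈ F, gf (G k) ≤ HH (2 * m + 1) := by
  refine (gf_bi_eq F G hG.disj).trans (gf_mono ?_)
  intro t ht
  rw [Set.mem_iUnion₂] at ht
  obtain ⟨k, hk, ht⟩ := ht
  exact SSt_mono (by have := hF k hk; omega) (hG.sub k ht)

lemma mid_disj {a b : ℕ} {t : List Bool} (ha : t ∈ MidW a) (hb : t ∈ MidW b) : a = b := by
  have h1 := ha.2
  have h2 := hb.2
  omega

/-- the mid-edges of different heights are different half plane words -/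
lemma mid_sum_le (F : Finset ℕ) (m : ℕ) (hF : ∀ k ∈ F, k ≤ m) : ∑ k ∈ F, gf (MidW k) ≤ HH (2 * m) := by
  refine (gf_bi_eq F MidW (fun _ _ _ h1 h2 => mid_disj h1 h2)).trans (gf_mono ?_)
  intro t ht
  rw [Set.mem_iUnion₂] at ht
  obtain ⟨k, hk, ht⟩ := ht
  exact SSt_mono (by have := hF k hk; omega) ht.1

private lemma one_le_HH' (m : ℕ) : 1 ≤ HH m := by
  have h1 : (({[]} : Finset (List Bool)) : Set (List Bool)) ⊆ SSt m := by
    intro t ht
    rw [Finset.mem_coe, Finset.mem_singleton] at ht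
    rw [ht]
    refine ⟨fun i hi hl => ?_, fun i k hik hk => ?_⟩
    · rw [List.length_nil] at hl
      omega
    · rw [List.length_nil] at hk
      omega
  have h2 := gf_mono h1
  rw [gf_finset] at h2
  simp only [Finset.sum_singleton, List.length_nil, pow_zero, ENNReal.ofReal_one] at h2
  exact h2

/-- **C3.** A lower bound of the one-leg function of the strip gives the half plane walks: exponent b + 1. -/
theorem hLow_of_mid {b : ℝ} (hb : 0 < b) (h : MidLow b) : HLow (b + 1) := by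
  intro ε hε
  obtain ⟨δ, hδ⟩ : ∃ δ : ℝ, δ = min ε b := ⟨_, rfl⟩
  have h1 : 0 < δ := by rw [hδ]; exact lt_min hε hb
  have h2 : δ ≤ ε := by rw [hδ]; exact min_le_left _ _
  have h3 : δ ≤ b := by rw [hδ]; exact min_le_right _ _
  obtain ⟨c, hc, hM⟩ := h δ h1
  have hb1 : 0 ≤ b - δ := by linarith
  obtain ⟨K, hK⟩ : ∃ K : ℝ, K = (8 : ℝ) ^ (b + 1) := ⟨_, rfl⟩
  have hK0 : 0 < K := by rw [hK]; positivity
  refine ⟨min (c / K) K⁻¹, by positivity, fun n hn => ?_⟩
  have hnR : (1 : ℝ) ≤ n := by exact_mod_cast hn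
  have hn0 : (0 : ℝ) < n := by linarith
  have hne : (n : ℝ) ^ (b + 1 - ε) ≤ (n : ℝ) ^ (b - δ + 1) := Real.rpow_le_rpow_of_exponent_le hnR (by linarith)
  rcases Nat.lt_or_ge n 4 with hlt | hge
  · refine le_trans ?_ (one_le_HH' n)
    rw [← ENNReal.ofReal_one]
    apply ENNReal.ofReal_le_ofReal
    have h4 : (n : ℝ) ≤ 8 := by
      have : (n : ℝ) < 4 := by exact_mod_cast hlt
      linarith
    have h5 : (n : ℝ) ^ (b - δ + 1) ≤ K := by
      calc (n : ℝ) ^ (b - δ + 1) ≤ (n : ℝ) ^ (b + 1) := Real.rpow_le_rpow_of_exponent_le hnR (by linarith)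
        _ ≤ (8 : ℝ) ^ (b + 1) := Real.rpow_le_rpow hn0.le h4 (by linarith)
        _ = K := hK.symm
    calc min (c / K) K⁻¹ * (n : ℝ) ^ (b + 1 - ε) ≤ K⁻¹ * K :=
          mul_le_mul (min_le_right _ _) (hne.trans h5) (by positivity) (by positivity)
      _ = 1 := inv_mul_cancel₀ hK0.ne'
  · obtain ⟨m, hm⟩ : ∃ m : ℕ, m = n / 2 := ⟨_, rfl⟩
    obtain ⟨q, hq⟩ : ∃ q : ℕ, q = n / 4 := ⟨_, rfl⟩
    have hq1 : 1 ≤ q := by omega
    have hnq : n ≤ 8 * q := by omega
    have hmn : 2 * m ≤ n := by omega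
    have hqm : 2 * q ≤ m := by omega
    have hqR : (n : ℝ) ≤ 8 * q := by exact_mod_cast hnq
    have hq0 : (1 : ℝ) ≤ q := by exact_mod_cast hq1
    have h6 := mid_sum_le (Finset.Ico q (2 * q)) m (fun k hk => by
      rw [Finset.mem_Ico] at hk
      omega)
    have h7 : ∑ k ∈ Finset.Ico q (2 * q), ENNReal.ofReal (c * (q : ℝ) ^ (b - δ)) ≤
        ∑ k ∈ Finset.Ico q (2 * q), gf (MidW k) := by
      apply Finset.sum_le_sum
      intro k hk
      rw [Finset.mem_Ico] at hk
      refine le_trans (ENNReal.ofReal_le_ofReal ?_) (hM k (by omega))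
      have h8 : (q : ℝ) ≤ k := by exact_mod_cast hk.1
      exact mul_le_mul_of_nonneg_left (Real.rpow_le_rpow (by linarith) h8 hb1) hc.le
    rw [Finset.sum_const, Nat.card_Ico, nsmul_eq_mul] at h7
    have e1 : 2 * q - q = q := by omega
    rw [e1] at h7
    have e2 : ((q : ℕ) : ℝ≥0∞) * ENNReal.ofReal (c * (q : ℝ) ^ (b - δ)) =
        ENNReal.ofReal (c * (q : ℝ) ^ (b - δ + 1)) := by
      rw [Real.rpow_add (by linarith), Real.rpow_one, ← ENNReal.ofReal_natCast, ← ENNReal.ofReal_mul (by linarith)]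
      congr 1
      ring
    rw [e2] at h7
    refine le_trans (ENNReal.ofReal_le_ofReal ?_) (h7.trans (h6.trans (HH_mono hmn)))
    have h9 : (n : ℝ) ^ (b - δ + 1) ≤ K * (q : ℝ) ^ (b - δ + 1) := by
      calc (n : ℝ) ^ (b - δ + 1) ≤ (8 * q : ℝ) ^ (b - δ + 1) := Real.rpow_le_rpow hn0.le hqR (by linarith)
        _ = (8 : ℝ) ^ (b - δ + 1) * (q : ℝ) ^ (b - δ + 1) := Real.mul_rpow (by norm_num) (by linarith)
        _ ≤ K * (q : ℝ) ^ (b - δ + 1) := by
            apply mul_le_mul_of_nonneg_right _ (by positivity)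
            rw [hK]
            exact Real.rpow_le_rpow_of_exponent_le (by norm_num) (by linarith)
    calc min (c / K) K⁻¹ * (n : ℝ) ^ (b + 1 - ε) ≤ c / K * (K * (q : ℝ) ^ (b - δ + 1)) :=
          mul_le_mul (min_le_left _ _) (hne.trans h9) (by positivity) (by positivity)
      _ = c * (q : ℝ) ^ (b - δ + 1) := by
          field_simp

/-- **C3, windows.** One member in every window is enough. -/
theorem hLow_of_fam {G : ℕ → Set (List Bool)} (hG : Fam G) {b : ℝ} (hb : 0 < b) (h : LowFam G b) : HLow (b + 1) := by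
  classical
  intro ε hε
  obtain ⟨δ, hδ⟩ : ∃ δ : ℝ, δ = min (ε / 2) (min b (1 / 2)) := ⟨_, rfl⟩
  have h1 : 0 < δ := by rw [hδ]; exact lt_min (by linarith) (lt_min hb (by norm_num))
  have h2 : δ ≤ ε / 2 := by rw [hδ]; exact min_le_left _ _
  have h3 : δ ≤ b := by rw [hδ]; exact (min_le_right _ _).trans (min_le_left _ _)
  have h4 : δ ≤ 1 / 2 := by rw [hδ]; exact (min_le_right _ _).trans (min_le_right _ _)
  obtain ⟨c, m0, hc, hM⟩ := h δ h1
  have hb1 : 0 ≤ b - δ := by linarith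
  obtain ⟨N, hN⟩ : ∃ N : ℕ, N = max (8 * (m0 + 1)) 65536 := ⟨_, rfl⟩
  have hN1 : 8 * (m0 + 1) ≤ N := by rw [hN]; exact le_max_left _ _
  have hN2 : 65536 ≤ N := by rw [hN]; exact le_max_right _ _
  obtain ⟨K, hK⟩ : ∃ K : ℝ, K = (N : ℝ) ^ (b + 1) := ⟨_, rfl⟩
  have hNR : (65536 : ℝ) ≤ N := by exact_mod_cast hN2
  have hK0 : 0 < K := by rw [hK]; exact Real.rpow_pos_of_pos (by linarith) _
  obtain ⟨R, hR⟩ : ∃ R : ℝ, R = (16 : ℝ) ^ (b + 1) := ⟨_, rfl⟩
  have hR0 : 0 < R := by rw [hR]; positivity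
  refine ⟨min (c / (192 * R)) K⁻¹, by positivity, fun n hn => ?_⟩
  have hnR : (1 : ℝ) ≤ n := by exact_mod_cast hn
  have hn0 : (0 : ℝ) < n := by linarith
  rcases Nat.lt_or_ge n N with hlt | hge
  · refine le_trans ?_ (one_le_HH' n)
    rw [← ENNReal.ofReal_one]
    apply ENNReal.ofReal_le_ofReal
    have h5 : (n : ℝ) ^ (b + 1 - ε) ≤ K := by
      calc (n : ℝ) ^ (b + 1 - ε) ≤ (n : ℝ) ^ (b + 1) := Real.rpow_le_rpow_of_exponent_le hnR (by linarith)
        _ ≤ (N : ℝ) ^ (b + 1) := Real.rpow_le_rpow hn0.le (by exact_mod_cast hlt.le) (by linarith)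
        _ = K := hK.symm
    calc min (c / (192 * R)) K⁻¹ * (n : ℝ) ^ (b + 1 - ε) ≤ K⁻¹ * K :=
          mul_le_mul (min_le_right _ _) h5 (by positivity) (by positivity)
      _ = 1 := inv_mul_cancel₀ hK0.ne'
  · -- the windows: centers q + 3 w j, w = ceil (n ^ δ)
    obtain ⟨q, hq⟩ : ∃ q : ℕ, q = n / 8 := ⟨_, rfl⟩
    obtain ⟨w, hw⟩ : ∃ w : ℕ, w = ⌈(n : ℝ) ^ δ⌉₊ := ⟨_, rfl⟩
    have hq1 : m0 + 1 ≤ q := by omega
    have hq2 : 1 ≤ q := by omega
    have hnq : n ≤ 16 * q := by omega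
    have hqn : 8 * q ≤ n := by omega
    have hq0 : (1 : ℝ) ≤ q := by exact_mod_cast hq2
    have hnqR : (n : ℝ) ≤ 16 * q := by exact_mod_cast hnq
    have hqnR : 8 * (q : ℝ) ≤ n := by exact_mod_cast hqn
    have hw1 : (n : ℝ) ^ δ ≤ w := by rw [hw]; exact Nat.le_ceil _
    have hw2 : (w : ℝ) < (n : ℝ) ^ δ + 1 := by rw [hw]; exact Nat.ceil_lt_add_one (by positivity)
    have hnd : 1 ≤ (n : ℝ) ^ δ := Real.one_le_rpow hnR h1.le
    have hw3 : (w : ℝ) ≤ 2 * (n : ℝ) ^ δ := by linarith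
    have hsq : (n : ℝ) ^ δ ≤ Real.sqrt n := by
      rw [Real.sqrt_eq_rpow]
      exact Real.rpow_le_rpow_of_exponent_le hnR h4
    have hsn : Real.sqrt n * Real.sqrt n = n := Real.mul_self_sqrt hn0.le
    have hs : 256 ≤ Real.sqrt n := by
      apply Real.le_sqrt_of_sq_le
      have : (N : ℝ) ≤ n := by exact_mod_cast hge
      norm_num
      linarith
    have hs2 : 256 * Real.sqrt n ≤ Real.sqrt n * Real.sqrt n := mul_le_mul_of_nonneg_right hs (Real.sqrt_nonneg _)
    have hw4 : 128 * (w : ℝ) ≤ n := by linarith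
    have hw0 : 1 ≤ w := by
      have : (1 : ℝ) ≤ w := hnd.trans hw1
      exact_mod_cast this
    have hw0R : (1 : ℝ) ≤ w := by exact_mod_cast hw0
    have hw6 : 8 * (w : ℝ) ≤ q := by linarith
    have hw7 : 8 * w ≤ q := by exact_mod_cast hw6
    obtain ⟨J, hJ⟩ : ∃ J : ℕ, J = q / (3 * w) := ⟨_, rfl⟩
    have hJ1 : J * (3 * w) ≤ q := by rw [hJ]; exact Nat.div_mul_le_self _ _
    have hJ2 : q < 3 * w * (J + 1) := by
      rw [hJ]
      exact Nat.lt_mul_div_succ q (by omega)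
    -- the heights
    have hex : ∀ j : ℕ, ∃ k : ℕ, j < J → (q + 3 * w * j : ℝ) - w ≤ k ∧ (k : ℝ) ≤ (q + 3 * w * j : ℝ) + w ∧
        ENNReal.ofReal (c * (q : ℝ) ^ (b - δ)) ≤ gf (G k) := by
      intro j
      by_cases hj : j < J
      · have hj1 : 3 * w * j ≤ q := by
          calc 3 * w * j = j * (3 * w) := by ring
            _ ≤ J * (3 * w) := Nat.mul_le_mul_right _ hj.le
            _ ≤ q := hJ1
        obtain ⟨k, hk1, hk2, hk3⟩ := hM (q + 3 * w * j) (by omega)
        refine ⟨k, fun _ => ?_⟩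
        push_cast at hk1 hk2 hk3
        have hj2 : (3 * w * j : ℝ) ≤ q := by exact_mod_cast hj1
        have hj3 : (0 : ℝ) ≤ 3 * w * j := by positivity
        have hmn : ((q : ℝ) + 3 * w * j) ^ δ ≤ w :=
          (Real.rpow_le_rpow (by positivity) (by linarith) h1.le).trans hw1
        refine ⟨by linarith, by linarith, le_trans (ENNReal.ofReal_le_ofReal ?_) hk3⟩
        exact mul_le_mul_of_nonneg_left (Real.rpow_le_rpow (by linarith) (by linarith) hb1) hc.le
      · exact ⟨0, fun h => absurd h hj⟩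
    choose κ hκ using hex
    have hinj : Set.InjOn κ (Finset.range J : Set ℕ) := by
      intro i hi j hj hij
      rw [Finset.mem_coe, Finset.mem_range] at hi hj
      by_contra hne
      have hk1 := hκ i hi
      have hk2 := hκ j hj
      rw [hij] at hk1
      rcases lt_or_gt_of_ne hne with hlt' | hlt'
      · have h6 : (i : ℝ) + 1 ≤ j := by exact_mod_cast hlt'
        have h7 : (3 * w : ℝ) * (i + 1) ≤ 3 * w * j := mul_le_mul_of_nonneg_left h6 (by positivity)
        linarith [hk1.2.1, hk2.1]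
      · have h6 : (j : ℝ) + 1 ≤ i := by exact_mod_cast hlt'
        have h7 : (3 * w : ℝ) * (j + 1) ≤ 3 * w * i := mul_le_mul_of_nonneg_left h6 (by positivity)
        linarith [hk2.2.1, hk1.1]
    have h8 := fam_sum_le hG ((Finset.range J).image κ) (3 * q) (fun k hk => by
      rw [Finset.mem_image] at hk
      obtain ⟨j, hj, rfl⟩ := hk
      rw [Finset.mem_range] at hj
      have hj1 : 3 * w * j ≤ q := by
        calc 3 * w * j = j * (3 * w) := by ring
          _ ≤ J * (3 * w) := Nat.mul_le_mul_right _ hj.le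
          _ ≤ q := hJ1
      have hj2 : (3 * w * j : ℝ) ≤ q := by exact_mod_cast hj1
      have h9 := (hκ j hj).2.1
      have h10 : (κ j : ℝ) ≤ 3 * q := by linarith
      exact_mod_cast h10)
    rw [Finset.sum_image hinj] at h8
    have h9 : ∑ j ∈ Finset.range J, ENNReal.ofReal (c * (q : ℝ) ^ (b - δ)) ≤
        ∑ j ∈ Finset.range J, gf (G (κ j)) := by
      apply Finset.sum_le_sum
      intro j hj
      exact (hκ j (Finset.mem_range.1 hj)).2.2
    rw [Finset.sum_const, Finset.card_range, nsmul_eq_mul, ← ENNReal.ofReal_natCast,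
      ← ENNReal.ofReal_mul (Nat.cast_nonneg _)] at h9
    refine le_trans (ENNReal.ofReal_le_ofReal ?_) (h9.trans (h8.trans (HH_mono (by omega))))
    -- the arithmetic
    have hJR : (q : ℝ) / (6 * w) ≤ J := by
      have h10 : (q : ℝ) < 3 * w * (J + 1) := by exact_mod_cast hJ2
      rw [div_le_iff₀ (by positivity)]
      have h11 : (1 : ℝ) ≤ J := by
        have h12 : 1 ≤ J := by
          rw [hJ]
          exact (Nat.one_le_div_iff (by omega)).2 (by omega)
        exact_mod_cast h12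
      have h13 : (3 * w : ℝ) * (J + 1) ≤ 3 * w * (2 * J) := mul_le_mul_of_nonneg_left (by linarith) (by positivity)
      linarith
    have hJn : (n : ℝ) ^ (1 - δ) / 192 ≤ J := by
      refine le_trans ?_ hJR
      rw [Real.rpow_sub hn0, Real.rpow_one, div_div, div_le_div_iff₀ (by positivity) (by positivity)]
      have hnd0 : 0 < (n : ℝ) ^ δ := by linarith
      calc (n : ℝ) * (6 * w) ≤ (16 * q) * (6 * (2 * (n : ℝ) ^ δ)) :=
            mul_le_mul hnqR (by linarith) (by positivity) (by positivity)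
        _ = q * ((n : ℝ) ^ δ * 192) := by ring
    have hqb : (n : ℝ) ^ (b - δ) / R ≤ (q : ℝ) ^ (b - δ) := by
      rw [div_le_iff₀ hR0]
      calc (n : ℝ) ^ (b - δ) ≤ (16 * q : ℝ) ^ (b - δ) := Real.rpow_le_rpow hn0.le hnqR hb1
        _ = (16 : ℝ) ^ (b - δ) * (q : ℝ) ^ (b - δ) := Real.mul_rpow (by norm_num) (by linarith)
        _ ≤ (q : ℝ) ^ (b - δ) * R := by
            rw [mul_comm]
            apply mul_le_mul_of_nonneg_left _ (by positivity)
            rw [hR]
            exact Real.rpow_le_rpow_of_exponent_le (by norm_num) (by linarith)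
    have hne : (n : ℝ) ^ (b + 1 - ε) ≤ (n : ℝ) ^ (1 - δ) * (n : ℝ) ^ (b - δ) := by
      rw [← Real.rpow_add hn0]
      exact Real.rpow_le_rpow_of_exponent_le hnR (by linarith)
    calc min (c / (192 * R)) K⁻¹ * (n : ℝ) ^ (b + 1 - ε) ≤
          c / (192 * R) * ((n : ℝ) ^ (1 - δ) * (n : ℝ) ^ (b - δ)) :=
          mul_le_mul (min_le_left _ _) hne (by positivity) (by positivity)
      _ = (n : ℝ) ^ (1 - δ) / 192 * (c * ((n : ℝ) ^ (b - δ) / R)) := by
          field_simp
      _ ≤ J * (c * (q : ℝ) ^ (b - δ)) :=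
          mul_le_mul hJn (mul_le_mul_of_nonneg_left hqb hc.le) (by positivity) (by positivity)

lemma fam_midW : Fam MidW := ⟨fun _ _ _ h1 h2 => mid_disj h1 h2, fun _ _ ht => SSt_mono (by omega) ht.1⟩

/-- the vertical mid-edges -/
theorem hLow_of_midW {b : ℝ} (hb : 0 < b) (h : MidLowW b) : HLow (b + 1) := hLow_of_fam fam_midW hb h

/-- words of the strip of 2 k + 1 rows that end on a slanted mid-edge of the middle row k + 1 -/
def MidR (k : ℕ) : Set (List Bool) := {t | t ∈ SSt (2 * k + 1) ∧ lev t t.length + lev t (t.length + 1) = 6 * k + 5}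

lemma fam_midR : Fam MidR := ⟨fun a b t ha hb => by
  have h1 := ha.2
  have h2 := hb.2
  omega, fun _ _ ht => ht.1⟩

/-- half plane walks, sharp, from windows, slanted mid-edges of the middle row -/
theorem hLow_sharpR (h : LowFam MidR (13 / 48)) : HLow (61 / 48) := by
  have h1 := hLow_of_fam fam_midR (by norm_num) h
  have e : (13 / 48 + 1 : ℝ) = 61 / 48 := by norm_num
  rwa [e] at h1

/-- half plane walks, sharp, from windows -/
theorem hLow_sharpW (h : MidLowW (13 / 48)) : HLow (61 / 48) := by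
  have h1 := hLow_of_midW (by norm_num) h
  have e : (13 / 48 + 1 : ℝ) = 61 / 48 := by norm_num
  rwa [e] at h1

/-- half plane walks, sharp -/
theorem hLow_sharp (h : MidLow (13 / 48)) : HLow (61 / 48) := by
  have h1 := hLow_of_mid (by norm_num) h
  have e : (13 / 48 + 1 : ℝ) = 61 / 48 := by norm_num
  rwa [e] at h1

/-- the cumulative sums from below, sharp -/
theorem cum_low_sharp (hU : Pool.Agent.NUF.NumUp) (H : HLow (61 / 48)) {ε : ℝ} (hε : 0 < ε) :
    ∃ c : ℝ, 0 < c ∧ ∀ n : ℕ, 1 ≤ n → c * (n : ℝ) ^ (43 / 32 - ε) ≤ cum n :=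
  cum_ge_of_HH (h := 61 / 48) (a := 4 / 3) (by norm_num) H (by norm_num)
    (fun _ ha => Pool.Agent.NUF.meanLen_of_ZZ (Pool.Agent.NUF.zzUp_of hU) ha) (by
      have e : ((2 * (61 / 48) - 3 / 4) / (4 / 3) : ℝ) = 43 / 32 := by norm_num
      rw [e]
      linarith)

/-- **the exponent gamma**, from both sides, on aB and muB -/
theorem gamma_sharp (H : HUp (61 / 48)) (HL : HLow (61 / 48)) (hU : Pool.Agent.NUF.NumUp) (hL : Pool.Agent.NUF.NFLow) :
    ∀ ε : ℝ, 0 < ε → ∃ C : ℝ, 0 < C ∧ ∀ n : ℕ, 1 ≤ n →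
      C⁻¹ * (n : ℝ) ^ (43 / 32 - ε) ≤ ∑ k ∈ range (n + 1), (aB k : ℝ) / muB ^ k ∧
      ∑ k ∈ range (n + 1), (aB k : ℝ) / muB ^ k ≤ C * (n : ℝ) ^ (43 / 32 + ε) := by
  intro ε hε
  obtain ⟨c, hc, h1⟩ := cum_low_sharp hU HL hε
  obtain ⟨C, h2⟩ := cum_up H hL hε
  obtain ⟨D, hD⟩ : ∃ D, D = max c⁻¹ |C| := ⟨_, rfl⟩
  have hD1 : c⁻¹ ≤ D := by rw [hD]; exact le_max_left _ _
  have hD2 : |C| ≤ D := by rw [hD]; exact le_max_right _ _
  have hD0 : 0 < D := lt_of_lt_of_le (inv_pos.2 hc) hD1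
  refine ⟨D, hD0, fun n hn => ⟨?_, ?_⟩⟩
  · refine le_trans (mul_le_mul_of_nonneg_right ?_ (by positivity)) (h1 n hn)
    rw [inv_le_comm₀ hD0 hc]
    exact hD1
  · refine (h2 n hn).trans ?_
    calc C * (n : ℝ) ^ (43 / 32 + ε) ≤ |C| * (n : ℝ) ^ (43 / 32 + ε) :=
          mul_le_mul_of_nonneg_right (le_abs_self C) (by positivity)
      _ ≤ D * (n : ℝ) ^ (43 / 32 + ε) := mul_le_mul_of_nonneg_right hD2 (by positivity)

end BAR

end HexObs
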