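import Pool.Agent.BAR.LegC

/-!
BAR, type C: the walks from the middle mid-edge to the floor.

`MF N v0 d0` : the self-avoiding words of the strip of N rows that start with the half edge (v0, d0) (v0 may be visited) and
leave the strip through the floor. `mf_le_mid` : the words from both sides of a vertical mid-edge between the rows k and k + 1
weigh together at most `gf (MidW k)` (reversal and translation); `mf_le_midR` : the same for a slanted mid-edge of the row k + 1.
-/

set_option autoImplicit false

namespace HexObs

namespace BAR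

open Finset Filter

open scoped ENNReal Topology

/-- the words of the strip of N rows that start with the half edge (v0, d0) and leave through the floor -/
structure MFp (N : ℕ) (v0 d0 : Pt) (t : List Bool) : Prop where
  mem : ∀ i, 1 ≤ i → i ≤ t.length → 0 < ip (vx v0 d0 t i) up ∧ ip (vx v0 d0 t i) up < 3 * (N : ℕ) + 2
  inj : ∀ i j, 1 ≤ i → i < j → j ≤ t.length → vx v0 d0 t i ≠ vx v0 d0 t j
  dir : dx d0 t t.length = -up
  flo : ip (vx v0 d0 t (t.length + 1)) up = 0

/-- the words of the strip of N rows that start with the half edge (v0, d0) and leave through the floor -/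
def MF (N : ℕ) (v0 d0 : Pt) : Set (List Bool) := {t | MFp N v0 d0 t}

lemma vx_base (v0 d0 : Pt) (t : List Bool) (i : ℕ) : vx v0 d0 t i = v0 + vx oo d0 t i := by
  induction i with
  | zero => exact (add_zero v0).symm
  | succ i ih =>
    show vx v0 d0 t i + dx d0 t i = v0 + (vx oo d0 t i + dx d0 t i)
    rw [ih, add_assoc]

lemma ip_sub_up (a b : Pt) : ip (a - b) up = ip a up - ip b up := by
  unfold ip
  simp only [Prod.fst_sub, Prod.snd_sub]
  ring

/-- the reversed word, seen from its foot -/
lemma lev_rev_MF {N : ℕ} {v0 d0 : Pt} {t : List Bool} (h : MFp N v0 d0 t) {i : ℕ} (hi : i ≤ t.length + 1) :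
    lev (rev t) i = ip (vx v0 d0 t (t.length + 1 - i)) up := by
  have h1 := vx_rev v0 d0 t i hi
  rw [h.dir, neg_neg, vx_base] at h1
  have h2 : vx oo up (rev t) i = vx v0 d0 t (t.length + 1 - i) - tip v0 d0 t := by
    rw [← h1]
    abel
  unfold lev
  rw [h2, ip_sub_up]
  have h3 : ip (tip v0 d0 t) up = 0 := h.flo
  rw [h3, sub_zero]

lemma rev_mem_SSt {N : ℕ} {v0 d0 : Pt} {t : List Bool} (h : MFp N v0 d0 t) : rev t ∈ SSt N := by
  have hl := rev_length t
  refine ⟨fun i h1 h2 => ?_, fun i j hij hj => ?_⟩
  · rw [hl] at h2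
    rw [mem_St, lev_rev_MF h (by omega)]
    exact h.mem _ (by omega) (by omega)
  · rw [hl] at hj
    intro he
    have h3 : lev (rev t) i = lev (rev t) j := by
      unfold lev
      rw [he]
    rcases Nat.eq_zero_or_pos i with h0 | h0
    · rw [h0, lev_zero, lev_rev_MF h (by omega)] at h3
      have := (h.mem (t.length + 1 - j) (by omega) (by omega)).1
      omega
    · have h4 := vx_rev v0 d0 t i (by omega)
      have h5 := vx_rev v0 d0 t j (by omega)
      rw [h.dir, neg_neg, vx_base] at h4 h5
      rw [he] at h4
      exact h.inj _ _ (by omega) (by omega : t.length + 1 - j < t.length + 1 - i) (by omega) (h5.symm.trans h4)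

/-- **The walks from the two sides of a mid-edge to the floor are reversed half plane words.** -/
theorem mf_le {N : ℕ} {u d : Pt} {P : Set (List Bool)}
    (hP : ∀ t ∈ SSt N, lev t t.length + lev t (t.length + 1) = ip u up + ip (u + d) up → t ∈ P)
    (hne : ip d up ≠ 0) :
    gf (MF N u d) + gf (MF N (u + d) (-d)) ≤ gf P := by
  have hadd : ip (u + d) up = ip u up + ip d up := by
    unfold ip
    simp only [Prod.fst_add, Prod.snd_add]
    ring
  -- the levels at the start
  have s1 : ∀ t, MFp N u d t → lev (rev t) (rev t).length = ip (u + d) up ∧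
      lev (rev t) ((rev t).length + 1) = ip u up := by
    intro t ht
    rw [rev_length]
    constructor
    · rw [lev_rev_MF ht (by omega)]
      have : t.length + 1 - t.length = 1 := by omega
      rw [this]
      rfl
    · rw [lev_rev_MF ht le_rfl, Nat.sub_self]
      rfl
  have s2 : ∀ t, MFp N (u + d) (-d) t → lev (rev t) (rev t).length = ip u up ∧
      lev (rev t) ((rev t).length + 1) = ip (u + d) up := by
    intro t ht
    rw [rev_length]
    constructor
    · rw [lev_rev_MF ht (by omega)]
      have : t.length + 1 - t.length = 1 := by omega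
      rw [this]
      show ip (u + d + -d) up = _
      rw [add_neg_cancel_right]
    · rw [lev_rev_MF ht le_rfl, Nat.sub_self]
      rfl
  have hinj : ∀ (Q : Set (List Bool)), Set.InjOn rev Q := by
    intro Q s _ t _ hst
    have := congrArg rev hst
    rwa [rev_rev, rev_rev] at this
  have e1 : gf (MF N u d) ≤ gf (P ∩ {t | lev t t.length = ip (u + d) up}) := by
    have := gf_le_of_inj (P := MF N u d) (Q := P ∩ {t | lev t t.length = ip (u + d) up}) rev
      (fun t ht => ⟨hP _ (rev_mem_SSt ht) (by
        rw [(s1 t ht).1, (s1 t ht).2]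
        ring), (s1 t ht).1⟩) (hinj _) 1 (by
        intro t _
        rw [one_mul, wE_rev])
    rwa [one_mul] at this
  have e2 : gf (MF N (u + d) (-d)) ≤ gf (P ∩ {t | lev t t.length = ip u up}) := by
    have := gf_le_of_inj (P := MF N (u + d) (-d)) (Q := P ∩ {t | lev t t.length = ip u up}) rev
      (fun t ht => ⟨hP _ (rev_mem_SSt ht) (by
        rw [(s2 t ht).1, (s2 t ht).2]), (s2 t ht).1⟩) (hinj _) 1 (by
        intro t _
        rw [one_mul, wE_rev])
    rwa [one_mul] at this
  refine (add_le_add e1 e2).trans ?_
  rw [← gf_union]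
  · apply gf_mono
    rintro t (ht | ht)
    · exact ht.1
    · exact ht.1
  · rw [Set.disjoint_left]
    rintro t ⟨_, h1⟩ ⟨_, h2⟩
    rw [Set.mem_setOf_eq] at h1 h2
    omega

/-- vertical mid-edge between the rows k and k + 1 of the strip of 2 k rows -/
theorem mf_le_mid {k : ℕ} {u : Pt} (hu : ip u up = 3 * k) :
    gf (MF (2 * k) u up) + gf (MF (2 * k) (u + up) (-up)) ≤ gf (MidW k) := by
  have hup : ip up up = 2 := by decide
  apply mf_le
  · intro t ht h1
    refine ⟨ht, ?_⟩
    have : ip (u + up) up = ip u up + ip up up := by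
      unfold ip
      simp only [Prod.fst_add, Prod.snd_add]
      ring
    rw [h1, this, hu, hup]
    ring
  · rw [hup]
    norm_num

/-- slanted mid-edge of the row k + 1 of the strip of 2 k + 1 rows -/
theorem mf_le_midR {k : ℕ} {u d : Pt} (hu : ip u up = 3 * k + 2) (hd : ip d up = 1) :
    gf (MF (2 * k + 1) u d) + gf (MF (2 * k + 1) (u + d) (-d)) ≤ gf (MidR k) := by
  apply mf_le
  · intro t ht h1
    refine ⟨ht, ?_⟩
    have : ip (u + d) up = ip u up + ip d up := by
      unfold ip
      simp only [Prod.fst_add, Prod.snd_add]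
      ring
    rw [h1, this, hu, hd]
    ring
  · rw [hd]
    norm_num

end BAR

end HexObs
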