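import Pool.Agent.BAR.LegCF

/-!
BAR, type C: glue between the lattice functional (limit of finite sums of words from a row mid-edge to the floor) and `LowFam MidR`.
-/

set_option autoImplicit false

namespace HexObs

namespace BAR

open Finset Filter

open scoped ENNReal Topology

/-- finite sums of words from the half edge to the floor -/
theorem sum_le_MF {N : ℕ} {u d : Pt} (F : Finset (List Bool)) (hF : ∀ t ∈ F, MFp N u d t) :
    ENNReal.ofReal (∑ t ∈ F, xc ^ t.length) ≤ gf (MF N u d) := by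
  rw [← gf_finset]
  exact gf_mono fun t ht => hF t ht

/-- the limit of finite sums -/
theorem le_of_lim {A : ℝ≥0∞} {x : ℝ} {s : ℕ → ℝ} (h : Tendsto s atTop (𝓝 x)) (hs : ∀ m, ENNReal.ofReal (s m) ≤ A) :
    ENNReal.ofReal x ≤ A :=
  le_of_tendsto ((ENNReal.continuous_ofReal.tendsto x).comp h) (Eventually.of_forall hs)

/-- one direction of a slanted mid-edge of the middle row: from the lower end -/
theorem mf_le_midR_up {k : ℕ} {u d : Pt} (hu : ip u up = 3 * k + 2) (hd : ip d up = 1) :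
    gf (MF (2 * k + 1) u d) ≤ gf (MidR k) := le_trans le_self_add (mf_le_midR hu hd)

/-- one direction of a slanted mid-edge of the middle row: from the upper end -/
theorem mf_le_midR_dn {k : ℕ} {u d : Pt} (hu : ip u up = 3 * k + 3) (hd : ip d up = -1) :
    gf (MF (2 * k + 1) u d) ≤ gf (MidR k) := by
  have h1 := mf_le_midR (k := k) (u := u + d) (d := -d) (by
    have : ip (u + d) up = ip u up + ip d up := by
      unfold ip
      simp only [Prod.fst_add, Prod.snd_add]
      ring
    rw [this, hu, hd]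
    ring) (by
    have : ip (-d) up = -ip d up := by
      unfold ip
      simp only [Prod.fst_neg, Prod.snd_neg]
      ring
    rw [this, hd]
    norm_num)
  rw [add_neg_cancel_right, neg_neg] at h1
  exact le_trans le_add_self h1

/-- the family of the slanted mid-edges from a family of real numbers -/
theorem lowFam_of {G : ℕ → Set (List Bool)} {b : ℝ} {x : ℕ → ℝ} {k0 : ℕ} (hx : ∀ k, k0 ≤ k → ENNReal.ofReal (x k) ≤ gf (G k))
    (h : ∀ ε : ℝ, 0 < ε → ∃ (c : ℝ) (m0 : ℕ), 0 < c ∧ ∀ m : ℕ, m0 ≤ m → ∃ k : ℕ, k0 ≤ k ∧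
      (m : ℝ) - (m : ℝ) ^ ε ≤ k ∧ (k : ℝ) ≤ m + (m : ℝ) ^ ε ∧ c * (m : ℝ) ^ (b - ε) ≤ x k) : LowFam G b := by
  intro ε hε
  obtain ⟨c, m0, hc, H⟩ := h ε hε
  refine ⟨c, m0, hc, fun m hm => ?_⟩
  obtain ⟨k, hk0, h1, h2, h3⟩ := H m hm
  exact ⟨k, h1, h2, (ENNReal.ofReal_le_ofReal h3).trans (hx k hk0)⟩

end BAR

end HexObs
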