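import Pool.Agent.BAR.Jump

/-!
BAR: disjoint pairs of half plane walks are cut into two bridges with hanging walks and the bridges are cut at half height.
-/

set_option autoImplicit false

namespace HexObs

open Complex Finset ENNReal

namespace BAR

/-- weight of a bridge of height T together with the walks that hang at its end -/
noncomputable def Gh (T : ℕ) (h : List Bool) : ℝ≥0∞ := 1 + if T = 0 then 0 else GH (T - 1) h

/-- sum over the positions of the jump of a bridge of height T over the height T / 2 -/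
noncomputable def JS (T : ℕ) (f : ℕ → ℕ → ℕ → ℝ≥0∞) : ℝ≥0∞ :=
  if T = 0 then f 0 0 0 else
    ∑ i ∈ Finset.range (T / 2 + 1), ∑ r ∈ Finset.Ico (T / 2 + 1 - i) (T + 1 - i), f i r (T - i - r)

/-- weights of the jumps, with the convention for the height 0 -/
noncomputable def kh (r : ℕ) : ℝ≥0∞ := if r = 0 then 1 else kap' r

lemma JS_mul_left (T : ℕ) (c : ℝ≥0∞) (f : ℕ → ℕ → ℕ → ℝ≥0∞) : c * JS T f = JS T fun i r u => c * f i r u := by
  unfold JS
  split_ifs
  · rfl
  · rw [Finset.mul_sum]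
    exact Finset.sum_congr rfl fun i _ => Finset.mul_sum _ _ _

lemma JS_mono {T : ℕ} {f g : ℕ → ℕ → ℕ → ℝ≥0∞} (h : ∀ i r u, f i r u ≤ g i r u) : JS T f ≤ JS T g := by
  unfold JS
  split_ifs
  · exact h _ _ _
  · exact Finset.sum_le_sum fun i _ => Finset.sum_le_sum fun r _ => h _ _ _

lemma JS_tsum {α : Type*} (T : ℕ) (f : α → ℕ → ℕ → ℕ → ℝ≥0∞) :
    ∑' x, JS T (f x) = JS T fun i r u => ∑' x, f x i r u := by
  unfold JS
  split_ifs
  · rfl
  · rw [Summable.tsum_finsetSum fun i _ => ENNReal.summable]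
    refine Finset.sum_congr rfl fun i _ => ?_
    rw [Summable.tsum_finsetSum fun i _ => ENNReal.summable]

lemma jump_JS {F : List Bool → ℝ≥0∞} (hF : ∀ s t, F (s ++ t) ≤ F t) (T : ℕ)
    (R : List Bool → Prop) (hR : ∀ N w, R (N ++ w) → R N) :
    ∑' g' : {g' : List Bool // g' ∈ Brd T ∧ R g'}, wE g'.1 * F g'.1 ≤
    JS T fun i r u => gf {N | N ∈ Brd i ∧ R N} * kh r * WB F u := by
  rcases Nat.eq_zero_or_pos T with rfl | hT
  · have e : JS 0 (fun i r u => gf {N | N ∈ Brd i ∧ R N} * kh r * WB F u) =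
        gf {N | N ∈ Brd 0 ∧ R N} * kh 0 * WB F 0 := if_pos rfl
    have e1 : kh 0 = 1 := if_pos rfl
    have e2 : F [] ≤ WB F 0 := by
      unfold WB
      calc F [] = wE [] * F [] := by
            unfold wE
            simp
        _ ≤ ∑' t : {t : List Bool // t ∈ Brd 0}, wE t.1 * F t.1 :=
          ENNReal.le_tsum (⟨[], nil_mem_Brd⟩ : {t : List Bool // t ∈ Brd 0})
    rw [e, e1, mul_one]
    unfold gf
    rw [← ENNReal.tsum_mul_right]
    refine ENNReal.tsum_le_tsum fun x => ?_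
    have hx : x.1 = [] := by
      have h1 : ∀ w : List Bool, w ∈ Brd 0 → w = [] := by
        intro w hw
        rw [Brd_zero] at hw
        exact hw
      exact h1 _ x.2.1
    rw [hx]
    exact mul_le_mul_right e2 _
  · obtain ⟨n, rfl⟩ : ∃ n, T = n + 1 := ⟨T - 1, by omega⟩
    refine (jump_sum hF (l := (n + 1) / 2) (by omega) R hR).trans (le_of_eq ?_)
    unfold JS
    rw [if_neg (by omega)]
    refine Finset.sum_congr rfl fun i hi => Finset.sum_congr ?_ fun r hr => ?_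
    · congr 1
    · have hr1 := (Finset.mem_Ico.1 hr).1
      have hi1 := Finset.mem_range.1 hi
      have hr0 : r ≠ 0 := by omega
      have e : kh r = kap' r := if_neg hr0
      simp only [e]

open Classical in
/-- exchange of the sums over the pairs -/
lemma swap2 (A B : Set (List Bool)) (R : List Bool → List Bool → Prop) (f g : List Bool → ℝ≥0∞) :
    ∑' x : {x : List Bool // x ∈ A}, f x.1 * ∑' y : {y : List Bool // y ∈ B ∧ R y x.1}, g y.1 =
    ∑' y : {y : List Bool // y ∈ B}, g y.1 * ∑' x : {x : List Bool // x ∈ A ∧ R y.1 x}, f x.1 := by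
  have h1 : ∀ (A B : Set (List Bool)) (R : List Bool → List Bool → Prop) (f g : List Bool → ℝ≥0∞),
      ∑' x : {x : List Bool // x ∈ A}, f x.1 * ∑' y : {y : List Bool // y ∈ B ∧ R y x.1}, g y.1 =
      ∑' x : List Bool, ∑' y : List Bool, if x ∈ A ∧ y ∈ B ∧ R y x then f x * g y else 0 := by
    intro A B R f g
    have e := tsum_subtype A (fun x : List Bool => f x * ∑' y : {y : List Bool // y ∈ B ∧ R y x}, g y.1)
    refine Eq.trans e ?_
    refine tsum_congr fun x => ?_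
    by_cases hx : x ∈ A
    · rw [Set.indicator_of_mem hx]
      have e2 := tsum_subtype {y : List Bool | y ∈ B ∧ R y x} (fun y : List Bool => g y)
      have e3 : ∑' y : {y : List Bool // y ∈ B ∧ R y x}, g y.1 =
          ∑' y : List Bool, ({y : List Bool | y ∈ B ∧ R y x}).indicator g y := e2
      rw [e3, ← ENNReal.tsum_mul_left]
      refine tsum_congr fun y => ?_
      by_cases hy : y ∈ B ∧ R y x
      · rw [Set.indicator_of_mem (by exact hy), if_pos ⟨hx, hy⟩]
      · rw [Set.indicator_of_notMem (by exact hy), if_neg (fun h => hy h.2), mul_zero]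
    · rw [Set.indicator_of_notMem hx]
      simp [hx]
  rw [h1 A B R f g, ENNReal.tsum_comm, h1 B A (fun x y => R y x) g f]
  refine tsum_congr fun y => tsum_congr fun x => ?_
  by_cases h : x ∈ A ∧ y ∈ B ∧ R y x
  · rw [if_pos h, if_pos ⟨h.2.1, h.1, h.2.2⟩, mul_comm]
  · rw [if_neg h, if_neg fun h' => h ⟨h'.2.1, h'.1, h'.2.2⟩]

/-- both bridges of a disjoint pair are cut at their jump over half of their height -/
lemma pair_JS {F F' : List Bool → ℝ≥0∞} (hF : ∀ s t, F (s ++ t) ≤ F t) (hF' : ∀ s t, F' (s ++ t) ≤ F' t) (T T' : ℕ) :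
    ∑' h' : {h' : List Bool // h' ∈ Brd T'}, (wE h'.1 * F' h'.1) *
      ∑' h : {h : List Bool // h ∈ Brd T ∧ Dj h h'.1}, wE h.1 * F h.1 ≤
    JS T fun i r u => JS T' fun i' r' u' => gg i i' * (kh r * WB F u) * (kh r' * WB F' u') := by
  have h1 : ∀ h' : {h' : List Bool // h' ∈ Brd T'}, (wE h'.1 * F' h'.1) *
      ∑' h : {h : List Bool // h ∈ Brd T ∧ Dj h h'.1}, wE h.1 * F h.1 ≤
      JS T fun i r u => (wE h'.1 * F' h'.1) * (gf {N | N ∈ Brd i ∧ Dj N h'.1} * kh r * WB F u) := by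
    intro h'
    rw [← JS_mul_left]
    exact mul_le_mul_right (jump_JS hF T (fun N => Dj N h'.1) fun N w h => HangA.Dj_pref_left h) _
  refine (ENNReal.tsum_le_tsum h1).trans ?_
  rw [JS_tsum]
  refine JS_mono fun i r u => ?_
  have h2 : ∑' h' : {h' : List Bool // h' ∈ Brd T'}, (wE h'.1 * F' h'.1) * (gf {N | N ∈ Brd i ∧ Dj N h'.1} * kh r * WB F u) =
      (∑' N : {N : List Bool // N ∈ Brd i}, wE N.1 * ∑' h' : {h' : List Bool // h' ∈ Brd T' ∧ Dj N.1 h'},
        wE h'.1 * F' h'.1) * (kh r * WB F u) := by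
    rw [← swap2 (Brd T') (Brd i) Dj (fun x => wE x * F' x) wE, ← ENNReal.tsum_mul_right]
    refine tsum_congr fun h' => ?_
    show (wE h'.1 * F' h'.1) * (gf {N | N ∈ Brd i ∧ Dj N h'.1} * kh r * WB F u) =
      (wE h'.1 * F' h'.1) * gf {N | N ∈ Brd i ∧ Dj N h'.1} * (kh r * WB F u)
    ring
  rw [h2]
  have h3 : ∀ N : {N : List Bool // N ∈ Brd i}, wE N.1 * ∑' h' : {h' : List Bool // h' ∈ Brd T' ∧ Dj N.1 h'},
      wE h'.1 * F' h'.1 ≤ JS T' fun i' r' u' => wE N.1 * (gf {M | M ∈ Brd i' ∧ Dj N.1 M} * kh r' * WB F' u') := by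
    intro N
    rw [← JS_mul_left]
    exact mul_le_mul_right (jump_JS hF' T' (fun M => Dj N.1 M) fun M w h => HangA.Dj_pref_right h) _
  refine (mul_le_mul_left (ENNReal.tsum_le_tsum h3) _).trans ?_
  rw [JS_tsum, mul_comm, JS_mul_left]
  refine JS_mono fun i' r' u' => le_of_eq ?_
  have h4 : ∑' N : {N : List Bool // N ∈ Brd i}, wE N.1 * (gf {M | M ∈ Brd i' ∧ Dj N.1 M} * kh r' * WB F' u') =
      gg i i' * (kh r' * WB F' u') := by
    rw [gg_eq_g2, g2_left, ← ENNReal.tsum_mul_right]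
    refine tsum_congr fun N => ?_
    rw [mul_assoc, mul_assoc]
  rw [h4]
  ring

lemma GH_right (m : ℕ) (s t : List Bool) : GH m (s ++ t) ≤ GH m t := by
  unfold GH
  refine add_le_add (gf_mono fun w hw => ⟨hw.1, ?_⟩) (gf_mono fun w hw => ⟨hw.1, ?_⟩)
  · have h : Dj (false :: true :: w) (rev (s ++ t)) := hw.2
    rw [rev_append] at h
    exact (HangA.Dj_pref_right h : Dj (false :: true :: w) (rev t))
  · have h : Dj (rev (s ++ t)) (true :: false :: w) := hw.2
    rw [rev_append] at h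
    exact (HangA.Dj_pref_left h : Dj (rev t) (true :: false :: w))

lemma Gh_right (T : ℕ) (s t : List Bool) : Gh T (s ++ t) ≤ Gh T t := by
  unfold Gh
  refine add_le_add le_rfl ?_
  split_ifs
  · exact le_rfl
  · exact GH_right _ s t

/-- the disjoint pairs of half plane walks: two bridges with the walks that hang at their ends -/
lemma PP_strip (m : ℕ) : PP m ≤ 36 * ∑ T' ∈ Finset.range (m + 1), ∑ T ∈ Finset.range (m + 1),
    ∑' h' : {h' : List Bool // h' ∈ Brd T'}, (wE h'.1 * Gh T' h'.1) *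
      ∑' h : {h : List Bool // h ∈ Brd T ∧ Dj h h'.1}, wE h.1 * Gh T h.1 := by
  have hs : ∀ (P : Set (List Bool)), PrefC P → LastC P →
      gf {t | t ∈ SSt m ∧ t ∈ P} ≤ 6 * ∑ T ∈ Finset.range (m + 1), ∑' h : {h : List Bool // h ∈ Brd T ∧ h ∈ P},
        wE h.1 * Gh T h.1 := by
    intro P hP hL
    have h := ChainIaux.strip_sum hP hL (p := []) (Or.inl rfl) m
    exact h
  have hR : ∀ s : List Bool, gf {t | t ∈ SSt m ∧ Dj s t} ≤ 6 * ∑ T ∈ Finset.range (m + 1),
      ∑' h : {h : List Bool // h ∈ Brd T ∧ Dj s h}, wE h.1 * Gh T h.1 := fun s =>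
    hs {t | Dj s t} (fun a b h => HangA.Dj_pref_right h) (fun a c c' h => HangA.Dj_last_right c c' h)
  have hL : ∀ t : List Bool, gf {s | s ∈ SSt m ∧ Dj s t} ≤ 6 * ∑ T ∈ Finset.range (m + 1),
      ∑' h : {h : List Bool // h ∈ Brd T ∧ Dj h t}, wE h.1 * Gh T h.1 := fun t =>
    hs {s | Dj s t} (fun a b h => HangA.Dj_pref_left h) (fun a c c' h => HangA.Dj_last_left c c' h)
  have h1 : PP m ≤ 6 * ∑ T' ∈ Finset.range (m + 1), ∑' s : {s : List Bool // s ∈ SSt m},
      wE s.1 * ∑' h' : {h' : List Bool // h' ∈ Brd T' ∧ Dj s.1 h'}, wE h'.1 * Gh T' h'.1 := by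
    unfold PP
    rw [g2_left, Finset.mul_sum]
    have e : ∑ T' ∈ Finset.range (m + 1), 6 * ∑' s : {s : List Bool // s ∈ SSt m},
        wE s.1 * ∑' h' : {h' : List Bool // h' ∈ Brd T' ∧ Dj s.1 h'}, wE h'.1 * Gh T' h'.1 =
        ∑' s : {s : List Bool // s ∈ SSt m}, wE s.1 * (6 * ∑ T' ∈ Finset.range (m + 1),
          ∑' h' : {h' : List Bool // h' ∈ Brd T' ∧ Dj s.1 h'}, wE h'.1 * Gh T' h'.1) := by
      simp only [← ENNReal.tsum_mul_left, Finset.mul_sum]
      rw [← Summable.tsum_finsetSum fun i _ => ENNReal.summable]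
      refine tsum_congr fun s => Finset.sum_congr rfl fun T' _ => tsum_congr fun h' => ?_
      ring
    rw [e]
    exact ENNReal.tsum_le_tsum fun s => mul_le_mul_right (hR s.1) _
  have key : ∀ T' : ℕ, ∑' s : {s : List Bool // s ∈ SSt m},
      wE s.1 * ∑' h' : {h' : List Bool // h' ∈ Brd T' ∧ Dj s.1 h'}, wE h'.1 * Gh T' h'.1 ≤
      6 * ∑ T ∈ Finset.range (m + 1), ∑' h' : {h' : List Bool // h' ∈ Brd T'}, (wE h'.1 * Gh T' h'.1) *
        ∑' h : {h : List Bool // h ∈ Brd T ∧ Dj h h'.1}, wE h.1 * Gh T h.1 := by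
    intro T'
    rw [← swap2 (Brd T') (SSt m) Dj (fun x => wE x * Gh T' x) wE]
    have e : 6 * ∑ T ∈ Finset.range (m + 1), ∑' h' : {h' : List Bool // h' ∈ Brd T'}, (wE h'.1 * Gh T' h'.1) *
        ∑' h : {h : List Bool // h ∈ Brd T ∧ Dj h h'.1}, wE h.1 * Gh T h.1 =
        ∑' h' : {h' : List Bool // h' ∈ Brd T'}, (wE h'.1 * Gh T' h'.1) * (6 * ∑ T ∈ Finset.range (m + 1),
          ∑' h : {h : List Bool // h ∈ Brd T ∧ Dj h h'.1}, wE h.1 * Gh T h.1) := by
      simp only [← ENNReal.tsum_mul_left, Finset.mul_sum]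
      rw [← Summable.tsum_finsetSum fun i _ => ENNReal.summable]
      refine tsum_congr fun s => Finset.sum_congr rfl fun T' _ => tsum_congr fun h' => ?_
      ring
    rw [e]
    exact ENNReal.tsum_le_tsum fun h' => mul_le_mul_right (hL h'.1) _
  have e36 : (36 : ℝ≥0∞) = 6 * 6 := by norm_num
  calc PP m ≤ _ := h1
    _ ≤ 6 * ∑ T' ∈ Finset.range (m + 1), 6 * ∑ T ∈ Finset.range (m + 1),
        ∑' h' : {h' : List Bool // h' ∈ Brd T'}, (wE h'.1 * Gh T' h'.1) *
          ∑' h : {h : List Bool // h ∈ Brd T ∧ Dj h h'.1}, wE h.1 * Gh T h.1 :=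
        mul_le_mul' le_rfl (Finset.sum_le_sum fun T' _ => key T')
    _ = _ := by rw [← Finset.mul_sum, e36, mul_assoc]

/-- the disjoint pairs in terms of the pieces of the bridges -/
theorem PP_le (m : ℕ) : PP m ≤ 36 * ∑ T' ∈ Finset.range (m + 1), ∑ T ∈ Finset.range (m + 1),
    JS T fun i r u => JS T' fun i' r' u' => gg i i' * (kh r * WB (Gh T) u) * (kh r' * WB (Gh T') u') := by
  refine (PP_strip m).trans (mul_le_mul' le_rfl ?_)
  refine Finset.sum_le_sum fun T' _ => Finset.sum_le_sum fun T _ => ?_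
  exact pair_JS (Gh_right T) (Gh_right T') T T'

end BAR

end HexObs
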