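import Pool.Agent.BAR.Growth
import Pool.Agent.PHW.Dict

/-!
BAR: dictionary between the words and the self-avoiding walks in brick wall coordinates, part A: lists of steps.
-/

set_option autoImplicit false

namespace HexObs

open Finset ENNReal

namespace BARPub

open SawNu

/-- critical weight of a set of lists of steps -/
noncomputable def gl (S : Set (List (ℤ × ℤ))) : ℝ≥0∞ := ∑' l : S, ENNReal.ofReal (xc ^ l.1.length)

/-- typed self-avoiding lists of steps from the origin -/
def TA (l : List (ℤ × ℤ)) : Prop := TW hexL.S false l ∧ SA l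

/-- walks that stay strictly above the start, in the rows 1, …, m -/
def HL (m : ℕ) : Set (List (ℤ × ℤ)) :=
  {l | TA l ∧ ∀ i, 1 ≤ i → i ≤ l.length → 0 < (ps l i).1 ∧ (ps l i).1 ≤ 3 * (m : ℤ)}

/-- walks that stay in m + 1 consecutive rows -/
def XL (m : ℕ) : Set (List (ℤ × ℤ)) :=
  {l | TA l ∧ ∃ c : ℤ, ∀ i, i ≤ l.length → 3 * c < (ps l i).1 ∧ (ps l i).1 ≤ 3 * (c + m + 1)}

/-! ### 1. Words and lists of steps -/

lemma vx_up (t : List Bool) (i : ℕ) : vx oo up t i = mulE up (vx oo (1, 0) t i) := by
  have h := vx_mulE up oo oo (1, 0) t i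
  have e1 : mulE up (1, 0) = up := by decide
  rw [e1] at h
  rw [h]
  have e2 : vx oo (1, 0) t i - oo = vx oo (1, 0) t i := sub_zero _
  rw [e2]
  exact zero_add _

/-- the steps of a word -/
def stp (t : List Bool) : List (ℤ × ℤ) := (HexMu.stepsOf (1, 0) t).map HexMu.psi

lemma stp_length (t : List Bool) : (stp t).length = t.length + 1 := by
  unfold stp
  rw [List.length_map, HexMu.stepsOf_length]

lemma ps_stp (t : List Bool) {i : ℕ} (hi : i ≤ t.length + 1) : ps (stp t) i = HexMu.psi (vx oo (1, 0) t i) := by
  unfold stp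
  rw [HexMu.ps_map_psi, ← HexMu.ps_stepsOf oo (1, 0) t i hi]
  congr 1
  exact (zero_add _).symm

lemma psi_fst (p : ℤ × ℤ) : (HexMu.psi p).1 = ip (mulE up p) up := by
  unfold HexMu.psi ip mulE up
  simp only
  ring

lemma ps_stp_fst (t : List Bool) {i : ℕ} (hi : i ≤ t.length + 1) : (ps (stp t) i).1 = lev t i := by
  rw [ps_stp t hi, psi_fst, ← vx_up]
  rfl

lemma mulE_up_inj {p q : ℤ × ℤ} (h : mulE up p = mulE up q) : p = q := by
  unfold mulE up at h
  simp only [Prod.mk.injEq] at h
  exact Prod.ext (by omega) (by omega)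

lemma ps_stp_inj (t : List Bool) {i k : ℕ} (hi : i ≤ t.length + 1) (hk : k ≤ t.length + 1) :
    ps (stp t) i = ps (stp t) k ↔ vx oo up t i = vx oo up t k := by
  rw [ps_stp t hi, ps_stp t hk, vx_up, vx_up]
  constructor
  · intro h
    rw [HexMu.psi_inj h]
  · intro h
    rw [mulE_up_inj h]

lemma stp_TA {t : List Bool} (h : ∀ i k, i < k → k ≤ t.length + 1 → vx oo up t i ≠ vx oo up t k) : TA (stp t) := by
  refine ⟨HexMu.stepsOf_tw (by decide) (by simp [HexMu.psi, hexL]) t, fun i k hik hk he => ?_⟩
  rw [stp_length] at hk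
  exact h i k hik hk ((ps_stp_inj t (by omega) hk).1 he)

lemma stp_inj {t t' : List Bool} (h : stp t = stp t') : t = t' :=
  HexMu.stepsOf_inj (by decide) (HexMu.map_psi_inj h)

/-- a typed self-avoiding list that starts with the vertical step comes from a word -/
lemma exists_stp {l : List (ℤ × ℤ)} (h : TA ((2, 0) :: l)) :
    ∃ t : List Bool, t.length = l.length ∧ stp t = (2, 0) :: l := by
  obtain ⟨h1, h2⟩ := h
  refine ⟨HexMu.tword ((2, 0) :: l), HexMu.tword_length _ _, ?_⟩
  unfold stp
  have e1 : HexMu.phi (2, 0) = (1, 0) := rfl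
  have h3 := PHWDict.stepsOf_tw_eq (HexMu.ch_of_SA h1 h2)
  rw [HexMu.tword]
  rw [e1] at h3 ⊢
  rw [h3, List.map_cons]
  congr 1
  have key : ∀ (b : Bool) (l : List (ℤ × ℤ)), TW hexL.S b l → (l.map HexMu.phi).map HexMu.psi = l := by
    intro b l
    induction l generalizing b with
    | nil => intro _; rfl
    | cons s l ih =>
      rintro ⟨k1, k2⟩
      rw [List.map_cons, List.map_cons, HexMu.psi_phi k1, ih _ k2]
  exact key _ l h1.2

/-! ### 2. Comparison of weights by an injection with a free letter -/

lemma ofReal_xc_pow (n : ℕ) : ENNReal.ofReal (xc ^ n) = ENNReal.ofReal xc ^ n :=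
  ENNReal.ofReal_pow xc_pos.le n

lemma wE_eq (t : List Bool) : wE t = ENNReal.ofReal (xc ^ t.length) := rfl

/-- a word without its last letter -/
lemma vx_dropLast {t : List Bool} {b : Bool} {i : ℕ} (hi : i ≤ t.length + 1) :
    vx oo up (t ++ [b]) i = vx oo up t i := vx_append hi

lemma lev_dropLast {t : List Bool} {b : Bool} {i : ℕ} (hi : i ≤ t.length + 1) :
    lev (t ++ [b]) i = lev t i := by
  unfold lev
  rw [vx_dropLast hi]

lemma tsum_opt {α : Type} (f : Option α → ℝ≥0∞) : ∑' q, f q = f none + ∑' a, f (some a) := by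
  rw [← (Equiv.optionEquivSumPUnit.{0} α).symm.tsum_eq f, Summable.tsum_sum ENNReal.summable ENNReal.summable]
  simp [add_comm]

/-- words against lists of steps: general comparison from above -/
lemma gf_le_gl {A : Set (List Bool)} {S : Set (List (ℤ × ℤ))} (h : ∀ t b, t ++ [b] ∈ A → stp t ∈ S) :
    gf A ≤ 1 + 2 * gl S := by
  classical
  let G : Option (Bool × List (ℤ × ℤ)) → ℝ≥0∞ := fun q =>
    match q with
    | none => 1
    | some (_, l) => if l ∈ S then ENNReal.ofReal (xc ^ l.length) else 0
  let F : A → Option (Bool × List (ℤ × ℤ)) := fun t =>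
    if t.1 = [] then none else some (t.1.getLastD true, stp t.1.dropLast)
  have hFinj : Function.Injective F := by
    rintro ⟨t, ht⟩ ⟨t', ht'⟩ he
    apply Subtype.ext
    simp only
    simp only [F] at he
    by_cases h0 : t = []
    · by_cases h0' : t' = []
      · rw [h0, h0']
      · rw [if_pos h0, if_neg h0'] at he
        exact absurd he (by simp)
    · by_cases h0' : t' = []
      · rw [if_neg h0, if_pos h0'] at he
        exact absurd he (by simp)
      · rw [if_neg h0, if_neg h0'] at he
        have h1 := Option.some.inj he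
        have h2 := congrArg Prod.fst h1
        have h3 := stp_inj (congrArg Prod.snd h1)
        simp only at h2
        have h4 : t.getLast h0 = t'.getLast h0' := by
          rw [List.getLastD_eq_getLast?, List.getLastD_eq_getLast?, List.getLast?_eq_getLast_of_ne_nil h0,
            List.getLast?_eq_getLast_of_ne_nil h0'] at h2
          simpa using h2
        rw [← List.dropLast_append_getLast h0, ← List.dropLast_append_getLast h0', h3, h4]
  have hval : ∀ t : A, wE t.1 = G (F t) := by
    rintro ⟨t, ht⟩
    simp only [F, G]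
    by_cases h0 : t = []
    · rw [if_pos h0]
      simp only [h0]
      unfold wE
      simp
    · rw [if_neg h0]
      simp only
      have h1 : t.dropLast ++ [t.getLast h0] ∈ A := by rw [List.dropLast_append_getLast h0]; exact ht
      rw [if_pos (h _ _ h1), stp_length, List.length_dropLast, wE_eq]
      have h2 : t.length - 1 + 1 = t.length := by
        have := List.length_pos_iff.2 h0
        omega
      rw [h2]
  calc gf A = ∑' t : A, G (F t) := tsum_congr hval
    _ ≤ ∑' q, G q := ENNReal.tsum_comp_le_tsum_of_injective hFinj G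
    _ = 1 + ∑' q : Bool × List (ℤ × ℤ), (if q.2 ∈ S then ENNReal.ofReal (xc ^ q.2.length) else 0) := by
        rw [tsum_opt G]
    _ = 1 + 2 * gl S := by
        rw [ENNReal.tsum_prod', tsum_bool]
        have e : ∑' l : List (ℤ × ℤ), (if l ∈ S then ENNReal.ofReal (xc ^ l.length) else 0) = gl S := by
          unfold gl
          rw [tsum_subtype S (fun l => ENNReal.ofReal (xc ^ l.length))]
          rfl
        simp only [e]
        ring

/-- lists of steps against words: comparison from the other side -/
lemma gl_le_gf {A : Set (List Bool)} {S : Set (List (ℤ × ℤ))}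
    (h : ∀ l ∈ S, l ≠ [] → ∃ t : List Bool, stp t = l ∧ t ++ [true] ∈ A) : gl S ≤ 1 + gf A := by
  classical
  let G : Option (List Bool) → ℝ≥0∞ := fun q =>
    match q with
    | none => 1
    | some t => if t ∈ A then wE t else 0
  choose f hf hf2 using h
  let F : S → Option (List Bool) := fun l =>
    if h0 : l.1 = [] then none else some (f l.1 l.2 h0 ++ [true])
  have hFinj : Function.Injective F := by
    rintro ⟨l, hl⟩ ⟨l', hl'⟩ he
    apply Subtype.ext
    simp only
    simp only [F] at he
    by_cases h0 : l = []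
    · by_cases h0' : l' = []
      · rw [h0, h0']
      · rw [dif_pos h0, dif_neg h0'] at he
        exact absurd he (by simp)
    · by_cases h0' : l' = []
      · rw [dif_neg h0, dif_pos h0'] at he
        exact absurd he (by simp)
      · rw [dif_neg h0, dif_neg h0'] at he
        have h1 := (List.append_inj' (Option.some.inj he) rfl).1
        rw [← hf l hl h0, ← hf l' hl' h0', h1]
  have hval : ∀ l : S, ENNReal.ofReal (xc ^ l.1.length) = G (F l) := by
    rintro ⟨l, hl⟩
    simp only [F, G]
    by_cases h0 : l = []
    · rw [dif_pos h0]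
      simp only [h0]
      simp
    · rw [dif_neg h0]
      simp only
      have h1 := hf l hl h0
      rw [if_pos (hf2 l hl h0), wE_eq, List.length_append, List.length_singleton]
      have h2 : l.length = (f l hl h0).length + 1 := by
        conv_lhs => rw [← h1]
        exact stp_length _
      rw [h2]
  calc gl S = ∑' l : S, G (F l) := tsum_congr hval
    _ ≤ ∑' q, G q := ENNReal.tsum_comp_le_tsum_of_injective hFinj G
    _ = 1 + ∑' t : List Bool, (if t ∈ A then wE t else 0) := by
        rw [tsum_opt G]
    _ = 1 + gf A := by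
        congr 1
        unfold gf
        rw [tsum_subtype A wE]
        rfl

end BARPub

end HexObs
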