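import Pool.Agent.BAR.PubA

/-!
BAR: dictionary between the words and the self-avoiding walks in brick wall coordinates, part B: comparison of the
weights, the horizontal beginning of a walk.
-/

set_option autoImplicit false

namespace HexObs

open Finset ENNReal

namespace BARPub

open SawNu

lemma mem_hexL {b : Bool} {s : ℤ × ℤ} (hs : s ∈ hexL.S b) :
    s = (cond b (-2) 2, 0) ∨ s = (cond b 1 (-1), 1) ∨ s = (cond b 1 (-1), -1) := by
  cases b <;> simp only [hexL, cond_true, cond_false, Finset.mem_insert, Finset.mem_singleton] at hs ⊢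
  · rcases hs with h | h | h
    · exact Or.inl h
    · exact Or.inr (Or.inl h)
    · exact Or.inr (Or.inr h)
  · rcases hs with h | h | h
    · exact Or.inl h
    · exact Or.inr (Or.inr h)
    · exact Or.inr (Or.inl h)

lemma hexL_neg {b : Bool} {s : ℤ × ℤ} (hs : s ∈ hexL.S b) : -s ∈ hexL.S (!b) := by
  cases b <;> simp only [hexL, Bool.not_true, Bool.not_false, cond_true, cond_false, Finset.mem_insert,
    Finset.mem_singleton] at hs ⊢
  · rcases hs with rfl | rfl | rfl <;> decide
  · rcases hs with rfl | rfl | rfl <;> decide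

/-- a walk that starts with a step to the right side is the vertical one -/
lemma head_up {s : ℤ × ℤ} (hs : s ∈ hexL.S false) (h : s.2 = 0) : s = (2, 0) := by
  rcases mem_hexL hs with rfl | rfl | rfl
  · rfl
  · exact absurd h (by simp)
  · exact absurd h (by simp)

/-- **H, from above** -/
theorem HH_le_gl (m : ℕ) : BAR.HH m ≤ 1 + 2 * gl (HL m) := by
  refine gf_le_gl fun t b h => ?_
  obtain ⟨h1, h2⟩ := BAR.mem_SSt.1 h
  rw [List.length_append, List.length_singleton] at h1 h2
  refine ⟨stp_TA fun i k hik hk he => ?_, fun i hi hil => ?_⟩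
  · apply h2 i k hik hk
    rw [vx_dropLast (by omega), vx_dropLast hk, he]
  · rw [stp_length] at hil
    have h3 := h1 i hi hil
    rw [lev_dropLast hil] at h3
    rw [ps_stp_fst t hil]
    exact h3

/-- **H, from below** -/
theorem gl_le_HH (m : ℕ) : gl (HL m) ≤ 1 + BAR.HH m := by
  refine gl_le_gf fun l hl h0 => ?_
  obtain ⟨h1, h2⟩ := hl
  rcases l with _ | ⟨s, l⟩
  · exact absurd rfl h0
  have hs := h1.1.1
  have h3 := (h2 1 le_rfl (by simp)).1
  have e1 : (ps (s :: l) 1).1 = s.1 := by simp [ps]
  rw [e1] at h3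
  have h4 : s = (2, 0) := by
    rcases mem_hexL hs with rfl | rfl | rfl
    · rfl
    · exact absurd h3 (by simp)
    · exact absurd h3 (by simp)
  subst h4
  obtain ⟨t, ht1, ht2⟩ := exists_stp h1
  refine ⟨t, ht2, ?_⟩
  have hlen : (t ++ [true]).length = t.length + 1 := by simp
  rw [BAR.mem_SSt, hlen]
  constructor
  · intro i hi hil
    have h5 := h2 i hi (by rw [List.length_cons]; omega)
    rw [← ht2, ps_stp_fst t hil] at h5
    rw [lev_dropLast hil]
    exact h5
  · intro i k hik hk he
    rw [vx_dropLast (by omega), vx_dropLast hk] at he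
    apply h1.2 i k hik (by rw [List.length_cons]; omega)
    rw [← ht2]
    exact (ps_stp_inj t (by omega) hk).2 he

/-- **X, from below** -/
theorem Chi_le_gl (m : ℕ) : BAR.Chi m ≤ 1 + 2 * gl (XL m) := by
  refine gf_le_gl fun t b h => ?_
  obtain ⟨⟨_, h2⟩, c, hc⟩ := h
  rw [List.length_append, List.length_singleton] at h2 hc
  refine ⟨stp_TA fun i k hik hk he => ?_, c - 1, fun i hil => ?_⟩
  · apply h2 i k hik hk
    rw [vx_dropLast (by omega), vx_dropLast hk, he]
  · rw [stp_length] at hil
    rw [ps_stp_fst t hil]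
    have h1 := hc 1 le_rfl (by omega)
    rw [lev_one] at h1
    rcases Nat.eq_zero_or_pos i with h0 | h0
    · rw [h0, lev_zero]
      omega
    · have h3 := hc i h0 hil
      rw [lev_dropLast hil] at h3
      omega

/-- the walks whose first step is vertical -/
def XV (m : ℕ) : Set (List (ℤ × ℤ)) := {l | l ∈ XL m ∧ ∀ s l', l = s :: l' → s = (2, 0)}

/-- **X, from above**: first step vertical -/
theorem gl_XV_le (m : ℕ) : gl (XV m) ≤ 1 + BAR.Chi (m + 1) := by
  refine gl_le_gf fun l hl h0 => ?_
  obtain ⟨⟨h1, c, hc⟩, h2⟩ := hl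
  rcases l with _ | ⟨s, l⟩
  · exact absurd rfl h0
  have h4 := h2 s l rfl
  subst h4
  obtain ⟨t, ht1, ht2⟩ := exists_stp h1
  refine ⟨t, ht2, ⟨fun _ _ _ => Set.mem_univ _, ?_⟩, c, ?_⟩
  · have hlen : (t ++ [true]).length = t.length + 1 := by simp
    rw [hlen]
    intro i k hik hk he
    rw [vx_dropLast (by omega), vx_dropLast hk] at he
    apply h1.2 i k hik (by rw [List.length_cons]; omega)
    rw [← ht2]
    exact (ps_stp_inj t (by omega) hk).2 he
  · have hlen : (t ++ [true]).length = t.length + 1 := by simp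
    rw [hlen]
    intro i hi hil
    have h5 := hc i (by rw [List.length_cons]; omega)
    rw [← ht2, ps_stp_fst t hil] at h5
    rw [lev_dropLast hil]
    push_cast
    push_cast at h5
    omega

/-! ### the horizontal beginning -/

/-- horizontal steps in the direction σ -/
def Hs (σ : ℤ) : ℕ → Bool → List (ℤ × ℤ)
  | 0, _ => []
  | k + 1, b => (cond b 1 (-1), σ) :: Hs σ k (!b)

lemma Hs_length (σ : ℤ) (k : ℕ) (b : Bool) : (Hs σ k b).length = k := by
  induction k generalizing b with
  | zero => rfl
  | succ k ih => simp [Hs, ih]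

lemma Hs_sum (σ : ℤ) (k : ℕ) (b : Bool) : (Hs σ k b).sum.1 = cond k.bodd (cond b 1 (-1)) 0 := by
  induction k generalizing b with
  | zero => rfl
  | succ k ih =>
    rw [Hs, List.sum_cons, Prod.fst_add, ih, Nat.bodd_succ]
    cases b <;> cases k.bodd <;> rfl

/-- the horizontal beginning goes on in one direction -/
lemma hor_eq (b : Bool) (l : List (ℤ × ℤ)) (h1 : TW hexL.S b l) (h2 : SA l) (h3 : ∀ s ∈ l, s.2 ≠ 0) (h0 : l ≠ []) :
    ∃ σ : ℤ, (σ = 1 ∨ σ = -1) ∧ l = Hs σ l.length b := by
  induction l generalizing b with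
  | nil => exact absurd rfl h0
  | cons s l ih =>
    have hs := h1.1
    have hs2 := h3 s (List.mem_cons_self)
    have hsd : ∃ σ : ℤ, (σ = 1 ∨ σ = -1) ∧ s = (cond b 1 (-1), σ) := by
      rcases mem_hexL hs with h | h | h
      · rw [h] at hs2
        exact absurd rfl hs2
      · exact ⟨1, Or.inl rfl, h⟩
      · exact ⟨-1, Or.inr rfl, h⟩
    obtain ⟨σ, hσ, hsσ⟩ := hsd
    refine ⟨σ, hσ, ?_⟩
    rcases l with _ | ⟨s', l'⟩
    · rw [hsσ]
      rfl
    · obtain ⟨σ', hσ', h4⟩ := ih (!b) h1.2 (SA.right (a := [s]) h2) (fun x hx => h3 x (List.mem_cons_of_mem _ hx))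
        (by simp)
      have h5 : s' = (cond (!b) 1 (-1), σ') := by
        rw [List.length_cons, Hs] at h4
        exact (List.cons.inj h4).1
      have h6 : σ' = σ := by
        by_contra hne
        have h7 : σ + σ' = 0 := by
          rcases hσ with rfl | rfl <;> rcases hσ' with rfl | rfl <;> first | rfl | exact absurd rfl hne
        apply h2 0 2 (by omega) (by simp)
        have e2 : ps (s :: s' :: l') 2 = s + s' := by simp [ps]
        rw [ps_zero, e2, hsσ, h5]
        refine Prod.ext ?_ ?_
        · cases b <;> rfl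
        · exact h7.symm
      rw [h6] at h4
      rw [List.length_cons, Hs, ← h4, hsσ]

lemma takeWhile_hor (l : List (ℤ × ℤ)) : ∀ s ∈ l.takeWhile (fun s => decide (s.2 ≠ 0)), s.2 ≠ 0 := by
  intro s hs
  have := List.mem_takeWhile_imp hs
  simpa using this

lemma dropWhile_head {α : Type} (p : α → Bool) (l : List α) {s : α} {q : List α} (h : l.dropWhile p = s :: q) :
    p s = false := by
  induction l with
  | nil => simp at h
  | cons a l ih =>
    rw [List.dropWhile_cons] at h
    by_cases ha : p a = true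
    · rw [if_pos ha] at h
      exact ih h
    · rw [if_neg ha] at h
      rw [← (List.cons.inj h).1]
      simpa using ha

/-- the normalised rest of a walk -/
def nrm2 (k : ℕ) (l : List (ℤ × ℤ)) : List (ℤ × ℤ) := if k.bodd then l.map (fun s => -s) else l

lemma nrm2_length (k : ℕ) (l : List (ℤ × ℤ)) : (nrm2 k l).length = l.length := by
  unfold nrm2
  split_ifs <;> simp

lemma nrm2_nrm2 (k : ℕ) (l : List (ℤ × ℤ)) : nrm2 k (nrm2 k l) = l := by
  unfold nrm2
  split_ifs <;> simp

lemma ps_neg (l : List (ℤ × ℤ)) (i : ℕ) : ps (l.map (fun s => -s)) i = -ps l i := by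
  unfold ps
  rw [← List.map_take]
  induction l.take i with
  | nil => simp
  | cons a l ih => rw [List.map_cons, List.sum_cons, List.sum_cons, ih]; abel

/-- the residues of the levels -/
lemma ps_mod {b : Bool} {l : List (ℤ × ℤ)} (h : TW hexL.S b l) (i : ℕ) (hi : i ≤ l.length) :
    (cond b (-1) 0 + (ps l i).1) % 3 = 0 ∨ (cond b (-1) 0 + (ps l i).1) % 3 = 2 := by
  induction l generalizing b i with
  | nil =>
    simp only [List.length_nil, Nat.le_zero] at hi
    subst hi
    cases b
    · left; simp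
    · right; simp
  | cons s l ih =>
    rcases i with _ | i
    · cases b
      · left; simp
      · right; simp
    · have h1 := ih h.2 i (by simpa using hi)
      have e : ps (s :: l) (i + 1) = s + ps l i := by simp [ps]
      rw [e, Prod.fst_add]
      rcases mem_hexL h.1 with rfl | rfl | rfl <;> cases b <;>
        simp only [Bool.not_true, Bool.not_false, cond_true, cond_false] at h1 ⊢ <;> omega

/-- decomposition at the first vertical step -/
lemma split_XL {m : ℕ} {l : List (ℤ × ℤ)} (hl : l ∈ XL m) :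
    ∃ (σ : Bool) (k : ℕ) (r : List (ℤ × ℤ)), r ∈ XV m ∧ l = Hs (cond σ 1 (-1)) k false ++ nrm2 k r := by
  obtain ⟨⟨h1, h2⟩, c, hc⟩ := hl
  obtain ⟨p, hp⟩ : ∃ p, p = l.takeWhile (fun s => decide (s.2 ≠ 0)) := ⟨_, rfl⟩
  obtain ⟨q, hq⟩ : ∃ q, q = l.dropWhile (fun s => decide (s.2 ≠ 0)) := ⟨_, rfl⟩
  have hpq : p ++ q = l := by rw [hp, hq]; exact List.takeWhile_append_dropWhile
  have hph : ∀ s ∈ p, s.2 ≠ 0 := by rw [hp]; exact takeWhile_hor l
  have hqh : ∀ s q', q = s :: q' → s.2 = 0 := by
    intro s q' he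
    by_contra hne
    have h3 := dropWhile_head (fun s : ℤ × ℤ => decide (s.2 ≠ 0)) l (by rw [← hq, he])
    simp only [decide_eq_false_iff_not] at h3
    exact h3 hne
  rw [← hpq] at h1 h2 hc
  rw [TW_append] at h1
  have hSp : SA p := SA.left h2
  have hSq : SA q := SA.right h2
  obtain ⟨k, hk⟩ : ∃ k, k = p.length := ⟨_, rfl⟩
  have hpH : ∃ σ : Bool, p = Hs (cond σ 1 (-1)) k false := by
    rcases Nat.eq_zero_or_pos k with h0 | h0
    · refine ⟨true, ?_⟩
      have : p = [] := List.length_eq_zero_iff.1 (by omega)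
      rw [this, h0]
      rfl
    · obtain ⟨σ, hσ, h3⟩ := hor_eq false p h1.1 hSp hph (by rintro rfl; simp at hk; omega)
      rcases hσ with rfl | rfl
      · exact ⟨true, by rw [hk]; exact h3⟩
      · exact ⟨false, by rw [hk]; exact h3⟩
  obtain ⟨σ, hpσ⟩ := hpH
  have hpar : par p = k.bodd := by unfold par; rw [hk]
  have hsum : p.sum.1 = cond k.bodd (-1) 0 := by
    rw [hpσ, Hs_sum]
    cases k.bodd <;> rfl
  have hTq : TW hexL.S k.bodd q := by
    have := h1.2
    rw [hpar] at this
    simpa using this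
  refine ⟨σ, k, nrm2 k q, ?_, by rw [nrm2_nrm2, ← hpσ, hpq]⟩
  -- levels of the rest
  have hlev : ∀ i, i ≤ q.length → 3 * c < cond k.bodd (-1) 0 + (ps q i).1 ∧
      cond k.bodd (-1) 0 + (ps q i).1 ≤ 3 * (c + m + 1) := by
    intro i hi
    have h3 := hc (p.length + i) (by rw [List.length_append]; omega)
    rw [ps_append_right, Prod.fst_add, hsum] at h3
    exact h3
  unfold nrm2
  cases hb : k.bodd
  · rw [hb] at hTq hlev
    simp only [Bool.false_eq_true, if_false]
    refine ⟨⟨⟨hTq, hSq⟩, c, fun i hi => ?_⟩, fun s q' he => ?_⟩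
    · have := hlev i hi
      simp only [cond_false, zero_add] at this
      exact this
    · subst he
      exact head_up hTq.1 (hqh s q' rfl)
  · rw [hb] at hTq hlev
    simp only [if_true]
    refine ⟨⟨⟨?_, ?_⟩, -(c + m + 1) - 1, fun i hi => ?_⟩, fun s q' he => ?_⟩
    · have h3 := TW_map (S := hexL.S) (g := fun s => -s) (f := true)
        (fun b s hs => by have := hexL_neg hs; cases b <;> simpa using this) true q hTq
      simpa using h3
    · intro i j hij hj he
      rw [List.length_map] at hj
      rw [ps_neg, ps_neg, neg_inj] at he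
      exact hSq i j hij hj he
    · rw [List.length_map] at hi
      rw [ps_neg]
      have h3 := hlev i hi
      have h4 := ps_mod hTq i hi
      simp only [cond_true, Prod.fst_neg] at h3 h4 ⊢
      omega
    · rcases q with _ | ⟨s0, q0⟩
      · simp at he
      · rw [List.map_cons] at he
        obtain ⟨e1, e2⟩ := List.cons.inj he
        have h3 := hexL_neg hTq.1
        rw [e1] at h3
        refine head_up h3 ?_
        have h4 := hqh s0 q0 rfl
        rw [← e1, Prod.snd_neg, h4]
        rfl

/-- **the horizontal beginnings cost a constant** -/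
theorem gl_XL_le (m : ℕ) : gl (XL m) ≤ 2 * (1 - ENNReal.ofReal xc)⁻¹ * gl (XV m) := by
  classical
  choose fs fk fr hr he using fun l : XL m => split_XL l.2
  let G : Bool × ℕ × XV m → ℝ≥0∞ := fun q => ENNReal.ofReal xc ^ q.2.1 * ENNReal.ofReal (xc ^ q.2.2.1.length)
  let F : XL m → Bool × ℕ × XV m := fun l => (fs l, fk l, ⟨fr l, hr l⟩)
  have hFinj : Function.Injective F := by
    intro l l' h
    have e1 : fs l = fs l' := congrArg (fun q => q.1) h
    have e2 : fk l = fk l' := congrArg (fun q => q.2.1) h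
    have e3 : fr l = fr l' := congrArg (fun q => q.2.2.1) h
    apply Subtype.ext
    rw [he l, he l', e1, e2, e3]
  have hval : ∀ l : XL m, ENNReal.ofReal (xc ^ l.1.length) = G (F l) := by
    intro l
    show _ = ENNReal.ofReal xc ^ fk l * ENNReal.ofReal (xc ^ (fr l).length)
    have h1 : l.1.length = fk l + (fr l).length := by
      conv_lhs => rw [he l]
      rw [List.length_append, Hs_length, nrm2_length]
    rw [h1, ofReal_xc_pow, ofReal_xc_pow, pow_add]
  calc gl (XL m) = ∑' l : XL m, G (F l) := tsum_congr hval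
    _ ≤ ∑' q, G q := ENNReal.tsum_comp_le_tsum_of_injective hFinj G
    _ = ∑' b : Bool, ∑' k : ℕ, ∑' r : XV m, G (b, k, r) := by
        rw [ENNReal.tsum_prod']
        refine tsum_congr fun b => ?_
        rw [ENNReal.tsum_prod']
    _ = ∑' b : Bool, ∑' k : ℕ, ENNReal.ofReal xc ^ k * gl (XV m) := by
        refine tsum_congr fun b => tsum_congr fun k => ?_
        show ∑' r : XV m, ENNReal.ofReal xc ^ k * ENNReal.ofReal (xc ^ r.1.length) = _
        rw [ENNReal.tsum_mul_left]
        rfl
    _ = 2 * (1 - ENNReal.ofReal xc)⁻¹ * gl (XV m) := by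
        rw [ENNReal.tsum_mul_right, ENNReal.tsum_geometric, tsum_bool]
        ring

end BARPub

end HexObs
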