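import Pool.Agent.BAR.PubB
import Pool.Agent.SawHW33.VEnc

/-!
BAR: dictionary between the words and the self-avoiding walks in brick wall coordinates, part C: the sums over the
number of steps.
-/

set_option autoImplicit false

namespace HexObs

open Finset ENNReal

namespace BARPub

open SawNu

/-- the self-avoiding walks with n steps that satisfy the condition Q, brick wall coordinates -/
def FS (n : ℕ) (Q : (Fin (n + 1) → ℤ × ℤ) → Prop) : Set (Fin (n + 1) → ℤ × ℤ) :=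
  {f | f 0 = 0 ∧ Function.Injective f ∧ (∀ i : Fin n, AdjB (f i.castSucc) (f i.succ)) ∧ Q f}

lemma muB_eq : muB = 1 / xc := le_antisymm muB_le le_muB

lemma ps_T {n : ℕ} {f : Fin (n + 1) → ℤ × ℤ} (h0 : f 0 = 0) (j : Fin (n + 1)) :
    ps (vword vencHex.T f) j = vencHex.T (f j) := by
  rw [ps_vword, h0, vencHex.T0, sub_zero]

/-- counting by lists -/
lemma ncard_FS {n : ℕ} {Q : (Fin (n + 1) → ℤ × ℤ) → Prop} {R : List (ℤ × ℤ) → Prop}
    (h : ∀ f : Fin (n + 1) → ℤ × ℤ, f 0 = 0 → (Q f ↔ R (vword vencHex.T f))) :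
    (FS n Q).ncard = {l : List (ℤ × ℤ) | (TA l ∧ R l) ∧ l.length = n}.ncard := by
  apply Set.ncard_congr (fun f _ => vword vencHex.T f)
  · rintro f ⟨hf0, hfi, hfa, hq⟩
    refine ⟨⟨⟨vencHex.word_tw (p := 0) ⟨hf0, hfa⟩ vencHex.ty0, ?_⟩, (h f hf0).1 hq⟩, vword_length _ _⟩
    intro i j hij hj he
    rw [vword_length] at hj
    have h1 := ps_vword vencHex.T f ⟨i, by omega⟩
    have h2 := ps_vword vencHex.T f ⟨j, by omega⟩
    simp only at h1 h2
    rw [h1, h2] at he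
    have := hfi (vencHex.inj (sub_left_inj.mp he))
    simp only [Fin.mk.injEq] at this
    omega
  · rintro f g ⟨hf0, _, _, _⟩ ⟨hg0, _, _, _⟩ he
    exact vword_inj vencHex.inj (hf0.trans hg0.symm) he
  · rintro l ⟨⟨⟨h1, h2⟩, h3⟩, h4⟩
    obtain ⟨f, ⟨hf0, hfa⟩, hfl⟩ := vencHex.word_surj (n := n) (l := l) (b := false) (p := 0) h4 h1 vencHex.ty0
    refine ⟨f, ⟨hf0, ?_, hfa, ?_⟩, hfl⟩
    · intro i j hij
      by_contra hne
      have key : ∀ i j : Fin (n + 1), f i = f j → (i : ℕ) < j → False := by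
        intro i j hij hlt
        apply h2 i j hlt (by rw [h4]; omega)
        rw [← hfl, ps_T hf0, ps_T hf0, hij]
      rcases Nat.lt_or_ge i j with h5 | h5
      · exact key i j hij h5
      · exact key j i hij.symm (by
          rcases Nat.lt_or_ge j i with h6 | h6
          · exact h6
          · exact absurd (Fin.ext (le_antisymm h6 h5)) hne)
    · rw [h f hf0, hfl]
      exact h3

lemma fin_len (n : ℕ) (S : Set (List (ℤ × ℤ))) (hS : ∀ l ∈ S, TA l) : {l | l ∈ S ∧ l.length = n}.Finite := by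
  apply Set.Finite.subset (Finset.finite_toSet (TWs hexL.S n false))
  rintro l ⟨h1, h2⟩
  rw [Finset.mem_coe, mem_TWs]
  exact ⟨h2, (hS l h1).1⟩

/-- the weight as a sum over the number of steps -/
lemma tsum_gl (S : Set (List (ℤ × ℤ))) (hS : ∀ l ∈ S, TA l) :
    ∑' n : ℕ, ENNReal.ofReal (({l | l ∈ S ∧ l.length = n}.ncard : ℝ) / muB ^ n) = gl S := by
  classical
  have hx := xc_pos
  have h1 : ∀ n : ℕ, ENNReal.ofReal (({l | l ∈ S ∧ l.length = n}.ncard : ℝ) / muB ^ n) =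
      ∑' l : List (ℤ × ℤ), if l ∈ S ∧ l.length = n then ENNReal.ofReal (xc ^ n) else 0 := by
    intro n
    have hfin := fin_len n S hS
    have e1 : ({l | l ∈ S ∧ l.length = n}.ncard : ℝ) / muB ^ n = (hfin.toFinset.card : ℝ) * xc ^ n := by
      rw [Set.ncard_eq_toFinset_card _ hfin, muB_eq, one_div, inv_pow, div_inv_eq_mul]
    rw [e1, tsum_eq_sum (s := hfin.toFinset)]
    · rw [Finset.sum_congr rfl (g := fun _ => ENNReal.ofReal (xc ^ n)), Finset.sum_const, nsmul_eq_mul,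
        ENNReal.ofReal_mul (Nat.cast_nonneg _), ENNReal.ofReal_natCast]
      intro l hl
      rw [Set.Finite.mem_toFinset] at hl
      exact if_pos hl
    · intro l hl
      rw [Set.Finite.mem_toFinset] at hl
      exact if_neg hl
  rw [tsum_congr h1, ENNReal.tsum_comm]
  have h2 : ∀ l : List (ℤ × ℤ), (∑' n : ℕ, if l ∈ S ∧ l.length = n then ENNReal.ofReal (xc ^ n) else 0) =
      S.indicator (fun l => ENNReal.ofReal (xc ^ l.length)) l := by
    intro l
    by_cases hl : l ∈ S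
    · rw [Set.indicator_of_mem hl, tsum_eq_single l.length]
      · rw [if_pos ⟨hl, rfl⟩]
      · intro n hn
        rw [if_neg (fun h => hn h.2.symm)]
    · rw [Set.indicator_of_notMem hl]
      rw [ENNReal.tsum_eq_zero]
      intro n
      rw [if_neg (fun h => hl h.1)]
  rw [tsum_congr h2]
  unfold gl
  exact (tsum_subtype S (fun l => ENNReal.ofReal (xc ^ l.length))).symm

/-! ### the two conditions -/

lemma T_fst (p : ℤ × ℤ) : (vencHex.T p).1 = 3 * p.2 - (p.1 + p.2) % 2 := rfl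

lemma cond_H {n m : ℕ} (f : Fin (n + 1) → ℤ × ℤ) (h0 : f 0 = 0) :
    (∀ i : Fin n, 1 ≤ (f i.succ).2 ∧ (f i.succ).2 ≤ (m : ℤ)) ↔
      ∀ i, 1 ≤ i → i ≤ (vword vencHex.T f).length →
        0 < (ps (vword vencHex.T f) i).1 ∧ (ps (vword vencHex.T f) i).1 ≤ 3 * (m : ℤ) := by
  rw [vword_length]
  constructor
  · intro h i hi hin
    obtain ⟨k, rfl⟩ : ∃ k, i = k + 1 := ⟨i - 1, by omega⟩
    have h1 := h ⟨k, by omega⟩
    have h2 := ps_T h0 (Fin.succ ⟨k, by omega⟩)
    rw [Fin.val_succ] at h2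
    simp only at h2
    rw [h2, T_fst]
    omega
  · intro h i
    have h1 := h (i + 1) (by omega) (by omega)
    have h2 := ps_T h0 i.succ
    rw [Fin.val_succ] at h2
    rw [h2, T_fst] at h1
    omega

lemma cond_X {n m : ℕ} (f : Fin (n + 1) → ℤ × ℤ) (h0 : f 0 = 0) :
    (∃ c : ℤ, ∀ i : Fin (n + 1), c ≤ (f i).2 ∧ (f i).2 ≤ c + (m : ℤ)) ↔
      ∃ c : ℤ, ∀ i, i ≤ (vword vencHex.T f).length →
        3 * c < (ps (vword vencHex.T f) i).1 ∧ (ps (vword vencHex.T f) i).1 ≤ 3 * (c + m + 1) := by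
  rw [vword_length]
  constructor
  · rintro ⟨c, h⟩
    refine ⟨c - 1, fun i hi => ?_⟩
    have h1 := h ⟨i, by omega⟩
    have h2 := ps_T h0 ⟨i, by omega⟩
    simp only at h2
    rw [h2, T_fst]
    omega
  · rintro ⟨c, h⟩
    refine ⟨c + 1, fun i => ?_⟩
    have h1 := h i (by omega)
    have h2 := ps_T h0 i
    rw [h2, T_fst] at h1
    omega

/-- the walks strictly above the start in m rows -/
theorem tsum_H (m : ℕ) : ∑' n : ℕ, ENNReal.ofReal (((FS n fun f => ∀ i : Fin n, 1 ≤ (f i.succ).2 ∧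
    (f i.succ).2 ≤ (m : ℤ)).ncard : ℝ) / muB ^ n) = gl (HL m) := by
  rw [← tsum_gl (HL m) fun l hl => hl.1]
  refine tsum_congr fun n => ?_
  rw [ncard_FS (R := fun l => ∀ i, 1 ≤ i → i ≤ l.length → 0 < (ps l i).1 ∧ (ps l i).1 ≤ 3 * (m : ℤ))
    (fun f h0 => cond_H f h0)]
  rfl

/-- the walks in m + 1 consecutive rows -/
theorem tsum_X (m : ℕ) : ∑' n : ℕ, ENNReal.ofReal (((FS n fun f => ∃ c : ℤ, ∀ i : Fin (n + 1), c ≤ (f i).2 ∧
    (f i).2 ≤ c + (m : ℤ)).ncard : ℝ) / muB ^ n) = gl (XL m) := by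
  rw [← tsum_gl (XL m) fun l hl => hl.1]
  refine tsum_congr fun n => ?_
  rw [ncard_FS (R := fun l => ∃ c : ℤ, ∀ i, i ≤ l.length → 3 * c < (ps l i).1 ∧ (ps l i).1 ≤ 3 * (c + m + 1))
    (fun f h0 => cond_X f h0)]
  rfl

end BARPub

end HexObs
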