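import Pool.Agent.BAR.Lat
import Pool.Agent.T2.UpDefs

/-!
BAR, section 3, part E: from the size to the length. Chi m (words with an extent of m rows) against gf (SAL n) (words with at
most n letters).
-/

set_option autoImplicit false

namespace HexObs

namespace BAR

open Complex Finset ENNReal SDN PLW

/-- words with an extent of m rows have at most m ^ b letters, up to a bounded weight -/
theorem chi_le_sal {a : ℝ} (ha : 1 ≤ a) (hexp : ∀ β : ℝ, a < β → ∃ (c : ℝ) (L0 : ℕ), 0 < c ∧ ∀ L : ℕ, L0 ≤ L →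
    gf {t | t ∈ WL L ∧ (2 : ℝ) ^ (β * L) ≤ t.length} ≤ ENNReal.ofReal (Real.exp (-(2 : ℝ) ^ (c * L)))) {b : ℝ}
    (hb : a < b) : ∃ m0 : ℕ, ∀ m : ℕ, m0 ≤ m → ∀ n : ℕ, (m : ℝ) ^ b ≤ n → Chi m ≤ gf (SAL n) + 2 := by
  obtain ⟨β, hβ⟩ : ∃ β, β = (a + b) / 2 := ⟨_, rfl⟩
  have hβ1 : a < β := by rw [hβ]; linarith
  have hβ2 : β < b := by rw [hβ]; linarith
  have hb0 : 0 < b := by linarith
  have hβ0 : 0 < β := by linarith
  obtain ⟨η, hη⟩ : ∃ η, η = (b - β) / (2 * b) := ⟨_, rfl⟩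
  have hη0 : 0 < η := by rw [hη]; exact div_pos (by linarith) (by linarith)
  have hη1 : η ≤ 1 / 2 := by
    rw [hη, div_le_iff₀ (by linarith)]
    linarith
  obtain ⟨κ, hκ⟩ : ∃ κ, κ = b - β / (1 - η) := ⟨_, rfl⟩
  have h1η : 0 < 1 - η := by linarith
  have hκ0 : 0 < κ := by
    rw [hκ, sub_pos, div_lt_iff₀ h1η, hη]
    have h1 : b * (1 - (b - β) / (2 * b)) = (b + β) / 2 := by
      field_simp
      ring
    rw [h1]
    linarith
  obtain ⟨c, L0, hc, hL0⟩ := hexp β hβ1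
  obtain ⟨L1, hL1⟩ := lat_small hη0 (by linarith : η ≤ 1)
  obtain ⟨m1, hm1⟩ := exists_nat_ge ((2 : ℝ) ^ ((L0 : ℝ) + L1))
  obtain ⟨m2, hm2⟩ := exists_nat_ge ((2 : ℝ) ^ (β / κ))
  refine ⟨m1 + m2 + 1, fun m hm n hn => ?_⟩
  have hmR : (1 : ℝ) ≤ m := by exact_mod_cast (by omega : 1 ≤ m)
  have hm0 : (0 : ℝ) < m := by linarith
  have hl2 : 0 < Real.log 2 := Real.log_pos (by norm_num)
  obtain ⟨x, hx⟩ : ∃ x, x = Real.log m / Real.log 2 := ⟨_, rfl⟩
  have hxm : (2 : ℝ) ^ x = m := by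
    rw [hx, Real.rpow_def_of_pos (by norm_num), mul_div_cancel₀ _ hl2.ne', Real.exp_log hm0]
  have hx0 : 0 ≤ x := by rw [hx]; exact div_nonneg (Real.log_nonneg hmR) hl2.le
  have hxL : (L0 : ℝ) + L1 ≤ x := by
    have h1 : (2 : ℝ) ^ ((L0 : ℝ) + L1) ≤ (2 : ℝ) ^ x := by
      rw [hxm]
      refine hm1.trans ?_
      exact_mod_cast (by omega : m1 ≤ m)
    exact (Real.rpow_le_rpow_left_iff (by norm_num)).1 h1
  obtain ⟨L, hL⟩ : ∃ L : ℕ, L = ⌈x / (1 - η)⌉₊ := ⟨_, rfl⟩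
  have hLa : x / (1 - η) ≤ L := by rw [hL]; exact Nat.le_ceil _
  have hLb : (L : ℝ) < x / (1 - η) + 1 := by rw [hL]; exact Nat.ceil_lt_add_one (by positivity)
  have hxx : x ≤ x / (1 - η) := by
    rw [le_div_iff₀ h1η]
    nlinarith
  have hLL : L0 + L1 ≤ L := by
    have : ((L0 + L1 : ℕ) : ℝ) ≤ L := by
      push_cast
      linarith
    exact_mod_cast this
  have hmL : (m : ℝ) ≤ (2 : ℝ) ^ ((1 - η) * L) := by
    rw [← hxm]
    apply Real.rpow_le_rpow_of_exponent_le (by norm_num)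
    rw [div_le_iff₀ h1η] at hLa
    linarith
  have hβL : (2 : ℝ) ^ (β * L) ≤ n := by
    refine le_trans ?_ hn
    rw [← hxm, ← Real.rpow_mul (by norm_num)]
    apply Real.rpow_le_rpow_of_exponent_le (by norm_num)
    have h1 : β ≤ κ * x := by
      have h2 : (2 : ℝ) ^ (β / κ) ≤ (2 : ℝ) ^ x := by
        rw [hxm]
        refine hm2.trans ?_
        exact_mod_cast (by omega : m2 ≤ m)
      have h3 := (Real.rpow_le_rpow_left_iff (by norm_num)).1 h2
      rw [div_le_iff₀ hκ0] at h3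
      linarith
    have h2 : x * b = κ * x + β * (x / (1 - η)) := by
      rw [hκ]
      ring
    have h3 : β * L ≤ β * (x / (1 - η)) + β := by
      nlinarith
    linarith
  have hsub : {t | Saw Set.univ oo up t ∧ Ext m t} ⊆ SAL n ∪ ({t | t ∈ WL L ∧ (2 : ℝ) ^ (β * L) ≤ t.length} ∪
      {t | t ∈ SA ∧ Ext m t ∧ t ∉ WL L}) := by
    rintro t ⟨h1, h2⟩
    by_cases h3 : t ∈ WL L
    · by_cases h4 : (2 : ℝ) ^ (β * L) ≤ t.length
      · exact Or.inr (Or.inl ⟨h3, h4⟩)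
      · left
        refine ⟨h1, ?_⟩
        have h5 : (t.length : ℝ) ≤ n := by linarith
        exact_mod_cast h5
    · exact Or.inr (Or.inr ⟨h1, h2, h3⟩)
  have h1 : gf {t | t ∈ WL L ∧ (2 : ℝ) ^ (β * L) ≤ t.length} ≤ 1 := by
    refine (hL0 L (by omega)).trans ?_
    rw [← ENNReal.ofReal_one]
    apply ENNReal.ofReal_le_ofReal
    apply Real.exp_le_one_iff.2
    have : (0 : ℝ) < (2 : ℝ) ^ (c * L) := by positivity
    linarith
  have h2 := hL1 L (by omega) m hmL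
  calc Chi m ≤ gf (SAL n ∪ ({t | t ∈ WL L ∧ (2 : ℝ) ^ (β * L) ≤ t.length} ∪
      {t | t ∈ SA ∧ Ext m t ∧ t ∉ WL L})) := gf_mono hsub
    _ ≤ gf (SAL n) + (gf {t | t ∈ WL L ∧ (2 : ℝ) ^ (β * L) ≤ t.length} +
        gf {t | t ∈ SA ∧ Ext m t ∧ t ∉ WL L}) := (gf_union_le _ _).trans (add_le_add le_rfl (gf_union_le _ _))
    _ ≤ gf (SAL n) + (1 + 1) := add_le_add le_rfl (add_le_add h1 h2)
    _ = gf (SAL n) + 2 := by norm_num

/-- words with at most n letters have an extent of at most 4 n ^ (1 / β) rows, up to a bounded weight -/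
theorem sal_le_chi {β : ℝ} (hβ : 0 < β) (h : T2.ExpUp β) : ∃ n0 : ℕ, ∀ n : ℕ, n0 ≤ n → ∀ m : ℕ,
    4 * (n : ℝ) ^ (1 / β) ≤ m → gf (SAL n) ≤ Chi m + 1 := by
  obtain ⟨c, L0, hc, hL0⟩ := h
  obtain ⟨n1, hn1⟩ := exists_nat_ge ((2 : ℝ) ^ (β * L0))
  refine ⟨n1 + 1, fun n hn m hm => ?_⟩
  have hnR : (1 : ℝ) ≤ n := by exact_mod_cast (by omega : 1 ≤ n)
  have hn0 : (0 : ℝ) < n := by linarith
  have hl2 : 0 < Real.log 2 := Real.log_pos (by norm_num)
  obtain ⟨x, hx⟩ : ∃ x, x = Real.log n / Real.log 2 := ⟨_, rfl⟩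
  have hxn : (2 : ℝ) ^ x = n := by
    rw [hx, Real.rpow_def_of_pos (by norm_num), mul_div_cancel₀ _ hl2.ne', Real.exp_log hn0]
  have hx0 : 0 ≤ x := by rw [hx]; exact div_nonneg (Real.log_nonneg hnR) hl2.le
  have hxL : β * L0 ≤ x := by
    have h1 : (2 : ℝ) ^ (β * L0) ≤ (2 : ℝ) ^ x := by
      rw [hxn]
      refine hn1.trans ?_
      exact_mod_cast (by omega : n1 ≤ n)
    exact (Real.rpow_le_rpow_left_iff (by norm_num)).1 h1
  obtain ⟨L, hL⟩ : ∃ L : ℕ, L = ⌈x / β⌉₊ := ⟨_, rfl⟩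
  have hLa : x / β ≤ L := by rw [hL]; exact Nat.le_ceil _
  have hLb : (L : ℝ) < x / β + 1 := by rw [hL]; exact Nat.ceil_lt_add_one (by positivity)
  have hLL : L0 ≤ L := by
    have h1 : (L0 : ℝ) ≤ x / β := by
      rw [le_div_iff₀ hβ]
      linarith
    have : (L0 : ℝ) ≤ L := by linarith
    exact_mod_cast this
  have hnL : (n : ℝ) ≤ (2 : ℝ) ^ (β * L) := by
    rw [← hxn]
    apply Real.rpow_le_rpow_of_exponent_le (by norm_num)
    rw [div_le_iff₀ hβ] at hLa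
    linarith
  have h2L : (2 : ℝ) * 2 ^ L ≤ m := by
    refine le_trans ?_ hm
    have h1 : ((2 : ℝ) ^ L) ≤ 2 * (n : ℝ) ^ (1 / β) := by
      rw [← hxn, ← Real.rpow_mul (by norm_num), ← Real.rpow_natCast]
      calc (2 : ℝ) ^ (L : ℝ) ≤ (2 : ℝ) ^ (x * (1 / β) + 1) := by
            apply Real.rpow_le_rpow_of_exponent_le (by norm_num)
            rw [mul_one_div]
            exact hLb.le
        _ = 2 * (2 : ℝ) ^ (x * (1 / β)) := by
            rw [Real.rpow_add_one (by norm_num)]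
            ring
    linarith
  have h2L' : 2 * 2 ^ L ≤ (m : ℤ) := by exact_mod_cast h2L
  have hsub : SAL n ⊆ {t | Saw Set.univ oo up t ∧ Ext m t} ∪
      {t | t ∈ SA ∧ T2.Ext L t ∧ (t.length : ℝ) ≤ (2 : ℝ) ^ (β * L)} := by
    rintro t ⟨h1, h2⟩
    by_cases h3 : T2.Ext L t
    · right
      refine ⟨h1, h3, le_trans ?_ hnL⟩
      exact_mod_cast h2
    · left
      refine ⟨h1, -(2 ^ L), fun i _ hi => ?_⟩
      have h4 : |row false (vx oo up t i)| < 2 ^ L := by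
        by_contra hcon
        exact h3 ⟨i, hi, false, not_lt.1 hcon⟩
      have e3 : lev t i = lvl false (vx oo up t i) := by
        rw [lvl_false_eq]
        unfold lev
        simp only [ip, up]
        ring
      unfold row at h4
      rw [← e3, abs_lt] at h4
      constructor <;> omega
  have h1 : gf {t | t ∈ SA ∧ T2.Ext L t ∧ (t.length : ℝ) ≤ (2 : ℝ) ^ (β * L)} ≤ 1 := by
    refine (hL0 L hLL).trans ?_
    rw [← ENNReal.ofReal_one]
    apply ENNReal.ofReal_le_ofReal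
    apply Real.exp_le_one_iff.2
    have : (0 : ℝ) < (2 : ℝ) ^ (c * L) := by positivity
    linarith
  exact (gf_mono hsub).trans ((gf_union_le _ _).trans (add_le_add le_rfl h1))

end BAR

end HexObs
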