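import Pool.Agent.BAR.PwGlue
import Pool.Agent.BAR.Size
import Pool.Agent.PHW.Dict

/-!
BAR, pointwise lower bound, part 2: the number of the joined words, the weight of the words without a cut.
-/

set_option autoImplicit false

namespace HexObs

open Complex Finset ENNReal

namespace BAR

/-! ### 1. The count -/

lemma HpN_fin (n : ℕ) : (HpN n).Finite := (List.finite_length_eq Bool n).subset (fun _ ht => ht.1)

lemma HiN_fin (n : ℕ) : (HiN n).Finite := (HpN_fin n).subset fun _ h => h.1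

lemma last_form {a : List Bool} {k : ℕ} (h : a.length = k + 1) : a = a.dropLast ++ [a.getLastD true] := by
  rcases List.eq_nil_or_concat a with rfl | ⟨s, x, rfl⟩
  · simp at h
  · simp

/-- **The joined words.** -/
theorem count_glue (n : ℕ) : ∑ k ∈ Finset.range (n + 1), cI (k + 1) * cH (n - k) ≤ 12 * cS n := by
  classical
  obtain ⟨A, hA⟩ : ∃ A : ℕ → Finset (List Bool), A = fun k => (HiN_fin k).toFinset := ⟨_, rfl⟩
  obtain ⟨B, hB⟩ : ∃ B : ℕ → Finset (List Bool), B = fun k => (HpN_fin k).toFinset := ⟨_, rfl⟩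
  have hA1 : ∀ k, (A k).card = cI k := fun k => by
    rw [hA]
    exact (Set.ncard_eq_toFinset_card _ (HiN_fin k)).symm
  have hB1 : ∀ k, (B k).card = cH k := fun k => by
    rw [hB]
    exact (Set.ncard_eq_toFinset_card _ (HpN_fin k)).symm
  have hAm : ∀ k t, t ∈ A k ↔ t ∈ HiN k := fun k t => by
    rw [hA]
    exact Set.Finite.mem_toFinset _
  have hBm : ∀ k t, t ∈ B k ↔ t ∈ HpN k := fun k t => by
    rw [hB]
    exact Set.Finite.mem_toFinset _
  obtain ⟨X, hX⟩ : ∃ X : Finset ((_ : ℕ) × (List Bool × List Bool)),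
    X = (Finset.range (n + 1)).sigma fun k => A (k + 1) ×ˢ B (n - k) := ⟨_, rfl⟩
  have hXm : ∀ q, q ∈ X ↔ q.1 ≤ n ∧ q.2.1 ∈ HiN (q.1 + 1) ∧ q.2.2 ∈ HpN (n - q.1) := fun q => by
    rw [hX, Finset.mem_sigma, Finset.mem_product, Finset.mem_range, hAm, hBm, Nat.lt_succ_iff]
  have hcard : X.card = ∑ k ∈ Finset.range (n + 1), cI (k + 1) * cH (n - k) := by
    rw [hX, Finset.card_sigma]
    exact Finset.sum_congr rfl fun k _ => by rw [Finset.card_product, hA1, hB1]
  obtain ⟨F, hF⟩ : ∃ F : (_ : ℕ) × (List Bool × List Bool) → Bool × Pt × List Bool,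
    F = fun q => (q.2.1.getLastD true, jd q.2.1.dropLast, rev q.2.1.dropLast ++ q.2.2) := ⟨_, rfl⟩
  obtain ⟨Y, hY⟩ : ∃ Y : Finset (Bool × Pt × List Bool),
    Y = Finset.univ ×ˢ dirs ×ˢ (PHWDict.SawN_fin n).toFinset := ⟨_, rfl⟩
  have hYc : Y.card = 12 * cS n := by
    rw [hY, Finset.card_product, Finset.card_product]
    have h1 : (Finset.univ : Finset Bool).card = 2 := by decide
    have h2 : dirs.card = 6 := by decide
    have h3 : (PHWDict.SawN_fin n).toFinset.card = cS n := (Set.ncard_eq_toFinset_card _ (PHWDict.SawN_fin n)).symm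
    rw [h1, h2, h3]
    ring
  rw [← hcard, ← hYc]
  apply Finset.card_le_card_of_injOn F
  · rintro ⟨k, a, v⟩ hq
    obtain ⟨h1, h2, h3⟩ := (hXm _).1 hq
    rw [hF, hY, Finset.mem_coe, Finset.mem_product, Finset.mem_product, Set.Finite.mem_toFinset]
    refine ⟨Finset.mem_univ _, jd_dirs _, ?_⟩
    have h4 := last_form h2.1.1
    have h5 := glue_mem (s := a.dropLast) (x := a.getLastD true) (v := v) (k := k) (l := n - k)
      (by rw [← h4]; exact h2.1) h3
    rwa [show k + (n - k) = n by simp only at h1; omega] at h5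
  · have key : ∀ (k k' : ℕ) (a v a' v' : List Bool), k ≤ n → a ∈ HiN (k + 1) → v ∈ HpN (n - k) →
        a' ∈ HiN (k' + 1) → v' ∈ HpN (n - k') → jd a.dropLast = jd a'.dropLast →
        rev a.dropLast ++ v = rev a'.dropLast ++ v' → ¬ k < k' := by
      intro k k' a v a' v' hk h1 h2 h3 h4 h5 h6 hlt
      have e1 := last_form h1.1.1
      have e3 := last_form h3.1.1
      have h7 := glue_cut (s := a.dropLast) (x := a.getLastD true) (v := v) (k := k) (l := n - k)
        (s' := a'.dropLast) (x' := a'.getLastD true) (v' := v') (k' := k') (l' := n - k')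
        (by rw [← e1]; exact h1.1) h2 (by rw [← e3]; exact h3.1) h4 h6 h5 hlt
      rw [← e3, h3.2] at h7
      exact Finset.not_nonempty_empty h7
    rintro ⟨k, a, v⟩ hq ⟨k', a', v'⟩ hq' he
    obtain ⟨h1, h2, h3⟩ := (hXm _).1 hq
    obtain ⟨h1', h2', h3'⟩ := (hXm _).1 hq'
    simp only at h1 h2 h3 h1' h2' h3'
    rw [hF] at he
    simp only [Prod.mk.injEq] at he
    obtain ⟨he1, he2, he3⟩ := he
    have hk : k = k' := by
      rcases Nat.lt_trichotomy k k' with h | h | h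
      · exact absurd h (key k k' a v a' v' h1 h2 h3 h2' h3' he2 he3)
      · exact h
      · exact absurd h (key k' k a' v' a v h1' h2' h3' h2 h3 he2.symm he3.symm)
    subst hk
    have l1 : a.length = k + 1 := h2.1.1
    have l2 : a'.length = k + 1 := h2'.1.1
    obtain ⟨e4, e5⟩ := List.append_inj he3 (by
      rw [rev_length, rev_length, List.length_dropLast, List.length_dropLast, l1, l2])
    have e6 : a.dropLast = a'.dropLast := by rw [← rev_rev a.dropLast, e4, rev_rev]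
    have e7 : a = a' := by rw [last_form l1, last_form l2, e6, he1]
    subst e7
    subst e5
    rfl

/-! ### 2. The weight of the words without a cut -/

/-- bridge times word without a cut -/
theorem HH_le_NA (d : ℕ) : HH d ≤ ENNReal.ofReal (UU d) * gf (NA d) := by
  have h1 : SSt d ⊆ ⋃ r ∈ Finset.range (d + 1), {w | ∃ c ∈ Brd r, ∃ s ∈ NA d, w = c ++ s} := by
    intro w hw
    obtain ⟨r, hr, c, hc, s, hs, hcs⟩ := last_cut hw d
    rw [Set.mem_iUnion₂]
    refine ⟨r, Finset.mem_range.2 (by omega), c, hc, s, ⟨hs.1, ?_⟩, hcs⟩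
    rintro j hj ⟨c', s', hc', hs', hcs'⟩
    have h2 : r + j ≤ d := by
      apply Brd_height_le (Brd_append hc hc') (s := s')
      rw [List.append_assoc, ← hcs', ← hcs]
      exact hw
    exact hs.2 j hj (by omega) ⟨c', s', hc', hs', hcs'⟩
  calc HH d ≤ gf (⋃ r ∈ Finset.range (d + 1), {w | ∃ c ∈ Brd r, ∃ s ∈ NA d, w = c ++ s}) := gf_mono h1
    _ ≤ ∑ r ∈ Finset.range (d + 1), gf {w | ∃ c ∈ Brd r, ∃ s ∈ NA d, w = c ++ s} := gf_bi_le _ _
    _ ≤ ∑ r ∈ Finset.range (d + 1), BT r * gf (NA d) := by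
        refine Finset.sum_le_sum fun r _ => ?_
        rw [← gf_Brd]
        exact gf_le_mul fun t ht => ht
    _ = ENNReal.ofReal (UU d) * gf (NA d) := by rw [← Finset.sum_mul, sum_BT]

/-- no cut position in a word without a cut -/
lemma NA_cuts {d : ℕ} {t : List Bool} (ht : t ∈ NA d) : cuts t = ∅ := by
  rw [← Finset.not_nonempty_iff_eq_empty]
  rintro ⟨j, hj⟩
  rw [mem_cuts] at hj
  obtain ⟨h, h1, _, _, h4⟩ := CutP_take ht.1 hj
  exact ht.2 h h1 ⟨t.take j, t.drop j, h4, pos_SSt (CutP_drop ht.1 hj), (List.take_append_drop j t).symm⟩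

lemma gf_HiN (n : ℕ) : gf (HiN n) = ENNReal.ofReal (cI n * xc ^ n) := by
  have h1 : ((HiN_fin n).toFinset : Set (List Bool)) = HiN n := Set.Finite.coe_toFinset _
  rw [← h1, gf_finset]
  congr 1
  have h2 : ∀ t ∈ (HiN_fin n).toFinset, xc ^ t.length = xc ^ n := by
    intro t ht
    rw [Set.Finite.mem_toFinset] at ht
    rw [ht.1.1]
  rw [Finset.sum_congr rfl h2, Finset.sum_const, nsmul_eq_mul]
  congr 2
  rw [cI, Set.ncard_eq_toFinset_card _ (HiN_fin n)]

/-- words without a cut and with at most n letters -/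
theorem NA_le (d n : ℕ) : gf (NA d) ≤ ENNReal.ofReal (∑ k ∈ Finset.range (n + 1), (cI k : ℝ) * xc ^ k) +
    gf {t | (Saw Set.univ oo up t ∧ Ext d t) ∧ n < t.length} := by
  have hx := xc_pos
  have h1 : NA d ⊆ (⋃ k ∈ Finset.range (n + 1), HiN k) ∪ {t | (Saw Set.univ oo up t ∧ Ext d t) ∧ n < t.length} := by
    intro t ht
    have h2 := mem_SSt.1 ht.1
    rcases Nat.lt_or_ge n t.length with h | h
    · right
      refine ⟨⟨⟨fun _ _ _ => Set.mem_univ _, h2.2⟩, 0, fun i hi1 hi2 => ?_⟩, h⟩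
      have := h2.1 i hi1 hi2
      omega
    · left
      rw [Set.mem_iUnion₂]
      refine ⟨t.length, Finset.mem_range.2 (by omega), ?_, NA_cuts ht⟩
      exact HpN_iff.2 ⟨rfl, pos_SSt ht.1, h2.2⟩
  refine (gf_mono h1).trans ((gf_union_le _ _).trans (add_le_add ?_ le_rfl))
  refine (gf_bi_le _ _).trans ?_
  rw [ENNReal.ofReal_sum_of_nonneg fun k _ => by positivity]
  exact Finset.sum_le_sum fun k _ => le_of_eq (gf_HiN k)

end BAR

/-! ### 3. Long words in a strip are rare -/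

namespace BAR

open SDN PLW

/-- words with an extent of m rows and more than m ^ b letters have a bounded weight -/
theorem long_of_exp {a : ℝ} (ha : 1 ≤ a) (hexp : ∀ β : ℝ, a < β → ∃ (c : ℝ) (L0 : ℕ), 0 < c ∧ ∀ L : ℕ, L0 ≤ L →
    gf {t | t ∈ WL L ∧ (2 : ℝ) ^ (β * L) ≤ t.length} ≤ ENNReal.ofReal (Real.exp (-(2 : ℝ) ^ (c * L)))) {b : ℝ}
    (hb : a < b) : ∃ m0 : ℕ, ∀ m : ℕ, m0 ≤ m → ∀ n : ℕ, (m : ℝ) ^ b ≤ n →
    gf {t | (Saw Set.univ oo up t ∧ Ext m t) ∧ n < t.length} ≤ 2 := by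
  obtain ⟨β, hβ⟩ : ∃ β, β = (a + b) / 2 := ⟨_, rfl⟩
  have hβ1 : a < β := by rw [hβ]; linarith
  have hβ2 : β < b := by rw [hβ]; linarith
  have hb0 : 0 < b := by linarith
  have hβ0 : 0 < β := by linarith
  obtain ⟨η, hη⟩ : ∃ η, η = (b - β) / (2 * b) := ⟨_, rfl⟩
  have hη0 : 0 < η := by rw [hη]; exact div_pos (by linarith) (by linarith)
  have hη1 : η ≤ 1 / 2 := by
    rw [hη, div_le_iff₀ (by linarith)]
    linarith
  obtain ⟨κ, hκ⟩ : ∃ κ, κ = b - β / (1 - η) := ⟨_, rfl⟩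
  have h1η : 0 < 1 - η := by linarith
  have hκ0 : 0 < κ := by
    rw [hκ, sub_pos, div_lt_iff₀ h1η, hη]
    have h1 : b * (1 - (b - β) / (2 * b)) = (b + β) / 2 := by
      field_simp
      ring
    rw [h1]
    linarith
  obtain ⟨c, L0, hc, hL0⟩ := hexp β hβ1
  obtain ⟨L1, hL1⟩ := lat_small hη0 (by linarith : η ≤ 1)
  obtain ⟨m1, hm1⟩ := exists_nat_ge ((2 : ℝ) ^ ((L0 : ℝ) + L1))
  obtain ⟨m2, hm2⟩ := exists_nat_ge ((2 : ℝ) ^ (β / κ))
  refine ⟨m1 + m2 + 1, fun m hm n hn => ?_⟩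
  have hmR : (1 : ℝ) ≤ m := by exact_mod_cast (by omega : 1 ≤ m)
  have hm0 : (0 : ℝ) < m := by linarith
  have hl2 : 0 < Real.log 2 := Real.log_pos (by norm_num)
  obtain ⟨x, hx⟩ : ∃ x, x = Real.log m / Real.log 2 := ⟨_, rfl⟩
  have hxm : (2 : ℝ) ^ x = m := by
    rw [hx, Real.rpow_def_of_pos (by norm_num), mul_div_cancel₀ _ hl2.ne', Real.exp_log hm0]
  have hx0 : 0 ≤ x := by rw [hx]; exact div_nonneg (Real.log_nonneg hmR) hl2.le
  have hxL : (L0 : ℝ) + L1 ≤ x := by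
    have h1 : (2 : ℝ) ^ ((L0 : ℝ) + L1) ≤ (2 : ℝ) ^ x := by
      rw [hxm]
      refine hm1.trans ?_
      exact_mod_cast (by omega : m1 ≤ m)
    exact (Real.rpow_le_rpow_left_iff (by norm_num)).1 h1
  obtain ⟨L, hL⟩ : ∃ L : ℕ, L = ⌈x / (1 - η)⌉₊ := ⟨_, rfl⟩
  have hLa : x / (1 - η) ≤ L := by rw [hL]; exact Nat.le_ceil _
  have hLb : (L : ℝ) < x / (1 - η) + 1 := by rw [hL]; exact Nat.ceil_lt_add_one (by positivity)
  have hxx : x ≤ x / (1 - η) := by
    rw [le_div_iff₀ h1η]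
    nlinarith
  have hLL : L0 + L1 ≤ L := by
    have : ((L0 + L1 : ℕ) : ℝ) ≤ L := by
      push_cast
      linarith
    exact_mod_cast this
  have hmL : (m : ℝ) ≤ (2 : ℝ) ^ ((1 - η) * L) := by
    rw [← hxm]
    apply Real.rpow_le_rpow_of_exponent_le (by norm_num)
    rw [div_le_iff₀ h1η] at hLa
    linarith
  have hβL : (2 : ℝ) ^ (β * L) ≤ n := by
    refine le_trans ?_ hn
    rw [← hxm, ← Real.rpow_mul (by norm_num)]
    apply Real.rpow_le_rpow_of_exponent_le (by norm_num)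
    have h1 : β ≤ κ * x := by
      have h2 : (2 : ℝ) ^ (β / κ) ≤ (2 : ℝ) ^ x := by
        rw [hxm]
        refine hm2.trans ?_
        exact_mod_cast (by omega : m2 ≤ m)
      have h3 := (Real.rpow_le_rpow_left_iff (by norm_num)).1 h2
      rw [div_le_iff₀ hκ0] at h3
      linarith
    have h2 : x * b = κ * x + β * (x / (1 - η)) := by
      rw [hκ]
      ring
    have h3 : β * L ≤ β * (x / (1 - η)) + β := by
      nlinarith
    linarith
  have hsub : {t | (Saw Set.univ oo up t ∧ Ext m t) ∧ n < t.length} ⊆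
      {t | t ∈ WL L ∧ (2 : ℝ) ^ (β * L) ≤ t.length} ∪ {t | t ∈ SA ∧ Ext m t ∧ t ∉ WL L} := by
    rintro t ⟨⟨h1, h2⟩, h0⟩
    by_cases h3 : t ∈ WL L
    · left
      refine ⟨h3, hβL.trans ?_⟩
      exact_mod_cast h0.le
    · exact Or.inr ⟨h1, h2, h3⟩
  have h1 : gf {t | t ∈ WL L ∧ (2 : ℝ) ^ (β * L) ≤ t.length} ≤ 1 := by
    refine (hL0 L (by omega)).trans ?_
    rw [← ENNReal.ofReal_one]
    apply ENNReal.ofReal_le_ofReal
    apply Real.exp_le_one_iff.2
    have : (0 : ℝ) < (2 : ℝ) ^ (c * L) := by positivity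
    linarith
  have h2 := hL1 L (by omega) m hmL
  calc gf {t | (Saw Set.univ oo up t ∧ Ext m t) ∧ n < t.length} ≤
      gf ({t | t ∈ WL L ∧ (2 : ℝ) ^ (β * L) ≤ t.length} ∪ {t | t ∈ SA ∧ Ext m t ∧ t ∉ WL L}) := gf_mono hsub
    _ ≤ gf {t | t ∈ WL L ∧ (2 : ℝ) ^ (β * L) ≤ t.length} + gf {t | t ∈ SA ∧ Ext m t ∧ t ∉ WL L} := gf_union_le _ _
    _ ≤ 1 + 1 := add_le_add h1 h2
    _ = 2 := by norm_num

end BAR

end HexObs
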