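import Pool.Agent.BAR.PwLow

/-!
BAR, pointwise lower bound with a general exponent of the half plane walks (helper37): if the half plane walks of
extent d weigh d ^ (h - o(1)) from below, then a n >= c n ^ ((3 / 4) (h - 3 / 4) - 3 / 16 - eps) mu ^ n for every n.
-/

set_option autoImplicit false

namespace HexObs

namespace BAR

open SDN T2 Filter

open scoped ENNReal Topology

/-- **The half plane walks without a cut.** -/
theorem sI_lowG (hU : Pool.Agent.NUF.NumUp) {h : ℝ} (h1h : 13 / 12 ≤ h) (h2h : h ≤ 3 / 2) (hL : HLow h)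
    {ε : ℝ} (hε : 0 < ε) :
    ∃ c : ℝ, 0 < c ∧ ∀ n : ℕ, 1 ≤ n → c * (n : ℝ) ^ ((h - 3 / 4) * (3 / 4) - ε) ≤ sI n := by
  obtain ⟨δ, hδ⟩ : ∃ δ : ℝ, δ = min ε (1 / 4) := ⟨_, rfl⟩
  have hδ0 : 0 < δ := by rw [hδ]; exact lt_min hε (by norm_num)
  have hδ1 : δ ≤ ε := by rw [hδ]; exact min_le_left _ _
  have hδ2 : δ ≤ 1 / 4 := by rw [hδ]; exact min_le_right _ _
  obtain ⟨b, hb⟩ : ∃ b : ℝ, b = 4 / 3 + δ := ⟨_, rfl⟩
  have hb0 : 0 < b := by rw [hb]; linarith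
  obtain ⟨m0, hm0⟩ := long_le (a := 4 / 3) (by norm_num)
    (fun _ ha => Pool.Agent.NUF.meanLen_of_ZZ (Pool.Agent.NUF.zzUp_of hU) ha) (b := b) (by rw [hb]; linarith)
  obtain ⟨c, hc, hHH⟩ := hL (δ / 4) (by positivity)
  obtain ⟨_, C, _, hC, hUU⟩ := UU_two
  -- NA from below
  have hNA : ∀ d : ℕ, 1 ≤ d → ENNReal.ofReal (c / C * (d : ℝ) ^ (h - 3 / 4 - δ / 4)) ≤ gf (NA d) := by
    intro d hd
    have hdR : (1 : ℝ) ≤ d := by exact_mod_cast hd
    have hd0 : (0 : ℝ) < d := by linarith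
    obtain ⟨D, hD⟩ : ∃ D, D = C * (d : ℝ) ^ (3 / 4 : ℝ) := ⟨_, rfl⟩
    have hD0 : 0 < D := by rw [hD]; positivity
    have h1 : ENNReal.ofReal (c * (d : ℝ) ^ (h - δ / 4)) ≤ ENNReal.ofReal D * gf (NA d) := by
      refine (hHH d hd).trans ((HH_le_NA d).trans (mul_le_mul_left (ENNReal.ofReal_le_ofReal ?_) _))
      rw [hD]
      exact (hUU d hd).2
    have h2 : c / C * (d : ℝ) ^ (h - 3 / 4 - δ / 4) = D⁻¹ * (c * (d : ℝ) ^ (h - δ / 4)) := by
      have e1 : (d : ℝ) ^ (h - δ / 4) = (d : ℝ) ^ (h - 3 / 4 - δ / 4) * (d : ℝ) ^ (3 / 4 : ℝ) := by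
        rw [← Real.rpow_add hd0]
        congr 1
        ring
      have hd34 : 0 < (d : ℝ) ^ (3 / 4 : ℝ) := by positivity
      rw [e1, hD]
      field_simp
    rw [h2, ENNReal.ofReal_mul (by positivity)]
    calc ENNReal.ofReal D⁻¹ * ENNReal.ofReal (c * (d : ℝ) ^ (h - δ / 4)) ≤
        ENNReal.ofReal D⁻¹ * (ENNReal.ofReal D * gf (NA d)) := mul_le_mul_right h1 _
      _ = gf (NA d) := by
        rw [← mul_assoc, ← ENNReal.ofReal_mul (by positivity), inv_mul_cancel₀ hD0.ne', ENNReal.ofReal_one, one_mul]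
  obtain ⟨n0, hn0⟩ := exists_nat_ge (((m0 : ℝ) + 2) ^ b)
  obtain ⟨g, hg⟩ : ∃ g : ℝ, g = (h - 3 / 4) * (3 / 4) - δ := ⟨_, rfl⟩
  have hg0 : 0 ≤ g := by rw [hg]; nlinarith
  have hgb : g * b ≤ h - 3 / 4 - δ / 4 := by
    rw [hg, hb]
    nlinarith
  refine ⟨min (c / (3 * C) * (1 / 2) ^ (g * b)) (1 / ((n0 : ℝ) + 1)), by positivity, fun n hn => ?_⟩
  have hnR : (1 : ℝ) ≤ n := by exact_mod_cast hn
  have hn00 : (0 : ℝ) < n := by linarith
  have hng : (n : ℝ) ^ ((h - 3 / 4) * (3 / 4) - ε) ≤ (n : ℝ) ^ g := Real.rpow_le_rpow_of_exponent_le hnR (by rw [hg]; linarith)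
  rcases Nat.lt_or_ge n (n0 + 1) with hlt | hge
  · have h1 : (n : ℝ) ^ ((h - 3 / 4) * (3 / 4) - ε) ≤ n := by
      calc (n : ℝ) ^ ((h - 3 / 4) * (3 / 4) - ε) ≤ (n : ℝ) ^ (1 : ℝ) := Real.rpow_le_rpow_of_exponent_le hnR (by linarith)
        _ = n := Real.rpow_one _
    have h2 : (n : ℝ) ≤ (n0 : ℝ) + 1 := by
      have : (n : ℝ) < ((n0 + 1 : ℕ) : ℝ) := by exact_mod_cast hlt
      push_cast at this
      linarith
    calc min (c / (3 * C) * (1 / 2) ^ (g * b)) (1 / ((n0 : ℝ) + 1)) * (n : ℝ) ^ ((h - 3 / 4) * (3 / 4) - ε) ≤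
        1 / ((n0 : ℝ) + 1) * ((n0 : ℝ) + 1) := by
          apply mul_le_mul (min_le_right _ _) (h1.trans h2) (by positivity) (by positivity)
      _ = 1 := one_div_mul_cancel (by positivity)
      _ ≤ sI n := one_le_sI n
  · obtain ⟨x, hx⟩ : ∃ x, x = (n : ℝ) ^ (1 / b) := ⟨_, rfl⟩
    have hxb : x ^ b = n := by
      rw [hx, ← Real.rpow_mul (by linarith), one_div_mul_cancel hb0.ne', Real.rpow_one]
    have hx0 : 0 < x := by rw [hx]; positivity
    have hxm : (m0 : ℝ) + 2 ≤ x := by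
      have h1 : ((m0 : ℝ) + 2) ^ b ≤ x ^ b := by
        rw [hxb]
        refine hn0.trans ?_
        exact_mod_cast (by omega : n0 ≤ n)
      exact (Real.rpow_le_rpow_iff (by positivity) hx0.le hb0).1 h1
    obtain ⟨m, hm⟩ : ∃ m : ℕ, m = ⌊x⌋₊ := ⟨_, rfl⟩
    have hm1 : (m : ℝ) ≤ x := by rw [hm]; exact Nat.floor_le hx0.le
    have hm2 : x < m + 1 := by rw [hm]; exact Nat.lt_floor_add_one x
    have hm3 : m0 ≤ m := by
      have : (m0 : ℝ) ≤ m := by linarith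
      exact_mod_cast this
    have hm4 : 1 ≤ m := by
      have h1 : (0 : ℝ) ≤ m0 := Nat.cast_nonneg _
      have : (1 : ℝ) ≤ m := by linarith
      exact_mod_cast this
    have hmR : (1 : ℝ) ≤ m := by exact_mod_cast hm4
    have h1 := hNA m hm4
    have h2 := hm0 m hm3 n (by
      rw [← hxb]
      exact Real.rpow_le_rpow (Nat.cast_nonneg _) hm1 hb0.le)
    have h3 := NA_le m n
    have h4 : ENNReal.ofReal (c / C * (m : ℝ) ^ (h - 3 / 4 - δ / 4)) ≤ ENNReal.ofReal (sI n + 2) := by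
      rw [ENNReal.ofReal_add (by linarith [one_le_sI n]) (by norm_num)]
      refine h1.trans (h3.trans (add_le_add le_rfl (h2.trans ?_)))
      norm_num
    have h5 : c / C * (m : ℝ) ^ (h - 3 / 4 - δ / 4) ≤ sI n + 2 :=
      (ENNReal.ofReal_le_ofReal_iff (by linarith [one_le_sI n])).1 h4
    have h6 : c / C * (m : ℝ) ^ (h - 3 / 4 - δ / 4) ≤ 3 * sI n := by linarith [one_le_sI n]
    have h7 : (1 / 2 : ℝ) * x ≤ m := by
      have h8 : (0 : ℝ) ≤ m0 := Nat.cast_nonneg _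
      linarith
    have h8 : (1 / 2 : ℝ) ^ (g * b) * (n : ℝ) ^ g ≤ (m : ℝ) ^ (h - 3 / 4 - δ / 4) := by
      have e1 : (n : ℝ) ^ g = x ^ (g * b) := by
        rw [mul_comm g b, Real.rpow_mul hx0.le, hxb]
      rw [e1, ← Real.mul_rpow (by norm_num) hx0.le]
      exact (Real.rpow_le_rpow (by positivity) h7 (by positivity)).trans
        (Real.rpow_le_rpow_of_exponent_le hmR hgb)
    calc min (c / (3 * C) * (1 / 2) ^ (g * b)) (1 / ((n0 : ℝ) + 1)) * (n : ℝ) ^ ((h - 3 / 4) * (3 / 4) - ε) ≤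
        (c / (3 * C) * (1 / 2) ^ (g * b)) * (n : ℝ) ^ g :=
          mul_le_mul (min_le_left _ _) hng (by positivity) (by positivity)
      _ = (c / C) / 3 * ((1 / 2) ^ (g * b) * (n : ℝ) ^ g) := by
          field_simp
      _ ≤ (c / C) / 3 * (m : ℝ) ^ (h - 3 / 4 - δ / 4) := mul_le_mul_of_nonneg_left h8 (by positivity)
      _ ≤ sI n := by linarith

/-- **The number of the self-avoiding walks of every length from below**, from the half plane words of every length. -/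
theorem pw_lowG (hU : Pool.Agent.NUF.NumUp) {e : ℝ} (h1e : 13 / 12 ≤ e) (h2e : e ≤ 3 / 2) (hL : HLow e)
    (h : ∀ ε : ℝ, 0 < ε → ∃ c : ℝ, 0 < c ∧ ∀ n : ℕ, 1 ≤ n → c * (n : ℝ) ^ (-(3 / 16) - ε) ≤ (cH n : ℝ) * xc ^ n)
    {ε : ℝ} (hε : 0 < ε) : ∃ c : ℝ, 0 < c ∧ ∀ n : ℕ, 1 ≤ n → c * (n : ℝ) ^ ((e - 3 / 4) * (3 / 4) - 3 / 16 - ε) * muB ^ n ≤ aB n := by
  obtain ⟨c1, hc1, h1⟩ := h (ε / 2) (by positivity)
  obtain ⟨c2, hc2, h2⟩ := sI_lowG hU h1e h2e hL (by positivity : 0 < ε / 2)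
  have hx := xc_pos
  have hmu := muB_pos
  obtain ⟨c3, hc3⟩ : ∃ c3, c3 = min c1 1 := ⟨_, rfl⟩
  have hc30 : 0 < c3 := by rw [hc3]; exact lt_min hc1 one_pos
  have hc31 : c3 ≤ c1 := by rw [hc3]; exact min_le_left _ _
  have hc32 : c3 ≤ 1 := by rw [hc3]; exact min_le_right _ _
  have hcH0 : (1 : ℝ) ≤ cH 0 := by
    have h3 : ([] : List Bool) ∈ HpN 0 := by
      refine HpN_iff.2 ⟨rfl, fun i h1 h2 => ?_, fun i l h1 h2 => ?_⟩
      · simp only [List.length_nil] at h2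
        omega
      · simp only [List.length_nil] at h2
        omega
    have h4 : 1 ≤ cH 0 := by
      unfold cH
      exact Nat.one_le_iff_ne_zero.2 (Set.ncard_ne_zero_of_mem h3 (HpN_fin 0))
    exact_mod_cast h4
  -- the half plane words of every length up to n
  obtain ⟨q, hq⟩ : ∃ q : ℝ, q = 3 / 16 + ε / 2 := ⟨_, rfl⟩
  have hq0 : 0 < q := by rw [hq]; positivity
  have h3 : ∀ n : ℕ, 1 ≤ n → ∀ j, j ≤ n → c3 * (n : ℝ) ^ (-q) ≤ (cH j : ℝ) * xc ^ j := by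
    intro n hn j hj
    have hnR : (1 : ℝ) ≤ n := by exact_mod_cast hn
    rcases Nat.eq_zero_or_pos j with h0 | h0
    · subst h0
      rw [pow_zero, mul_one]
      have h4 : (n : ℝ) ^ (-q) ≤ 1 := Real.rpow_le_one_of_one_le_of_nonpos hnR (by linarith)
      calc c3 * (n : ℝ) ^ (-q) ≤ 1 * 1 := mul_le_mul hc32 h4 (by positivity) (by norm_num)
        _ = 1 := one_mul 1
        _ ≤ _ := hcH0
    · have hj0 : (0 : ℝ) < j := by exact_mod_cast h0
      have h4 := h1 j h0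
      have e1 : -(3 / 16) - ε / 2 = -q := by rw [hq]; ring
      rw [e1] at h4
      refine le_trans ?_ h4
      have h5 : (n : ℝ) ^ (-q) ≤ (j : ℝ) ^ (-q) := by
        apply Real.rpow_le_rpow_of_nonpos hj0 _ (by linarith)
        exact_mod_cast hj
      exact mul_le_mul hc31 h5 (by positivity) hc1.le
  refine ⟨c2 * c3 / 96, by positivity, fun n hn => ?_⟩
  have hnR : (1 : ℝ) ≤ n := by exact_mod_cast hn
  have hn0 : (0 : ℝ) < n := by linarith
  have h4 : ∑ k ∈ Finset.range (n + 1), (cI (k + 1) : ℝ) * (cH (n - k) : ℝ) ≤ 12 * cS n := by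
    exact_mod_cast count_glue n
  have h5 : (∑ k ∈ Finset.range (n + 1), (cI (k + 1) : ℝ) * xc ^ (k + 1)) * (c3 * (n : ℝ) ^ (-q)) ≤
      12 * cS n * xc ^ (n + 1) := by
    calc (∑ k ∈ Finset.range (n + 1), (cI (k + 1) : ℝ) * xc ^ (k + 1)) * (c3 * (n : ℝ) ^ (-q)) =
        ∑ k ∈ Finset.range (n + 1), (cI (k + 1) : ℝ) * xc ^ (k + 1) * (c3 * (n : ℝ) ^ (-q)) := by
          rw [Finset.sum_mul]
      _ ≤ ∑ k ∈ Finset.range (n + 1), (cI (k + 1) : ℝ) * (cH (n - k) : ℝ) * xc ^ (n + 1) := by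
          refine Finset.sum_le_sum fun k hk => ?_
          rw [Finset.mem_range] at hk
          have h6 := h3 n hn (n - k) (by omega)
          calc (cI (k + 1) : ℝ) * xc ^ (k + 1) * (c3 * (n : ℝ) ^ (-q)) ≤
              (cI (k + 1) : ℝ) * xc ^ (k + 1) * ((cH (n - k) : ℝ) * xc ^ (n - k)) :=
                mul_le_mul_of_nonneg_left h6 (sI_term (k + 1))
            _ = (cI (k + 1) : ℝ) * (cH (n - k) : ℝ) * (xc ^ (k + 1) * xc ^ (n - k)) := by ring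
            _ = (cI (k + 1) : ℝ) * (cH (n - k) : ℝ) * xc ^ (n + 1) := by
                rw [← pow_add, show k + 1 + (n - k) = n + 1 by omega]
      _ = (∑ k ∈ Finset.range (n + 1), (cI (k + 1) : ℝ) * (cH (n - k) : ℝ)) * xc ^ (n + 1) := by
          rw [Finset.sum_mul]
      _ ≤ 12 * cS n * xc ^ (n + 1) := mul_le_mul_of_nonneg_right h4 (by positivity)
  have h6 : c2 * (n : ℝ) ^ ((e - 3 / 4) * (3 / 4) - ε / 2) / 8 * (c3 * (n : ℝ) ^ (-q)) ≤ 12 * cS n * xc ^ (n + 1) := by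
    refine le_trans (mul_le_mul_of_nonneg_right ?_ (by positivity)) h5
    refine le_trans ?_ (sI_succ n)
    have := h2 n hn
    linarith
  have e2 : (n : ℝ) ^ ((e - 3 / 4) * (3 / 4) - ε / 2) * (n : ℝ) ^ (-q) = (n : ℝ) ^ ((e - 3 / 4) * (3 / 4) - 3 / 16 - ε) := by
    rw [← Real.rpow_add hn0]
    congr 1
    rw [hq]
    ring
  have h7 : c2 * c3 / 8 * (n : ℝ) ^ ((e - 3 / 4) * (3 / 4) - 3 / 16 - ε) ≤ 12 * ((aB n : ℝ) / muB ^ n) := by
    calc c2 * c3 / 8 * (n : ℝ) ^ ((e - 3 / 4) * (3 / 4) - 3 / 16 - ε) =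
        c2 * (n : ℝ) ^ ((e - 3 / 4) * (3 / 4) - ε / 2) / 8 * (c3 * (n : ℝ) ^ (-q)) := by
          rw [← e2]
          ring
      _ ≤ 12 * cS n * xc ^ (n + 1) := h6
      _ = 12 * ((cS n : ℝ) * xc ^ n) * xc := by ring
      _ ≤ 12 * ((cS n : ℝ) * xc ^ n) * 1 := by
          apply mul_le_mul_of_nonneg_left _ (by positivity)
          linarith [xc_le]
      _ ≤ 12 * ((aB n : ℝ) / muB ^ n) := by
          rw [mul_one]
          exact mul_le_mul_of_nonneg_left (term_bounds n).1 (by norm_num)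
  have hmn : 0 < muB ^ n := pow_pos hmu n
  have h8 : c2 * c3 / 96 * (n : ℝ) ^ ((e - 3 / 4) * (3 / 4) - 3 / 16 - ε) ≤ (aB n : ℝ) / muB ^ n := by linarith
  rwa [le_div_iff₀ hmn] at h8

end BAR

end HexObs
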