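import Pool.Agent.BAR.Size
import Pool.Agent.T2.PowS
import Pool.Agent.T2.ExpS
import Pool.Agent.T2.ExpUp
import Pool.Agent.T2.PowUp
import Pool.Agent.T2.LongP
import Pool.Agent.TH.Main

/-!
BAR, section 3, part F: from the mean length of the bridges (resp. the existence of long walks) to the comparison of
Chi m and gf (SAL n).
-/

set_option autoImplicit false

namespace HexObs

namespace BAR

open SDN T2

open scoped ENNReal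

/-- long words of the box are exponentially rare -/
theorem exp_low {a : ℝ} (ha : 1 ≤ a) (hM : ∀ a' : ℝ, a < a' → ∃ C : ℝ, 0 ≤ C ∧ MeanLen a' C) {β : ℝ} (hβ : a < β) :
    ∃ (c : ℝ) (L0 : ℕ), 0 < c ∧ ∀ L : ℕ, L0 ≤ L →
      gf {t | t ∈ WL L ∧ (2 : ℝ) ^ (β * L) ≤ t.length} ≤ ENNReal.ofReal (Real.exp (-(2 : ℝ) ^ (c * L))) := by
  obtain ⟨a', h1, h2⟩ := exists_between hβ
  obtain ⟨β0, h3, h4⟩ := exists_between h2
  obtain ⟨C, hC, h⟩ := hM a' h1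
  exact exp_small (β0 := β0) (β := β) (by linarith) h4 (fun Q hQ => pow_small (by linarith) hC h h3 hQ)

/-- extent of m rows: at most m ^ b letters -/
theorem chi_sal {a : ℝ} (ha : 1 ≤ a) (hM : ∀ a' : ℝ, a < a' → ∃ C : ℝ, 0 ≤ C ∧ MeanLen a' C) {b : ℝ} (hb : a < b) :
    ∃ m0 : ℕ, ∀ m : ℕ, m0 ≤ m → ∀ n : ℕ, (m : ℝ) ^ b ≤ n → Chi m ≤ gf (SAL n) + 2 :=
  chi_le_sal ha (fun _ hβ => exp_low ha hM hβ) hb

/-- at most n letters: extent of at most 4 n ^ (1 / β) rows -/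
theorem sal_chi {τ1 : ℝ} (hτ1 : 0 < τ1) (hL : LongWalks τ1) {β : ℝ} (hβ0 : 0 < β) (hβ : β < 1 + τ1) :
    ∃ n0 : ℕ, ∀ n : ℕ, n0 ≤ n → ∀ m : ℕ, 4 * (n : ℝ) ^ (1 / β) ≤ m → gf (SAL n) ≤ Chi m + 1 :=
  sal_le_chi hβ0 (exp_up hτ1 (fun _ _ hτ hττ hε hε1 => pow_up hτ1 hL hτ hττ hε hε1) hβ)

end BAR

end HexObs
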