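import Pool.Agent.BAR.SusA
import Pool.Agent.BAR.Pointw

/-!
BAR: the susceptibility of the self-avoiding walk from the partial sums: two-sided bounds of the partial sums with the
exponent `g` give two-sided bounds of `∑ a_n x ^ n` near `1 / μ` with the exponent `g`.
-/

set_option autoImplicit false

namespace HexObs

namespace BAR

open Finset

/-- the two-sided law of the partial sums -/
def CumLaw (g : ℝ) : Prop := ∀ ε : ℝ, 0 < ε → ∃ C : ℝ, 0 < C ∧ ∀ n : ℕ, 1 ≤ n →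
  C⁻¹ * (n : ℝ) ^ (g - ε) ≤ ∑ k ∈ range (n + 1), (aB k : ℝ) / muB ^ k ∧
  ∑ k ∈ range (n + 1), (aB k : ℝ) / muB ^ k ≤ C * (n : ℝ) ^ (g + ε)

/-- the two-sided law of the susceptibility -/
def SusLaw (g : ℝ) : Prop := ∀ ε : ℝ, 0 < ε → ∃ C : ℝ, 0 < C ∧ ∀ x : ℝ, 0 ≤ x → x < muB⁻¹ →
  Summable (fun n => (aB n : ℝ) * x ^ n) ∧
  C⁻¹ * ((1 - muB * x)⁻¹) ^ (g - ε) ≤ ∑' n, (aB n : ℝ) * x ^ n ∧
  ∑' n, (aB n : ℝ) * x ^ n ≤ C * ((1 - muB * x)⁻¹) ^ (g + ε)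

lemma uB_pow (x : ℝ) (n : ℕ) : uB n * (muB * x) ^ n = (aB n : ℝ) * x ^ n := by
  have h := muB_pos
  unfold uB
  rw [mul_pow]
  field_simp

/-- **the susceptibility** -/
theorem susLaw_of {g : ℝ} (hg : 0 < g) (h : CumLaw g) : SusLaw g := by
  have hmu := muB_pos
  have hv0 : 1 ≤ uB 0 := by
    unfold uB
    rw [aB_zero]
    norm_num
  have hup : ∀ ε : ℝ, 0 < ε → ∃ C : ℝ, ∀ n : ℕ, 1 ≤ n → ∑ k ∈ range (n + 1), uB k ≤ C * (n : ℝ) ^ (g + ε) := by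
    intro ε hε
    obtain ⟨C, -, hC⟩ := h ε hε
    exact ⟨C, fun n hn => (hC n hn).2⟩
  have hlo : ∀ ε : ℝ, 0 < ε → ∃ c : ℝ, 0 < c ∧ ∀ n : ℕ, 1 ≤ n →
      c * (n : ℝ) ^ (g - ε) ≤ ∑ k ∈ range (n + 1), uB k := by
    intro ε hε
    obtain ⟨C, hC0, hC⟩ := h ε hε
    exact ⟨C⁻¹, inv_pos.2 hC0, fun n hn => (hC n hn).1⟩
  intro ε hε
  obtain ⟨C, hC, hm⟩ := Sus.main hg (v := uB) uB_nonneg hv0 hup hlo hε
  refine ⟨C, hC, fun x hx0 hx1 => ?_⟩
  have hy : muB * x < 1 := by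
    calc muB * x < muB * muB⁻¹ := mul_lt_mul_of_pos_left hx1 hmu
      _ = 1 := mul_inv_cancel₀ hmu.ne'
  have h1 := hm (muB * x) (by positivity) hy
  simp only [uB_pow] at h1
  exact h1

/-- the logarithmic limit of the susceptibility -/
theorem sus_lim {g : ℝ} (h : SusLaw g) : Filter.Tendsto
    (fun x => Real.log (∑' n, (aB n : ℝ) * x ^ n) / Real.log ((1 - muB * x)⁻¹)) (nhdsWithin muB⁻¹ (Set.Iio muB⁻¹))
    (nhds g) := by
  have hmu := muB_pos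
  have h1 := Sus.lim (f := fun y => ∑' n, (aB n : ℝ) * (y / muB) ^ n) (g := g) (by
    intro ε hε
    obtain ⟨C, hC, hm⟩ := h ε hε
    refine ⟨C, hC, fun y hy0 hy1 => ?_⟩
    have h2 := (hm (y / muB) (by positivity) (by
      rw [div_eq_mul_inv]
      calc y * muB⁻¹ < 1 * muB⁻¹ := mul_lt_mul_of_pos_right hy1 (inv_pos.2 hmu)
        _ = muB⁻¹ := one_mul _)).2
    rw [mul_div_cancel₀ _ hmu.ne'] at h2
    exact h2)
  have h2 : Filter.Tendsto (fun x => muB * x) (nhdsWithin muB⁻¹ (Set.Iio muB⁻¹)) (nhdsWithin 1 (Set.Iio 1)) := by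
    refine tendsto_nhdsWithin_iff.2 ⟨?_, ?_⟩
    · have h3 : Filter.Tendsto (fun x : ℝ => muB * x) (nhds muB⁻¹) (nhds (muB * muB⁻¹)) :=
        (continuous_const.mul continuous_id).tendsto _
      rw [mul_inv_cancel₀ hmu.ne'] at h3
      exact h3.mono_left nhdsWithin_le_nhds
    · filter_upwards [self_mem_nhdsWithin] with x hx
      rw [Set.mem_Iio] at hx ⊢
      calc muB * x < muB * muB⁻¹ := mul_lt_mul_of_pos_left hx hmu
        _ = 1 := mul_inv_cancel₀ hmu.ne'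
  refine (h1.comp h2).congr fun x => ?_
  show Real.log (∑' n, (aB n : ℝ) * (muB * x / muB) ^ n) / _ = _
  rw [mul_div_cancel_left₀ _ hmu.ne']

end BAR

end HexObs
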