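import Mathlib.Analysis.SpecialFunctions.Pow.Real
import Mathlib.Analysis.SpecialFunctions.Log.Basic
import Mathlib.Analysis.SpecificLimits.Basic
import Mathlib.Tactic

/-!
BAR: power series near the radius of convergence from the partial sums of the coefficients (an Abelian statement):
partial sums `n ^ (g ± o(1))` give the sum `(1 - y) ^ (- g ∓ o(1))`.
-/

set_option autoImplicit false

namespace HexObs

namespace BAR

namespace Sus

open Finset

/-- a power against an exponential -/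
lemma pow_exp {s t : ℝ} (hs : 0 < s) (ht : 0 ≤ t) : t ^ s ≤ (2 * s) ^ s * Real.exp (t / 2) := by
  have h1 : t / (2 * s) ≤ Real.exp (t / (2 * s)) := by
    have := Real.add_one_le_exp (t / (2 * s))
    linarith
  have h2 : (t / (2 * s)) ^ s ≤ Real.exp (t / (2 * s)) ^ s := Real.rpow_le_rpow (by positivity) h1 hs.le
  rw [← Real.exp_mul, Real.div_rpow ht (by positivity), div_le_iff₀ (by positivity)] at h2
  have h3 : t / (2 * s) * s = t / 2 := by field_simp
  rw [h3] at h2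
  linarith

/-- summation by parts -/
lemma parts (v : ℕ → ℝ) (y : ℝ) (M : ℕ) : ∑ k ∈ range M, v k * y ^ k =
    (1 - y) * ∑ k ∈ range M, (∑ i ∈ range (k + 1), v i) * y ^ k + (∑ i ∈ range M, v i) * y ^ M := by
  induction M with
  | zero => simp
  | succ M ih =>
    rw [sum_range_succ, ih, sum_range_succ (fun k => (∑ i ∈ range (k + 1), v i) * y ^ k), sum_range_succ v M]
    ring

/-- the terms of the sum by parts -/
lemma term_le {s y : ℝ} (hs : 0 < s) (hy0 : 0 ≤ y) (hy1 : y < 1) (k : ℕ) :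
    ((k : ℝ) + 1) ^ s * y ^ k ≤ Real.exp 1 * (2 * s) ^ s * ((1 - y)⁻¹) ^ s * Real.exp (-(((k : ℝ) + 1) * (1 - y) / 2)) := by
  have h1y : 0 < 1 - y := by linarith
  have h1 : y ≤ Real.exp (-(1 - y)) := by
    have := Real.add_one_le_exp (-(1 - y))
    linarith
  have h2 : y ^ k ≤ Real.exp 1 * Real.exp (-(((k : ℝ) + 1) * (1 - y))) := by
    calc y ^ k ≤ Real.exp (-(1 - y)) ^ k := pow_le_pow_left₀ hy0 h1 k
      _ = Real.exp (-(k * (1 - y))) := by
          rw [← Real.exp_nat_mul]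
          congr 1
          ring
      _ ≤ Real.exp (1 + -(((k : ℝ) + 1) * (1 - y))) := by
          apply Real.exp_le_exp.2
          nlinarith
      _ = _ := Real.exp_add _ _
  have h3 := pow_exp hs (t := ((k : ℝ) + 1) * (1 - y)) (by positivity)
  have h4 : ((k : ℝ) + 1) ^ s = (((k : ℝ) + 1) * (1 - y)) ^ s * ((1 - y)⁻¹) ^ s := by
    rw [← Real.mul_rpow (by positivity) (by positivity)]
    congr 1
    field_simp
  have h5 : Real.exp (((k : ℝ) + 1) * (1 - y) / 2) * Real.exp (-(((k : ℝ) + 1) * (1 - y))) =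
      Real.exp (-(((k : ℝ) + 1) * (1 - y) / 2)) := by
    rw [← Real.exp_add]
    congr 1
    ring
  calc ((k : ℝ) + 1) ^ s * y ^ k ≤ ((2 * s) ^ s * Real.exp (((k : ℝ) + 1) * (1 - y) / 2) * ((1 - y)⁻¹) ^ s) *
        (Real.exp 1 * Real.exp (-(((k : ℝ) + 1) * (1 - y)))) := by
        rw [h4]
        gcongr
    _ = Real.exp 1 * (2 * s) ^ s * ((1 - y)⁻¹) ^ s *
        (Real.exp (((k : ℝ) + 1) * (1 - y) / 2) * Real.exp (-(((k : ℝ) + 1) * (1 - y)))) := by ring
    _ = _ := by rw [h5]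

/-- a geometric sum -/
lemma geo_le {z : ℝ} (hz : 0 < z) (M : ℕ) : ∑ k ∈ range M, Real.exp (-(((k : ℝ) + 1) * z)) ≤ z⁻¹ := by
  obtain ⟨r, hr⟩ : ∃ r : ℝ, r = Real.exp (-z) := ⟨_, rfl⟩
  have hr0 : 0 < r := by rw [hr]; exact Real.exp_pos _
  have h1 : r * (1 + z) ≤ 1 := by
    have h2 : 1 + z ≤ Real.exp z := by
      have := Real.add_one_le_exp z
      linarith
    calc r * (1 + z) ≤ r * Real.exp z := mul_le_mul_of_nonneg_left h2 hr0.le
      _ = 1 := by rw [hr, ← Real.exp_add, neg_add_cancel, Real.exp_zero]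
  have hr1 : r < 1 := by nlinarith
  have h2 : ∀ k : ℕ, Real.exp (-(((k : ℝ) + 1) * z)) = r * r ^ k := by
    intro k
    rw [hr, ← Real.exp_nat_mul, ← Real.exp_add]
    congr 1
    ring
  rw [sum_congr rfl fun k _ => h2 k, ← mul_sum, geom_sum_eq hr1.ne]
  have h3 : (r ^ M - 1) / (r - 1) ≤ (1 - r)⁻¹ := by
    have h4 : (r ^ M - 1) / (r - 1) = (1 - r ^ M) / (1 - r) := by
      rw [← neg_sub, ← neg_sub 1 r, neg_div_neg_eq]
    rw [h4, inv_eq_one_div]
    apply div_le_div_of_nonneg_right _ (by linarith)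
    have := pow_nonneg hr0.le M
    linarith
  have h5 : r * (1 - r)⁻¹ ≤ z⁻¹ := by
    rw [← div_eq_mul_inv, div_le_iff₀ (by linarith), inv_mul_eq_div, le_div_iff₀ hz]
    nlinarith
  exact (mul_le_mul_of_nonneg_left h3 hr0.le).trans h5

/-- partial sums of the series from above -/
lemma part_le {v : ℕ → ℝ} {s C : ℝ} (hs : 0 < s) (hC : 0 ≤ C) (h : ∀ k : ℕ, ∑ i ∈ range (k + 1), v i ≤ C * ((k : ℝ) + 1) ^ s)
    (hv : ∀ k, 0 ≤ v k) {y : ℝ} (hy0 : 0 ≤ y) (hy1 : y < 1) (M : ℕ) :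
    ∑ k ∈ range M, v k * y ^ k ≤ 3 * (C * (Real.exp 1 * (2 * s) ^ s)) * ((1 - y)⁻¹) ^ s := by
  have h1y : 0 < 1 - y := by linarith
  obtain ⟨K, hK⟩ : ∃ K : ℝ, K = Real.exp 1 * (2 * s) ^ s * ((1 - y)⁻¹) ^ s := ⟨_, rfl⟩
  have hK0 : 0 < K := by rw [hK]; positivity
  have h1 : ∑ k ∈ range M, (∑ i ∈ range (k + 1), v i) * y ^ k ≤ C * K * (2 * (1 - y)⁻¹) := by
    calc ∑ k ∈ range M, (∑ i ∈ range (k + 1), v i) * y ^ k ≤
        ∑ k ∈ range M, C * K * Real.exp (-(((k : ℝ) + 1) * ((1 - y) / 2))) := by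
          refine sum_le_sum fun k _ => ?_
          have h2 := term_le hs hy0 hy1 k
          rw [← hK] at h2
          calc (∑ i ∈ range (k + 1), v i) * y ^ k ≤ C * ((k : ℝ) + 1) ^ s * y ^ k :=
                mul_le_mul_of_nonneg_right (h k) (by positivity)
            _ = C * (((k : ℝ) + 1) ^ s * y ^ k) := by ring
            _ ≤ C * (K * Real.exp (-(((k : ℝ) + 1) * (1 - y) / 2))) := mul_le_mul_of_nonneg_left h2 hC
            _ = _ := by
                rw [mul_div_assoc]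
                ring
      _ = C * K * ∑ k ∈ range M, Real.exp (-(((k : ℝ) + 1) * ((1 - y) / 2))) := by rw [mul_sum]
      _ ≤ C * K * ((1 - y) / 2)⁻¹ := mul_le_mul_of_nonneg_left (geo_le (by positivity) M) (by positivity)
      _ = _ := by rw [inv_div]; ring
  have h2 : (∑ i ∈ range M, v i) * y ^ M ≤ C * K := by
    have h3 : ∑ i ∈ range M, v i ≤ ∑ i ∈ range (M + 1), v i := by
      rw [sum_range_succ]
      have := hv M
      linarith
    have h4 := term_le hs hy0 hy1 M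
    rw [← hK] at h4
    have h5 : Real.exp (-(((M : ℝ) + 1) * (1 - y) / 2)) ≤ 1 := by
      apply Real.exp_le_one_iff.2
      have : 0 ≤ ((M : ℝ) + 1) * (1 - y) / 2 := by positivity
      linarith
    calc (∑ i ∈ range M, v i) * y ^ M ≤ C * ((M : ℝ) + 1) ^ s * y ^ M :=
          mul_le_mul_of_nonneg_right (h3.trans (h M)) (by positivity)
      _ = C * (((M : ℝ) + 1) ^ s * y ^ M) := by ring
      _ ≤ C * (K * Real.exp (-(((M : ℝ) + 1) * (1 - y) / 2))) := mul_le_mul_of_nonneg_left h4 hC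
      _ ≤ C * (K * 1) := by gcongr
      _ = C * K := by ring
  rw [parts]
  have h3 : (1 - y) * ∑ k ∈ range M, (∑ i ∈ range (k + 1), v i) * y ^ k ≤ 2 * (C * K) := by
    calc (1 - y) * ∑ k ∈ range M, (∑ i ∈ range (k + 1), v i) * y ^ k ≤ (1 - y) * (C * K * (2 * (1 - y)⁻¹)) :=
          mul_le_mul_of_nonneg_left h1 h1y.le
      _ = _ := by field_simp
  calc _ ≤ 2 * (C * K) + C * K := add_le_add h3 h2
    _ = _ := by
        rw [hK]
        ring

/-- **the Abelian statement** -/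
theorem main {v : ℕ → ℝ} {g : ℝ} (hg : 0 < g) (hv : ∀ k, 0 ≤ v k) (hv0 : 1 ≤ v 0)
    (hup : ∀ ε : ℝ, 0 < ε → ∃ C : ℝ, ∀ n : ℕ, 1 ≤ n → ∑ k ∈ range (n + 1), v k ≤ C * (n : ℝ) ^ (g + ε))
    (hlo : ∀ ε : ℝ, 0 < ε → ∃ c : ℝ, 0 < c ∧ ∀ n : ℕ, 1 ≤ n → c * (n : ℝ) ^ (g - ε) ≤ ∑ k ∈ range (n + 1), v k)
    {ε : ℝ} (hε : 0 < ε) : ∃ C : ℝ, 0 < C ∧ ∀ y : ℝ, 0 ≤ y → y < 1 → Summable (fun k => v k * y ^ k) ∧
      C⁻¹ * ((1 - y)⁻¹) ^ (g - ε) ≤ ∑' k, v k * y ^ k ∧ ∑' k, v k * y ^ k ≤ C * ((1 - y)⁻¹) ^ (g + ε) := by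
  obtain ⟨C1, hC1⟩ := hup ε hε
  obtain ⟨e, he⟩ : ∃ e : ℝ, e = min ε (g / 2) := ⟨_, rfl⟩
  have he0 : 0 < e := by rw [he]; exact lt_min hε (by positivity)
  have he1 : e ≤ ε := by rw [he]; exact min_le_left _ _
  have he2 : e ≤ g / 2 := by rw [he]; exact min_le_right _ _
  obtain ⟨c, hc, hlow⟩ := hlo e he0
  obtain ⟨s, hs⟩ : ∃ s : ℝ, s = g + ε := ⟨_, rfl⟩
  rw [← hs] at hC1
  have hs0 : 0 < s := by rw [hs]; positivity
  obtain ⟨B, hB⟩ : ∃ B : ℝ, B = max |C1| (v 0) := ⟨_, rfl⟩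
  have hB1 : |C1| ≤ B := by rw [hB]; exact le_max_left _ _
  have hB2 : v 0 ≤ B := by rw [hB]; exact le_max_right _ _
  have hB0 : 0 < B := by linarith
  have hbd : ∀ k : ℕ, ∑ i ∈ range (k + 1), v i ≤ B * ((k : ℝ) + 1) ^ s := by
    intro k
    rcases Nat.eq_zero_or_pos k with h0 | h0
    · subst h0
      rw [zero_add, sum_range_one, Nat.cast_zero, zero_add, Real.one_rpow, mul_one]
      exact hB2
    · refine (hC1 k h0).trans ?_
      have h1 : (k : ℝ) ^ s ≤ ((k : ℝ) + 1) ^ s := Real.rpow_le_rpow (by positivity) (by linarith) hs0.le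
      calc C1 * (k : ℝ) ^ s ≤ |C1| * (k : ℝ) ^ s := mul_le_mul_of_nonneg_right (le_abs_self _) (by positivity)
        _ ≤ _ := mul_le_mul hB1 h1 (by positivity) hB0.le
  obtain ⟨D, hD⟩ : ∃ D : ℝ, D = 3 * (B * (Real.exp 1 * (2 * s) ^ s)) := ⟨_, rfl⟩
  have hD0 : 0 < D := by rw [hD]; positivity
  obtain ⟨c', hc'⟩ : ∃ c' : ℝ, c' = min (Real.exp (-2) * c / 2 ^ g) (1 / 2 ^ g) := ⟨_, rfl⟩
  have hc'0 : 0 < c' := by rw [hc']; exact lt_min (by positivity) (by positivity)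
  have hc'1 : c' ≤ Real.exp (-2) * c / 2 ^ g := by rw [hc']; exact min_le_left _ _
  have hc'2 : c' ≤ 1 / 2 ^ g := by rw [hc']; exact min_le_right _ _
  refine ⟨max D c'⁻¹, lt_max_of_lt_left hD0, fun y hy0 hy1 => ?_⟩
  have h1y : 0 < 1 - y := by linarith
  have hN1 : 1 ≤ (1 - y)⁻¹ := (one_le_inv₀ h1y).2 (by linarith)
  have hN0 : 0 < (1 - y)⁻¹ := by linarith
  have hnn : ∀ k, 0 ≤ v k * y ^ k := fun k => mul_nonneg (hv k) (by positivity)
  have hpart : ∀ M, ∑ k ∈ range M, v k * y ^ k ≤ D * ((1 - y)⁻¹) ^ s := by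
    intro M
    rw [hD]
    exact part_le hs0 hB0.le hbd hv hy0 hy1 M
  have hsum : Summable (fun k => v k * y ^ k) := summable_of_sum_range_le hnn hpart
  refine ⟨hsum, ?_, ?_⟩
  · -- lower bound
    have hCi : (max D c'⁻¹)⁻¹ ≤ c' := by
      rw [inv_le_comm₀ (lt_max_of_lt_left hD0) hc'0]
      exact le_max_right _ _
    have h1 : ((1 - y)⁻¹) ^ (g - ε) ≤ ((1 - y)⁻¹) ^ (g - e) := Real.rpow_le_rpow_of_exponent_le hN1 (by linarith)
    have h2 : (max D c'⁻¹)⁻¹ * ((1 - y)⁻¹) ^ (g - ε) ≤ c' * ((1 - y)⁻¹) ^ (g - e) :=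
      mul_le_mul hCi h1 (by positivity) hc'0.le
    refine h2.trans ?_
    have h2g : (2 : ℝ) ^ (g - e) ≤ 2 ^ g := Real.rpow_le_rpow_of_exponent_le (by norm_num) (by linarith)
    rcases lt_or_ge y (1 / 2) with hy | hy
    · have h3 : (1 - y)⁻¹ ≤ 2 := by
        rw [inv_le_comm₀ h1y (by norm_num)]
        norm_num
        linarith
      have h4 : ((1 - y)⁻¹) ^ (g - e) ≤ 2 ^ g := (Real.rpow_le_rpow hN0.le h3 (by linarith)).trans h2g
      have h5 : v 0 * y ^ 0 ≤ ∑' k, v k * y ^ k := hsum.le_tsum 0 fun k _ => hnn k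
      rw [pow_zero, mul_one] at h5
      calc c' * ((1 - y)⁻¹) ^ (g - e) ≤ 1 / 2 ^ g * 2 ^ g := mul_le_mul hc'2 h4 (by positivity) (by positivity)
        _ = 1 := by field_simp
        _ ≤ _ := hv0.trans h5
    · obtain ⟨n, hn⟩ : ∃ n : ℕ, n = ⌊(1 - y)⁻¹⌋₊ := ⟨_, rfl⟩
      have hn1 : 1 ≤ n := by
        rw [hn]
        exact Nat.le_floor (by exact_mod_cast hN1)
      have hnR : (1 : ℝ) ≤ n := by exact_mod_cast hn1
      have hnle : (n : ℝ) ≤ (1 - y)⁻¹ := by rw [hn]; exact Nat.floor_le hN0.le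
      have hnge : (1 - y)⁻¹ ≤ 2 * n := by
        have := (Nat.lt_floor_add_one ((1 - y)⁻¹)).le
        rw [← hn] at this
        linarith
      have hyp : 0 < y := by linarith
      have hyn : Real.exp (-2) ≤ y ^ n := by
        have h3 : 1 - y⁻¹ ≤ Real.log y := Real.one_sub_inv_le_log_of_pos hyp
        have h4 : y ^ n = Real.exp (n * Real.log y) := by
          rw [mul_comm, ← Real.rpow_natCast, Real.rpow_def_of_pos hyp]
        rw [h4]
        apply Real.exp_le_exp.2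
        have h5 : (n : ℝ) * (1 - y) ≤ 1 := by
          calc (n : ℝ) * (1 - y) ≤ (1 - y)⁻¹ * (1 - y) := mul_le_mul_of_nonneg_right hnle h1y.le
            _ = 1 := inv_mul_cancel₀ h1y.ne'
        have h6 : -2 ≤ (n : ℝ) * (1 - y⁻¹) := by
          have h7 : (n : ℝ) * (1 - y⁻¹) = -((n : ℝ) * (1 - y) * y⁻¹) := by
            field_simp
            ring
          rw [h7]
          have h8 : y⁻¹ ≤ 2 := by
            rw [inv_le_comm₀ hyp (by norm_num)]
            linarith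
          have h9 : 0 ≤ (n : ℝ) * (1 - y) := by positivity
          have h10 : 0 < y⁻¹ := by positivity
          nlinarith
        have h11 : (n : ℝ) * (1 - y⁻¹) ≤ n * Real.log y := mul_le_mul_of_nonneg_left h3 (by positivity)
        linarith
      have h3 : ∑ k ∈ range (n + 1), v k * y ^ k ≤ ∑' k, v k * y ^ k := hsum.sum_le_tsum _ fun k _ => hnn k
      have h4 : (∑ k ∈ range (n + 1), v k) * y ^ n ≤ ∑ k ∈ range (n + 1), v k * y ^ k := by
        rw [sum_mul]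
        refine sum_le_sum fun k hk => mul_le_mul_of_nonneg_left ?_ (hv k)
        rw [mem_range] at hk
        exact pow_le_pow_of_le_one hy0 hy1.le (by omega)
      have h5 := hlow n hn1
      have h6 : ((1 - y)⁻¹) ^ (g - e) ≤ 2 ^ g * (n : ℝ) ^ (g - e) := by
        calc ((1 - y)⁻¹) ^ (g - e) ≤ (2 * n) ^ (g - e) := Real.rpow_le_rpow hN0.le hnge (by linarith)
          _ = 2 ^ (g - e) * (n : ℝ) ^ (g - e) := Real.mul_rpow (by norm_num) (by linarith)
          _ ≤ _ := mul_le_mul_of_nonneg_right h2g (by positivity)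
      calc c' * ((1 - y)⁻¹) ^ (g - e) ≤ Real.exp (-2) * c / 2 ^ g * (2 ^ g * (n : ℝ) ^ (g - e)) :=
            mul_le_mul hc'1 h6 (by positivity) (by positivity)
        _ = c * (n : ℝ) ^ (g - e) * Real.exp (-2) := by field_simp
        _ ≤ (∑ k ∈ range (n + 1), v k) * y ^ n := mul_le_mul h5 hyn (by positivity) (sum_nonneg fun k _ => hv k)
        _ ≤ _ := h4.trans h3
  · -- upper bound
    have h1 : ∑' k, v k * y ^ k ≤ D * ((1 - y)⁻¹) ^ s := Real.tsum_le_of_sum_range_le hnn hpart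
    rw [← hs]
    exact h1.trans (mul_le_mul_of_nonneg_right (le_max_left _ _) (by positivity))

/-- the logarithmic limit -/
theorem lim {f : ℝ → ℝ} {g : ℝ} (h : ∀ ε : ℝ, 0 < ε → ∃ C : ℝ, 0 < C ∧ ∀ y : ℝ, 0 ≤ y → y < 1 →
      C⁻¹ * ((1 - y)⁻¹) ^ (g - ε) ≤ f y ∧ f y ≤ C * ((1 - y)⁻¹) ^ (g + ε)) :
    Filter.Tendsto (fun y => Real.log (f y) / Real.log ((1 - y)⁻¹)) (nhdsWithin 1 (Set.Iio 1)) (nhds g) := by
  rw [Metric.tendsto_nhdsWithin_nhds]
  intro η hη
  obtain ⟨C, hC, hf⟩ := h (η / 2) (by positivity)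
  -- log ((1 - y)⁻¹) is large near 1
  obtain ⟨L, hL⟩ : ∃ L : ℝ, L = 2 * |Real.log C| / η + 1 := ⟨_, rfl⟩
  have hL0 : 0 < L := by rw [hL]; positivity
  refine ⟨min (1 / 2) (Real.exp (-L)), lt_min (by norm_num) (Real.exp_pos _), fun y hy1 hy2 => ?_⟩
  rw [Set.mem_Iio] at hy1
  rw [Real.dist_eq, abs_sub_comm, abs_of_pos (by linarith)] at hy2
  have hyh : 1 - y < 1 / 2 := lt_of_lt_of_le hy2 (min_le_left _ _)
  have hye : 1 - y < Real.exp (-L) := lt_of_lt_of_le hy2 (min_le_right _ _)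
  have h1y : 0 < 1 - y := by linarith
  obtain ⟨f1, f2⟩ := hf y (by linarith) hy1
  obtain ⟨l, hl⟩ : ∃ l : ℝ, l = Real.log ((1 - y)⁻¹) := ⟨_, rfl⟩
  have hlL : L < l := by
    rw [hl, Real.log_inv]
    have := Real.log_lt_log h1y hye
    rw [Real.log_exp] at this
    linarith
  have hl0 : 0 < l := by linarith
  have hN0 : 0 < (1 - y)⁻¹ := by positivity
  have hf0 : 0 < f y := lt_of_lt_of_le (by positivity) f1
  have g1 : -Real.log C + (g - η / 2) * l ≤ Real.log (f y) := by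
    have := Real.log_le_log (by positivity) f1
    rwa [Real.log_mul (by positivity) (by positivity), Real.log_inv, Real.log_rpow hN0, ← hl] at this
  have g2 : Real.log (f y) ≤ Real.log C + (g + η / 2) * l := by
    have := Real.log_le_log hf0 f2
    rwa [Real.log_mul (by positivity) (by positivity), Real.log_rpow hN0, ← hl] at this
  have hCl : |Real.log C| < η / 2 * l := by
    have h3 : 2 * |Real.log C| / η < l := by
      rw [hL] at hlL
      linarith
    rw [div_lt_iff₀ hη] at h3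
    linarith
  have hC1 := le_abs_self (Real.log C)
  have hC2 := neg_abs_le (Real.log C)
  have k1 : g - η < Real.log (f y) / l := by
    rw [lt_div_iff₀ hl0]
    nlinarith
  have k2 : Real.log (f y) / l < g + η := by
    rw [div_lt_iff₀ hl0]
    nlinarith
  rw [← hl, Real.dist_eq, abs_lt]
  constructor <;> linarith

end Sus

end BAR

end HexObs
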