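import Pool.Agent.BAR.PwCount
import Pool.Agent.NUX.Br1

/-!
BAR: word without a cut (reversed), bridge, word without a cut: the joined words, counted by the number of letters.
-/

set_option autoImplicit false

namespace HexObs

open Complex Finset ENNReal

namespace BAR

/-- the end of a bridge is a cut position -/
lemma cutP_cat {h : ℕ} (hh : 1 ≤ h) {v s : List Bool} (hv : v ∈ Brd h) (hs : Pos s) : CutP (v ++ s) v.length := by
  obtain ⟨v1, _, v3, v4⟩ := mem_Brd.1 hv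
  have h1 : 1 ≤ v.length := by
    by_contra hc
    have h0 : v.length = 0 := by omega
    rw [h0, lev_zero] at v4
    omega
  refine ⟨h1, by rw [List.length_append]; omega, ?_, fun i hi => ?_, fun i hi hi' => ?_⟩
  · rw [dx_append le_rfl]
    exact v3
  · rw [at_cut hv, lev_append (by omega)]
    rcases Nat.eq_zero_or_pos i with h0 | h0
    · rw [h0, lev_zero]
      positivity
    · exact (v1 i h0 hi).2
  · rw [at_cut hv]
    exact beyond hv hs hi hi'

lemma HpN_SSt {n : ℕ} {t : List Bool} (ht : t ∈ HpN n) : t ∈ SSt n := by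
  obtain ⟨hl, hp, hi⟩ := HpN_iff.1 ht
  refine mem_SSt.2 ⟨fun i h1 h2 => ⟨hp i h1 h2, ?_⟩, hi⟩
  have h3 : ∀ j : ℕ, lev t j ≤ 3 * j := by
    intro j
    induction j with
    | zero => rw [lev_zero]; norm_num
    | succ j ih =>
      have h4 := lev_succ t j
      have h5 : ∀ d ∈ dirs, ip d up ≤ 2 := by decide
      have h6 := h5 _ (dx_mem upd t j)
      push_cast
      omega
  have h4 := h3 i
  have h5 : (i : ℤ) ≤ n := by exact_mod_cast (by omega : i ≤ n)
  omega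

lemma cat_HpN {r j l : ℕ} {c s : List Bool} (hc : c ∈ Brd r) (hl : c.length = j) (hs : s ∈ HpN l) :
    c ++ s ∈ HpN (j + l) := by
  have h1 := SSt_cat hc (HpN_SSt hs)
  exact HpN_iff.2 ⟨by rw [List.length_append, hl, (HpN_iff.1 hs).1], pos_SSt h1, (mem_SSt.1 h1).2⟩

lemma gf_HpN (n : ℕ) : gf (HpN n) = ENNReal.ofReal (cH n * xc ^ n) := by
  have h1 : ((HpN_fin n).toFinset : Set (List Bool)) = HpN n := Set.Finite.coe_toFinset _
  rw [← h1, gf_finset]
  congr 1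
  have h2 : ∀ t ∈ (HpN_fin n).toFinset, xc ^ t.length = xc ^ n := by
    intro t ht
    rw [Set.Finite.mem_toFinset] at ht
    rw [ht.1]
  rw [Finset.sum_congr rfl h2, Finset.sum_const, nsmul_eq_mul]
  congr 2
  rw [cH, Set.ncard_eq_toFinset_card _ (HpN_fin n)]

/-- **bridges in front of words without a cut** -/
theorem conv_cH (m : ℕ) : ∑ j ∈ (Finset.range (m + 1)).filter (fun j => 2 * j ≤ m),
    BrL.ub j * ((cI (m - 2 * j) : ℝ) * xc ^ (m - 2 * j)) ≤ (cH m : ℝ) * xc ^ m := by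
  have hx := xc_pos
  obtain ⟨P, hP⟩ : ∃ P : ℕ → Set (List Bool), P = fun j =>
    {w | ∃ c ∈ BrL.BLs (2 * j), ∃ s ∈ HiN (m - 2 * j), w = c ++ s} := ⟨_, rfl⟩
  have key : ∀ r r' i j : ℕ, ∀ c s c' s' : List Bool, r ≤ r' → c ∈ Brd r → c' ∈ Brd r' → c.length = 2 * i →
      c'.length = 2 * j → s ∈ HiN (m - 2 * i) → s' ∈ HiN (m - 2 * j) → c ++ s = c' ++ s' → c = c' ∧ s = s' := by
    intro r r' i j c s c' s' hr hc hc' hl hl' hs hs' h
    obtain ⟨v, hv, h2, h3⟩ := nested hc hc' (HpN_iff.1 hs.1).2.1 (HpN_iff.1 hs'.1).2.1 hr h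
    rcases Nat.eq_zero_or_pos (r' - r) with h0 | h0
    · rw [h0, Brd_zero] at hv
      have h4 : v = [] := hv
      rw [h4, List.append_nil] at h2
      rw [h4, List.nil_append] at h3
      exact ⟨h2.symm, h3⟩
    · exfalso
      have h5 := cutP_cat h0 hv (HpN_iff.1 hs'.1).2.1
      rw [← h3, ← mem_cuts, hs.2] at h5
      exact absurd h5 (Finset.notMem_empty _)
  have key' : ∀ i j : ℕ, ∀ c s c' s' : List Bool, c ∈ BrL.BLs (2 * i) → c' ∈ BrL.BLs (2 * j) →
      s ∈ HiN (m - 2 * i) → s' ∈ HiN (m - 2 * j) → c ++ s = c' ++ s' → c = c' ∧ s = s' := by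
    rintro i j c s c' s' ⟨⟨r, hc⟩, hl⟩ ⟨⟨r', hc'⟩, hl'⟩ hs hs' h
    rcases Nat.le_total r r' with hr | hr
    · exact key r r' i j c s c' s' hr hc hc' hl hl' hs hs' h
    · obtain ⟨h1, h2⟩ := key r' r j i c' s' c s hr hc' hc hl' hl hs' hs h.symm
      exact ⟨h1.symm, h2.symm⟩
  have h1 : ∀ j, gf (BrL.BLs (2 * j)) * gf (HiN (m - 2 * j)) ≤ gf (P j) := by
    intro j
    rw [hP]
    refine mul_le_gf (fun a ha b hb => ⟨a, ha, b, hb, rfl⟩) ?_
    intro a ha b hb a' ha' b' hb' h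
    exact (key' j j a b a' b' ha ha' hb hb' h).1
  have h2 : ∑ j ∈ (Finset.range (m + 1)).filter (fun j => 2 * j ≤ m), gf (BrL.BLs (2 * j)) * gf (HiN (m - 2 * j)) ≤
      gf (HpN m) := by
    refine (Finset.sum_le_sum fun j _ => h1 j).trans ((gf_bi_eq _ _ ?_).trans (gf_mono ?_))
    · intro i j w hi hj
      rw [hP] at hi hj
      obtain ⟨c, hc, s, hs, hw⟩ := hi
      obtain ⟨c', hc', s', hs', hw'⟩ := hj
      have h3 := (key' i j c s c' s' hc hc' hs hs' (hw ▸ hw')).1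
      have h4 := hc.2
      have h5 := hc'.2
      rw [← h3] at h5
      omega
    · intro w hw
      rw [Set.mem_iUnion₂] at hw
      obtain ⟨j, hj, hw⟩ := hw
      rw [hP] at hw
      obtain ⟨c, ⟨⟨r, hc⟩, hl⟩, s, hs, hw⟩ := hw
      rw [Finset.mem_filter] at hj
      have h3 := cat_HpN hc hl hs.1
      rw [hw]
      rwa [show 2 * j + (m - 2 * j) = m by omega] at h3
  have h3 : ∀ j, gf (BrL.BLs (2 * j)) * gf (HiN (m - 2 * j)) =
      ENNReal.ofReal (BrL.ub j * ((cI (m - 2 * j) : ℝ) * xc ^ (m - 2 * j))) := by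
    intro j
    rw [ENNReal.ofReal_mul (by unfold BrL.ub; exact ENNReal.toReal_nonneg), gf_HiN]
    congr 1
    unfold BrL.ub
    exact (ENNReal.ofReal_toReal (BrL.BLs_ne_top _)).symm
  rw [Finset.sum_congr rfl fun j _ => h3 j, gf_HpN, ← ENNReal.ofReal_sum_of_nonneg] at h2
  · rw [ENNReal.ofReal_le_ofReal_iff (by positivity)] at h2
    exact h2
  · intro j _
    refine mul_nonneg (by unfold BrL.ub; exact ENNReal.toReal_nonneg) (by positivity)

/-- **the triple convolution** -/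
theorem conv_cS (n : ℕ) (F : Finset (ℕ × ℕ × ℕ)) (hF : ∀ p ∈ F, p.1 + 2 * p.2.1 + p.2.2 = n) :
    ∑ p ∈ F, ((cI (p.1 + 1) : ℝ) * xc ^ (p.1 + 1)) * (BrL.ub p.2.1 * ((cI p.2.2 : ℝ) * xc ^ p.2.2)) ≤
      12 * ((cS n : ℝ) * xc ^ n) := by
  classical
  have hx := xc_pos
  have hub : ∀ j, 0 ≤ BrL.ub j := fun j => by unfold BrL.ub; exact ENNReal.toReal_nonneg
  obtain ⟨g, hg⟩ : ∃ g : ℕ × ℕ → ℝ, g = fun q => ((cI (q.1 + 1) : ℝ) * xc ^ (q.1 + 1)) *
    (BrL.ub q.2 * ((cI (n - q.1 - 2 * q.2) : ℝ) * xc ^ (n - q.1 - 2 * q.2))) := ⟨_, rfl⟩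
  obtain ⟨T, hT⟩ : ∃ T : Finset (ℕ × ℕ), T = (Finset.range (n + 1) ×ˢ Finset.range (n + 1)).filter
    (fun q => 2 * q.2 ≤ n - q.1) := ⟨_, rfl⟩
  have h1 : ∑ p ∈ F, ((cI (p.1 + 1) : ℝ) * xc ^ (p.1 + 1)) * (BrL.ub p.2.1 * ((cI p.2.2 : ℝ) * xc ^ p.2.2)) =
      ∑ q ∈ F.image (fun p => (p.1, p.2.1)), g q := by
    rw [Finset.sum_image]
    · refine Finset.sum_congr rfl fun p hp => ?_
      have h2 := hF p hp
      rw [hg]
      show _ = ((cI (p.1 + 1) : ℝ) * xc ^ (p.1 + 1)) *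
        (BrL.ub p.2.1 * ((cI (n - p.1 - 2 * p.2.1) : ℝ) * xc ^ (n - p.1 - 2 * p.2.1)))
      rw [show n - p.1 - 2 * p.2.1 = p.2.2 by omega]
    · intro p hp p' hp' h
      have h2 := hF p hp
      have h3 := hF p' hp'
      have e1 := congrArg Prod.fst h
      have e2 := congrArg Prod.snd h
      simp only at e1 e2
      refine Prod.ext e1 (Prod.ext e2 ?_)
      omega
  have h2 : ∑ q ∈ F.image (fun p => (p.1, p.2.1)), g q ≤ ∑ q ∈ T, g q := by
    refine Finset.sum_le_sum_of_subset_of_nonneg ?_ fun q _ _ => ?_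
    · intro q hq
      obtain ⟨p, hp, rfl⟩ := Finset.mem_image.1 hq
      have h3 := hF p hp
      rw [hT, Finset.mem_filter, Finset.mem_product, Finset.mem_range, Finset.mem_range]
      refine ⟨⟨?_, ?_⟩, ?_⟩ <;> simp only <;> omega
    · rw [hg]
      exact mul_nonneg (by positivity) (mul_nonneg (hub _) (by positivity))
  have h3 : ∑ q ∈ T, g q = ∑ k ∈ Finset.range (n + 1), ((cI (k + 1) : ℝ) * xc ^ (k + 1)) *
      ∑ j ∈ (Finset.range (n + 1)).filter (fun j => 2 * j ≤ n - k),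
        BrL.ub j * ((cI (n - k - 2 * j) : ℝ) * xc ^ (n - k - 2 * j)) := by
    rw [hT, Finset.sum_filter, Finset.sum_product]
    refine Finset.sum_congr rfl fun k _ => ?_
    rw [← Finset.sum_filter, Finset.mul_sum]
    exact Finset.sum_congr rfl fun j _ => by rw [hg]
  have h4 : ∀ k ∈ Finset.range (n + 1), ∑ j ∈ (Finset.range (n + 1)).filter (fun j => 2 * j ≤ n - k),
      BrL.ub j * ((cI (n - k - 2 * j) : ℝ) * xc ^ (n - k - 2 * j)) ≤ (cH (n - k) : ℝ) * xc ^ (n - k) := by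
    intro k _
    refine le_trans (le_of_eq ?_) (conv_cH (n - k))
    refine Finset.sum_congr ?_ fun _ _ => rfl
    ext j
    rw [Finset.mem_filter, Finset.mem_filter, Finset.mem_range, Finset.mem_range]
    omega
  have h5 : ∑ k ∈ Finset.range (n + 1), (cI (k + 1) : ℝ) * (cH (n - k) : ℝ) ≤ 12 * cS n := by
    exact_mod_cast count_glue n
  rw [h1]
  refine h2.trans (h3.le.trans ?_)
  calc ∑ k ∈ Finset.range (n + 1), ((cI (k + 1) : ℝ) * xc ^ (k + 1)) *
        ∑ j ∈ (Finset.range (n + 1)).filter (fun j => 2 * j ≤ n - k),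
          BrL.ub j * ((cI (n - k - 2 * j) : ℝ) * xc ^ (n - k - 2 * j)) ≤
      ∑ k ∈ Finset.range (n + 1), (cI (k + 1) : ℝ) * (cH (n - k) : ℝ) * xc ^ (n + 1) := by
        refine Finset.sum_le_sum fun k hk => ?_
        have h6 := h4 k hk
        rw [Finset.mem_range] at hk
        calc _ ≤ ((cI (k + 1) : ℝ) * xc ^ (k + 1)) * ((cH (n - k) : ℝ) * xc ^ (n - k)) :=
              mul_le_mul_of_nonneg_left h6 (by positivity)
          _ = (cI (k + 1) : ℝ) * (cH (n - k) : ℝ) * (xc ^ (k + 1) * xc ^ (n - k)) := by ring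
          _ = _ := by rw [← pow_add, show k + 1 + (n - k) = n + 1 by omega]
    _ = (∑ k ∈ Finset.range (n + 1), (cI (k + 1) : ℝ) * (cH (n - k) : ℝ)) * xc ^ (n + 1) := by
        rw [Finset.sum_mul]
    _ ≤ 12 * cS n * xc ^ (n + 1) := mul_le_mul_of_nonneg_right h5 (by positivity)
    _ = 12 * ((cS n : ℝ) * xc ^ n) * xc := by ring
    _ ≤ 12 * ((cS n : ℝ) * xc ^ n) * 1 := by
        apply mul_le_mul_of_nonneg_left _ (by positivity)
        linarith [xc_le]
    _ = _ := mul_one _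

end BAR

end HexObs
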