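import Pool.Agent.BAR.TypA
import Pool.Agent.BAR.TypB
import Pool.Agent.BAR.PwLowG
import Pool.Agent.NUX.Br3

/-!
BAR: at `N ^ (1 - o(1))` of the lengths up to `N` the number of the walks has the exponent `11 / 32`, from both sides.
-/

set_option autoImplicit false

namespace HexObs

namespace BAR

open Finset SDN T2 Filter

open scoped ENNReal Topology

lemma cS_one_pos : 0 < cS 1 := by
  have h1 : 1 ≤ cI 1 := one_le_cI_one
  have h2 : cI 1 ≤ cH 1 := Set.ncard_le_ncard (fun _ h => h.1) (HpN_fin 1)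
  have h3 := count_glue 1
  have h4 : cI (0 + 1) * cH (1 - 0) ≤ ∑ k ∈ Finset.range (1 + 1), cI (k + 1) * cH (1 - k) :=
    Finset.single_le_sum (f := fun k => cI (k + 1) * cH (1 - k)) (fun _ _ => Nat.zero_le _) (by simp)
  have h5 : 1 ≤ cI (0 + 1) * cH (1 - 0) := Nat.mul_pos h1 (le_trans h1 h2)
  omega

/-- many lengths with many walks, general exponent of the half plane walks -/
theorem typ_lowG (hU : Pool.Agent.NUF.NumUp) (hN : Pool.Agent.NUF.NFLow) {e : ℝ} (h1e : 13 / 12 ≤ e) (h2e : e ≤ 3 / 2)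
    (hL : HLow e) {ε : ℝ} (hε : 0 < ε) : ∃ c : ℝ, 0 < c ∧ ∀ N : ℕ, 1 ≤ N → c * (N : ℝ) ^ (1 - ε) ≤
      (((Icc 1 N).filter fun n : ℕ => c * (n : ℝ) ^ (3 / 2 * e - 25 / 16 - ε) ≤ uB n).card : ℝ) := by
  obtain ⟨h2, h1, h3, -, -⟩ := BrL.bridges_letters
    (fun _ ha => Pool.Agent.NUF.meanLen_of_ZZ (Pool.Agent.NUF.zzUp_of hU) ha) (Pool.Agent.NUF.longWalks_third hN)
  have hσ : 2 * ((e - 3 / 4) * (3 / 4)) + 9 / 16 - 1 = 3 / 2 * e - 25 / 16 := by ring
  have key := Typ.typ_abs (a := fun n => (cI n : ℝ) * xc ^ n) (u := BrL.ub) (s := uB) (D := 12)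
    (σ := (e - 3 / 4) * (3 / 4)) (β := 9 / 16) (by norm_num) (by norm_num) (by rw [hσ]; linarith)
    (fun n => sI_term n) (fun n => by unfold BrL.ub; exact ENNReal.toReal_nonneg) ?_ (by norm_num) ?_ ?_ h1 h2 h3 hε
  · obtain ⟨c, hc, h⟩ := key
    refine ⟨c, hc, fun N hN => ?_⟩
    have h4 := h N hN
    rw [hσ] at h4
    exact h4
  · refine lt_of_lt_of_le ?_ (term_bounds 1).1
    have hx := xc_pos
    have := cS_one_pos
    positivity
  · intro n F hF
    refine (conv_cS n F hF).trans ?_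
    exact mul_le_mul_of_nonneg_left (term_bounds n).1 (by norm_num)
  · intro ε' hε'
    obtain ⟨c, hc, h⟩ := sI_lowG hU h1e h2e hL hε'
    exact ⟨c, hc, h⟩

/-- **the exponent `11 / 32` at `N ^ (1 - ε)` of the lengths up to `N`, both sides** -/
theorem typ_two (hU : Pool.Agent.NUF.NumUp) (hN : Pool.Agent.NUF.NFLow) (HU : HUp (61 / 48)) (HL : HLow (61 / 48))
    {ε : ℝ} (hε : 0 < ε) : ∃ C : ℝ, 0 < C ∧ ∀ N : ℕ, 1 ≤ N → C⁻¹ * (N : ℝ) ^ (1 - ε) ≤
      (((Icc 1 N).filter fun n : ℕ => C⁻¹ * (n : ℝ) ^ (11 / 32 - ε) ≤ uB n ∧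
        uB n ≤ C * (n : ℝ) ^ (11 / 32 + ε)).card : ℝ) := by
  classical
  obtain ⟨e, he⟩ : ∃ e : ℝ, e = min ε 1 := ⟨_, rfl⟩
  have he0 : 0 < e := by rw [he]; exact lt_min hε one_pos
  have he1 : e ≤ ε := by rw [he]; exact min_le_left _ _
  have he2 : e ≤ 1 := by rw [he]; exact min_le_right _ _
  obtain ⟨c, hc, hlow⟩ := typ_lowG hU hN (e := 61 / 48) (by norm_num) (by norm_num) HL (by positivity : 0 < e / 4)
  obtain ⟨C1, hup⟩ := cum_up HU hN (by positivity : 0 < e / 32)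
  have hmu := muB_pos
  -- large N
  obtain ⟨N1, -, hN1⟩ := Typ.ev_pow (a := 1 - e / 2) (b := 1 - e / 4) (by linarith) ((2 : ℝ) ^ (1 - e / 2))
    (c := c / 6) (by positivity)
  obtain ⟨N2, -, hN2⟩ := Typ.ev_pow (a := 0) (b := 1 - e / 4) (by linarith) 1 (c := c / 6) (by positivity)
  obtain ⟨N3, -, hN3⟩ := Typ.ev_pow (a := 1 - 19 * e / 64) (b := 1 - e / 4) (by linarith)
    (|C1| * (2 : ℝ) ^ (1 - 19 * e / 64)) (c := c / 6) (by positivity)
  obtain ⟨N0, hN0⟩ : ∃ N0 : ℕ, N0 = N1 + N2 + N3 + 1 := ⟨_, rfl⟩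
  obtain ⟨C, hC⟩ : ∃ C : ℝ, C = max (2 / c) (cum N0) := ⟨_, rfl⟩
  have hCc : 2 / c ≤ C := by rw [hC]; exact le_max_left _ _
  have hCN : cum N0 ≤ C := by rw [hC]; exact le_max_right _ _
  have hC1 : 1 ≤ C := (cum_ge_one N0).trans hCN
  have hC0 : 0 < C := by linarith
  have hCi : C⁻¹ ≤ c / 2 := by
    rw [inv_le_comm₀ hC0 (by positivity), inv_div]
    exact hCc
  refine ⟨C, hC0, fun N hN' => ?_⟩
  have hNR : (1 : ℝ) ≤ N := by exact_mod_cast hN'
  have hN00 : (0 : ℝ) < N := by linarith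
  obtain ⟨A, hA⟩ : ∃ A : Finset ℕ, A = (Icc 1 N).filter fun n : ℕ =>
    c * (n : ℝ) ^ (3 / 2 * (61 / 48) - 25 / 16 - e / 4) ≤ uB n := ⟨_, rfl⟩
  have hAc : c * (N : ℝ) ^ (1 - e / 4) ≤ (A.card : ℝ) := by rw [hA]; exact hlow N hN'
  obtain ⟨G, hG⟩ : ∃ G : Finset ℕ, G = (Icc 1 N).filter fun n : ℕ => C⁻¹ * (n : ℝ) ^ (11 / 32 - ε) ≤ uB n ∧
        uB n ≤ C * (n : ℝ) ^ (11 / 32 + ε) := ⟨_, rfl⟩
  have hlowA : ∀ n ∈ A, (1 ≤ n ∧ n ≤ N) ∧ C⁻¹ * (n : ℝ) ^ (11 / 32 - ε) ≤ uB n := by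
    intro n hn
    rw [hA, mem_filter, mem_Icc] at hn
    refine ⟨hn.1, le_trans ?_ hn.2⟩
    have hn1 : (1 : ℝ) ≤ n := by exact_mod_cast hn.1.1
    refine mul_le_mul (hCi.trans (by linarith)) (Real.rpow_le_rpow_of_exponent_le hn1 ?_) (by positivity) hc.le
    linarith
  have hmain : c / 2 * (N : ℝ) ^ (1 - e / 4) ≤ (G.card : ℝ) := by
    rcases Nat.lt_or_ge N N0 with hsm | hlg
    · have hsub : A ⊆ G := by
        intro n hn
        obtain ⟨⟨h1, h2⟩, h3⟩ := hlowA n hn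
        rw [hG, mem_filter, mem_Icc]
        refine ⟨⟨h1, h2⟩, h3, ?_⟩
        have hn1 : (1 : ℝ) ≤ n := by exact_mod_cast h1
        have h4 : uB n ≤ cum N0 := by
          rw [cum_eq]
          exact single_le_sum (f := uB) (fun k _ => uB_nonneg k) (mem_range.2 (by omega))
        have h5 : (1 : ℝ) ≤ (n : ℝ) ^ (11 / 32 + ε) := Real.one_le_rpow hn1 (by linarith)
        calc uB n ≤ C := h4.trans hCN
          _ = C * 1 := (mul_one C).symm
          _ ≤ _ := mul_le_mul_of_nonneg_left h5 hC0.le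
      have h6 : (A.card : ℝ) ≤ G.card := by exact_mod_cast card_le_card hsub
      have h7 : 0 ≤ c / 2 * (N : ℝ) ^ (1 - e / 4) := by positivity
      linarith
    · obtain ⟨s, hs⟩ : ∃ s : ℝ, s = 11 / 32 + e := ⟨_, rfl⟩
      obtain ⟨B, hB⟩ : ∃ B : Finset ℕ, B = (range (N + 1)).filter (fun k : ℕ => (k : ℝ) ^ s * muB ^ k < aB k) := ⟨_, rfl⟩
      have hn2 : ((N + 1 : ℕ) : ℝ) ≤ 2 * N := by
        push_cast
        linarith
      have hn1 : (1 : ℝ) ≤ ((N + 1 : ℕ) : ℝ) := by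
        push_cast
        linarith
      obtain ⟨x, hx⟩ : ∃ x : ℝ, x = ((N + 1 : ℕ) : ℝ) := ⟨_, rfl⟩
      rw [← hx] at hn2 hn1
      have hx0 : 0 < x := by linarith
      have hBc : (B.card : ℝ) ≤ x ^ (1 - e / 2) + 1 + |C1| * x ^ (1 - 19 * e / 64) := by
        have h1 := few_card (K := x ^ (1 - e / 2)) (s := s) (n := N + 1) (by positivity) (by rw [hs]; linarith)
          (hup (N + 1) (by omega))
        rw [← hB, ← hx] at h1
        refine h1.trans ?_
        have h2 : C1 * x ^ (43 / 32 + e / 32) / (x ^ (1 - e / 2)) ^ s ≤ |C1| * x ^ (1 - 19 * e / 64) := by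
          rw [mul_div_assoc, ← Real.rpow_mul hx0.le, ← Real.rpow_sub hx0]
          refine mul_le_mul (le_abs_self C1) (Real.rpow_le_rpow_of_exponent_le hn1 ?_) (by positivity) (abs_nonneg _)
          rw [hs]
          nlinarith
        linarith
      have hsub : A \ B ⊆ G := by
        intro n hn
        rw [Finset.mem_sdiff] at hn
        obtain ⟨⟨h1, h2⟩, h3⟩ := hlowA n hn.1
        rw [hG, mem_filter, mem_Icc]
        refine ⟨⟨h1, h2⟩, h3, ?_⟩
        have hnr : (1 : ℝ) ≤ n := by exact_mod_cast h1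
        have h4 : (aB n : ℝ) ≤ (n : ℝ) ^ s * muB ^ n := by
          by_contra hcon
          push Not at hcon
          apply hn.2
          rw [hB, mem_filter, mem_range]
          exact ⟨by omega, hcon⟩
        have h5 : uB n ≤ (n : ℝ) ^ s := by
          unfold uB
          rw [div_le_iff₀ (by positivity)]
          exact h4
        have h6 : (n : ℝ) ^ s ≤ (n : ℝ) ^ (11 / 32 + ε) := by
          rw [hs]
          exact Real.rpow_le_rpow_of_exponent_le hnr (by linarith)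
        calc uB n ≤ 1 * (n : ℝ) ^ (11 / 32 + ε) := by linarith
          _ ≤ _ := mul_le_mul_of_nonneg_right hC1 (by positivity)
      have h7 : (A.card : ℝ) ≤ G.card + B.card := by
        have h8 := card_le_card hsub
        have h9 := le_card_sdiff B A
        have h10 : A.card ≤ G.card + B.card := by omega
        exact_mod_cast h10
      have g1 := hN1 N (by omega)
      have g2 := hN2 N (by omega)
      have g3 := hN3 N (by omega)
      rw [Real.rpow_zero, mul_one] at g2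
      have p1 : x ^ (1 - e / 2) ≤ (2 : ℝ) ^ (1 - e / 2) * (N : ℝ) ^ (1 - e / 2) := by
        rw [← Real.mul_rpow (by norm_num) hN00.le]
        exact Real.rpow_le_rpow hx0.le hn2 (by linarith)
      have p3 : |C1| * x ^ (1 - 19 * e / 64) ≤ |C1| * (2 : ℝ) ^ (1 - 19 * e / 64) * (N : ℝ) ^ (1 - 19 * e / 64) := by
        rw [mul_assoc, ← Real.mul_rpow (by norm_num) hN00.le]
        exact mul_le_mul_of_nonneg_left (Real.rpow_le_rpow hx0.le hn2 (by linarith)) (abs_nonneg _)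
      linarith
  have h1 : C⁻¹ * (N : ℝ) ^ (1 - ε) ≤ c / 2 * (N : ℝ) ^ (1 - e / 4) :=
    mul_le_mul hCi (Real.rpow_le_rpow_of_exponent_le hNR (by linarith)) (by positivity) (by positivity)
  rw [← hG]
  exact h1.trans hmain

end BAR

end HexObs
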