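import Pool.Agent.NUX.Ren2

/-!
BAR: many large terms of a sequence that dominates a triple convolution. The middle factor is a sequence with the
pointwise bound `n ^ (β - 1 + o(1))` and the partial sums `n ^ (β + o(1))`; of the two outer factors only the partial
sums are known, from below: `n ^ (σ - o(1))`. Then `n ^ (1 - o(1))` of the first `n` terms are at least
`n ^ (2 σ + β - 1 - o(1))`.
-/

set_option autoImplicit false

namespace HexObs

namespace BAR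

namespace Typ

open Finset

/-- eventually a power with a larger exponent beats one with a smaller exponent -/
lemma ev_pow {a b : ℝ} (h : a < b) (C : ℝ) {c : ℝ} (hc : 0 < c) :
    ∃ M0 : ℕ, 1 ≤ M0 ∧ ∀ M : ℕ, M0 ≤ M → C * (M : ℝ) ^ a ≤ c * (M : ℝ) ^ b := by
  have h1 := (tendsto_rpow_atTop (sub_pos.2 h)).comp tendsto_natCast_atTop_atTop
  obtain ⟨M0, hM0⟩ := Filter.eventually_atTop.1 (h1.eventually_ge_atTop (C / c))
  refine ⟨max M0 1, le_max_right _ _, fun M hM => ?_⟩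
  have hM1 : (0 : ℝ) < M := by exact_mod_cast (le_max_right M0 1).trans hM
  have h2 : C / c ≤ (M : ℝ) ^ (b - a) := hM0 M ((le_max_left _ _).trans hM)
  have h3 : (M : ℝ) ^ b = (M : ℝ) ^ (b - a) * (M : ℝ) ^ a := by
    rw [← Real.rpow_add hM1]
    congr 1
    ring
  rw [h3, ← mul_assoc]
  apply mul_le_mul_of_nonneg_right _ (by positivity)
  rw [div_le_iff₀ hc] at h2
  linarith

variable {a u s : ℕ → ℝ} {D : ℝ}

/-- the triples of the convolution -/
def bx (M J : ℕ) : Finset (ℕ × ℕ × ℕ) := range M ×ˢ Ioc J M ×ˢ range (M + 1)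

/-- the triples with the sum n -/
def fb (M J n : ℕ) : Finset (ℕ × ℕ × ℕ) := (bx M J).filter fun p => p.1 + 2 * p.2.1 + p.2.2 = n

/-- **the counting lemma** -/
lemma count (ha : ∀ n, 0 ≤ a n) (hu : ∀ n, 0 ≤ u n) {M J N : ℕ} (hN : 4 * M ≤ N)
    (hconv : ∀ n, ∑ p ∈ fb M J n, a (p.1 + 1) * (u p.2.1 * a p.2.2) ≤ D * s n)
    {A B U V : ℝ} (hA : A = ∑ k ∈ range M, a (k + 1)) (hB : B = ∑ l ∈ range (M + 1), a l)
    (hU : U = ∑ j ∈ Ioc J M, u j) (hV : 0 ≤ V) (hVm : ∀ j ∈ Ioc J M, u j ≤ V) {t : ℝ}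
    (ht : 0 ≤ t) (htt : (N + 1) * t ≤ A * B * U / 2) :
    A * B * U ≤ 2 * (A * B * V) * (((range (N + 1)).filter fun n => t ≤ D * s n).card : ℝ) := by
  classical
  obtain ⟨g, hg⟩ : ∃ g : ℕ × ℕ × ℕ → ℝ, g = fun p => a (p.1 + 1) * (u p.2.1 * a p.2.2) := ⟨_, rfl⟩
  have hg0 : ∀ p, 0 ≤ g p := fun p => by
    rw [hg]
    exact mul_nonneg (ha _) (mul_nonneg (hu _) (ha _))
  have htot : A * B * U = ∑ p ∈ bx M J, g p := by
    unfold bx
    rw [sum_product]
    have e1 : ∀ k, ∑ q ∈ Ioc J M ×ˢ range (M + 1), g (k, q) = a (k + 1) * (U * B) := by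
      intro k
      rw [sum_product, hU, hB, sum_mul, mul_sum]
      refine sum_congr rfl fun j _ => ?_
      rw [mul_sum, mul_sum]
      exact sum_congr rfl fun l _ => by rw [hg]
    rw [sum_congr rfl fun k _ => e1 k, ← sum_mul, ← hA]
    ring
  have hfib : ∑ n ∈ range (N + 1), ∑ p ∈ fb M J n, g p = ∑ p ∈ bx M J, g p := by
    unfold fb
    exact sum_fiberwise_of_maps_to (g := fun p : ℕ × ℕ × ℕ => p.1 + 2 * p.2.1 + p.2.2) (fun p hp => by
      unfold bx at hp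
      rw [mem_product, mem_product, mem_range, mem_Ioc, mem_range] at hp
      rw [mem_range]
      omega) _
  have hAB : A * B = ∑ q ∈ range M ×ˢ range (M + 1), a (q.1 + 1) * a q.2 := by
    rw [sum_product, hA, hB, sum_mul]
    exact sum_congr rfl fun k _ => by rw [mul_sum]
  have hmax : ∀ n, ∑ p ∈ fb M J n, g p ≤ A * B * V := by
    intro n
    have h1 : ∑ p ∈ fb M J n, g p ≤ ∑ p ∈ fb M J n, a (p.1 + 1) * a p.2.2 * V := by
      refine sum_le_sum fun p hp => ?_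
      unfold fb bx at hp
      rw [mem_filter, mem_product, mem_product] at hp
      have h2 := hVm p.2.1 hp.1.2.1
      rw [hg]
      show a (p.1 + 1) * (u p.2.1 * a p.2.2) ≤ _
      have h3 : 0 ≤ a (p.1 + 1) * a p.2.2 := mul_nonneg (ha _) (ha _)
      nlinarith
    refine h1.trans ?_
    rw [← sum_mul, hAB]
    refine mul_le_mul_of_nonneg_right ?_ hV
    have h4 : ∑ p ∈ fb M J n, a (p.1 + 1) * a p.2.2 =
        ∑ q ∈ (fb M J n).image (fun p => (p.1, p.2.2)), a (q.1 + 1) * a q.2 := by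
      rw [sum_image]
      intro p hp p' hp' h
      rw [mem_coe] at hp hp'
      unfold fb at hp hp'
      rw [mem_filter] at hp hp'
      have e1 := congrArg Prod.fst h
      have e2 := congrArg Prod.snd h
      simp only at e1 e2
      refine Prod.ext e1 (Prod.ext ?_ e2)
      omega
    rw [h4]
    refine sum_le_sum_of_subset_of_nonneg ?_ fun q _ _ => mul_nonneg (ha _) (ha _)
    intro q hq
    obtain ⟨p, hp, rfl⟩ := mem_image.1 hq
    unfold fb bx at hp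
    rw [mem_filter, mem_product, mem_product] at hp
    exact mem_product.2 ⟨hp.1.1, hp.1.2.2⟩
  have hABV : 0 ≤ A * B * V := by
    refine le_trans (sum_nonneg fun p _ => hg0 p) (hmax 0)
  obtain ⟨G, hG⟩ : ∃ G : Finset ℕ, G = (range (N + 1)).filter fun n => t ≤ D * s n := ⟨_, rfl⟩
  have hsplit : ∑ n ∈ range (N + 1), ∑ p ∈ fb M J n, g p ≤ (G.card : ℝ) * (A * B * V) + (N + 1) * t := by
    have h5 : ∀ n ∈ range (N + 1), ∑ p ∈ fb M J n, g p ≤ (if t ≤ D * s n then A * B * V else 0) + t := by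
      intro n _
      split_ifs with h
      · have := hmax n
        linarith
      · push Not at h
        have h6 := hconv n
        have h7 : ∑ p ∈ fb M J n, g p ≤ D * s n := by rw [hg]; exact h6
        linarith
    refine (sum_le_sum h5).trans ?_
    rw [sum_add_distrib, ← sum_filter, ← hG, sum_const, sum_const, card_range, nsmul_eq_mul, nsmul_eq_mul]
    push_cast
    exact le_rfl
  rw [hfib, ← htot] at hsplit
  rw [← hG]
  nlinarith

/-- the law at n ^ (1 - ε) of the first n numbers, for small ε -/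
lemma typ_small {σ β : ℝ} (hβ0 : 0 < β) (hβ1 : β < 1)
    (ha : ∀ n, 0 ≤ a n) (hu : ∀ n, 0 ≤ u n) (hs : 0 < s 1) (hD : 0 < D)
    (hconv : ∀ n, ∀ F : Finset (ℕ × ℕ × ℕ), (∀ p ∈ F, p.1 + 2 * p.2.1 + p.2.2 = n) →
      ∑ p ∈ F, a (p.1 + 1) * (u p.2.1 * a p.2.2) ≤ D * s n)
    (hlo : NUX.Lo (fun n => ∑ k ∈ range (n + 1), a k) σ)
    (hUlo : NUX.Lo (fun n => ∑ k ∈ range (n + 1), u k) β) (hUhi : NUX.Hi (fun n => ∑ k ∈ range (n + 1), u k) β)
    (hup : NUX.Hi u (β - 1)) {ε : ℝ} (hε : 0 < ε) (hε1 : ε ≤ 1) (hετ : ε ≤ 2 * σ + β - 1) :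
    ∃ c : ℝ, 0 < c ∧ ∀ N : ℕ, 1 ≤ N → c * (N : ℝ) ^ (1 - ε) ≤
      (((Icc 1 N).filter fun n : ℕ => c * (n : ℝ) ^ (2 * σ + β - 1 - ε) ≤ s n).card : ℝ) := by
  classical
  obtain ⟨τ, hτd⟩ : ∃ τ : ℝ, τ = 2 * σ + β - 1 := ⟨_, rfl⟩
  rw [← hτd] at hετ ⊢
  obtain ⟨e, he⟩ : ∃ e : ℝ, e = ε * β * (1 - β) / 8 := ⟨_, rfl⟩
  have h1β : 0 < 1 - β := by linarith
  have he0 : 0 < e := by rw [he]; positivity
  have hεβ : ε * β ≤ 1 := by nlinarith
  have he1 : e ≤ (1 - β) / 8 := by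
    rw [he]
    nlinarith
  have he2 : 8 * e ≤ ε := by
    rw [he]
    have : β * (1 - β) ≤ 1 := by nlinarith
    nlinarith
  obtain ⟨δ, hδ⟩ : ∃ δ : ℝ, δ = ε * (1 - β) / 2 := ⟨_, rfl⟩
  have hδ0 : 0 < δ := by rw [hδ]; positivity
  have hδe : δ * β = 4 * e := by rw [hδ, he]; ring
  have hδ1 : 2 * δ ≤ ε := by
    rw [hδ]
    nlinarith
  have hδ2 : δ ≤ 1 / 2 := by linarith
  obtain ⟨C1, hC1, hUh⟩ := hUhi e he0
  obtain ⟨c2, hc2, hUl⟩ := hUlo e he0
  obtain ⟨C3, hC3, hu3⟩ := hup e he0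
  obtain ⟨c4, hc4, hsI⟩ := hlo e he0
  simp only at hUh hUl hsI
  have hσe : e < σ := by
    have : σ = (τ + 1 - β) / 2 := by rw [hτd]; ring
    rw [this]
    linarith
  -- large M
  obtain ⟨M1, -, hM1⟩ := ev_pow (a := (1 - δ) * (β + e)) (b := β - e) (by nlinarith) (C1 * (2 : ℝ) ^ (β + e))
    (c := c2 / 2) (by positivity)
  obtain ⟨M2, -, hM2⟩ := ev_pow (a := 1 - δ) (b := 1) (by linarith) 2 (c := 1) one_pos
  obtain ⟨M3, -, hM3⟩ := ev_pow (a := 0) (b := σ - e) (by linarith) (2 * a 0) (c := c4) hc4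
  obtain ⟨w, hw⟩ : ∃ w : ℝ, w = β - e - (1 - δ) * (β - 1 + e) := ⟨_, rfl⟩
  have hwε : 1 - ε ≤ w := by
    rw [hw]
    nlinarith
  have hw0 : 0 < w := by
    rw [hw]
    nlinarith
  obtain ⟨c5, hc5⟩ : ∃ c5 : ℝ, c5 = c2 / (4 * C3) := ⟨_, rfl⟩
  have hc50 : 0 < c5 := by rw [hc5]; positivity
  obtain ⟨M4, -, hM4⟩ := ev_pow (a := 0) (b := w) hw0 1 (c := c5 / 2) (by positivity)
  obtain ⟨M0, hM0⟩ : ∃ M0 : ℕ, M0 = M1 + M2 + M3 + M4 + 1 := ⟨_, rfl⟩
  obtain ⟨c7, hc7⟩ : ∃ c7 : ℝ, c7 = c4 * c4 * c2 / 64 := ⟨_, rfl⟩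
  have hc70 : 0 < c7 := by rw [hc7]; positivity
  obtain ⟨c, hc⟩ : ∃ c : ℝ, c = min (min (c7 / 8 ^ (τ - ε) / D) (c5 / 2 / 8 ^ (1 - ε))) (min (s 1) (1 / (4 * M0 + 4))) :=
    ⟨_, rfl⟩
  have hc0 : 0 < c := by
    rw [hc]
    refine lt_min (lt_min (by positivity) (by positivity)) (lt_min hs (by positivity))
  have hca : c ≤ c7 / 8 ^ (τ - ε) / D := by rw [hc]; exact (min_le_left _ _).trans (min_le_left _ _)
  have hcb : c ≤ c5 / 2 / 8 ^ (1 - ε) := by rw [hc]; exact (min_le_left _ _).trans (min_le_right _ _)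
  have hcc : c ≤ s 1 := by rw [hc]; exact (min_le_right _ _).trans (min_le_left _ _)
  have hcd : c ≤ 1 / (4 * M0 + 4) := by rw [hc]; exact (min_le_right _ _).trans (min_le_right _ _)
  refine ⟨c, hc0, fun N hN => ?_⟩
  have hNR : (1 : ℝ) ≤ N := by exact_mod_cast hN
  rcases Nat.lt_or_ge N (4 * M0 + 4) with hsm | hlg
  · -- small N: the number 1
    have h1 : 1 ∈ (Icc 1 N).filter fun n : ℕ => c * (n : ℝ) ^ (τ - ε) ≤ s n := by
      rw [mem_filter, mem_Icc]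
      refine ⟨⟨le_rfl, hN⟩, ?_⟩
      rw [Nat.cast_one, Real.one_rpow, mul_one]
      exact hcc
    have h2 : (1 : ℝ) ≤ (((Icc 1 N).filter fun n : ℕ => c * (n : ℝ) ^ (τ - ε) ≤ s n).card : ℝ) := by
      exact_mod_cast card_pos.2 ⟨1, h1⟩
    refine le_trans ?_ h2
    have h3 : (N : ℝ) ^ (1 - ε) ≤ N := by
      calc (N : ℝ) ^ (1 - ε) ≤ (N : ℝ) ^ (1 : ℝ) := Real.rpow_le_rpow_of_exponent_le hNR (by linarith)
        _ = N := Real.rpow_one _
    have h4 : (N : ℝ) ≤ 4 * M0 + 4 := by exact_mod_cast hsm.le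
    calc c * (N : ℝ) ^ (1 - ε) ≤ 1 / (4 * M0 + 4) * (4 * M0 + 4) :=
          mul_le_mul hcd (h3.trans h4) (by positivity) (by positivity)
      _ = 1 := by field_simp
  · -- large N
    obtain ⟨M, hM⟩ : ∃ M : ℕ, M = N / 4 := ⟨_, rfl⟩
    have hMM : M0 + 1 ≤ M := by omega
    have hMR : (1 : ℝ) ≤ M := by exact_mod_cast (by omega : 1 ≤ M)
    have hM0' : (0 : ℝ) < M := by linarith
    have hN8 : (N : ℝ) ≤ 8 * M := by exact_mod_cast (by omega : N ≤ 8 * M)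
    have hN8' : (N : ℝ) + 1 ≤ 8 * M := by exact_mod_cast (by omega : N + 1 ≤ 8 * M)
    obtain ⟨X, hX⟩ : ∃ X : ℝ, X = (M : ℝ) ^ (1 - δ) := ⟨_, rfl⟩
    have hX1 : 1 ≤ X := by rw [hX]; exact Real.one_le_rpow hMR (by linarith)
    obtain ⟨J, hJ⟩ : ∃ J : ℕ, J = ⌈X⌉₊ := ⟨_, rfl⟩
    have hJX : X ≤ J := by rw [hJ]; exact Nat.le_ceil X
    have hJ2 : (J : ℝ) ≤ 2 * X := by
      rw [hJ]
      have := (Nat.ceil_lt_add_one (by linarith : 0 ≤ X)).le
      linarith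
    have hJM : J ≤ M := by
      have h1 := hM2 M (by omega)
      rw [← hX, Real.rpow_one, one_mul] at h1
      exact_mod_cast hJ2.trans h1
    have hJ1 : 1 ≤ J := by
      have : (1 : ℝ) ≤ J := hX1.trans hJX
      exact_mod_cast this
    obtain ⟨A, hA⟩ : ∃ A : ℝ, A = ∑ k ∈ range M, a (k + 1) := ⟨_, rfl⟩
    obtain ⟨B, hB⟩ : ∃ B : ℝ, B = ∑ l ∈ range (M + 1), a l := ⟨_, rfl⟩
    obtain ⟨U, hU⟩ : ∃ U : ℝ, U = ∑ j ∈ Ioc J M, u j := ⟨_, rfl⟩
    obtain ⟨V, hV⟩ : ∃ V : ℝ, V = C3 * (M : ℝ) ^ ((1 - δ) * (β - 1 + e)) := ⟨_, rfl⟩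
    have hV0 : 0 < V := by rw [hV]; positivity
    have hB1 : c4 * (M : ℝ) ^ (σ - e) ≤ B := by
      rw [hB]
      exact hsI M (by omega)
    have hA1 : c4 / 2 * (M : ℝ) ^ (σ - e) ≤ A := by
      have h1 : B = A + a 0 := by rw [hA, hB, sum_range_succ']
      have h2 := hM3 M (by omega)
      rw [Real.rpow_zero, mul_one] at h2
      linarith
    have hU1 : c2 / 2 * (M : ℝ) ^ (β - e) ≤ U := by
      have h1 : ∑ k ∈ range (M + 1), u k = ∑ k ∈ range (J + 1), u k + U := by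
        rw [hU, range_eq_Ico, range_eq_Ico]
        have e3 : Ioc J M = Ico (J + 1) (M + 1) := by
          ext x
          simp only [mem_Ioc, mem_Ico]
          omega
        rw [e3]
        exact (sum_Ico_consecutive _ (Nat.zero_le _) (by omega)).symm
      have h2 := hUl M (by omega)
      have h3 := hUh J hJ1
      have h4 : (J : ℝ) ^ (β + e) ≤ (2 : ℝ) ^ (β + e) * (M : ℝ) ^ ((1 - δ) * (β + e)) := by
        calc (J : ℝ) ^ (β + e) ≤ (2 * X) ^ (β + e) := Real.rpow_le_rpow (by positivity) hJ2 (by linarith)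
          _ = _ := by rw [Real.mul_rpow (by norm_num) (by linarith), hX, ← Real.rpow_mul hM0'.le]
      have h5 := hM1 M (by omega)
      have h6 : C1 * (J : ℝ) ^ (β + e) ≤ c2 / 2 * (M : ℝ) ^ (β - e) := by
        refine le_trans (mul_le_mul_of_nonneg_left h4 hC1.le) (le_trans (le_of_eq ?_) h5)
        ring
      linarith
    have hUpos : 0 < U := lt_of_lt_of_le (by positivity) hU1
    have hApos : 0 < A := lt_of_lt_of_le (by positivity) hA1
    have hBpos : 0 < B := lt_of_lt_of_le (by positivity) hB1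
    have hVm : ∀ j ∈ Ioc J M, u j ≤ V := by
      intro j hj
      rw [mem_Ioc] at hj
      have hj0 : (J : ℝ) ≤ j := by exact_mod_cast hj.1.le
      refine (hu3 j (by omega)).trans ?_
      rw [hV]
      apply mul_le_mul_of_nonneg_left _ hC3.le
      rw [Real.rpow_mul hM0'.le, ← hX]
      exact Real.rpow_le_rpow_of_nonpos (by linarith) (hJX.trans hj0) (by linarith)
    obtain ⟨t, ht⟩ : ∃ t : ℝ, t = A * B * U / (2 * (N + 1)) := ⟨_, rfl⟩
    have ht0 : 0 ≤ t := by rw [ht]; positivity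
    have key := count ha hu (s := s) (D := D) (M := M) (J := J) (N := N) (by omega)
      (fun n => hconv n _ fun p hp => (mem_filter.1 hp).2) hA hB hU hV0.le hVm (t := t) ht0
      (by
        rw [ht]
        apply le_of_eq
        field_simp)
    obtain ⟨g, hg⟩ : ∃ g : ℝ, g = (((range (N + 1)).filter fun n => t ≤ D * s n).card : ℝ) := ⟨_, rfl⟩
    rw [← hg] at key
    have hABpos : 0 < A * B := by positivity
    have hUg : U ≤ 2 * V * g := by
      have : A * B * U ≤ A * B * (2 * V * g) := by linarith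
      exact le_of_mul_le_mul_left this hABpos
    have hgw : c5 * (M : ℝ) ^ w ≤ g := by
      have h1 : (M : ℝ) ^ w * (M : ℝ) ^ ((1 - δ) * (β - 1 + e)) = (M : ℝ) ^ (β - e) := by
        rw [← Real.rpow_add hM0']
        congr 1
        rw [hw]
        ring
      have h2 : c5 * (M : ℝ) ^ w * (2 * V) ≤ g * (2 * V) := by
        calc c5 * (M : ℝ) ^ w * (2 * V) = c2 / 2 * ((M : ℝ) ^ w * (M : ℝ) ^ ((1 - δ) * (β - 1 + e))) := by
              rw [hV, hc5]
              field_simp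
              ring
          _ = c2 / 2 * (M : ℝ) ^ (β - e) := by rw [h1]
          _ ≤ U := hU1
          _ ≤ _ := by linarith
      exact le_of_mul_le_mul_right h2 (by positivity)
    have hg1 : g ≤ (((Icc 1 N).filter fun n : ℕ => c * (n : ℝ) ^ (τ - ε) ≤ s n).card : ℝ) + 1 := by
      rw [hg]
      have hsub : ((range (N + 1)).filter fun n => t ≤ D * s n) ⊆
          insert 0 ((Icc 1 N).filter fun n : ℕ => c * (n : ℝ) ^ (τ - ε) ≤ s n) := by
        intro n hn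
        rw [mem_filter, mem_range] at hn
        rw [mem_insert]
        rcases Nat.eq_zero_or_pos n with h0 | h0
        · exact Or.inl h0
        · right
          rw [mem_filter, mem_Icc]
          refine ⟨⟨h0, by omega⟩, ?_⟩
          have hnN : (n : ℝ) ≤ N := by exact_mod_cast (by omega : n ≤ N)
          have h2 : (n : ℝ) ^ (τ - ε) ≤ 8 ^ (τ - ε) * (M : ℝ) ^ (τ - ε) := by
            rw [← Real.mul_rpow (by norm_num) hM0'.le]
            exact Real.rpow_le_rpow (by positivity) (hnN.trans hN8) (by linarith)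
          have h3 : c7 * (M : ℝ) ^ (τ - ε) ≤ t := by
            have h4 : (M : ℝ) ^ (τ - ε) ≤ (M : ℝ) ^ (τ - 3 * e) := Real.rpow_le_rpow_of_exponent_le hMR (by linarith)
            have h5 : (M : ℝ) ^ (τ - 3 * e) * M = (M : ℝ) ^ (σ - e) * (M : ℝ) ^ (σ - e) * (M : ℝ) ^ (β - e) := by
              rw [← Real.rpow_add hM0', ← Real.rpow_add hM0', ← Real.rpow_add_one hM0'.ne']
              congr 1
              rw [hτd]
              ring
            rw [ht, le_div_iff₀ (by positivity)]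
            have h6 : c4 / 2 * (M : ℝ) ^ (σ - e) * (c4 * (M : ℝ) ^ (σ - e)) * (c2 / 2 * (M : ℝ) ^ (β - e)) ≤
                A * B * U := by gcongr
            calc c7 * (M : ℝ) ^ (τ - ε) * (2 * (N + 1)) ≤ c7 * (M : ℝ) ^ (τ - 3 * e) * (2 * (8 * M)) := by gcongr
              _ = 16 * c7 * ((M : ℝ) ^ (τ - 3 * e) * M) := by ring
              _ = c4 / 2 * (M : ℝ) ^ (σ - e) * (c4 * (M : ℝ) ^ (σ - e)) * (c2 / 2 * (M : ℝ) ^ (β - e)) := by
                  rw [h5, hc7]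
                  ring
              _ ≤ _ := h6
          have h7 : c7 * (M : ℝ) ^ (τ - ε) ≤ D * s n := h3.trans hn.2
          calc c * (n : ℝ) ^ (τ - ε) ≤ c7 / 8 ^ (τ - ε) / D * (8 ^ (τ - ε) * (M : ℝ) ^ (τ - ε)) :=
                mul_le_mul hca h2 (by positivity) (by positivity)
            _ = c7 * (M : ℝ) ^ (τ - ε) / D := by field_simp
            _ ≤ s n := by
                rw [div_le_iff₀ hD]
                linarith
      have h8 := (card_le_card hsub).trans (card_insert_le _ _)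
      exact_mod_cast h8
    have h9 := hM4 M (by omega)
    rw [Real.rpow_zero, mul_one] at h9
    have h10 : (M : ℝ) ^ (1 - ε) ≤ (M : ℝ) ^ w := Real.rpow_le_rpow_of_exponent_le hMR hwε
    have h11 : (N : ℝ) ^ (1 - ε) ≤ 8 ^ (1 - ε) * (M : ℝ) ^ (1 - ε) := by
      rw [← Real.mul_rpow (by norm_num) hM0'.le]
      exact Real.rpow_le_rpow (by positivity) hN8 (by linarith)
    have h12 : c * (N : ℝ) ^ (1 - ε) ≤ c5 / 2 * (M : ℝ) ^ (1 - ε) := by
      calc c * (N : ℝ) ^ (1 - ε) ≤ c5 / 2 / 8 ^ (1 - ε) * (8 ^ (1 - ε) * (M : ℝ) ^ (1 - ε)) :=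
            mul_le_mul hcb h11 (by positivity) (by positivity)
        _ = _ := by field_simp
    have h13 : c5 / 2 * (M : ℝ) ^ (1 - ε) ≤ c5 / 2 * (M : ℝ) ^ w := by gcongr
    linarith

/-- **many large terms** -/
theorem typ_abs {σ β : ℝ} (hβ0 : 0 < β) (hβ1 : β < 1) (hτ : 0 < 2 * σ + β - 1)
    (ha : ∀ n, 0 ≤ a n) (hu : ∀ n, 0 ≤ u n) (hs : 0 < s 1) (hD : 0 < D)
    (hconv : ∀ n, ∀ F : Finset (ℕ × ℕ × ℕ), (∀ p ∈ F, p.1 + 2 * p.2.1 + p.2.2 = n) →
      ∑ p ∈ F, a (p.1 + 1) * (u p.2.1 * a p.2.2) ≤ D * s n)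
    (hlo : NUX.Lo (fun n => ∑ k ∈ range (n + 1), a k) σ)
    (hUlo : NUX.Lo (fun n => ∑ k ∈ range (n + 1), u k) β) (hUhi : NUX.Hi (fun n => ∑ k ∈ range (n + 1), u k) β)
    (hup : NUX.Hi u (β - 1)) {ε : ℝ} (hε : 0 < ε) :
    ∃ c : ℝ, 0 < c ∧ ∀ N : ℕ, 1 ≤ N → c * (N : ℝ) ^ (1 - ε) ≤
      (((Icc 1 N).filter fun n : ℕ => c * (n : ℝ) ^ (2 * σ + β - 1 - ε) ≤ s n).card : ℝ) := by
  classical
  obtain ⟨e, he⟩ : ∃ e : ℝ, e = min ε (min 1 (2 * σ + β - 1)) := ⟨_, rfl⟩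
  have he0 : 0 < e := by rw [he]; exact lt_min hε (lt_min one_pos hτ)
  have he1 : e ≤ ε := by rw [he]; exact min_le_left _ _
  have he2 : e ≤ 1 := by rw [he]; exact (min_le_right _ _).trans (min_le_left _ _)
  have he3 : e ≤ 2 * σ + β - 1 := by rw [he]; exact (min_le_right _ _).trans (min_le_right _ _)
  obtain ⟨c, hc, h⟩ := typ_small hβ0 hβ1 ha hu hs hD hconv hlo hUlo hUhi hup he0 he2 he3
  refine ⟨c, hc, fun N hN => ?_⟩
  have hNR : (1 : ℝ) ≤ N := by exact_mod_cast hN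
  have h1 : c * (N : ℝ) ^ (1 - ε) ≤ c * (N : ℝ) ^ (1 - e) :=
    mul_le_mul_of_nonneg_left (Real.rpow_le_rpow_of_exponent_le hNR (by linarith)) hc.le
  refine h1.trans ((h N hN).trans ?_)
  have h2 : ((Icc 1 N).filter fun n : ℕ => c * (n : ℝ) ^ (2 * σ + β - 1 - e) ≤ s n) ⊆
      ((Icc 1 N).filter fun n : ℕ => c * (n : ℝ) ^ (2 * σ + β - 1 - ε) ≤ s n) := by
    intro n hn
    rw [mem_filter, mem_Icc] at hn ⊢
    refine ⟨hn.1, le_trans (mul_le_mul_of_nonneg_left ?_ hc.le) hn.2⟩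
    exact Real.rpow_le_rpow_of_exponent_le (by exact_mod_cast hn.1.1) (by linarith)
  exact_mod_cast card_le_card h2

end Typ

end BAR

end HexObs
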