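import Pool.Agent.NUX.Ren6

/-!
Smoothness of a renewal sequence whose partial sums have an index `α > 1/2`:
`|u n - u (n + k)| ≤ C n ^ (α - 1 - d (2 α - 1) / 8)` for `k ≤ n ^ (1 - d)` (helper60).
-/

set_option autoImplicit false

namespace NUX

open Finset Complex MeasureTheory

variable {f u : ℕ → ℝ} {α : ℝ}

namespace Win

lemma int_pow_ne {a s : ℝ} (ha : 0 < a) (ha2 : a ≤ Real.pi) :
    IntervalIntegrable (fun θ : ℝ => θ ^ (-s)) volume a Real.pi := by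
  apply ContinuousOn.intervalIntegrable
  rw [Set.uIcc_of_le ha2]
  exact continuousOn_id.rpow_const fun x hx => Or.inl (by have := hx.1; simp only [id]; intro hc; linarith)

/-- the square of the generating function over the outer part of the circle -/
lemma sq_outer (h : Ren f u) {r : ℝ} (hr : 0 ≤ r) (hr1 : r < 1) {a s c1 : ℝ} (ha : 0 < a)
    (ha2 : a ≤ Real.pi) (hs : 1 < 2 * s) (hc1 : 0 < c1)
    (hB : ∀ φ : ℝ, a ≤ |φ| → |φ| ≤ Real.pi → ‖gf u (zz r φ)‖ ≤ 1 / (c1 * |φ| ^ s)) :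
    ∫ θ in a..(2 * Real.pi - a), ‖gf u (zz r θ)‖ ^ 2 ≤ 2 * ((c1 ^ 2)⁻¹ * (a ^ (1 - 2 * s) / (2 * s - 1))) := by
  have hpi := Real.pi_pos
  have hc : Continuous fun θ : ℝ => ‖gf u (zz r θ)‖ ^ 2 := ((cont_gf h hr hr1).norm).pow 2
  have hi : ∀ a b : ℝ, IntervalIntegrable (fun θ : ℝ => ‖gf u (zz r θ)‖ ^ 2) volume a b :=
    fun a b => hc.intervalIntegrable a b
  rw [← intervalIntegral.integral_add_adjacent_intervals (hi a Real.pi) (hi Real.pi (2 * Real.pi - a))]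
  have hrp : IntervalIntegrable (fun θ : ℝ => (c1 ^ 2)⁻¹ * θ ^ (-(2 * s))) volume a Real.pi :=
    (int_pow_ne ha ha2).const_mul _
  have hint : ∫ θ in a..Real.pi, (c1 ^ 2)⁻¹ * θ ^ (-(2 * s)) ≤ (c1 ^ 2)⁻¹ * (a ^ (1 - 2 * s) / (2 * s - 1)) := by
    rw [intervalIntegral.integral_const_mul]
    exact mul_le_mul_of_nonneg_left (int_pow_le ha ha2 hs) (by positivity)
  have hsq : ∀ φ : ℝ, a ≤ |φ| → |φ| ≤ Real.pi → ‖gf u (zz r φ)‖ ^ 2 ≤ (c1 ^ 2)⁻¹ * |φ| ^ (-(2 * s)) := by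
    intro φ h1 h2
    have hφ : 0 < |φ| := lt_of_lt_of_le ha h1
    have h3 := pow_le_pow_left₀ (norm_nonneg _) (hB φ h1 h2) 2
    refine h3.trans (le_of_eq ?_)
    have hX2 : |φ| ^ (-(2 * s)) = (|φ| ^ s * |φ| ^ s)⁻¹ := by
      rw [Real.rpow_neg hφ.le, two_mul s, Real.rpow_add hφ]
    rw [hX2]
    have hX : 0 < |φ| ^ s := by positivity
    generalize |φ| ^ s = X at hX
    field_simp
  have h1 : ∫ θ in a..Real.pi, ‖gf u (zz r θ)‖ ^ 2 ≤ (c1 ^ 2)⁻¹ * (a ^ (1 - 2 * s) / (2 * s - 1)) := by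
    refine le_trans (intervalIntegral.integral_mono_on ha2 (hi _ _) hrp fun θ hθ => ?_) hint
    have h0 : 0 ≤ θ := by have := hθ.1; linarith
    have := hsq θ (by rw [abs_of_nonneg h0]; exact hθ.1) (by rw [abs_of_nonneg h0]; exact hθ.2)
    rwa [abs_of_nonneg h0] at this
  have h2 : ∫ θ in Real.pi..(2 * Real.pi - a), ‖gf u (zz r θ)‖ ^ 2 ≤ (c1 ^ 2)⁻¹ * (a ^ (1 - 2 * s) / (2 * s - 1)) := by
    have e : ∫ θ in Real.pi..(2 * Real.pi - a), ‖gf u (zz r θ)‖ ^ 2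
        = ∫ θ in a..Real.pi, ‖gf u (zz r (2 * Real.pi - θ))‖ ^ 2 := by
      rw [intervalIntegral.integral_comp_sub_left (fun θ => ‖gf u (zz r θ)‖ ^ 2)]
      congr 1; ring
    rw [e]
    refine le_trans (intervalIntegral.integral_mono_on ha2
      ((hc.comp (continuous_const.sub continuous_id)).intervalIntegrable _ _) hrp fun θ hθ => ?_) hint
    have h0 : 0 ≤ θ := by have := hθ.1; linarith
    have h3 : zz r (2 * Real.pi - θ) = zz r (-θ) := by
      rw [← per_zz r (-θ)]; congr 1; ring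
    show ‖gf u (zz r (2 * Real.pi - θ))‖ ^ 2 ≤ _
    rw [h3]
    have := hsq (-θ) (by rw [abs_neg, abs_of_nonneg h0]; exact hθ.1)
      (by rw [abs_neg, abs_of_nonneg h0]; exact hθ.2)
    rwa [abs_neg, abs_of_nonneg h0] at this
  linarith

/-- the pointwise bound on the outer part of the circle -/
lemma sup_outer {r : ℝ} {a s c1 : ℝ} (ha : 0 < a) (hs : 0 ≤ s) (hc1 : 0 < c1)
    (hB : ∀ φ : ℝ, a ≤ |φ| → |φ| ≤ Real.pi → ‖gf u (zz r φ)‖ ≤ 1 / (c1 * |φ| ^ s)) {θ : ℝ}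
    (h1 : a ≤ θ) (h2 : θ ≤ 2 * Real.pi - a) : ‖gf u (zz r θ)‖ ≤ 1 / (c1 * a ^ s) := by
  have hpi := Real.pi_pos
  obtain ⟨φ, hφz, hφ1, hφ2⟩ : ∃ φ : ℝ, zz r θ = zz r φ ∧ a ≤ |φ| ∧ |φ| ≤ Real.pi := by
    by_cases hc : θ ≤ Real.pi
    · refine ⟨θ, rfl, ?_⟩
      rw [abs_of_nonneg (by linarith)]
      exact ⟨h1, hc⟩
    · push Not at hc
      refine ⟨θ - 2 * Real.pi, ?_, ?_⟩
      · rw [← per_zz r (θ - 2 * Real.pi)]; congr 1; ring
      · rw [abs_of_nonpos (by linarith)]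
        exact ⟨by linarith, by linarith⟩
  rw [hφz]
  refine (hB φ hφ1 hφ2).trans ?_
  apply one_div_le_one_div_of_le (by positivity)
  exact mul_le_mul_of_nonneg_left (Real.rpow_le_rpow ha.le hφ1 hs) hc1.le

/-- the oscillating integral over the outer part of the circle -/
lemma outer (h : Ren f u) {r : ℝ} (hr : 0 ≤ r) (hr1 : r < 1) {N : ℕ} (hN : 1 ≤ N) {a s c1 : ℝ} (ha : 0 < a)
    (ha2 : a ≤ Real.pi) (hab : 2 * a + Real.pi / N ≤ 2 * Real.pi) (hs : 1 < 2 * s) (hc1 : 0 < c1)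
    (hB : ∀ φ : ℝ, a ≤ |φ| → |φ| ≤ Real.pi → ‖gf u (zz r φ)‖ ≤ 1 / (c1 * |φ| ^ s)) :
    ‖∫ θ in a..(2 * Real.pi - a), Complex.exp ((-(N * θ) : ℝ) * I) * gf u (zz r θ)‖
      ≤ Real.pi / N * (1 / (c1 * a ^ s))
        + Real.pi / N * mm f N * ((c1 ^ 2)⁻¹ * (a ^ (1 - 2 * s) / (2 * s - 1))) := by
  have hN0 : (0 : ℝ) < N := by exact_mod_cast hN
  have hpi := Real.pi_pos
  have hcg := cont_gf h hr hr1
  obtain ⟨δ, hδ⟩ : ∃ δ : ℝ, δ = Real.pi / N := ⟨_, rfl⟩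
  obtain ⟨b, hb⟩ : ∃ b : ℝ, b = 2 * Real.pi - a := ⟨_, rfl⟩
  have hδ0 : 0 < δ := by rw [hδ]; positivity
  rw [← hb, ← hδ]
  have hab' : a + δ ≤ b := by rw [hb]; rw [← hδ] at hab; linarith
  obtain ⟨H, hH⟩ : ∃ H : ℝ → ℂ, H = fun θ => Complex.exp ((-(N * θ) : ℝ) * I) * gf u (zz r θ) := ⟨_, rfl⟩
  have hHc : Continuous H := by rw [hH]; fun_prop
  have hHi : ∀ x y : ℝ, IntervalIntegrable H volume x y := fun x y => hHc.intervalIntegrable x y
  have hnH : ∀ θ, ‖H θ‖ = ‖gf u (zz r θ)‖ := by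
    intro θ
    rw [hH]
    simp only [norm_mul, Complex.norm_exp_ofReal_mul_I, one_mul]
  have h3 : ∀ θ : ℝ, H (θ + δ) = -(Complex.exp ((-(N * θ) : ℝ) * I) * gf u (zz r (θ + δ))) := by
    intro θ
    have : ((-(N * (θ + δ)) : ℝ) : ℂ) * I = (-(N * θ) : ℝ) * I + -(Real.pi * I) := by
      have hnc : (N : ℂ) ≠ 0 := by exact_mod_cast hN0.ne'
      rw [hδ]; push_cast; field_simp; ring
    rw [hH]
    show Complex.exp ((-(N * (θ + δ)) : ℝ) * I) * gf u (zz r (θ + δ)) = _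
    rw [this, Complex.exp_add, Complex.exp_neg, Complex.exp_pi_mul_I]
    simp
  have hHc2 : Continuous fun θ => H (θ + δ) := hHc.comp (continuous_id.add continuous_const)
  have e0 : (2 : ℂ) * ∫ θ in a..b, H θ = (∫ θ in a..(a + δ), H θ) + (∫ θ in (b - δ)..b, H θ)
      + ∫ θ in a..(b - δ), (H θ + H (θ + δ)) := by
    have e1 := intervalIntegral.integral_add_adjacent_intervals (hHi a (a + δ)) (hHi (a + δ) b)
    have e2 := intervalIntegral.integral_add_adjacent_intervals (hHi a (b - δ)) (hHi (b - δ) b)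
    have e3 : ∫ θ in a..(b - δ), H (θ + δ) = ∫ θ in (a + δ)..b, H θ := by
      rw [intervalIntegral.integral_comp_add_right (fun θ => H θ)]
      congr 1; ring
    rw [intervalIntegral.integral_add (hHi _ _) (hHc2.intervalIntegrable _ _), e3]
    linear_combination (-1 : ℂ) * e1 - e2
  have hsup : ∀ θ : ℝ, a ≤ θ → θ ≤ b → ‖H θ‖ ≤ 1 / (c1 * a ^ s) := by
    intro θ h1 h2
    rw [hnH]
    exact sup_outer ha (by linarith) hc1 hB h1 (by rw [← hb]; exact h2)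
  have b1 : ‖∫ θ in a..(a + δ), H θ‖ ≤ δ * (1 / (c1 * a ^ s)) := by
    have := intervalIntegral.norm_integral_le_of_norm_le_const (a := a) (b := a + δ) (f := H)
      (C := 1 / (c1 * a ^ s)) (fun θ hθ => by
        rw [Set.uIoc_of_le (by linarith)] at hθ
        exact hsup θ hθ.1.le (by linarith [hθ.2]))
    rw [show a + δ - a = δ by ring, abs_of_pos hδ0] at this
    linarith
  have b2 : ‖∫ θ in (b - δ)..b, H θ‖ ≤ δ * (1 / (c1 * a ^ s)) := by
    have := intervalIntegral.norm_integral_le_of_norm_le_const (a := b - δ) (b := b) (f := H)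
      (C := 1 / (c1 * a ^ s)) (fun θ hθ => by
        rw [Set.uIoc_of_le (by linarith)] at hθ
        exact hsup θ (by linarith [hθ.1]) hθ.2)
    rw [show b - (b - δ) = δ by ring, abs_of_pos hδ0] at this
    linarith
  -- the main part
  obtain ⟨W, hW⟩ : ∃ W : ℝ → ℝ, W = fun θ => ‖gf u (zz r θ)‖ := ⟨_, rfl⟩
  have hWc : Continuous W := by rw [hW]; exact hcg.norm
  have hW0 : ∀ θ, 0 ≤ W θ := fun θ => by rw [hW]; exact norm_nonneg _
  have hWc2 : Continuous fun θ => W (θ + δ) := hWc.comp (continuous_id.add continuous_const)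
  have hWs : ∀ x y : ℝ, IntervalIntegrable (fun θ => W θ ^ 2) volume x y :=
    fun x y => (hWc.pow 2).intervalIntegrable x y
  have hmm := mm_nonneg h N
  have b3 : ‖∫ θ in a..(b - δ), (H θ + H (θ + δ))‖ ≤ δ * mm f N * ∫ θ in a..b, W θ ^ 2 := by
    have c1' : ‖∫ θ in a..(b - δ), (H θ + H (θ + δ))‖
        ≤ ∫ θ in a..(b - δ), δ * mm f N * ((W θ ^ 2 + W (θ + δ) ^ 2) / 2) := by
      refine (intervalIntegral.norm_integral_le_integral_norm (by linarith)).trans ?_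
      refine intervalIntegral.integral_mono_on (by linarith) ((hHc.add hHc2).norm.intervalIntegrable _ _)
        (Continuous.intervalIntegrable (by fun_prop) _ _) fun θ _ => ?_
      have e : H θ + H (θ + δ) = Complex.exp ((-(N * θ) : ℝ) * I) * (gf u (zz r θ) - gf u (zz r (θ + δ))) := by
        rw [h3, hH]; ring
      rw [e, norm_mul, Complex.norm_exp_ofReal_mul_I, one_mul]
      have h5 := norm_gf_sub_le h hr hr1 hN θ
      rw [← hδ] at h5
      refine h5.trans ?_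
      apply mul_le_mul_of_nonneg_left _ (by positivity)
      have h6 : W θ = ‖gf u (zz r θ)‖ := by rw [hW]
      have h7 : W (θ + δ) = ‖gf u (zz r (θ + δ))‖ := by rw [hW]
      rw [← h6, ← h7]
      nlinarith [sq_nonneg (W θ - W (θ + δ))]
    refine c1'.trans ?_
    rw [intervalIntegral.integral_const_mul]
    apply mul_le_mul_of_nonneg_left _ (by positivity)
    have e4 : ∫ θ in a..(b - δ), (W θ ^ 2 + W (θ + δ) ^ 2) / 2
        = ((∫ θ in a..(b - δ), W θ ^ 2) + ∫ θ in (a + δ)..b, W θ ^ 2) / 2 := by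
      have e5 : ∫ θ in a..(b - δ), W (θ + δ) ^ 2 = ∫ θ in (a + δ)..b, W θ ^ 2 := by
        rw [intervalIntegral.integral_comp_add_right (fun θ => W θ ^ 2)]
        congr 1; ring
      have hWs2 : IntervalIntegrable (fun θ => W (θ + δ) ^ 2) volume a (b - δ) :=
        Continuous.intervalIntegrable (by fun_prop) _ _
      rw [← e5, intervalIntegral.integral_div, intervalIntegral.integral_add (hWs _ _) hWs2]
    rw [e4]
    have e6 := intervalIntegral.integral_add_adjacent_intervals (hWs a (a + δ)) (hWs (a + δ) b)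
    have e7 := intervalIntegral.integral_add_adjacent_intervals (hWs a (b - δ)) (hWs (b - δ) b)
    have e8 : 0 ≤ ∫ θ in a..(a + δ), W θ ^ 2 :=
      intervalIntegral.integral_nonneg (by linarith) fun θ _ => sq_nonneg _
    have e9 : 0 ≤ ∫ θ in (b - δ)..b, W θ ^ 2 :=
      intervalIntegral.integral_nonneg (by linarith) fun θ _ => sq_nonneg _
    linarith
  have b4 : ∫ θ in a..b, W θ ^ 2 ≤ 2 * ((c1 ^ 2)⁻¹ * (a ^ (1 - 2 * s) / (2 * s - 1))) := by
    rw [hb, hW]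
    exact sq_outer h hr hr1 ha ha2 hs hc1 hB
  have b5 : δ * mm f N * ∫ θ in a..b, W θ ^ 2 ≤ δ * mm f N * (2 * ((c1 ^ 2)⁻¹ * (a ^ (1 - 2 * s) / (2 * s - 1)))) :=
    mul_le_mul_of_nonneg_left b4 (by positivity)
  have b6 : 2 * ‖∫ θ in a..b, H θ‖ ≤ 2 * (δ * (1 / (c1 * a ^ s)))
      + δ * mm f N * (2 * ((c1 ^ 2)⁻¹ * (a ^ (1 - 2 * s) / (2 * s - 1)))) := by
    have e5 : 2 * ‖∫ θ in a..b, H θ‖ = ‖(2 : ℂ) * ∫ θ in a..b, H θ‖ := by
      rw [norm_mul]; simp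
    rw [e5, e0]
    refine (norm_add₃_le).trans ?_
    linarith
  have e6 : ∫ θ in a..b, Complex.exp ((-(N * θ) : ℝ) * I) * gf u (zz r θ) = ∫ θ in a..b, H θ := by rw [hH]
  rw [e6]
  nlinarith

/-- the difference of two coefficients: inner part by the size of the function, outer parts by the oscillation -/
lemma diff_le (h : Ren f u) {r : ℝ} (hr : 0 ≤ r) (hr1 : r < 1) {n k : ℕ} (hn : 1 ≤ n) {a s c1 M : ℝ}
    (ha : 0 < a) (ha2 : 2 * a ≤ Real.pi) (hs : 1 < 2 * s) (hc1 : 0 < c1) (hM : ∀ θ, ‖gf u (zz r θ)‖ ≤ M)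
    (hB : ∀ φ : ℝ, a ≤ |φ| → |φ| ≤ Real.pi → ‖gf u (zz r φ)‖ ≤ 1 / (c1 * |φ| ^ s)) :
    2 * Real.pi * |u n * r ^ n - u (n + k) * r ^ (n + k)|
      ≤ 2 * a * (k * a * M) + 2 * (Real.pi / n * (1 / (c1 * a ^ s)))
        + 2 * (Real.pi / n * mm f (n + k) * ((c1 ^ 2)⁻¹ * (a ^ (1 - 2 * s) / (2 * s - 1)))) := by
  have hpi := Real.pi_pos
  have hn0 : (0 : ℝ) < n := by exact_mod_cast hn
  have hn1 : (1 : ℝ) ≤ n := by exact_mod_cast hn
  have hcg := cont_gf h hr hr1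
  have hM0 : 0 ≤ M := (norm_nonneg _).trans (hM 0)
  obtain ⟨H, hH⟩ : ∃ H : ℕ → ℝ → ℂ, H = fun (N : ℕ) (θ : ℝ) => Complex.exp ((-(N * θ) : ℝ) * I) * gf u (zz r θ) := ⟨_, rfl⟩
  have hHc : ∀ N, Continuous (H N) := fun N => by rw [hH]; fun_prop
  have hHi : ∀ N, ∀ x y : ℝ, IntervalIntegrable (H N) volume x y := fun N x y => (hHc N).intervalIntegrable x y
  have hper : ∀ N, Function.Periodic (H N) (2 * Real.pi) := by
    intro N θ
    rw [hH]
    simp only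
    rw [per_zz]
    congr 1
    have : ((-(N * (θ + 2 * Real.pi)) : ℝ) : ℂ) * I = (-(N * θ) : ℝ) * I + ((-(N : ℤ) : ℤ) : ℂ) * (2 * Real.pi * I) := by
      push_cast; ring
    rw [this, Complex.exp_add, Complex.exp_int_mul_two_pi_mul_I, mul_one]
  have hco : ∀ N : ℕ, 2 * (Real.pi : ℂ) * ((u N * r ^ N : ℝ) : ℂ)
      = (∫ θ in (-a)..a, H N θ) + ∫ θ in a..(2 * Real.pi - a), H N θ := by
    intro N
    have h1 := coef h hr hr1 N
    have h2 : ∫ θ in (-Real.pi)..Real.pi, H N θ = ∫ θ in (-a)..(2 * Real.pi - a), H N θ := by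
      have := (hper N).intervalIntegral_add_eq (-Real.pi) (-a)
      rw [show -Real.pi + 2 * Real.pi = Real.pi by ring, show -a + 2 * Real.pi = 2 * Real.pi - a by ring] at this
      exact this
    rw [intervalIntegral.integral_add_adjacent_intervals (hHi N _ _) (hHi N _ _), ← h2, ← h1, hH]
  have hin : ‖(∫ θ in (-a)..a, H n θ) - ∫ θ in (-a)..a, H (n + k) θ‖ ≤ 2 * a * (k * a * M) := by
    rw [← intervalIntegral.integral_sub (hHi _ _ _) (hHi _ _ _)]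
    have := intervalIntegral.norm_integral_le_of_norm_le_const (a := -a) (b := a)
      (f := fun θ => H n θ - H (n + k) θ) (C := k * a * M) (fun θ hθ => by
        rw [Set.uIoc_of_le (by linarith)] at hθ
        have h4 : |θ| ≤ a := abs_le.2 ⟨hθ.1.le, hθ.2⟩
        have e : H n θ - H (n + k) θ = (Complex.exp ((-(n * θ) : ℝ) * I)
            - Complex.exp ((-((n + k : ℕ) * θ) : ℝ) * I)) * gf u (zz r θ) := by
          rw [hH]; ring
        rw [e, norm_mul]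
        refine mul_le_mul ((norm_exp_sub _ _).trans ?_) (hM θ) (norm_nonneg _) (by positivity)
        have e2 : -(n * θ) - -((n + k : ℕ) * θ) = k * θ := by push_cast; ring
        rw [e2, abs_mul, Nat.abs_cast]
        exact mul_le_mul_of_nonneg_left h4 (Nat.cast_nonneg _))
    rw [show a - -a = 2 * a by ring, abs_of_pos (by linarith)] at this
    linarith
  have hd1 : Real.pi / (n : ℝ) ≤ Real.pi := div_le_self hpi.le hn1
  have hnk : (n : ℝ) ≤ ((n + k : ℕ) : ℝ) := by push_cast; linarith [Nat.cast_nonneg (α := ℝ) k]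
  have hd2 : Real.pi / ((n + k : ℕ) : ℝ) ≤ Real.pi / n := div_le_div_of_nonneg_left hpi.le hn0 hnk
  have o1 := outer h hr hr1 hn ha (by linarith) (by linarith) hs hc1 hB
  have o2 := outer h hr hr1 (N := n + k) (by omega) ha (by linarith) (by linarith) hs hc1 hB
  have hX : 0 ≤ 1 / (c1 * a ^ s) := by positivity
  have h2s : 0 < 2 * s - 1 := by linarith
  have hY : 0 ≤ (c1 ^ 2)⁻¹ * (a ^ (1 - 2 * s) / (2 * s - 1)) := by positivity
  have hmn : mm f n ≤ mm f (n + k) := mm_mono h (by omega)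
  have hmm := mm_nonneg h n
  have o1' : ‖∫ θ in a..(2 * Real.pi - a), H n θ‖ ≤ Real.pi / n * (1 / (c1 * a ^ s))
        + Real.pi / n * mm f (n + k) * ((c1 ^ 2)⁻¹ * (a ^ (1 - 2 * s) / (2 * s - 1))) := by
    rw [hH]
    refine o1.trans (add_le_add le_rfl ?_)
    apply mul_le_mul_of_nonneg_right _ hY
    exact mul_le_mul_of_nonneg_left hmn (by positivity)
  have o2' : ‖∫ θ in a..(2 * Real.pi - a), H (n + k) θ‖ ≤ Real.pi / n * (1 / (c1 * a ^ s))
        + Real.pi / n * mm f (n + k) * ((c1 ^ 2)⁻¹ * (a ^ (1 - 2 * s) / (2 * s - 1))) := by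
    rw [hH]
    refine o2.trans (add_le_add (mul_le_mul_of_nonneg_right hd2 hX) ?_)
    apply mul_le_mul_of_nonneg_right _ hY
    exact mul_le_mul_of_nonneg_right hd2 (hmm.trans hmn)
  have e1 : 2 * Real.pi * |u n * r ^ n - u (n + k) * r ^ (n + k)|
      = ‖2 * (Real.pi : ℂ) * ((u n * r ^ n : ℝ) : ℂ) - 2 * (Real.pi : ℂ) * ((u (n + k) * r ^ (n + k) : ℝ) : ℂ)‖ := by
    rw [← mul_sub, norm_mul, ← Complex.ofReal_sub, Complex.norm_real, Real.norm_eq_abs, norm_mul, Complex.norm_real,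
      Real.norm_of_nonneg hpi.le]
    simp
  rw [e1, hco, hco]
  have e2 : ∀ p q p' q' : ℂ, p + q - (p' + q') = (p - p') + q + -q' := by intros; ring
  rw [e2]
  refine (norm_add₃_le).trans ?_
  rw [norm_neg]
  linarith

/-- the difference at one `n` -/
lemma diff_at (h : Ren f u) {e cF cS Cm Cu d g : ℝ} (hcF : 0 < cF) (hcS : 0 < cS) (hCm : 0 < Cm) (hCu : 0 < Cu)
    (he : 0 < e) (hα : 1 / 2 < α) (hs1 : α + e < 1) (hd : 0 < d) (hd1 : d ≤ 1)
    (hg : g = d * (2 * α - 1) / 8) (heg : 3 * e ≤ g)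
    (hF : ∀ n : ℕ, 1 ≤ n → cF * (n : ℝ) ^ (-α - e) ≤ Fb f n)
    (hS : ∀ n : ℕ, 1 ≤ n → cS * (n : ℝ) ^ (2 - α - e) ≤ S2 f n)
    (hm : ∀ n : ℕ, 1 ≤ n → mm f n ≤ Cm * (n : ℝ) ^ (1 - α + e))
    (hu : ∀ n : ℕ, 1 ≤ n → u n ≤ Cu * (n : ℝ) ^ (α - 1 + e)) :
    ∃ C > 0, ∀ n : ℕ, 1 ≤ n → ∀ k : ℕ, (k : ℝ) ≤ (n : ℝ) ^ (1 - d) →
      |u n - u (n + k)| ≤ C * (n : ℝ) ^ (α - 1 - g) := by
  have hpi := Real.pi_pos
  obtain ⟨s, hs⟩ : ∃ s : ℝ, s = α + e := ⟨_, rfl⟩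
  have hs0 : 1 / 2 < s := by rw [hs]; linarith
  have h2s : 0 < 2 * s - 1 := by linarith
  have hg0 : 0 < g := by rw [hg]; apply div_pos (mul_pos hd (by linarith)) (by norm_num)
  have hgd : g ≤ d / 8 := by rw [hg]; nlinarith
  obtain ⟨κ, hκ⟩ : ∃ κ : ℝ, κ = d / 4 := ⟨_, rfl⟩
  obtain ⟨c1, hc1⟩ : ∃ c1 : ℝ, c1 = (2 / Real.pi ^ 2 / Real.exp 1) * (cS * (Real.pi / 2) ^ (2 - α - e)) := ⟨_, rfl⟩
  have hc1p : 0 < c1 := by rw [hc1]; positivity
  obtain ⟨A, hA⟩ : ∃ A : ℝ, A = 2 * Real.pi * (Real.pi * (2 / cF)) := ⟨_, rfl⟩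
  obtain ⟨B, hB⟩ : ∃ B : ℝ, B = 2 * (Real.pi * (1 / (c1 * Real.pi ^ s))) := ⟨_, rfl⟩
  obtain ⟨D, hD⟩ : ∃ D : ℝ, D = 2 * (Real.pi * (2 * Cm) * ((c1 ^ 2)⁻¹ * (Real.pi ^ (1 - 2 * s) / (2 * s - 1)))) := ⟨_, rfl⟩
  have hAp : 0 < A := by rw [hA]; positivity
  have hBp : 0 < B := by rw [hB]; positivity
  have hDp : 0 < D := by rw [hD]; positivity
  refine ⟨16 + Real.exp 1 * ((A + B + D) / (2 * Real.pi) + Cu), by positivity, fun n hn k hk => ?_⟩
  have hn1 : (1 : ℝ) ≤ n := by exact_mod_cast hn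
  have hn0 : (0 : ℝ) < n := by linarith
  have hP : 0 < (n : ℝ) ^ (α - 1 - g) := by positivity
  rcases Nat.lt_or_ge n 4 with hn4 | hn4
  · -- small n
    have h1 := u_nonneg h n
    have h2 := u_le_one h n
    have h3 := u_nonneg h (n + k)
    have h4 := u_le_one h (n + k)
    have h5 : |u n - u (n + k)| ≤ 1 := abs_le.2 ⟨by linarith, by linarith⟩
    have h6 : (n : ℝ) ≤ 4 := by exact_mod_cast hn4.le
    have h7 : (1 : ℝ) ≤ 16 * (n : ℝ) ^ (α - 1 - g) := by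
      have h8 : (n : ℝ) ^ (-2 : ℝ) ≤ (n : ℝ) ^ (α - 1 - g) :=
        Real.rpow_le_rpow_of_exponent_le hn1 (by linarith)
      have h9 : (1 : ℝ) / 16 ≤ (n : ℝ) ^ (-2 : ℝ) := by
        rw [Real.rpow_neg hn0.le, Real.rpow_two, ← one_div]
        apply one_div_le_one_div_of_le (by positivity)
        nlinarith
      linarith
    have h8 : 0 ≤ Real.exp 1 * ((A + B + D) / (2 * Real.pi) + Cu) := by positivity
    nlinarith
  have hn4r : (4 : ℝ) ≤ n := by exact_mod_cast hn4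
  obtain ⟨r, hr⟩ : ∃ r : ℝ, r = Real.exp (-(1 / (n : ℝ))) := ⟨_, rfl⟩
  have hr0 : 0 ≤ r := by rw [hr]; exact (Real.exp_pos _).le
  have hr1 : r < 1 := by rw [hr, Real.exp_lt_one_iff, neg_lt_zero]; positivity
  have hrn : r ^ n = Real.exp (-1) := by
    rw [hr, ← Real.exp_nat_mul]; congr 1; field_simp
  obtain ⟨a, ha⟩ : ∃ a : ℝ, a = Real.pi * (n : ℝ) ^ (κ - 1) := ⟨_, rfl⟩
  have ha0 : 0 < a := by rw [ha]; positivity
  have haπ : Real.pi / n ≤ a := by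
    rw [ha, div_eq_mul_inv, ← Real.rpow_neg_one]
    exact mul_le_mul_of_nonneg_left (Real.rpow_le_rpow_of_exponent_le hn1 (by rw [hκ]; linarith)) hpi.le
  have ha2 : 2 * a ≤ Real.pi := by
    have h1 : (n : ℝ) ^ (κ - 1) ≤ (n : ℝ) ^ (-(1 / 2) : ℝ) :=
      Real.rpow_le_rpow_of_exponent_le hn1 (by rw [hκ]; linarith)
    have h2 : (n : ℝ) ^ (-(1 / 2) : ℝ) ≤ 1 / 2 := by
      rw [Real.rpow_neg hn0.le, ← Real.sqrt_eq_rpow, ← one_div]
      apply one_div_le_one_div_of_le (by norm_num)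
      rw [show (2 : ℝ) = Real.sqrt 4 by rw [show (4 : ℝ) = 2 ^ 2 by norm_num]; simp]
      exact Real.sqrt_le_sqrt hn4r
    rw [ha]; nlinarith
  -- bound A
  have hbA : ∀ θ, ‖gf u (zz r θ)‖ ≤ 2 / cF * (n : ℝ) ^ s := by
    intro θ
    have h1 := re_ge_tail h hn θ
    rw [← hr] at h1
    have h2 := hF n hn
    have h3 : cF / 2 * (n : ℝ) ^ (-s) ≤ (1 - gf f (zz r θ)).re := by
      rw [show -s = -α - e by rw [hs]; ring]
      linarith
    have h4 := norm_gf_le h hr0 hr1 (D := cF / 2 * (n : ℝ) ^ (-s)) (by positivity) h3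
    refine h4.trans (le_of_eq ?_)
    rw [Real.rpow_neg hn0.le]; field_simp
  -- bound B
  have hbB : ∀ φ : ℝ, a ≤ |φ| → |φ| ≤ Real.pi → ‖gf u (zz r φ)‖ ≤ 1 / (c1 * |φ| ^ s) := by
    intro φ h1 h2
    have hφ : 0 < |φ| := lt_of_lt_of_le ha0 h1
    have h3 := D_low h hcS (by linarith) hS hn (haπ.trans h1) h2
    rw [← hc1, ← hs, ← hr] at h3
    exact norm_gf_le h hr0 hr1 (by positivity) h3
  have key := diff_le h hr0 hr1 (k := k) hn ha0 ha2 (by linarith) hc1p hbA hbB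
  have hkn : (k : ℝ) ≤ n := by
    refine hk.trans ?_
    calc (n : ℝ) ^ (1 - d) ≤ (n : ℝ) ^ (1 : ℝ) := Real.rpow_le_rpow_of_exponent_le hn1 (by linarith)
      _ = n := Real.rpow_one _
  -- the three terms
  have t1 : 2 * a * (k * a * (2 / cF * (n : ℝ) ^ s)) ≤ A * (n : ℝ) ^ (α - 1 - g) := by
    have e1 : 2 * a * (k * a * (2 / cF * (n : ℝ) ^ s)) = A * (k * ((n : ℝ) ^ (κ - 1) * (n : ℝ) ^ (κ - 1) * (n : ℝ) ^ s)) := by
      rw [ha, hA]; ring
    have e2 : (n : ℝ) ^ (κ - 1) * (n : ℝ) ^ (κ - 1) * (n : ℝ) ^ s = (n : ℝ) ^ (κ - 1 + (κ - 1) + s) := by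
      rw [Real.rpow_add hn0, Real.rpow_add hn0]
    rw [e1, e2]
    apply mul_le_mul_of_nonneg_left _ hAp.le
    calc (k : ℝ) * (n : ℝ) ^ (κ - 1 + (κ - 1) + s) ≤ (n : ℝ) ^ (1 - d) * (n : ℝ) ^ (κ - 1 + (κ - 1) + s) :=
          mul_le_mul_of_nonneg_right hk (by positivity)
      _ = (n : ℝ) ^ (1 - d + (κ - 1 + (κ - 1) + s)) := by rw [← Real.rpow_add hn0]
      _ ≤ _ := Real.rpow_le_rpow_of_exponent_le hn1 (by rw [hκ, hs]; linarith)
  have t2 : 2 * (Real.pi / n * (1 / (c1 * a ^ s))) ≤ B * (n : ℝ) ^ (α - 1 - g) := by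
    have e1 : a ^ s = Real.pi ^ s * (n : ℝ) ^ ((κ - 1) * s) := by
      rw [ha, Real.mul_rpow hpi.le (by positivity), ← Real.rpow_mul hn0.le]
    have e2 : 2 * (Real.pi / n * (1 / (c1 * a ^ s))) = B * (n : ℝ) ^ (-1 + -((κ - 1) * s)) := by
      rw [e1, hB, Real.rpow_add hn0, Real.rpow_neg hn0.le ((κ - 1) * s), Real.rpow_neg_one]
      have : 0 < (n : ℝ) ^ ((κ - 1) * s) := by positivity
      field_simp
    rw [e2]
    apply mul_le_mul_of_nonneg_left _ hBp.le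
    apply Real.rpow_le_rpow_of_exponent_le hn1
    rw [hκ, hg, hs] at *
    nlinarith
  have t3 : 2 * (Real.pi / n * mm f (n + k) * ((c1 ^ 2)⁻¹ * (a ^ (1 - 2 * s) / (2 * s - 1))))
      ≤ D * (n : ℝ) ^ (α - 1 - g) := by
    have h1 : mm f (n + k) ≤ 2 * Cm * (n : ℝ) ^ (1 - α + e) := by
      have h2 := hm (n + k) (by omega)
      have h3 : ((n + k : ℕ) : ℝ) ^ (1 - α + e) ≤ 2 * (n : ℝ) ^ (1 - α + e) := by
        calc ((n + k : ℕ) : ℝ) ^ (1 - α + e) ≤ (2 * (n : ℝ)) ^ (1 - α + e) := by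
              apply Real.rpow_le_rpow (by positivity) _ (by linarith)
              push_cast; linarith
          _ = 2 ^ (1 - α + e) * (n : ℝ) ^ (1 - α + e) := Real.mul_rpow (by norm_num) hn0.le
          _ ≤ 2 ^ (1 : ℝ) * (n : ℝ) ^ (1 - α + e) := by
              apply mul_le_mul_of_nonneg_right _ (by positivity)
              apply Real.rpow_le_rpow_of_exponent_le (by norm_num)
              linarith
          _ = _ := by rw [Real.rpow_one]
      calc mm f (n + k) ≤ Cm * ((n + k : ℕ) : ℝ) ^ (1 - α + e) := h2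
        _ ≤ Cm * (2 * (n : ℝ) ^ (1 - α + e)) := mul_le_mul_of_nonneg_left h3 hCm.le
        _ = _ := by ring
    have e1 : a ^ (1 - 2 * s) = Real.pi ^ (1 - 2 * s) * (n : ℝ) ^ ((κ - 1) * (1 - 2 * s)) := by
      rw [ha, Real.mul_rpow hpi.le (by positivity), ← Real.rpow_mul hn0.le]
    calc 2 * (Real.pi / n * mm f (n + k) * ((c1 ^ 2)⁻¹ * (a ^ (1 - 2 * s) / (2 * s - 1))))
        ≤ 2 * (Real.pi / n * (2 * Cm * (n : ℝ) ^ (1 - α + e)) * ((c1 ^ 2)⁻¹ * (a ^ (1 - 2 * s) / (2 * s - 1)))) := by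
          gcongr
      _ = D * (n : ℝ) ^ (-1 + (1 - α + e) + (κ - 1) * (1 - 2 * s)) := by
          have e2 : (n : ℝ) ^ (-1 + (1 - α + e) + (κ - 1) * (1 - 2 * s))
              = (n : ℝ)⁻¹ * (n : ℝ) ^ (1 - α + e) * (n : ℝ) ^ ((κ - 1) * (1 - 2 * s)) := by
            rw [Real.rpow_add hn0 (-1 + (1 - α + e)), Real.rpow_add hn0 (-1), Real.rpow_neg_one]
          rw [e1, e2, hD]
          field_simp
      _ ≤ _ := by
          apply mul_le_mul_of_nonneg_left _ hDp.le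
          apply Real.rpow_le_rpow_of_exponent_le hn1
          rw [hκ, hs]
          rw [hg] at heg ⊢
          nlinarith
  have hmain : 2 * Real.pi * |u n * r ^ n - u (n + k) * r ^ (n + k)| ≤ (A + B + D) * (n : ℝ) ^ (α - 1 - g) := by
    refine key.trans ?_
    linarith
  -- the passage from the damped to the undamped difference
  have h5 : u (n + k) * (r ^ n * (1 - r ^ k)) ≤ Cu * (n : ℝ) ^ (α - 1 - g) * r ^ n := by
    have h6 := hu (n + k) (by omega)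
    have h7 : ((n + k : ℕ) : ℝ) ^ (α - 1 + e) ≤ (n : ℝ) ^ (α - 1 + e) := by
      apply Real.rpow_le_rpow_of_nonpos hn0 _ (by linarith)
      push_cast; linarith [Nat.cast_nonneg (α := ℝ) k]
    have h8 : 1 - r ^ k ≤ (n : ℝ) ^ (-d) := by
      have h9 : r ^ k = Real.exp (-(k / n)) := by
        rw [hr, ← Real.exp_nat_mul]; congr 1; ring
      have h10 := Real.add_one_le_exp (-(k / n : ℝ))
      have h11 : (k : ℝ) / n ≤ (n : ℝ) ^ (-d) := by
        rw [div_le_iff₀ hn0]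
        calc (k : ℝ) ≤ (n : ℝ) ^ (1 - d) := hk
          _ = (n : ℝ) ^ (-d) * n := by
            rw [show 1 - d = -d + 1 by ring, Real.rpow_add_one hn0.ne']
      rw [h9]; linarith
    have h12 : 0 ≤ 1 - r ^ k := by
      have := pow_le_one₀ hr0 hr1.le (n := k)
      linarith
    have h13 : u (n + k) * (1 - r ^ k) ≤ Cu * (n : ℝ) ^ (α - 1 - g) := by
      calc u (n + k) * (1 - r ^ k) ≤ (Cu * (n : ℝ) ^ (α - 1 + e)) * (n : ℝ) ^ (-d) :=
            mul_le_mul (h6.trans (mul_le_mul_of_nonneg_left h7 hCu.le)) h8 h12 (by positivity)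
        _ = Cu * (n : ℝ) ^ (α - 1 + e + -d) := by rw [Real.rpow_add hn0 (α - 1 + e) (-d)]; ring
        _ ≤ _ := by
            apply mul_le_mul_of_nonneg_left _ hCu.le
            apply Real.rpow_le_rpow_of_exponent_le hn1
            linarith
    have h14 : 0 ≤ r ^ n := pow_nonneg hr0 n
    calc u (n + k) * (r ^ n * (1 - r ^ k)) = (u (n + k) * (1 - r ^ k)) * r ^ n := by ring
      _ ≤ _ := mul_le_mul_of_nonneg_right h13 h14
  have h6 : |u n - u (n + k)| * r ^ n ≤ |u n * r ^ n - u (n + k) * r ^ (n + k)| + u (n + k) * (r ^ n * (1 - r ^ k)) := by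
    have hrn0 : 0 ≤ r ^ n := pow_nonneg hr0 n
    have h12 : 0 ≤ 1 - r ^ k := by
      have := pow_le_one₀ hr0 hr1.le (n := k)
      linarith
    have e1 : (u n - u (n + k)) * r ^ n = (u n * r ^ n - u (n + k) * r ^ (n + k)) - u (n + k) * (r ^ n * (1 - r ^ k)) := by
      rw [pow_add]; ring
    calc |u n - u (n + k)| * r ^ n = |(u n - u (n + k)) * r ^ n| := by rw [abs_mul, abs_of_nonneg hrn0]
      _ ≤ |u n * r ^ n - u (n + k) * r ^ (n + k)| + |u (n + k) * (r ^ n * (1 - r ^ k))| := by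
          rw [e1]; exact abs_sub _ _
      _ = _ := by rw [abs_of_nonneg (mul_nonneg (u_nonneg h _) (mul_nonneg hrn0 h12))]
  have h7 : |u n - u (n + k)| * r ^ n ≤ ((A + B + D) / (2 * Real.pi)) * (n : ℝ) ^ (α - 1 - g) + Cu * (n : ℝ) ^ (α - 1 - g) * r ^ n := by
    have h8 : |u n * r ^ n - u (n + k) * r ^ (n + k)| ≤ ((A + B + D) / (2 * Real.pi)) * (n : ℝ) ^ (α - 1 - g) := by
      rw [div_mul_eq_mul_div, le_div_iff₀ (by positivity)]
      linarith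
    linarith
  have hexp : Real.exp 1 * Real.exp (-1) = 1 := by rw [← Real.exp_add]; simp
  have hexp1 : (1 : ℝ) ≤ Real.exp 1 := Real.one_le_exp (by norm_num)
  rw [hrn] at h7
  have h8 : |u n - u (n + k)| ≤ Real.exp 1 * (((A + B + D) / (2 * Real.pi)) * (n : ℝ) ^ (α - 1 - g)) + Cu * (n : ℝ) ^ (α - 1 - g) := by
    have h9 := mul_le_mul_of_nonneg_left h7 (Real.exp_pos 1).le
    have e1 : Real.exp 1 * (|u n - u (n + k)| * Real.exp (-1)) = |u n - u (n + k)| := by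
      rw [mul_comm (|u n - u (n + k)|), ← mul_assoc, hexp, one_mul]
    have e2 : Real.exp 1 * (((A + B + D) / (2 * Real.pi)) * (n : ℝ) ^ (α - 1 - g) + Cu * (n : ℝ) ^ (α - 1 - g) * Real.exp (-1))
        = Real.exp 1 * (((A + B + D) / (2 * Real.pi)) * (n : ℝ) ^ (α - 1 - g)) + Cu * (n : ℝ) ^ (α - 1 - g) := by
      rw [mul_add]
      have : Real.exp 1 * (Cu * (n : ℝ) ^ (α - 1 - g) * Real.exp (-1)) = (Real.exp 1 * Real.exp (-1)) * (Cu * (n : ℝ) ^ (α - 1 - g)) := by ring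
      rw [this, hexp, one_mul]
    rw [e1, e2] at h9
    exact h9
  have h9 : Cu * (n : ℝ) ^ (α - 1 - g) ≤ Real.exp 1 * (Cu * (n : ℝ) ^ (α - 1 - g)) := by
    have : 0 ≤ Cu * (n : ℝ) ^ (α - 1 - g) := by positivity
    nlinarith
  calc |u n - u (n + k)| ≤ Real.exp 1 * (((A + B + D) / (2 * Real.pi)) * (n : ℝ) ^ (α - 1 - g)) + Cu * (n : ℝ) ^ (α - 1 - g) := h8
    _ ≤ Real.exp 1 * (((A + B + D) / (2 * Real.pi)) * (n : ℝ) ^ (α - 1 - g)) + Real.exp 1 * (Cu * (n : ℝ) ^ (α - 1 - g)) := by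
        linarith
    _ ≤ (16 + Real.exp 1 * ((A + B + D) / (2 * Real.pi) + Cu)) * (n : ℝ) ^ (α - 1 - g) := by nlinarith

end Win

/-- **Smoothness of a renewal sequence of index `α > 1/2`** at the scale `n ^ (1 - d)`. -/
theorem u_smooth (h : Ren f u) (hα : 1 / 2 < α) (hα1 : α < 1) (hU : Hi (UU u) α) (hL : Lo (UU u) α)
    {d : ℝ} (hd : 0 < d) (hd1 : d ≤ 1) :
    ∃ C > 0, ∀ n : ℕ, 1 ≤ n → ∀ k : ℕ, (k : ℝ) ≤ (n : ℝ) ^ (1 - d) →
      |u n - u (n + k)| ≤ C * (n : ℝ) ^ (α - 1 - d * (2 * α - 1) / 8) := by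
  obtain ⟨g, hg⟩ : ∃ g : ℝ, g = d * (2 * α - 1) / 8 := ⟨_, rfl⟩
  have hg0 : 0 < g := by rw [hg]; apply div_pos (mul_pos hd (by linarith)) (by norm_num)
  obtain ⟨e, he, he1, he2⟩ : ∃ e : ℝ, 0 < e ∧ 3 * e ≤ g ∧ α + e < 1 := by
    refine ⟨min (g / 3) ((1 - α) / 2), lt_min (by positivity) (by linarith), ?_, ?_⟩
    · have := min_le_left (g / 3) ((1 - α) / 2); linarith
    · have := min_le_right (g / 3) ((1 - α) / 2); linarith
  have hm := mm_hi h hL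
  have hml := mm_lo h hU
  have hF := Fb_hi h hm
  have hFl := Fb_lo h (by linarith) hα1 hm hml
  have hS := S2_lo h (by linarith) hα1 hF hFl
  have hu := u_hi h hα.le hα1 hU hL
  obtain ⟨Cm, hCm, h1⟩ := hm e he
  obtain ⟨cF, hcF, h2⟩ := hFl e he
  obtain ⟨cS, hcS, h3⟩ := hS e he
  obtain ⟨Cu, hCu, h4⟩ := hu e he
  have := Win.diff_at h hcF hcS hCm hCu he hα he2 hd hd1 hg he1 h2 h3 h1 h4
  rwa [hg] at this

end NUX
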