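import Pool.Agent.BAR.HCut
import Mathlib.NumberTheory.Harmonic.Bounds

/-!
BAR: a bridge beside a half plane walk.
-/

set_option autoImplicit false

namespace HexObs

open Complex Finset ENNReal

namespace BAR

/-- one plus the logarithm -/
noncomputable def lg (n : ℕ) : ℝ := 1 + (Nat.log 2 n : ℝ)

lemma lg_one (n : ℕ) : 1 ≤ lg n := by
  unfold lg
  have : (0 : ℝ) ≤ (Nat.log 2 n : ℝ) := Nat.cast_nonneg _
  linarith

lemma lg_mono {a b : ℕ} (h : a ≤ b) : lg a ≤ lg b := by
  unfold lg
  have : (Nat.log 2 a : ℝ) ≤ Nat.log 2 b := by exact_mod_cast Nat.log_mono_right h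
  linarith

lemma harm_le (n : ℕ) : ∑ k ∈ Finset.range n, (1 : ℝ) / (k + 1) ≤ 2 * lg n := by
  rcases Nat.eq_zero_or_pos n with rfl | hn
  · simp only [Finset.range_zero, Finset.sum_empty]
    have := lg_one 0
    linarith
  · have h1 := harmonic_le_one_add_log n
    have h2 : ((harmonic n : ℚ) : ℝ) = ∑ k ∈ Finset.range n, (1 : ℝ) / (k + 1) := by
      unfold harmonic
      push_cast
      exact Finset.sum_congr rfl fun k _ => by rw [one_div]
    have h3 : Real.log n ≤ (Nat.log 2 n : ℝ) + 1 := by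
      have h4 : (n : ℝ) ≤ 2 ^ (Nat.log 2 n + 1) := by
        exact_mod_cast (Nat.lt_pow_succ_log_self (by norm_num) n).le
      calc Real.log n ≤ Real.log (2 ^ (Nat.log 2 n + 1)) := Real.log_le_log (by exact_mod_cast hn) h4
        _ = (Nat.log 2 n + 1 : ℕ) * Real.log 2 := Real.log_pow _ _
        _ ≤ (Nat.log 2 n + 1 : ℕ) * 1 := by
            refine mul_le_mul_of_nonneg_left ?_ (Nat.cast_nonneg _)
            have := Real.log_two_lt_d9
            linarith
        _ = (Nat.log 2 n : ℝ) + 1 := by push_cast; ring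
    rw [← h2]
    unfold lg
    have : (0 : ℝ) ≤ (Nat.log 2 n : ℝ) := Nat.cast_nonneg _
    linarith

lemma uu_div_le (r : ℕ) : uu (r + 1) / UU (r + 1) ≤ 1 / (r + 1) := by
  have hU := Num2Aux.UU_pos (r + 1)
  have h := Num2Aux.mul_le_UU (r + 1)
  push_cast at h
  rw [div_le_div_iff₀ hU (by positivity)]
  linarith

lemma uu_div_nonneg (r : ℕ) : 0 ≤ uu r / UU r := div_nonneg (Num2Aux.nonneg r) (Num2Aux.UU_pos r).le

lemma uu_div_le_one (r : ℕ) : uu r / UU r ≤ 1 := by
  rw [div_le_one (Num2Aux.UU_pos r)]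
  unfold UU
  exact Finset.single_le_sum (f := uu) (fun i _ => Num2Aux.nonneg i) (Finset.mem_range.2 (Nat.lt_succ_self r))

/-- sum of the ratios u / U -/
lemma sum_div_le (n : ℕ) : ∑ r ∈ Finset.range (n + 1), uu r / UU r ≤ 3 * lg n := by
  rw [Finset.sum_range_succ']
  have h1 : ∑ k ∈ Finset.range n, uu (k + 1) / UU (k + 1) ≤ ∑ k ∈ Finset.range n, (1 : ℝ) / (k + 1) :=
    Finset.sum_le_sum fun k _ => uu_div_le k
  have h2 := harm_le n
  have h3 := uu_div_le_one 0
  have h4 := lg_one n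
  linarith

/-- the averages of u decrease -/
lemma UU_avg {k u : ℕ} (h : k ≤ u) : ((k : ℝ) + 1) * UU u ≤ ((u : ℝ) + 1) * UU k := by
  induction u, h using Nat.le_induction with
  | base => exact le_rfl
  | succ n hn ih =>
    have h1 : UU (n + 1) = UU n + uu (n + 1) := Num2Aux.UU_succ n
    have h2 : ((k : ℝ) + 1) * uu (n + 1) ≤ UU k := by
      unfold UU
      have h3 : ∑ _t ∈ Finset.range (k + 1), uu (n + 1) ≤ ∑ t ∈ Finset.range (k + 1), uu t :=
        Finset.sum_le_sum fun t ht => Num2Aux.anti (by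
          rw [Finset.mem_range] at ht
          omega)
      rw [Finset.sum_const, Finset.card_range, nsmul_eq_mul] at h3
      push_cast at h3
      exact h3
    rw [h1]
    push_cast
    nlinarith

lemma inv_UU_le {k u : ℕ} (h : k ≤ u) : 1 / UU k ≤ (((u : ℝ) + 1) / UU u) * (1 / ((k : ℝ) + 1)) := by
  have hk := Num2Aux.UU_pos k
  have hu := Num2Aux.UU_pos u
  have h1 := UU_avg h
  have hk1 : (0 : ℝ) < (k : ℝ) + 1 := by positivity
  rw [div_mul_div_comm, mul_one, div_le_div_iff₀ hk (by positivity)]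
  linarith

lemma UU_half (u : ℕ) : UU u ≤ 2 * UU (u - u / 2) := by
  have h1 := UU_double (u - u / 2)
  have h2 : UU u ≤ UU (2 * (u - u / 2)) := Num2Aux.UU_mono (by omega)
  linarith

/-- convolution of u / U and 1 / U -/
lemma conv_sum (u : ℕ) : ∑ r ∈ Finset.range (u + 1), uu r / UU r * (1 / UU (u - r)) ≤ 20 * lg u / UU u := by
  have hU : ∀ n, 0 < UU n := Num2Aux.UU_pos
  have hlg := lg_one u
  have hterm : ∀ r ∈ Finset.range (u + 1), uu r / UU r * (1 / UU (u - r)) ≤
      (2 / UU u) * (uu r / UU r) + (if r = 0 then 0 else (4 / UU u) * (1 / ((u - r : ℕ) + 1))) := by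
    intro r hr
    have hr' : r ≤ u := by
      rw [Finset.mem_range] at hr
      omega
    have e0 := uu_div_nonneg r
    rcases Nat.lt_or_ge (u / 2) r with h | h
    · have hr0 : r ≠ 0 := by omega
      rw [if_neg hr0]
      have h1 : uu r / UU r ≤ 1 / r := by
        obtain ⟨s, rfl⟩ : ∃ s, r = s + 1 := ⟨r - 1, by omega⟩
        have := uu_div_le s
        push_cast
        exact this
      have h2 := inv_UU_le (show u - r ≤ u by omega)
      have hrpos : (0 : ℝ) < r := by exact_mod_cast Nat.pos_of_ne_zero hr0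
      have h3 : ((u : ℝ) + 1) / r ≤ 4 := by
        rw [div_le_iff₀ hrpos]
        have h5 : u + 1 ≤ 4 * r := by omega
        have h4 : ((u : ℝ) + 1) ≤ 4 * r := by exact_mod_cast h5
        exact h4
      have hk1 : (0 : ℝ) < ((u - r : ℕ) : ℝ) + 1 := by positivity
      have h4 : uu r / UU r * (1 / UU (u - r)) ≤ (4 / UU u) * (1 / ((u - r : ℕ) + 1)) := by
        calc uu r / UU r * (1 / UU (u - r)) ≤ (1 / r) * ((((u : ℝ) + 1) / UU u) * (1 / (((u - r : ℕ) : ℝ) + 1))) :=
              mul_le_mul h1 h2 (by have := hU (u - r); positivity) (by positivity)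
          _ = (((u : ℝ) + 1) / r) * ((1 / UU u) * (1 / (((u - r : ℕ) : ℝ) + 1))) := by
              field_simp
          _ ≤ 4 * ((1 / UU u) * (1 / (((u - r : ℕ) : ℝ) + 1))) :=
              mul_le_mul_of_nonneg_right h3 (by have := hU u; positivity)
          _ = _ := by ring
      have h5 : 0 ≤ (2 / UU u) * (uu r / UU r) := mul_nonneg (by have := hU u; positivity) e0
      linarith
    · have h1 : UU u ≤ 2 * UU (u - r) :=
        (UU_half u).trans (by
          have := Num2Aux.UU_mono (show u - u / 2 ≤ u - r by omega)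
          linarith)
      have h2 : 1 / UU (u - r) ≤ 2 / UU u := by
        rw [div_le_div_iff₀ (hU _) (hU _)]
        linarith
      have h3 : 0 ≤ (if r = 0 then (0 : ℝ) else (4 / UU u) * (1 / ((u - r : ℕ) + 1))) := by
        split_ifs
        · exact le_rfl
        · have := hU u
          positivity
      have h4 : uu r / UU r * (1 / UU (u - r)) ≤ (2 / UU u) * (uu r / UU r) := by
        rw [mul_comm]
        exact mul_le_mul_of_nonneg_right h2 e0
      linarith
  refine (Finset.sum_le_sum hterm).trans ?_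
  rw [Finset.sum_add_distrib, ← Finset.mul_sum]
  have h1 := sum_div_le u
  have h2 : ∑ r ∈ Finset.range (u + 1), (if r = 0 then (0 : ℝ) else (4 / UU u) * (1 / ((u - r : ℕ) + 1))) =
      (4 / UU u) * ∑ k ∈ Finset.range u, (1 : ℝ) / (k + 1) := by
    rw [Finset.sum_range_succ', if_pos rfl, add_zero, Finset.mul_sum, ← Finset.sum_range_reflect]
    refine Finset.sum_congr rfl fun k hk => ?_
    rw [if_neg (by omega)]
    rw [Finset.mem_range] at hk
    have e : u - (u - 1 - k + 1) = k := by omega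
    rw [e]
  rw [h2]
  have h3 := harm_le u
  have hUu := hU u
  have e1 : (2 / UU u) * ∑ r ∈ Finset.range (u + 1), uu r / UU r ≤ (2 / UU u) * (3 * lg u) :=
    mul_le_mul_of_nonneg_left h1 (by positivity)
  have e2 : (4 / UU u) * ∑ k ∈ Finset.range u, (1 : ℝ) / (k + 1) ≤ (4 / UU u) * (2 * lg u) :=
    mul_le_mul_of_nonneg_left h3 (by positivity)
  calc _ ≤ (2 / UU u) * (3 * lg u) + (4 / UU u) * (2 * lg u) := add_le_add e1 e2
    _ = 14 * lg u / UU u := by ring
    _ ≤ 20 * lg u / UU u := by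
        apply div_le_div_of_nonneg_right _ hUu.le
        linarith

/-- disjoint pairs of bridges, any heights, the left one is not higher -/
lemma gg_bound : ∃ C : ℝ, 1 ≤ C ∧ ∀ b a : ℕ, b ≤ a →
    gg b a ≤ ENNReal.ofReal (C * lg a ^ C * (uu a * (uu b / UU b))) := by
  obtain ⟨C, hC, h⟩ := cu_log
  refine ⟨max C 1, le_max_right _ _, ?_⟩
  intro b a hba
  have hla := lg_one a
  have hm : (1 : ℝ) ≤ max C 1 * lg a ^ (max C 1) := by
    have h1 : 1 ≤ lg a ^ (max C 1) := Real.one_le_rpow hla (le_trans zero_le_one (le_max_right _ _))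
    have h2 : 1 ≤ max C 1 := le_max_right _ _
    nlinarith
  have hn : 0 ≤ uu a * (uu b / UU b) := mul_nonneg (Num2Aux.nonneg a) (uu_div_nonneg b)
  rcases Nat.eq_zero_or_pos b with rfl | hb
  · refine (CuLogAux.gg_le_mul 0 a).trans ?_
    rw [CuLogAux.bt_eq, CuLogAux.bt_eq, ← ENNReal.ofReal_mul (Num2Aux.nonneg 0)]
    apply ENNReal.ofReal_le_ofReal
    have e : UU 0 = uu 0 := by
      unfold UU
      simp
    have e0 : uu 0 = 1 := Num2Aux.zero
    rw [e, e0]
    have := Num2Aux.nonneg a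
    nlinarith
  · refine (h a b hb hba).trans (ENNReal.ofReal_le_ofReal ?_)
    have e : uu a * uu b / UU b = uu a * (uu b / UU b) := by ring
    rw [e]
    refine mul_le_mul_of_nonneg_right ?_ hn
    have h1 : (1 + (Nat.log 2 b : ℝ)) ^ C ≤ lg a ^ (max C 1) := by
      have h2 : (1 + (Nat.log 2 b : ℝ)) = lg b := rfl
      rw [h2]
      calc lg b ^ C ≤ lg a ^ C := Real.rpow_le_rpow (le_trans zero_le_one (lg_one b)) (lg_mono hba) hC.le
        _ ≤ lg a ^ (max C 1) := Real.rpow_le_rpow_of_exponent_le hla (le_max_left _ _)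
    exact mul_le_mul (le_max_left _ _) h1 (Real.rpow_nonneg (le_trans zero_le_one (lg_one b)) _)
      (le_trans zero_le_one (le_max_right _ _))

/-- a half plane walk (left) beside a bridge is cut at its last cut below the height of the bridge -/
lemma g2_last (d u : ℕ) : g2 (SSt d) (Brd u) Dj ≤ ∑ r ∈ Finset.range (u + 1), gg r u * gf (NC (u - r) d) := by
  rw [g2_right]
  have h1 : ∀ t : List Bool, gf {s | s ∈ SSt d ∧ Dj s t} ≤
      ∑ r ∈ Finset.range (u + 1), gf {c | c ∈ Brd r ∧ Dj c t} * gf (NC (u - r) d) := by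
    intro t
    have hsub : {s | s ∈ SSt d ∧ Dj s t} ⊆ ⋃ r ∈ Finset.range (u + 1),
        {w | ∃ c ∈ {c | c ∈ Brd r ∧ Dj c t}, ∃ s ∈ NC (u - r) d, w = c ++ s} := by
      rintro w ⟨hw, hd⟩
      obtain ⟨r, hr, c, hc, s, hs, hcs⟩ := last_cut hw u
      rw [Set.mem_iUnion₂]
      refine ⟨r, Finset.mem_range.2 (by omega), c, ⟨hc, ?_⟩, s, hs, hcs⟩
      rw [hcs] at hd
      exact HangA.Dj_pref_left hd
    refine (gf_mono hsub).trans ((gf_bi_le _ _).trans (Finset.sum_le_sum fun r _ => ?_))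
    exact gf_le_mul fun w hw => hw
  calc ∑' t : {t : List Bool // t ∈ Brd u}, wE t.1 * gf {s | s ∈ SSt d ∧ Dj s t.1}
      ≤ ∑' t : {t : List Bool // t ∈ Brd u}, ∑ r ∈ Finset.range (u + 1),
        (wE t.1 * gf {c | c ∈ Brd r ∧ Dj c t.1}) * gf (NC (u - r) d) := by
        refine ENNReal.tsum_le_tsum fun t => ?_
        refine (mul_le_mul' le_rfl (h1 t.1)).trans (le_of_eq ?_)
        rw [Finset.mul_sum]
        exact Finset.sum_congr rfl fun r _ => by rw [mul_assoc]
    _ = _ := by
        rw [Summable.tsum_finsetSum fun i _ => ENNReal.summable]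
        refine Finset.sum_congr rfl fun r _ => ?_
        rw [ENNReal.tsum_mul_right, gg_eq_g2, g2_right]

/-- a half plane walk beside a bridge -/
theorem Yd_le : ∃ C : ℝ, 1 ≤ C ∧ ∀ d u : ℕ, u ≤ d →
    g2 (SSt d) (Brd u) Dj ≤ ENNReal.ofReal (C * lg u ^ C * (uu u / UU u)) * HH (2 * d) := by
  obtain ⟨C, hC, h⟩ := gg_bound
  have hU : ∀ n, 0 < UU n := Num2Aux.UU_pos
  refine ⟨40 * C + 1, by linarith, ?_⟩
  intro d u hud
  have hlg := lg_one u
  have hl0 : 0 < lg u := by linarith
  have hlC : 0 < lg u ^ C := Real.rpow_pos_of_pos hl0 _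
  refine (g2_last d u).trans ?_
  have h1 : ∀ r ∈ Finset.range (u + 1), gg r u * gf (NC (u - r) d) ≤
      ENNReal.ofReal ((2 * C * lg u ^ C * uu u) * (uu r / UU r * (1 / UU (u - r)))) * HH (2 * d) := by
    intro r hr
    have hr' : r ≤ u := by
      rw [Finset.mem_range] at hr
      omega
    refine (mul_le_mul' (h r u hr') (NC_le (show u - r ≤ d by omega))).trans ?_
    rw [← mul_assoc, ← ENNReal.ofReal_mul (by
      have h2 := uu_div_nonneg r
      have h3 := Num2Aux.nonneg u
      positivity)]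
    refine mul_le_mul' (ENNReal.ofReal_le_ofReal (le_of_eq ?_)) le_rfl
    ring
  refine (Finset.sum_le_sum h1).trans ?_
  rw [← Finset.sum_mul, ← ENNReal.ofReal_sum_of_nonneg (by
    intro r _
    have h2 := uu_div_nonneg r
    have h3 := Num2Aux.nonneg u
    have h4 := hU (u - r)
    positivity), ← Finset.mul_sum]
  refine mul_le_mul' (ENNReal.ofReal_le_ofReal ?_) le_rfl
  have h2 := conv_sum u
  have h3 := Num2Aux.nonneg u
  calc (2 * C * lg u ^ C * uu u) * ∑ r ∈ Finset.range (u + 1), uu r / UU r * (1 / UU (u - r))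
      ≤ (2 * C * lg u ^ C * uu u) * (20 * lg u / UU u) := mul_le_mul_of_nonneg_left h2 (by positivity)
    _ = (40 * C) * (lg u ^ C * lg u) * (uu u / UU u) := by ring
    _ ≤ (40 * C + 1) * (lg u ^ (40 * C + 1)) * (uu u / UU u) := by
        refine mul_le_mul_of_nonneg_right ?_ (uu_div_nonneg u)
        have e : lg u ^ C * lg u = lg u ^ (C + 1) := by
          rw [Real.rpow_add hl0, Real.rpow_one]
        rw [e]
        refine mul_le_mul (by linarith) (Real.rpow_le_rpow_of_exponent_le hlg (by linarith))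
          (Real.rpow_nonneg hl0.le _) (by linarith)

end BAR

end HexObs
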